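import Pool.Agent.Lib.MP_f88c17.Defs2

/-!
# Task NC: inserting a tiny element changes the conjugacy class
-/

set_option autoImplicit false

open Set Filter Topology
open scoped ContDiff

namespace Pool.Agent.F88

namespace NC

variable {F G : Dif} {α β : ℝ}

theorem el_mul (h : Act F G) (a b c a' b' c' : ℤ) :
    (F ^ a * G ^ b * T ^ c) * (F ^ a' * G ^ b' * T ^ c') =
      F ^ (a + a') * G ^ (b + b') * T ^ (c + c') := by
  have h1 : Commute (T ^ c) (F ^ a') := (h.FT.zpow_zpow a' c).symm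
  have h2 : Commute (T ^ c) (G ^ b') := (h.GT.zpow_zpow b' c).symm
  have h3 : Commute (G ^ b) (F ^ a') := (h.FG.zpow_zpow a' b).symm
  rw [zpow_add, zpow_add, zpow_add]
  calc F ^ a * G ^ b * T ^ c * (F ^ a' * G ^ b' * T ^ c')
      = F ^ a * G ^ b * (T ^ c * F ^ a') * G ^ b' * T ^ c' := by simp only [mul_assoc]
    _ = F ^ a * G ^ b * (F ^ a' * T ^ c) * G ^ b' * T ^ c' := by rw [h1.eq]
    _ = F ^ a * (G ^ b * F ^ a') * (T ^ c * G ^ b') * T ^ c' := by simp only [mul_assoc]
    _ = F ^ a * (F ^ a' * G ^ b) * (G ^ b' * T ^ c) * T ^ c' := by rw [h2.eq, h3.eq]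
    _ = F ^ a * F ^ a' * (G ^ b * G ^ b') * (T ^ c * T ^ c') := by simp only [mul_assoc]

theorem hasTau_mul (h : Act F G) {g g' : Dif} {t t' : ℝ} (hg : HasTau F G α β g t)
    (hg' : HasTau F G α β g' t') : HasTau F G α β (g * g') (t + t') := by
  obtain ⟨a, b, c, rfl, rfl⟩ := hg
  obtain ⟨a', b', c', rfl, rfl⟩ := hg'
  refine ⟨a + a', b + b', c + c', el_mul h a b c a' b' c', ?_⟩
  push_cast; ring

theorem hasTau_zpow (h : Act F G) {g : Dif} {t : ℝ} (hg : HasTau F G α β g t) (n : ℤ) :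
    HasTau F G α β (g ^ n) (n * t) := by
  obtain ⟨a, b, c, rfl, rfl⟩ := hg
  refine ⟨a * n, b * n, c * n, ?_, ?_⟩
  · have h1 : Commute (F ^ a) (T ^ c) := h.FT.zpow_zpow a c
    have h2 : Commute (G ^ b) (T ^ c) := h.GT.zpow_zpow b c
    have h3 : Commute (F ^ a) (G ^ b) := h.FG.zpow_zpow a b
    rw [(h1.mul_left h2).mul_zpow, h3.mul_zpow, zpow_mul, zpow_mul, zpow_mul]
  · push_cast; ring

theorem hasTau_inv (h : Act F G) {g : Dif} {t : ℝ} (hg : HasTau F G α β g t) :
    HasTau F G α β g⁻¹ (-t) := by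
  have := hasTau_zpow h hg (-1)
  simpa using this

theorem hasTau_F : HasTau F G α β F α := ⟨1, 0, 0, by simp, by simp⟩

theorem hasTau_G : HasTau F G α β G β := ⟨0, 1, 0, by simp, by simp⟩

theorem hasTau_T : HasTau F G α β T 1 := ⟨0, 0, 1, by simp, by simp⟩

theorem hasTau_pos (h : Free F G α β) {g : Dif} {t : ℝ} (hg : HasTau F G α β g t) (ht : 0 < t)
    (x : ℝ) : x < g x := by
  obtain ⟨a, b, c, rfl, rfl⟩ := hg
  exact h.pos a b c ht x

theorem hasTau_neg (h : Free F G α β) {g : Dif} {t : ℝ} (hg : HasTau F G α β g t) (ht : t < 0)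
    (x : ℝ) : g x < x := by
  have h1 := hasTau_pos h (hasTau_inv h.toAct hg) (by linarith) x
  exact g.lt_inv_iff.mp h1

theorem hasTau_zero (h : Free F G α β) {g : Dif} (hg : HasTau F G α β g 0) : g = 1 := by
  obtain ⟨a, b, c, rfl, h0⟩ := hg
  obtain ⟨rfl, rfl, rfl⟩ := h.indep a b c h0.symm
  simp

theorem pos_of_lt (h : Free F G α β) {g : Dif} {t : ℝ} (hg : HasTau F G α β g t) {x : ℝ}
    (hx : x < g x) : 0 < t := by
  by_contra hcon
  rcases (not_lt.mp hcon).lt_or_eq with h1 | h1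
  · exact absurd (hasTau_neg h hg h1 x) (not_lt.mpr hx.le)
  · subst h1
    rw [hasTau_zero h hg] at hx
    exact lt_irrefl _ hx

theorem neg_of_lt (h : Free F G α β) {g : Dif} {t : ℝ} (hg : HasTau F G α β g t) {x : ℝ}
    (hx : g x < x) : t < 0 := by
  by_contra hcon
  rcases (not_lt.mp hcon).lt_or_eq with h1 | h1
  · exact absurd (hasTau_pos h hg h1 x) (not_lt.mpr hx.le)
  · subst h1
    rw [hasTau_zero h hg] at hx
    exact lt_irrefl _ hx

theorem semi_zpow {P : ℝ → ℝ} {A Φ : Dif} (hP : ∀ x, P (A x) = Φ (P x)) (n : ℤ) :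
    ∀ x, P ((A ^ n) x) = (Φ ^ n) (P x) := by
  have hnat : ∀ (n : ℕ) (x : ℝ), P ((A ^ n) x) = (Φ ^ n) (P x) := by
    intro n
    induction n with
    | zero => intro x; simp
    | succ n ih =>
      intro x
      rw [pow_succ, pow_succ, Dif.mul_apply, Dif.mul_apply, ih, hP]
  cases n with
  | ofNat n => simpa using hnat n
  | negSucc n =>
    intro x
    rw [zpow_negSucc, zpow_negSucc]
    apply (Φ ^ (n + 1)).injective
    show (Φ ^ (n + 1)) (P ((A ^ (n + 1))⁻¹ x)) = (Φ ^ (n + 1)) ((Φ ^ (n + 1))⁻¹ (P x))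
    rw [Dif.apply_inv_self, ← hnat, Dif.apply_inv_self]

/-- two real numbers with the same comparison to all fractions -/
theorem eq_of_cmp {X Y : ℝ} (hXY : ∀ n m : ℤ, 0 < n * X - m → 0 < n * Y - m) : X = Y := by
  rcases lt_trichotomy X Y with h | h | h
  · exfalso
    obtain ⟨q, h1, h2⟩ := exists_rat_btwn h
    have hd : (0 : ℝ) < q.den := by exact_mod_cast q.den_pos
    have hq : (q : ℝ) = q.num / q.den := by exact_mod_cast (Rat.num_div_den q).symm
    rw [hq, lt_div_iff₀ hd] at h1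
    rw [hq, div_lt_iff₀ hd] at h2
    have := hXY (-(q.den : ℤ)) (-q.num) (by push_cast; linarith)
    push_cast at this
    linarith
  · exact h
  · exfalso
    obtain ⟨q, h1, h2⟩ := exists_rat_btwn h
    have hd : (0 : ℝ) < q.den := by exact_mod_cast q.den_pos
    have hq : (q : ℝ) = q.num / q.den := by exact_mod_cast (Rat.num_div_den q).symm
    rw [hq, lt_div_iff₀ hd] at h1
    rw [hq, div_lt_iff₀ hd] at h2
    have := hXY (q.den : ℤ) q.num (by push_cast; linarith)
    push_cast at this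
    linarith

/-- the arithmetic: translation numbers determined through the increasing conjugacy -/
theorem key_inc (h : Free F G α β) {P : ℝ → ℝ} (hP : StrictMono P) {A D E : Dif} {a d t : ℝ}
    (hA : HasTau F G α β A a) (hD : HasTau F G α β D d) (hd : 0 < d) (hE : HasTau F G α β E t)
    {j : ℤ} (h1 : ∀ x, P (A x) = E (P x) + j) (h2 : ∀ x, P (D x) = P x + 1) :
    a = (t + j) * d := by
  have h1' : ∀ x, P (A x) = (T ^ j * E) (P x) := by
    intro x; rw [h1, Dif.mul_apply, T_zpow_apply]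
  have h2' : ∀ x, P (D x) = T (P x) := by
    intro x; rw [h2, T_apply]
  have hE' : HasTau F G α β (T ^ j * E) (j * 1 + t) :=
    hasTau_mul h.toAct (hasTau_zpow h.toAct hasTau_T j) hE
  have key : ∀ n m : ℤ, 0 < n * (a / d) - m → 0 < n * (t + j) - m := by
    intro n m hnm
    have hpos : 0 < (n : ℝ) * a + ((-m : ℤ) : ℝ) * d := by
      have := mul_pos hnm hd
      have e : (n * (a / d) - m) * d = (n : ℝ) * a + ((-m : ℤ) : ℝ) * d := by
        push_cast; field_simp; ring
      rwa [e] at this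
    have hT1 := hasTau_mul h.toAct (hasTau_zpow h.toAct hA n) (hasTau_zpow h.toAct hD (-m))
    have hlt := hP (hasTau_pos h hT1 hpos 0)
    rw [Dif.mul_apply, semi_zpow h1' n, semi_zpow h2' (-m), ← Dif.mul_apply] at hlt
    have hT2 := hasTau_mul h.toAct (hasTau_zpow h.toAct hE' n)
      (hasTau_zpow h.toAct (hasTau_T (F := F) (G := G) (α := α) (β := β)) (-m))
    have := pos_of_lt h hT2 hlt
    push_cast at this
    linarith
  have := eq_of_cmp key
  rw [← this]
  field_simp

theorem key_dec (h : Free F G α β) {P : ℝ → ℝ} (hP : StrictAnti P) {A D E : Dif} {a d t : ℝ}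
    (hA : HasTau F G α β A a) (hD : HasTau F G α β D d) (hd : 0 < d) (hE : HasTau F G α β E t)
    {j : ℤ} (h1 : ∀ x, P (A x) = E (P x) + j) (h2 : ∀ x, P (D x) = P x - 1) :
    a = -(t + j) * d := by
  have h1' : ∀ x, P (A x) = (T ^ j * E) (P x) := by
    intro x; rw [h1, Dif.mul_apply, T_zpow_apply]
  have h2' : ∀ x, P (D x) = (T ^ (-1 : ℤ)) (P x) := by
    intro x; rw [h2, T_zpow_apply]; push_cast; ring
  have hE' : HasTau F G α β (T ^ j * E) (j * 1 + t) :=
    hasTau_mul h.toAct (hasTau_zpow h.toAct hasTau_T j) hE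
  have hTi : HasTau F G α β (T ^ (-1 : ℤ)) (-1) := by
    have := hasTau_zpow h.toAct (hasTau_T (F := F) (G := G) (α := α) (β := β)) (-1)
    simpa using this
  have key : ∀ n m : ℤ, 0 < n * (a / d) - m → 0 < n * (-(t + j)) - m := by
    intro n m hnm
    have hpos : 0 < (n : ℝ) * a + ((-m : ℤ) : ℝ) * d := by
      have := mul_pos hnm hd
      have e : (n * (a / d) - m) * d = (n : ℝ) * a + ((-m : ℤ) : ℝ) * d := by
        push_cast; field_simp; ring
      rwa [e] at this
    have hT1 := hasTau_mul h.toAct (hasTau_zpow h.toAct hA n) (hasTau_zpow h.toAct hD (-m))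
    have hlt := hP (hasTau_pos h hT1 hpos 0)
    rw [Dif.mul_apply, semi_zpow h1' n, semi_zpow h2' (-m), ← Dif.mul_apply] at hlt
    have hT2 := hasTau_mul h.toAct (hasTau_zpow h.toAct hE' n)
      (hasTau_zpow h.toAct hTi (-m))
    have := neg_of_lt h hT2 hlt
    push_cast at this
    linarith
  have := eq_of_cmp key
  rw [← this]
  field_simp

end NC

open NC

theorem nonconj {F G : Dif} {α β : ℝ} (h : Free F G α β) :
    ∃ κ > (0 : ℝ), ∀ (s ψ : Dif) (τs : ℝ) (cF cG Q : ℤ),
    HasTau F G α β s τs → s ≠ 1 → (cF ≠ 0 ∨ cG ≠ 0 ∨ Q ≠ 0) →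
    |τs| * (1 + |(cF : ℝ)| + |(cG : ℝ)| + |(Q : ℝ)|) < κ →
    ¬ ConjTo F G (ψ * (F * s ^ (-cF)) * ψ⁻¹) (ψ * (G * s ^ (-cG)) * ψ⁻¹)
      (ψ * (T * s ^ (-Q)) * ψ⁻¹) := by
  have hδ : 0 < |2 * α - round (2 * α)| := by
    rw [abs_pos]
    intro h0
    have := h.indep 2 0 (-round (2 * α)) (by push_cast; linarith)
    exact absurd this.1 (by norm_num)
  set δ := |2 * α - round (2 * α)| with hδdef
  have hA1 : 0 < 1 + |α| := by positivity
  have hB1 : 0 < 1 + |β| := by positivity
  refine ⟨min (1 / 2) (min (δ / (4 * (1 + |α|))) (min (1 / (4 * (1 + |α|))) (1 / (4 * (1 + |β|))))),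
    by positivity, ?_⟩
  intro s ψ τs cF cG Q hs hs1 hne hκ hconj
  obtain ⟨k1, hκ⟩ := lt_min_iff.mp hκ
  obtain ⟨k2, hκ⟩ := lt_min_iff.mp hκ
  obtain ⟨k3, k4⟩ := lt_min_iff.mp hκ
  set K := |τs| * (1 + |(cF : ℝ)| + |(cG : ℝ)| + |(Q : ℝ)|) with hK
  rw [lt_div_iff₀ (by positivity)] at k2 k3 k4
  have n1 : 0 ≤ |τs| := abs_nonneg _
  have n2 : 0 ≤ |(cF : ℝ)| := abs_nonneg _
  have n3 : 0 ≤ |(cG : ℝ)| := abs_nonneg _
  have n4 : 0 ≤ |(Q : ℝ)| := abs_nonneg _
  have m1 : |cF * τs| ≤ K := by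
    rw [abs_mul, hK]; nlinarith [mul_nonneg n1 n2, mul_nonneg n1 n3, mul_nonneg n1 n4]
  have m2 : |cG * τs| ≤ K := by
    rw [abs_mul, hK]; nlinarith [mul_nonneg n1 n2, mul_nonneg n1 n3, mul_nonneg n1 n4]
  have m3 : |Q * τs| ≤ K := by
    rw [abs_mul, hK]; nlinarith [mul_nonneg n1 n2, mul_nonneg n1 n3, mul_nonneg n1 n4]
  have m4 : Q * τs ≤ 1 / 2 := (le_abs_self _).trans (m3.trans k1.le)
  have hd : 0 < 1 - Q * τs := by linarith
  have hτ : τs ≠ 0 := by
    rintro rfl
    exact hs1 (hasTau_zero h hs)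
  -- the estimates
  have small : ∀ (t w : ℝ) (c : ℤ), |c * τs| ≤ K → w * (1 - Q * τs) = t * (Q * τs) - c * τs ∨
      w * (1 - Q * τs) = c * τs - t * (Q * τs) → |w| ≤ 2 * (K * (1 + |t|)) := by
    intro t w c hc hw
    have h1 : |w * (1 - Q * τs)| ≤ K * (1 + |t|) := by
      have h2 : |t * (Q * τs)| ≤ |t| * K := by
        rw [abs_mul]; exact mul_le_mul_of_nonneg_left m3 (abs_nonneg _)
      rcases hw with hw | hw
      · rw [hw]
        calc _ ≤ |t * (Q * τs)| + |c * τs| := abs_sub _ _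
          _ ≤ _ := by linarith
      · rw [hw]
        calc _ ≤ |c * τs| + |t * (Q * τs)| := abs_sub _ _
          _ ≤ _ := by linarith
    rw [abs_mul, abs_of_pos hd] at h1
    nlinarith [abs_nonneg w]
  obtain ⟨H, ⟨hH1, hH2⟩, j₁, j₂, e, he, hF, hG, hT⟩ := hconj
  set P : ℝ → ℝ := fun x => H (ψ x) with hPdef
  have hPc : Continuous P := hH1.continuous.comp ψ.continuous
  have hPi : Function.Injective P := H.injective.comp ψ.injective
  have eF : ∀ x, P ((F * s ^ (-cF)) x) = F (P x) + j₁ := by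
    intro x
    have := hF (ψ x)
    simpa [hPdef] using this
  have eG : ∀ x, P ((G * s ^ (-cG)) x) = G (P x) + j₂ := by
    intro x
    have := hG (ψ x)
    simpa [hPdef] using this
  have eT : ∀ x, P ((T * s ^ (-Q)) x) = P x + e := by
    intro x
    have := hT (ψ x)
    simpa [hPdef] using this
  have tA : HasTau F G α β (F * s ^ (-cF)) (α - cF * τs) := by
    have := hasTau_mul h.toAct (hasTau_F (F := F) (G := G) (α := α) (β := β))
      (hasTau_zpow h.toAct hs (-cF))
    convert this using 1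
    push_cast; ring
  have tB : HasTau F G α β (G * s ^ (-cG)) (β - cG * τs) := by
    have := hasTau_mul h.toAct (hasTau_G (F := F) (G := G) (α := α) (β := β))
      (hasTau_zpow h.toAct hs (-cG))
    convert this using 1
    push_cast; ring
  have tD : HasTau F G α β (T * s ^ (-Q)) (1 - Q * τs) := by
    have := hasTau_mul h.toAct (hasTau_T (F := F) (G := G) (α := α) (β := β))
      (hasTau_zpow h.toAct hs (-Q))
    convert this using 1
    push_cast; ring
  have hmove : (0 : ℝ) < (T * s ^ (-Q)) 0 := hasTau_pos h tD hd 0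
  rcases he with rfl | rfl
  · -- increasing
    have hmono : StrictMono P := by
      rcases hPc.strictMono_of_inj hPi with hm | hm
      · exact hm
      · exfalso
        have := hm hmove
        rw [eT] at this
        push_cast at this
        linarith
    have eT' : ∀ x, P ((T * s ^ (-Q)) x) = P x + 1 := by
      intro x; rw [eT]; push_cast; ring
    have r1 := key_inc h hmono tA tD hd hasTau_F eF eT'
    have r2 := key_inc h hmono tB tD hd hasTau_G eG eT'
    have s1 := small α j₁ cF m1 (Or.inl (by linarith))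
    have s2 := small β j₂ cG m2 (Or.inl (by linarith))
    have z1 : j₁ = 0 := by
      have : |(j₁ : ℝ)| < 1 := by linarith
      have h3 : |j₁| < 1 := by exact_mod_cast this
      exact Int.abs_lt_one_iff.mp h3
    have z2 : j₂ = 0 := by
      have : |(j₂ : ℝ)| < 1 := by linarith
      have h3 : |j₂| < 1 := by exact_mod_cast this
      exact Int.abs_lt_one_iff.mp h3
    subst z1 z2
    have q1 : (Q : ℝ) * α + ((0 : ℤ) : ℝ) * β + ((-cF : ℤ) : ℝ) = 0 := by
      have : τs * (Q * α - cF) = 0 := by push_cast at r1; linarith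
      rcases mul_eq_zero.mp this with h0 | h0
      · exact absurd h0 hτ
      · push_cast; linarith
    have q2 : ((0 : ℤ) : ℝ) * α + (Q : ℝ) * β + ((-cG : ℤ) : ℝ) = 0 := by
      have : τs * (Q * β - cG) = 0 := by push_cast at r2; linarith
      rcases mul_eq_zero.mp this with h0 | h0
      · exact absurd h0 hτ
      · push_cast; linarith
    have i1 := h.indep _ _ _ q1
    have i2 := h.indep _ _ _ q2
    rcases hne with h0 | h0 | h0
    · exact h0 (by linarith [i1.2.2])
    · exact h0 (by linarith [i2.2.2])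
    · exact h0 i1.1
  · -- decreasing
    have hanti : StrictAnti P := by
      rcases hPc.strictMono_of_inj hPi with hm | hm
      · exfalso
        have := hm hmove
        rw [eT] at this
        push_cast at this
        linarith
      · exact hm
    have eT' : ∀ x, P ((T * s ^ (-Q)) x) = P x - 1 := by
      intro x; rw [eT]; push_cast; ring
    have r1 := key_dec h hanti tA tD hd hasTau_F eF eT'
    have s1 := small α (2 * α + j₁) cF m1 (Or.inr (by linarith))
    have s2 : δ ≤ |2 * α + j₁| := by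
      have := round_le (2 * α) (-j₁)
      push_cast at this
      rw [sub_neg_eq_add] at this
      exact this
    linarith

end Pool.Agent.F88
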