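import Pool.Agent.Lib.MP_f88c17.Closeness
import Pool.Agent.Lib.MP_f88c17.NC

/-!
# Assembly of the irrational case
-/

set_option autoImplicit false

open Set Filter Topology
open scoped ContDiff

namespace Pool.Agent.F88

namespace AA

open NC

variable {F G : Dif} {α β : ℝ}

/-- composing with a diffeomorphism close to the identity -/
theorem near_mul_small (G : Dif) (r : ℕ) (R : ℝ) {δ : ℝ} (hδ : 0 < δ) :
    ∃ ε > (0 : ℝ), ∀ s : Dif, (∀ l ≤ r, ∀ x, |iteratedDeriv l (fun y => s y - y) x| ≤ ε) →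
      Near r δ R (G * s : Dif) G := by
  by_contra hcon
  push Not at hcon
  have hpos : ∀ n : ℕ, (0 : ℝ) < 1 / ((n : ℝ) + 1) := fun n => by positivity
  choose s hs hs' using fun n : ℕ => hcon (1 / ((n : ℝ) + 1)) (hpos n)
  have h1 : ∀ x : ℝ, CC r atTop (fun n : ℕ => (s n : ℝ → ℝ)) ((1 : Dif) : ℝ → ℝ) x := by
    intro x
    refine CC.of_near (1 : Dif).contDiff isOpen_univ (fun ε hε => ?_) (mem_univ x)
    obtain ⟨N, hN⟩ := exists_nat_one_div_lt hε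
    filter_upwards [eventually_ge_atTop N] with n hn k hk y _
    have h2 := hs n k hk y
    have h3 : iteratedDeriv k (fun y => s n y - y) y =
        iteratedDeriv k (fun y => s n y) y - iteratedDeriv k (fun y => (1 : Dif) y) y := by
      have e1 : ContDiffAt ℝ k (fun x => s n x) y :=
        ((s n).contDiff.of_le (by exact_mod_cast le_top)).contDiffAt
      have e2 : ContDiffAt ℝ k (fun x : ℝ => (1 : Dif) x) y :=
        ((1 : Dif).contDiff.of_le (by exact_mod_cast le_top)).contDiffAt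
      exact iteratedDeriv_sub e1 e2
    rw [h3] at h2
    refine h2.trans (le_trans ?_ hN.le)
    exact one_div_le_one_div_of_le (by positivity) (by exact_mod_cast Nat.succ_le_succ hn)
  have h2 : ∀ x : ℝ, CC r atTop (fun n : ℕ => ((G * s n : Dif) : ℝ → ℝ)) ((G * 1 : Dif) : ℝ → ℝ) x :=
    fun x => Dif.CC_mul (f := fun _ => G) (f' := s) (Dif.CC_const G _) (h1 x)
  rw [mul_one] at h2
  have h3 := CC.near G.contDiff (isCompact_Icc (a := -R) (b := R)) (fun x _ => h2 x) hδ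
  obtain ⟨n, hn⟩ := h3.exists
  apply hs' n
  intro l hl x hx
  exact (hn x hx l hl).le

/-- the translation number of an element close to the identity -/
theorem tau_le (h : Free F G α β) {s : Dif} {t ε : ℝ} (hs : HasTau F G α β s t)
    (hε : ∀ x, s x - x ≤ ε) : t ≤ ε := by
  have hpow : ∀ (n : ℕ) (x : ℝ), (s ^ n) x ≤ x + n * ε := by
    intro n
    induction n with
    | zero => intro x; simp
    | succ n ih =>
      intro x
      rw [pow_succ', Dif.mul_apply]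
      have h1 := hε ((s ^ n) x)
      have h2 := ih x
      push_cast
      linarith
  by_contra hcon
  push Not at hcon
  obtain ⟨n, hn⟩ := exists_nat_gt (1 / (t - ε))
  have hpos : 0 < t - ε := sub_pos.mpr hcon
  rw [div_lt_iff₀ hpos] at hn
  set m : ℤ := ⌈(n : ℝ) * t⌉ - 1 with hm
  have hm1 : (m : ℝ) < n * t := by
    have := Int.ceil_lt_add_one ((n : ℝ) * t)
    rw [hm]; push_cast; linarith
  have hm2 : (n : ℝ) * t - 1 ≤ m := by
    have := Int.le_ceil ((n : ℝ) * t)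
    rw [hm]; push_cast; linarith
  have h1 : HasTau F G α β (s ^ (n : ℤ) * T ^ (-m)) ((n : ℤ) * t + ((-m : ℤ) : ℝ) * 1) :=
    hasTau_mul h.toAct (hasTau_zpow h.toAct hs n) (hasTau_zpow h.toAct hasTau_T (-m))
  have h2 := hasTau_pos h h1 (by push_cast; linarith) 0
  rw [Dif.mul_apply, T_zpow_apply, zpow_natCast] at h2
  have h3 := hpow n (0 + ((-m : ℤ) : ℝ))
  push_cast at h2 h3
  nlinarith

theorem abs_tau_le (h : Free F G α β) {s : Dif} {t ε : ℝ} (hs : HasTau F G α β s t)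
    (hε : ∀ x, |s x - x| ≤ ε) : |t| ≤ ε := by
  rw [abs_le']
  refine ⟨tau_le h hs (fun x => (le_abs_self _).trans (hε x)), ?_⟩
  refine tau_le h (hasTau_inv h.toAct hs) (fun x => ?_)
  have h1 := hε (s⁻¹ x)
  rw [Dif.apply_inv_self] at h1
  have h2 := abs_le.mp h1
  linarith [h2.1]

theorem hasTau_comm (h : Act F G) {g g' : Dif} {t t' : ℝ} (hg : HasTau F G α β g t)
    (hg' : HasTau F G α β g' t') : Commute g g' := by
  obtain ⟨a, b, c, rfl, rfl⟩ := hg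
  obtain ⟨a', b', c', rfl, rfl⟩ := hg'
  show _ * _ = _ * _
  rw [el_mul h, el_mul h, add_comm a, add_comm b, add_comm c]

theorem conj_comm {ψ A B : Dif} (h : Commute A B) : Commute (ψ * A * ψ⁻¹) (ψ * B * ψ⁻¹) := by
  show _ * _ = _ * _
  calc (ψ * A * ψ⁻¹) * (ψ * B * ψ⁻¹) = ψ * (A * B) * ψ⁻¹ := by group
    _ = ψ * (B * A) * ψ⁻¹ := by rw [h.eq]
    _ = (ψ * B * ψ⁻¹) * (ψ * A * ψ⁻¹) := by group

/-- a twisted triple close to the original one contradicts stability -/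
theorem not_near (h : Free F G α β) {r : ℕ} {R δ : ℝ}
    (hst : ∀ F₁ G₁ T₁ : Dif,
      Commute F₁ G₁ → Commute F₁ T₁ → Commute G₁ T₁ → (∀ x, x < T₁ x) →
      Near r δ R F₁ F → Near r δ R G₁ G → Near r δ R T₁ T → ConjTo F G F₁ G₁ T₁) :
    ∃ κ > (0 : ℝ), ∀ (s ψ : Dif) (τs : ℝ) (cF cG Q : ℤ),
    HasTau F G α β s τs → s ≠ 1 → (cF ≠ 0 ∨ cG ≠ 0 ∨ Q ≠ 0) →
    |τs| * (1 + |(cF : ℝ)| + |(cG : ℝ)| + |(Q : ℝ)|) < κ →
    Near r δ R (ψ * (F * s ^ (-cF)) * ψ⁻¹ : Dif) F →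
    Near r δ R (ψ * (G * s ^ (-cG)) * ψ⁻¹ : Dif) G →
    Near r δ R (ψ * (T * s ^ (-Q)) * ψ⁻¹ : Dif) T → False := by
  obtain ⟨κ, hκ, hκ'⟩ := nonconj h
  refine ⟨min κ 1, lt_min hκ one_pos, fun s ψ τs cF cG Q hs hs1 hc hsm n1 n2 n3 => ?_⟩
  have hF : HasTau F G α β (F * s ^ (-cF)) (α + ((-cF : ℤ) : ℝ) * τs) :=
    hasTau_mul h.toAct hasTau_F (hasTau_zpow h.toAct hs _)
  have hG : HasTau F G α β (G * s ^ (-cG)) (β + ((-cG : ℤ) : ℝ) * τs) :=
    hasTau_mul h.toAct hasTau_G (hasTau_zpow h.toAct hs _)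
  have hT : HasTau F G α β (T * s ^ (-Q)) (1 + ((-Q : ℤ) : ℝ) * τs) :=
    hasTau_mul h.toAct hasTau_T (hasTau_zpow h.toAct hs _)
  refine hκ' s ψ τs cF cG Q hs hs1 hc (hsm.trans_le (min_le_left _ _)) ?_
  refine hst _ _ _ (conj_comm (hasTau_comm h.toAct hF hG)) (conj_comm (hasTau_comm h.toAct hF hT))
    (conj_comm (hasTau_comm h.toAct hG hT)) (fun x => ?_) n1 n2 n3
  have hpos : 0 < 1 + ((-Q : ℤ) : ℝ) * τs := by
    have h1 := hsm.trans_le (min_le_right _ _)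
    have h2 : |τs| * |(Q : ℝ)| < 1 := by
      have : 0 ≤ |τs| * (1 + |(cF : ℝ)| + |(cG : ℝ)|) := by positivity
      nlinarith
    rw [← abs_mul, mul_comm] at h2
    have := (abs_lt.mp h2).2
    push_cast
    linarith
  have h1 := hasTau_pos h hT hpos (ψ⁻¹ x)
  have h2 := ψ.lt_iff.mpr h1
  rwa [Dif.apply_inv_self] at h2

theorem not_stable_of_free_aux (h : Free F G α β) (t : Tower F G α β)
    (hP : ∀ C₁ : ℕ, (∃ i₀, ∀ i ≥ i₀, t.μ i ^ C₁ ≤ t.μ (i + 1)) → ∀ (r : ℕ) (ε : ℝ), 0 < ε →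
      ∃ (s : Dif) (τs : ℝ), HasTau F G α β s τs ∧ s ≠ 1 ∧
        ∀ l ≤ r, ∀ x, |iteratedDeriv l (fun y => s y - y) x| ≤ ε)
    (hD : ∀ r : ℕ, ∃ C₁ : ℕ, (∀ i₀, ∃ i ≥ i₀, t.μ (i + 1) < t.μ i ^ C₁) →
      ∀ (R ε κ : ℝ), 0 < ε → 0 < κ →
      (∃ (s : Dif) (τs : ℝ), HasTau F G α β s τs ∧ s ≠ 1 ∧
        ∀ l ≤ r, ∀ x, |iteratedDeriv l (fun y => s y - y) x| ≤ ε) ∨
      (∃ (s ψ : Dif) (τs : ℝ) (cF cG Q : ℤ), HasTau F G α β s τs ∧ s ≠ 1 ∧ Q ≠ 0 ∧
        |τs| * (1 + |(cF : ℝ)| + |(cG : ℝ)| + |(Q : ℝ)|) < κ ∧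
        Near r ε R (ψ * (F * s ^ (-cF)) * ψ⁻¹ : Dif) F ∧
        Near r ε R (ψ * (G * s ^ (-cG)) * ψ⁻¹ : Dif) G ∧
        Near r ε R (ψ * (T * s ^ (-Q)) * ψ⁻¹ : Dif) T)) : ¬ Stable F G := by
  rintro ⟨r, R, δ, hδ, hst⟩
  obtain ⟨κ, hκ, hfalse⟩ := not_near h hst
  -- a small element contradicts stability
  obtain ⟨ε, hε, hnear⟩ := near_mul_small G r R hδ
  have small : ∀ (s : Dif) (τs : ℝ), HasTau F G α β s τs → s ≠ 1 →
      (∀ l ≤ r, ∀ x, |iteratedDeriv l (fun y => s y - y) x| ≤ min ε (κ / 4)) → False := by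
    intro s τs hs hs1 hsm
    have hτ : |τs| ≤ κ / 4 := abs_tau_le h hs (fun x => by
      have := hsm 0 (Nat.zero_le _) x
      rw [iteratedDeriv_zero] at this
      exact this.trans (min_le_right _ _))
    refine hfalse s 1 τs 0 (-1) 0 hs hs1 (Or.inr (Or.inl (by norm_num))) ?_ ?_ ?_ ?_
    · push_cast
      norm_num
      linarith
    · intro l _ x _
      simpa using hδ.le
    · have e : (1 * (G * s ^ (-(-1 : ℤ))) * 1⁻¹ : Dif) = G * s := by simp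
      rw [e]
      exact hnear s (fun l hl x => (hsm l hl x).trans (min_le_left _ _))
    · intro l _ x _
      simpa using hδ.le
  have hε' : 0 < min ε (κ / 4) := lt_min hε (by positivity)
  obtain ⟨C₁, hD⟩ := hD r
  by_cases H : ∀ i₀, ∃ i ≥ i₀, t.μ (i + 1) < t.μ i ^ C₁
  · rcases hD H R (min δ (min ε (κ / 4))) κ (lt_min hδ hε') hκ with
      ⟨s, τs, hs, hs1, hsm⟩ | ⟨s, ψ, τs, cF, cG, Q, hs, hs1, hQ, hsm, n1, n2, n3⟩
    · exact small s τs hs hs1 (fun l hl x => (hsm l hl x).trans (min_le_right _ _))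
    · have hmono : ∀ {f g : ℝ → ℝ}, Near r (min δ (min ε (κ / 4))) R f g → Near r δ R f g :=
        fun hn l hl x hx => (hn l hl x hx).trans (min_le_left _ _)
      exact hfalse s ψ τs cF cG Q hs hs1 (Or.inr (Or.inr hQ)) hsm (hmono n1) (hmono n2) (hmono n3)
  · push Not at H
    obtain ⟨s, τs, hs, hs1, hsm⟩ := hP C₁ H r _ hε'
    exact small s τs hs hs1 hsm

end AA

end Pool.Agent.F88
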