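import Pool.Agent.Lib.MP_f88c17.Defs2

/-!
# Task BS: structure of the group of elements of translation number zero, non-flat case
-/

set_option autoImplicit false

open Set Filter Topology Asymptotics
open scoped ContDiff

namespace Pool.Agent.F88

namespace BS

/-! ## Orders of vanishing -/

/-- the displacement -/
noncomputable def dsp (f : Dif) (x : ℝ) : ℝ := f x - x

theorem dsp_contDiff (f : Dif) : ContDiff ℝ ∞ (dsp f) := f.contDiff.sub contDiff_id

theorem tendsto_div_pow (j : ℕ) : ∀ (h : ℝ → ℝ) (z : ℝ), ContDiff ℝ ∞ h →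
    (∀ i < j, iteratedDeriv i h z = 0) →
    Tendsto (fun x => h x / (x - z) ^ j) (𝓝[≠] z) (𝓝 (iteratedDeriv j h z / j.factorial)) := by
  induction j with
  | zero =>
    intro h z hh _
    simp only [pow_zero, div_one, iteratedDeriv_zero, Nat.factorial_zero, Nat.cast_one]
    exact (hh.continuous.tendsto z).mono_left nhdsWithin_le_nhds
  | succ j ih =>
    intro h z hh h0
    have hd : ContDiff ℝ ∞ (deriv h) := (contDiff_infty_iff_deriv.mp hh).2
    have h1 := ih (deriv h) z hd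
      (fun i hi => by rw [← iteratedDeriv_succ']; exact h0 (i + 1) (by omega))
    rw [← iteratedDeriv_succ'] at h1
    have hderiv : ∀ x, deriv (fun x : ℝ => (x - z) ^ (j + 1)) x = (j + 1) * (x - z) ^ j := by
      intro x
      simp
    refine deriv.lhopital_zero_nhdsNE ?_ ?_ ?_ ?_ ?_
    · exact Eventually.of_forall (fun x => (hh.differentiable (by simp)) x)
    · filter_upwards [self_mem_nhdsWithin] with x hx
      rw [hderiv]
      have : x - z ≠ 0 := sub_ne_zero.mpr hx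
      positivity
    · have h00 : h z = 0 := by simpa using h0 0 (by omega)
      have := (hh.continuous.tendsto z).mono_left (nhdsWithin_le_nhds (s := {z}ᶜ))
      rwa [h00] at this
    · have : Tendsto (fun x : ℝ => (x - z) ^ (j + 1)) (𝓝 z) (𝓝 ((z - z) ^ (j + 1))) :=
        ((continuous_id.sub continuous_const).pow (j + 1)).tendsto z
      rw [sub_self, zero_pow (by omega)] at this
      exact this.mono_left nhdsWithin_le_nhds
    · have h2 := h1.div_const ((j : ℝ) + 1)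
      have e1 : iteratedDeriv (j + 1) h z / (j.factorial : ℝ) / ((j : ℝ) + 1)
          = iteratedDeriv (j + 1) h z / ((j + 1).factorial : ℝ) := by
        rw [Nat.factorial_succ]
        push_cast
        rw [div_div]
        ring
      rw [e1] at h2
      refine h2.congr (fun x => ?_)
      rw [hderiv, div_div]
      ring

theorem iteratedDeriv_dsp (f : Dif) (l : ℕ) (z : ℝ) :
    iteratedDeriv l (dsp f) z
      = iteratedDeriv l (fun x => f x) z - iteratedDeriv l (fun x => x) z := by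
  have h1 : ContDiffAt ℝ l (fun x => f x) z :=
    (f.contDiff.of_le (by exact_mod_cast le_top)).contDiffAt
  have h2 : ContDiffAt ℝ l (fun x : ℝ => x) z := contDiff_id.contDiffAt
  exact iteratedDeriv_sub h1 h2

theorem flatAt_iff (f : Dif) (z : ℝ) : FlatAt f z ↔ ∀ l, iteratedDeriv l (dsp f) z = 0 := by
  unfold FlatAt
  constructor
  · intro h l; rw [iteratedDeriv_dsp, h l, sub_self]
  · intro h l; have := h l; rw [iteratedDeriv_dsp] at this; exact sub_eq_zero.mp this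

theorem exists_order {f : Dif} {z : ℝ} (h : ¬ FlatAt f z) :
    ∃ (j : ℕ) (c : ℝ), c ≠ 0 ∧ (∀ i < j, iteratedDeriv i (dsp f) z = 0) ∧
      Tendsto (fun x => dsp f x / (x - z) ^ j) (𝓝[≠] z) (𝓝 c) := by
  rw [flatAt_iff] at h
  push Not at h
  classical
  let j := Nat.find h
  have hj : iteratedDeriv j (dsp f) z ≠ 0 := Nat.find_spec h
  have hlt : ∀ i < j, iteratedDeriv i (dsp f) z = 0 := fun i hi => by
    have := Nat.find_min h hi
    simpa using this
  refine ⟨j, iteratedDeriv j (dsp f) z / j.factorial, ?_, hlt,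
    tendsto_div_pow j (dsp f) z (dsp_contDiff f) hlt⟩
  have : (j.factorial : ℝ) ≠ 0 := by positivity
  exact div_ne_zero hj this

theorem eventually_ne {f : Dif} {z : ℝ} (h : ¬ FlatAt f z) : ∀ᶠ x in 𝓝[≠] z, f x ≠ x := by
  obtain ⟨j, c, hc, -, ht⟩ := exists_order h
  have := ht.eventually_ne hc
  filter_upwards [this] with x hx he
  apply hx
  simp [dsp, he]

theorem flat_of_frequently {f : Dif} {z : ℝ} (h : ∃ᶠ x in 𝓝[≠] z, f x = x) : FlatAt f z := by
  by_contra hcon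
  exact h ((eventually_ne hcon).mono (fun x hx he => hx he))

theorem flat_of_right {f : Dif} {z : ℝ} (h : ∀ᶠ x in 𝓝[>] z, f x = x) : FlatAt f z :=
  flat_of_frequently (h.frequently.filter_mono (nhdsWithin_mono z (fun _ hx => ne_of_gt hx)))

theorem flat_of_left {f : Dif} {z : ℝ} (h : ∀ᶠ x in 𝓝[<] z, f x = x) : FlatAt f z :=
  flat_of_frequently (h.frequently.filter_mono (nhdsWithin_mono z (fun _ hx => ne_of_lt hx)))


/-! ## The ratio lemma -/

/-- distortion constant -/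
theorem exists_dist (f : Dif) (a b : ℝ) : ∃ V, 0 ≤ V ∧ ∀ x ∈ Icc a b, ∀ y ∈ Icc a b,
    deriv f x ≤ Real.exp (V * |x - y|) * deriv f y := by
  have hd : ContDiff ℝ ∞ (deriv f) := (contDiff_infty_iff_deriv.mp f.contDiff).2
  have hl : ContDiff ℝ ∞ (logD f) := hd.log (fun x => (f.deriv_pos x).ne')
  have hp : Continuous (deriv (logD f)) := (contDiff_infty_iff_deriv.mp hl).2.continuous
  obtain ⟨V, hV⟩ := isCompact_Icc.exists_bound_of_continuousOn (s := Icc a b) hp.continuousOn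
  refine ⟨|V|, abs_nonneg V, fun x hx y hy => ?_⟩
  have h1 : ‖logD f x - logD f y‖ ≤ |V| * ‖x - y‖ :=
    (convex_Icc a b).norm_image_sub_le_of_norm_deriv_le
      (fun t _ => (hl.differentiable (by simp)) t) (fun t ht => (hV t ht).trans (le_abs_self V))
      hy hx
  have h2 : logD f x ≤ |V| * |x - y| + logD f y := by
    have := (le_abs_self _).trans h1
    simp only [Real.norm_eq_abs] at this
    linarith
  have h3 := Real.exp_le_exp.mpr h2
  rw [Real.exp_add] at h3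
  unfold logD at h3
  rwa [Real.exp_log (f.deriv_pos x), Real.exp_log (f.deriv_pos y)] at h3

theorem pow_succ_apply (f : Dif) (n : ℕ) (x : ℝ) : (f ^ (n + 1)) x = f ((f ^ n) x) := by
  rw [pow_succ', Dif.mul_apply]

theorem pow_succ_apply' (f : Dif) (n : ℕ) (x : ℝ) : (f ^ (n + 1)) x = (f ^ n) (f x) := by
  rw [pow_succ, Dif.mul_apply]

theorem fix_inv {f : Dif} {z : ℝ} (h : f z = z) : f⁻¹ z = z := by
  have := Dif.inv_apply_self f z
  rwa [h] at this

theorem iter_mem {f : Dif} {z v : ℝ} (hfz : f z = z) (hf : ∀ x ∈ Ioo z v, f x < x) {x : ℝ}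
    (hx : x ∈ Ioo z v) (n : ℕ) : (f ^ n) x ∈ Ioo z v ∧ (f ^ (n + 1)) x < (f ^ n) x := by
  induction n with
  | zero => exact ⟨by simpa using hx, by simpa using hf x hx⟩
  | succ n ih =>
    have h1 : z < (f ^ (n + 1)) x := by
      rw [pow_succ_apply, ← hfz]
      conv_lhs => rw [hfz]
      have := f.lt_iff.mpr ih.1.1
      rwa [hfz] at this
    have h2 : (f ^ (n + 1)) x ∈ Ioo z v := ⟨h1, ih.2.trans ih.1.2⟩
    refine ⟨h2, ?_⟩
    rw [pow_succ_apply f (n + 1)]
    exact hf _ h2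

theorem iter_tendsto {f : Dif} {z v : ℝ} (hfz : f z = z) (hf : ∀ x ∈ Ioo z v, f x < x) {x : ℝ}
    (hx : x ∈ Ioo z v) : Tendsto (fun n : ℕ => (f ^ n) x) atTop (𝓝 z) := by
  have hanti : Antitone (fun n : ℕ => (f ^ n) x) :=
    antitone_nat_of_succ_le (fun n => (iter_mem hfz hf hx n).2.le)
  have hbdd : BddBelow (Set.range (fun n : ℕ => (f ^ n) x)) :=
    ⟨z, by rintro _ ⟨n, rfl⟩; exact (iter_mem hfz hf hx n).1.1.le⟩
  have ht := tendsto_atTop_ciInf hanti hbdd
  set L := ⨅ n : ℕ, (f ^ n) x with hL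
  have hzL : z ≤ L := le_ciInf (fun n => (iter_mem hfz hf hx n).1.1.le)
  have hLx : L ≤ x := by
    have := ciInf_le hbdd 0
    simpa using this
  have h1 : Tendsto (fun n : ℕ => (f ^ (n + 1)) x) atTop (𝓝 L) :=
    ht.comp (tendsto_add_atTop_nat 1)
  have h2 : Tendsto (fun n : ℕ => (f ^ (n + 1)) x) atTop (𝓝 (f L)) := by
    simp_rw [pow_succ_apply]
    exact (f.continuous.tendsto L).comp ht
  have h3 : f L = L := tendsto_nhds_unique h2 h1
  rcases hzL.lt_or_eq with h | h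
  · exact absurd h3 (ne_of_lt (hf L ⟨h, hLx.trans_lt hx.2⟩))
  · rwa [← h] at ht

theorem slope_le {f : Dif} {a b V : ℝ} (hV0 : 0 ≤ V)
    (hV : ∀ x ∈ Icc a b, ∀ y ∈ Icc a b, deriv f x ≤ Real.exp (V * |x - y|) * deriv f y)
    {p q u₁ w₁ u₂ w₂ : ℝ} (hap : a ≤ p) (hqb : q ≤ b) (h1 : u₁ ∈ Icc p q) (h1' : w₁ ∈ Icc p q)
    (h2 : u₂ ∈ Icc p q) (h2' : w₂ ∈ Icc p q) (hlt1 : u₁ < w₁) (hlt2 : u₂ < w₂) :
    (f w₁ - f u₁) * (w₂ - u₂) ≤ Real.exp (V * (q - p)) * ((f w₂ - f u₂) * (w₁ - u₁)) := by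
  obtain ⟨ξ₁, hξ₁, e1⟩ := exists_deriv_eq_slope (fun t => f t) hlt1 f.continuous.continuousOn
    f.differentiable.differentiableOn
  obtain ⟨ξ₂, hξ₂, e2⟩ := exists_deriv_eq_slope (fun t => f t) hlt2 f.continuous.continuousOn
    f.differentiable.differentiableOn
  have d1 : 0 < w₁ - u₁ := sub_pos.mpr hlt1
  have d2 : 0 < w₂ - u₂ := sub_pos.mpr hlt2
  have e1' : f w₁ - f u₁ = deriv f ξ₁ * (w₁ - u₁) := by
    rw [eq_div_iff d1.ne'] at e1
    exact e1.symm
  have e2' : f w₂ - f u₂ = deriv f ξ₂ * (w₂ - u₂) := by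
    rw [eq_div_iff d2.ne'] at e2
    exact e2.symm
  have m1 : ξ₁ ∈ Icc a b := ⟨hap.trans (h1.1.trans hξ₁.1.le), (hξ₁.2.le.trans h1'.2).trans hqb⟩
  have m2 : ξ₂ ∈ Icc a b := ⟨hap.trans (h2.1.trans hξ₂.1.le), (hξ₂.2.le.trans h2'.2).trans hqb⟩
  have habs : |ξ₁ - ξ₂| ≤ q - p := by
    rw [abs_le]
    constructor
    · linarith [h1.1, hξ₁.1, hξ₂.2, h2'.2]
    · linarith [h2.1, hξ₂.1, hξ₁.2, h1'.2]
  have h3 := hV ξ₁ m1 ξ₂ m2
  have h4 : Real.exp (V * |ξ₁ - ξ₂|) ≤ Real.exp (V * (q - p)) :=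
    Real.exp_le_exp.mpr (mul_le_mul_of_nonneg_left habs hV0)
  have h5 : deriv f ξ₁ ≤ Real.exp (V * (q - p)) * deriv f ξ₂ :=
    h3.trans (mul_le_mul_of_nonneg_right h4 (f.deriv_pos ξ₂).le)
  rw [e1', e2']
  calc deriv f ξ₁ * (w₁ - u₁) * (w₂ - u₂)
      = deriv f ξ₁ * ((w₁ - u₁) * (w₂ - u₂)) := by ring
    _ ≤ (Real.exp (V * (q - p)) * deriv f ξ₂) * ((w₁ - u₁) * (w₂ - u₂)) :=
        mul_le_mul_of_nonneg_right h5 (by positivity)
    _ = Real.exp (V * (q - p)) * (deriv f ξ₂ * (w₂ - u₂) * (w₁ - u₁)) := by ring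

/-- bounded distortion of the iterates of a contraction on `[f x, f⁻¹ x]` -/
theorem distortion {f : Dif} {z v : ℝ} (hfz : f z = z) (hf : ∀ x ∈ Ioo z v, f x < x) {x : ℝ}
    (hx : x ∈ Ioo z v) (hx' : f⁻¹ x < v) : ∃ K : ℝ, 0 < K ∧ ∀ (n : ℕ) (u₁ w₁ u₂ w₂ : ℝ),
      u₁ ∈ Icc (f x) (f⁻¹ x) → w₁ ∈ Icc (f x) (f⁻¹ x) → u₂ ∈ Icc (f x) (f⁻¹ x) →
      w₂ ∈ Icc (f x) (f⁻¹ x) → u₁ < w₁ → u₂ < w₂ →
      ((f ^ n) w₁ - (f ^ n) u₁) * (w₂ - u₂) ≤ K * (((f ^ n) w₂ - (f ^ n) u₂) * (w₁ - u₁)) := by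
  obtain ⟨V, hV0, hV⟩ := exists_dist f z (f⁻¹ x)
  set y := f⁻¹ x with hy
  have hfy : f y = x := Dif.apply_inv_self f x
  have hxy : x < y := (Dif.lt_inv_iff f).mpr (hf x hx)
  have hym : y ∈ Ioo z v := ⟨hx.1.trans hxy, hx'⟩
  have hmem := fun n => iter_mem hfz hf hym n
  have hff : ∀ n : ℕ, (f ^ n) (f x) = (f ^ (n + 2)) y := by
    intro n
    rw [show n + 2 = (n + 1) + 1 from rfl, pow_succ_apply', hfy, pow_succ_apply']
  have key : ∀ (n : ℕ) (u₁ w₁ u₂ w₂ : ℝ),
      u₁ ∈ Icc (f x) y → w₁ ∈ Icc (f x) y → u₂ ∈ Icc (f x) y →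
      w₂ ∈ Icc (f x) y → u₁ < w₁ → u₂ < w₂ →
      ((f ^ n) w₁ - (f ^ n) u₁) * (w₂ - u₂) ≤
        Real.exp (V * (y + f y - (f ^ n) y - (f ^ (n + 1)) y)) *
          (((f ^ n) w₂ - (f ^ n) u₂) * (w₁ - u₁)) := by
    intro n
    induction n with
    | zero =>
      intro u₁ w₁ u₂ w₂ _ _ _ _ h1 h2
      simp only [pow_zero, Dif.one_apply, zero_add, pow_one]
      rw [show V * (y + f y - y - f y) = 0 by ring, Real.exp_zero]
      apply le_of_eq
      ring
    | succ n ih =>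
      intro u₁ w₁ u₂ w₂ m1 m1' m2 m2' h1 h2
      have hs : ∀ t ∈ Icc (f x) y, (f ^ n) t ∈ Icc ((f ^ (n + 2)) y) ((f ^ n) y) := by
        intro t ht
        rw [← hff]
        exact ⟨(f ^ n).le_iff.mpr ht.1, (f ^ n).le_iff.mpr ht.2⟩
      have hy0 : (f ^ n) y ≤ y := by
        have hanti : Antitone (fun n : ℕ => (f ^ n) y) :=
          antitone_nat_of_succ_le (fun n => (hmem n).2.le)
        simpa using hanti (Nat.zero_le n)
      have l1 := (f ^ n).lt_iff.mpr h1
      have l2 := (f ^ n).lt_iff.mpr h2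
      have hsl := slope_le hV0 hV (hmem (n + 2)).1.1.le hy0 (hs _ m1) (hs _ m1')
        (hs _ m2) (hs _ m2') l1 l2
      have hih := ih u₁ w₁ u₂ w₂ m1 m1' m2 m2' h1 h2
      have p1 : 0 < (f ^ n) w₁ - (f ^ n) u₁ := sub_pos.mpr l1
      have p2 : 0 < (f ^ n) w₂ - (f ^ n) u₂ := sub_pos.mpr l2
      have q1 : 0 < w₁ - u₁ := sub_pos.mpr h1
      have q2 : 0 < w₂ - u₂ := sub_pos.mpr h2
      simp only [← pow_succ_apply] at hsl
      have r1 : 0 < (f ^ (n + 1)) w₁ - (f ^ (n + 1)) u₁ := sub_pos.mpr ((f ^ (n + 1)).lt_iff.mpr h1)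
      have r2 : 0 < (f ^ (n + 1)) w₂ - (f ^ (n + 1)) u₂ := sub_pos.mpr ((f ^ (n + 1)).lt_iff.mpr h2)
      have hexp : Real.exp (V * (y + f y - (f ^ (n + 1)) y - (f ^ (n + 1 + 1)) y))
          = Real.exp (V * (y + f y - (f ^ n) y - (f ^ (n + 1)) y)) *
            Real.exp (V * ((f ^ n) y - (f ^ (n + 2)) y)) := by
        rw [← Real.exp_add]
        congr 1
        ring
      rw [hexp]
      have e1 := Real.exp_pos (V * (y + f y - (f ^ n) y - (f ^ (n + 1)) y))
      have e2 := Real.exp_pos (V * ((f ^ n) y - (f ^ (n + 2)) y))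
      set A := Real.exp (V * (y + f y - (f ^ n) y - (f ^ (n + 1)) y))
      set B := Real.exp (V * ((f ^ n) y - (f ^ (n + 2)) y))
      set P₁ := (f ^ n) w₁ - (f ^ n) u₁
      set P₂ := (f ^ n) w₂ - (f ^ n) u₂
      set R₁ := (f ^ (n + 1)) w₁ - (f ^ (n + 1)) u₁
      set R₂ := (f ^ (n + 1)) w₂ - (f ^ (n + 1)) u₂
      -- hsl : R₁ * P₂ ≤ B * (R₂ * P₁), hih : P₁ * (w₂ - u₂) ≤ A * (P₂ * (w₁ - u₁))
      have : (R₁ * (w₂ - u₂)) * P₂ ≤ (A * B * (R₂ * (w₁ - u₁))) * P₂ := by
        calc (R₁ * (w₂ - u₂)) * P₂ = (R₁ * P₂) * (w₂ - u₂) := by ring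
          _ ≤ (B * (R₂ * P₁)) * (w₂ - u₂) := mul_le_mul_of_nonneg_right hsl q2.le
          _ = (B * R₂) * (P₁ * (w₂ - u₂)) := by ring
          _ ≤ (B * R₂) * (A * (P₂ * (w₁ - u₁))) := mul_le_mul_of_nonneg_left hih (by positivity)
          _ = (A * B * (R₂ * (w₁ - u₁))) * P₂ := by ring
      exact le_of_mul_le_mul_right this p2
  refine ⟨Real.exp (V * (y + f y - z - z)), Real.exp_pos _, ?_⟩
  intro n u₁ w₁ u₂ w₂ m1 m1' m2 m2' h1 h2
  refine (key n u₁ w₁ u₂ w₂ m1 m1' m2 m2' h1 h2).trans ?_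
  apply mul_le_mul_of_nonneg_right
  · apply Real.exp_le_exp.mpr
    apply mul_le_mul_of_nonneg_left _ hV0
    have := (hmem n).1.1
    have := (hmem (n + 1)).1.1
    linarith
  · exact mul_nonneg (sub_pos.mpr ((f ^ n).lt_iff.mpr h2)).le (sub_pos.mpr h1).le


theorem comm_pow_apply {f g : Dif} (hc : Commute f g) (n : ℕ) (x : ℝ) :
    (f ^ n) (g x) = g ((f ^ n) x) := Dif.comm_apply (hc.pow_left n) x

theorem fix_of_isLittleO {f g : Dif} {z : ℝ} (hfz : f z = z)
    (ho : (dsp g) =o[𝓝[>] z] (dsp f)) : g z = z := by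
  have h1 : Tendsto (dsp f) (𝓝[>] z) (𝓝 0) := by
    have := (dsp_contDiff f).continuous.tendsto z
    have e : dsp f z = 0 := by simp [dsp, hfz]
    rw [e] at this
    exact this.mono_left nhdsWithin_le_nhds
  have h2 : Tendsto (dsp g) (𝓝[>] z) (𝓝 0) := ho.trans_tendsto h1
  have h3 : Tendsto (dsp g) (𝓝[>] z) (𝓝 (dsp g z)) :=
    ((dsp_contDiff g).continuous.tendsto z).mono_left nhdsWithin_le_nhds
  have := tendsto_nhds_unique h3 h2
  unfold dsp at this
  linarith

/-- The ratio lemma, contracting case, right side. -/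
theorem ratio_contr {f g : Dif} (hc : Commute f g) {z v : ℝ} (hv : z < v) (hfz : f z = z)
    (hf : ∀ x ∈ Ioo z v, f x < x) (ho : (dsp g) =o[𝓝[>] z] (dsp f)) :
    ∀ x ∈ Ioo z v, g x = x := by
  have hgz : g z = z := fix_of_isLittleO hfz ho
  -- a Lipschitz constant
  have hd : Continuous (deriv f) := (contDiff_infty_iff_deriv.mp f.contDiff).2.continuous
  obtain ⟨L, hL⟩ := isCompact_Icc.exists_bound_of_continuousOn (s := Icc z v) hd.continuousOn
  have hL0 : 0 ≤ L := (norm_nonneg _).trans (hL z ⟨le_rfl, hv.le⟩)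
  have hLip : ∀ p ∈ Icc z v, ∀ q ∈ Icc z v, p ≤ q → f q - f p ≤ L * (q - p) := by
    intro p hp q hq hpq
    have := (convex_Icc z v).norm_image_sub_le_of_norm_deriv_le
      (fun t _ => f.differentiable t) hL hp hq
    have h2 := (le_abs_self _).trans this
    simpa [Real.norm_eq_abs, abs_of_nonneg (sub_nonneg.mpr hpq)] using h2
  -- points near z
  set ε := 1 / (L + 1) with hε
  have hε0 : 0 < ε := by positivity
  have hε1 : ε ≤ 1 := by
    rw [hε, div_le_one (by positivity)]; linarith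
  have hLε : L * ε ≤ 1 := by
    rw [hε, mul_one_div, div_le_one (by positivity)]; linarith
  have hev : ∀ᶠ x in 𝓝[>] z, |dsp g x| ≤ ε * |dsp f x| := by
    have := ho.def hε0
    simpa [Real.norm_eq_abs] using this
  have hev2 : ∀ᶠ x in 𝓝[>] z, g x < v ∧ f⁻¹ x < v := by
    have h1 : ∀ᶠ x in 𝓝 z, g x < v :=
      (g.continuous.tendsto z).eventually (by rw [hgz]; exact Iio_mem_nhds hv)
    have h2 : ∀ᶠ x in 𝓝 z, f⁻¹ x < v :=
      (f⁻¹.continuous.tendsto z).eventually (by rw [fix_inv hfz]; exact Iio_mem_nhds hv)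
    exact (h1.and h2).filter_mono nhdsWithin_le_nhds
  have hev3 : ∀ᶠ x in 𝓝[>] z, x ∈ Ioo z v := Ioo_mem_nhdsGT hv
  -- the main step
  have main : ∀ x, x ∈ Ioo z v → |dsp g x| ≤ ε * |dsp f x| → g x < v → f⁻¹ x < v → g x = x := by
    intro x hx h1 h2 h3
    have hfx := hf x hx
    have hdf : |dsp f x| = x - f x := by
      unfold dsp; rw [abs_of_neg (by linarith)]; ring
    rw [hdf] at h1
    have hpos : 0 < x - f x := by linarith
    have hgx : g x ∈ Icc (f x) (f⁻¹ x) := by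
      constructor
      · have := (abs_le.mp h1).1
        unfold dsp at this
        nlinarith
      · rw [Dif.le_inv_iff]
        rcases le_total (g x) x with h | h
        · exact (f.le_iff.mpr h).trans hfx.le
        · have h4 : f (g x) - f x ≤ L * (g x - x) :=
            hLip x ⟨hx.1.le, hx.2.le⟩ (g x) ⟨hx.1.le.trans h, h2.le⟩ h
          have h5 : g x - x ≤ ε * (x - f x) := (le_abs_self _).trans h1
          have h6 : L * (g x - x) ≤ L * (ε * (x - f x)) := mul_le_mul_of_nonneg_left h5 hL0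
          have h7 : L * (ε * (x - f x)) ≤ x - f x := by
            calc L * (ε * (x - f x)) = (L * ε) * (x - f x) := by ring
              _ ≤ 1 * (x - f x) := mul_le_mul_of_nonneg_right hLε hpos.le
              _ = x - f x := one_mul _
          linarith
    obtain ⟨K, hK, hdist⟩ := distortion hfz hf hx h3
    have mfx : f x ∈ Icc (f x) (f⁻¹ x) :=
      ⟨le_rfl, by rw [Dif.le_inv_iff]; exact ((f.lt_iff.mpr hfx).trans hfx).le⟩
    have mx : x ∈ Icc (f x) (f⁻¹ x) := ⟨hfx.le, by rw [Dif.le_inv_iff]; exact hfx.le⟩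
    have hit := fun n => iter_mem hfz hf hx n
    -- comparison at time n
    have hcmp : ∀ n : ℕ, |g x - x| * ((f ^ n) x - (f ^ (n + 1)) x) ≤
        K * (|dsp g ((f ^ n) x)| * (x - f x)) := by
      intro n
      rcases lt_trichotomy (g x) x with h | h | h
      · have := hdist n (f x) x (g x) x mfx mx hgx mx hfx h
        rw [← pow_succ_apply', comm_pow_apply hc] at this
        rw [abs_of_neg (by linarith : g x - x < 0)]
        have hlt : g ((f ^ n) x) < (f ^ n) x := by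
          rw [← comm_pow_apply hc]; exact (f ^ n).lt_iff.mpr h
        unfold dsp
        rw [abs_of_neg (by linarith : g ((f ^ n) x) - (f ^ n) x < 0)]
        calc -(g x - x) * ((f ^ n) x - (f ^ (n + 1)) x)
            = ((f ^ n) x - (f ^ (n + 1)) x) * (x - g x) := by ring
          _ ≤ K * (((f ^ n) x - g ((f ^ n) x)) * (x - f x)) := this
          _ = _ := by ring
      · rw [h, sub_self, abs_zero, zero_mul]
        exact mul_nonneg hK.le (mul_nonneg (abs_nonneg _) hpos.le)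
      · have := hdist n (f x) x x (g x) mfx mx mx hgx hfx h
        rw [← pow_succ_apply', comm_pow_apply hc] at this
        rw [abs_of_pos (by linarith : 0 < g x - x)]
        have hlt : (f ^ n) x < g ((f ^ n) x) := by
          rw [← comm_pow_apply hc]; exact (f ^ n).lt_iff.mpr h
        unfold dsp
        rw [abs_of_pos (by linarith : 0 < g ((f ^ n) x) - (f ^ n) x)]
        calc (g x - x) * ((f ^ n) x - (f ^ (n + 1)) x)
            = ((f ^ n) x - (f ^ (n + 1)) x) * (g x - x) := by ring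
          _ ≤ K * ((g ((f ^ n) x) - (f ^ n) x) * (x - f x)) := this
    -- hence g x = x
    have hten : Tendsto (fun n : ℕ => (f ^ n) x) atTop (𝓝[>] z) :=
      tendsto_nhdsWithin_iff.mpr ⟨iter_tendsto hfz hf hx, Eventually.of_forall (fun n => (hit n).1.1)⟩
    have hfin : ∀ η > 0, |g x - x| ≤ η := by
      intro η hη
      have hη' : 0 < η / (K * (x - f x)) := by positivity
      have h8 := hten.eventually (ho.def hη')
      obtain ⟨n, hn⟩ := h8.exists
      simp only [Real.norm_eq_abs] at hn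
      have h9 := hcmp n
      have hδ : 0 < (f ^ n) x - (f ^ (n + 1)) x := by linarith [(hit n).2]
      have h10 : |dsp f ((f ^ n) x)| = (f ^ n) x - (f ^ (n + 1)) x := by
        unfold dsp
        rw [← pow_succ_apply, abs_of_neg (by linarith)]
        ring
      rw [h10] at hn
      have h11 : |g x - x| * ((f ^ n) x - (f ^ (n + 1)) x) ≤
          η * ((f ^ n) x - (f ^ (n + 1)) x) := by
        calc _ ≤ K * (|dsp g ((f ^ n) x)| * (x - f x)) := h9
          _ ≤ K * ((η / (K * (x - f x)) * ((f ^ n) x - (f ^ (n + 1)) x)) * (x - f x)) := by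
              gcongr
          _ = η * ((f ^ n) x - (f ^ (n + 1)) x) := by
              field_simp
      exact le_of_mul_le_mul_right h11 hδ
    have h12 : |g x - x| ≤ 0 := le_of_forall_pos_le_add (fun η hη => by simpa using hfin η hη)
    have h13 := abs_nonpos_iff.mp h12
    linarith
  have hall : ∀ᶠ x in 𝓝[>] z, g x = x := by
    filter_upwards [hev, hev2, hev3] with x h1 h2 h3
    exact main x h3 h1 h2.1 h2.2
  intro x hx
  have hten : Tendsto (fun n : ℕ => (f ^ n) x) atTop (𝓝[>] z) :=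
    tendsto_nhdsWithin_iff.mpr ⟨iter_tendsto hfz hf hx,
      Eventually.of_forall (fun n => (iter_mem hfz hf hx n).1.1)⟩
  obtain ⟨n, hn⟩ := (hten.eventually hall).exists
  rw [← comm_pow_apply hc] at hn
  exact (f ^ n).injective hn

/-- displacement of powers -/
theorem dsp_pow_le (f : Dif) (k : ℤ) (a b : ℝ) : ∃ M : ℝ, 0 ≤ M ∧ ∀ x ∈ Icc a b, f x ∈ Icc a b →
    |(f ^ (k + 1)) x - (f ^ k) x| ≤ M * |f x - x| := by
  have hd : Continuous (deriv (f ^ k : Dif)) :=
    (contDiff_infty_iff_deriv.mp (f ^ k : Dif).contDiff).2.continuous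
  obtain ⟨L, hL⟩ := isCompact_Icc.exists_bound_of_continuousOn (s := Icc a b) hd.continuousOn
  refine ⟨|L|, abs_nonneg L, fun x hx hfx => ?_⟩
  have := (convex_Icc a b).norm_image_sub_le_of_norm_deriv_le
      (fun t _ => (f ^ k : Dif).differentiable t) (fun t ht => (hL t ht).trans (le_abs_self L))
      hx hfx
  rw [zpow_add_one, Dif.mul_apply]
  exact this

theorem dsp_inv_isBigO (f : Dif) {z : ℝ} (hfz : f z = z) {l : Filter ℝ} (hl : l ≤ 𝓝 z) :
    (dsp f) =O[l] (dsp f⁻¹) := by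
  have hz : f⁻¹ z = z := fix_inv hfz
  obtain ⟨M, hM, h⟩ := dsp_pow_le f⁻¹ (-1) (z - 1) (z + 1)
  have h1 : ∀ᶠ x in 𝓝 z, x ∈ Icc (z - 1) (z + 1) := Icc_mem_nhds (by linarith) (by linarith)
  have h2 : ∀ᶠ x in 𝓝 z, f⁻¹ x ∈ Icc (z - 1) (z + 1) := by
    apply (f⁻¹.continuous.tendsto z).eventually
    rw [hz]
    exact Icc_mem_nhds (by linarith) (by linarith)
  refine IsBigO.of_bound M ?_
  apply Filter.Eventually.filter_mono hl
  filter_upwards [h1, h2] with x hx hx'
  have := h x hx hx'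
  simp only [neg_add_cancel, zpow_zero, Dif.one_apply, zpow_neg, zpow_one, inv_inv] at this
  rw [abs_sub_comm] at this
  simpa [dsp, Real.norm_eq_abs] using this

/-- A diffeomorphism without fixed points on an interval moves all points to the same side. -/
theorem sign_of_ne {f : Dif} {a b : ℝ} (hf : ∀ x ∈ Ioo a b, f x ≠ x) :
    (∀ x ∈ Ioo a b, f x < x) ∨ (∀ x ∈ Ioo a b, x < f x) := by
  by_contra hcon
  push Not at hcon
  obtain ⟨⟨x, hx, hx'⟩, y, hy, hy'⟩ := hcon
  have h1 : 0 ∈ dsp f '' Ioo a b := by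
    have hpre : IsPreconnected (Ioo a b) := isPreconnected_Ioo
    have h2 : dsp f y ≤ 0 := by unfold dsp; linarith
    have h3 : 0 ≤ dsp f x := by unfold dsp; linarith
    exact hpre.intermediate_value hy hx (dsp_contDiff f).continuous.continuousOn ⟨h2, h3⟩
  obtain ⟨t, ht, ht'⟩ := h1
  exact hf t ht (by unfold dsp at ht'; linarith)

/-- The ratio lemma, right side. -/
theorem ratio_right {f g : Dif} (hc : Commute f g) {z v : ℝ} (hv : z < v) (hfz : f z = z)
    (hf : ∀ x ∈ Ioo z v, f x ≠ x) (ho : (dsp g) =o[𝓝[>] z] (dsp f)) :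
    ∀ x ∈ Ioo z v, g x = x := by
  rcases sign_of_ne hf with h | h
  · exact ratio_contr hc hv hfz h ho
  · refine ratio_contr (f := f⁻¹) hc.inv_left hv (fix_inv hfz) (fun x hx => ?_)
      (ho.trans_isBigO (dsp_inv_isBigO f hfz nhdsWithin_le_nhds))
    rw [Dif.inv_lt_iff]
    exact h x hx


/-! ## Reflection -/

/-- conjugation by `x ↦ -x` -/
noncomputable def flip (f : Dif) : Dif :=
  ⟨⟨fun x => - f (-x), fun x => - f⁻¹ (-x), fun x => by simp, fun x => by simp⟩, by
    refine ⟨⟨?_, ?_⟩, ?_⟩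
    · exact (f.contDiff.comp contDiff_neg).neg
    · exact (f⁻¹.contDiff.comp contDiff_neg).neg
    · intro x y hxy
      show - f (-x) < - f (-y)
      exact neg_lt_neg (f.lt_iff.mpr (neg_lt_neg hxy))⟩

@[simp] theorem flip_apply (f : Dif) (x : ℝ) : flip f x = - f (-x) := rfl

theorem flip_mul (f g : Dif) : flip (f * g) = flip f * flip g := by
  ext x; simp

theorem flip_inv (f : Dif) : flip f⁻¹ = (flip f)⁻¹ := by
  rw [eq_inv_iff_mul_eq_one, ← flip_mul, inv_mul_cancel]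
  ext x; simp

theorem flip_flip (f : Dif) : flip (flip f) = f := by
  ext x; simp

theorem flip_commute {f g : Dif} (h : Commute f g) : Commute (flip f) (flip g) := by
  show flip f * flip g = flip g * flip f
  rw [← flip_mul, ← flip_mul, h.eq]

theorem dsp_flip (f : Dif) (x : ℝ) : dsp (flip f) x = - dsp f (-x) := by
  unfold dsp; simp; ring

theorem flip_flat {f : Dif} {z : ℝ} (h : FlatAt (flip f) (-z)) : FlatAt f z := by
  rw [flatAt_iff] at h ⊢
  intro l
  have h1 := h l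
  have e : dsp (flip f) = fun x => - dsp f (-x) := by
    funext x; exact dsp_flip f x
  rw [e] at h1
  have h2 : iteratedDeriv l (fun x => - dsp f (-x)) (-z) =
      -((-1 : ℝ) ^ l • iteratedDeriv l (dsp f) z) := by
    rw [iteratedDeriv_fun_neg]
    rw [iteratedDeriv_comp_neg, neg_neg]
  rw [h2] at h1
  have h3 : ((-1 : ℝ) ^ l) ≠ 0 := pow_ne_zero _ (by norm_num)
  rw [neg_eq_zero, smul_eq_mul] at h1
  exact (mul_eq_zero.mp h1).resolve_left h3

theorem tendsto_neg_right (z : ℝ) : Tendsto (fun x : ℝ => -x) (𝓝[>] (-z)) (𝓝[<] z) := by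
  rw [tendsto_nhdsWithin_iff]
  constructor
  · have : Tendsto (fun x : ℝ => -x) (𝓝 (-z)) (𝓝 (- -z)) := continuous_neg.tendsto _
    rw [neg_neg] at this
    exact this.mono_left nhdsWithin_le_nhds
  · filter_upwards [self_mem_nhdsWithin] with x hx
    simp only [mem_Ioi, mem_Iio] at hx ⊢
    linarith

theorem tendsto_neg_left (z : ℝ) : Tendsto (fun x : ℝ => -x) (𝓝[<] (-z)) (𝓝[>] z) := by
  rw [tendsto_nhdsWithin_iff]
  constructor
  · have : Tendsto (fun x : ℝ => -x) (𝓝 (-z)) (𝓝 (- -z)) := continuous_neg.tendsto _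
    rw [neg_neg] at this
    exact this.mono_left nhdsWithin_le_nhds
  · filter_upwards [self_mem_nhdsWithin] with x hx
    simp only [mem_Ioi, mem_Iio] at hx ⊢
    linarith

/-- The ratio lemma, left side. -/
theorem ratio_left {f g : Dif} (hc : Commute f g) {z v : ℝ} (hv : v < z) (hfz : f z = z)
    (hf : ∀ x ∈ Ioo v z, f x ≠ x) (ho : (dsp g) =o[𝓝[<] z] (dsp f)) :
    ∀ x ∈ Ioo v z, g x = x := by
  have h1 := ratio_right (flip_commute hc) (z := -z) (v := -v) (by linarith)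
    (by simp [hfz]) (fun x hx he => hf (-x) ⟨by linarith [hx.2], by linarith [hx.1]⟩
      (by simp only [flip_apply] at he; linarith)) (by
        have h2 := ho.comp_tendsto (tendsto_neg_right z)
        have e1 : dsp (flip g) = fun x => - dsp g (-x) := funext (dsp_flip g)
        have e2 : dsp (flip f) = fun x => - dsp f (-x) := funext (dsp_flip f)
        rw [e1, e2]
        exact (h2.neg_left).neg_right)
  intro x hx
  have := h1 (-x) ⟨by linarith [hx.2], by linarith [hx.1]⟩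
  simp only [flip_apply, neg_neg] at this
  linarith

/-! ## Commuting with a set of diffeomorphisms -/

/-- common fixed points -/
def Fx (L : Set Dif) (z : ℝ) : Prop := ∀ γ ∈ L, γ z = z

/-- the standing assumptions on a set of diffeomorphisms -/
structure NF (L : Set Dif) : Prop where
  inv : ∀ γ ∈ L, γ⁻¹ ∈ L
  nf : ∀ z, Fx L z → ∃ γ ∈ L, ¬ FlatAt γ z

theorem nf_flip {L : Set Dif} (h : NF L) : NF (flip '' L) := by
  constructor
  · rintro _ ⟨γ, hγ, rfl⟩
    exact ⟨γ⁻¹, h.inv γ hγ, flip_inv γ⟩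
  · intro z hz
    have hz' : Fx L (-z) := by
      intro γ hγ
      have := hz (flip γ) ⟨γ, hγ, rfl⟩
      simp only [flip_apply] at this
      linarith
    obtain ⟨γ, hγ, hf⟩ := h.nf (-z) hz'
    refine ⟨flip γ, ⟨γ, hγ, rfl⟩, fun hcon => hf ?_⟩
    apply flip_flat
    rwa [neg_neg]

theorem isLittleO_of_flat {f C : Dif} {z : ℝ} (hf : ¬ FlatAt f z) (hC : FlatAt C z) :
    (dsp C) =o[𝓝[≠] z] (dsp f) := by
  obtain ⟨j, c, hc, -, ht⟩ := exists_order hf
  have h0 : ∀ i < j, iteratedDeriv i (dsp C) z = 0 := fun i _ => (flatAt_iff C z).mp hC i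
  have h1 := tendsto_div_pow j (dsp C) z (dsp_contDiff C) h0
  rw [(flatAt_iff C z).mp hC j, zero_div] at h1
  have h2 : Tendsto (fun x => (dsp C x / (x - z) ^ j) / (dsp f x / (x - z) ^ j)) (𝓝[≠] z)
      (𝓝 (0 / c)) := h1.div ht hc
  rw [zero_div] at h2
  have hne : ∀ᶠ x in 𝓝[≠] z, dsp f x ≠ 0 := by
    filter_upwards [eventually_ne hf] with x hx
    exact sub_ne_zero.mpr hx
  rw [isLittleO_iff_tendsto' (hne.mono (fun x hx h => absurd h hx))]
  refine h2.congr' ?_
  filter_upwards [self_mem_nhdsWithin] with x hx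
  have : (x - z) ^ j ≠ 0 := pow_ne_zero _ (sub_ne_zero.mpr hx)
  exact div_div_div_cancel_right₀ this _ _

theorem exists_interval {f : Dif} {z : ℝ} (hf : ¬ FlatAt f z) :
    ∃ v, 0 < v ∧ (∀ x ∈ Ioo z (z + v), f x ≠ x) ∧ (∀ x ∈ Ioo (z - v) z, f x ≠ x) := by
  have h := eventually_ne hf
  rw [eventually_nhdsWithin_iff, Metric.eventually_nhds_iff] at h
  obtain ⟨v, hv, h⟩ := h
  refine ⟨v, hv, fun x hx => h ?_ ?_, fun x hx => h ?_ ?_⟩
  · rw [Real.dist_eq, abs_of_pos (by linarith [hx.1])]; linarith [hx.2]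
  · exact ne_of_gt hx.1
  · rw [Real.dist_eq, abs_of_neg (by linarith [hx.2])]; linarith [hx.1]
  · exact ne_of_lt hx.2

/-- a flat element is trivial on the right of a common fixed point -/
theorem trivial_right_of_flat {L : Set Dif} (h : NF L) {C : Dif} (hC : ∀ γ ∈ L, Commute γ C)
    {z : ℝ} (hz : Fx L z) (hf : FlatAt C z) : ∀ᶠ x in 𝓝[>] z, C x = x := by
  obtain ⟨f, hfL, hff⟩ := h.nf z hz
  obtain ⟨v, hv, h1, -⟩ := exists_interval hff
  have h2 := ratio_right (hC f hfL) (z := z) (v := z + v) (by linarith) (hz f hfL) h1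
    ((isLittleO_of_flat hff hf).mono (nhdsWithin_mono z (fun _ hx => ne_of_gt hx)))
  filter_upwards [Ioo_mem_nhdsGT (show z < z + v by linarith)] with x hx
  exact h2 x hx

theorem flat_fix {C : Dif} {z : ℝ} (hf : FlatAt C z) : C z = z := by
  have := hf 0
  simpa using this

theorem right_of_flat {L : Set Dif} (h : NF L) {C : Dif} (hC : ∀ γ ∈ L, Commute γ C)
    {z : ℝ} (hz : Fx L z) (hf : FlatAt C z) : ∀ x, z ≤ x → C x = x := by
  by_contra hcon
  push Not at hcon
  obtain ⟨x₁, hx₁, hne⟩ := hcon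
  let S : Set ℝ := {y | z ≤ y ∧ ∀ x ∈ Icc z y, C x = x}
  have hzS : z ∈ S := ⟨le_rfl, fun x hx => by
    have : x = z := le_antisymm hx.2 hx.1
    rw [this]; exact flat_fix hf⟩
  have hbdd : BddAbove S := ⟨x₁, fun y hy => by
    by_contra hlt
    exact hne (hy.2 x₁ ⟨hx₁, (not_le.mp hlt).le⟩)⟩
  set y := sSup S with hy
  have hzy : z ≤ y := le_csSup hbdd hzS
  have hlt : ∀ x ∈ Ico z y, C x = x := by
    intro x hx
    obtain ⟨w, hw, hxw⟩ := exists_lt_of_lt_csSup ⟨z, hzS⟩ hx.2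
    exact hw.2 x ⟨hx.1, hxw.le⟩
  have hyy : C y = y := by
    rcases hzy.lt_or_eq with h1 | h1
    · have hcl : IsClosed {x : ℝ | C x = x} := isClosed_eq C.continuous continuous_id
      have : y ∈ closure (Ico z y) := by
        rw [closure_Ico h1.ne]; exact ⟨hzy, le_rfl⟩
      exact (hcl.closure_subset_iff.mpr (fun x hx => hlt x hx)) this
    · rw [← h1]; exact flat_fix hf
  have hle : ∀ x ∈ Icc z y, C x = x := by
    intro x hx
    rcases hx.2.lt_or_eq with h1 | h1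
    · exact hlt x ⟨hx.1, h1⟩
    · rw [h1]; exact hyy
  by_cases hK : Fx L y
  · have hfy : FlatAt C y := by
      rcases hzy.lt_or_eq with h1 | h1
      · apply flat_of_left
        filter_upwards [Ioo_mem_nhdsLT h1] with x hx
        exact hlt x ⟨hx.1.le, hx.2⟩
      · rw [← h1]; exact hf
    have h2 := trivial_right_of_flat h hC hK hfy
    obtain ⟨w, hw, hw'⟩ := mem_nhdsGT_iff_exists_Ioo_subset.mp h2
    have hw0 : y < w := hw
    have : (y + w) / 2 ∈ S := by
      refine ⟨by linarith, fun x hx => ?_⟩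
      rcases le_or_gt x y with h3 | h3
      · exact hle x ⟨hx.1, h3⟩
      · exact hw' ⟨h3, by linarith [hx.2]⟩
    have := le_csSup hbdd this
    linarith
  · unfold Fx at hK
    push Not at hK
    obtain ⟨δ, hδ, hδy⟩ := hK
    obtain ⟨δ', hδ', hδy'⟩ : ∃ δ' ∈ L, y < δ' y := by
      rcases lt_or_gt_of_ne hδy with h1 | h1
      · refine ⟨δ⁻¹, h.inv δ hδ, ?_⟩
        rw [Dif.lt_inv_iff]; exact h1
      · exact ⟨δ, hδ, h1⟩
    have : δ' y ∈ S := by
      refine ⟨hzy.trans hδy'.le, fun x hx => ?_⟩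
      have h3 : δ'⁻¹ x ∈ Icc z y := by
        constructor
        · rw [Dif.le_inv_iff, hz δ' hδ']; exact hx.1
        · rw [Dif.inv_le_iff]; exact hx.2
      have h4 := hle _ h3
      have h5 := Dif.comm_apply (hC δ' hδ') (δ'⁻¹ x)
      rw [h4, Dif.apply_inv_self] at h5
      exact h5.symm
    have := le_csSup hbdd this
    linarith

/-- an element of the centraliser which is flat at a common fixed point is trivial -/
theorem eq_one_of_flat {L : Set Dif} (h : NF L) {C : Dif} (hC : ∀ γ ∈ L, Commute γ C)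
    {z : ℝ} (hz : Fx L z) (hf : FlatAt C z) : C = 1 := by
  have h1 := right_of_flat h hC hz hf
  have hz' : Fx (flip '' L) (-z) := by
    rintro _ ⟨γ, hγ, rfl⟩
    simp [hz γ hγ]
  have hf' : FlatAt (flip C) (-z) := by
    apply flip_flat
    rwa [flip_flip, neg_neg]
  have hC' : ∀ γ ∈ flip '' L, Commute γ (flip C) := by
    rintro _ ⟨γ, hγ, rfl⟩
    exact flip_commute (hC γ hγ)
  have h2 := right_of_flat (nf_flip h) hC' hz' hf'
  ext x
  rcases le_total z x with h3 | h3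
  · exact h1 x h3
  · have := h2 (-x) (by linarith)
    simp only [flip_apply, neg_neg] at this
    simp only [Dif.one_apply]
    linarith


/-! ## Escape from segments -/

theorem up_escape {f : Dif} {x y : ℝ} (hx : x < f x) (hne : ∀ t ∈ Icc x y, f t ≠ t) :
    ∃ n : ℕ, y < (f ^ n) x := by
  by_contra hcon
  push Not at hcon
  have hmono : Monotone (fun n : ℕ => (f ^ n) x) :=
    monotone_nat_of_le_succ (fun n => by
      rw [pow_succ_apply']; exact ((f ^ n).lt_iff.mpr hx).le)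
  have hbdd : BddAbove (Set.range (fun n : ℕ => (f ^ n) x)) :=
    ⟨y, by rintro _ ⟨n, rfl⟩; exact hcon n⟩
  have ht := tendsto_atTop_ciSup hmono hbdd
  set L := ⨆ n : ℕ, (f ^ n) x
  have hxL : x ≤ L := by
    have := le_ciSup hbdd 0
    simpa using this
  have hLy : L ≤ y := ciSup_le hcon
  have h1 : Tendsto (fun n : ℕ => (f ^ (n + 1)) x) atTop (𝓝 L) :=
    ht.comp (tendsto_add_atTop_nat 1)
  have h2 : Tendsto (fun n : ℕ => (f ^ (n + 1)) x) atTop (𝓝 (f L)) := by
    simp_rw [pow_succ_apply]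
    exact (f.continuous.tendsto L).comp ht
  exact hne L ⟨hxL, hLy⟩ (tendsto_nhds_unique h2 h1)

theorem down_escape {f : Dif} {x y : ℝ} (hx : f x < x) (hne : ∀ t ∈ Icc y x, f t ≠ t) :
    ∃ n : ℕ, (f ^ n) x < y := by
  by_contra hcon
  push Not at hcon
  have hmono : Antitone (fun n : ℕ => (f ^ n) x) :=
    antitone_nat_of_succ_le (fun n => by
      rw [pow_succ_apply']; exact ((f ^ n).lt_iff.mpr hx).le)
  have hbdd : BddBelow (Set.range (fun n : ℕ => (f ^ n) x)) :=
    ⟨y, by rintro _ ⟨n, rfl⟩; exact hcon n⟩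
  have ht := tendsto_atTop_ciInf hmono hbdd
  set L := ⨅ n : ℕ, (f ^ n) x
  have hxL : L ≤ x := by
    have := ciInf_le hbdd 0
    simpa using this
  have hLy : y ≤ L := le_ciInf hcon
  have h1 : Tendsto (fun n : ℕ => (f ^ (n + 1)) x) atTop (𝓝 L) :=
    ht.comp (tendsto_add_atTop_nat 1)
  have h2 : Tendsto (fun n : ℕ => (f ^ (n + 1)) x) atTop (𝓝 (f L)) := by
    simp_rw [pow_succ_apply]
    exact (f.continuous.tendsto L).comp ht
  exact hne L ⟨hLy, hxL⟩ (tendsto_nhds_unique h2 h1)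

theorem inv_fix_iff {f : Dif} {t : ℝ} : f⁻¹ t = t ↔ f t = t := by
  constructor
  · intro h
    have := Dif.apply_inv_self f t
    rwa [h] at this
  · exact fix_inv

theorem escape {f : Dif} {x y : ℝ} (hne : ∀ t ∈ uIcc x y, f t ≠ t) :
    (∃ k : ℤ, y < (f ^ k) x) ∧ ∃ k : ℤ, (f ^ k) x < y := by
  have hx : f x ≠ x := hne x left_mem_uIcc
  have hne1 : ∀ t ∈ Icc x y, f t ≠ t := fun t ht => hne t (Icc_subset_uIcc ht)
  have hne2 : ∀ t ∈ Icc y x, f t ≠ t := fun t ht => hne t (Icc_subset_uIcc' ht)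
  have hne1' : ∀ t ∈ Icc x y, f⁻¹ t ≠ t := fun t ht h => hne1 t ht (inv_fix_iff.mp h)
  have hne2' : ∀ t ∈ Icc y x, f⁻¹ t ≠ t := fun t ht h => hne2 t ht (inv_fix_iff.mp h)
  rcases lt_or_gt_of_ne hx with h | h
  · constructor
    · have h' : x < f⁻¹ x := by rw [Dif.lt_inv_iff]; exact h
      obtain ⟨n, hn⟩ := up_escape h' hne1'
      refine ⟨-(n : ℤ), ?_⟩
      rw [zpow_neg, zpow_natCast, ← inv_pow]
      exact hn
    · obtain ⟨n, hn⟩ := down_escape h hne2
      exact ⟨n, by rw [zpow_natCast]; exact hn⟩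
  · constructor
    · obtain ⟨n, hn⟩ := up_escape h hne1
      exact ⟨n, by rw [zpow_natCast]; exact hn⟩
    · have h' : f⁻¹ x < x := by rw [Dif.inv_lt_iff]; exact h
      obtain ⟨n, hn⟩ := down_escape h' hne2'
      refine ⟨-(n : ℤ), ?_⟩
      rw [zpow_neg, zpow_natCast, ← inv_pow]
      exact hn

theorem zpow_fix {f : Dif} {t : ℝ} (h : f t = t) (k : ℤ) : (f ^ k) t = t := by
  induction k with
  | zero => simp
  | succ n ih =>
    rw [zpow_add_one, Dif.mul_apply, h]; exact ih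
  | pred n ih =>
    rw [zpow_sub_one, Dif.mul_apply, fix_inv h]; exact ih

theorem comm_zpow_apply {f g : Dif} (hc : Commute f g) (n : ℤ) (x : ℝ) :
    (f ^ n) (g x) = g ((f ^ n) x) := Dif.comm_apply (hc.zpow_left n) x

/-- `f` and `C` move no point across a fixed point of `f`. -/
theorem no_fix_between {f C : Dif} (hfC : ∀ t, f t = t → C t = t) {x : ℝ} (hx : f x ≠ x)
    (k l : ℤ) : ∀ t ∈ uIcc ((f ^ k) x) (C ((f ^ l) x)), f t ≠ t := by
  intro t ht hft
  have h1 : (f ^ k) t = t := zpow_fix hft k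
  have h2 : C ((f ^ l) t) = t := by rw [zpow_fix hft l]; exact hfC t hft
  rcases lt_trichotomy x t with h | h | h
  · have h3 : (f ^ k) x < t := by
      conv_rhs => rw [← h1]
      exact (f ^ k).lt_iff.mpr h
    have h4 : C ((f ^ l) x) < t := by
      conv_rhs => rw [← h2]
      exact C.lt_iff.mpr ((f ^ l).lt_iff.mpr h)
    have := (mem_uIcc.mp ht)
    rcases this with h5 | h5
    · linarith [h5.2]
    · linarith [h5.2]
  · exact hx (by rw [h]; exact hft)
  · have h3 : t < (f ^ k) x := by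
      conv_lhs => rw [← h1]
      exact (f ^ k).lt_iff.mpr h
    have h4 : t < C ((f ^ l) x) := by
      conv_lhs => rw [← h2]
      exact C.lt_iff.mpr ((f ^ l).lt_iff.mpr h)
    have := (mem_uIcc.mp ht)
    rcases this with h5 | h5
    · linarith [h5.1]
    · linarith [h5.1]

theorem zpow_dsp_isBigO (f : Dif) {z : ℝ} (hfz : f z = z) {l : Filter ℝ} (hl : l ≤ 𝓝 z) (k : ℤ) :
    (dsp (f ^ k)) =O[l] (dsp f) := by
  have step : ∀ k : ℤ, (fun x => (f ^ (k + 1)) x - (f ^ k) x) =O[l] (dsp f) := by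
    intro k
    obtain ⟨M, hM, h⟩ := dsp_pow_le f k (z - 1) (z + 1)
    have h1 : ∀ᶠ x in 𝓝 z, x ∈ Icc (z - 1) (z + 1) := Icc_mem_nhds (by linarith) (by linarith)
    have h2 : ∀ᶠ x in 𝓝 z, f x ∈ Icc (z - 1) (z + 1) := by
      apply (f.continuous.tendsto z).eventually
      rw [hfz]
      exact Icc_mem_nhds (by linarith) (by linarith)
    refine IsBigO.of_bound M ?_
    apply Filter.Eventually.filter_mono hl
    filter_upwards [h1, h2] with x hx hx'
    have := h x hx hx'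
    simpa [dsp, Real.norm_eq_abs] using this
  induction k with
  | zero =>
    have : dsp (f ^ (0 : ℤ)) = fun _ => (0 : ℝ) := by funext x; simp [dsp]
    rw [this]
    exact isBigO_zero _ _
  | succ n ih =>
    have := ih.add (step n)
    refine this.congr_left (fun x => ?_)
    unfold dsp; ring
  | pred n ih =>
    have h3 := step (-(n : ℤ) - 1)
    have := ih.sub h3
    refine this.congr_left (fun x => ?_)
    unfold dsp
    rw [sub_add_cancel]
    ring

theorem bigO_contr {f C : Dif} (hc : Commute f C) (hfC : ∀ t, f t = t → C t = t) {z v : ℝ}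
    (hv : z < v) (hfz : f z = z) (hf : ∀ x ∈ Ioo z v, f x < x) :
    (dsp C) =O[𝓝[>] z] (dsp f) := by
  set x := (z + v) / 2 with hx
  have hxm : x ∈ Ioo z v := ⟨by rw [hx]; linarith, by rw [hx]; linarith⟩
  have hfx : f x ≠ x := (hf x hxm).ne
  obtain ⟨-, k₁, hk₁⟩ := escape (no_fix_between hfC hfx 0 1)
  obtain ⟨⟨k₂, hk₂⟩, -⟩ := escape (no_fix_between hfC hfx 1 0)
  simp only [zpow_zero, Dif.one_apply, zpow_one] at hk₁ hk₂
  have key : ∀ᶠ y in 𝓝[>] z, ‖dsp C y‖ ≤ 1 * ‖|dsp (f ^ k₁) y| + |dsp (f ^ k₂) y|‖ := by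
    filter_upwards [Ioo_mem_nhdsGT hxm.1] with y hy
    have ht := iter_tendsto hfz hf hxm
    have hex : ∃ j : ℕ, (f ^ (j + 1)) x < y := by
      have := (ht.comp (tendsto_add_atTop_nat 1)).eventually (Iio_mem_nhds hy.1)
      exact this.exists
    classical
    set j := Nat.find hex with hj
    have hj1 : (f ^ (j + 1)) x < y := Nat.find_spec hex
    have hj2 : y ≤ (f ^ j) x := by
      rcases Nat.eq_zero_or_pos j with h0 | h0
      · rw [h0]; simpa using hy.2.le
      · have := Nat.find_min hex (m := j - 1) (by omega)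
        rw [Nat.sub_add_cancel h0] at this
        exact not_lt.mp this
    set w := (f ^ j)⁻¹ y with hw
    have hyw : (f ^ j) w = y := Dif.apply_inv_self _ _
    have hw1 : f x < w := by
      rw [hw, Dif.lt_inv_iff, ← pow_succ_apply']; exact hj1
    have hw2 : w ≤ x := by
      rw [hw, Dif.inv_le_iff]; exact hj2
    have h1 : (f ^ k₁) w < C w :=
      (((f ^ k₁).le_iff.mpr hw2).trans_lt hk₁).trans (C.lt_iff.mpr hw1)
    have h2 : C w < (f ^ k₂) w :=
      ((C.le_iff.mpr hw2).trans_lt hk₂).trans ((f ^ k₂).lt_iff.mpr hw1)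
    have h1' : (f ^ k₁) y < C y := by
      have := (f ^ j).lt_iff.mpr h1
      rw [comm_pow_apply hc, hyw] at this
      have e : (f ^ j) ((f ^ k₁) w) = (f ^ k₁) ((f ^ j) w) :=
        Dif.comm_apply (((Commute.refl f).zpow_right k₁).pow_left j) w
      rwa [e, hyw] at this
    have h2' : C y < (f ^ k₂) y := by
      have := (f ^ j).lt_iff.mpr h2
      rw [comm_pow_apply hc, hyw] at this
      have e : (f ^ j) ((f ^ k₂) w) = (f ^ k₂) ((f ^ j) w) :=
        Dif.comm_apply (((Commute.refl f).zpow_right k₂).pow_left j) w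
      rwa [e, hyw] at this
    rw [one_mul, Real.norm_eq_abs, Real.norm_eq_abs]
    refine le_trans ?_ (le_abs_self _)
    unfold dsp
    rw [abs_le]
    constructor
    · have := neg_abs_le ((f ^ k₁) y - y)
      have := abs_nonneg ((f ^ k₂) y - y)
      linarith
    · have := le_abs_self ((f ^ k₂) y - y)
      have := abs_nonneg ((f ^ k₁) y - y)
      linarith
  have h3 : (fun y => |dsp (f ^ k₁) y| + |dsp (f ^ k₂) y|) =O[𝓝[>] z] (dsp f) :=
    ((zpow_dsp_isBigO f hfz nhdsWithin_le_nhds k₁).norm_left).add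
      ((zpow_dsp_isBigO f hfz nhdsWithin_le_nhds k₂).norm_left)
  exact (IsBigO.of_bound 1 key).trans h3

theorem bigO_right {f C : Dif} (hc : Commute f C) (hfC : ∀ t, f t = t → C t = t) {z : ℝ}
    (hfz : f z = z) (hf : ¬ FlatAt f z) : (dsp C) =O[𝓝[>] z] (dsp f) := by
  obtain ⟨v, hv, h1, -⟩ := exists_interval hf
  rcases sign_of_ne h1 with h | h
  · exact bigO_contr hc hfC (by linarith) hfz h
  · have h2 : (dsp C) =O[𝓝[>] z] (dsp f⁻¹) := by
      refine bigO_contr (v := z + v) hc.inv_left (fun t ht => hfC t (inv_fix_iff.mp ht))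
        (by linarith) (fix_inv hfz) (fun x hx => ?_)
      rw [Dif.inv_lt_iff]
      exact h x hx
    refine h2.trans ?_
    have := zpow_dsp_isBigO f hfz (l := 𝓝[>] z) nhdsWithin_le_nhds (-1)
    rwa [zpow_neg_one] at this

/-- the limit of the ratio of the displacements at a common fixed point -/
theorem ratio_limit {L : Set Dif} (h : NF L) {C f : Dif} (hC : ∀ γ ∈ L, Commute γ C)
    (hfL : f ∈ L) (hfC : ∀ t, f t = t → C t = t) (hC1 : C ≠ 1)
    {z : ℝ} (hz : Fx L z) (hf : ¬ FlatAt f z) :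
    ∃ r : ℝ, r ≠ 0 ∧ Tendsto (fun x => dsp C x / dsp f x) (𝓝[≠] z) (𝓝 r) := by
  obtain ⟨j, c, hc, -, ht⟩ := exists_order hf
  have hO := bigO_right (hC f hfL) hfC (hz f hfL) hf
  have hle : 𝓝[>] z ≤ 𝓝[≠] z := nhdsWithin_mono z (fun _ hx => ne_of_gt hx)
  have hne0 : ∀ᶠ x in 𝓝[≠] z, x - z ≠ 0 := by
    filter_upwards [self_mem_nhdsWithin] with x hx
    exact sub_ne_zero.mpr hx
  -- dsp f = O((x-z)^j)
  have hfO : (dsp f) =O[𝓝[≠] z] (fun x => (x - z) ^ j) := by
    refine isBigO_of_div_tendsto_nhds ?_ c ht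
    filter_upwards [hne0] with x hx h0
    exact absurd h0 (pow_ne_zero _ hx)
  have hCO : (dsp C) =O[𝓝[>] z] (fun x => (x - z) ^ j) := hO.trans (hfO.mono hle)
  have hzero : ∀ i < j, iteratedDeriv i (dsp C) z = 0 := by
    by_contra hcon
    push Not at hcon
    classical
    set i := Nat.find hcon with hi
    obtain ⟨hij, hi0⟩ := Nat.find_spec hcon
    have hlt : ∀ i' < i, iteratedDeriv i' (dsp C) z = 0 := by
      intro i' hi'
      by_contra h2
      exact Nat.find_min hcon hi' ⟨hi'.trans hij, h2⟩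
    have h3 := (tendsto_div_pow i (dsp C) z (dsp_contDiff C) hlt).mono_left hle
    have h4 : (fun x : ℝ => (x - z) ^ j) =o[𝓝[>] z] (fun x => (x - z) ^ i) := by
      have h5 : Tendsto (fun x : ℝ => x - z) (𝓝[>] z) (𝓝 0) := by
        have : Tendsto (fun x : ℝ => x - z) (𝓝 z) (𝓝 (z - z)) :=
          (continuous_id.sub continuous_const).tendsto z
        rw [sub_self] at this
        exact this.mono_left nhdsWithin_le_nhds
      exact (isLittleO_pow_pow hij).comp_tendsto h5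
    have h6 := (hCO.trans_isLittleO h4).tendsto_div_nhds_zero
    have h7 := tendsto_nhds_unique h3 h6
    rw [div_eq_zero_iff] at h7
    rcases h7 with h7 | h7
    · exact hi0 h7
    · exact absurd h7 (by positivity)
  have hd := tendsto_div_pow j (dsp C) z (dsp_contDiff C) hzero
  set d := iteratedDeriv j (dsp C) z / (j.factorial : ℝ) with hdd
  have h2 : Tendsto (fun x => (dsp C x / (x - z) ^ j) / (dsp f x / (x - z) ^ j)) (𝓝[≠] z)
      (𝓝 (d / c)) := hd.div ht hc
  have h3 : Tendsto (fun x => dsp C x / dsp f x) (𝓝[≠] z) (𝓝 (d / c)) := by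
    refine h2.congr' ?_
    filter_upwards [hne0] with x hx
    exact div_div_div_cancel_right₀ (pow_ne_zero _ hx) _ _
  refine ⟨d / c, ?_, h3⟩
  intro h0
  rw [h0] at h3
  have hne : ∀ᶠ x in 𝓝[≠] z, dsp f x ≠ 0 := by
    filter_upwards [eventually_ne hf] with x hx
    exact sub_ne_zero.mpr hx
  have ho : (dsp C) =o[𝓝[≠] z] (dsp f) := by
    rw [isLittleO_iff_tendsto' (hne.mono (fun x hx h => absurd h hx))]
    exact h3
  obtain ⟨v, hv, h4, -⟩ := exists_interval hf
  have h5 := ratio_right (hC f hfL) (z := z) (v := z + v) (by linarith) (hz f hfL) h4 (ho.mono hle)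
  have h6 : FlatAt C z := by
    apply flat_of_right
    filter_upwards [Ioo_mem_nhdsGT (show z < z + v by linarith)] with x hx
    exact h5 x hx
  exact hC1 (eq_one_of_flat h hC hz h6)

/-- elements of the centraliser have no further fixed points -/
theorem ne_of_ne {L : Set Dif} (h : NF L) {C f : Dif} (hC : ∀ γ ∈ L, Commute γ C)
    (hfL : f ∈ L) (hK : ∀ t, f t = t → Fx L t) (hub : ∀ x, ∃ t, x < t ∧ f t = t)
    (hC1 : C ≠ 1) {x : ℝ} (hx : f x ≠ x) : C x ≠ x := by
  intro hCx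
  obtain ⟨g, hg, hgL, hgx⟩ : ∃ g : Dif, (∀ t, g t = t ↔ f t = t) ∧ g ∈ L ∧ x < g x := by
    rcases lt_or_gt_of_ne hx with h1 | h1
    · exact ⟨f⁻¹, fun t => inv_fix_iff, h.inv f hfL, by rw [Dif.lt_inv_iff]; exact h1⟩
    · exact ⟨f, fun t => Iff.rfl, hfL, h1⟩
  obtain ⟨t, hxt, hft⟩ := hub x
  have hgt : g t = t := (hg t).mpr hft
  have hlt : ∀ n : ℕ, (g ^ n) x < t := by
    intro n
    have h1 := (g ^ n).lt_iff.mpr hxt
    have h2 : (g ^ n) t = t := by
      have := zpow_fix hgt n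
      rwa [zpow_natCast] at this
    rwa [h2] at h1
  have hmono : StrictMono (fun n : ℕ => (g ^ n) x) :=
    strictMono_nat_of_lt_succ (fun n => by
      rw [pow_succ_apply']; exact ((g ^ n).lt_iff.mpr hgx))
  have hbdd : BddAbove (Set.range (fun n : ℕ => (g ^ n) x)) :=
    ⟨t, by rintro _ ⟨n, rfl⟩; exact (hlt n).le⟩
  have ht := tendsto_atTop_ciSup hmono.monotone hbdd
  set M := ⨆ n : ℕ, (g ^ n) x
  have h1 : Tendsto (fun n : ℕ => (g ^ (n + 1)) x) atTop (𝓝 M) :=
    ht.comp (tendsto_add_atTop_nat 1)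
  have h2 : Tendsto (fun n : ℕ => (g ^ (n + 1)) x) atTop (𝓝 (g M)) := by
    simp_rw [pow_succ_apply]
    exact (g.continuous.tendsto M).comp ht
  have hgM : g M = M := tendsto_nhds_unique h2 h1
  have hne : ∀ n : ℕ, (g ^ n) x < M := fun n =>
    (hmono (Nat.lt_succ_self n)).trans_le (le_ciSup hbdd (n + 1))
  have hten : Tendsto (fun n : ℕ => (g ^ n) x) atTop (𝓝[≠] M) :=
    tendsto_nhdsWithin_iff.mpr ⟨ht, Eventually.of_forall (fun n => (hne n).ne)⟩
  have hfr : ∃ᶠ y in 𝓝[≠] M, C y = y := by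
    refine hten.frequently (Frequently.of_forall (fun n => ?_))
    have := comm_pow_apply (hC g hgL) n x
    rw [hCx] at this
    exact this.symm
  exact hC1 (eq_one_of_flat h hC (hK M ((hg M).mp hgM)) (flat_of_frequently hfr))

theorem isOpen_eventually_punctured (p : ℝ → Prop) : IsOpen {x : ℝ | ∀ᶠ y in 𝓝[≠] x, p y} := by
  rw [isOpen_iff_mem_nhds]
  intro x hx
  have hx' : ∀ᶠ y in 𝓝[≠] x, p y := hx
  rw [eventually_nhdsWithin_iff] at hx'
  have h2 := hx'.eventually_nhds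
  filter_upwards [h2] with y hy
  show ∀ᶠ w in 𝓝[≠] y, p w
  by_cases hyx : y = x
  · rw [hyx]; exact hx
  · have h3 : ∀ᶠ w in 𝓝 y, w ≠ x := isOpen_ne.mem_nhds hyx
    have h4 : ∀ᶠ w in 𝓝 y, p w := by
      filter_upwards [hy, h3] with w hw hw'
      exact hw hw'
    exact h4.filter_mono nhdsWithin_le_nhds

/-- The relative sign of an element of the centraliser is constant. -/
theorem sign_const {L : Set Dif} (h : NF L) {C f : Dif} (hC : ∀ γ ∈ L, Commute γ C)
    (hfL : f ∈ L) (hK : ∀ t, f t = t → Fx L t) (hub : ∀ x, ∃ t, x < t ∧ f t = t)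
    (hnf : ∀ t, f t = t → ¬ FlatAt f t)
    (hfC : ∀ t, f t = t → C t = t) (hC1 : C ≠ 1) :
    (∀ x, f x ≠ x → 0 < dsp C x * dsp f x) ∨ (∀ x, f x ≠ x → dsp C x * dsp f x < 0) := by
  have hcont : Continuous (fun x => dsp C x * dsp f x) :=
    (dsp_contDiff C).continuous.mul (dsp_contDiff f).continuous
  have hnz : ∀ x, f x ≠ x → dsp C x * dsp f x ≠ 0 := by
    intro x hx
    exact mul_ne_zero (sub_ne_zero.mpr (ne_of_ne h hC hfL hK hub hC1 hx)) (sub_ne_zero.mpr hx)
  set P := {x : ℝ | ∀ᶠ y in 𝓝[≠] x, 0 < dsp C y * dsp f y} with hP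
  set N := {x : ℝ | ∀ᶠ y in 𝓝[≠] x, dsp C y * dsp f y < 0} with hN
  have hPo : IsOpen P := isOpen_eventually_punctured _
  have hNo : IsOpen N := isOpen_eventually_punctured _
  have hPN : ∀ x, x ∈ P ∨ x ∈ N := by
    intro x
    by_cases hx : f x = x
    · obtain ⟨r, hr, ht⟩ := ratio_limit h hC hfL hfC hC1 (hK x hx) (hnf x hx)
      have hne := eventually_ne (hnf x hx)
      rcases lt_or_gt_of_ne hr with h1 | h1
      · right
        have h2 := ht.eventually (Iio_mem_nhds h1)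
        filter_upwards [h2, hne] with y hy hy'
        have h3 : dsp f y ≠ 0 := sub_ne_zero.mpr hy'
        have h4 : dsp C y * dsp f y = (dsp C y / dsp f y) * (dsp f y) ^ 2 := by
          field_simp
        rw [h4]
        have h5 : 0 < (dsp f y) ^ 2 := by positivity
        exact mul_neg_of_neg_of_pos hy h5
      · left
        have h2 := ht.eventually (Ioi_mem_nhds h1)
        filter_upwards [h2, hne] with y hy hy'
        have h3 : dsp f y ≠ 0 := sub_ne_zero.mpr hy'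
        have h4 : dsp C y * dsp f y = (dsp C y / dsp f y) * (dsp f y) ^ 2 := by
          field_simp
        rw [h4]
        have h5 : 0 < (dsp f y) ^ 2 := by positivity
        exact mul_pos hy h5
    · rcases lt_or_gt_of_ne (hnz x hx) with h1 | h1
      · right
        exact ((hcont.tendsto x).eventually (Iio_mem_nhds h1)).filter_mono nhdsWithin_le_nhds
      · left
        exact ((hcont.tendsto x).eventually (Ioi_mem_nhds h1)).filter_mono nhdsWithin_le_nhds
  have hdisj : ∀ x, x ∈ P → x ∉ N := by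
    intro x h1 h2
    have h3 : ∀ᶠ y in 𝓝[≠] x, False := by
      filter_upwards [h1, h2] with y hy hy'
      linarith
    exact (h3.exists).elim (fun _ h => h)
  have hcompl : Pᶜ = N := by
    ext x
    constructor
    · intro hx; exact (hPN x).resolve_left hx
    · intro hx hx'; exact hdisj x hx' hx
  have hclopen : IsClopen P := ⟨⟨by rw [hcompl]; exact hNo⟩, hPo⟩
  rcases isClopen_iff.mp hclopen with h1 | h1
  · right
    intro x hx
    have h2 : x ∈ N := by rw [← hcompl, h1]; simp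
    rcases lt_or_gt_of_ne (hnz x hx) with h3 | h3
    · exact h3
    · exfalso
      have h4 : x ∈ P :=
        ((hcont.tendsto x).eventually (Ioi_mem_nhds h3)).filter_mono nhdsWithin_le_nhds
      exact hdisj x h4 h2
  · left
    intro x hx
    have h2 : x ∈ P := by rw [h1]; trivial
    rcases lt_or_gt_of_ne (hnz x hx) with h3 | h3
    · exfalso
      have h4 : x ∈ N :=
        ((hcont.tendsto x).eventually (Iio_mem_nhds h3)).filter_mono nhdsWithin_le_nhds
      exact hdisj x h2 h4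
    · exact h3

/-! ## Words in the three generators -/

/-- the word `F^a G^b T^c` -/
noncomputable def wd (F G : Dif) (a b c : ℤ) : Dif := F ^ a * G ^ b * T ^ c

theorem wd_mul {F G : Dif} (h : Act F G) (a b c a' b' c' : ℤ) :
    wd F G a b c * wd F G a' b' c' = wd F G (a + a') (b + b') (c + c') := by
  unfold wd
  have hFT := h.FT
  have hGT := h.GT
  have hFG := h.FG
  have e1 : T ^ c * F ^ a' = F ^ a' * T ^ c := ((hFT.symm.zpow_left c).zpow_right a').eq
  have e2 : T ^ c * G ^ b' = G ^ b' * T ^ c := ((hGT.symm.zpow_left c).zpow_right b').eq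
  have e3 : G ^ b * F ^ a' = F ^ a' * G ^ b := ((hFG.symm.zpow_left b).zpow_right a').eq
  calc F ^ a * G ^ b * T ^ c * (F ^ a' * G ^ b' * T ^ c')
      = F ^ a * G ^ b * (T ^ c * F ^ a') * G ^ b' * T ^ c' := by simp only [mul_assoc]
    _ = F ^ a * (G ^ b * F ^ a') * (T ^ c * G ^ b') * T ^ c' := by rw [e1]; simp only [mul_assoc]
    _ = F ^ a * (F ^ a' * G ^ b) * (G ^ b' * T ^ c) * T ^ c' := by rw [e2, e3]
    _ = (F ^ a * F ^ a') * (G ^ b * G ^ b') * (T ^ c * T ^ c') := by simp only [mul_assoc]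
    _ = F ^ (a + a') * G ^ (b + b') * T ^ (c + c') := by rw [zpow_add, zpow_add, zpow_add]

theorem wd_zero (F G : Dif) : wd F G 0 0 0 = 1 := by simp [wd]

theorem wd_inv {F G : Dif} (h : Act F G) (a b c : ℤ) :
    (wd F G a b c)⁻¹ = wd F G (-a) (-b) (-c) := by
  rw [inv_eq_iff_mul_eq_one, wd_mul h]
  simp [wd_zero]

theorem wd_commute {F G : Dif} (h : Act F G) (a b c a' b' c' : ℤ) :
    Commute (wd F G a b c) (wd F G a' b' c') := by
  show wd F G a b c * wd F G a' b' c' = wd F G a' b' c' * wd F G a b c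
  rw [wd_mul h, wd_mul h, add_comm a, add_comm b, add_comm c]

theorem wd_zpow {F G : Dif} (h : Act F G) (a b c n : ℤ) :
    (wd F G a b c) ^ n = wd F G (n * a) (n * b) (n * c) := by
  induction n with
  | zero => simp [wd_zero]
  | succ n ih =>
    rw [zpow_add_one, ih, wd_mul h]
    congr 1 <;> ring
  | pred n ih =>
    rw [zpow_sub_one, ih, wd_inv h, wd_mul h]
    congr 1 <;> ring

theorem T_eq_wd (F G : Dif) : T = wd F G 0 0 1 := by simp [wd]

theorem fix_of_zpow_fix {f : Dif} {n : ℤ} (hn : n ≠ 0) {x : ℝ} (h : (f ^ n) x = x) : f x = x := by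
  have key : ∀ (g : Dif) (m : ℕ), m ≠ 0 → (g ^ m) x = x → g x = x := by
    intro g m hm hg
    by_contra hne
    rcases lt_or_gt_of_ne hne with h1 | h1
    · have hanti : StrictAnti (fun n : ℕ => (g ^ n) x) :=
        strictAnti_nat_of_succ_lt (fun n => by
          rw [pow_succ_apply']; exact ((g ^ n).lt_iff.mpr h1))
      have := hanti (Nat.pos_of_ne_zero hm)
      simp only [pow_zero, Dif.one_apply] at this
      linarith
    · have hanti : StrictMono (fun n : ℕ => (g ^ n) x) :=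
        strictMono_nat_of_lt_succ (fun n => by
          rw [pow_succ_apply']; exact ((g ^ n).lt_iff.mpr h1))
      have := hanti (Nat.pos_of_ne_zero hm)
      simp only [pow_zero, Dif.one_apply] at this
      linarith
  have h2 : (f ^ n.natAbs) x = x := by
    rcases Int.natAbs_eq n with h3 | h3
    · rw [h3, zpow_natCast] at h; exact h
    · rw [h3, zpow_neg, zpow_natCast] at h
      exact inv_fix_iff.mp h
  exact key f n.natAbs (by simpa using hn) h2

theorem eq_one_of_zpow {f : Dif} {n : ℤ} (hn : n ≠ 0) (h : f ^ n = 1) : f = 1 := by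
  ext x
  exact fix_of_zpow_fix hn (by rw [h]; simp)

variable {F G : Dif} {nF nG q : ℤ}

theorem inL_wd {a b c : ℤ} (h : a * nF + b * nG + c * q = 0) :
    InL F G nF nG q (wd F G a b c) := ⟨a, b, c, rfl, h⟩

theorem inL_inv (h : Act F G) {γ : Dif} (hγ : InL F G nF nG q γ) : InL F G nF nG q γ⁻¹ := by
  obtain ⟨a, b, c, rfl, e⟩ := hγ
  refine ⟨-a, -b, -c, wd_inv h a b c, by linarith⟩

theorem inL_zpow (h : Act F G) {γ : Dif} (hγ : InL F G nF nG q γ) (n : ℤ) :
    InL F G nF nG q (γ ^ n) := by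
  obtain ⟨a, b, c, rfl, e⟩ := hγ
  refine ⟨n * a, n * b, n * c, wd_zpow h a b c n, ?_⟩
  have : n * a * nF + n * b * nG + n * c * q = n * (a * nF + b * nG + c * q) := by ring
  rw [this, e, mul_zero]

theorem inL_commute_wd (h : Act F G) {γ : Dif} (hγ : InL F G nF nG q γ) (a b c : ℤ) :
    Commute γ (wd F G a b c) := by
  obtain ⟨a', b', c', rfl, -⟩ := hγ
  exact wd_commute h a' b' c' a b c

theorem inL_commute (h : Act F G) {γ δ : Dif} (hγ : InL F G nF nG q γ)
    (hδ : InL F G nF nG q δ) : Commute γ δ := by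
  obtain ⟨a', b', c', rfl, -⟩ := hδ
  exact inL_commute_wd h hγ a' b' c'

theorem comm_T_apply {g : Dif} (hg : Commute g T) (x : ℝ) (n : ℤ) : g (x + n) = g x + n := by
  have := Dif.comm_apply (hg.zpow_right n) x
  simpa using this

theorem inL_add_int (h : Act F G) {γ : Dif} (hγ : InL F G nF nG q γ) (x : ℝ) (n : ℤ) :
    γ (x + n) = γ x + n := by
  apply comm_T_apply
  rw [T_eq_wd F G]
  exact inL_commute_wd h hγ 0 0 1

theorem inL_fix (h : Rat F G nF nG q) {γ : Dif} (hγ : InL F G nF nG q γ) : ∃ x, γ x = x := by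
  obtain ⟨a, b, c, rfl, e⟩ := hγ
  exact h.fix a b c e

theorem fixK_add_int (h : Act F G) {z : ℝ} (hz : FixK F G nF nG q z) (n : ℤ) :
    FixK F G nF nG q (z + n) := by
  intro γ hγ
  rw [inL_add_int h hγ, hz γ hγ]

/-- three elements of a rank two lattice -/
theorem exists_relation {nF nG q : ℤ} (hq : q ≠ 0) {a₁ b₁ c₁ a₂ b₂ c₂ a₃ b₃ c₃ : ℤ}
    (h₁ : a₁ * nF + b₁ * nG + c₁ * q = 0) (h₂ : a₂ * nF + b₂ * nG + c₂ * q = 0)
    (h₃ : a₃ * nF + b₃ * nG + c₃ * q = 0) :
    (a₁ * b₂ - a₂ * b₁) * a₃ = (a₃ * b₂ - a₂ * b₃) * a₁ + (a₁ * b₃ - a₃ * b₁) * a₂ ∧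
    (a₁ * b₂ - a₂ * b₁) * b₃ = (a₃ * b₂ - a₂ * b₃) * b₁ + (a₁ * b₃ - a₃ * b₁) * b₂ ∧
    (a₁ * b₂ - a₂ * b₁) * c₃ = (a₃ * b₂ - a₂ * b₃) * c₁ + (a₁ * b₃ - a₃ * b₁) * c₂ := by
  refine ⟨by ring, by ring, ?_⟩
  apply mul_right_cancel₀ hq
  have e1 : c₁ * q = -(a₁ * nF + b₁ * nG) := by linarith
  have e2 : c₂ * q = -(a₂ * nF + b₂ * nG) := by linarith
  have e3 : c₃ * q = -(a₃ * nF + b₃ * nG) := by linarith
  calc (a₁ * b₂ - a₂ * b₁) * c₃ * q = (a₁ * b₂ - a₂ * b₁) * (c₃ * q) := by ring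
    _ = (a₃ * b₂ - a₂ * b₃) * (c₁ * q) + (a₁ * b₃ - a₃ * b₁) * (c₂ * q) := by
        rw [e1, e2, e3]; ring
    _ = _ := by ring

theorem exists_common {f g : Dif} (hfg : Commute f g) (hf : Commute f T) 
    (hfx : ∃ x, f x = x) (hgx : ∃ x, g x = x) : ∃ z, f z = z ∧ g z = z := by
  obtain ⟨x, hx⟩ := hfx
  obtain ⟨y, hy⟩ := hgx
  let S : Set ℝ := {t | f t = t} ∩ Ici y
  have hScl : IsClosed S := (isClosed_eq f.continuous continuous_id).inter isClosed_Ici
  have hSne : S.Nonempty := by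
    refine ⟨x + (⌈y - x⌉ : ℤ), ?_, ?_⟩
    · show f (x + (⌈y - x⌉ : ℤ)) = x + (⌈y - x⌉ : ℤ)
      rw [comm_T_apply hf, hx]
    · show y ≤ x + (⌈y - x⌉ : ℤ)
      have := Int.le_ceil (y - x)
      linarith
  have hSb : BddBelow S := ⟨y, fun t ht => ht.2⟩
  have hz := hScl.csInf_mem hSne hSb
  set z := sInf S
  have hfz : f z = z := hz.1
  have hyz : y ≤ z := hz.2
  have h1 : g z ∈ S := by
    refine ⟨?_, ?_⟩
    · show f (g z) = g z
      rw [Dif.comm_apply hfg, hfz]
    · show y ≤ g z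
      rw [← hy]; exact g.le_iff.mpr hyz
  have h2 : g⁻¹ z ∈ S := by
    refine ⟨?_, ?_⟩
    · show f (g⁻¹ z) = g⁻¹ z
      rw [Dif.comm_apply hfg.inv_right, hfz]
    · show y ≤ g⁻¹ z
      rw [Dif.le_inv_iff, hy]; exact hyz
  have h3 := csInf_le hSb h1
  have h4 := csInf_le hSb h2
  rw [Dif.le_inv_iff] at h4
  exact ⟨z, hfz, le_antisymm h4 h3⟩

end BS

open BS

variable {F G : Dif} {nF nG q : ℤ}

theorem exists_fixK (h : Rat F G nF nG q) : ∃ z, FixK F G nF nG q z := by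
  have hq : q ≠ 0 := h.q_pos.ne'
  have e1 : q * nF + 0 * nG + (-nF) * q = 0 := by ring
  have e2 : 0 * nF + q * nG + (-nG) * q = 0 := by ring
  have hTw : T = wd F G 0 0 1 := T_eq_wd F G
  obtain ⟨z, hz1, hz2⟩ := exists_common (f := wd F G q 0 (-nF)) (g := wd F G 0 q (-nG))
    (wd_commute h.toAct _ _ _ _ _ _) (by rw [hTw]; exact wd_commute h.toAct _ _ _ _ _ _)
    (h.fix _ _ _ e1) (h.fix _ _ _ e2)
  refine ⟨z, ?_⟩
  rintro γ ⟨a, b, c, rfl, e⟩
  apply fix_of_zpow_fix hq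
  have e3 : (F ^ a * G ^ b * T ^ c) ^ q
      = (wd F G q 0 (-nF)) ^ a * (wd F G 0 q (-nG)) ^ b := by
    show (wd F G a b c) ^ q = _
    rw [wd_zpow h.toAct, wd_zpow h.toAct, wd_zpow h.toAct, wd_mul h.toAct]
    congr 1
    · ring
    · ring
    · linarith
  rw [e3, Dif.mul_apply, zpow_fix hz2, zpow_fix hz1]

theorem BS.nf_set (h : Rat F G nF nG q) (hnf : NonFlat F G nF nG q) :
    NF {γ | InL F G nF nG q γ} :=
  ⟨fun _ hγ => inL_inv h.toAct hγ, fun z hz => hnf z hz⟩

theorem nf_not_flat (h : Rat F G nF nG q) (hnf : NonFlat F G nF nG q) {γ : Dif}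
    (hγ : InL F G nF nG q γ) (h1 : γ ≠ 1) {z : ℝ} (hz : FixK F G nF nG q z) :
    ¬ FlatAt γ z := by
  intro hf
  exact h1 (eq_one_of_flat (BS.nf_set h hnf) (fun δ hδ => inL_commute h.toAct hδ hγ) hz hf)

theorem nf_fix (h : Rat F G nF nG q) (hnf : NonFlat F G nF nG q) {γ : Dif}
    (hγ : InL F G nF nG q γ) (h1 : γ ≠ 1) {z : ℝ} (hz : γ z = z) :
    FixK F G nF nG q z := by
  by_contra hK
  unfold FixK at hK
  push Not at hK
  obtain ⟨δ₀, hδ₀, hδ₀z⟩ := hK
  obtain ⟨δ, hδ, hδz⟩ : ∃ δ, InL F G nF nG q δ ∧ δ z < z := by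
    rcases lt_or_gt_of_ne hδ₀z with h2 | h2
    · exact ⟨δ₀, hδ₀, h2⟩
    · refine ⟨δ₀⁻¹, inL_inv h.toAct hδ₀, ?_⟩
      rw [Dif.inv_lt_iff]; exact h2
  have hcomm : Commute γ δ := inL_commute h.toAct hγ hδ
  -- a fixed point of δ below z
  obtain ⟨t₀, ht₀⟩ := inL_fix h hδ
  obtain ⟨t, htz, htt⟩ : ∃ t, t < z ∧ δ t = t := by
    refine ⟨t₀ + ((⌊z - t₀⌋ - 1 : ℤ) : ℝ), ?_, ?_⟩
    · have := Int.floor_le (z - t₀)
      push_cast
      linarith
    · rw [inL_add_int h.toAct hδ, ht₀]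
  have hlt : ∀ n : ℕ, t < (δ ^ n) z := by
    intro n
    have h2 := (δ ^ n).lt_iff.mpr htz
    have h3 : (δ ^ n) t = t := by
      have := zpow_fix htt n
      rwa [zpow_natCast] at this
    rwa [h3] at h2
  have hanti : StrictAnti (fun n : ℕ => (δ ^ n) z) :=
    strictAnti_nat_of_succ_lt (fun n => by
      rw [pow_succ_apply']; exact ((δ ^ n).lt_iff.mpr hδz))
  have hbdd : BddBelow (Set.range (fun n : ℕ => (δ ^ n) z)) :=
    ⟨t, by rintro _ ⟨n, rfl⟩; exact (hlt n).le⟩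
  have ht := tendsto_atTop_ciInf hanti.antitone hbdd
  set M := ⨅ n : ℕ, (δ ^ n) z
  have h2 : Tendsto (fun n : ℕ => (δ ^ (n + 1)) z) atTop (𝓝 M) :=
    ht.comp (tendsto_add_atTop_nat 1)
  have h3 : Tendsto (fun n : ℕ => (δ ^ (n + 1)) z) atTop (𝓝 (δ M)) := by
    simp_rw [pow_succ_apply]
    exact (δ.continuous.tendsto M).comp ht
  have hδM : δ M = M := tendsto_nhds_unique h3 h2
  have hne : ∀ n : ℕ, M < (δ ^ n) z := fun n =>
    (ciInf_le hbdd (n + 1)).trans_lt (hanti (Nat.lt_succ_self n))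
  have hten : Tendsto (fun n : ℕ => (δ ^ n) z) atTop (𝓝[≠] M) :=
    tendsto_nhdsWithin_iff.mpr ⟨ht, Eventually.of_forall (fun n => (hne n).ne')⟩
  have hfr : ∃ᶠ y in 𝓝[≠] M, γ y = y := by
    refine hten.frequently (Frequently.of_forall (fun n => ?_))
    have := comm_pow_apply hcomm.symm n z
    rw [hz] at this
    exact this.symm
  have hflat : FlatAt γ M := flat_of_frequently hfr
  have hγM : γ M = M := flat_fix hflat
  -- M is a common fixed point
  obtain ⟨a₁, b₁, c₁, hγe, e₁⟩ := hγ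
  obtain ⟨a₂, b₂, c₂, hδe, e₂⟩ := hδ
  have hq : q ≠ 0 := h.q_pos.ne'
  have hγw : γ = wd F G a₁ b₁ c₁ := hγe
  have hδw : δ = wd F G a₂ b₂ c₂ := hδe
  have hD : a₁ * b₂ - a₂ * b₁ ≠ 0 := by
    intro hD
    -- γ^{b₂} = δ^{b₁}
    have key : ∀ m n : ℤ, m * a₁ = n * a₂ → m * b₁ = n * b₂ → n = 0 := by
      intro m n h4 h5
      by_contra hn
      have h6 : m * c₁ = n * c₂ := by
        apply mul_right_cancel₀ hq
        have e1 : c₁ * q = -(a₁ * nF + b₁ * nG) := by linarith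
        have e2 : c₂ * q = -(a₂ * nF + b₂ * nG) := by linarith
        calc m * c₁ * q = m * (c₁ * q) := by ring
          _ = -((m * a₁) * nF + (m * b₁) * nG) := by rw [e1]; ring
          _ = -((n * a₂) * nF + (n * b₂) * nG) := by rw [h4, h5]
          _ = n * (c₂ * q) := by rw [e2]; ring
          _ = _ := by ring
      have h7 : γ ^ m = δ ^ n := by
        rw [hγw, hδw, wd_zpow h.toAct, wd_zpow h.toAct, h4, h5, h6]
      have h8 : (δ ^ n) z = z := by rw [← h7]; exact zpow_fix hz m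
      exact (ne_of_lt hδz) (fix_of_zpow_fix hn h8)
    have hb1 : b₁ = 0 := key b₂ b₁ (by linarith) (by ring)
    have ha1 : a₁ = 0 := key a₂ a₁ (by ring) (by linarith)
    have hc1 : c₁ = 0 := by
      rw [ha1, hb1] at e₁
      have : c₁ * q = 0 := by linarith
      exact (mul_eq_zero.mp this).resolve_right hq
    apply h1
    rw [hγw, ha1, hb1, hc1, wd_zero]
  have hKM : FixK F G nF nG q M := by
    rintro ε ⟨a₃, b₃, c₃, rfl, e₃⟩
    apply fix_of_zpow_fix hD
    obtain ⟨r1, r2, r3⟩ := exists_relation hq e₁ e₂ e₃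
    have e4 : (F ^ a₃ * G ^ b₃ * T ^ c₃) ^ (a₁ * b₂ - a₂ * b₁)
        = γ ^ (a₃ * b₂ - a₂ * b₃) * δ ^ (a₁ * b₃ - a₃ * b₁) := by
      show (wd F G a₃ b₃ c₃) ^ (a₁ * b₂ - a₂ * b₁) = _
      rw [hγw, hδw, wd_zpow h.toAct, wd_zpow h.toAct, wd_zpow h.toAct, wd_mul h.toAct, r1, r2, r3]
    rw [e4, Dif.mul_apply, zpow_fix hδM, zpow_fix hγM]
  exact nf_not_flat h hnf ⟨a₁, b₁, c₁, hγe, e₁⟩ h1 hKM hflat


theorem BS.finite_K (_hA : Act F G) (hnf : NonFlat F G nF nG q) (a b : ℝ) :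
    {z | FixK F G nF nG q z ∧ z ∈ Icc a b}.Finite := by
  by_contra hinf
  have hinf' : {z | FixK F G nF nG q z ∧ z ∈ Icc a b}.Infinite := hinf
  obtain ⟨x, -, hx⟩ := hinf'.exists_accPt_of_subset_isCompact (isCompact_Icc (a := a) (b := b))
    (fun z hz => hz.2)
  rw [accPt_iff_frequently] at hx
  have hK : FixK F G nF nG q x := by
    intro γ hγ
    have hcl : IsClosed {y : ℝ | γ y = y} := isClosed_eq γ.continuous continuous_id
    have : x ∈ closure {y : ℝ | γ y = y} := by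
      rw [mem_closure_iff_frequently]
      exact hx.mono (fun y hy => hy.2.1 γ hγ)
    rw [hcl.closure_eq] at this
    exact this
  obtain ⟨γ, hγ, hf⟩ := hnf x hK
  have h1 := eventually_ne hf
  rw [eventually_nhdsWithin_iff] at h1
  obtain ⟨y, hy, hy'⟩ := (hx.and_eventually h1).exists
  exact hy' hy.1 (hy.2.1 γ hγ)

theorem no_twist (h : Rat F G nF nG q) (hnf : NonFlat F G nF nG q) {σ s B : Dif}
    (hσ : ∃ a b c : ℤ, σ = F ^ a * G ^ b * T ^ c ∧ a * nF + b * nG + c * q = 1)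
    (hs : InL F G nF nG q s) (hs1 : s ≠ 1)
    (hB : ∀ γ, InL F G nF nG q γ → Commute B γ) : B * σ * B⁻¹ ≠ σ * s := by
  intro hEq
  have hA := h.toAct
  have hNF : NF {γ | InL F G nF nG q γ} := BS.nf_set h hnf
  obtain ⟨a, b, c, hσe, hval⟩ := hσ
  have hσw : σ = wd F G a b c := hσe
  have hσL : ∀ γ, InL F G nF nG q γ → Commute γ σ := fun γ hγ => by
    rw [hσw]; exact inL_commute_wd hA hγ a b c
  obtain ⟨z₀, hz₀⟩ := exists_fixK h
  -- `B` preserves the common fixed set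
  have hBK : ∀ z, FixK F G nF nG q z → FixK F G nF nG q (B z) := fun z hz γ hγ => by
    rw [← Dif.comm_apply (hB γ hγ), hz γ hγ]
  -- `σ^(q n)` acts as a translation on the common fixed set
  have hσK : ∀ (n : ℤ) (z : ℝ), FixK F G nF nG q z → (σ ^ (q * n)) z = z + n := by
    intro n z hz
    have e1 : σ ^ (q * n) = wd F G (q * n * a) (q * n * b) (q * n * c - n) * T ^ n := by
      have : T ^ n = wd F G 0 0 n := by simp [wd]
      rw [this, hσw, wd_zpow hA, wd_mul hA]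
      congr 1 <;> ring
    have hin : InL F G nF nG q (wd F G (q * n * a) (q * n * b) (q * n * c - n)) := by
      apply inL_wd
      calc q * n * a * nF + q * n * b * nG + (q * n * c - n) * q
          = q * n * (a * nF + b * nG + c * q) - n * q := by ring
        _ = 0 := by rw [hval]; ring
    rw [e1, Dif.mul_apply, T_zpow_apply]
    exact fixK_add_int hA hz n _ hin
  have hBσ : ∀ (n : ℤ) (z : ℝ), FixK F G nF nG q z → B ((σ ^ n) z) = (σ ^ n) (B z) := by
    intro n z hz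
    have e1 : B * σ ^ n * B⁻¹ = σ ^ n * s ^ n := by
      rw [← conj_zpow, hEq, (hσL s hs).symm.mul_zpow]
    have e2 : B * σ ^ n = σ ^ n * s ^ n * B := by
      rw [← e1]; group
    have e3 := congrArg (fun k : Dif => k z) e2
    simp only [Dif.mul_apply] at e3
    rw [e3, zpow_fix (hBK z hz s hs)]
  have hBT : ∀ (n : ℤ) (z : ℝ), FixK F G nF nG q z → B (z + n) = B z + n := by
    intro n z hz
    rw [← hσK n z hz, hBσ _ z hz, hσK n _ (hBK z hz)]
  have hBiK : ∀ (i : ℕ) (z : ℝ), FixK F G nF nG q z → FixK F G nF nG q ((B ^ i) z) := by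
    intro i
    induction i with
    | zero => intro z hz; simpa using hz
    | succ i ih => intro z hz; rw [pow_succ_apply]; exact hBK _ (ih z hz)
  have hBiT : ∀ (i : ℕ) (n : ℤ) (z : ℝ), FixK F G nF nG q z →
      (B ^ i) (z + n) = (B ^ i) z + n := by
    intro i
    induction i with
    | zero => intro n z hz; simp
    | succ i ih =>
      intro n z hz
      rw [pow_succ_apply, pow_succ_apply, ih n z hz, hBT n _ (hBiK i z hz)]
  -- pigeonhole
  have hfin := BS.finite_K hA hnf (q := q) (nF := nF) (nG := nG) z₀ (z₀ + 1)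
  obtain ⟨m, hm, k, hmk⟩ : ∃ m : ℕ, m ≠ 0 ∧ ∃ k : ℤ, (B ^ m) z₀ = z₀ + k := by
    have hmem : ∀ i : ℕ, (B ^ i) z₀ + ((-⌊(B ^ i) z₀ - z₀⌋ : ℤ) : ℝ) ∈
        {z | FixK F G nF nG q z ∧ z ∈ Icc z₀ (z₀ + 1)} := by
      intro i
      refine ⟨fixK_add_int hA (hBiK i z₀ hz₀) _, ?_, ?_⟩
      · have := Int.floor_le ((B ^ i) z₀ - z₀)
        push_cast; linarith
      · have := Int.lt_floor_add_one ((B ^ i) z₀ - z₀)
        push_cast; linarith
    obtain ⟨i, j, hij, hEqij⟩ := hfin.exists_lt_map_eq_of_forall_mem hmem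
    refine ⟨j - i, by omega, ⌊(B ^ j) z₀ - z₀⌋ - ⌊(B ^ i) z₀ - z₀⌋, ?_⟩
    apply (B ^ i).injective
    show (B ^ i) ((B ^ (j - i)) z₀) = (B ^ i) (z₀ + _)
    rw [← Dif.mul_apply, ← pow_add, Nat.add_sub_cancel' hij.le, hBiT i _ z₀ hz₀]
    push_cast at hEqij ⊢
    linarith
  -- the element `H₁`
  set H₁ : Dif := B ^ m * σ ^ (q * (-k)) with hH₁
  have hH₁a : ∀ z, FixK F G nF nG q z → H₁ z = (B ^ m) z + ((-k : ℤ) : ℝ) := by
    intro z hz
    rw [hH₁, Dif.mul_apply, hσK (-k) z hz, hBiT m _ z hz]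
  have hH₁K : ∀ z, FixK F G nF nG q z → FixK F G nF nG q (H₁ z) := by
    intro z hz
    rw [hH₁a z hz]
    exact fixK_add_int hA (hBiK m z hz) _
  have hH₁T : ∀ (n : ℤ) (z : ℝ), FixK F G nF nG q z → H₁ (z + n) = H₁ z + n := by
    intro n z hz
    rw [hH₁a _ (fixK_add_int hA hz n), hH₁a z hz, hBiT m n z hz]
    ring
  have hH₁z₀ : H₁ z₀ = z₀ := by
    rw [hH₁a z₀ hz₀, hmk]; push_cast; ring
  have hH₁fix : ∀ z, FixK F G nF nG q z → H₁ z = z := by
    intro z hz
    set w := z + ((-⌊z - z₀⌋ : ℤ) : ℝ) with hw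
    have hwK : FixK F G nF nG q w := fixK_add_int hA hz _
    have hw1 : z₀ ≤ w := by
      have := Int.floor_le (z - z₀)
      rw [hw]; push_cast; linarith
    have hw2 : w ≤ z₀ + 1 := by
      have := Int.lt_floor_add_one (z - z₀)
      rw [hw]; push_cast; linarith
    have hH₁z₁ : H₁ (z₀ + 1) = z₀ + 1 := by
      have := hH₁T 1 z₀ hz₀
      rw [hH₁z₀] at this
      simpa using this
    have hmem : ∀ i : ℕ, (H₁ ^ i) w ∈ {z | FixK F G nF nG q z ∧ z ∈ Icc z₀ (z₀ + 1)} := by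
      intro i
      induction i with
      | zero => exact ⟨by simpa using hwK, by simpa using hw1, by simpa using hw2⟩
      | succ i ih =>
        rw [pow_succ_apply]
        refine ⟨hH₁K _ ih.1, ?_, ?_⟩
        · have := H₁.le_iff.mpr ih.2.1
          rwa [hH₁z₀] at this
        · have := H₁.le_iff.mpr ih.2.2
          rwa [hH₁z₁] at this
    obtain ⟨i, j, hij, hEqij⟩ := hfin.exists_lt_map_eq_of_forall_mem hmem
    have h1 : (H₁ ^ (j - i)) w = w := by
      apply (H₁ ^ i).injective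
      show (H₁ ^ i) ((H₁ ^ (j - i)) w) = (H₁ ^ i) w
      rw [← Dif.mul_apply, ← pow_add, Nat.add_sub_cancel' hij.le]
      exact hEqij.symm
    have h2 : H₁ w = w := by
      apply fix_of_zpow_fix (n := ((j - i : ℕ) : ℤ)) (by exact_mod_cast (by omega : j - i ≠ 0))
      rw [zpow_natCast]; exact h1
    have h3 := hH₁T (-⌊z - z₀⌋) z hz
    rw [← hw, h2, hw] at h3
    linarith
  -- the elements `C k`
  set f : Dif := s ^ (m : ℤ) with hf
  have hfL : InL F G nF nG q f := inL_zpow hA hs _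
  have hf1 : f ≠ 1 := fun he => hs1 (eq_one_of_zpow (by exact_mod_cast hm) he)
  have hfK : ∀ t, f t = t → FixK F G nF nG q t := fun t ht => nf_fix h hnf hfL hf1 ht
  have hfnf : ∀ t, f t = t → ¬ FlatAt f t := fun t ht => nf_not_flat h hnf hfL hf1 (hfK t ht)
  have hub : ∀ x, ∃ t, x < t ∧ f t = t := by
    intro x
    refine ⟨z₀ + ((⌊x - z₀⌋ + 1 : ℤ) : ℝ), ?_, ?_⟩
    · have := Int.lt_floor_add_one (x - z₀)
      push_cast; linarith
    · exact fixK_add_int hA hz₀ _ f hfL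
  have hconj : σ⁻¹ * H₁ * σ = f * H₁ := by
    have e0 : B * σ = σ * s * B := by rw [← hEq]; group
    have e1 : σ⁻¹ * B * σ⁻¹⁻¹ = s * B := by
      rw [inv_inv, mul_assoc, e0]; group
    have e2 : σ⁻¹ * B ^ m * σ⁻¹⁻¹ = s ^ m * B ^ m := by
      rw [← conj_pow, e1, (hB s hs).symm.mul_pow]
    rw [inv_inv] at e2
    have e3 : σ ^ (q * (-k)) * σ = σ * σ ^ (q * (-k)) :=
      ((Commute.refl σ).zpow_left _).eq
    calc σ⁻¹ * H₁ * σ = σ⁻¹ * B ^ m * (σ ^ (q * (-k)) * σ) := by rw [hH₁]; simp only [mul_assoc]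
      _ = (σ⁻¹ * B ^ m * σ) * σ ^ (q * (-k)) := by rw [e3]; simp only [mul_assoc]
      _ = s ^ m * B ^ m * σ ^ (q * (-k)) := by rw [e2]
      _ = f * H₁ := by rw [hH₁, hf, zpow_natCast]; simp only [mul_assoc]
  have hH₁L : ∀ γ, InL F G nF nG q γ → Commute γ H₁ := by
    intro γ hγ
    exact (((hB γ hγ).symm.pow_right m)).mul_right ((hσL γ hγ).zpow_right _)
  have hCL : ∀ k : ℤ, ∀ γ ∈ {γ | InL F G nF nG q γ}, Commute γ (f ^ k * H₁) := by
    intro k γ hγ
    exact ((inL_commute hA hγ hfL).zpow_right k).mul_right (hH₁L γ hγ)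
  have hCfix : ∀ k : ℤ, ∀ t, f t = t → (f ^ k * H₁) t = t := by
    intro k t ht
    rw [Dif.mul_apply, hH₁fix t (hfK t ht), zpow_fix ht]
  have hCconj : ∀ k : ℤ, σ⁻¹ * (f ^ k * H₁) * σ = f ^ (k + 1) * H₁ := by
    intro k
    have e1 : σ⁻¹ * f ^ k = f ^ k * σ⁻¹ := (((hσL f hfL).symm.inv_left).zpow_right k).eq
    calc σ⁻¹ * (f ^ k * H₁) * σ = (σ⁻¹ * f ^ k) * H₁ * σ := by simp only [mul_assoc]
      _ = f ^ k * (σ⁻¹ * H₁ * σ) := by rw [e1]; simp only [mul_assoc]
      _ = f ^ (k + 1) * H₁ := by rw [hconj, zpow_add_one]; simp only [mul_assoc]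
  have hC1 : ∀ k : ℤ, f ^ k * H₁ ≠ 1 := by
    intro k hk
    have h1 := hCconj k
    rw [hk, mul_one, inv_mul_cancel, zpow_add_one, (Commute.refl f).zpow_left k |>.eq,
      mul_assoc, hk, mul_one] at h1
    exact hf1 h1.symm
  have hsc := fun k : ℤ => sign_const hNF (hCL k) hfL hfK hub hfnf (hCfix k) (hC1 k)
  obtain ⟨x₀, hx₀⟩ : ∃ x₀, f x₀ ≠ x₀ := by
    by_contra hcon
    push Not at hcon
    exact hf1 (Dif.ext (by simpa using hcon))
  -- transfer of signs
  have hσf : ∀ x, f (σ x) = σ (f x) := fun x => Dif.comm_apply (hσL f hfL) x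
  have hCσ : ∀ (k : ℤ) (x : ℝ), (f ^ k * H₁) (σ x) = σ ((f ^ (k + 1) * H₁) x) := by
    intro k x
    have := congrArg (fun g : Dif => σ (g x)) (hCconj k)
    simpa using this
  have hP : ∀ k : ℤ, (∀ x, f x ≠ x → 0 < dsp (f ^ k * H₁) x * dsp f x) →
      (∀ x, f x ≠ x → 0 < dsp (f ^ (k + 1) * H₁) x * dsp f x) := by
    intro k hk x hx
    have hx' : f (σ x) ≠ σ x := by rw [hσf]; exact fun he => hx (σ.injective he)
    have h1 := hk (σ x) hx'
    unfold dsp at h1 ⊢
    rw [hCσ, hσf] at h1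
    rcases lt_or_gt_of_ne hx with h2 | h2
    · have h3 := σ.lt_iff.mpr h2
      have h4 : σ ((f ^ (k + 1) * H₁) x) < σ x := by
        by_contra hcon
        have := mul_nonpos_of_nonneg_of_nonpos (sub_nonneg.mpr (not_lt.mp hcon))
          (sub_neg.mpr h3).le
        linarith
      have h5 := σ.lt_iff.mp h4
      exact mul_pos_of_neg_of_neg (sub_neg.mpr h5) (sub_neg.mpr h2)
    · have h3 := σ.lt_iff.mpr h2
      have h4 : σ x < σ ((f ^ (k + 1) * H₁) x) := by
        by_contra hcon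
        have := mul_nonpos_of_nonpos_of_nonneg (sub_nonpos.mpr (not_lt.mp hcon))
          (sub_pos.mpr h3).le
        linarith
      have h5 := σ.lt_iff.mp h4
      exact mul_pos (sub_pos.mpr h5) (sub_pos.mpr h2)
  have hN : ∀ k : ℤ, (∀ x, f x ≠ x → dsp (f ^ k * H₁) x * dsp f x < 0) →
      (∀ x, f x ≠ x → dsp (f ^ (k + 1) * H₁) x * dsp f x < 0) := by
    intro k hk x hx
    have hx' : f (σ x) ≠ σ x := by rw [hσf]; exact fun he => hx (σ.injective he)
    have h1 := hk (σ x) hx'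
    unfold dsp at h1 ⊢
    rw [hCσ, hσf] at h1
    rcases lt_or_gt_of_ne hx with h2 | h2
    · have h3 := σ.lt_iff.mpr h2
      have h4 : σ x < σ ((f ^ (k + 1) * H₁) x) := by
        by_contra hcon
        have := mul_nonneg_of_nonpos_of_nonpos (sub_nonpos.mpr (not_lt.mp hcon))
          (sub_neg.mpr h3).le
        linarith
      have h5 := σ.lt_iff.mp h4
      exact mul_neg_of_pos_of_neg (sub_pos.mpr h5) (sub_neg.mpr h2)
    · have h3 := σ.lt_iff.mpr h2
      have h4 : σ ((f ^ (k + 1) * H₁) x) < σ x := by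
        by_contra hcon
        have := mul_nonneg (sub_nonneg.mpr (not_lt.mp hcon))
          (sub_pos.mpr h3).le
        linarith
      have h5 := σ.lt_iff.mp h4
      exact mul_neg_of_neg_of_pos (sub_neg.mpr h5) (sub_pos.mpr h2)
  -- extreme members
  have hnb : ∀ t ∈ uIcc (H₁ x₀) x₀, f t ≠ t := by
    have := no_fix_between (f := f) (C := H₁)
      (fun t ht => hH₁fix t (hfK t ht)) hx₀ 0 0
    simp only [zpow_zero, Dif.one_apply] at this
    rwa [uIcc_comm]
  obtain ⟨⟨k₁, hk₁⟩, k₂, hk₂⟩ := escape hnb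
  have hk₁' : 0 < dsp (f ^ k₁ * H₁) x₀ := by unfold dsp; rw [Dif.mul_apply]; linarith
  have hk₂' : dsp (f ^ k₂ * H₁) x₀ < 0 := by unfold dsp; rw [Dif.mul_apply]; linarith
  have hcontra : ∀ k : ℤ, (∀ x, f x ≠ x → 0 < dsp (f ^ k * H₁) x * dsp f x) →
      ¬ (∀ x, f x ≠ x → dsp (f ^ k * H₁) x * dsp f x < 0) := fun k h1 h2 => by
    have := h1 x₀ hx₀
    have := h2 x₀ hx₀
    linarith
  rcases hsc 0 with h0 | h0
  · have hall : ∀ k : ℤ, (∀ x, f x ≠ x → 0 < dsp (f ^ k * H₁) x * dsp f x) := by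
      intro k
      induction k with
      | zero => exact h0
      | succ n ih => exact hP _ ih
      | pred n ih =>
        rcases hsc (-(n : ℤ) - 1) with h1 | h1
        · exact h1
        · have h2 := hN _ h1
          rw [sub_add_cancel] at h2
          exact absurd h2 (hcontra _ ih)
    have h1 := hall k₁ x₀ hx₀
    have h2 := hall k₂ x₀ hx₀
    have h3 : 0 < dsp f x₀ := (pos_iff_pos_of_mul_pos h1).mp hk₁'
    have := mul_neg_of_neg_of_pos hk₂' h3
    linarith
  · have hall : ∀ k : ℤ, (∀ x, f x ≠ x → dsp (f ^ k * H₁) x * dsp f x < 0) := by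
      intro k
      induction k with
      | zero => exact h0
      | succ n ih => exact hN _ ih
      | pred n ih =>
        rcases hsc (-(n : ℤ) - 1) with h1 | h1
        · have h2 := hP _ h1
          rw [sub_add_cancel] at h2
          exact absurd ih (hcontra _ h2)
        · exact h1
    have h1 := hall k₁ x₀ hx₀
    have h2 := hall k₂ x₀ hx₀
    have h3 : dsp f x₀ < 0 := by
      by_contra hcon
      have := mul_nonneg hk₁'.le (not_lt.mp hcon)
      linarith
    have := mul_pos_of_neg_of_neg hk₂' h3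
    linarith

end Pool.Agent.F88
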