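import Pool.Agent.Lib.MP_f88c17.Toolkit

/-!
# Inserting a tiny element of the group at finitely many places
-/

set_option autoImplicit false

open Set Filter Topology
open scoped ContDiff

namespace Pool.Agent.F88.TW

/-- convergence of jets along sequences -/
def JC (r : ℕ) (f : ℕ → ℝ → ℝ) (x : ℕ → ℝ) (g : ℝ → ℝ) (y : ℝ) : Prop :=
  ∀ l ≤ r, Tendsto (fun n => iteratedDeriv l (f n) (x n)) atTop (𝓝 (iteratedDeriv l g y))

theorem JC.mono {r r' : ℕ} {f : ℕ → ℝ → ℝ} {x : ℕ → ℝ} {g : ℝ → ℝ} {y : ℝ}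
    (h : JC r f x g y) (hr : r' ≤ r) : JC r' f x g y := fun l hl => h l (hl.trans hr)

theorem JC.val {r : ℕ} {f : ℕ → ℝ → ℝ} {x : ℕ → ℝ} {g : ℝ → ℝ} {y : ℝ}
    (h : JC r f x g y) : Tendsto (fun n => f n (x n)) atTop (𝓝 (g y)) := by
  have := h 0 (Nat.zero_le _)
  simpa using this

theorem JC.succ_iff {r : ℕ} {f : ℕ → ℝ → ℝ} {x : ℕ → ℝ} {g : ℝ → ℝ} {y : ℝ} :
    JC (r + 1) f x g y ↔ Tendsto (fun n => f n (x n)) atTop (𝓝 (g y)) ∧
      JC r (fun n => deriv (f n)) x (deriv g) y := by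
  constructor
  · intro h
    refine ⟨h.val, fun l hl => ?_⟩
    have := h (l + 1) (by omega)
    simpa only [iteratedDeriv_succ'] using this
  · rintro ⟨h0, h1⟩ l hl
    cases l with
    | zero => simpa using h0
    | succ l =>
      have := h1 l (by omega)
      simpa only [iteratedDeriv_succ'] using this

theorem JC.add {r : ℕ} {f f' : ℕ → ℝ → ℝ} {x : ℕ → ℝ} {g g' : ℝ → ℝ} {y : ℝ}
    (h : JC r f x g y) (h' : JC r f' x g' y)
    (hf : ∀ n, ContDiff ℝ ∞ (f n)) (hf' : ∀ n, ContDiff ℝ ∞ (f' n))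
    (hg : ContDiff ℝ ∞ g) (hg' : ContDiff ℝ ∞ g') :
    JC r (fun n t => f n t + f' n t) x (fun t => g t + g' t) y := by
  intro l hl
  have h1 := (h l hl).add (h' l hl)
  have e1 : ∀ n, iteratedDeriv l (fun t => f n t + f' n t) (x n) =
      iteratedDeriv l (f n) (x n) + iteratedDeriv l (f' n) (x n) := fun n =>
    iteratedDeriv_fun_add ((hf n).contDiffAt.of_le (by exact_mod_cast le_top))
      ((hf' n).contDiffAt.of_le (by exact_mod_cast le_top))
  have e2 : iteratedDeriv l (fun t => g t + g' t) y =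
      iteratedDeriv l g y + iteratedDeriv l g' y :=
    iteratedDeriv_fun_add (hg.contDiffAt.of_le (by exact_mod_cast le_top))
      (hg'.contDiffAt.of_le (by exact_mod_cast le_top))
  simp only [e1, e2]
  exact h1

theorem contDiff_deriv {f : ℝ → ℝ} (hf : ContDiff ℝ ∞ f) : ContDiff ℝ ∞ (deriv f) :=
  contDiff_iff_contDiffAt.mpr fun _ => contDiffAt_deriv hf.contDiffAt

theorem JC.mul {r : ℕ} {f f' : ℕ → ℝ → ℝ} {x : ℕ → ℝ} {g g' : ℝ → ℝ} {y : ℝ}
    (h : JC r f x g y) (h' : JC r f' x g' y)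
    (hf : ∀ n, ContDiff ℝ ∞ (f n)) (hf' : ∀ n, ContDiff ℝ ∞ (f' n))
    (hg : ContDiff ℝ ∞ g) (hg' : ContDiff ℝ ∞ g') :
    JC r (fun n t => f n t * f' n t) x (fun t => g t * g' t) y := by
  induction r generalizing f f' g g' with
  | zero =>
    intro l hl
    obtain rfl : l = 0 := by omega
    simpa using h.val.mul h'.val
  | succ r ih =>
    have k := h.mono (Nat.le_succ r)
    have k' := h'.mono (Nat.le_succ r)
    rw [JC.succ_iff] at h h' ⊢
    refine ⟨h.1.mul h'.1, ?_⟩
    have h1 := ih h.2 k' (fun n => contDiff_deriv (hf n)) hf' (contDiff_deriv hg) hg'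
    have h2 := ih k h'.2 hf (fun n => contDiff_deriv (hf' n)) hg (contDiff_deriv hg')
    have h3 := h1.add h2 (fun n => (contDiff_deriv (hf n)).mul (hf' n))
      (fun n => (hf n).mul (contDiff_deriv (hf' n)))
      ((contDiff_deriv hg).mul hg') (hg.mul (contDiff_deriv hg'))
    have e1 : (fun n => deriv (fun t => f n t * f' n t)) =
        fun n t => deriv (f n) t * f' n t + f n t * deriv (f' n) t := by
      funext n t
      exact deriv_fun_mul ((hf n).differentiable (by simp) t) ((hf' n).differentiable (by simp) t)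
    have e2 : deriv (fun t => g t * g' t) = fun t => deriv g t * g' t + g t * deriv g' t := by
      funext t
      exact deriv_fun_mul (hg.differentiable (by simp) t) (hg'.differentiable (by simp) t)
    rw [e1, e2]
    exact h3

theorem JC.comp {r : ℕ} {f h : ℕ → ℝ → ℝ} {x : ℕ → ℝ} {g k : ℝ → ℝ} {y : ℝ}
    (h1 : JC r f (fun n => h n (x n)) g (k y)) (h2 : JC r h x k y)
    (hf : ∀ n, ContDiff ℝ ∞ (f n)) (hh : ∀ n, ContDiff ℝ ∞ (h n))
    (hg : ContDiff ℝ ∞ g) (hk : ContDiff ℝ ∞ k) :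
    JC r (fun n t => f n (h n t)) x (fun t => g (k t)) y := by
  induction r generalizing f g with
  | zero =>
    intro l hl
    obtain rfl : l = 0 := by omega
    simpa using h1.val
  | succ r ih =>
    have k1 := h1.mono (Nat.le_succ r)
    have k2 := h2.mono (Nat.le_succ r)
    rw [JC.succ_iff] at h1 ⊢
    have h2' := (JC.succ_iff.mp h2).2
    refine ⟨h1.1, ?_⟩
    have h3 := ih h1.2 k2 (fun n => contDiff_deriv (hf n)) (contDiff_deriv hg)
    have h4 := h3.mul h2' (fun n => (contDiff_deriv (hf n)).comp (hh n))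
      (fun n => contDiff_deriv (hh n)) ((contDiff_deriv hg).comp hk) (contDiff_deriv hk)
    have e1 : (fun n => deriv (fun t => f n (h n t))) =
        fun n t => deriv (f n) (h n t) * deriv (h n) t := by
      funext n t
      exact (((hf n).differentiable (by simp) (h n t)).hasDerivAt.comp t
        ((hh n).differentiable (by simp) t).hasDerivAt).deriv
    have e2 : deriv (fun t => g (k t)) = fun t => deriv g (k t) * deriv k t := by
      funext t
      exact ((hg.differentiable (by simp) (k t)).hasDerivAt.comp t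
        (hk.differentiable (by simp) t).hasDerivAt).deriv
    rw [e1, e2]
    exact h4

theorem JC.inv {r : ℕ} {f : ℕ → ℝ → ℝ} {x : ℕ → ℝ} {g : ℝ → ℝ} {y : ℝ}
    (h : JC r f x g y) (hf : ∀ n, ContDiff ℝ ∞ (f n)) (hg : ContDiff ℝ ∞ g)
    (hf0 : ∀ n t, f n t ≠ 0) (hg0 : ∀ t, g t ≠ 0) :
    JC r (fun n t => (f n t)⁻¹) x (fun t => (g t)⁻¹) y := by
  induction r with
  | zero =>
    intro l hl
    obtain rfl : l = 0 := by omega
    simpa using h.val.inv₀ (hg0 y)
  | succ r ih =>
    have h0 := ih (h.mono (Nat.le_succ r))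
    rw [JC.succ_iff] at h ⊢
    refine ⟨h.1.inv₀ (hg0 y), ?_⟩
    have c1 : ∀ n, ContDiff ℝ ∞ (fun t => (f n t)⁻¹) := fun n => (hf n).inv (hf0 n)
    have c2 : ContDiff ℝ ∞ (fun t => (g t)⁻¹) := hg.inv hg0
    have c3 : ∀ n, ContDiff ℝ ∞ (deriv (f n)) := fun n => contDiff_deriv (hf n)
    have c4 : ContDiff ℝ ∞ (deriv g) := contDiff_deriv hg
    have h1 := (h0.mul h0 c1 c1 c2 c2).mul (h.2) (fun n => (c1 n).mul (c1 n)) c3
      (c2.mul c2) c4
    have hneg : JC r (fun _ _ => (-1 : ℝ)) x (fun _ => (-1 : ℝ)) y := by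
      intro l _
      have e : ∀ t s : ℝ, iteratedDeriv l (fun _ : ℝ => (-1 : ℝ)) t =
          iteratedDeriv l (fun _ : ℝ => (-1 : ℝ)) s := by
        intro t s
        simp [iteratedDeriv_const]
      have e' : (fun n => iteratedDeriv l (fun _ : ℝ => (-1 : ℝ)) (x n)) =
          fun _ => iteratedDeriv l (fun _ : ℝ => (-1 : ℝ)) y := by
        funext n; exact e _ _
      rw [e']
      exact tendsto_const_nhds
    have h2 := hneg.mul h1 (fun _ => contDiff_const)
      (fun n => ((c1 n).mul (c1 n)).mul (c3 n)) contDiff_const ((c2.mul c2).mul c4)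
    have e1 : (fun n => deriv (fun t => (f n t)⁻¹)) =
        fun n t => (-1 : ℝ) * ((f n t)⁻¹ * (f n t)⁻¹ * deriv (f n) t) := by
      funext n t
      have := (((hf n).differentiable (by simp) t).hasDerivAt.fun_inv (hf0 n t)).deriv
      rw [this]
      field_simp [hf0 n t]
    have e2 : deriv (fun t => (g t)⁻¹) =
        fun t => (-1 : ℝ) * ((g t)⁻¹ * (g t)⁻¹ * deriv g t) := by
      funext t
      have := ((hg.differentiable (by simp) t).hasDerivAt.fun_inv (hg0 t)).deriv
      rw [this]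
      field_simp [hg0 t]
    rw [e1, e2]
    exact h2

theorem deriv_inv_eq (f : Dif) (x : ℝ) :
    deriv (fun t => f⁻¹ t) x = (deriv (fun t => f t) (f⁻¹ x))⁻¹ := by
  have h1 := Dif.deriv_mul f f⁻¹ x
  rw [mul_inv_cancel] at h1
  have h2 : deriv (fun y : ℝ => (1 : Dif) y) x = 1 := by
    have : (fun y : ℝ => (1 : Dif) y) = fun y => y := rfl
    rw [this]; simp
  rw [h2] at h1
  exact eq_inv_of_mul_eq_one_right h1.symm

theorem JC.dinv {r : ℕ} {f : ℕ → Dif} {x : ℕ → ℝ} {g : Dif} {y : ℝ}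
    (h : JC r (fun n t => f n t) x (fun t => g t) y) (hx : Tendsto x atTop (𝓝 y)) :
    JC r (fun n t => (f n)⁻¹ t) (fun n => f n (x n)) (fun t => g⁻¹ t) (g y) := by
  induction r with
  | zero =>
    intro l hl
    obtain rfl : l = 0 := by omega
    simpa using hx
  | succ r ih =>
    have h0 := ih (h.mono (Nat.le_succ r))
    rw [JC.succ_iff] at h ⊢
    refine ⟨by simpa using hx, ?_⟩
    have h1 : JC r (fun n => deriv (fun t => f n t)) (fun n => (f n)⁻¹ (f n (x n)))
        (deriv (fun t => g t)) (g⁻¹ (g y)) := by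
      simpa using h.2
    have h2 := JC.comp (h := fun n t => (f n)⁻¹ t) (k := fun t => g⁻¹ t) h1 h0
      (fun n => contDiff_deriv (f n).contDiff) (fun n => (f n)⁻¹.contDiff)
      (contDiff_deriv g.contDiff) g⁻¹.contDiff
    have h3 := h2.inv (fun n => (contDiff_deriv (f n).contDiff).comp (f n)⁻¹.contDiff)
      ((contDiff_deriv g.contDiff).comp g⁻¹.contDiff)
      (fun n t => ((f n).deriv_pos _).ne') (fun t => (g.deriv_pos _).ne')
    have e1 : (fun n => deriv (fun t => (f n)⁻¹ t)) =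
        fun n t => (deriv (fun t => f n t) ((f n)⁻¹ t))⁻¹ := by
      funext n t; exact deriv_inv_eq _ _
    have e2 : deriv (fun t => g⁻¹ t) = fun t => (deriv (fun t => g t) (g⁻¹ t))⁻¹ := by
      funext t; exact deriv_inv_eq _ _
    rw [e1, e2]
    exact h3

theorem JC.fixed {r : ℕ} (g : ℝ → ℝ) (hg : ContDiff ℝ ∞ g) {x : ℕ → ℝ} {y : ℝ}
    (hx : Tendsto x atTop (𝓝 y)) : JC r (fun _ => g) x g y := by
  intro l _
  have h1 : Continuous (iteratedDeriv l g) :=
    hg.continuous_iteratedDeriv l (by exact_mod_cast le_top)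
  exact (h1.tendsto y).comp hx

theorem JC.near_id {r : ℕ} {f : ℕ → ℝ → ℝ} {x : ℕ → ℝ} {y : ℝ} {d : ℕ → ℝ}
    (hd : Tendsto d atTop (𝓝 0)) (hf : ∀ n, ContDiff ℝ ∞ (f n)) (hx : Tendsto x atTop (𝓝 y))
    (h : ∀ n, ∀ l ≤ r, |iteratedDeriv l (fun t => f n t - t) (x n)| ≤ d n) :
    JC r f x (fun t => t) y := by
  intro l hl
  have h1 : Tendsto (fun n => iteratedDeriv l (fun t => f n t - t) (x n)) atTop (𝓝 0) :=
    squeeze_zero_norm (fun n => by rw [Real.norm_eq_abs]; exact h n l hl) hd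
  have h2 := JC.fixed (r := r) (fun t : ℝ => t) contDiff_id hx l hl
  have h3 := h1.add h2
  rw [zero_add] at h3
  refine h3.congr (fun n => ?_)
  have e1 : iteratedDeriv l (fun t => f n t - t) (x n) =
      iteratedDeriv l (f n) (x n) - iteratedDeriv l (fun t => t) (x n) :=
    iteratedDeriv_fun_sub ((hf n).contDiffAt.of_le (by exact_mod_cast le_top))
      (contDiffAt_id.of_le (by exact_mod_cast le_top))
  rw [e1]; ring

theorem close (r : ℕ) (E : Dif) (R ε : ℝ) (hε : 0 < ε) : ∃ δ > (0 : ℝ), ∀ (ψ g : Dif) (x : ℝ),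
    ψ x ∈ Icc (-R) R →
    (∀ l ≤ r, |iteratedDeriv l (fun t => ψ t - t) x| ≤ δ) →
    (∀ l ≤ r, |iteratedDeriv l (fun t => g t - t) x| ≤ δ) →
    (∀ l ≤ r, |iteratedDeriv l (fun t => ψ t - t) (E (g x))| ≤ δ) →
    ∀ l ≤ r, |iteratedDeriv l (fun t => (ψ * (E * g) * ψ⁻¹ : Dif) t) (ψ x) -
      iteratedDeriv l (fun t => E t) (ψ x)| ≤ ε := by
  by_contra hcon
  push Not at hcon
  have hcon' : ∀ n : ℕ, ∃ (ψ g : Dif) (x : ℝ), ψ x ∈ Icc (-R) R ∧
      (∀ l ≤ r, |iteratedDeriv l (fun t => ψ t - t) x| ≤ 1 / ((n : ℝ) + 1)) ∧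
      (∀ l ≤ r, |iteratedDeriv l (fun t => g t - t) x| ≤ 1 / ((n : ℝ) + 1)) ∧
      (∀ l ≤ r, |iteratedDeriv l (fun t => ψ t - t) (E (g x))| ≤ 1 / ((n : ℝ) + 1)) ∧
      ∃ l ≤ r, ε < |iteratedDeriv l (fun t => (ψ * (E * g) * ψ⁻¹ : Dif) t) (ψ x) -
      iteratedDeriv l (fun t => E t) (ψ x)| := by
    intro n
    obtain ⟨ψ, g, x, h1, h2, h3, h4, h5⟩ := hcon (1 / ((n : ℝ) + 1)) (by positivity)
    exact ⟨ψ, g, x, h1, h2, h3, h4, h5⟩
  choose ψ g x h1 h2 h3 h4 l hl h5 using hcon'
  obtain ⟨p, -, φ, hφ, hp⟩ := isCompact_Icc.tendsto_subseq h1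
  have hd0 : Tendsto (fun n : ℕ => 1 / ((n : ℝ) + 1)) atTop (𝓝 0) :=
    tendsto_one_div_add_atTop_nhds_zero_nat
  have hd : Tendsto (fun n : ℕ => 1 / ((φ n : ℝ) + 1)) atTop (𝓝 0) :=
    hd0.comp hφ.tendsto_atTop
  -- convergence of the base points
  have hx : Tendsto (fun n => x (φ n)) atTop (𝓝 p) := by
    have h6 : Tendsto (fun n => ψ (φ n) (x (φ n)) - x (φ n)) atTop (𝓝 0) :=
      squeeze_zero_norm (fun n => by
        have := h2 (φ n) 0 (Nat.zero_le _)
        rw [iteratedDeriv_zero] at this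
        rw [Real.norm_eq_abs]; exact this) hd
    have h7 := hp.sub h6
    rw [sub_zero] at h7
    refine h7.congr (fun n => ?_)
    simp
  have jψ : JC r (fun n t => ψ (φ n) t) (fun n => x (φ n)) (fun t => t) p :=
    JC.near_id hd (fun n => (ψ (φ n)).contDiff) hx (fun n l hl => h2 (φ n) l hl)
  have jg : JC r (fun n t => g (φ n) t) (fun n => x (φ n)) (fun t => t) p :=
    JC.near_id hd (fun n => (g (φ n)).contDiff) hx (fun n l hl => h3 (φ n) l hl)
  have hgx : Tendsto (fun n => g (φ n) (x (φ n))) atTop (𝓝 p) := jg.val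
  have hEgx : Tendsto (fun n => E (g (φ n) (x (φ n)))) atTop (𝓝 (E p)) :=
    (E.continuous.tendsto p).comp hgx
  have jψ' : JC r (fun n t => ψ (φ n) t) (fun n => E (g (φ n) (x (φ n)))) (fun t => t) (E p) :=
    JC.near_id hd (fun n => (ψ (φ n)).contDiff) hEgx (fun n l hl => h4 (φ n) l hl)
  have jE : JC r (fun _ t => E t) (fun n => g (φ n) (x (φ n))) (fun t => E t) p :=
    JC.fixed (fun t => E t) E.contDiff hgx
  have jinv : JC r (fun n t => (ψ (φ n))⁻¹ t) (fun n => ψ (φ n) (x (φ n))) (fun t => t) p := by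
    have := JC.dinv (f := fun n => ψ (φ n)) (g := (1 : Dif)) (x := fun n => x (φ n)) (y := p)
      jψ hx
    have e : (fun t : ℝ => (1 : Dif)⁻¹ t) = fun t => t := by
      funext t; rw [inv_one]; rfl
    rw [e] at this
    exact this
  have j1 : JC r (fun n t => E (g (φ n) t)) (fun n => x (φ n)) (fun t => E t) p :=
    JC.comp (f := fun _ t => E t) (h := fun n t => g (φ n) t) (g := fun t => E t)
      (k := fun t => t) jE jg (fun _ => E.contDiff) (fun n => (g (φ n)).contDiff) E.contDiff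
      contDiff_id
  have j2 : JC r (fun n t => ψ (φ n) (E (g (φ n) t))) (fun n => x (φ n)) (fun t => E t) p :=
    JC.comp (f := fun n t => ψ (φ n) t) (h := fun n t => E (g (φ n) t)) (g := fun t => t)
      (k := fun t => E t) jψ' j1 (fun n => (ψ (φ n)).contDiff)
      (fun n => E.contDiff.comp (g (φ n)).contDiff) contDiff_id E.contDiff
  have j3 : JC r (fun n t => ψ (φ n) (E (g (φ n) ((ψ (φ n))⁻¹ t))))
      (fun n => ψ (φ n) (x (φ n))) (fun t => E t) p := by
    refine JC.comp (f := fun n t => ψ (φ n) (E (g (φ n) t))) (h := fun n t => (ψ (φ n))⁻¹ t)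
      (g := fun t => E t) (k := fun t => t) ?_ jinv
      (fun n => (ψ (φ n)).contDiff.comp (E.contDiff.comp (g (φ n)).contDiff))
      (fun n => (ψ (φ n))⁻¹.contDiff) E.contDiff contDiff_id
    simpa using j2
  have j4 : JC r (fun _ t => E t) (fun n => ψ (φ n) (x (φ n))) (fun t => E t) p :=
    JC.fixed (fun t => E t) E.contDiff hp
  -- uniformly in the order
  have h8 : ∀ᶠ n in atTop, ∀ l ∈ Finset.range (r + 1),
      |iteratedDeriv l (fun t => ψ (φ n) (E (g (φ n) ((ψ (φ n))⁻¹ t)))) (ψ (φ n) (x (φ n))) -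
        iteratedDeriv l (fun t => E t) (ψ (φ n) (x (φ n)))| < ε := by
    rw [Filter.eventually_all_finset]
    intro l hl'
    have hl'' : l ≤ r := by simpa [Nat.lt_succ_iff] using hl'
    have h9 := (j3 l hl'').sub (j4 l hl'')
    rw [sub_self] at h9
    have h10 := h9.abs
    rw [abs_zero] at h10
    exact h10.eventually (gt_mem_nhds hε)
  obtain ⟨n, hn⟩ := h8.exists
  have h11 := hn (l (φ n)) (by simpa [Nat.lt_succ_iff] using hl (φ n))
  exact absurd (h5 (φ n)) (not_lt.mpr h11.le)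


/-- smooth step from `-1` to `1` -/
noncomputable def chi (t : ℝ) : ℝ := Real.smoothTransition ((t + 1) / 2)

theorem chi_contDiff : ContDiff ℝ ∞ chi :=
  Real.smoothTransition.contDiff.comp ((contDiff_id.add contDiff_const).div_const 2)

theorem chi_zero {t : ℝ} (h : t ≤ -1) : chi t = 0 :=
  Real.smoothTransition.zero_of_nonpos (by linarith)

theorem chi_one {t : ℝ} (h : 1 ≤ t) : chi t = 1 :=
  Real.smoothTransition.one_of_one_le (by linarith)

theorem chi_nonneg (t : ℝ) : 0 ≤ chi t := Real.smoothTransition.nonneg _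

theorem chi_le_one (t : ℝ) : chi t ≤ 1 := Real.smoothTransition.le_one _

theorem chi_bound_one (l : ℕ) : ∃ C, 0 < C ∧ ∀ t, |iteratedDeriv l chi t| ≤ C := by
  have hc : Continuous (iteratedDeriv l chi) :=
    chi_contDiff.continuous_iteratedDeriv l (by exact_mod_cast le_top)
  obtain ⟨C, hC⟩ := (isCompact_Icc (a := (-1 : ℝ)) (b := 1)).exists_bound_of_continuousOn
    hc.continuousOn
  refine ⟨|C| + 1, by positivity, fun t => ?_⟩
  by_cases ht : t ∈ Icc (-1 : ℝ) 1
  · have := hC t ht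
    rw [Real.norm_eq_abs] at this
    linarith [le_abs_self C]
  · cases l with
    | zero =>
      rw [iteratedDeriv_zero, abs_of_nonneg (chi_nonneg t)]
      linarith [chi_le_one t, abs_nonneg C]
    | succ l =>
      have key : iteratedDeriv (l + 1) chi t = 0 := by
        rw [mem_Icc, not_and_or, not_le, not_le] at ht
        have he : ∃ c : ℝ, chi =ᶠ[𝓝 t] fun _ => c := by
          rcases ht with ht | ht
          · exact ⟨0, by filter_upwards [gt_mem_nhds ht] with y hy using chi_zero hy.le⟩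
          · exact ⟨1, by filter_upwards [lt_mem_nhds ht] with y hy using chi_one (le_of_lt hy)⟩
        obtain ⟨c, hc'⟩ := he
        rw [hc'.iteratedDeriv_eq (l + 1), iteratedDeriv_const]
        simp
      rw [key, abs_zero]
      positivity

theorem chi_bound (r : ℕ) : ∃ C, 1 ≤ C ∧ ∀ l ≤ r, ∀ t, |iteratedDeriv l chi t| ≤ C := by
  choose C h0 hC using chi_bound_one
  refine ⟨1 + ∑ l ∈ Finset.range (r + 1), C l, ?_, fun l hl t => ?_⟩
  · have : 0 ≤ ∑ l ∈ Finset.range (r + 1), C l := Finset.sum_nonneg (fun l _ => (h0 l).le)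
    linarith
  · have h1 : C l ≤ ∑ l ∈ Finset.range (r + 1), C l :=
      Finset.single_le_sum (f := C) (fun l _ => (h0 l).le) (Finset.mem_range.mpr (by omega))
    linarith [hC l t]

theorem chi_scaled {r : ℕ} {C a : ℝ} (hC : ∀ l ≤ r, ∀ t, |iteratedDeriv l chi t| ≤ C)
    (ha : 0 < a) (z y : ℝ) : JB r (fun t => chi ((t - z) / a)) y C (1 / a) := by
  have e0 : (fun t => chi ((t - z) / a)) = fun t => (fun u => chi (1 / a * u)) (t - z) := by
    funext t
    show chi ((t - z) / a) = chi (1 / a * (t - z))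
    congr 1
    ring
  refine ⟨?_, fun l hl => ?_⟩
  · exact (chi_contDiff.comp ((contDiff_id.sub contDiff_const).div_const a)).contDiffAt
  · rw [e0]
    have e1 := iteratedDeriv_comp_sub_const l (fun u => chi (1 / a * u)) z
    rw [e1]
    have e2 := iteratedDeriv_comp_const_mul (n := l) (f := chi)
      (chi_contDiff.of_le (by exact_mod_cast le_top)) (1 / a)
    have e3 : iteratedDeriv l (fun u => chi (1 / a * u)) (y - z) =
        (1 / a) ^ l * iteratedDeriv l chi (1 / a * (y - z)) := by rw [e2]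
    show |iteratedDeriv l (fun u => chi (1 / a * u)) (y - z)| ≤ _
    rw [e3, abs_mul, abs_of_nonneg (by positivity), mul_comm]
    exact mul_le_mul_of_nonneg_right (hC l hl _) (by positivity)

/-- the perturbation -/
noncomputable def bf (s : Dif) (a z : ℝ) (y : ℝ) : ℝ := y + chi ((y - z) / a) * (s y - y)

theorem bf_contDiff (s : Dif) (a z : ℝ) : ContDiff ℝ ∞ (bf s a z) :=
  contDiff_id.add ((chi_contDiff.comp ((contDiff_id.sub contDiff_const).div_const a)).mul
    (s.contDiff.sub contDiff_id))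

theorem bf_left (s : Dif) {a z y : ℝ} (ha : 0 < a) (hy : y ≤ z - a) : bf s a z y = y := by
  have : chi ((y - z) / a) = 0 := chi_zero (by rw [div_le_iff₀ ha]; linarith)
  simp [bf, this]

theorem bf_right (s : Dif) {a z y : ℝ} (ha : 0 < a) (hy : z + a ≤ y) : bf s a z y = s y := by
  have : chi ((y - z) / a) = 1 := chi_one (by rw [le_div_iff₀ ha]; linarith)
  simp [bf, this]

theorem bf_ge (s : Dif) (a z y : ℝ) : min y (s y) ≤ bf s a z y := by
  have h0 := chi_nonneg ((y - z) / a)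
  have h1 := chi_le_one ((y - z) / a)
  unfold bf
  rcases le_total y (s y) with h | h
  · rw [min_eq_left h]; nlinarith
  · rw [min_eq_right h]; nlinarith

theorem bf_le (s : Dif) (a z y : ℝ) : bf s a z y ≤ max y (s y) := by
  have h0 := chi_nonneg ((y - z) / a)
  have h1 := chi_le_one ((y - z) / a)
  unfold bf
  rcases le_total y (s y) with h | h
  · rw [max_eq_right h]; nlinarith
  · rw [max_eq_left h]; nlinarith

theorem tendsto_top (s : Dif) : Tendsto (fun x => s x) atTop atTop :=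
  s.strictMono.monotone.tendsto_atTop_atTop (fun b => ⟨s⁻¹ b, by simp⟩)

theorem tendsto_bot (s : Dif) : Tendsto (fun x => s x) atBot atBot :=
  s.strictMono.monotone.tendsto_atBot_atBot (fun b => ⟨s⁻¹ b, by simp⟩)

theorem exists_b (s : Dif) {a z : ℝ} (ha : 0 < a)
    (h : ∀ y ∈ Icc (z - a) (z + a),
      |deriv (fun t => chi ((t - z) / a) * (s t - t)) y| < 1) :
    ∃ b : Dif, ∀ y, b y = bf s a z y := by
  have hpos : ∀ y, 0 < deriv (bf s a z) y := by
    intro y
    by_cases hy : y ∈ Icc (z - a) (z + a)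
    · have h1 := (abs_lt.mp (h y hy)).1
      have h2 : deriv (bf s a z) y =
          1 + deriv (fun t => chi ((t - z) / a) * (s t - t)) y := by
        have h3 : DifferentiableAt ℝ (fun t => chi ((t - z) / a) * (s t - t)) y :=
          (((chi_contDiff.comp ((contDiff_id.sub contDiff_const).div_const a)).mul
            (s.contDiff.sub contDiff_id)).differentiable (by simp)) y
        have h4 := (hasDerivAt_id y).add h3.hasDerivAt
        exact h4.deriv
      rw [h2]; linarith
    · rw [mem_Icc, not_and_or, not_le, not_le] at hy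
      rcases hy with hy | hy
      · have he : bf s a z =ᶠ[𝓝 y] fun t => t := by
          filter_upwards [gt_mem_nhds hy] with t ht using bf_left s ha ht.le
        rw [he.deriv_eq]; simp
      · have he : bf s a z =ᶠ[𝓝 y] fun t => s t := by
          filter_upwards [lt_mem_nhds hy] with t ht using bf_right s ha (le_of_lt ht)
        rw [he.deriv_eq]; exact s.deriv_pos y
  refine ⟨Dif.ofPos (bf s a z) (bf_contDiff s a z) hpos ?_ ?_, fun y => rfl⟩
  · refine (tendsto_top s).congr' ?_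
    filter_upwards [eventually_ge_atTop (z + a)] with y hy using (bf_right s ha hy).symm
  · refine tendsto_id.congr' ?_
    filter_upwards [eventually_le_atBot (z - a)] with y hy using (bf_left s ha hy).symm

/-- partial products stay between the powers of `s` -/
theorem between {s : Dif} {b : ℝ → Dif} (L : List ℝ)
    (hb : ∀ z ∈ L, ∀ y, min y (s y) ≤ b z y ∧ b z y ≤ max y (s y)) (x : ℝ) :
    (∃ i : ℕ, i ≤ L.length ∧ (s ^ i) x ≤ (L.map b).prod x) ∧
      ∃ j : ℕ, j ≤ L.length ∧ (L.map b).prod x ≤ (s ^ j) x := by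
  induction L with
  | nil => exact ⟨⟨0, le_rfl, by simp⟩, ⟨0, le_rfl, by simp⟩⟩
  | cons z L ih =>
    obtain ⟨⟨i, hi, hi'⟩, ⟨j, hj, hj'⟩⟩ := ih (fun z hz => hb z (List.mem_cons_of_mem _ hz))
    have h1 := hb z List.mem_cons_self ((L.map b).prod x)
    have e : ((z :: L).map b).prod x = b z ((L.map b).prod x) := by
      rw [List.map_cons, List.prod_cons, Dif.mul_apply]
    rw [e, List.length_cons]
    constructor
    · rcases le_total ((L.map b).prod x) (s ((L.map b).prod x)) with h | h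
      · refine ⟨i, by omega, hi'.trans ?_⟩
        have := h1.1
        rwa [min_eq_left h] at this
      · refine ⟨i + 1, by omega, ?_⟩
        have h2 := h1.1
        rw [min_eq_right h] at h2
        refine le_trans ?_ h2
        rw [pow_succ', Dif.mul_apply, s.le_iff]
        exact hi'
    · rcases le_total ((L.map b).prod x) (s ((L.map b).prod x)) with h | h
      · refine ⟨j + 1, by omega, ?_⟩
        have h2 := h1.2
        rw [max_eq_right h] at h2
        refine h2.trans ?_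
        rw [pow_succ', Dif.mul_apply, s.le_iff]
        exact hj'
      · refine ⟨j, by omega, le_trans ?_ hj'⟩
        have := h1.2
        rwa [max_eq_left h] at this

/-- far from the centres the product is a power of `s` -/
theorem germ {S s : Dif} {b : ℝ → Dif} (L : List ℝ) (m : ℕ) (hm : L.length ≤ m) {x : ℝ}
    (hb : ∀ z ∈ L, (∀ y, y < S⁻¹ z → b z y = y) ∧ (∀ y, S z < y → b z y = s y))
    (hx : ∀ z ∈ L, x < (S ^ (-2 : ℤ)) z ∨ (S ^ (2 : ℤ)) z < x)
    (h1 : ∀ z ∈ L, ∀ k : ℕ, k ≤ m → (s ^ k) ((S ^ (-2 : ℤ)) z) ≤ S⁻¹ z)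
    (h2 : ∀ z ∈ L, ∀ k : ℕ, k ≤ m → S z ≤ (s ^ k) ((S ^ (2 : ℤ)) z))
    (h3 : ∀ z ∈ L, (S ^ (-2 : ℤ)) z < z ∧ z < (S ^ (2 : ℤ)) z) :
    (fun t => (L.map b).prod t) =ᶠ[𝓝 x]
      fun t => (s ^ (L.countP (fun z => decide (z < x)))) t := by
  induction L with
  | nil => simp
  | cons z L ih =>
    have hlen : L.length ≤ m := by
      rw [List.length_cons] at hm; omega
    have ih' := ih hlen (fun z hz => hb z (List.mem_cons_of_mem _ hz))
      (fun z hz => hx z (List.mem_cons_of_mem _ hz))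
      (fun z hz => h1 z (List.mem_cons_of_mem _ hz))
      (fun z hz => h2 z (List.mem_cons_of_mem _ hz))
      (fun z hz => h3 z (List.mem_cons_of_mem _ hz))
    set n := L.countP (fun z => decide (z < x)) with hn
    have hnm : n ≤ m := le_trans List.countP_le_length hlen
    have hcont : Tendsto (fun t => (s ^ n) t) (𝓝 x) (𝓝 ((s ^ n) x)) :=
      (s ^ n).continuous.tendsto x
    obtain ⟨hbl, hbr⟩ := hb z List.mem_cons_self
    obtain ⟨hz1, hz2⟩ := h3 z List.mem_cons_self
    rcases hx z List.mem_cons_self with hxz | hxz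
    · have hc : (z :: L).countP (fun z => decide (z < x)) = n := by
        rw [List.countP_cons_of_neg]
        simp only [decide_eq_true_eq, not_lt]
        exact (hxz.trans hz1).le
      rw [hc]
      have h4 : (s ^ n) x < S⁻¹ z :=
        lt_of_lt_of_le ((s ^ n).lt_iff.mpr hxz) (h1 z List.mem_cons_self n hnm)
      filter_upwards [ih', hcont.eventually (gt_mem_nhds h4)] with t ht ht'
      rw [List.map_cons, List.prod_cons, Dif.mul_apply, ht]
      exact hbl _ ht'
    · have hc : (z :: L).countP (fun z => decide (z < x)) = n + 1 := by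
        rw [List.countP_cons_of_pos]
        simp only [decide_eq_true_eq]
        exact hz2.trans hxz
      rw [hc]
      have h4 : S z < (s ^ n) x :=
        lt_of_le_of_lt (h2 z List.mem_cons_self n hnm) ((s ^ n).lt_iff.mpr hxz)
      filter_upwards [ih', hcont.eventually (lt_mem_nhds h4)] with t ht ht'
      rw [List.map_cons, List.prod_cons, Dif.mul_apply, ht, pow_succ', Dif.mul_apply]
      exact hbr _ ht'

/-- jets of products of maps close to the identity -/
theorem jets (r : ℕ) : ∃ C, 0 < C ∧ ∀ (s : Dif) (b : ℝ → Dif) (L : List ℝ) (x lo hi e : ℝ),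
    0 ≤ e → L.length * (C * e) ≤ 1 →
    (∀ z ∈ L, ∀ y, min y (s y) ≤ b z y ∧ b z y ≤ max y (s y)) →
    (∀ j : ℕ, j ≤ L.length → (s ^ j) x ∈ Icc lo hi) →
    (∀ z ∈ L, ∀ y ∈ Icc lo hi, ∀ l ≤ r, |iteratedDeriv l (fun t => b z t - t) y| ≤ e) →
    ∀ l ≤ r, |iteratedDeriv l (fun t => (L.map b).prod t - t) x| ≤ L.length * (C * e) := by
  obtain ⟨C, hC, hcomp⟩ := JB.comp r 2
  refine ⟨C, hC, fun s b L x lo hi e he => ?_⟩
  induction L with
  | nil =>
    intro _ _ _ _ l _
    have : (fun t : ℝ => (List.map b []).prod t - t) = fun _ => (0 : ℝ) := by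
      funext t; simp
    rw [this, iteratedDeriv_const]
    simp
  | cons z L ih =>
    intro hle hb hx hj l hl
    have hlen : ((L.length : ℕ) : ℝ) * (C * e) ≤ 1 := by
      rw [List.length_cons] at hle
      push_cast at hle
      have : 0 ≤ C * e := by positivity
      nlinarith
    have ih' := ih hlen (fun z hz => hb z (List.mem_cons_of_mem _ hz))
      (fun j hj => hx j (by rw [List.length_cons]; omega))
      (fun z hz => hj z (List.mem_cons_of_mem _ hz))
    have hbt := between L (fun z hz => hb z (List.mem_cons_of_mem _ hz)) x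
    have hmem : (L.map b).prod x ∈ Icc lo hi := by
      obtain ⟨⟨i, hi1, hi2⟩, ⟨j, hj1, hj2⟩⟩ := hbt
      exact ⟨(hx i (by rw [List.length_cons]; omega)).1.trans hi2,
        hj2.trans (hx j (by rw [List.length_cons]; omega)).2⟩
    set P : Dif := (L.map b).prod with hP
    have hJ1 : JB r (fun t => b z t - t) (P x) e 1 :=
      ⟨((b z).contDiff.sub contDiff_id).contDiffAt, fun l hl => by
        rw [one_pow, mul_one]; exact hj z List.mem_cons_self _ hmem l hl⟩
    have hJ2 : JB r (fun t => P t - t) x (L.length * (C * e)) 1 :=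
      ⟨(P.contDiff.sub contDiff_id).contDiffAt, fun l hl => by
        rw [one_pow, mul_one]; exact ih' l hl⟩
    have hder : ∀ l, 1 ≤ l → l ≤ r → 1 * |iteratedDeriv l (fun t => P t) x| ≤ 2 * 1 ^ l := by
      intro l hl1 hl2
      have e1 : iteratedDeriv l (fun t => P t - t) x =
          iteratedDeriv l (fun t => P t) x - iteratedDeriv l (fun t => t) x :=
        iteratedDeriv_fun_sub (P.contDiff.contDiffAt.of_le (by exact_mod_cast le_top))
          (contDiffAt_id.of_le (by exact_mod_cast le_top))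
      have e2 : |iteratedDeriv l (fun t : ℝ => t) x| ≤ 1 := by
        have := iteratedDeriv_fun_id (𝕜 := ℝ) (n := l) (x := x)
        rw [this]
        split_ifs
        · omega
        · simp
        · simp
      have e3 := ih' l hl2
      rw [e1] at e3
      rw [one_mul, one_pow, mul_one]
      have e4 := abs_sub_abs_le_abs_sub (iteratedDeriv l (fun t => P t) x)
        (iteratedDeriv l (fun t : ℝ => t) x)
      linarith
    have hJ3 := hcomp (fun t => b z t - t) (fun t => P t) x e 1 1 zero_le_one zero_le_one hJ1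
      P.contDiff.contDiffAt hder
    have hJ4 := hJ3.add hJ2
    have e5 : (fun t => ((z :: L).map b).prod t - t) =
        fun t => (b z (P t) - P t) + (P t - t) := by
      funext t
      rw [List.map_cons, List.prod_cons, Dif.mul_apply]
      ring
    rw [e5]
    have h6 := hJ4.2 l hl
    rw [one_pow, mul_one] at h6
    refine h6.trans (le_of_eq ?_)
    rw [List.length_cons]
    push_cast
    ring


theorem bf_jet {s : Dif} {a z y C η : ℝ} {r : ℕ} (ha : 0 < a) (ha1 : a ≤ 1)
    (hC : ∀ l ≤ r, ∀ t, |iteratedDeriv l chi t| ≤ C) (hη : 0 ≤ η)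
    (hs : ∀ l ≤ r, |iteratedDeriv l (fun t => s t - t) y| ≤ η) :
    ∀ l ≤ r, |iteratedDeriv l (fun t => chi ((t - z) / a) * (s t - t)) y| ≤
      2 ^ r * C * η * (1 / a) ^ r := by
  intro l hl
  have hC0 : 0 ≤ C := (abs_nonneg _).trans (hC 0 (Nat.zero_le _) 0)
  have h1a : (1 : ℝ) ≤ 1 / a := by rw [le_div_iff₀ ha]; linarith
  have h1 := chi_scaled hC ha z y
  have h2 : JB r (fun t => s t - t) y η 1 :=
    ⟨(s.contDiff.sub contDiff_id).contDiffAt, fun l hl => by
      rw [one_pow, mul_one]; exact hs l hl⟩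
  have h3 := h2.mono_scale hη zero_le_one h1a
  have h4 := (h1.mul (by positivity) h3).2 l hl
  refine h4.trans (mul_le_mul_of_nonneg_left (pow_le_pow_right₀ h1a hl) (by positivity))

theorem orbit_mono {S : Dif} {w : ℝ} (hw : w < S w) : StrictMono (fun k : ℤ => (S ^ k) w) := by
  refine strictMono_int_of_lt_succ (fun k => ?_)
  show (S ^ k) w < (S ^ (k + 1)) w
  rw [zpow_add_one, Dif.mul_apply]
  exact (S ^ k).strictMono hw

theorem tiny_mem {S : Dif} {w : ℝ} (hw : w < S w) {k : ℤ} (h1 : -5 ≤ k) (h2 : k ≤ 5) :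
    (S ^ k) w ∈ Icc ((S ^ (-5 : ℤ)) w) ((S ^ (5 : ℤ)) w) :=
  ⟨(orbit_mono hw).monotone h1, (orbit_mono hw).monotone h2⟩

theorem inv_zpow_apply (S : Dif) (k : ℤ) (w : ℝ) : S⁻¹ ((S ^ k) w) = (S ^ (k - 1)) w := by
  rw [zpow_sub_one, mul_comm_of S k]
  rfl
where
  mul_comm_of (S : Dif) (k : ℤ) : S ^ k * S⁻¹ = S⁻¹ * S ^ k :=
    ((Commute.refl S).inv_left.zpow_right k).eq.symm

theorem self_zpow_apply (S : Dif) (k : ℤ) (w : ℝ) : S ((S ^ k) w) = (S ^ (k + 1)) w := by
  rw [zpow_add_one, ((Commute.refl S).zpow_left k).eq]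
  rfl

/-- a window of tiny displacement is mapped into a slightly larger window -/
theorem tiny_step {S s : Dif} {r J : ℕ} {a η w : ℝ} (h : Tiny S s r J a η w) {x : ℝ} {k : ℤ}
    (hw : w < S w) (hk : k ≤ 4) (hk0 : 0 ≤ k)
    (hx : x ∈ Icc ((S ^ (-k)) w) ((S ^ k) w)) {j : ℤ} (hj : |j| ≤ J) :
    (s ^ j) x ∈ Icc ((S ^ (-(k + 1))) w) ((S ^ (k + 1)) w) := by
  have hm := (orbit_mono hw).monotone
  have h5 : x ∈ Icc ((S ^ (-5 : ℤ)) w) ((S ^ (5 : ℤ)) w) :=
    ⟨(hm (by omega : (-5 : ℤ) ≤ -k)).trans hx.1, hx.2.trans (hm (by omega : k ≤ 5))⟩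
  obtain ⟨-, h6⟩ := h x h5
  obtain ⟨h7, h8, -⟩ := h6 j hj
  constructor
  · refine le_trans ?_ h7
    have : (S ^ (-(k + 1))) w = S⁻¹ ((S ^ (-k)) w) := by
      rw [inv_zpow_apply, show -(k + 1) = -k - 1 by ring]
    rw [this, S⁻¹.le_iff]
    exact hx.1
  · refine h8.trans ?_
    have : (S ^ (k + 1)) w = S ((S ^ k) w) := by
      rw [self_zpow_apply]
    rw [this, S.le_iff]
    exact hx.2

theorem map_window {S E : Dif} (hSE : Commute S E) (k : ℤ) (w : ℝ) :
    E ((S ^ k) w) = (S ^ k) (E w) :=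
  (Dif.comm_apply (hSE.zpow_left k) w).symm

theorem countP_toList (Z : Finset ℝ) (x : ℝ) :
    Z.toList.countP (fun z => decide (z < x)) = (Z.filter (fun z => z < x)).card := by
  rw [Finset.card_def, Finset.filter_val, ← Multiset.countP_eq_card_filter,
    ← Finset.coe_toList, Multiset.coe_countP]

/-- the jets of the product in the windows -/
theorem window_jets {S s : Dif} {Z : Finset ℝ} {a e C : ℝ} {r J : ℕ} {b : ℝ → Dif} {η w : ℝ}
    (hJ : (Z.card : ℤ) ≤ J) (he : 0 ≤ e) (hle : Z.card * (C * e) ≤ 1)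
    (hjets : ∀ (s : Dif) (b : ℝ → Dif) (L : List ℝ) (x lo hi e : ℝ),
      0 ≤ e → L.length * (C * e) ≤ 1 →
      (∀ z ∈ L, ∀ y, min y (s y) ≤ b z y ∧ b z y ≤ max y (s y)) →
      (∀ j : ℕ, j ≤ L.length → (s ^ j) x ∈ Icc lo hi) →
      (∀ z ∈ L, ∀ y ∈ Icc lo hi, ∀ l ≤ r, |iteratedDeriv l (fun t => b z t - t) y| ≤ e) →
      ∀ l ≤ r, |iteratedDeriv l (fun t => (L.map b).prod t - t) x| ≤ L.length * (C * e))
    (hb : ∀ z ∈ Z, ∀ y, b z y = bf s a z y)
    (hbj : ∀ z ∈ Z, ∀ y, (∀ l ≤ r, |iteratedDeriv l (fun t => s t - t) y| ≤ η) →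
      ∀ l ≤ r, |iteratedDeriv l (fun t => b z t - t) y| ≤ e)
    (hZ : 1 ≤ J) (hw : w < S w) (ht : Tiny S s r J a η w) {x : ℝ}
    (hx : x ∈ Icc ((S ^ (-4 : ℤ)) w) ((S ^ (4 : ℤ)) w)) :
    ∀ l ≤ r, |iteratedDeriv l (fun t => (Z.toList.map b).prod t - t) x| ≤ Z.card * (C * e) := by
  have hlen : Z.toList.length = Z.card := Finset.length_toList Z
  have := hjets s b Z.toList x ((S ^ (-5 : ℤ)) w) ((S ^ (5 : ℤ)) w) e he (by rw [hlen]; exact hle)
    (fun z hz y => by
      rw [Finset.mem_toList] at hz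
      rw [hb z hz]
      exact ⟨bf_ge s a z y, bf_le s a z y⟩)
    (fun j hj => by
      rw [hlen] at hj
      have h1 := tiny_step ht (k := 4) hw le_rfl (by norm_num) hx (j := (j : ℤ)) (by
        rw [abs_of_nonneg (by positivity)]
        exact le_trans (by exact_mod_cast hj) hJ)
      rw [zpow_natCast] at h1
      exact h1)
    (fun z hz y hy => by
      rw [Finset.mem_toList] at hz
      refine hbj z hz y (fun l hl => ?_)
      have h1 := ((ht y hy).2 1 (by rw [abs_one]; exact_mod_cast hZ)).2.2 l hl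
      rwa [zpow_one] at h1)
  rwa [hlen] at this

end Pool.Agent.F88.TW

namespace Pool.Agent.F88

open TW in
/-- Inserting a tiny element `s` of the centraliser near the points of `Z`: the twisted triple
`E i * s ^ (- c i)` is conjugate to a triple close to `E`. -/
theorem twist (r : ℕ) (hr : 1 ≤ r) (E : Fin 3 → Dif) (R ε : ℝ) (hε : 0 < ε) :
    ∃ R' δ : ℝ, 0 < δ ∧ R ≤ R' ∧
    ∀ (S s : Dif) (Z : Finset ℝ) (a : ℝ) (J : ℕ) (c : Fin 3 → ℤ),
      (∀ i, Commute S (E i)) → (∀ i, Commute s (E i)) → Commute S s → (∀ z ∈ Z, z < S z) →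
      0 < a → a ≤ 1 → (∀ i, (Z.card : ℤ) + |c i| ≤ J) →
      (∀ j : ℤ, |j| ≤ J → ∀ x, |(s ^ j) x - x| ≤ 1) →
      (∀ z ∈ Z, Tiny S s r J a (δ * a ^ r / (Z.card + 1)) z ∧
        (∀ i, Tiny S s r J a (δ * a ^ r / (Z.card + 1)) (E i z)) ∧
        (∀ i, Tiny S s r J a (δ * a ^ r / (Z.card + 1)) ((E i)⁻¹ z)) ∧
        (∀ i i', Tiny S s r J a (δ * a ^ r / (Z.card + 1)) (E i' ((E i)⁻¹ z)))) →
      (∀ i, ∀ x ∈ Icc (-R') R',
        (∀ z ∈ Z, (x < (S ^ (-3 : ℤ)) z ∨ (S ^ (3 : ℤ)) z < x) ∧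
          ∀ i', (x < (S ^ (-3 : ℤ)) ((E i')⁻¹ z) ∨ (S ^ (3 : ℤ)) ((E i')⁻¹ z) < x)) →
        ((Z.filter (fun z => z < E i x)).card : ℤ) = (Z.filter (fun z => z < x)).card + c i) →
      ∃ ψ : Dif, ∀ i, Near r ε R (ψ * (E i * s ^ (-(c i))) * ψ⁻¹ : Dif) (E i) := by
  obtain ⟨C₁, hC₁, hchi⟩ := chi_bound r
  obtain ⟨C₂, hC₂, hjets⟩ := jets r
  have hcl := fun i => close r (E i) R ε hε
  choose d hd hclose using hcl
  obtain ⟨d₁, hd₁, hd₁'⟩ : ∃ d₁ > 0, ∀ i, d₁ ≤ d i := by
    refine ⟨min (d 0) (min (d 1) (d 2)), ?_, ?_⟩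
    · exact lt_min (hd 0) (lt_min (hd 1) (hd 2))
    · intro i
      fin_cases i
      · exact min_le_left _ _
      · exact (min_le_right _ _).trans (min_le_left _ _)
      · exact (min_le_right _ _).trans (min_le_right _ _)
  have hC₁0 : 0 < C₁ := by linarith
  set K : ℝ := 2 ^ r * C₁ with hK
  have hK0 : 0 < K := by positivity
  have hK1 : 1 ≤ K := by
    have h2 : (1 : ℝ) ≤ 2 ^ r := one_le_pow₀ (by norm_num)
    nlinarith
  set C₀ : ℝ := C₂ * K + K + 1 with hC₀
  have hC₀0 : 0 < C₀ := by positivity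
  set δ : ℝ := min (1 / (2 * C₀)) (d₁ / C₀) with hδ
  have hδ0 : 0 < δ := lt_min (by positivity) (by positivity)
  have hδ1 : C₀ * δ ≤ 1 / 2 := by
    have : δ ≤ 1 / (2 * C₀) := min_le_left _ _
    calc C₀ * δ ≤ C₀ * (1 / (2 * C₀)) := mul_le_mul_of_nonneg_left this hC₀0.le
      _ = 1 / 2 := by field_simp
  have hδ2 : C₀ * δ ≤ d₁ := by
    have : δ ≤ d₁ / C₀ := min_le_right _ _
    calc C₀ * δ ≤ C₀ * (d₁ / C₀) := mul_le_mul_of_nonneg_left this hC₀0.le
      _ = d₁ := by field_simp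
  have hKδ : K * δ ≤ 1 / 2 := by
    have : K * δ ≤ C₀ * δ := mul_le_mul_of_nonneg_right (by
      rw [hC₀]; nlinarith [mul_pos hC₂ hK0]) hδ0.le
    linarith
  have hCKδ : C₂ * K * δ ≤ C₀ * δ := mul_le_mul_of_nonneg_right (by
      rw [hC₀]; linarith) hδ0.le
  have hδC : δ ≤ C₀ * δ := by
    have : (1 : ℝ) ≤ C₀ := by rw [hC₀]; nlinarith [mul_pos hC₂ hK0]
    nlinarith
  refine ⟨R + 1, δ, hδ0, by linarith, ?_⟩
  intro S s Z a J c hSE hsE hSs hzS ha ha1 hJ hmove htiny hcount
  have hm0 : (0 : ℝ) < (Z.card : ℝ) + 1 := by positivity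
  set η : ℝ := δ * a ^ r / (Z.card + 1) with hη
  have hη0 : 0 ≤ η := by positivity
  have har : a ^ r ≤ 1 := pow_le_one₀ ha.le ha1
  have hηδ : η ≤ δ := by
    rw [hη, div_le_iff₀ hm0]
    have : (0 : ℝ) ≤ Z.card := by positivity
    nlinarith
  set e : ℝ := K * δ / (Z.card + 1) with he
  have he0 : 0 ≤ e := by positivity
  have hee : K * η * (1 / a) ^ r = e := by
    rw [hη, he, one_div, inv_pow]
    field_simp
  have he1 : e < 1 := by
    have : e ≤ K * δ := by
      rw [he, div_le_iff₀ hm0]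
      have h1 : (0 : ℝ) ≤ Z.card := by positivity
      have h2 : 0 ≤ K * δ := by positivity
      nlinarith
    linarith
  have hme : (Z.card : ℝ) * (C₂ * e) ≤ C₀ * δ := by
    refine le_trans ?_ hCKδ
    have h1 : (Z.card : ℝ) * (C₂ * e) = C₂ * K * δ * ((Z.card : ℝ) / (Z.card + 1)) := by
      rw [he]; ring
    rw [h1]
    have h2 : (Z.card : ℝ) / (Z.card + 1) ≤ 1 := by
      rw [div_le_one hm0]; linarith
    have h3 : 0 ≤ C₂ * K * δ := by positivity
    nlinarith
  have hmJ : (Z.card : ℤ) ≤ J := by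
    have := hJ 0
    have h0 := abs_nonneg (c 0)
    omega
  -- the maps `b z`
  have hbex : ∀ z, ∃ b : Dif, z ∈ Z → ∀ y, b y = bf s a z y := by
    intro z
    by_cases hz : z ∈ Z
    · have hcard : 1 ≤ Z.card := Finset.card_pos.mpr ⟨z, hz⟩
      have hJ1 : (1 : ℤ) ≤ J := le_trans (by exact_mod_cast hcard) hmJ
      have hT := (htiny z hz).1
      obtain ⟨b, hb⟩ := exists_b s (a := a) (z := z) ha (fun y hy => by
        have hy1 : y ∈ Icc ((S ^ (-5 : ℤ)) z) ((S ^ (5 : ℤ)) z) := by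
          have hm := (orbit_mono (hzS z hz)).monotone
          have h1 := (hT ((S ^ (-1 : ℤ)) z) (tiny_mem (hzS z hz) (by norm_num) (by norm_num))).1
          have h2 := (hT ((S ^ (0 : ℤ)) z) (tiny_mem (hzS z hz) (by norm_num) (by norm_num))).1
          rw [self_zpow_apply] at h1
          norm_num at h1 h2
          have h3 : (S ^ (-5 : ℤ)) z ≤ (S ^ (-1 : ℤ)) z := hm (by norm_num)
          have h4 : (S ^ (1 : ℤ)) z ≤ (S ^ (5 : ℤ)) z := hm (by norm_num)
          rw [zpow_one] at h4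
          rw [zpow_neg_one] at h3
          exact ⟨by linarith [hy.1], by linarith [hy.2]⟩
        have h5 := ((hT y hy1).2 1 (by rw [abs_one]; exact hJ1)).2.2
        rw [zpow_one] at h5
        have h6 := bf_jet (z := z) ha ha1 hchi hη0 h5 1 hr
        rw [iteratedDeriv_one] at h6
        rw [← hK, hee] at h6
        exact lt_of_le_of_lt h6 he1)
      exact ⟨b, fun _ => hb⟩
    · exact ⟨1, fun h => absurd h hz⟩
  choose b hb using hbex
  have hbj : ∀ z ∈ Z, ∀ y, (∀ l ≤ r, |iteratedDeriv l (fun t => s t - t) y| ≤ η) →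
      ∀ l ≤ r, |iteratedDeriv l (fun t => b z t - t) y| ≤ e := by
    intro z hz y hy l hl
    have e1 : (fun t => b z t - t) = fun t => chi ((t - z) / a) * (s t - t) := by
      funext t
      rw [hb z hz t, bf]; ring
    rw [e1]
    have h6 := bf_jet (z := z) ha ha1 hchi hη0 hy l hl
    rwa [← hK, hee] at h6
  set ψ : Dif := (Z.toList.map b).prod with hψ
  have hlen : Z.toList.length = Z.card := Finset.length_toList Z
  have hbet := fun x => between (s := s) (b := b) Z.toList (fun z hz y => by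
      rw [Finset.mem_toList] at hz
      rw [hb z hz]
      exact ⟨bf_ge s a z y, bf_le s a z y⟩) x
  have hnear1 : ∀ x, |ψ x - x| ≤ 1 := by
    intro x
    obtain ⟨⟨i, hi, hi'⟩, ⟨j, hj, hj'⟩⟩ := hbet x
    rw [hlen] at hi hj
    have h1 := hmove i (by rw [abs_of_nonneg (by positivity)]; exact le_trans (by exact_mod_cast hi) hmJ) x
    have h2 := hmove j (by rw [abs_of_nonneg (by positivity)]; exact le_trans (by exact_mod_cast hj) hmJ) x
    rw [zpow_natCast, abs_le] at h1 h2
    rw [abs_le]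
    constructor
    · linarith [h1.1]
    · linarith [h2.2]
  -- windows
  have hwin : ∀ w, w < S w → Tiny S s r J a η w → Z.Nonempty →
      ∀ x ∈ Icc ((S ^ (-4 : ℤ)) w) ((S ^ (4 : ℤ)) w), ∀ l ≤ r,
      |iteratedDeriv l (fun t => ψ t - t) x| ≤ C₀ * δ := by
    intro w hw hT hne x hx l hl
    have hcard : 1 ≤ Z.card := Finset.card_pos.mpr hne
    have hJ1 : (1 : ℤ) ≤ J := le_trans (by exact_mod_cast hcard) hmJ
    refine (window_jets (b := b) hmJ he0 (by linarith) hjets hb hbj (by exact_mod_cast hJ1)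
      hw hT hx l hl).trans hme
  refine ⟨ψ, fun i l hl p hp => ?_⟩
  set x : ℝ := ψ⁻¹ p with hx
  have hpx : ψ x = p := by simp [hx]
  by_cases hW : ∃ w, w < S w ∧ Tiny S s r J a η w ∧ Tiny S s r J a η (E i w) ∧ Z.Nonempty ∧
      x ∈ Icc ((S ^ (-3 : ℤ)) w) ((S ^ (3 : ℤ)) w)
  · -- in a window
    obtain ⟨w, hw, hT, hTE, hne, hxw⟩ := hW
    have hcj : |(-(c i))| ≤ (J : ℤ) := by
      rw [abs_neg]
      have := hJ i
      omega
    have hmw := (orbit_mono hw).monotone
    have hxw4 : x ∈ Icc ((S ^ (-4 : ℤ)) w) ((S ^ (4 : ℤ)) w) :=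
      ⟨(hmw (by norm_num)).trans hxw.1, hxw.2.trans (hmw (by norm_num))⟩
    have hxw5 : x ∈ Icc ((S ^ (-5 : ℤ)) w) ((S ^ (5 : ℤ)) w) :=
      ⟨(hmw (by norm_num)).trans hxw.1, hxw.2.trans (hmw (by norm_num))⟩
    have hEw : E i w < S (E i w) := by
      rw [Dif.comm_apply (hSE i), (E i).lt_iff]; exact hw
    have hstep := tiny_step hT (k := 3) hw (by norm_num) (by norm_num) hxw hcj
    have hy : E i ((s ^ (-(c i))) x) ∈ Icc ((S ^ (-4 : ℤ)) (E i w)) ((S ^ (4 : ℤ)) (E i w)) := by
      rw [← map_window (hSE i), ← map_window (hSE i)]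
      exact ⟨(E i).le_iff.mpr hstep.1, (E i).le_iff.mpr hstep.2⟩
    have h1 := hwin w hw hT hne x hxw4
    have h2 := hwin (E i w) hEw hTE hne _ hy
    have h3 : ∀ l ≤ r, |iteratedDeriv l (fun t => (s ^ (-(c i))) t - t) x| ≤ d i := by
      intro l hl
      have h4 := ((hT x hxw5).2 (-(c i)) hcj).2.2 l hl
      have := hd₁' i
      linarith
    have h5 := hclose i ψ (s ^ (-(c i))) x (by rw [hpx]; exact hp)
      (fun l hl => (h1 l hl).trans (hδ2.trans (hd₁' i))) h3
      (fun l hl => (h2 l hl).trans (hδ2.trans (hd₁' i))) l hl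
    rw [hpx] at h5
    exact h5
  · -- outside of the windows
    push Not at hW
    have hdeep : ∀ z ∈ Z, (x < (S ^ (-3 : ℤ)) z ∨ (S ^ (3 : ℤ)) z < x) ∧
          ∀ i', (x < (S ^ (-3 : ℤ)) ((E i')⁻¹ z) ∨ (S ^ (3 : ℤ)) ((E i')⁻¹ z) < x) := by
      intro z hz
      obtain ⟨t1, t2, t3, t4⟩ := htiny z hz
      constructor
      · by_contra hcon
        push Not at hcon
        exact hW z (hzS z hz) t1 (t2 i) ⟨z, hz⟩ ⟨hcon.1, hcon.2⟩
      · intro i'
        by_contra hcon
        push Not at hcon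
        have hw : (E i')⁻¹ z < S ((E i')⁻¹ z) := by
          rw [Dif.comm_apply ((hSE i').inv_right), (E i')⁻¹.lt_iff]; exact hzS z hz
        exact hW ((E i')⁻¹ z) hw (t3 i') (t4 i' i) ⟨z, hz⟩ ⟨hcon.1, hcon.2⟩
    have hxR : x ∈ Icc (-(R + 1)) (R + 1) := by
      have h1 := hnear1 x
      rw [hpx, abs_le] at h1
      exact ⟨by linarith [h1.2, hp.1], by linarith [h1.1, hp.2]⟩
    have hc := hcount i x hxR hdeep
    -- germ of ψ
    have hgerm : ∀ y, (∀ z ∈ Z, y < (S ^ (-2 : ℤ)) z ∨ (S ^ (2 : ℤ)) z < y) →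
        (fun t => ψ t) =ᶠ[𝓝 y] fun t => (s ^ (Z.filter (fun z => z < y)).card) t := by
      intro y hy
      have h1 := germ (S := S) (s := s) (b := b) Z.toList Z.card hlen.le (x := y) ?_ ?_ ?_ ?_ ?_
      · rw [countP_toList] at h1
        exact h1
      · intro z hz
        rw [Finset.mem_toList] at hz
        have hT := (htiny z hz).1
        have h1 := (hT ((S ^ (-1 : ℤ)) z) (tiny_mem (hzS z hz) (by norm_num) (by norm_num))).1
        have h2 := (hT ((S ^ (0 : ℤ)) z) (tiny_mem (hzS z hz) (by norm_num) (by norm_num))).1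
        rw [self_zpow_apply] at h1
        norm_num at h1 h2
        constructor
        · intro y hy
          rw [hb z hz, bf_left s ha (by linarith)]
        · intro y hy
          rw [hb z hz, bf_right s ha (by linarith)]
      · intro z hz
        rw [Finset.mem_toList] at hz
        exact hy z hz
      · intro z hz k hk
        rw [Finset.mem_toList] at hz
        have hT := (htiny z hz).1
        have h1 := ((hT ((S ^ (-2 : ℤ)) z) (tiny_mem (hzS z hz) (by norm_num) (by norm_num))).2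
          (k : ℤ) (by rw [abs_of_nonneg (by positivity)]
                      exact le_trans (by exact_mod_cast hk) hmJ)).2.1
        rw [self_zpow_apply, zpow_natCast] at h1
        norm_num at h1
        exact h1
      · intro z hz k hk
        rw [Finset.mem_toList] at hz
        have hT := (htiny z hz).1
        have h1 := ((hT ((S ^ (2 : ℤ)) z) (tiny_mem (hzS z hz) (by norm_num) (by norm_num))).2
          (k : ℤ) (by rw [abs_of_nonneg (by positivity)]
                      exact le_trans (by exact_mod_cast hk) hmJ)).1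
        rw [inv_zpow_apply, zpow_natCast] at h1
        norm_num at h1
        exact_mod_cast h1
      · intro z hz
        rw [Finset.mem_toList] at hz
        have hm := orbit_mono (hzS z hz)
        have h1 : (S ^ (-2 : ℤ)) z < (S ^ (0 : ℤ)) z := hm (by norm_num)
        have h2 : (S ^ (0 : ℤ)) z < (S ^ (2 : ℤ)) z := hm (by norm_num)
        rw [zpow_zero, Dif.one_apply] at h1 h2
        exact ⟨h1, h2⟩
    set N : ℕ := (Z.filter (fun z => z < x)).card with hN
    set y : ℝ := E i ((s ^ (-(c i))) x) with hy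
    have hcj : |(-(c i))| ≤ (J : ℤ) := by
      rw [abs_neg]
      have := hJ i
      omega
    -- position of `y`
    have hpos : ∀ z ∈ Z, (y < (S ^ (-2 : ℤ)) z ∧ E i x < z) ∨ ((S ^ (2 : ℤ)) z < y ∧ z < E i x) := by
      intro z hz
      obtain ⟨t1, t2, t3, t4⟩ := htiny z hz
      have hw : (E i)⁻¹ z < S ((E i)⁻¹ z) := by
        rw [Dif.comm_apply ((hSE i).inv_right), (E i)⁻¹.lt_iff]; exact hzS z hz
      have hm := orbit_mono hw
      have hm0 : (S ^ (0 : ℤ)) ((E i)⁻¹ z) = (E i)⁻¹ z := by simp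
      rcases (hdeep z hz).2 i with h | h
      · left
        constructor
        · have h1 := (((t3 i) ((S ^ (-3 : ℤ)) ((E i)⁻¹ z))
            (tiny_mem hw (by norm_num) (by norm_num))).2 _ hcj).2.1
          rw [self_zpow_apply] at h1
          norm_num at h1
          have h2 : (s ^ (-(c i))) x < (S ^ (-2 : ℤ)) ((E i)⁻¹ z) := by
            refine lt_of_lt_of_le ((s ^ (-(c i))).lt_iff.mpr h) ?_
            rw [zpow_neg s]
            exact h1
          have h3 := (E i).lt_iff.mpr h2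
          rw [map_window (hSE i), Dif.apply_inv_self] at h3
          exact h3
        · have h1 : (S ^ (-3 : ℤ)) ((E i)⁻¹ z) < (S ^ (0 : ℤ)) ((E i)⁻¹ z) := hm (by norm_num)
          rw [hm0] at h1
          exact (E i).lt_inv_iff.mp (h.trans h1)
      · right
        constructor
        · have h1 := (((t3 i) ((S ^ (3 : ℤ)) ((E i)⁻¹ z))
            (tiny_mem hw (by norm_num) (by norm_num))).2 _ hcj).1
          rw [inv_zpow_apply] at h1
          norm_num at h1
          have h2 : (S ^ (2 : ℤ)) ((E i)⁻¹ z) < (s ^ (-(c i))) x := by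
            refine lt_of_le_of_lt ?_ ((s ^ (-(c i))).lt_iff.mpr h)
            rw [zpow_neg s]
            exact_mod_cast h1
          have h3 := (E i).lt_iff.mpr h2
          rw [map_window (hSE i), Dif.apply_inv_self] at h3
          exact h3
        · have h1 : (S ^ (0 : ℤ)) ((E i)⁻¹ z) < (S ^ (3 : ℤ)) ((E i)⁻¹ z) := hm (by norm_num)
          rw [hm0] at h1
          exact (E i).inv_lt_iff.mp (h1.trans h)
    have hNy : Z.filter (fun z => z < y) = Z.filter (fun z => z < E i x) := by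
      apply Finset.filter_congr
      intro z hz
      have hm := orbit_mono (hzS z hz)
      have h1 : (S ^ (-2 : ℤ)) z < (S ^ (0 : ℤ)) z := hm (by norm_num)
      have h2 : (S ^ (0 : ℤ)) z < (S ^ (2 : ℤ)) z := hm (by norm_num)
      rw [zpow_zero, Dif.one_apply] at h1 h2
      rcases hpos z hz with h | h
      · constructor
        · intro h3; exact absurd (h.1.trans h1) (not_lt.mpr h3.le)
        · intro h3; exact absurd h.2 (not_lt.mpr h3.le)
      · exact ⟨fun _ => h.2, fun _ => h2.trans h.1⟩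
    have hg1 := hgerm x (fun z hz => by
      have hm := orbit_mono (hzS z hz)
      rcases (hdeep z hz).1 with h | h
      · left; exact h.trans (hm (by norm_num))
      · right; exact lt_trans (hm (by norm_num)) h)
    have hg2 := hgerm y (fun z hz => by
      rcases hpos z hz with h | h
      · left; exact h.1
      · right; exact h.1)
    rw [hNy] at hg2
    have hgoal : (fun t => (ψ * (E i * s ^ (-(c i))) * ψ⁻¹ : Dif) t) =ᶠ[𝓝 p] fun t => E i t := by
      have hc1 : Tendsto (fun t => ψ⁻¹ t) (𝓝 p) (𝓝 x) := ψ⁻¹.continuous.tendsto p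
      have hc2 : Tendsto (fun t => E i ((s ^ (-(c i))) (ψ⁻¹ t))) (𝓝 p) (𝓝 y) :=
        (((E i * s ^ (-(c i)) : Dif).continuous).tendsto x).comp hc1
      filter_upwards [hc1.eventually hg1, hc2.eventually hg2] with t ht1 ht2
      have h1 : t = (s ^ (N : ℤ)) (ψ⁻¹ t) := by
        rw [zpow_natCast, ← ht1, Dif.apply_inv_self]
      have h2 : (ψ * (E i * s ^ (-(c i))) * ψ⁻¹ : Dif) t =
          ψ (E i ((s ^ (-(c i))) (ψ⁻¹ t))) := rfl
      rw [h2, ht2]
      have h3 : (s ^ (Z.filter (fun z => z < E i x)).card) (E i ((s ^ (-(c i))) (ψ⁻¹ t))) =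
          E i ((s ^ (N : ℤ)) (ψ⁻¹ t)) := by
        rw [← zpow_natCast s, hc]
        rw [← Dif.mul_apply (s ^ _) (E i), ((hsE i).zpow_left _).eq, Dif.mul_apply,
          ← Dif.mul_apply (s ^ _) (s ^ _), ← zpow_add]
        congr 3
        ring_nf
      rw [h3, ← h1]
    show |iteratedDeriv l (fun t => (ψ * (E i * s ^ (-(c i))) * ψ⁻¹ : Dif) t) p -
      iteratedDeriv l (fun t => E i t) p| ≤ ε
    rw [hgoal.iteratedDeriv_eq l, sub_self, abs_zero]
    exact hε.le

end Pool.Agent.F88
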