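import Pool.Agent.Lib.MP_f88c17.BAmain
import Pool.Agent.Lib.MP_f88c17.TW
import Pool.Agent.Lib.MP_f88c17.BS

/-!
# Task BA: the non-flat case
-/

set_option autoImplicit false

open Set Filter Topology
open scoped ContDiff

namespace Pool.Agent.F88

theorem nonflat_case {F G : Dif} {nF nG q : ℤ} (h : Rat F G nF nG q)
    (hnf : NonFlat F G nF nG q) (ht : ∀ r, TinyNear F G nF nG q r) : ¬ Stable F G :=
  BA.nonflat_core h twist (fun h1 h2 h3 h4 => no_twist h hnf h1 h2 h3 h4)
    (fun {_} h1 h2 {_} h3 => nf_fix h hnf h1 h2 h3) ht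

end Pool.Agent.F88
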