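import Pool.Agent.Lib.MP_f88c17.Conj82

/-!
# The non-flat case: inserting elements of value zero
-/

set_option autoImplicit false

open Set Filter Topology
open scoped ContDiff

namespace Pool.Agent.F88.BA

variable {F G : Dif} {nF nG q : ℤ}

theorem gap_sigma (h : Rat F G nF nG q) {σ : Dif} (hσ : Val F G nF nG q σ 1) {f : Dif}
    (hf : InL F G nF nG q f) {z₀ z₁ : ℝ} (hz₀ : FixK F G nF nG q z₀)
    (hpos : ∀ y ∈ Ioo z₀ z₁, y < f y) : z₁ ≤ σ z₀ := by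
  by_contra hcon
  push Not at hcon
  have h1 : z₀ < σ z₀ := hσ.lt h one_pos z₀
  have h2 := hpos (σ z₀) ⟨h1, hcon⟩
  rw [fixK_map h hz₀ hσ f hf] at h2
  exact lt_irrefl _ h2

theorem thresh (h : Rat F G nF nG q) {σ : Dif} (hσ : Val F G nF nG q σ 1) {z₀ x₀ : ℝ}
    (hz₀ : FixK F G nF nG q z₀) (h1 : z₀ < x₀) (h2 : x₀ < σ z₀) (y : ℝ) :
    ∃ κ : ℤ, ∀ k : ℤ, (σ ^ k) x₀ < y ↔ k < κ := by
  have hlow : ∀ k : ℤ, (σ ^ k) z₀ < (σ ^ k) x₀ := fun k => (σ ^ k).lt_iff.mpr h1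
  have hupp : ∀ k : ℤ, (σ ^ k) x₀ < (σ ^ (k + 1)) z₀ := by
    intro k
    rw [zpow_add, zpow_one, Dif.mul_apply]
    exact (σ ^ k).lt_iff.mpr h2
  have hex : ∃ k : ℤ, y ≤ (σ ^ k) x₀ := by
    refine ⟨q * ⌈y - z₀⌉, ?_⟩
    have h3 := hlow (q * ⌈y - z₀⌉)
    rw [sigma_qk h hσ hz₀] at h3
    have := Int.le_ceil (y - z₀)
    linarith
  have hbd : ∃ b : ℤ, ∀ k : ℤ, y ≤ (σ ^ k) x₀ → b ≤ k := by
    refine ⟨q * ⌊y - z₀⌋, fun k hk => ?_⟩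
    by_contra hlt
    push Not at hlt
    have h3 := hupp k
    have h4 : (σ ^ (k + 1)) z₀ ≤ (σ ^ (q * ⌊y - z₀⌋)) z₀ := sigma_le h hσ (by omega) z₀
    rw [sigma_qk h hσ hz₀] at h4
    have := Int.floor_le (y - z₀)
    linarith
  obtain ⟨κ, hκ1, hκ2⟩ := Int.exists_least_of_bdd (P := fun k : ℤ => y ≤ (σ ^ k) x₀) hbd hex
  refine ⟨κ, fun k => ⟨fun hk => ?_, fun hk => ?_⟩⟩
  · by_contra hlt
    push Not at hlt
    have := sigma_le h hσ hlt x₀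
    linarith
  · by_contra hlt
    push Not at hlt
    have := hκ2 k hlt
    omega

theorem card_filter (h : Rat F G nF nG q) {σ : Dif} (hσ : Val F G nF nG q σ 1) {x₀ y : ℝ}
    {κ N : ℤ} (hκ : ∀ k : ℤ, (σ ^ k) x₀ < y ↔ k < κ) (h1 : -N ≤ κ) (h2 : κ ≤ N + 1) :
    ((((Finset.Icc (-N) N).image fun k => (σ ^ k) x₀).filter (fun z => z < y)).card : ℤ) =
      κ + N := by
  have hinj : Function.Injective (fun k : ℤ => (σ ^ k) x₀) :=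
    (strictMono_int_of_lt_succ fun k => sigma_lt h hσ (by omega) x₀).injective
  rw [Finset.filter_image, Finset.card_image_of_injective _ hinj]
  have e : (Finset.Icc (-N) N).filter (fun k => (σ ^ k) x₀ < y) = Finset.Ico (-N) κ := by
    ext k
    rw [Finset.mem_filter, Finset.mem_Icc, Finset.mem_Ico, hκ]
    constructor
    · rintro ⟨⟨h3, h4⟩, h5⟩; exact ⟨h3, h5⟩
    · rintro ⟨h3, h4⟩; exact ⟨⟨h3, by omega⟩, h4⟩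
  rw [e, Int.card_Ico]
  omega

theorem card_Z (h : Rat F G nF nG q) {σ : Dif} (hσ : Val F G nF nG q σ 1) (x₀ : ℝ) (N : ℤ)
    (hN : 0 ≤ N) : (((Finset.Icc (-N) N).image fun k => (σ ^ k) x₀).card : ℤ) = 2 * N + 1 := by
  have hinj : Function.Injective (fun k : ℤ => (σ ^ k) x₀) :=
    (strictMono_int_of_lt_succ fun k => sigma_lt h hσ (by omega) x₀).injective
  rw [Finset.card_image_of_injective _ hinj, Int.card_Icc]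
  omega

theorem deep (h : Rat F G nF nG q) {σ : Dif} (hσ : Val F G nF nG q σ 1) {f : Dif}
    (hf : InL F G nF nG q f) {z₀ z₁ x₀ : ℝ} (hz₀ : FixK F G nF nG q z₀)
    (hz₁ : FixK F G nF nG q z₁) (hpos : ∀ y ∈ Ioo z₀ z₁, y < f y) (hx₀ : x₀ ∈ Ioo z₀ z₁)
    {lam : Dif} (hlam : InL F G nF nG q lam) {m : ℤ} (hm : 0 ≤ m)
    (hdom : ∀ y ∈ Ioo z₀ z₁, (f ^ (-m)) y ≤ lam y ∧ lam y ≤ (f ^ m) y) {x : ℝ} {k : ℤ}
    (hx : x ≤ (σ ^ k) z₀ ∨ (σ ^ k) z₁ ≤ x ∨ x < ((f ^ m) ^ (-3 : ℤ)) ((σ ^ k) x₀) ∨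
      ((f ^ m) ^ (3 : ℤ)) ((σ ^ k) x₀) < x) :
    (σ ^ k) x₀ < lam x ↔ (σ ^ k) x₀ < x := by
  have hA := h.toAct
  have hσk := hσ.zpow hA k
  have cl : Commute lam (σ ^ k) := (inL_iff.mp hlam).comm hA hσk
  have cS : ∀ j : ℤ, Commute ((f ^ m) ^ j) (σ ^ k) := fun j =>
    ((inL_iff.mp hf).comm hA hσk).zpow_left m |>.zpow_left j
  obtain ⟨y, rfl⟩ : ∃ y, x = (σ ^ k) y := ⟨(σ ^ k)⁻¹ x, by simp⟩
  rw [Dif.comm_apply cl, (σ ^ k).lt_iff, (σ ^ k).lt_iff]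
  rw [Dif.comm_apply (cS _), Dif.comm_apply (cS _), (σ ^ k).le_iff, (σ ^ k).le_iff,
    (σ ^ k).lt_iff, (σ ^ k).lt_iff] at hx
  rcases le_or_gt y z₀ with hy0 | hy0
  · have h1 : lam y ≤ z₀ := by
      calc lam y ≤ lam z₀ := lam.le_iff.mpr hy0
        _ = z₀ := hz₀ lam hlam
    constructor
    · intro h2; linarith [hx₀.1]
    · intro h2; linarith [hx₀.1]
  rcases le_or_gt z₁ y with hy1 | hy1
  · have h1 : z₁ ≤ lam y := by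
      calc z₁ = lam z₁ := (hz₁ lam hlam).symm
        _ ≤ lam y := lam.le_iff.mpr hy1
    constructor
    · intro h2; linarith [hx₀.2]
    · intro h2; linarith [hx₀.2]
  have hy : y ∈ Ioo z₀ z₁ := ⟨hy0, hy1⟩
  obtain ⟨d1, d2⟩ := hdom y hy
  rcases hx with hx | hx | hx | hx
  · exact absurd hx (not_le.mpr hy0)
  · exact absurd hx (not_le.mpr hy1)
  · -- left of the window
    have h3 : (f ^ m) y < (f ^ m) (((f ^ m) ^ (-3 : ℤ)) x₀) := (f ^ m).lt_iff.mpr hx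
    have e1 : (f ^ m) (((f ^ m) ^ (-3 : ℤ)) x₀) = (f ^ (-(2 * m))) x₀ := by
      rw [← Dif.mul_apply, ← zpow_mul, ← zpow_add]
      congr 3
      ring
    have e2 : ((f ^ m) ^ (-3 : ℤ)) x₀ = (f ^ (-(3 * m))) x₀ := by
      rw [← zpow_mul]
      congr 3
      ring
    have h4 : (f ^ (-(2 * m))) x₀ ≤ (f ^ (0 : ℤ)) x₀ :=
      gap_mono hA hf hz₀ hz₁ hpos (by omega) hx₀
    have h5 : (f ^ (-(3 * m))) x₀ ≤ (f ^ (0 : ℤ)) x₀ :=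
      gap_mono hA hf hz₀ hz₁ hpos (by omega) hx₀
    rw [zpow_zero, Dif.one_apply] at h4 h5
    rw [e1] at h3
    rw [e2] at hx
    constructor
    · intro h6; linarith
    · intro h6; linarith
  · have h3 : (f ^ (-m)) (((f ^ m) ^ (3 : ℤ)) x₀) < (f ^ (-m)) y := (f ^ (-m)).lt_iff.mpr hx
    have e1 : (f ^ (-m)) (((f ^ m) ^ (3 : ℤ)) x₀) = (f ^ (2 * m)) x₀ := by
      rw [← Dif.mul_apply, ← zpow_mul, ← zpow_add]
      congr 3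
      ring
    have e2 : ((f ^ m) ^ (3 : ℤ)) x₀ = (f ^ (3 * m)) x₀ := by
      rw [← zpow_mul]
      congr 3
      ring
    have h4 : (f ^ (0 : ℤ)) x₀ ≤ (f ^ (2 * m)) x₀ :=
      gap_mono hA hf hz₀ hz₁ hpos (by omega) hx₀
    have h5 : (f ^ (0 : ℤ)) x₀ ≤ (f ^ (3 * m)) x₀ :=
      gap_mono hA hf hz₀ hz₁ hpos (by omega) hx₀
    rw [zpow_zero, Dif.one_apply] at h4 h5
    rw [e1] at h3
    rw [e2] at hx
    constructor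
    · intro h6; linarith
    · intro h6; linarith

theorem tiny_at (h : Rat F G nF nG q) {σ : Dif} (hσ : Val F G nF nG q σ 1) {f : Dif}
    (hf : InL F G nF nG q f) {z₀ z₁ x₀ : ℝ} (hz₀ : FixK F G nF nG q z₀)
    (hz₁ : FixK F G nF nG q z₁) (hpos : ∀ y ∈ Ioo z₀ z₁, y < f y) (hx₀ : x₀ ∈ Ioo z₀ z₁)
    {k : ℤ} {c C : ℝ} (hc0 : 0 < c)
    (hc : ∀ x y, x ∈ Icc z₀ z₁ → y ∈ Icc z₀ z₁ → x ≤ y → c * (y - x) ≤ (σ ^ k) y - (σ ^ k) x)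
    {r : ℕ} (hC : ∀ (g : Dif) (t η : ℝ), t ∈ Icc z₀ z₁ → 0 ≤ η → η ≤ 1 →
      (∀ l ≤ r, |iteratedDeriv l (fun y => g y - y) t| ≤ η) →
      ∀ l ≤ r, |iteratedDeriv l (fun y => (σ ^ k * g * (σ ^ k)⁻¹) y - y) ((σ ^ k) t)| ≤ C * η)
    {J₀ J : ℕ} {a η₀ η : ℝ} {s u : Dif} (hs : InL F G nF nG q s) (hη₀ : 0 ≤ η₀) (hη₁ : η₀ ≤ 1)
    (hwin : ∀ y ∈ Icc ((f ^ (-(J₀ : ℤ))) x₀) ((f ^ (J₀ : ℤ)) x₀), a ≤ f y - y ∧
      ∀ j : ℤ, |j| ≤ J₀ → f⁻¹ y ≤ (s ^ j) y ∧ (s ^ j) y ≤ f y ∧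
        ∀ l ≤ r, |iteratedDeriv l (fun t => (s ^ j) t - t) y| ≤ η₀)
    (hu : ∀ j : ℤ, |j| ≤ J → ∃ j' : ℤ, |j'| ≤ J₀ ∧ u ^ j = s ^ j')
    {m : ℤ} (hm : 1 ≤ m) {p : ℝ}
    (hp : ∀ y ∈ Icc (((f ^ m) ^ (-5 : ℤ)) p) (((f ^ m) ^ (5 : ℤ)) p),
      y ∈ Icc ((f ^ (-(J₀ : ℤ))) x₀) ((f ^ (J₀ : ℤ)) x₀)) (hη : C * η₀ ≤ η) :
    Tiny (f ^ m) u r J (c * a) η ((σ ^ k) p) := by
  have hA := h.toAct
  have hσk := hσ.zpow hA k
  have cS : ∀ j : ℤ, Commute ((f ^ m) ^ j) (σ ^ k) := fun j =>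
    ((inL_iff.mp hf).comm hA hσk).zpow_left m |>.zpow_left j
  have cS1 : Commute (f ^ m) (σ ^ k) := by simpa using cS 1
  have cSm : Commute ((f ^ m)⁻¹) (σ ^ k) := cS1.inv_left
  intro y hy
  obtain ⟨t, rfl⟩ : ∃ t, y = (σ ^ k) t := ⟨(σ ^ k)⁻¹ y, by simp⟩
  rw [Dif.comm_apply (cS _), Dif.comm_apply (cS _)] at hy
  have ht : t ∈ Icc (((f ^ m) ^ (-5 : ℤ)) p) (((f ^ m) ^ (5 : ℤ)) p) :=
    ⟨(σ ^ k).le_iff.mp hy.1, (σ ^ k).le_iff.mp hy.2⟩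
  have hW := hp t ht
  have hgap : t ∈ Ioo z₀ z₁ :=
    ⟨lt_of_lt_of_le (gap_maps hz₀ hz₁ (inL_zpow hA hf _) hx₀).1 hW.1,
      lt_of_le_of_lt hW.2 (gap_maps hz₀ hz₁ (inL_zpow hA hf _) hx₀).2⟩
  have hgap' : t ∈ Icc z₀ z₁ := Ioo_subset_Icc_self hgap
  obtain ⟨w1, w2⟩ := hwin t hW
  have hfS : f t ≤ (f ^ m) t := by
    have := gap_mono hA hf hz₀ hz₁ hpos hm hgap
    rwa [zpow_one] at this
  have hfS' : (f ^ m)⁻¹ t ≤ f⁻¹ t := by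
    have := gap_mono hA hf hz₀ hz₁ hpos (m := -m) (m' := -1) (by omega) hgap
    rwa [zpow_neg, zpow_neg, zpow_one] at this
  refine ⟨?_, fun j hj => ?_⟩
  · rw [Dif.comm_apply cS1]
    have h1 := hc t ((f ^ m) t) hgap' (gap_maps' hz₀ hz₁ (inL_zpow hA hf _) hgap')
      ((hpos t hgap).le.trans hfS)
    refine le_trans ?_ h1
    refine mul_le_mul_of_nonneg_left ?_ hc0.le
    linarith
  · obtain ⟨j', hj', hjj⟩ := hu j hj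
    obtain ⟨w3, w4, w5⟩ := w2 j' hj'
    have cs : Commute (s ^ j') (σ ^ k) := ((inL_iff.mp hs).comm hA hσk).zpow_left j'
    rw [hjj]
    refine ⟨?_, ?_, ?_⟩
    · rw [Dif.comm_apply cs, Dif.comm_apply cSm]
      exact (σ ^ k).le_iff.mpr (hfS'.trans w3)
    · rw [Dif.comm_apply cs, Dif.comm_apply cS1]
      exact (σ ^ k).le_iff.mpr (w4.trans hfS)
    · intro l hl
      have h1 := hC (s ^ j') t η₀ hgap' hη₀ hη₁ w5 l hl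
      have e : σ ^ k * s ^ j' * (σ ^ k)⁻¹ = s ^ j' := by
        rw [← cs.eq, mul_inv_cancel_right]
      rw [e] at h1
      exact h1.trans hη

theorem unif_c (σ : Dif) (z₀ z₁ : ℝ) (n : ℕ) : ∃ c, 0 < c ∧ c ≤ 1 ∧ ∀ k : ℤ, |k| ≤ n →
    ∀ x y, x ∈ Icc z₀ z₁ → y ∈ Icc z₀ z₁ → x ≤ y → c * (y - x) ≤ (σ ^ k) y - (σ ^ k) x := by
  choose c hc0 hc using fun k : ℤ => disp_low (σ ^ k) z₀ z₁
  obtain ⟨k₀, -, hk₀⟩ := (Finset.Icc (-(n : ℤ)) n).exists_min_image c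
    ⟨0, by rw [Finset.mem_Icc]; constructor <;> omega⟩
  refine ⟨min (c k₀) 1, lt_min (hc0 _) one_pos, min_le_right _ _, fun k hk x y hx hy hxy => ?_⟩
  refine le_trans ?_ (hc k x y hx hy hxy)
  refine mul_le_mul_of_nonneg_right ?_ (by linarith)
  exact (min_le_left _ _).trans (hk₀ k (by rw [Finset.mem_Icc]; exact abs_le.mp hk))

theorem unif_C (σ : Dif) (z₀ z₁ : ℝ) (r n : ℕ) : ∃ C, 0 < C ∧ ∀ k : ℤ, |k| ≤ n →
    ∀ (g : Dif) (t η : ℝ), t ∈ Icc z₀ z₁ → 0 ≤ η → η ≤ 1 →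
      (∀ l ≤ r, |iteratedDeriv l (fun y => g y - y) t| ≤ η) →
      ∀ l ≤ r, |iteratedDeriv l (fun y => (σ ^ k * g * (σ ^ k)⁻¹) y - y) ((σ ^ k) t)| ≤ C * η := by
  choose C hC0 hC using fun k : ℤ => jet_conj r (σ ^ k) z₀ z₁
  obtain ⟨k₀, -, hk₀⟩ := (Finset.Icc (-(n : ℤ)) n).exists_max_image C
    ⟨0, by rw [Finset.mem_Icc]; constructor <;> omega⟩
  refine ⟨C k₀, hC0 _, fun k hk g t η ht h0 h1 hg l hl => ?_⟩
  refine (hC k g t η ht h0 h1 hg l hl).trans ?_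
  exact mul_le_mul_of_nonneg_right (hk₀ k (by rw [Finset.mem_Icc]; exact abs_le.mp hk)) h0

end Pool.Agent.F88.BA
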