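import Pool.Agent.Lib.MP_f88c17.BAcore

/-!
# The non-flat case: assembly
-/

set_option autoImplicit false

open Set Filter Topology
open scoped ContDiff

namespace Pool.Agent.F88.BA

variable {F G : Dif} {nF nG q : ℤ}

/-- The statement of the task TW. -/
def TwistStmt : Prop :=
  ∀ (r : ℕ), 1 ≤ r → ∀ (E : Fin 3 → Dif) (R ε : ℝ), 0 < ε → ∃ R' δ : ℝ, 0 < δ ∧ R ≤ R' ∧
    ∀ (S s : Dif) (Z : Finset ℝ) (a : ℝ) (J : ℕ) (c : Fin 3 → ℤ),
      (∀ i, Commute S (E i)) → (∀ i, Commute s (E i)) → Commute S s → (∀ z ∈ Z, z < S z) →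
      0 < a → a ≤ 1 → (∀ i, (Z.card : ℤ) + |c i| ≤ J) →
      (∀ j : ℤ, |j| ≤ J → ∀ x, |(s ^ j) x - x| ≤ 1) →
      (∀ z ∈ Z, Tiny S s r J a (δ * a ^ r / (Z.card + 1)) z ∧
        (∀ i, Tiny S s r J a (δ * a ^ r / (Z.card + 1)) (E i z)) ∧
        (∀ i, Tiny S s r J a (δ * a ^ r / (Z.card + 1)) ((E i)⁻¹ z)) ∧
        (∀ i i', Tiny S s r J a (δ * a ^ r / (Z.card + 1)) (E i' ((E i)⁻¹ z)))) →
      (∀ i, ∀ x ∈ Icc (-R') R',
        (∀ z ∈ Z, (x < (S ^ (-3 : ℤ)) z ∨ (S ^ (3 : ℤ)) z < x) ∧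
          ∀ i', (x < (S ^ (-3 : ℤ)) ((E i')⁻¹ z) ∨ (S ^ (3 : ℤ)) ((E i')⁻¹ z) < x)) →
        ((Z.filter (fun z => z < E i x)).card : ℤ) = (Z.filter (fun z => z < x)).card + c i) →
      ∃ ψ : Dif, ∀ i, Near r ε R (ψ * (E i * s ^ (-(c i))) * ψ⁻¹ : Dif) (E i)

/-- Windows around points dominated by powers of `f`. -/
theorem window (h : Rat F G nF nG q) {f : Dif} (hf : InL F G nF nG q f) {z₀ z₁ x₀ : ℝ}
    (hz₀ : FixK F G nF nG q z₀) (hz₁ : FixK F G nF nG q z₁) (hpos : ∀ y ∈ Ioo z₀ z₁, y < f y)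
    (hx₀ : x₀ ∈ Ioo z₀ z₁) {m m₁ : ℤ} {J₀ : ℕ} (hJ : 5 * m + m₁ ≤ J₀) {p : ℝ}
    (hp1 : (f ^ (-m₁)) x₀ ≤ p) (hp2 : p ≤ (f ^ m₁) x₀) :
    ∀ y ∈ Icc (((f ^ m) ^ (-5 : ℤ)) p) (((f ^ m) ^ (5 : ℤ)) p),
      y ∈ Icc ((f ^ (-(J₀ : ℤ))) x₀) ((f ^ (J₀ : ℤ)) x₀) := by
  have hA := h.toAct
  intro y hy
  constructor
  · refine le_trans ?_ hy.1
    have h1 : ((f ^ m) ^ (-5 : ℤ)) ((f ^ (-m₁)) x₀) ≤ ((f ^ m) ^ (-5 : ℤ)) p :=
      ((f ^ m) ^ (-5 : ℤ)).le_iff.mpr hp1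
    refine le_trans ?_ h1
    rw [← Dif.mul_apply, ← zpow_mul, ← zpow_add]
    exact gap_mono hA hf hz₀ hz₁ hpos (by omega) hx₀
  · refine le_trans hy.2 ?_
    have h1 : ((f ^ m) ^ (5 : ℤ)) p ≤ ((f ^ m) ^ (5 : ℤ)) ((f ^ m₁) x₀) :=
      ((f ^ m) ^ (5 : ℤ)).le_iff.mpr hp2
    refine le_trans h1 ?_
    rw [← Dif.mul_apply, ← zpow_mul, ← zpow_add]
    exact gap_mono hA hf hz₀ hz₁ hpos (by omega) hx₀

theorem nonflat_core (h : Rat F G nF nG q) (hTW : TwistStmt)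
    (hNT : ∀ {σ s B : Dif}, (∃ a b c : ℤ, σ = F ^ a * G ^ b * T ^ c ∧ a * nF + b * nG + c * q = 1) →
      InL F G nF nG q s → s ≠ 1 → (∀ γ, InL F G nF nG q γ → Commute B γ) →
      B * σ * B⁻¹ ≠ σ * s)
    (hNF : ∀ {γ : Dif}, InL F G nF nG q γ → γ ≠ 1 → ∀ {z : ℝ}, γ z = z → FixK F G nF nG q z)
    (ht : ∀ r, TinyNear F G nF nG q r) : ¬ Stable F G := by
  rintro ⟨r', R, ε, hε, hst⟩
  have hA := h.toAct
  obtain ⟨r, hr⟩ : ∃ r : ℕ, r = r' + 1 := ⟨_, rfl⟩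
  obtain ⟨f, hf, z₀, z₁, hz₀, hz₁, hz, hpos, hT⟩ := ht r
  obtain ⟨σ, hσ⟩ := exists_sigma h
  have hfix : ∀ γ, InL F G nF nG q γ → γ ≠ 1 → ∀ y ∈ Ioo z₀ z₁, γ y ≠ y := by
    intro γ hγ h1 y hy hyy
    have h2 := hNF hγ h1 hyy f hf
    have h3 := hpos y hy
    rw [h2] at h3
    exact lt_irrefl _ h3
  obtain ⟨E, hEdef⟩ : ∃ E : Fin 3 → Dif, E = ![F, G, T] := ⟨_, rfl⟩
  obtain ⟨v, hvdef⟩ : ∃ v : Fin 3 → ℤ, v = ![nF, nG, q] := ⟨_, rfl⟩
  have hE : ∀ i, Val F G nF nG q (E i) (v i) := by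
    intro i
    rw [hEdef, hvdef]
    fin_cases i
    · exact val_F
    · exact val_G
    · exact val_T
  have hlam : ∀ i, InL F G nF nG q (σ ^ (-(v i)) * E i) := fun i => exists_lam h hσ (hE i)
  have hEl : ∀ i, E i = σ ^ (v i) * (σ ^ (-(v i)) * E i) := fun i => by
    rw [← mul_assoc, ← zpow_add]; simp
  obtain ⟨lam, hlamdef⟩ : ∃ lam : Fin 3 → Dif, lam = fun i => σ ^ (-(v i)) * E i := ⟨_, rfl⟩
  have hlam' : ∀ i, InL F G nF nG q (lam i) := by rw [hlamdef]; exact hlam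
  have hEl' : ∀ i, E i = σ ^ (v i) * lam i := by rw [hlamdef]; exact hEl
  obtain ⟨R', δ, hδ, hRR', htw⟩ := hTW r (by omega) E R ε hε
  choose m hm using fun i => gap_dom hA hf hz₀ hz₁ hz hpos hfix (hlam' i)
  obtain ⟨m₁, hm₁⟩ : ∃ m₁ : ℕ, m₁ = ∑ i, m i := ⟨_, rfl⟩
  have hmm : ∀ i, m i ≤ m₁ := fun i => by
    rw [hm₁]; exact Finset.single_le_sum (fun _ _ => Nat.zero_le _) (Finset.mem_univ i)
  obtain ⟨V, hV⟩ : ∃ V : ℕ, V = ∑ i, (v i).natAbs := ⟨_, rfl⟩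
  have hvV : ∀ i, |v i| ≤ V := fun i => by
    have : (v i).natAbs ≤ V := by
      rw [hV]; exact Finset.single_le_sum (f := fun i => (v i).natAbs)
        (fun _ _ => Nat.zero_le _) (Finset.mem_univ i)
    rw [Int.abs_eq_natAbs]
    exact_mod_cast this
  obtain ⟨K, hK⟩ := exists_nat_ge (R' + |z₀| + 1)
  obtain ⟨qn, hqn⟩ : ∃ qn : ℕ, (qn : ℤ) = q := ⟨q.toNat, Int.toNat_of_nonneg h.q_pos.le⟩
  obtain ⟨N, hN⟩ : ∃ N : ℕ, N = V + 3 + qn * K := ⟨_, rfl⟩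
  obtain ⟨c, hc0, hc1, hc⟩ := unif_c σ z₀ z₁ (N + 2 * V)
  obtain ⟨C, hC0, hC⟩ := unif_C σ z₀ z₁ r (N + 2 * V)
  obtain ⟨M, hM⟩ : ∃ M : ℕ, M = 2 * m₁ + 1 := ⟨_, rfl⟩
  obtain ⟨J, hJ⟩ : ∃ J : ℕ, J = 2 * N + 1 + V := ⟨_, rfl⟩
  obtain ⟨J₀, hJ₀⟩ : ∃ J₀ : ℕ, J₀ = 5 * M + 2 * m₁ + 2 * J := ⟨_, rfl⟩
  obtain ⟨ε', hε'def⟩ : ∃ ε' : ℝ, ε' = min 1 (δ * c ^ r / (C * ((2 * N + 1 : ℕ) + 1))) := ⟨_, rfl⟩
  have hε' : 0 < ε' := by rw [hε'def]; positivity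
  obtain ⟨x₀, hx₀, a, ha, ha1, s, hs, hs1, hwin⟩ := hT J₀ ε' hε'
  obtain ⟨Z, hZ⟩ : ∃ Z : Finset ℝ, Z = (Finset.Icc (-(N : ℤ)) N).image fun k => (σ ^ k) x₀ :=
    ⟨_, rfl⟩
  have hZcard : (Z.card : ℤ) = 2 * N + 1 := by
    rw [hZ]; exact card_Z h hσ x₀ N (by positivity)
  have hZcard' : Z.card = 2 * N + 1 := by exact_mod_cast hZcard
  have hη₀ : 0 ≤ ε' * a ^ r := by positivity
  have hη₁ : ε' * a ^ r ≤ 1 := by
    have h1 : ε' ≤ 1 := by rw [hε'def]; exact min_le_left _ _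
    have h2 : a ^ r ≤ 1 := pow_le_one₀ ha.le ha1
    calc ε' * a ^ r ≤ 1 * 1 := mul_le_mul h1 h2 (by positivity) zero_le_one
      _ = 1 := one_mul 1
  have hη : C * (ε' * a ^ r) ≤ δ * (c * a) ^ r / (Z.card + 1) := by
    have h1 : ε' ≤ δ * c ^ r / (C * ((2 * N + 1 : ℕ) + 1)) := by
      rw [hε'def]; exact min_le_right _ _
    rw [hZcard']
    calc C * (ε' * a ^ r) ≤ C * (δ * c ^ r / (C * ((2 * N + 1 : ℕ) + 1)) * a ^ r) := by gcongr
      _ = δ * (c * a) ^ r / ((2 * N + 1 : ℕ) + 1) := by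
          rw [mul_pow]; field_simp
  have hx₀' : x₀ < σ z₀ := lt_of_lt_of_le hx₀.2 (gap_sigma h hσ hf hz₀ hpos)
  -- the centres are dominated
  have hdom : ∀ i, ∀ y ∈ Ioo z₀ z₁, (f ^ (-(m₁ : ℤ))) y ≤ lam i y ∧ lam i y ≤ (f ^ (m₁ : ℤ)) y :=
    fun i y hy => hm i m₁ (by exact_mod_cast hmm i) y hy
  have hdomM : ∀ i, ∀ y ∈ Ioo z₀ z₁, (f ^ (-(M : ℤ))) y ≤ lam i y ∧ lam i y ≤ (f ^ (M : ℤ)) y :=
    fun i y hy => hm i M (by have := hmm i; omega) y hy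
  have hdomI : ∀ i, ∀ y ∈ Ioo z₀ z₁,
      (f ^ (-(m₁ : ℤ))) y ≤ (lam i)⁻¹ y ∧ (lam i)⁻¹ y ≤ (f ^ (m₁ : ℤ)) y := by
    intro i y hy
    constructor
    · rw [Dif.le_inv_iff]
      have h1 := (hdom i _ (gap_maps hz₀ hz₁ (inL_zpow hA hf (-(m₁ : ℤ))) hy)).2
      rwa [zpow_neg, Dif.apply_inv_self, ← zpow_neg] at h1
    · rw [Dif.inv_le_iff]
      have h1 := (hdom i _ (gap_maps hz₀ hz₁ (inL_zpow hA hf (m₁ : ℤ)) hy)).1
      rwa [zpow_neg, Dif.inv_apply_self] at h1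
  have hmono0 : ∀ y ∈ Ioo z₀ z₁, ∀ k l : ℤ, k ≤ l → (f ^ k) y ≤ (f ^ l) y :=
    fun y hy k l hkl => gap_mono hA hf hz₀ hz₁ hpos hkl hy
  -- the four kinds of centres
  have hp0 : (f ^ (-(2 * m₁ : ℤ))) x₀ ≤ x₀ ∧ x₀ ≤ (f ^ (2 * m₁ : ℤ)) x₀ := by
    have h1 := hmono0 x₀ hx₀ (-(2 * m₁ : ℤ)) 0 (by omega)
    have h2 := hmono0 x₀ hx₀ 0 (2 * m₁ : ℤ) (by omega)
    rw [zpow_zero, Dif.one_apply] at h1 h2
    exact ⟨h1, h2⟩
  have hp1 : ∀ i, (f ^ (-(2 * m₁ : ℤ))) x₀ ≤ lam i x₀ ∧ lam i x₀ ≤ (f ^ (2 * m₁ : ℤ)) x₀ := by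
    intro i
    obtain ⟨h1, h2⟩ := hdom i x₀ hx₀
    exact ⟨(hmono0 x₀ hx₀ _ _ (by omega)).trans h1, h2.trans (hmono0 x₀ hx₀ _ _ (by omega))⟩
  have hp2 : ∀ i, (f ^ (-(2 * m₁ : ℤ))) x₀ ≤ (lam i)⁻¹ x₀ ∧
      (lam i)⁻¹ x₀ ≤ (f ^ (2 * m₁ : ℤ)) x₀ := by
    intro i
    obtain ⟨h1, h2⟩ := hdomI i x₀ hx₀
    exact ⟨(hmono0 x₀ hx₀ _ _ (by omega)).trans h1, h2.trans (hmono0 x₀ hx₀ _ _ (by omega))⟩
  have hp3 : ∀ i i', (f ^ (-(2 * m₁ : ℤ))) x₀ ≤ lam i' ((lam i)⁻¹ x₀) ∧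
      lam i' ((lam i)⁻¹ x₀) ≤ (f ^ (2 * m₁ : ℤ)) x₀ := by
    intro i i'
    have hy : (lam i)⁻¹ x₀ ∈ Ioo z₀ z₁ := gap_maps hz₀ hz₁ (inL_inv hA (hlam' i)) hx₀
    obtain ⟨h1, h2⟩ := hdomI i x₀ hx₀
    obtain ⟨h3, h4⟩ := hdom i' _ hy
    constructor
    · refine le_trans ?_ h3
      have h5 : (f ^ (-(m₁ : ℤ))) ((f ^ (-(m₁ : ℤ))) x₀) ≤ (f ^ (-(m₁ : ℤ))) ((lam i)⁻¹ x₀) :=
        (f ^ (-(m₁ : ℤ))).le_iff.mpr h1
      refine le_trans (le_of_eq ?_) h5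
      rw [← Dif.mul_apply, ← zpow_add]
      congr 3
      ring
    · refine le_trans h4 ?_
      have h5 : (f ^ (m₁ : ℤ)) ((lam i)⁻¹ x₀) ≤ (f ^ (m₁ : ℤ)) ((f ^ (m₁ : ℤ)) x₀) :=
        (f ^ (m₁ : ℤ)).le_iff.mpr h2
      refine le_trans h5 (le_of_eq ?_)
      rw [← Dif.mul_apply, ← zpow_add]
      congr 3
      ring
  -- the main construction
  have main : ∀ u, InL F G nF nG q u →
      (∀ j : ℤ, |j| ≤ J → ∃ j' : ℤ, |j'| ≤ J₀ ∧ u ^ j = s ^ j') →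
      ∃ ψ : Dif, ∀ i, Near r ε R (ψ * (E i * u ^ (-(v i))) * ψ⁻¹ : Dif) (E i) := by
    intro u hu huj
    have tiny : ∀ (k : ℤ) (p : ℝ), |k| ≤ N + 2 * V → (f ^ (-(2 * m₁ : ℤ))) x₀ ≤ p →
        p ≤ (f ^ (2 * m₁ : ℤ)) x₀ →
        Tiny (f ^ (M : ℤ)) u r J (c * a) (δ * (c * a) ^ r / (Z.card + 1)) ((σ ^ k) p) := by
      intro k p hk h1 h2
      exact tiny_at h hσ hf hz₀ hz₁ hpos hx₀ hc0 (hc k (by exact_mod_cast hk))
        (hC k (by exact_mod_cast hk)) hs hη₀ hη₁ hwin huj (by omega)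
        (window h hf hz₀ hz₁ hpos hx₀ (m₁ := 2 * m₁) (by omega) h1 h2) hη
    refine htw (f ^ (M : ℤ)) u Z (c * a) J v
      (fun i => ((inL_iff.mp hf).comm hA (hE i)).zpow_left _)
      (fun i => (inL_iff.mp hu).comm hA (hE i))
      (((inL_iff.mp hf).comm hA (inL_iff.mp hu)).zpow_left _) ?_ (by positivity) ?_ ?_ ?_ ?_ ?_
    · intro z hzZ
      rw [hZ, Finset.mem_image] at hzZ
      obtain ⟨k, hk, rfl⟩ := hzZ
      have cS : Commute (f ^ (M : ℤ)) (σ ^ k) :=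
        ((inL_iff.mp hf).comm hA (hσ.zpow hA k)).zpow_left _
      show (σ ^ k) x₀ < (f ^ (M : ℤ)) ((σ ^ k) x₀)
      rw [Dif.comm_apply cS, (σ ^ k).lt_iff]
      have h1 := hmono0 x₀ hx₀ 1 M (by omega)
      rw [zpow_one] at h1
      exact lt_of_lt_of_le (hpos x₀ hx₀) h1
    · calc c * a ≤ 1 * 1 := mul_le_mul hc1 ha1 ha.le zero_le_one
        _ = 1 := one_mul 1
    · intro i
      have := hvV i
      rw [hZcard]
      omega
    · intro j _ x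
      exact inL_disp h hσ hz₀ (inL_zpow hA hu j) x
    · intro z hzZ
      rw [hZ, Finset.mem_image] at hzZ
      obtain ⟨k, hk, rfl⟩ := hzZ
      rw [Finset.mem_Icc] at hk
      have hkabs : |k| ≤ N := abs_le.mpr hk
      have cl : ∀ i, Commute (lam i) (σ ^ k) := fun i =>
        (inL_iff.mp (hlam' i)).comm hA (hσ.zpow hA k)
      have e1 : ∀ i, ∀ p, E i ((σ ^ k) p) = (σ ^ (k + v i)) (lam i p) := by
        intro i p
        rw [hEl' i, Dif.mul_apply, Dif.comm_apply (cl i), ← Dif.mul_apply, ← zpow_add, add_comm]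
      have e2 : ∀ i, ∀ p, (E i)⁻¹ ((σ ^ k) p) = (σ ^ (k - v i)) ((lam i)⁻¹ p) := by
        intro i p
        have c3 : Commute ((lam i)⁻¹) (σ ^ (-(v i)) * σ ^ k) :=
          ((inL_iff.mp (hlam' i)).comm hA ((hσ.zpow hA _).mul hA (hσ.zpow hA k))).inv_left
        rw [hEl' i, mul_inv_rev, Dif.mul_apply, ← zpow_neg, ← Dif.mul_apply (σ ^ (-(v i))),
          Dif.comm_apply c3, ← zpow_add]
        congr 3
        ring
      refine ⟨tiny k x₀ (by omega) hp0.1 hp0.2, fun i => ?_, fun i => ?_, fun i i' => ?_⟩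
      · rw [e1]
        exact tiny _ _ (by have := hvV i; have := abs_add_le k (v i); omega) (hp1 i).1 (hp1 i).2
      · rw [e2]
        exact tiny _ _ (by have := hvV i; have := abs_sub k (v i); omega) (hp2 i).1 (hp2 i).2
      · rw [e2]
        have cl' : Commute (lam i') (σ ^ (k - v i)) :=
          (inL_iff.mp (hlam' i')).comm hA (hσ.zpow hA _)
        rw [hEl' i', Dif.mul_apply, Dif.comm_apply cl', ← Dif.mul_apply, ← zpow_add]
        refine tiny _ _ ?_ (hp3 i i').1 (hp3 i i').2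
        have h1 := hvV i
        have h2 := hvV i'
        have h3 := abs_sub k (v i)
        have h4 := abs_add_le (v i') (k - v i)
        omega
    · intro i x hx hdeep
      obtain ⟨κ, hκ⟩ := thresh h hσ hz₀ hx₀.1 hx₀' x
      have hvi := abs_le.mp (hvV i)
      have hnV : (N : ℤ) = V + 3 + q * K := by rw [hN, ← hqn]; push_cast; ring
      -- bounds for `κ`
      have hk1 : κ ≤ N - V := by
        by_contra hlt
        push Not at hlt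
        have h1 := (hκ (q * K)).mpr (by omega)
        have h2 : (σ ^ (q * (K : ℤ))) z₀ < (σ ^ (q * (K : ℤ))) x₀ :=
          (σ ^ (q * (K : ℤ))).lt_iff.mpr hx₀.1
        rw [sigma_qk h hσ hz₀] at h2
        have h3 := neg_abs_le z₀
        push_cast at h2
        linarith [hx.2]
      have hk2 : -N + V ≤ κ := by
        by_contra hlt
        push Not at hlt
        have h1 : ¬ (σ ^ (q * (-(K : ℤ)) - 1)) x₀ < x := by
          rw [hκ]
          have : q * (-(K : ℤ)) = -(q * K) := by ring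
          omega
        push Not at h1
        have h2 : (σ ^ (q * (-(K : ℤ)) - 1)) x₀ < (σ ^ (q * (-(K : ℤ)))) z₀ := by
          have e : (σ ^ (q * (-(K : ℤ)))) z₀ = (σ ^ (q * (-(K : ℤ)) - 1)) (σ z₀) := by
            rw [← Dif.mul_apply, ← zpow_add_one]
            congr 3
            ring
          rw [e]
          exact (σ ^ (q * (-(K : ℤ)) - 1)).lt_iff.mpr hx₀'
        rw [sigma_qk h hσ hz₀] at h2
        have h3 := le_abs_self z₀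
        push_cast at h2
        linarith [hx.1]
      -- the threshold of `E x`
      have hκ' : ∀ k : ℤ, (σ ^ k) x₀ < E i x ↔ k < κ + v i := by
        intro k
        have e1 : (σ ^ k) x₀ < E i x ↔ (σ ^ (k - v i)) x₀ < lam i x := by
          rw [hEl' i, Dif.mul_apply]
          have : (σ ^ k) x₀ = (σ ^ (v i)) ((σ ^ (k - v i)) x₀) := by
            rw [← Dif.mul_apply, ← zpow_add]
            congr 3
            ring
          rw [this, (σ ^ (v i)).lt_iff]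
        rw [e1]
        have e2 : (σ ^ (k - v i)) x₀ < lam i x ↔ (σ ^ (k - v i)) x₀ < x := by
          apply deep h hσ hf hz₀ hz₁ hpos hx₀ (hlam' i) (m := M) (by omega) (hdomM i)
          by_cases hin : |k - v i| ≤ N
          · have hmem : (σ ^ (k - v i)) x₀ ∈ Z := by
              rw [hZ, Finset.mem_image]
              exact ⟨k - v i, by rw [Finset.mem_Icc]; exact abs_le.mp hin, rfl⟩
            rcases (hdeep _ hmem).1 with h1 | h1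
            · exact Or.inr (Or.inr (Or.inl h1))
            · exact Or.inr (Or.inr (Or.inr h1))
          · rcases le_or_gt (k - v i) 0 with hneg | hpos'
            · right; left
              have h1 : k - v i < -N := by
                by_contra hcon
                apply hin
                rw [abs_le]
                constructor <;> omega
              -- `σ^(k - v) z₁ ≤ σ^(-qK) z₀`
              have h2 : (σ ^ (k - v i)) z₁ ≤ (σ ^ (k - v i + 1)) z₀ := by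
                rw [zpow_add_one, Dif.mul_apply]
                exact (σ ^ (k - v i)).le_iff.mpr (gap_sigma h hσ hf hz₀ hpos)
              have h3 : (σ ^ (k - v i + 1)) z₀ ≤ (σ ^ (q * (-(K : ℤ)))) z₀ :=
                sigma_le h hσ (by
                  have : q * (-(K : ℤ)) = -(q * K) := by ring
                  omega) z₀
              rw [sigma_qk h hσ hz₀] at h3
              have h4 := le_abs_self z₀
              push_cast at h3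
              linarith [hx.1]
            · left
              have h1 : (N : ℤ) < k - v i := by
                by_contra hcon
                apply hin
                rw [abs_le]
                constructor <;> omega
              have h3 : (σ ^ (q * (K : ℤ))) z₀ ≤ (σ ^ (k - v i)) z₀ :=
                sigma_le h hσ (by omega) z₀
              rw [sigma_qk h hσ hz₀] at h3
              have h4 := neg_abs_le z₀
              push_cast at h3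
              linarith [hx.2]
        rw [e2, hκ]
        omega
      rw [hZ, card_filter h hσ hκ (by omega) (by omega),
        card_filter h hσ hκ' (by omega) (by omega)]
      ring
  -- the conjugacies
  have conj : ∀ u, InL F G nF nG q u →
      (∀ j : ℤ, |j| ≤ J → ∃ j' : ℤ, |j'| ≤ J₀ ∧ u ^ j = s ^ j') →
      ∃ ψ : Dif, ConjTo F G (ψ * (F * u ^ (-nF)) * ψ⁻¹) (ψ * (G * u ^ (-nG)) * ψ⁻¹)
        (ψ * (T * u ^ (-q)) * ψ⁻¹) := by
    intro u hu huj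
    obtain ⟨ψ, hψ⟩ := main u hu huj
    have n0 := hψ 0
    have n1 := hψ 1
    have n2 := hψ 2
    rw [hEdef, hvdef] at n0 n1 n2
    simp only [Matrix.cons_val_zero, Matrix.cons_val_one, Matrix.cons_val] at n0 n1 n2
    have vu := inL_iff.mp hu
    have vF : Val F G nF nG q (F * u ^ (-nF)) (nF + -nF * 0) := val_F.mul hA (vu.zpow hA _)
    have vG : Val F G nF nG q (G * u ^ (-nG)) (nG + -nG * 0) := val_G.mul hA (vu.zpow hA _)
    have vT : Val F G nF nG q (T * u ^ (-q)) (q + -q * 0) := val_T.mul hA (vu.zpow hA _)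
    have cc : ∀ {A B : Dif}, Commute A B → Commute (ψ * A * ψ⁻¹) (ψ * B * ψ⁻¹) := by
      intro A B hAB
      show ψ * A * ψ⁻¹ * (ψ * B * ψ⁻¹) = ψ * B * ψ⁻¹ * (ψ * A * ψ⁻¹)
      have : A * B = B * A := hAB
      calc ψ * A * ψ⁻¹ * (ψ * B * ψ⁻¹) = ψ * (A * B) * ψ⁻¹ := by group
        _ = ψ * (B * A) * ψ⁻¹ := by rw [this]
        _ = _ := by group
    refine ⟨ψ, hst _ _ _ (cc (vF.comm hA vG)) (cc (vF.comm hA vT)) (cc (vG.comm hA vT)) ?_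
      (fun l hl => n0 l (by omega)) (fun l hl => n1 l (by omega)) (fun l hl => n2 l (by omega))⟩
    intro x
    have h1 := vT.lt h (by rw [mul_zero, add_zero]; exact h.q_pos) (ψ⁻¹ x)
    rw [Dif.mul_apply, Dif.mul_apply]
    calc x = ψ (ψ⁻¹ x) := by simp
      _ < _ := ψ.lt_iff.mpr h1
  have hs2 : InL F G nF nG q (s ^ 2) := by
    have := inL_zpow hA hs 2
    exact_mod_cast this
  obtain ⟨ψ₁, hc₁⟩ := conj s hs (fun j hj => ⟨j, by omega, rfl⟩)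
  obtain ⟨ψ₂, hc₂⟩ := conj (s ^ 2) hs2 (fun j hj => ⟨2 * j, by
    rw [abs_mul]
    have : |(2 : ℤ)| = 2 := rfl
    rw [this]
    omega, by
    rw [zpow_mul]
    rfl⟩)
  exact no_conj h hNT hs hs1 hc₁ hc₂

end Pool.Agent.F88.BA
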