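import Pool.Agent.Lib.MP_f88c17.S

/-!
# Task BF: the flat case (helper91)
-/

set_option autoImplicit false

open Set Filter Topology
open scoped ContDiff

namespace Pool.Agent.F88

namespace BF

/-! ### Piecewise smooth functions -/

/-- `f` on the left of `a`, `g` on the right -/
noncomputable def pw (a : ℝ) (f g : ℝ → ℝ) (x : ℝ) : ℝ := if x < a then f x else g x

theorem pw_left {a : ℝ} {f g : ℝ → ℝ} {x : ℝ} (hx : x < a) : pw a f g x = f x := by
  simp [pw, hx]

theorem pw_right {a : ℝ} {f g : ℝ → ℝ} {x : ℝ} (hx : a ≤ x) : pw a f g x = g x := by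
  simp [pw, not_lt.2 hx]

theorem pw_hasDerivAt {a : ℝ} {f g : ℝ → ℝ} (hf : ContDiff ℝ ∞ f) (hg : ContDiff ℝ ∞ g)
    (h0 : f a = g a) (h1 : deriv f a = deriv g a) (x : ℝ) :
    HasDerivAt (pw a f g) (pw a (deriv f) (deriv g) x) x := by
  have df : ∀ x, HasDerivAt f (deriv f x) x := fun x => (hf.differentiable (by simp) x).hasDerivAt
  have dg : ∀ x, HasDerivAt g (deriv g x) x := fun x => (hg.differentiable (by simp) x).hasDerivAt
  rcases lt_trichotomy x a with hx | hx | hx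
  · rw [pw_left hx]
    refine (df x).congr_of_eventuallyEq ?_
    filter_upwards [gt_mem_nhds hx] with y hy using pw_left hy
  · subst hx
    rw [pw_right le_rfl]
    have e1 : HasDerivWithinAt (pw x f g) (deriv g x) (Iic x) x := by
      rw [← h1]
      refine (df x).hasDerivWithinAt.congr (fun y hy => ?_) ?_
      · rcases lt_or_eq_of_le (mem_Iic.1 hy) with h | h
        · exact pw_left h
        · rw [h, pw_right le_rfl, h0]
      · rw [pw_right le_rfl, h0]
    have e2 : HasDerivWithinAt (pw x f g) (deriv g x) (Ici x) x :=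
      (dg x).hasDerivWithinAt.congr (fun y hy => pw_right hy) (pw_right le_rfl)
    have := e1.union e2
    rwa [Iic_union_Ici, hasDerivWithinAt_univ] at this
  · rw [pw_right hx.le]
    refine (dg x).congr_of_eventuallyEq ?_
    filter_upwards [lt_mem_nhds hx] with y hy using pw_right (le_of_lt hy)

theorem pw_contDiff {a : ℝ} {f g : ℝ → ℝ} (hf : ContDiff ℝ ∞ f) (hg : ContDiff ℝ ∞ g)
    (h : ∀ l, iteratedDeriv l f a = iteratedDeriv l g a) : ContDiff ℝ ∞ (pw a f g) := by
  rw [contDiff_infty]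
  intro n
  induction n generalizing f g with
  | zero =>
    have h0 : f a = g a := by simpa using h 0
    have h1 : deriv f a = deriv g a := by simpa using h 1
    have : Differentiable ℝ (pw a f g) := fun x => (pw_hasDerivAt hf hg h0 h1 x).differentiableAt
    exact contDiff_zero.2 this.continuous
  | succ n ih =>
    have h0 : f a = g a := by simpa using h 0
    have h1 : deriv f a = deriv g a := by simpa using h 1
    have hd := pw_hasDerivAt hf hg h0 h1
    have e : deriv (pw a f g) = pw a (deriv f) (deriv g) := funext fun x => (hd x).deriv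
    push_cast
    rw [contDiff_succ_iff_deriv]
    refine ⟨fun x => (hd x).differentiableAt, ?_, ?_⟩
    · intro hn
      exact absurd hn (by simp)
    · rw [e]
      apply ih (contDiff_infty_iff_deriv.1 hf).2 (contDiff_infty_iff_deriv.1 hg).2
      intro l
      have := h (l + 1)
      simpa only [iteratedDeriv_succ'] using this

/-! ### Supports -/

/-- `P` is the identity outside of `(u, v)`. -/
def Sup (P : Dif) (u v : ℝ) : Prop := ∀ x, x ≤ u ∨ v ≤ x → P x = x

theorem Sup.one (u v : ℝ) : Sup 1 u v := fun _ _ => rfl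

theorem Sup.mul {P Q : Dif} {u v : ℝ} (hP : Sup P u v) (hQ : Sup Q u v) : Sup (P * Q) u v := by
  intro x hx
  rw [Dif.mul_apply, hQ x hx, hP x hx]

theorem Sup.inv {P : Dif} {u v : ℝ} (hP : Sup P u v) : Sup P⁻¹ u v := by
  intro x hx
  apply P.injective
  show P (P⁻¹ x) = P x
  rw [Dif.apply_inv_self, hP x hx]

theorem Sup.pow {P : Dif} {u v : ℝ} (hP : Sup P u v) (n : ℕ) : Sup (P ^ n) u v := by
  induction n with
  | zero => rw [pow_zero]; exact Sup.one u v
  | succ n ih => rw [pow_succ]; exact ih.mul hP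

theorem Sup.zpow {P : Dif} {u v : ℝ} (hP : Sup P u v) (n : ℤ) : Sup (P ^ n) u v := by
  cases n with
  | ofNat n => simpa using hP.pow n
  | negSucc n => rw [zpow_negSucc]; exact (hP.pow _).inv

theorem Sup.conj {P : Dif} {u v : ℝ} (hP : Sup P u v) (g : Dif) :
    Sup (g * P * g⁻¹) (g u) (g v) := by
  intro x hx
  simp only [Dif.mul_apply]
  rw [hP (g⁻¹ x), Dif.apply_inv_self]
  rcases hx with hx | hx
  · left; rw [g.inv_le_iff]; exact hx
  · right; rw [g.le_inv_iff]; exact hx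

theorem Sup.mono {P : Dif} {u v u' v' : ℝ} (hP : Sup P u v) (hu : u' ≤ u) (hv : v ≤ v') :
    Sup P u' v' := by
  intro x hx
  apply hP
  rcases hx with hx | hx
  · left; linarith
  · right; linarith

theorem Sup.mapsTo {P : Dif} {u v : ℝ} (hP : Sup P u v) {x : ℝ} (h1 : u ≤ x) (h2 : x < v) :
    u ≤ P x ∧ P x < v := by
  constructor
  · rw [← hP u (Or.inl le_rfl)]; exact P.le_iff.2 h1
  · rw [← hP v (Or.inr le_rfl)]; exact P.lt_iff.2 h2

theorem Sup.mapsTo' {P : Dif} {u v : ℝ} (hP : Sup P u v) {x : ℝ} (h1 : u < x) (h2 : x < v) :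
    u < P x ∧ P x < v := by
  constructor
  · rw [← hP u (Or.inl le_rfl)]; exact P.lt_iff.2 h1
  · rw [← hP v (Or.inr le_rfl)]; exact P.lt_iff.2 h2

/-- disjoint supports commute -/
theorem Sup.commute {P Q : Dif} {u v w : ℝ} (hP : Sup P u v) (hQ : Sup Q v w) :
    Commute P Q := by
  apply Dif.commute_of_apply
  intro x
  rcases le_or_gt v x with hx | hx
  · rw [hP x (Or.inr hx)]
    have : v ≤ Q x := by
      rw [← hQ v (Or.inl le_rfl)]; exact Q.le_iff.2 hx
    rw [hP _ (Or.inr this)]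
  · rw [hQ x (Or.inl hx.le)]
    have : P x ≤ v := by
      rw [← hP v (Or.inr le_rfl)]; exact P.le_iff.2 hx.le
    rw [hQ _ (Or.inl this)]

/-! ### Cutting a diffeomorphism at two flat fixed points -/

theorem iteratedDeriv_congr_id {f g : ℝ → ℝ} {a : ℝ} (h : f =ᶠ[𝓝 a] g) (l : ℕ) :
    iteratedDeriv l f a = iteratedDeriv l g a := h.iteratedDeriv_eq l

theorem exists_cut (lam : Dif) {u v : ℝ} (huv : u < v) (hu : FlatAt lam u) (hv : FlatAt lam v) :
    ∃ P : Dif, Sup P u v ∧ ∀ x, u ≤ x → x ≤ v → P x = lam x := by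
  have s1 : ContDiff ℝ ∞ (pw u (fun x => x) (fun x => lam x)) :=
    pw_contDiff contDiff_id lam.contDiff (fun l => (hu l).symm)
  have e1 : pw u (fun x => x) (fun x => lam x) =ᶠ[𝓝 v] fun x => lam x := by
    filter_upwards [lt_mem_nhds huv] with y hy using pw_right (le_of_lt hy)
  have s2 : ContDiff ℝ ∞ (pw v (pw u (fun x => x) (fun x => lam x)) (fun x => x)) :=
    pw_contDiff s1 contDiff_id (fun l => by rw [e1.iteratedDeriv_eq l]; exact hv l)
  set h := pw v (pw u (fun x => x) (fun x => lam x)) (fun x => x) with hh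
  have lu : lam u = u := by simpa using hu 0
  have lv : lam v = v := by simpa using hv 0
  have hmid : ∀ x, u ≤ x → x ≤ v → h x = lam x := by
    intro x h1 h2
    rcases h2.lt_or_eq with h2 | h2
    · rw [hh, pw_left h2, pw_right h1]
    · rw [hh, h2, pw_right le_rfl, lv]
  have hout : ∀ x, x ≤ u ∨ v ≤ x → h x = x := by
    intro x hx
    rcases hx with hx | hx
    · rcases hx.lt_or_eq with h1 | h1
      · rw [hh, pw_left (h1.trans huv), pw_left h1]
      · rw [h1, hmid u le_rfl huv.le, lu]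
    · rw [hh, pw_right hx]
  have hpos : ∀ x, 0 < deriv h x := by
    intro x
    have dl : deriv (fun x => lam x) u = 1 := by
      have := hu 1
      simpa using this
    have dv : deriv (fun x => lam x) v = 1 := by
      have := hv 1
      simpa using this
    have did : ∀ x : ℝ, deriv (fun y : ℝ => y) x = 1 := fun x => by simp
    have k1 : ∀ x, deriv (pw u (fun x => x) (fun x => lam x)) x
        = pw u (deriv fun x => x) (deriv fun x => lam x) x := fun x =>
      (pw_hasDerivAt (f := fun x => x) contDiff_id lam.contDiff lu.symm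
        (by rw [did, dl]) x).deriv
    have k2 : deriv h x = pw v (deriv (pw u (fun x => x) (fun x => lam x))) (deriv fun x => x) x :=
      (pw_hasDerivAt (g := fun x => x) s1 contDiff_id (by rw [pw_right huv.le, lv])
        (by rw [k1, pw_right huv.le, dv, did]) x).deriv
    rw [k2]
    rcases lt_or_ge x v with h1 | h1
    · rw [pw_left h1, k1]
      rcases lt_or_ge x u with h2 | h2
      · rw [pw_left h2, did]; norm_num
      · rw [pw_right h2]; exact lam.deriv_pos x
    · rw [pw_right h1, did]; norm_num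
  refine ⟨Dif.ofPos h s2 hpos ?_ ?_, hout, hmid⟩
  · refine tendsto_id.congr' ?_
    filter_upwards [eventually_ge_atTop v] with x hx using (hout x (Or.inr hx)).symm
  · refine tendsto_id.congr' ?_
    filter_upwards [eventually_le_atBot u] with x hx using (hout x (Or.inl hx)).symm

/-! ### Gluing equivariantly -/

theorem exists_glue {σ : Dif} (hσ : ∀ x, x < σ x) (z : ℝ) :
    ∃ Gl : Dif → Dif, (∀ P, Sup P z (σ z) →
      (∀ (n : ℤ) (x : ℝ), (σ ^ n) z ≤ x → x < (σ ^ (n + 1)) z →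
        Gl P x = (σ ^ n * P * σ ^ (-n)) x) ∧
      ∀ (n : ℤ) (x : ℝ), (σ ^ (n - 1)) z < x → x < (σ ^ (n + 1)) z →
        Gl P x = ((σ ^ (n - 1) * P * σ ^ (-(n - 1))) * (σ ^ n * P * σ ^ (-n))) x) := by
  classical
  have hex : ∀ P : Dif, ∃ Q : Dif, Sup P z (σ z) →
      (∀ (n : ℤ) (x : ℝ), (σ ^ n) z ≤ x → x < (σ ^ (n + 1)) z →
        Q x = (σ ^ n * P * σ ^ (-n)) x) ∧
      ∀ (n : ℤ) (x : ℝ), (σ ^ (n - 1)) z < x → x < (σ ^ (n + 1)) z →
        Q x = ((σ ^ (n - 1) * P * σ ^ (-(n - 1))) * (σ ^ n * P * σ ^ (-n))) x := by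
    intro P
    by_cases hP : Sup P z (σ z)
    swap
    · exact ⟨1, fun h => absurd h hP⟩
    choose N hN1 hN2 using fun x => S.exists_index hσ z x
    have hsup : ∀ n : ℤ, Sup (σ ^ n * P * σ ^ (-n)) ((σ ^ n) z) ((σ ^ (n + 1)) z) := by
      intro n
      have := hP.conj (σ ^ n)
      rw [← zpow_neg] at this
      rw [S.zpow_add_one_apply']
      exact this
    let ψ : ℝ → ℝ := fun x => (σ ^ (N x) * P * σ ^ (-(N x))) x
    have h1 : ∀ (n : ℤ) (x : ℝ), (σ ^ n) z ≤ x → x < (σ ^ (n + 1)) z →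
        ψ x = (σ ^ n * P * σ ^ (-n)) x := by
      intro n x hx1 hx2
      have : N x = n := S.index_unique hσ (hN1 x) (hN2 x) hx1 hx2
      show (σ ^ (N x) * P * σ ^ (-(N x))) x = _
      rw [this]
    have h2 : ∀ (n : ℤ) (x : ℝ), (σ ^ (n - 1)) z < x → x < (σ ^ (n + 1)) z →
        ψ x = ((σ ^ (n - 1) * P * σ ^ (-(n - 1))) * (σ ^ n * P * σ ^ (-n))) x := by
      intro n x hx1 hx2
      rw [Dif.mul_apply]
      have hsm := hsup (n - 1)
      rw [sub_add_cancel] at hsm
      rcases le_or_gt ((σ ^ n) z) x with hx | hx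
      · rw [h1 n x hx hx2]
        have := (hsup n).mapsTo hx hx2
        rw [hsm _ (Or.inr this.1)]
      · rw [(hsup n) x (Or.inl hx.le)]
        exact h1 (n - 1) x hx1.le (by rwa [sub_add_cancel])
    have hval : ∀ c : ℤ, ψ ((σ ^ c) z) = (σ ^ c) z := by
      intro c
      rw [h1 c _ le_rfl (S.strictMono_zpow hσ z (by omega))]
      exact hsup c _ (Or.inl le_rfl)
    obtain ⟨f, hf⟩ := S.exists_dif_of_local ψ (fun x => ⟨_, by
      have m1 : ∀ᶠ y in 𝓝 x, (σ ^ (N x - 1)) z < y := lt_mem_nhds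
        (lt_of_lt_of_le (S.strictMono_zpow hσ z (by omega)) (hN1 x))
      filter_upwards [m1, gt_mem_nhds (hN2 x)] with y hy1 hy2
      exact h2 (N x) y hy1 hy2⟩)
      (fun b => by
        obtain ⟨c, hc1, hc2⟩ := S.exists_index hσ z b
        exact ⟨(σ ^ (c + 1)) z, by rw [hval]; exact hc2.le⟩)
      (fun b => by
        obtain ⟨c, hc1, hc2⟩ := S.exists_index hσ z b
        exact ⟨(σ ^ c) z, by rw [hval]; exact hc1⟩)
    refine ⟨f, fun _ => ⟨fun n x a1 a2 => ?_, fun n x a1 a2 => ?_⟩⟩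
    · rw [hf]; exact h1 n x a1 a2
    · rw [hf]; exact h2 n x a1 a2
  choose Gl hGl using hex
  exact ⟨Gl, fun P hP => hGl P hP⟩

/-! ### The two bumps -/

theorem exists_e (z : ℝ) {d : ℝ} (hd : 0 < d) : ∃ (g : ℝ → ℝ) (η₀ : ℝ), ContDiff ℝ ∞ g ∧
    g z = 1 ∧ (∀ x, z + d ≤ x → g x = 0) ∧ 0 < η₀ ∧
    ∀ η, 0 < η → η < η₀ → ∃ e : Dif, ∀ x, e x = x + η * g x := by
  set g : ℝ → ℝ := fun x => Real.smoothTransition ((z + d - x) / (d / 2)) with hg
  have hgs : ContDiff ℝ ∞ g :=
    Real.smoothTransition.contDiff.comp ((contDiff_const.sub contDiff_id).div_const _)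
  have g1 : ∀ x, x ≤ z + d / 2 → g x = 1 := by
    intro x hx
    apply Real.smoothTransition.one_of_one_le
    rw [le_div_iff₀ (by positivity)]; linarith
  have g0 : ∀ x, z + d ≤ x → g x = 0 := by
    intro x hx
    apply Real.smoothTransition.zero_of_nonpos
    apply div_nonpos_of_nonpos_of_nonneg <;> linarith
  have hgc : Continuous (deriv g) := (contDiff_infty_iff_deriv.1 hgs).2.continuous
  obtain ⟨B, hB⟩ := (isCompact_Icc (a := z) (b := z + 2 * d)).exists_bound_of_continuousOn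
    hgc.continuousOn
  have hB' : ∀ x, |deriv g x| ≤ |B| := by
    intro x
    rcases lt_or_ge x z with h1 | h1
    · have : g =ᶠ[𝓝 x] fun _ => 1 := by
        filter_upwards [gt_mem_nhds h1] with y hy using g1 y (by linarith)
      rw [this.deriv_eq]; simp
    · rcases le_or_gt x (z + 2 * d) with h2 | h2
      · exact (hB x ⟨h1, h2⟩).trans (le_abs_self B)
      · have : g =ᶠ[𝓝 x] fun _ => 0 := by
          filter_upwards [lt_mem_nhds h2] with y hy using g0 y (by linarith)
        rw [this.deriv_eq]; simp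
  refine ⟨g, 1 / (|B| + 1), hgs, g1 z (by linarith), g0, by positivity, fun η h1 h2 => ?_⟩
  have hd' : ∀ x, HasDerivAt (fun x => x + η * g x) (1 + η * deriv g x) x := by
    intro x
    exact (hasDerivAt_id x).add (((hgs.differentiable (by simp)) x).hasDerivAt.const_mul η)
  have hpos : ∀ x, 0 < deriv (fun x => x + η * g x) x := by
    intro x
    rw [(hd' x).deriv]
    have h3 : |η * deriv g x| < 1 := by
      rw [abs_mul, abs_of_pos h1]
      have hB0 := abs_nonneg B
      rw [lt_div_iff₀ (by positivity)] at h2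
      nlinarith [hB' x, abs_nonneg (deriv g x)]
    linarith [(abs_lt.1 h3).1]
  refine ⟨Dif.ofPos (fun x => x + η * g x) (contDiff_id.add (contDiff_const.mul hgs)) hpos ?_ ?_,
    fun x => rfl⟩
  · refine tendsto_id.congr' ?_
    filter_upwards [eventually_ge_atTop (z + d)] with x hx
    simp [g0 x hx]
  · refine (tendsto_atBot_add_const_right _ η tendsto_id).congr' ?_
    filter_upwards [eventually_le_atBot z] with x hx
    simp [g1 x (by linarith)]

theorem compact_iteratedDeriv {f : ℝ → ℝ} (hf : HasCompactSupport f) (k : ℕ) :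
    HasCompactSupport (iteratedDeriv k f) := by
  induction k with
  | zero => simpa using hf
  | succ k ih => rw [iteratedDeriv_succ]; exact ih.deriv

theorem exists_b {u v : ℝ} (huv : u < v) (r : ℕ) : ∃ (p : ℝ) (β : ℝ → ℝ) (B : ℝ),
    u < p ∧ p < v ∧ ContDiff ℝ ∞ β ∧ (∀ x, x ≤ u ∨ v ≤ x → β x = 0) ∧ β p = 0 ∧
    deriv β p = 1 ∧ 0 < B ∧ (∀ k ≤ r, ∀ x, |iteratedDeriv k β x| ≤ B) ∧
    ∀ s, 0 < s → s * B < 1 → ∃ b : Dif, ∀ x, b x = x + s * β x := by
  set p := (u + v) / 2 with hp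
  let bm : ContDiffBump p := ⟨(v - u) / 8, (v - u) / 4, by linarith, by linarith⟩
  set β : ℝ → ℝ := fun x => (x - p) * bm x with hβ
  have hβs : ContDiff ℝ ∞ β := (contDiff_id.sub contDiff_const).mul bm.contDiff
  have hβc : HasCompactSupport β :=
    HasCompactSupport.mul_left (f := fun x => x - p) bm.hasCompactSupport
  have hβ0 : ∀ x, x ≤ u ∨ v ≤ x → β x = 0 := by
    intro x hx
    have : bm x = 0 := by
      apply bm.zero_of_le_dist
      show (v - u) / 4 ≤ dist x p
      rw [Real.dist_eq]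
      rcases hx with hx | hx
      · rw [abs_of_neg (by linarith)]; linarith
      · rw [abs_of_pos (by linarith)]; linarith
    simp [hβ, this]
  have hb1 : bm p = 1 := bm.one_of_mem_closedBall (Metric.mem_closedBall_self (by
    show 0 ≤ (v - u) / 8; linarith))
  have hder : deriv β p = 1 := by
    have h1 : HasDerivAt β (1 * bm p + (p - p) * deriv bm p) p :=
      ((hasDerivAt_id p).sub_const p).mul
        (((bm.contDiff (n := 1)).differentiable (by simp)) p).hasDerivAt
    rw [h1.deriv, hb1]; ring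
  have hbd : ∀ k, ∃ B, ∀ x, |iteratedDeriv k β x| ≤ B := fun k =>
    (hβs.continuous_iteratedDeriv k (by exact_mod_cast le_top)).bounded_above_of_compact_support
      (compact_iteratedDeriv hβc k)
  choose Bk hBk using hbd
  have hBk0 : ∀ k, 0 ≤ Bk k := fun k => (abs_nonneg _).trans (hBk k 0)
  set B := 1 + ∑ k ∈ Finset.range (r + 2), Bk k with hB
  have hBle : ∀ k, k < r + 2 → Bk k ≤ B := by
    intro k hk
    have := Finset.single_le_sum (f := Bk) (fun k _ => hBk0 k) (Finset.mem_range.2 hk)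
    linarith
  have hBpos : 0 < B := by
    have : 0 ≤ ∑ k ∈ Finset.range (r + 2), Bk k := Finset.sum_nonneg (fun k _ => hBk0 k)
    linarith
  refine ⟨p, β, B, by linarith, by linarith, hβs, hβ0, by simp [hβ], hder, hBpos,
    fun k hk x => (hBk k x).trans (hBle k (by omega)), fun s hs0 hs => ?_⟩
  have hd' : ∀ x, HasDerivAt (fun x => x + s * β x) (1 + s * deriv β x) x := by
    intro x
    exact (hasDerivAt_id x).add (((hβs.differentiable (by simp)) x).hasDerivAt.const_mul s)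
  have hpos : ∀ x, 0 < deriv (fun x => x + s * β x) x := by
    intro x
    rw [(hd' x).deriv]
    have h3 : |s * deriv β x| < 1 := by
      rw [abs_mul, abs_of_pos hs0]
      have h4 := (hBk 1 x).trans (hBle 1 (by omega))
      rw [iteratedDeriv_one] at h4
      nlinarith
    linarith [(abs_lt.1 h3).1]
  refine ⟨Dif.ofPos (fun x => x + s * β x) (contDiff_id.add (contDiff_const.mul hβs)) hpos ?_ ?_,
    fun x => rfl⟩
  · refine tendsto_id.congr' ?_
    filter_upwards [eventually_ge_atTop v] with x hx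
    simp [hβ0 x (Or.inr hx)]
  · refine tendsto_id.congr' ?_
    filter_upwards [eventually_le_atBot u] with x hx
    simp [hβ0 x (Or.inl hx)]

/-! ### Countably many multipliers -/

theorem countable_mult (f : Dif) : {m : ℝ | ∃ (y : ℝ) (k : ℤ), f y = y + k ∧
    deriv (fun y => f y) y = m ∧ m ≠ 1}.Countable := by
  have h1 : ∀ k : ℤ, {y : ℝ | f y = y + k ∧ deriv (fun y => f y) y ≠ 1}.Countable := by
    intro k
    set s := {y : ℝ | f y = y + k ∧ deriv (fun y => f y) y ≠ 1} with hs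
    refine (countable_setOfPred_isolated_right_within (s := s)).mono ?_
    intro y hy
    refine ⟨hy, ?_⟩
    have hd : HasDerivAt (fun y => f y - y) (deriv (fun y => f y) y - 1) y :=
      ((f.differentiable y).hasDerivAt).sub (hasDerivAt_id y)
    have h2 := hd.eventually_ne (c := (k : ℝ)) (sub_ne_zero.2 hy.2)
    rw [← empty_mem_iff_bot]
    have h3 : ∀ᶠ w in 𝓝[s ∩ Ioi y] y, f w - w ≠ k := by
      refine h2.filter_mono (nhdsWithin_mono _ ?_)
      intro w hw
      exact (ne_of_gt hw.2)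
    have h4 : ∀ᶠ w in 𝓝[s ∩ Ioi y] y, w ∈ s ∩ Ioi y := self_mem_nhdsWithin
    have h5 : ∀ᶠ w in 𝓝[s ∩ Ioi y] y, False := by
      filter_upwards [h3, h4] with w hw1 hw2
      apply hw1
      rw [hw2.1.1]; ring
    exact h5
  have h2 := (countable_iUnion h1).image (fun y => deriv (fun y => f y) y)
  refine h2.mono ?_
  rintro m ⟨y, k, hy1, hy2, hy3⟩
  exact ⟨y, mem_iUnion.2 ⟨k, hy1, by rw [hy2]; exact hy3⟩, hy2⟩

theorem exists_good_s {D : Set ℝ} (hD : D.Countable) {n : ℕ} (hn : 0 < n) {s₀ : ℝ}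
    (hs₀ : 0 < s₀) : ∃ s, 0 < s ∧ s < s₀ ∧ (1 + s) ^ n ∉ D := by
  by_contra hcon
  push Not at hcon
  have h1 : Ioo (0 : ℝ) s₀ ⊆ Ioo 0 s₀ ∩ (fun s => (1 + s) ^ n) ⁻¹' D := by
    intro s hs
    exact ⟨hs, hcon s hs.1 hs.2⟩
  have hinj : InjOn (fun s : ℝ => (1 + s) ^ n) (Ioo 0 s₀) := by
    intro a ha b hb hab
    have := (pow_left_inj₀ (by linarith [ha.1] : (0:ℝ) ≤ 1 + a)
      (by linarith [hb.1]) hn.ne').1 hab
    linarith
  have h2 : (Ioo (0 : ℝ) s₀).Countable := by
    have h3 : ((fun s : ℝ => (1 + s) ^ n) '' Ioo 0 s₀).Countable := by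
      refine hD.mono ?_
      rintro _ ⟨s, hs, rfl⟩
      exact hcon s hs.1 hs.2
    exact Set.countable_of_injective_of_countable_image hinj h3
  rw [Cardinal.Real.Ioo_countable_iff] at h2
  linarith

/-! ### Group theory of the gluing -/

section glue

variable {σ : Dif} {z : ℝ} {Gl : Dif → Dif}

theorem glue_mapsTo (hGl : ∀ P, Sup P z (σ z) →
      (∀ (n : ℤ) (x : ℝ), (σ ^ n) z ≤ x → x < (σ ^ (n + 1)) z →
        Gl P x = (σ ^ n * P * σ ^ (-n)) x)) {P : Dif} (hP : Sup P z (σ z)) {n : ℤ} {x : ℝ}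
    (h1 : (σ ^ n) z ≤ x) (h2 : x < (σ ^ (n + 1)) z) :
    (σ ^ n) z ≤ Gl P x ∧ Gl P x < (σ ^ (n + 1)) z := by
  rw [hGl P hP n x h1 h2]
  have := hP.conj (σ ^ n)
  rw [← zpow_neg] at this
  rw [S.zpow_add_one_apply'] at h2 ⊢
  exact this.mapsTo h1 h2

theorem glue_mul (hσ : ∀ x, x < σ x) (hGl : ∀ P, Sup P z (σ z) →
      (∀ (n : ℤ) (x : ℝ), (σ ^ n) z ≤ x → x < (σ ^ (n + 1)) z →
        Gl P x = (σ ^ n * P * σ ^ (-n)) x)) {P Q : Dif} (hP : Sup P z (σ z))
    (hQ : Sup Q z (σ z)) : Gl (P * Q) = Gl P * Gl Q := by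
  ext x
  obtain ⟨n, h1, h2⟩ := S.exists_index hσ z x
  obtain ⟨h3, h4⟩ := glue_mapsTo hGl hQ h1 h2
  rw [Dif.mul_apply, hGl _ (hP.mul hQ) n x h1 h2, hGl P hP n _ h3 h4, hGl Q hQ n x h1 h2]
  simp only [Dif.mul_apply]
  rw [← Dif.mul_apply (σ ^ (-n)) (σ ^ n), ← zpow_add, neg_add_cancel, zpow_zero, Dif.one_apply]

theorem glue_commute (hσ : ∀ x, x < σ x) (hGl : ∀ P, Sup P z (σ z) →
      (∀ (n : ℤ) (x : ℝ), (σ ^ n) z ≤ x → x < (σ ^ (n + 1)) z →
        Gl P x = (σ ^ n * P * σ ^ (-n)) x)) {P Q : Dif} (hP : Sup P z (σ z))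
    (hQ : Sup Q z (σ z)) (h : Commute P Q) : Commute (Gl P) (Gl Q) := by
  show Gl P * Gl Q = Gl Q * Gl P
  rw [← glue_mul hσ hGl hP hQ, ← glue_mul hσ hGl hQ hP, h.eq]

theorem glue_commute_sigma (hσ : ∀ x, x < σ x) (hGl : ∀ P, Sup P z (σ z) →
      (∀ (n : ℤ) (x : ℝ), (σ ^ n) z ≤ x → x < (σ ^ (n + 1)) z →
        Gl P x = (σ ^ n * P * σ ^ (-n)) x)) {P : Dif} (hP : Sup P z (σ z)) :
    Commute (Gl P) σ := by
  apply Dif.commute_of_apply
  intro x
  obtain ⟨n, h1, h2⟩ := S.exists_index hσ z x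
  have h3 : (σ ^ (n + 1)) z ≤ σ x := by
    rw [S.zpow_add_one_apply, σ.le_iff]; exact h1
  have h4 : σ x < (σ ^ (n + 1 + 1)) z := by
    rw [S.zpow_add_one_apply, σ.lt_iff]; exact h2
  rw [hGl P hP (n + 1) _ h3 h4, hGl P hP n x h1 h2]
  have e1 : (σ ^ (-(n + 1))) (σ x) = (σ ^ (-n)) x := by
    rw [← S.zpow_add_one_apply']; congr 1; ring_nf
  simp only [Dif.mul_apply, e1, S.zpow_add_one_apply]

end glue

/-- powers of locally equal maps -/
theorem pow_eq_of_eqOn {f g : Dif} {u v : ℝ} (hfg : ∀ x, u ≤ x → x < v → f x = g x)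
    (hg : Sup g u v) (n : ℤ) : ∀ x, u ≤ x → x < v → (f ^ n) x = (g ^ n) x := by
  have hnat : ∀ (f g : Dif), (∀ x, u ≤ x → x < v → f x = g x) → Sup g u v → ∀ (n : ℕ) (x : ℝ),
      u ≤ x → x < v → (f ^ n) x = (g ^ n) x := by
    intro f g hfg hg n
    induction n with
    | zero => intro x _ _; simp
    | succ n ih =>
      intro x h1 h2
      rw [pow_succ', pow_succ', Dif.mul_apply, Dif.mul_apply, ih x h1 h2]
      obtain ⟨h3, h4⟩ := (hg.pow n).mapsTo h1 h2
      exact hfg _ h3 h4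
  cases n with
  | ofNat n => intro x h1 h2; simpa using hnat f g hfg hg n x h1 h2
  | negSucc n =>
    intro x h1 h2
    rw [zpow_negSucc, zpow_negSucc, ← inv_pow, ← inv_pow]
    refine hnat f⁻¹ g⁻¹ ?_ hg.inv (n + 1) x h1 h2
    intro y h3 h4
    obtain ⟨h5, h6⟩ := hg.inv.mapsTo h3 h4
    have := hfg _ h5 h6
    rw [Dif.apply_inv_self] at this
    apply f.injective
    show f (f⁻¹ y) = f (g⁻¹ y)
    rw [Dif.apply_inv_self, this]

theorem deriv_pow_fixed {f : Dif} {p : ℝ} (hp : f p = p) (n : ℕ) :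
    deriv (fun y => (f ^ n : Dif) y) p = (deriv (fun y => f y) p) ^ n ∧ (f ^ n) p = p := by
  induction n with
  | zero =>
    constructor
    · rw [pow_zero, pow_zero]
      have : (fun y : ℝ => (1 : Dif) y) = fun y => y := rfl
      rw [this]; simp
    · simp
  | succ n ih =>
    obtain ⟨i1, i2⟩ := ih
    constructor
    · rw [pow_succ, Dif.deriv_mul, hp, i1, pow_succ]
    · rw [pow_succ, Dif.mul_apply, hp, i2]

theorem CC_zpow_one {ι : Type*} {p : Filter ι} {r : ℕ} {f : ι → Dif}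
    (hf : ∀ x, CC r p (fun i => f i) (1 : Dif) x) (n : ℤ) :
    ∀ x, CC r p (fun i => (f i ^ n : Dif)) (1 : Dif) x := by
  have hnat : ∀ (f : ι → Dif), (∀ x, CC r p (fun i => f i) (1 : Dif) x) → ∀ (n : ℕ) (x : ℝ),
      CC r p (fun i => (f i ^ n : Dif)) (1 : Dif) x := by
    intro f hf n
    induction n with
    | zero =>
      intro x
      simp only [pow_zero]
      exact Dif.CC_const 1 x
    | succ n ih =>
      intro x
      simp only [pow_succ']
      have := Dif.CC_mul (f := f) (f' := fun i => f i ^ n) (hf ((1 : Dif) x)) (ih x)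
      rwa [one_mul] at this
  intro x
  cases n with
  | ofNat n =>
    simp only [Int.ofNat_eq_natCast, zpow_natCast]
    exact hnat f hf n x
  | negSucc n =>
    simp only [zpow_negSucc]
    have := Dif.CC_inv (g := (1 : Dif)) (U := univ) isOpen_univ
      (fun x _ => hnat f hf (n + 1) x) (y := x) (mem_univ _)
    rwa [inv_one] at this

/-! ### Homomorphism to permutations -/

/-- the underlying permutation, as a homomorphism -/
def permHom : Dif →* Equiv.Perm ℝ := DifS.subtype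

theorem permHom_apply (f : Dif) (x : ℝ) : permHom f x = f x := rfl

/-- the multiplier of a fixed point is invariant under conjugacy -/
theorem mult_conj {H : Equiv.Perm ℝ} (hH : H ∈ AllDif) {f g : Dif} {p : ℝ} (hp : f p = p)
    (h : ∀ x, H (f x) = g (H x)) :
    deriv (fun y => g y) (H p) = deriv (fun y => f y) p := by
  have hd : HasDerivAt (fun x => H x) (deriv (fun x => H x) p) p :=
    ((hH.1.differentiable (by simp)) p).hasDerivAt
  have hd' : HasDerivAt (fun x => H⁻¹ x) (deriv (fun x => H⁻¹ x) (H p)) (H p) :=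
    ((hH.2.differentiable (by simp)) (H p)).hasDerivAt
  have h0 : deriv (fun x => H x) p ≠ 0 := by
    intro h0
    have h1 := hd'.comp p hd
    have h2 : ((fun x => H⁻¹ x) ∘ fun x => H x) = fun x => x := by
      funext x; simp
    rw [h2, h0, mul_zero] at h1
    exact one_ne_zero ((hasDerivAt_id p).unique h1)
  have e : (fun x => H (f x)) = fun x => g (H x) := funext h
  have d1 : HasDerivAt (fun x => H (f x)) (deriv (fun x => H x) p * deriv (fun y => f y) p) p := by
    have hf : HasDerivAt (fun y => f y) (deriv (fun y => f y) p) p := (f.differentiable p).hasDerivAt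
    have hd2 : HasDerivAt (fun x => H x) (deriv (fun x => H x) p) (f p) := by rw [hp]; exact hd
    exact hd2.comp p hf
  have d2 : HasDerivAt (fun x => g (H x))
      (deriv (fun y => g y) (H p) * deriv (fun x => H x) p) p :=
    ((g.differentiable (H p)).hasDerivAt).comp p hd
  rw [e] at d1
  have := d1.unique d2
  rw [mul_comm] at this
  exact (mul_right_cancel₀ h0 this).symm


/-! ### Flatness and conjugation -/

theorem CC_of_flat {f : Dif} {z : ℝ} (h : FlatAt f z) (r : ℕ) :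
    CC r (⊤ : Filter Unit) (fun _ => f) (1 : Dif) z := by
  intro k _
  have h1 : Continuous (iteratedDeriv k (fun x => f x)) :=
    f.contDiff.continuous_iteratedDeriv k (by exact_mod_cast le_top)
  have h2 : iteratedDeriv k (fun x => (1 : Dif) x) z = iteratedDeriv k (fun x => f x) z :=
    (h k).symm
  show Tendsto (fun q : Unit × ℝ => iteratedDeriv k (fun x => f x) q.2) _
    (𝓝 (iteratedDeriv k (fun x => (1 : Dif) x) z))
  rw [h2]
  exact (h1.tendsto z).comp tendsto_snd

theorem flat_of_CC {f : Dif} {z : ℝ} (h : ∀ r, CC r (⊤ : Filter Unit) (fun _ => f) (1 : Dif) z) :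
    FlatAt f z := by
  intro k
  have h1 : Continuous (iteratedDeriv k (fun x => f x)) :=
    f.contDiff.continuous_iteratedDeriv k (by exact_mod_cast le_top)
  have h2 : Tendsto (fun q : Unit × ℝ => iteratedDeriv k (fun x => f x) q.2)
      ((⊤ : Filter Unit) ×ˢ 𝓝 z) (𝓝 (iteratedDeriv k (fun x => f x) z)) :=
    (h1.tendsto z).comp tendsto_snd
  exact tendsto_nhds_unique h2 (h k k le_rfl)

theorem flat_conj {σ lam : Dif} (hc : Commute σ lam) {z : ℝ} (h : FlatAt lam z) :
    FlatAt lam (σ z) := by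
  apply flat_of_CC
  intro r
  have e : lam = σ * (lam * σ⁻¹) := by
    rw [← mul_assoc, hc.eq, mul_assoc, mul_inv_cancel, mul_one]
  have e1 : (1 : Dif) = σ * (1 * σ⁻¹) := by simp
  have key : CC r (⊤ : Filter Unit) (fun _ => (σ * (lam * σ⁻¹) : Dif))
      (σ * (1 * σ⁻¹) : Dif) (σ z) := by
    refine Dif.CC_mul (Dif.CC_const σ _) (Dif.CC_mul ?_ (Dif.CC_const σ⁻¹ _))
    rw [Dif.inv_apply_self]
    exact CC_of_flat h r
  rwa [← e, ← e1] at key

/-! ### Convergence of the glued maps -/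

theorem CC_glue {ι : Type*} {p : Filter ι} {r : ℕ} {σ : Dif} (hσ : ∀ x, x < σ x) {z : ℝ}
    {Gl : Dif → Dif}
    (hGl : ∀ P, Sup P z (σ z) → ∀ (n : ℤ) (x : ℝ), (σ ^ (n - 1)) z < x → x < (σ ^ (n + 1)) z →
        Gl P x = ((σ ^ (n - 1) * P * σ ^ (-(n - 1))) * (σ ^ n * P * σ ^ (-n))) x)
    {P : ι → Dif} {c : Dif} (hP : ∀ i, Sup (P i) z (σ z)) (hc : Sup c z (σ z))
    (h : ∀ x, CC r p (fun i => P i) c x) (x : ℝ) :
    CC r p (fun i => Gl (P i)) (Gl c) x := by
  obtain ⟨n, h1, h2⟩ := S.exists_index hσ z x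
  have h0 : (σ ^ (n - 1)) z < x := lt_of_lt_of_le (S.strictMono_zpow hσ z (by omega)) h1
  have hcj : ∀ (m : ℤ) (y : ℝ), CC r p (fun i => (σ ^ m * P i * σ ^ (-m) : Dif))
      (σ ^ m * c * σ ^ (-m) : Dif) y := fun m y =>
    Dif.CC_mul (f := fun i => σ ^ m * P i) (f' := fun _ => σ ^ (-m))
      (Dif.CC_mul (f := fun _ => σ ^ m) (f' := fun i => P i) (Dif.CC_const _ _) (h _))
      (Dif.CC_const _ _)
  have key : CC r p
      (fun i => ((σ ^ (n - 1) * P i * σ ^ (-(n - 1))) * (σ ^ n * P i * σ ^ (-n)) : Dif))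
      ((σ ^ (n - 1) * c * σ ^ (-(n - 1))) * (σ ^ n * c * σ ^ (-n)) : Dif) x :=
    Dif.CC_mul (f := fun i => σ ^ (n - 1) * P i * σ ^ (-(n - 1)))
      (f' := fun i => σ ^ n * P i * σ ^ (-n)) (hcj _ _) (hcj _ _)
  have hev : ∀ᶠ y in 𝓝 x, (σ ^ (n - 1)) z < y ∧ y < (σ ^ (n + 1)) z :=
    (lt_mem_nhds h0).and (gt_mem_nhds h2)
  refine CC.congr_left (CC.congr_right key ?_) ?_
  · filter_upwards [hev] with y hy
    exact (hGl c hc n y hy.1 hy.2).symm
  · have hev2 : ∀ᶠ q : ι × ℝ in p ×ˢ 𝓝 x, ∀ᶠ y in 𝓝 q.2,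
        (σ ^ (n - 1)) z < y ∧ y < (σ ^ (n + 1)) z := (eventually_eventually_nhds.2 hev).prod_inr _
    filter_upwards [hev2] with q hq
    filter_upwards [hq] with y hy
    exact (hGl (P q.1) (hP q.1) n y hy.1 hy.2).symm

theorem CC_const_seq {ι : Type*} {p : Filter ι} {r : ℕ} {η : ι → ℝ} (h : Tendsto η p (𝓝 0))
    (x : ℝ) : CC r p (fun i _ => η i) (fun _ => (0 : ℝ)) x := by
  intro k _
  cases k with
  | zero =>
    simp only [iteratedDeriv_zero]
    exact h.comp tendsto_fst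
  | succ k =>
    have e : ∀ (c : ℝ) (y : ℝ), iteratedDeriv (k + 1) (fun _ : ℝ => c) y = 0 := by
      intro c y
      rw [iteratedDeriv_succ']
      have : deriv (fun _ : ℝ => c) = fun _ => 0 := by funext y; simp
      rw [this]
      have h0 : ∀ k, iteratedDeriv k (fun _ : ℝ => (0 : ℝ)) = fun _ => 0 := by
        intro k
        induction k with
        | zero => simp
        | succ k ih => rw [iteratedDeriv_succ, ih]; funext y; simp
      rw [h0]
    simp only [e]
    exact tendsto_const_nhds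

theorem CC_e {ι : Type*} {p : Filter ι} {r : ℕ} {η : ι → ℝ} (h : Tendsto η p (𝓝 0))
    {g : ℝ → ℝ} (hg : ContDiff ℝ ∞ g) {e : ι → Dif} (he : ∀ i x, e i x = x + η i * g x) (x : ℝ) :
    CC r p (fun i => e i) (1 : Dif) x := by
  have h1 : CC r p (fun i y => η i * g y) (fun y => (0 : ℝ) * g y) x :=
    CC.mul (f := fun i _ => η i) (f' := fun _ => g) (g := fun _ => (0 : ℝ)) (g' := g)
      (fun _ => contDiff_const) (fun _ => hg) contDiff_const hg (CC_const_seq h x)
      (CC.const_fun hg)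
  have h2 : CC r p (fun i y => y + η i * g y) (fun y => y + (0 : ℝ) * g y) x :=
    CC.add (f := fun _ y => y) (f' := fun i y => η i * g y) (g := fun y => y)
      (g' := fun y => (0 : ℝ) * g y) (fun _ => contDiff_id) (fun _ => contDiff_const.mul hg)
      contDiff_id (contDiff_const.mul hg) (CC.const_fun contDiff_id) h1
  have e1 : (fun i => (fun y => e i y)) = fun i y => y + η i * g y := by
    funext i y; exact he i y
  have e2 : (fun y => (1 : Dif) y) = fun y => y + (0 : ℝ) * g y := by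
    funext y; simp
  show CC r p (fun i => (fun y => e i y)) (fun y => (1 : Dif) y) x
  rw [e1, e2]
  exact h2

theorem CC_b {ι : Type*} {p : Filter ι} {r : ℕ} {η : ι → ℝ} (h : Tendsto η p (𝓝 0))
    {β : ι → ℝ → ℝ} (hβ : ∀ i, ContDiff ℝ ∞ (β i)) {s : ι → ℝ} {b : ι → Dif}
    (hb : ∀ i x, b i x = x + s i * β i x)
    (hs : ∀ i, ∀ k ≤ r, ∀ x, |s i * iteratedDeriv k (β i) x| ≤ η i) (x : ℝ) :
    CC r p (fun i => b i) (1 : Dif) x := by
  refine CC.of_near (U := univ) (1 : Dif).contDiff isOpen_univ ?_ (mem_univ x)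
  intro ε hε
  have h1 : ∀ᶠ i in p, η i < ε := h.eventually (gt_mem_nhds hε)
  filter_upwards [h1] with i hi k hk y _
  have e1 : (fun x => b i x) = fun x => x + s i * β i x := funext (hb i)
  have e2 : iteratedDeriv k (fun x => x + s i * β i x) y
      = iteratedDeriv k (fun x => x) y + s i * iteratedDeriv k (β i) y := by
    rw [iteratedDeriv_fun_add (f := fun x : ℝ => x) (g := fun x => s i * β i x)
      (contDiff_id.contDiffAt.of_le (by exact_mod_cast le_top))
      ((contDiff_const.mul (hβ i)).contDiffAt.of_le (by exact_mod_cast le_top)),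
      iteratedDeriv_const_mul_field]
  show |iteratedDeriv k (fun x => b i x) y - iteratedDeriv k (fun x : ℝ => x) y| ≤ ε
  rw [e1, e2, add_sub_cancel_left]
  exact (hs i k hk y).trans hi.le

end BF

open BF

section

variable {F G : Dif} {nF nG q : ℤ}

theorem BF.triple_zpow (h : Act F G) (a b c n : ℤ) :
    (F ^ a * G ^ b * T ^ c) ^ n = F ^ (a * n) * G ^ (b * n) * T ^ (c * n) := by
  have h1 : Commute (F ^ a) (G ^ b) := h.FG.zpow_zpow a b
  have h2 : Commute (F ^ a * G ^ b) (T ^ c) :=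
    (h.FT.zpow_zpow a c).mul_left (h.GT.zpow_zpow b c)
  rw [h2.mul_zpow, h1.mul_zpow, zpow_mul, zpow_mul, zpow_mul]

theorem BF.triple_mul (h : Act F G) (a b c a' b' c' : ℤ) :
    (F ^ a * G ^ b * T ^ c) * (F ^ a' * G ^ b' * T ^ c') =
      F ^ (a + a') * G ^ (b + b') * T ^ (c + c') := by
  have h1 : Commute (G ^ b) (F ^ a') := (h.FG.zpow_zpow a' b).symm
  have h2 : Commute (T ^ c) (F ^ a') := (h.FT.zpow_zpow a' c).symm
  have h3 : Commute (T ^ c) (G ^ b') := (h.GT.zpow_zpow b' c).symm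
  calc (F ^ a * G ^ b * T ^ c) * (F ^ a' * G ^ b' * T ^ c')
      = F ^ a * G ^ b * (T ^ c * F ^ a') * G ^ b' * T ^ c' := by group
    _ = F ^ a * (G ^ b * F ^ a') * T ^ c * G ^ b' * T ^ c' := by rw [h2.eq]; group
    _ = F ^ a * F ^ a' * G ^ b * (T ^ c * G ^ b') * T ^ c' := by rw [h1.eq]; group
    _ = F ^ (a + a') * G ^ (b + b') * T ^ (c + c') := by rw [h3.eq]; group

set_option linter.unusedVariables false in
theorem flat_case (h : Rat F G nF nG q) (z : ℝ) (hz : FixK F G nF nG q z)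
    (hflat : ∀ γ, InL F G nF nG q γ → FlatAt γ z) : ¬ Stable F G := by
  rintro ⟨r, R, δ, hδ, hst⟩
  obtain ⟨a, b, c, hone⟩ := h.one
  have hA := h.toAct
  set σ : Dif := F ^ a * G ^ b * T ^ c with hσdef
  have hσ : ∀ x, x < σ x := h.pos a b c (by rw [hone]; norm_num)
  have cF : Commute σ F :=
    (((Commute.refl F).zpow_left a).mul_left (h.FG.symm.zpow_left b)).mul_left
      (h.FT.symm.zpow_left c)
  have cG : Commute σ G :=
    ((h.FG.zpow_left a).mul_left ((Commute.refl G).zpow_left b)).mul_left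
      (h.GT.symm.zpow_left c)
  have cT : Commute σ T :=
    ((h.FT.zpow_left a).mul_left (h.GT.zpow_left b)).mul_left ((Commute.refl T).zpow_left c)
  -- the elements of translation number zero
  have lamF : InL F G nF nG q (σ ^ (-nF) * F) := by
    refine ⟨a * (-nF) + 1, b * (-nF) + 0, c * (-nF) + 0, ?_, ?_⟩
    · have := BF.triple_mul hA (a * (-nF)) (b * (-nF)) (c * (-nF)) 1 0 0
      rw [← this, ← BF.triple_zpow hA, ← hσdef]; simp
    · linear_combination (-nF) * hone
  have lamG : InL F G nF nG q (σ ^ (-nG) * G) := by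
    refine ⟨a * (-nG) + 0, b * (-nG) + 1, c * (-nG) + 0, ?_, ?_⟩
    · have := BF.triple_mul hA (a * (-nG)) (b * (-nG)) (c * (-nG)) 0 1 0
      rw [← this, ← BF.triple_zpow hA, ← hσdef]; simp
    · linear_combination (-nG) * hone
  have lamT : InL F G nF nG q (σ ^ (-q) * T) := by
    refine ⟨a * (-q) + 0, b * (-q) + 0, c * (-q) + 1, ?_, ?_⟩
    · have := BF.triple_mul hA (a * (-q)) (b * (-q)) (c * (-q)) 0 0 1
      rw [← this, ← BF.triple_zpow hA, ← hσdef]; simp
    · linear_combination (-q) * hone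
  obtain ⟨Gl, hGl⟩ := exists_glue hσ z
  have hGl1 : ∀ P, Sup P z (σ z) →
      (∀ (n : ℤ) (x : ℝ), (σ ^ n) z ≤ x → x < (σ ^ (n + 1)) z →
        Gl P x = (σ ^ n * P * σ ^ (-n)) x) := fun P hP => (hGl P hP).1
  have hGl2 : ∀ P, Sup P z (σ z) → ∀ (n : ℤ) (x : ℝ), (σ ^ (n - 1)) z < x →
      x < (σ ^ (n + 1)) z →
        Gl P x = ((σ ^ (n - 1) * P * σ ^ (-(n - 1))) * (σ ^ n * P * σ ^ (-n))) x :=
    fun P hP => (hGl P hP).2
  -- cutting
  have hcut : ∀ (E : Dif) (v : ℤ), Commute σ E → InL F G nF nG q (σ ^ (-v) * E) →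
      ∃ P : Dif, Sup P z (σ z) ∧ σ ^ v * Gl P = E := by
    intro E v hc hL
    have hcl : Commute σ (σ ^ (-v) * E) := ((Commute.refl σ).zpow_right (-v)).mul_right hc
    obtain ⟨P, hP1, hP2⟩ := exists_cut (σ ^ (-v) * E) (hσ z) (hflat _ hL)
      (flat_conj hcl (hflat _ hL))
    refine ⟨P, hP1, ?_⟩
    have : Gl P = σ ^ (-v) * E := by
      ext x
      obtain ⟨n, h1, h2⟩ := S.exists_index hσ z x
      rw [hGl1 P hP1 n x h1 h2]
      have e1 : z ≤ (σ ^ (-n)) x := by
        rw [zpow_neg, Dif.le_inv_iff]; exact h1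
      have e2 : (σ ^ (-n)) x ≤ σ z := by
        rw [zpow_neg, Dif.inv_le_iff, ← S.zpow_add_one_apply']; exact h2.le
      rw [Dif.mul_apply, Dif.mul_apply, hP2 _ e1 e2, ← Dif.mul_apply, ← Dif.mul_apply]
      have : Commute (σ ^ n) (σ ^ (-v) * E) := hcl.zpow_left n
      rw [this.eq, mul_assoc, ← zpow_add, add_neg_cancel, zpow_zero, mul_one]
    rw [this, ← mul_assoc, ← zpow_add, add_neg_cancel, zpow_zero, one_mul]
  obtain ⟨PF, hPF, eF⟩ := hcut F nF cF lamF
  obtain ⟨PG, hPG, eG⟩ := hcut G nG cG lamG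
  obtain ⟨PT, hPT, eT⟩ := hcut T q cT lamT
  -- the sequences
  set d : ℝ := (σ z - z) / 2 with hd
  have hd0 : 0 < d := by have := hσ z; simp only [hd]; linarith
  obtain ⟨g, η₀, hgs, hgz, hg0, hη₀, hex⟩ := exists_e z hd0
  set m : ℝ := min (min (η₀ / 2) (d / 2)) (1 / 2) with hm
  have hm0 : 0 < m := by
    simp only [hm]
    exact lt_min (lt_min (by positivity) (by positivity)) (by norm_num)
  have hm1 : m < η₀ := lt_of_le_of_lt ((min_le_left _ _).trans (min_le_left _ _)) (by linarith)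
  have hm2 : m < d := lt_of_le_of_lt ((min_le_left _ _).trans (min_le_right _ _)) (by linarith)
  have hm3 : m ≤ 1 / 2 := min_le_right _ _
  set η : ℕ → ℝ := fun i => m / (i + 1) with hη
  have hη0 : ∀ i, 0 < η i := fun i => by simp only [hη]; positivity
  have hηm : ∀ i, η i ≤ m := fun i => by
    simp only [hη]
    apply div_le_self hm0.le
    have : (0 : ℝ) ≤ i := Nat.cast_nonneg i
    linarith
  have hηlim : Tendsto η atTop (𝓝 0) := by
    have h1 := (tendsto_one_div_add_atTop_nhds_zero_nat (𝕜 := ℝ)).const_mul m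
    rw [mul_zero] at h1
    refine h1.congr (fun i => ?_)
    simp only [hη]; ring
  choose e he using fun i => hex (η i) (hη0 i) ((hηm i).trans_lt hm1)
  choose p β B hp1 hp2 hβs hβ0 hβp hβd hB0 hBb hbex using fun i =>
    exists_b (show z < z + η i by linarith [hη0 i]) r
  have hqn : 0 < q.toNat := by have := h.q_pos; omega
  choose s hs0 hs1 hsD using fun i => exists_good_s (countable_mult (F ^ q)) hqn
    (div_pos (hη0 i) (hB0 i))
  have hsB : ∀ i, s i * B i < η i := fun i => by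
    have := hs1 i
    rwa [lt_div_iff₀ (hB0 i)] at this
  choose b' hb' using fun i => hbex i (s i) (hs0 i) (by linarith [hsB i, hηm i])
  have hbsup : ∀ i, Sup (b' i) z (z + η i) := fun i x hx => by
    rw [hb', hβ0 i x hx, mul_zero, add_zero]
  have hzd : z + d ≤ σ z := by simp only [hd]; have := hσ z; linarith
  have hesup : ∀ (P : Dif), Sup P z (σ z) → ∀ i, Sup (e i * P * (e i)⁻¹) (z + η i) (σ z) := by
    intro P hP i
    have := hP.conj (e i)
    rwa [he, he, hgz, hg0 _ hzd, mul_one, mul_zero, add_zero] at this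
  have hPsup : ∀ (P : Dif), Sup P z (σ z) → ∀ (l : ℤ) i,
      Sup (e i * P * (e i)⁻¹ * (b' i) ^ l) z (σ z) := by
    intro P hP l i
    refine ((hesup P hP i).mono ?_ le_rfl).mul (((hbsup i).zpow l).mono le_rfl ?_)
    · linarith [hη0 i]
    · linarith [hηm i]
  have hCCe : ∀ x, CC r atTop (fun i => e i) (1 : Dif) x := fun x => CC_e hηlim hgs he x
  have hCCe' : ∀ x, CC r atTop (fun i => ((e i)⁻¹ : Dif)) (1 : Dif) x := fun x => by
    have := Dif.CC_inv (g := (1 : Dif)) isOpen_univ (fun x _ => hCCe x) (mem_univ _) (y := x)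
    rwa [inv_one] at this
  have hCCb : ∀ x, CC r atTop (fun i => b' i) (1 : Dif) x := fun x =>
    CC_b hηlim hβs hb' (fun i k hk x => by
      rw [abs_mul, abs_of_pos (hs0 i)]
      have h1 := hBb i k hk x
      have h2 := hsB i
      have h3 : s i * |iteratedDeriv k (β i) x| ≤ s i * B i :=
        mul_le_mul_of_nonneg_left h1 (hs0 i).le
      linarith) x
  have hCC : ∀ (P : Dif), Sup P z (σ z) → ∀ (l v : ℤ) (x : ℝ),
      CC r atTop (fun i => (σ ^ v * Gl (e i * P * (e i)⁻¹ * (b' i) ^ l) : Dif))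
        (σ ^ v * Gl P : Dif) x := by
    intro P hP l v x
    refine Dif.CC_mul (f := fun _ => σ ^ v) (f' := fun i => Gl (e i * P * (e i)⁻¹ * (b' i) ^ l))
      (Dif.CC_const _ _) ?_
    refine CC_glue hσ hGl2 (P := fun i => e i * P * (e i)⁻¹ * (b' i) ^ l) (hPsup P hP l) hP ?_ x
    intro y
    have k1 := Dif.CC_mul (f := fun i => e i) (f' := fun _ => P) (g := (1 : Dif)) (g' := P)
      (x := (1 : Dif) ((1 : Dif) y)) (hCCe _) (Dif.CC_const _ _)
    have k2 := Dif.CC_mul (f := fun i => e i * P) (f' := fun i => (e i)⁻¹) (g := (1 * P : Dif))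
      (g' := (1 : Dif)) (x := (1 : Dif) y) k1 (hCCe' _)
    have k3 := Dif.CC_mul (f := fun i => e i * P * (e i)⁻¹) (f' := fun i => (b' i) ^ l)
      (g := (1 * P * 1 : Dif)) (g' := (1 : Dif)) (x := y) k2 (CC_zpow_one hCCb l _)
    have k4 : (1 * P * 1 * 1 : Dif) = P := by simp
    rwa [k4] at k3
  -- commutation of the pieces
  have hGl0 : ∀ P, Sup P z (σ z) → ∀ x, z ≤ x → x < σ z → Gl P x = P x := by
    intro P hP x h1 h2
    have := hGl1 P hP 0 x (by simpa using h1) (by simpa using h2)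
    simpa using this
  have hcomm : ∀ P Q, Sup P z (σ z) → Sup Q z (σ z) → Commute (Gl P) (Gl Q) → Commute P Q := by
    intro P Q hP hQ hc
    apply Dif.commute_of_apply
    intro x
    by_cases hx : z ≤ x ∧ x < σ z
    · obtain ⟨h1, h2⟩ := hx
      obtain ⟨h3, h4⟩ := hP.mapsTo h1 h2
      obtain ⟨h5, h6⟩ := hQ.mapsTo h1 h2
      have := Dif.comm_apply hc x
      rwa [hGl0 Q hQ x h1 h2, hGl0 P hP x h1 h2, hGl0 P hP _ h5 h6, hGl0 Q hQ _ h3 h4] at this
    · have hx' : x ≤ z ∨ σ z ≤ x := by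
        by_cases h1 : z ≤ x
        · right; by_contra hcon; exact hx ⟨h1, not_le.1 hcon⟩
        · left; exact (not_le.1 h1).le
      rw [hQ x hx', hP x hx', hQ x hx']
  have hcommE : ∀ (E E' : Dif) (v v' : ℤ) (P P' : Dif), Commute σ E → Commute σ E' →
      Commute E E' → Sup P z (σ z) → Sup P' z (σ z) → σ ^ v * Gl P = E → σ ^ v' * Gl P' = E' →
      ∀ (l l' : ℤ) i, Commute (σ ^ v * Gl (e i * P * (e i)⁻¹ * (b' i) ^ l))
        (σ ^ v' * Gl (e i * P' * (e i)⁻¹ * (b' i) ^ l')) := by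
    intro E E' v v' P P' c1 c2 c3 hP hP' e1 e2 l l' i
    have e1' : Gl P = σ ^ (-v) * E := by
      rw [← e1, ← mul_assoc, ← zpow_add, neg_add_cancel, zpow_zero, one_mul]
    have e2' : Gl P' = σ ^ (-v') * E' := by
      rw [← e2, ← mul_assoc, ← zpow_add, neg_add_cancel, zpow_zero, one_mul]
    have c4 : Commute (Gl P) (Gl P') := by
      rw [e1', e2']
      have s1 : Commute (σ ^ (-v)) (σ ^ (-v')) := (Commute.refl σ).zpow_zpow _ _
      exact (s1.mul_right (c2.zpow_left _)).mul_left ((c1.symm.zpow_right _).mul_right c3)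
    have c5 := hcomm P P' hP hP' c4
    have c6 : Commute (e i * P * (e i)⁻¹ * (b' i) ^ l) (e i * P' * (e i)⁻¹ * (b' i) ^ l') := by
      have d1 : Commute (e i * P * (e i)⁻¹) (e i * P' * (e i)⁻¹) := by
        show _ * _ = _ * _
        have := c5.eq
        calc e i * P * (e i)⁻¹ * (e i * P' * (e i)⁻¹) = e i * (P * P') * (e i)⁻¹ := by group
          _ = e i * (P' * P) * (e i)⁻¹ := by rw [this]
          _ = _ := by group
      have d2 : Commute ((b' i) ^ l) (e i * P' * (e i)⁻¹) :=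
        ((hbsup i).zpow l).commute (hesup P' hP' i)
      have d3 : Commute ((b' i) ^ l') (e i * P * (e i)⁻¹) :=
        ((hbsup i).zpow l').commute (hesup P hP i)
      have d4 : Commute ((b' i) ^ l) ((b' i) ^ l') := (Commute.refl _).zpow_zpow _ _
      exact (d1.mul_right d3.symm).mul_left (d2.mul_right d4)
    have c7 := glue_commute hσ hGl1 (hPsup P hP l i) (hPsup P' hP' l' i) c6
    have c8 := glue_commute_sigma hσ hGl1 (hPsup P hP l i)
    have c9 := glue_commute_sigma hσ hGl1 (hPsup P' hP' l' i)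
    have s1 : Commute (σ ^ v) (σ ^ v') := (Commute.refl σ).zpow_zpow _ _
    exact (s1.mul_right (c9.symm.zpow_left _)).mul_left ((c8.zpow_right _).mul_right c7)
  -- closeness
  have hK : IsCompact (Icc (-R) R) := isCompact_Icc
  have nF' := CC.near (r := r) (p := atTop) (f := fun i => fun y =>
      (σ ^ nF * Gl (e i * PF * (e i)⁻¹ * (b' i) ^ (1 - a * nF)) : Dif) y)
      (g := fun y => F y) F.contDiff hK (fun x _ => by
        have := hCC PF hPF (1 - a * nF) nF x
        rwa [eF] at this) hδ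
  have nG' := CC.near (r := r) (p := atTop) (f := fun i => fun y =>
      (σ ^ nG * Gl (e i * PG * (e i)⁻¹ * (b' i) ^ (-a * nG)) : Dif) y)
      (g := fun y => G y) G.contDiff hK (fun x _ => by
        have := hCC PG hPG (-a * nG) nG x
        rwa [eG] at this) hδ
  have nT' := CC.near (r := r) (p := atTop) (f := fun i => fun y =>
      (σ ^ q * Gl (e i * PT * (e i)⁻¹ * (b' i) ^ (-a * q)) : Dif) y)
      (g := fun y => T y) T.contDiff hK (fun x _ => by
        have := hCC PT hPT (-a * q) q x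
        rwa [eT] at this) hδ
  obtain ⟨i, ⟨iF, iG⟩, iT⟩ := ((nF'.and nG').and nT').exists
  set F₁ : Dif := σ ^ nF * Gl (e i * PF * (e i)⁻¹ * (b' i) ^ (1 - a * nF)) with hF₁
  set G₁ : Dif := σ ^ nG * Gl (e i * PG * (e i)⁻¹ * (b' i) ^ (-a * nG)) with hG₁
  set T₁ : Dif := σ ^ q * Gl (e i * PT * (e i)⁻¹ * (b' i) ^ (-a * q)) with hT₁
  have cFG : Commute F₁ G₁ := hcommE F G nF nG PF PG cF cG h.FG hPF hPG eF eG _ _ i
  have cFT : Commute F₁ T₁ := hcommE F T nF q PF PT cF cT h.FT hPF hPT eF eT _ _ i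
  have cGT : Commute G₁ T₁ := hcommE G T nG q PG PT cG cT h.GT hPG hPT eG eT _ _ i
  have hT₁' : ∀ x, x < T₁ x := by
    intro x
    obtain ⟨n, h1, h2⟩ := S.exists_index hσ z x
    obtain ⟨h3, -⟩ := glue_mapsTo hGl1 (hPsup PT hPT (-a * q) i) h1 h2
    refine h2.trans_le ?_
    rw [hT₁, Dif.mul_apply]
    have h4 : (σ ^ q) ((σ ^ n) z) ≤ (σ ^ q) (Gl (e i * PT * (e i)⁻¹ * (b' i) ^ (-a * q)) x) :=
      (σ ^ q).le_iff.2 h3
    refine le_trans ?_ h4
    rw [← Dif.mul_apply, ← zpow_add]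
    have := h.q_pos
    exact (S.strictMono_zpow hσ z).monotone (by omega)
  obtain ⟨H, hH, j₁, j₂, ee, hee, H1, -, H3⟩ := hst F₁ G₁ T₁ cFG cFT cGT hT₁'
    (fun l hl x hx => (iF x hx l hl).le) (fun l hl x hx => (iG x hx l hl).le)
    (fun l hl x hx => (iT x hx l hl).le)
  -- the element with a new multiplier
  set γ : Dif := F₁ ^ q * T₁ ^ (-nF) with hγ
  have hloc : ∀ (P : Dif), Sup P z (σ z) → ∀ (l n : ℤ) (x : ℝ), z ≤ x → x < z + η i →
      ((Gl (e i * P * (e i)⁻¹ * (b' i) ^ l)) ^ n) x = (((b' i) ^ l) ^ n) x := by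
    intro P hP l n x h1 h2
    refine pow_eq_of_eqOn (u := z) (v := z + η i) ?_ ((hbsup i).zpow l) n x h1 h2
    intro y h3 h4
    have h5 : y < σ z := by linarith [hηm i]
    rw [hGl0 _ (hPsup P hP l i) y h3 h5, Dif.mul_apply]
    obtain ⟨-, h7⟩ := ((hbsup i).zpow l).mapsTo h3 h4
    exact hesup P hP i _ (Or.inl h7.le)
  have hγloc : ∀ x, z ≤ x → x < z + η i → γ x = ((b' i) ^ q) x := by
    intro x h1 h2
    have cA := glue_commute_sigma hσ hGl1 (hPsup PF hPF (1 - a * nF) i)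
    have cB := glue_commute_sigma hσ hGl1 (hPsup PT hPT (-a * q) i)
    have e1 : γ = (Gl (e i * PF * (e i)⁻¹ * (b' i) ^ (1 - a * nF))) ^ q *
        (Gl (e i * PT * (e i)⁻¹ * (b' i) ^ (-a * q))) ^ (-nF) := by
      rw [hγ, hF₁, hT₁, (cA.symm.zpow_left nF).mul_zpow, (cB.symm.zpow_left q).mul_zpow,
        ← zpow_mul, ← zpow_mul]
      set A := Gl (e i * PF * (e i)⁻¹ * (b' i) ^ (1 - a * nF))
      set B := Gl (e i * PT * (e i)⁻¹ * (b' i) ^ (-a * q))
      have cA' : Commute (σ ^ (nF * q)) (A ^ q) := cA.symm.zpow_zpow _ _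
      rw [cA'.eq, mul_assoc, ← mul_assoc (σ ^ (nF * q)), ← zpow_add]
      have : nF * q + q * -nF = 0 := by ring
      rw [this, zpow_zero, one_mul]
    rw [e1, Dif.mul_apply, hloc PT hPT _ _ x h1 h2]
    obtain ⟨h3, h4⟩ := (((hbsup i).zpow (-a * q)).zpow (-nF)).mapsTo h1 h2
    rw [hloc PF hPF _ _ _ h3 h4, ← Dif.mul_apply, ← zpow_mul, ← zpow_mul, ← zpow_add]
    congr 2
    ring_nf
  have hfix : b' i (p i) = p i := by rw [hb', hβp, mul_zero, add_zero]
  have hqq : ((b' i) ^ q : Dif) = (b' i) ^ q.toNat := by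
    rw [← zpow_natCast, Int.toNat_of_nonneg h.q_pos.le]
  obtain ⟨hder, hfixq⟩ := deriv_pow_fixed hfix q.toNat
  have hdb : deriv (fun y => b' i y) (p i) = 1 + s i := by
    have e1 : (fun y => b' i y) = fun y => y + s i * β i y := funext (hb' i)
    have h1 : HasDerivAt (fun y => y + s i * β i y) (1 + s i * deriv (β i) (p i)) (p i) :=
      (hasDerivAt_id _).add ((((hβs i).differentiable (by simp)) _).hasDerivAt.const_mul _)
    rw [e1, h1.deriv, hβd, mul_one]
  have hγp : γ (p i) = p i := by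
    rw [hγloc _ (hp1 i).le (hp2 i), hqq, hfixq]
  have hγd : deriv (fun y => γ y) (p i) = (1 + s i) ^ q.toNat := by
    have h1 : (fun y => γ y) =ᶠ[𝓝 (p i)] fun y => ((b' i) ^ q.toNat) y := by
      filter_upwards [lt_mem_nhds (hp1 i), gt_mem_nhds (hp2 i)] with y hy1 hy2
      rw [hγloc y hy1.le hy2, hqq]
    rw [h1.deriv_eq, hder, hdb]
  -- conjugation
  have PF1 : H * permHom F₁ * H⁻¹ = permHom (T ^ j₁ * F) := by
    rw [mul_inv_eq_iff_eq_mul]
    ext x
    show H (F₁ x) = (T ^ j₁) (F (H x))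
    rw [T_zpow_apply, H1]
  have PT1 : H * permHom T₁ * H⁻¹ = permHom (T ^ ee) := by
    rw [mul_inv_eq_iff_eq_mul]
    ext x
    show H (T₁ x) = (T ^ ee) (H x)
    rw [T_zpow_apply, H3]
  have Pγ : H * permHom γ * H⁻¹ = permHom (T ^ (j₁ * q - ee * nF) * F ^ q) := by
    have e1 : H * permHom γ * H⁻¹ =
        (H * permHom F₁ * H⁻¹) ^ q * (H * permHom T₁ * H⁻¹) ^ (-nF) := by
      rw [conj_zpow, conj_zpow, hγ, map_mul, map_zpow, map_zpow]
      group
    rw [e1, PF1, PT1, ← map_zpow, ← map_zpow, ← map_mul]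
    congr 1
    have c1 : Commute (T ^ j₁) F := h.FT.symm.zpow_left j₁
    have c2 : Commute (F ^ q) (T ^ (ee * -nF)) := h.FT.zpow_zpow _ _
    rw [c1.mul_zpow, ← zpow_mul, ← zpow_mul, mul_assoc, c2.eq, ← mul_assoc, ← zpow_add]
    congr 2
    ring
  have hconj : ∀ x, H (γ x) = (T ^ (j₁ * q - ee * nF) * F ^ q : Dif) (H x) := by
    intro x
    rw [mul_inv_eq_iff_eq_mul] at Pγ
    exact congrArg (fun k : Equiv.Perm ℝ => k x) Pγ
  have hm := mult_conj hH hγp hconj
  apply hsD i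
  refine ⟨H (p i), -(j₁ * q - ee * nF), ?_, ?_, ?_⟩
  · have h1 := hconj (p i)
    rw [hγp, Dif.mul_apply, T_zpow_apply] at h1
    push_cast at h1 ⊢
    linarith
  · rw [← hγd, ← hm]
    have e1 : (fun y => (T ^ (j₁ * q - ee * nF) * F ^ q : Dif) y)
        = fun y => (F ^ q) y + ((j₁ * q - ee * nF : ℤ) : ℝ) := by
      funext y; rw [Dif.mul_apply, T_zpow_apply]
    rw [e1, deriv_add_const]
  · have h1 : 1 < (1 + s i) ^ q.toNat := one_lt_pow₀ (by linarith [hs0 i]) hqn.ne'
    exact h1.ne'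

end

end Pool.Agent.F88
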