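import Pool.Agent.Lib.MP_f88c17.Toolkit

set_option autoImplicit false

open Set Filter Topology
open scoped ContDiff

namespace Pool.Agent.F88

namespace BP

theorem lim_of_jet {h : ℝ → ℝ} {z : ℝ} {j : ℕ} (hh : ContDiff ℝ ∞ h)
    (h0 : ∀ l < j, iteratedDeriv l h z = 0) :
    Tendsto (fun x => h x / (x - z) ^ j) (𝓝[>] z) (𝓝 (iteratedDeriv j h z / j.factorial)) := by
  have h1 : ContDiff ℝ j h := hh.of_le (by exact_mod_cast le_top)
  have h2 := taylor_isLittleO_univ (x₀ := z) h1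
  have h3 : ∀ x, taylorWithinEval h j univ z x = iteratedDeriv j h z / j.factorial * (x - z) ^ j := by
    intro x
    rw [taylor_within_apply, Finset.sum_range_succ, Finset.sum_eq_zero, zero_add,
      iteratedDerivWithin_univ, smul_eq_mul]
    · field_simp
    · intro l hl
      rw [iteratedDerivWithin_univ, h0 l (Finset.mem_range.mp hl), smul_zero]
  have h4 : Tendsto (fun x => (h x - taylorWithinEval h j univ z x) / (x - z) ^ j) (𝓝[>] z)
      (𝓝 0) := h2.tendsto_div_nhds_zero.mono_left nhdsWithin_le_nhds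
  have h5 := h4.add_const (iteratedDeriv j h z / j.factorial)
  rw [zero_add] at h5
  refine h5.congr' ?_
  filter_upwards [self_mem_nhdsWithin] with x hx
  have hx' : (x - z) ^ j ≠ 0 := pow_ne_zero _ (sub_ne_zero.mpr (ne_of_gt hx))
  rw [h3]
  field_simp
  ring

/-- leading coefficient of `g - id` at `z+` -/
def Lim (z : ℝ) (j : ℕ) (g : Dif) (t : ℝ) : Prop :=
  Tendsto (fun x => (g x - x) / (x - z) ^ j) (𝓝[>] z) (𝓝 t)

theorem Lim.unique {z : ℝ} {j : ℕ} {g : Dif} {t t' : ℝ} (h : Lim z j g t) (h' : Lim z j g t') :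
    t = t' := tendsto_nhds_unique h h'

theorem lim_one (z : ℝ) (j : ℕ) : Lim z j 1 0 := by
  unfold Lim
  simp

theorem tendsto_right {g : Dif} {z : ℝ} (hz : g z = z) : Tendsto (fun x => g x) (𝓝[>] z) (𝓝[>] z) := by
  refine tendsto_nhdsWithin_iff.mpr ⟨?_, ?_⟩
  · have h1 : Tendsto (fun x => g x) (𝓝 z) (𝓝 (g z)) := g.continuous.continuousAt
    rw [hz] at h1
    exact h1.mono_left nhdsWithin_le_nhds
  · filter_upwards [self_mem_nhdsWithin] with x hx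
    have : g z < g x := g.lt_iff.mpr hx
    rwa [hz] at this

theorem ratio_tendsto {g : Dif} {z : ℝ} (hz : g z = z) (h1 : deriv g z = 1) :
    Tendsto (fun x => (g x - z) / (x - z)) (𝓝[>] z) (𝓝 1) := by
  have h2 : HasDerivAt (fun x => g x) 1 z := by
    rw [← h1]
    exact (g.differentiable z).hasDerivAt
  have h3 := h2.tendsto_slope
  have h4 : Tendsto (slope (fun x => g x) z) (𝓝[>] z) (𝓝 1) :=
    h3.mono_left (nhdsWithin_mono _ (fun x hx => ne_of_gt hx))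
  refine h4.congr (fun x => ?_)
  rw [slope_def_field, hz]

theorem Lim.mul {z : ℝ} {j : ℕ} {g g' : Dif} {t t' : ℝ} (h : Lim z j g t) (h' : Lim z j g' t')
    (hz : g' z = z) (h1 : deriv g' z = 1) : Lim z j (g * g') (t + t') := by
  unfold Lim at *
  have h2 := h.comp (tendsto_right hz)
  have h3 := (ratio_tendsto hz h1).pow j
  have h4 := (h2.mul h3).add h'
  rw [one_pow, mul_one] at h4
  refine h4.congr' ?_
  filter_upwards [self_mem_nhdsWithin] with x hx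
  have hx' : (x - z) ≠ 0 := sub_ne_zero.mpr (ne_of_gt hx)
  have hx2 : g' x - z ≠ 0 := by
    have h5 : g' z < g' x := g'.lt_iff.mpr hx
    rw [hz] at h5
    exact (sub_pos.mpr h5).ne'
  simp only [Function.comp_apply, Dif.mul_apply]
  rw [div_pow]
  field_simp
  ring

/-! ### the group of elements of translation number zero -/

section group

variable {F G : Dif} {nF nG q : ℤ}

theorem form_mul (h : Act F G) (a b c a' b' c' : ℤ) :
    (F ^ a * G ^ b * T ^ c) * (F ^ a' * G ^ b' * T ^ c') =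
      F ^ (a + a') * G ^ (b + b') * T ^ (c + c') := by
  have h1 : Commute (T ^ c) (F ^ a') := h.FT.symm.zpow_zpow c a'
  have h2 : Commute (T ^ c) (G ^ b') := h.GT.symm.zpow_zpow c b'
  have h3 : Commute (G ^ b) (F ^ a') := h.FG.symm.zpow_zpow b a'
  rw [zpow_add, zpow_add, zpow_add]
  calc (F ^ a * G ^ b * T ^ c) * (F ^ a' * G ^ b' * T ^ c')
      = F ^ a * (G ^ b * ((T ^ c * F ^ a') * (G ^ b' * T ^ c'))) := by simp only [mul_assoc]
    _ = F ^ a * ((G ^ b * F ^ a') * ((T ^ c * G ^ b') * T ^ c')) := by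
        rw [h1.eq]; simp only [mul_assoc]
    _ = F ^ a * F ^ a' * (G ^ b * G ^ b') * (T ^ c * T ^ c') := by
        rw [h2.eq, h3.eq]; simp only [mul_assoc]

theorem form_zpow (h : Act F G) (a b c n : ℤ) :
    (F ^ a * G ^ b * T ^ c) ^ n = F ^ (a * n) * G ^ (b * n) * T ^ (c * n) := by
  have h1 : Commute (F ^ a) (T ^ c) := h.FT.zpow_zpow a c
  have h2 : Commute (G ^ b) (T ^ c) := h.GT.zpow_zpow b c
  have h3 : Commute (F ^ a) (G ^ b) := h.FG.zpow_zpow a b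
  rw [(h1.mul_left h2).mul_zpow, h3.mul_zpow, ← zpow_mul, ← zpow_mul, ← zpow_mul]

theorem inL_mul (h : Act F G) {γ δ : Dif} (hγ : InL F G nF nG q γ) (hδ : InL F G nF nG q δ) :
    InL F G nF nG q (γ * δ) := by
  obtain ⟨a, b, c, rfl, e⟩ := hγ
  obtain ⟨a', b', c', rfl, e'⟩ := hδ
  refine ⟨a + a', b + b', c + c', form_mul h a b c a' b' c', ?_⟩
  linear_combination e + e'

theorem inL_zpow (h : Act F G) {γ : Dif} (hγ : InL F G nF nG q γ) (n : ℤ) :
    InL F G nF nG q (γ ^ n) := by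
  obtain ⟨a, b, c, rfl, e⟩ := hγ
  refine ⟨a * n, b * n, c * n, form_zpow h a b c n, ?_⟩
  linear_combination n * e

theorem inL_inv (h : Act F G) {γ : Dif} (hγ : InL F G nF nG q γ) :
    InL F G nF nG q γ⁻¹ := by
  have := inL_zpow h hγ (-1)
  rwa [zpow_neg_one] at this

theorem inL_one (F G : Dif) (nF nG q : ℤ) : InL F G nF nG q 1 :=
  ⟨0, 0, 0, by simp, by simp⟩

theorem inL_comm (h : Act F G) {γ δ : Dif} (hγ : InL F G nF nG q γ) (hδ : InL F G nF nG q δ) :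
    Commute γ δ := by
  obtain ⟨a, b, c, rfl, e⟩ := hγ
  obtain ⟨a', b', c', rfl, e'⟩ := hδ
  show _ * _ = _ * _
  rw [form_mul h, form_mul h, add_comm a, add_comm b, add_comm c]

theorem inL_T_comm (h : Act F G) {γ : Dif} (hγ : InL F G nF nG q γ) : Commute γ T := by
  obtain ⟨a, b, c, rfl, e⟩ := hγ
  exact ((h.FT.zpow_left a).mul_left (h.GT.zpow_left b)).mul_left ((Commute.refl T).zpow_left c)

/-- an element independent of a given one -/
theorem exists_indep (h : Rat F G nF nG q) {f : Dif} (hf : InL F G nF nG q f) (hf1 : f ≠ 1) :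
    ∃ u, InL F G nF nG q u ∧ ∀ a b : ℤ, f ^ a * u ^ b = 1 → b = 0 := by
  have hA : Act F G := h.toAct
  obtain ⟨a₁, b₁, c₁, rfl, e⟩ := hf
  have hq := h.q_pos
  by_cases hb : b₁ = 0
  · have ha : a₁ ≠ 0 := by
      rintro rfl
      subst hb
      apply hf1
      have : c₁ = 0 := by
        have : c₁ * q = 0 := by linear_combination e
        rcases mul_eq_zero.mp this with h1 | h1
        · exact h1
        · omega
      subst this
      simp
    refine ⟨F ^ (0 : ℤ) * G ^ q * T ^ (-nG), ⟨0, q, -nG, rfl, by ring⟩, fun a b hab => ?_⟩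
    rw [form_zpow hA, form_zpow hA, form_mul hA] at hab
    obtain ⟨h1, h2, -⟩ := hA.faithful _ _ _ hab
    have h3 : a₁ * a = 0 := by linear_combination h1
    have h4 : a = 0 := (mul_eq_zero.mp h3).resolve_left ha
    subst h4
    have h5 : q * b = 0 := by linear_combination h2
    exact (mul_eq_zero.mp h5).resolve_left hq.ne'
  · refine ⟨F ^ q * G ^ (0 : ℤ) * T ^ (-nF), ⟨q, 0, -nF, rfl, by ring⟩, fun a b hab => ?_⟩
    rw [form_zpow hA, form_zpow hA, form_mul hA] at hab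
    obtain ⟨h1, h2, -⟩ := hA.faithful _ _ _ hab
    have h3 : b₁ * a = 0 := by linear_combination h2
    have h4 : a = 0 := (mul_eq_zero.mp h3).resolve_left hb
    subst h4
    have h5 : q * b = 0 := by linear_combination h1
    exact (mul_eq_zero.mp h5).resolve_left hq.ne'

end group

section order

variable {F G : Dif} {nF nG q : ℤ}

theorem contDiff_sub_id (γ : Dif) : ContDiff ℝ ∞ (fun x => γ x - x) := γ.contDiff.sub contDiff_id

theorem iteratedDeriv_sub_id (γ : Dif) (l : ℕ) (z : ℝ) :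
    iteratedDeriv l (fun x => γ x - x) z =
      iteratedDeriv l (fun x => γ x) z - iteratedDeriv l (fun x : ℝ => x) z := by
  have h1 : ContDiffAt ℝ l (fun x => γ x) z := (γ.contDiff.of_le (by exact_mod_cast le_top)).contDiffAt
  have h2 : ContDiffAt ℝ l (fun x : ℝ => x) z := contDiffAt_id
  exact iteratedDeriv_sub h1 h2

theorem exists_order (hnf : NonFlat F G nF nG q) {z : ℝ}
    (hz : FixK F G nF nG q z) (hpar : ∀ f, InL F G nF nG q f → deriv f z = 1) :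
    ∃ j : ℕ, 2 ≤ j ∧
      (∀ γ, InL F G nF nG q γ → ∀ l < j, iteratedDeriv l (fun x => γ x - x) z = 0) ∧
      ∃ γ, InL F G nF nG q γ ∧ iteratedDeriv j (fun x => γ x - x) z ≠ 0 := by
  classical
  have hex : ∃ j : ℕ, ∃ γ, InL F G nF nG q γ ∧ iteratedDeriv j (fun x => γ x - x) z ≠ 0 := by
    obtain ⟨γ, hγ, hγ'⟩ := hnf z hz
    unfold FlatAt at hγ'
    push Not at hγ'
    obtain ⟨l, hl⟩ := hγ'
    refine ⟨l, γ, hγ, ?_⟩
    rw [iteratedDeriv_sub_id]
    exact sub_ne_zero.mpr hl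
  refine ⟨Nat.find hex, ?_, ?_, Nat.find_spec hex⟩
  · obtain ⟨γ, hγ, h1⟩ := Nat.find_spec hex
    by_contra hcon
    have h2 : Nat.find hex = 0 ∨ Nat.find hex = 1 := by omega
    rcases h2 with h2 | h2
    · rw [h2] at h1
      apply h1
      simp [hz γ hγ]
    · rw [h2] at h1
      apply h1
      rw [iteratedDeriv_sub_id, iteratedDeriv_one, iteratedDeriv_one]
      have h3 := hpar γ hγ
      simp only [deriv_id''] at *
      rw [h3]
      simp
  · intro γ hγ l hl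
    by_contra hcon
    exact Nat.find_min hex hl ⟨γ, hγ, hcon⟩

theorem exists_pair (h : Rat F G nF nG q) (hnf : NonFlat F G nF nG q) {z : ℝ}
    (hz : FixK F G nF nG q z) (hpar : ∀ f, InL F G nF nG q f → deriv f z = 1) :
    ∃ j : ℕ, 2 ≤ j ∧
      (∀ γ, InL F G nF nG q γ → ∀ l < j, iteratedDeriv l (fun x => γ x - x) z = 0) ∧
      ∃ f u : Dif, InL F G nF nG q f ∧ InL F G nF nG q u ∧ (∀ a b : ℤ, f ^ a * u ^ b = 1 → b = 0) ∧
        ∃ θ η : ℝ, 0 < η ∧ η < θ ∧ ∀ a b : ℤ, Lim z j (f ^ a * u ^ b) (a * θ + b * η) := by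
  have hA : Act F G := h.toAct
  obtain ⟨j, hj, hj1, g, hg, hg1⟩ := exists_order hnf hz hpar
  refine ⟨j, hj, hj1, ?_⟩
  -- the homomorphism
  set τ : Dif → ℝ := fun γ => iteratedDeriv j (fun x => γ x - x) z / j.factorial with hτ
  have hL : ∀ γ, InL F G nF nG q γ → Lim z j γ (τ γ) := fun γ hγ =>
    lim_of_jet (contDiff_sub_id γ) (hj1 γ hγ)
  have hmul : ∀ γ δ, InL F G nF nG q γ → InL F G nF nG q δ → τ (γ * δ) = τ γ + τ δ := by
    intro γ δ hγ hδ
    exact (hL _ (inL_mul hA hγ hδ)).unique ((hL γ hγ).mul (hL δ hδ) (hz δ hδ) (hpar δ hδ))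
  have hone : τ 1 = 0 := (hL 1 (inL_one _ _ _ _ _)).unique (lim_one z j)
  have hinv : ∀ γ, InL F G nF nG q γ → τ γ⁻¹ = - τ γ := by
    intro γ hγ
    have h1 := hmul γ γ⁻¹ hγ (inL_inv hA hγ)
    rw [mul_inv_cancel, hone] at h1
    linarith
  have hzpow : ∀ γ, InL F G nF nG q γ → ∀ n : ℤ, τ (γ ^ n) = n * τ γ := by
    intro γ hγ n
    induction n using Int.induction_on with
    | zero => simp [hone]
    | succ n ih =>
      rw [zpow_add_one, hmul _ _ (inL_zpow hA hγ _) hγ, ih]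
      push_cast; ring
    | pred n ih =>
      rw [zpow_sub_one, hmul _ _ (inL_zpow hA hγ _) (inL_inv hA hγ), ih, hinv γ hγ]
      push_cast; ring
  have hτg : τ g ≠ 0 := div_ne_zero hg1 (by positivity)
  -- a positive element
  obtain ⟨f₀, hf₀, hpos⟩ : ∃ f₀, InL F G nF nG q f₀ ∧ 0 < τ f₀ := by
    rcases lt_or_gt_of_ne hτg with h1 | h1
    · exact ⟨g⁻¹, inL_inv hA hg, by rw [hinv g hg]; linarith⟩
    · exact ⟨g, hg, h1⟩
  have hf₀1 : f₀ ≠ 1 := by
    rintro rfl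
    rw [hone] at hpos
    exact lt_irrefl _ hpos
  obtain ⟨u₀, hu₀, hind⟩ := exists_indep h hf₀ hf₀1
  set m : ℤ := ⌊τ u₀ / τ f₀⌋ with hm
  have hm1 : 0 ≤ τ u₀ - m * τ f₀ := by
    have := Int.floor_le (τ u₀ / τ f₀)
    rw [← hm, le_div_iff₀ hpos] at this
    linarith
  have hm2 : τ u₀ - m * τ f₀ < τ f₀ := by
    have := Int.lt_floor_add_one (τ u₀ / τ f₀)
    rw [← hm, div_lt_iff₀ hpos] at this
    linarith
  have hf2 : InL F G nF nG q (f₀ ^ (2 : ℤ)) := inL_zpow hA hf₀ 2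
  have hu2 : InL F G nF nG q (f₀ ^ (1 - m) * u₀) := inL_mul hA (inL_zpow hA hf₀ _) hu₀
  refine ⟨f₀ ^ (2 : ℤ), f₀ ^ (1 - m) * u₀, hf2, hu2, ?_, τ (f₀ ^ (2 : ℤ)),
    τ (f₀ ^ (1 - m) * u₀), ?_, ?_, ?_⟩
  · intro a b hab
    have hc : Commute (f₀ ^ (1 - m)) u₀ := (inL_comm hA hf₀ hu₀).zpow_left _
    rw [hc.mul_zpow, ← zpow_mul, ← zpow_mul, ← mul_assoc, ← zpow_add] at hab
    exact hind _ _ hab
  · rw [hmul _ _ (inL_zpow hA hf₀ _) hu₀, hzpow f₀ hf₀]
    push_cast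
    linarith
  · rw [hmul _ _ (inL_zpow hA hf₀ _) hu₀, hzpow f₀ hf₀, hzpow f₀ hf₀]
    push_cast
    linarith
  · intro a b
    have h1 := hL _ (inL_mul hA (inL_zpow hA hf2 a) (inL_zpow hA hu2 b))
    rwa [hmul _ _ (inL_zpow hA hf2 a) (inL_zpow hA hu2 b), hzpow _ hf2, hzpow _ hu2] at h1

theorem Lim.pos {z : ℝ} {j : ℕ} {g : Dif} {t : ℝ} (h : Lim z j g t) (ht : 0 < t) :
    ∀ᶠ x in 𝓝[>] z, x < g x := by
  have h1 := h.eventually (lt_mem_nhds ht)
  filter_upwards [h1, self_mem_nhdsWithin] with x hx hx'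
  have h2 : 0 < (x - z) ^ j := pow_pos (sub_pos.mpr hx') _
  have h3 := (div_pos_iff_of_pos_right h2).mp hx
  linarith

theorem exists_gap (h : Rat F G nF nG q)
    (hfix : ∀ γ : Dif, InL F G nF nG q γ → γ ≠ 1 → ∀ x : ℝ, γ x = x → FixK F G nF nG q x) {z : ℝ}
    (hz : FixK F G nF nG q z) {f : Dif} (hf : InL F G nF nG q f)
    (hpos : ∀ᶠ x in 𝓝[>] z, x < f x) :
    ∃ z₁, FixK F G nF nG q z₁ ∧ z < z₁ ∧ ∀ γ, InL F G nF nG q γ → ∀ x ∈ Ioo z z₁, x < γ x →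
      ∀ y ∈ Ioo z z₁, y < γ y := by
  have hA : Act F G := h.toAct
  set A : Set ℝ := {y | z < y ∧ FixK F G nF nG q y} with hAdef
  have hne : A.Nonempty := by
    refine ⟨z + 1, by linarith, fun γ hγ => ?_⟩
    have h1 := Dif.comm_apply (inL_T_comm hA hγ) z
    simp only [T_apply] at h1
    rw [h1, hz γ hγ]
  have hbdd : BddBelow A := ⟨z, fun y hy => hy.1.le⟩
  obtain ⟨δ, hδ, hδ'⟩ : ∃ δ > z, ∀ x ∈ Ioo z δ, x < f x := by
    obtain ⟨δ, hδ, h1⟩ := mem_nhdsGT_iff_exists_Ioo_subset.mp hpos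
    exact ⟨δ, hδ, fun x hx => h1 hx⟩
  have hle : δ ≤ sInf A := by
    refine le_csInf hne (fun y hy => ?_)
    by_contra hcon
    have h1 := hδ' y ⟨hy.1, not_le.mp hcon⟩
    rw [hy.2 f hf] at h1
    exact lt_irrefl _ h1
  refine ⟨sInf A, fun γ hγ => ?_, lt_of_lt_of_le hδ hle, fun γ hγ x hx hxγ y hy => ?_⟩
  · have hcl : IsClosed {y : ℝ | γ y = y} := isClosed_eq γ.continuous continuous_id
    have h1 : A ⊆ {y : ℝ | γ y = y} := fun y hy => hy.2 γ hγ
    exact (hcl.closure_subset_iff.mpr h1) (csInf_mem_closure hne hbdd)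
  · by_contra hcon
    push Not at hcon
    obtain ⟨w, hw, hw'⟩ := isPreconnected_Ioo.intermediate_value₂ hx hy
      (f := fun t => t) (g := fun t => γ t) continuous_id.continuousOn γ.continuous.continuousOn
      hxγ.le hcon
    have hγ1 : γ ≠ 1 := by
      rintro rfl
      exact lt_irrefl _ hxγ
    have h1 := hfix γ hγ hγ1 w hw'.symm
    exact absurd (csInf_le hbdd ⟨hw.1, h1⟩) (not_le.mpr hw.2)

end order

section analysis

theorem bound_of_cont {g : ℝ → ℝ} (hg : ContDiff ℝ ∞ g) (z : ℝ) (n : ℕ) :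
    ∃ C, 0 ≤ C ∧ ∀ y ∈ Icc z (z + 1), ∀ l ≤ n, |iteratedDeriv l g y| ≤ C := by
  have h1 : ∀ l : ℕ, ∃ C, 0 ≤ C ∧ ∀ y ∈ Icc z (z + 1), |iteratedDeriv l g y| ≤ C := by
    intro l
    have hc : Continuous (iteratedDeriv l g) := hg.continuous_iteratedDeriv l (by exact_mod_cast le_top)
    obtain ⟨C, hC⟩ := isCompact_Icc.exists_bound_of_continuousOn (s := Icc z (z + 1)) hc.continuousOn
    exact ⟨C, (norm_nonneg _).trans (hC z ⟨le_rfl, by linarith⟩), fun y hy => hC y hy⟩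
  choose C hC0 hC using h1
  refine ⟨∑ l ∈ Finset.range (n + 1), C l, Finset.sum_nonneg (fun l _ => hC0 l), fun y hy l hl => ?_⟩
  exact (hC l y hy).trans (Finset.single_le_sum (f := C) (fun i _ => hC0 i)
    (Finset.mem_range.mpr (by omega)))

theorem bound_jet {g : ℝ → ℝ} (hg : ContDiff ℝ ∞ g) {z : ℝ} {j : ℕ}
    (h0 : ∀ l < j, iteratedDeriv l g z = 0) (n : ℕ) :
    ∃ C, 0 ≤ C ∧ ∀ y ∈ Icc z (z + 1), ∀ l ≤ n, |iteratedDeriv l g y| ≤ C * (y - z) ^ (j - l) := by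
  obtain ⟨C, hC0, hC⟩ := bound_of_cont hg z (max n j)
  refine ⟨C, hC0, ?_⟩
  have key : ∀ k ≤ j, ∀ y ∈ Icc z (z + 1), |iteratedDeriv (j - k) g y| ≤ C * (y - z) ^ k := by
    intro k
    induction k with
    | zero =>
      intro _ y hy
      rw [pow_zero, mul_one]
      exact hC y hy _ (le_max_of_le_right (Nat.sub_le _ _))
    | succ k ih =>
      intro hk y hy
      have ih' := ih (by omega)
      have h1 : |iteratedDeriv (j - (k + 1)) g y - iteratedDeriv (j - (k + 1)) g z| ≤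
          C * (y - z) ^ k * |y - z| := by
        have := Convex.norm_image_sub_le_of_norm_deriv_le
          (f := iteratedDeriv (j - (k + 1)) g) (C := C * (y - z) ^ k)
          (s := Icc z y) (x := z) (y := y)
          (fun s hs => (contDiffAt_iteratedDeriv hg.contDiffAt _).differentiableAt (by simp))
          (fun s hs => by
            rw [Real.norm_eq_abs, ← iteratedDeriv_succ, show j - (k + 1) + 1 = j - k by omega]
            refine (ih' s ⟨hs.1, hs.2.trans hy.2⟩).trans ?_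
            refine mul_le_mul_of_nonneg_left ?_ hC0
            exact pow_le_pow_left₀ (by linarith [hs.1]) (by linarith [hs.2]) _)
          (convex_Icc _ _) ⟨le_rfl, hy.1⟩ ⟨hy.1, le_rfl⟩
        simpa [Real.norm_eq_abs] using this
      rw [h0 _ (by omega), sub_zero, abs_of_nonneg (by linarith [hy.1] : 0 ≤ y - z)] at h1
      rw [pow_succ, ← mul_assoc]
      exact h1
  intro y hy l hl
  rcases le_total j l with h1 | h1
  · rw [Nat.sub_eq_zero_of_le h1, pow_zero, mul_one]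
    exact hC y hy l (le_max_of_le_left hl)
  · have h2 := key (j - l) (Nat.sub_le _ _) y hy
    rwa [show j - (j - l) = l by omega] at h2

theorem window {f : Dif} {z : ℝ} (hz : ∀ k : ℤ, (f ^ k) z = z)
    (h1 : ∀ k : ℤ, deriv (f ^ k : Dif) z = 1) (K : ℕ) {δ : ℝ} (hδ : 0 < δ) :
    ∀ᶠ x in 𝓝[>] z, ∀ y ∈ Icc ((f ^ (-(K : ℤ))) x) ((f ^ (K : ℤ)) x),
      (1 - δ) * (x - z) ≤ y - z ∧ y - z ≤ (1 + δ) * (x - z) := by
  have e1 := (ratio_tendsto (hz (-(K : ℤ))) (h1 _)).eventually (lt_mem_nhds (by linarith : 1 - δ < 1))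
  have e2 := (ratio_tendsto (hz (K : ℤ)) (h1 _)).eventually (gt_mem_nhds (by linarith : 1 < 1 + δ))
  filter_upwards [e1, e2, self_mem_nhdsWithin] with x h2 h3 h4 y hy
  have hx : 0 < x - z := sub_pos.mpr h4
  rw [lt_div_iff₀ hx] at h2
  rw [div_lt_iff₀ hx] at h3
  constructor
  · linarith [hy.1]
  · linarith [hy.2]

end analysis

/-- the statement of the local lemma -/
def LocalLemma : Prop := ∀ (r m B : ℕ), ∃ B₂ : ℕ, ∀ B₁ : ℕ, ∃ n K : ℕ, ∀ C : ℝ, ∃ ν₀ : ℝ, 0 < ν₀ ∧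
    ∀ (S u : Dif) (x₀ a ν θ η : ℝ), Commute S u → 0 < a → 0 < ν → ν ≤ ν₀ → 0 < η → η < θ →
    x₀ < S x₀ →
    (∀ a' b' : ℤ, 0 < a' * θ + b' * η →
      ∀ z ∈ Icc ((S ^ (-(K : ℤ))) x₀) ((S ^ (K : ℤ)) x₀), z < (S ^ a' * u ^ b') z) →
    (∀ z ∈ Icc ((S ^ (-(K : ℤ))) x₀) ((S ^ (K : ℤ)) x₀),
      a / 2 ≤ S z - z ∧ S z - z ≤ 2 * a ∧
      (∀ l ≤ n, |iteratedDeriv l (fun y => S y - y) z| ≤ C * a * (ν / a) ^ l) ∧
      ∀ l, 1 ≤ l → l ≤ n → |iteratedDeriv l (S⁻¹ : Dif) z| ≤ C * (ν / a) ^ (l - 1) ∧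
        |iteratedDeriv l u z| ≤ C * (ν / a) ^ (l - 1) ∧
        |iteratedDeriv l (u⁻¹ : Dif) z| ≤ C * (ν / a) ^ (l - 1)) →
    (∀ a' b' : ℤ, |(b' : ℝ)| ≤ (1 / ν) ^ B₁ → |a' * θ + b' * η| ≤ 2 * θ →
      ∀ z ∈ Icc ((S ^ (-(m : ℤ))) x₀) ((S ^ (m : ℤ)) x₀),
        1 / 2 ≤ deriv (S ^ a' * u ^ b' : Dif) z ∧ deriv (S ^ a' * u ^ b' : Dif) z ≤ 2) ∧
    (∀ a' b' : ℤ, |(b' : ℝ)| ≤ (1 / ν) ^ B₁ → |a' * θ + b' * η| ≤ ν ^ B₂ * θ →
      ∀ z ∈ Icc ((S ^ (-(m : ℤ))) x₀) ((S ^ (m : ℤ)) x₀), ∀ l ≤ r,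
        |iteratedDeriv l (fun y => (S ^ a' * u ^ b') y - y) z| ≤ ν ^ B * a / a ^ l)

/-- Dirichlet's theorem in the form needed -/
theorem dirichlet {θ η ν : ℝ} (hθ : 0 < θ) (hν : 0 < ν) (hν1 : ν ≤ 1) (J B₂ : ℕ)
    (hJ : (J : ℝ) * (J + 2) * ν ≤ 1) :
    ∃ a b : ℤ, 0 < b ∧ ∀ i : ℤ, |i| ≤ J →
      |((i * b : ℤ) : ℝ)| ≤ (1 / ν) ^ (B₂ + 1) ∧
      |((i * a : ℤ) : ℝ) * θ + ((i * b : ℤ) : ℝ) * η| ≤ ν ^ B₂ * θ := by
  set N : ℕ := ⌈(J : ℝ) * (1 / ν) ^ B₂⌉₊ + 1 with hN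
  obtain ⟨j, k, hk0, hkN, hjk⟩ := Real.exists_int_int_abs_mul_sub_le (η / θ) (n := N) (by omega)
  have h1 : (J : ℝ) * (1 / ν) ^ B₂ ≤ N := by
    rw [hN]
    push_cast
    have := Nat.le_ceil ((J : ℝ) * (1 / ν) ^ B₂)
    linarith
  have hpw : (1 : ℝ) ≤ (1 / ν) ^ B₂ := one_le_pow₀ (by rw [le_div_iff₀ hν]; linarith)
  have h2 : (N : ℝ) ≤ (J : ℝ) * (1 / ν) ^ B₂ + 2 := by
    rw [hN]
    push_cast
    have := Nat.ceil_lt_add_one (by positivity : 0 ≤ (J : ℝ) * (1 / ν) ^ B₂)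
    linarith
  have hprod : ν ^ B₂ * (1 / ν) ^ B₂ = 1 := by
    rw [← mul_pow, mul_one_div_cancel hν.ne', one_pow]
  have h3 : (J : ℝ) ≤ ν ^ B₂ * N := by
    calc (J : ℝ) = ν ^ B₂ * (J * (1 / ν) ^ B₂) := by rw [mul_left_comm, hprod, mul_one]
      _ ≤ ν ^ B₂ * N := mul_le_mul_of_nonneg_left h1 (by positivity)
  refine ⟨-j, k, hk0, fun i hi => ?_⟩
  have hiJ : |(i : ℝ)| ≤ J := by
    have : ((|i| : ℤ) : ℝ) ≤ ((J : ℤ) : ℝ) := by exact_mod_cast hi
    simpa using this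
  constructor
  · have hk0' : (0 : ℝ) < k := by exact_mod_cast hk0
    have hkN' : (k : ℝ) ≤ N := by exact_mod_cast hkN
    push_cast
    rw [abs_mul, abs_of_pos hk0']
    have h4 : (J : ℝ) * (J * (1 / ν) ^ B₂ + 2) ≤ J * (J + 2) * (1 / ν) ^ B₂ := by
      have : (J : ℝ) * 2 * 1 ≤ J * 2 * (1 / ν) ^ B₂ := mul_le_mul_of_nonneg_left hpw (by positivity)
      nlinarith
    have h5 : (J : ℝ) * (J + 2) ≤ 1 / ν := by
      rw [le_div_iff₀ hν]; exact hJ
    calc |(i : ℝ)| * k ≤ J * N := mul_le_mul hiJ hkN' hk0'.le (by positivity)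
      _ ≤ J * (J * (1 / ν) ^ B₂ + 2) := mul_le_mul_of_nonneg_left h2 (by positivity)
      _ ≤ J * (J + 2) * (1 / ν) ^ B₂ := h4
      _ ≤ (1 / ν) * (1 / ν) ^ B₂ := mul_le_mul_of_nonneg_right h5 (by positivity)
      _ = (1 / ν) ^ (B₂ + 1) := by rw [pow_succ']
  · have h6 : ((i * -j : ℤ) : ℝ) * θ + ((i * k : ℤ) : ℝ) * η = i * θ * (k * (η / θ) - j) := by
      push_cast
      field_simp
      ring
    rw [h6, abs_mul, abs_mul, abs_of_pos hθ]
    have hN' : (0 : ℝ) < N + 1 := by positivity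
    calc |(i : ℝ)| * θ * |k * (η / θ) - j| ≤ J * θ * (1 / (N + 1)) :=
        mul_le_mul (mul_le_mul_of_nonneg_right hiJ hθ.le) hjk (abs_nonneg _) (by positivity)
      _ ≤ (ν ^ B₂ * N) * θ * (1 / (N + 1)) := by
          refine mul_le_mul_of_nonneg_right (mul_le_mul_of_nonneg_right h3 hθ.le) (by positivity)
      _ = ν ^ B₂ * θ * (N / (N + 1)) := by ring
      _ ≤ ν ^ B₂ * θ * 1 := by
          refine mul_le_mul_of_nonneg_left ?_ (by positivity)
          rw [div_le_one hN']; linarith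
      _ = ν ^ B₂ * θ := mul_one _


section main

variable {F G : Dif} {nF nG q : ℤ}

theorem tinyNear_of_par_aux (hLL : LocalLemma) (h : Rat F G nF nG q) (hnf : NonFlat F G nF nG q)
    (hfix : ∀ γ : Dif, InL F G nF nG q γ → γ ≠ 1 → ∀ x : ℝ, γ x = x → FixK F G nF nG q x)
    {z : ℝ} (hz : FixK F G nF nG q z) (hpar : ∀ f, InL F G nF nG q f → deriv f z = 1) (r : ℕ) :
    TinyNear F G nF nG q r := by
  have hA : Act F G := h.toAct
  obtain ⟨j, hj, hj1, f, u, hf, hu, hind, θ, η, hη, hηθ, hlim⟩ := exists_pair h hnf hz hpar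
  have hθ : 0 < θ := hη.trans hηθ
  have hlimf : Lim z j f θ := by
    have := hlim 1 0
    simpa using this
  have hposf : ∀ᶠ x in 𝓝[>] z, x < f x := hlimf.pos hθ
  obtain ⟨z₁, hz₁, hzz₁, hgap⟩ := exists_gap h hfix hz hf hposf
  have hgapev : ∀ᶠ x in 𝓝[>] z, x ∈ Ioo z z₁ := Ioo_mem_nhdsGT hzz₁
  have hsign : ∀ a' b' : ℤ, 0 < a' * θ + b' * η → ∀ y ∈ Ioo z z₁, y < (f ^ a' * u ^ b') y := by
    intro a' b' hab y hy
    obtain ⟨x, hx1, hx2⟩ := (((hlim a' b').pos hab).and hgapev).exists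
    exact hgap _ (inL_mul hA (inL_zpow hA hf _) (inL_zpow hA hu _)) x hx2 hx1 y hy
  have hfpos : ∀ y ∈ Ioo z z₁, y < f y := by
    intro y hy
    have := hsign 1 0 (by simpa using hθ) y hy
    simpa using this
  refine ⟨f, hf, z, z₁, hz, hz₁, hzz₁, hfpos, fun J₀ ε hε => ?_⟩
  have hfz : ∀ k : ℤ, (f ^ k) z = z := fun k => hz _ (inL_zpow hA hf k)
  have hfz₁ : ∀ k : ℤ, (f ^ k) z₁ = z₁ := fun k => hz₁ _ (inL_zpow hA hf k)
  have hfd : ∀ k : ℤ, deriv (f ^ k : Dif) z = 1 := fun k => hpar _ (inL_zpow hA hf k)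
  -- points of the orbit
  have horb : ∀ x ∈ Ioo z z₁, ∀ k : ℤ, (f ^ k) x ∈ Ioo z z₁ := by
    intro x hx k
    have h1 := (f ^ k).lt_iff.mpr hx.1
    have h2 := (f ^ k).lt_iff.mpr hx.2
    rw [hfz] at h1
    rw [hfz₁] at h2
    exact ⟨h1, h2⟩
  have hmono : ∀ x ∈ Ioo z z₁, StrictMono (fun k : ℤ => (f ^ k) x) := by
    intro x hx
    refine strictMono_int_of_lt_succ (fun k => ?_)
    have h1 := hfpos _ (horb x hx k)
    have h2 : (f ^ (k + 1)) x = f ((f ^ k) x) := by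
      rw [add_comm, zpow_one_add]; rfl
    rw [h2]
    exact h1
  -- parameters
  obtain ⟨B₂, hLL⟩ := hLL r J₀ (2 * r * j + 1)
  obtain ⟨n, K, hLL⟩ := hLL (B₂ + 1)
  obtain ⟨C₁, hC₁, hC₁'⟩ := bound_jet (contDiff_sub_id f) (hj1 f hf) n
  obtain ⟨C₂, hC₂, hC₂'⟩ := bound_of_cont (f⁻¹).contDiff z n
  obtain ⟨C₃, hC₃, hC₃'⟩ := bound_of_cont u.contDiff z n
  obtain ⟨C₄, hC₄, hC₄'⟩ := bound_of_cont (u⁻¹).contDiff z n
  set C : ℝ := C₁ * 2 ^ j / θ + C₂ + C₃ + C₄ with hC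
  obtain ⟨ν₀, hν₀, hLL⟩ := hLL C
  set K' : ℕ := K + J₀ + 1 with hK'
  -- the small number `δ`
  obtain ⟨δ, hδ0, hδ1, hδ2, hδ3⟩ : ∃ δ : ℝ, 0 < δ ∧ δ < 1 / 2 ∧ 2 / 3 < (1 - δ) ^ j ∧
      (1 + δ) ^ j < 4 / 3 := by
    have t1 : Tendsto (fun δ : ℝ => (1 - δ) ^ j) (𝓝[>] 0) (𝓝 1) := by
      have : Continuous (fun δ : ℝ => (1 - δ) ^ j) := by fun_prop
      have h1 := this.tendsto 0
      simp only [sub_zero, one_pow] at h1
      exact h1.mono_left nhdsWithin_le_nhds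
    have t2 : Tendsto (fun δ : ℝ => (1 + δ) ^ j) (𝓝[>] 0) (𝓝 1) := by
      have : Continuous (fun δ : ℝ => (1 + δ) ^ j) := by fun_prop
      have h1 := this.tendsto 0
      simp only [add_zero, one_pow] at h1
      exact h1.mono_left nhdsWithin_le_nhds
    have e1 := t1.eventually (lt_mem_nhds (by norm_num : (2 / 3 : ℝ) < 1))
    have e2 := t2.eventually (gt_mem_nhds (by norm_num : (1 : ℝ) < 4 / 3))
    have e3 : ∀ᶠ δ : ℝ in 𝓝[>] 0, δ ∈ Ioo (0 : ℝ) (1 / 2) := Ioo_mem_nhdsGT (by norm_num)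
    obtain ⟨δ, h1, h2, h3⟩ := (e1.and (e2.and e3)).exists
    exact ⟨δ, h3.1, h3.2, h1, h2⟩
  -- an interval where `f y - y` is close to `θ (y - z)^j`
  obtain ⟨ρ, hρ, hρ'⟩ : ∃ ρ > z, ∀ y ∈ Ioo z ρ,
      3 / 4 * θ * (y - z) ^ j ≤ f y - y ∧ f y - y ≤ 3 / 2 * θ * (y - z) ^ j := by
    have e1 := hlimf.eventually (lt_mem_nhds (by linarith : 3 / 4 * θ < θ))
    have e2 := hlimf.eventually (gt_mem_nhds (by linarith : θ < 3 / 2 * θ))
    obtain ⟨ρ, hρ, h1⟩ := mem_nhdsGT_iff_exists_Ioo_subset.mp (e1.and e2)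
    refine ⟨ρ, hρ, fun y hy => ?_⟩
    have hyz : 0 < (y - z) ^ j := pow_pos (sub_pos.mpr hy.1) _
    obtain ⟨h2, h3⟩ := h1 hy
    rw [lt_div_iff₀ hyz] at h2
    rw [div_lt_iff₀ hyz] at h3
    exact ⟨h2.le, h3.le⟩
  -- conditions on `x₀`
  have t0 : Tendsto (fun x : ℝ => x - z) (𝓝[>] z) (𝓝 0) := by
    have : Continuous (fun x : ℝ => x - z) := by fun_prop
    have h1 := this.tendsto z
    simp only [sub_self] at h1
    exact h1.mono_left nhdsWithin_le_nhds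
  have tpow : ∀ (c : ℝ) (i : ℕ), 1 ≤ i → Tendsto (fun x : ℝ => c * (x - z) ^ i) (𝓝[>] z) (𝓝 0) := by
    intro c i hi
    have h1 := (t0.pow i).const_mul c
    rwa [zero_pow (by omega), mul_zero] at h1
  have ev : ∀ (c c' : ℝ) (i : ℕ), 1 ≤ i → 0 < c' → ∀ᶠ x in 𝓝[>] z, c * (x - z) ^ i < c' :=
    fun c c' i hi hc' => (tpow c i hi).eventually (gt_mem_nhds hc')
  have c1 := ev θ ν₀ (j - 1) (by omega) hν₀
  have c2 := ev 1 (1 / 2) 1 le_rfl (by norm_num)
  have c3 := window hfz hfd K' hδ0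
  have c4 := ev (1 + δ) (min (z₁ - z) (ρ - z)) 1 le_rfl
    (lt_min (sub_pos.mpr hzz₁) (sub_pos.mpr hρ))
  have c6 := ev ((J₀ : ℝ) * (J₀ + 2) * θ) 1 (j - 1) (by omega) one_pos
  have c7 := ev (θ ^ (2 * r * j + 1) * 2 ^ r) (ε * θ ^ (2 * r)) 1 le_rfl (by positivity)
  have c8 := ev θ 1 j (by omega) one_pos
  have c9 := ev (2 * θ) 1 (j - 1) (by omega) one_pos
  obtain ⟨x₀, c1, c2, c3, c4, c6, c7, c8, c9, hx₀⟩ :=
    (c1.and (c2.and (c3.and (c4.and (c6.and (c7.and (c8.and (c9.and hgapev)))))))).exists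
  set w : ℝ := x₀ - z with hw
  have hw0 : 0 < w := sub_pos.mpr hx₀.1
  rw [pow_one] at c2 c4 c7
  rw [one_mul] at c2
  set a : ℝ := θ * w ^ j with ha
  set ν : ℝ := θ * w ^ (j - 1) with hν
  have ha0 : 0 < a := by positivity
  have hν0 : 0 < ν := by positivity
  have hwj : w ^ j = w ^ (j - 1) * w := by
    rw [← pow_succ]; congr 1; omega
  have haν : a = ν * w := by rw [ha, hν, hwj]; ring
  have hνa : ν / a = 1 / w := by
    rw [haν]; field_simp
  have hw1 : 1 ≤ 1 / w := by rw [le_div_iff₀ hw0]; linarith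
  have hν1 : ν ≤ 1 / 2 := by linarith
  -- the window
  have hwin : ∀ y ∈ Icc ((f ^ (-(K' : ℤ))) x₀) ((f ^ (K' : ℤ)) x₀),
      y ∈ Ioo z z₁ ∧ (1 - δ) * w ≤ y - z ∧ y - z ≤ (1 + δ) * w ∧ y ∈ Icc z (z + 1) ∧
      a / 2 ≤ f y - y ∧ f y - y ≤ 2 * a := by
    intro y hy
    obtain ⟨h1, h2⟩ := c3 y hy
    have h3 : 0 < (1 - δ) * w := mul_pos (by linarith) hw0
    have h4 : z < y := by linarith
    have h5 : y - z < min (z₁ - z) (ρ - z) := lt_of_le_of_lt h2 c4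
    have h6 : y < z₁ := by have := lt_of_lt_of_le h5 (min_le_left _ _); linarith
    have h7 : y < ρ := by have := lt_of_lt_of_le h5 (min_le_right _ _); linarith
    have h8 : y - z ≤ 1 := by nlinarith
    obtain ⟨h9, h10⟩ := hρ' y ⟨h4, h7⟩
    have h11 : 2 / 3 * w ^ j ≤ (y - z) ^ j := by
      calc 2 / 3 * w ^ j ≤ (1 - δ) ^ j * w ^ j := mul_le_mul_of_nonneg_right hδ2.le (by positivity)
        _ = ((1 - δ) * w) ^ j := by rw [mul_pow]
        _ ≤ (y - z) ^ j := pow_le_pow_left₀ h3.le h1 _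
    have h12 : (y - z) ^ j ≤ 4 / 3 * w ^ j := by
      calc (y - z) ^ j ≤ ((1 + δ) * w) ^ j := pow_le_pow_left₀ (by linarith) h2 _
        _ = (1 + δ) ^ j * w ^ j := by rw [mul_pow]
        _ ≤ 4 / 3 * w ^ j := mul_le_mul_of_nonneg_right hδ3.le (by positivity)
    refine ⟨⟨h4, h6⟩, h1, h2, ⟨h4.le, by linarith⟩, ?_, ?_⟩
    · calc a / 2 = 3 / 4 * θ * (2 / 3 * w ^ j) := by rw [ha]; ring
        _ ≤ 3 / 4 * θ * (y - z) ^ j := mul_le_mul_of_nonneg_left h11 (by positivity)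
        _ ≤ _ := h9
    · calc f y - y ≤ 3 / 2 * θ * (y - z) ^ j := h10
        _ ≤ 3 / 2 * θ * (4 / 3 * w ^ j) := mul_le_mul_of_nonneg_left h12 (by positivity)
        _ = 2 * a := by rw [ha]; ring
  have hsub : ∀ m : ℕ, m ≤ K' → Icc ((f ^ (-(m : ℤ))) x₀) ((f ^ (m : ℤ)) x₀) ⊆
      Icc ((f ^ (-(K' : ℤ))) x₀) ((f ^ (K' : ℤ)) x₀) := by
    intro m hm
    exact Icc_subset_Icc ((hmono x₀ hx₀).monotone (by omega)) ((hmono x₀ hx₀).monotone (by omega))
  -- apply the local lemma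
  have hLL' := (hLL f u x₀ a ν θ η (inL_comm hA hf hu) ha0 hν0 c1.le hη hηθ (hfpos x₀ hx₀)
    (fun a' b' hab y hy => hsign a' b' hab y (hwin y (hsub K (by omega) hy)).1) (by
      intro y hy
      obtain ⟨h1, h2, h3, h4, h5, h6⟩ := hwin y (hsub K (by omega) hy)
      have hyz : 0 ≤ y - z := sub_nonneg.mpr h4.1
      refine ⟨h5, h6, fun l hl => ?_, fun l hl1 hl2 => ?_⟩
      · refine (hC₁' y h4 l hl).trans ?_
        rw [hνa]
        have h7 : (y - z) ^ (j - l) ≤ 2 ^ j * w ^ (j - l) := by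
          calc (y - z) ^ (j - l) ≤ (2 * w) ^ (j - l) :=
              pow_le_pow_left₀ hyz (by nlinarith) _
            _ = 2 ^ (j - l) * w ^ (j - l) := mul_pow _ _ _
            _ ≤ 2 ^ j * w ^ (j - l) := mul_le_mul_of_nonneg_right
                (pow_le_pow_right₀ (by norm_num) (Nat.sub_le _ _)) (by positivity)
        have h8 : w ^ (j - l) ≤ w ^ j * (1 / w) ^ l := by
          rcases le_total l j with h9 | h9
          · have h10 : w ^ j = w ^ (j - l) * w ^ l := by rw [← pow_add]; congr 1; omega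
            rw [h10, mul_assoc, ← mul_pow, mul_one_div_cancel hw0.ne', one_pow, mul_one]
          · rw [Nat.sub_eq_zero_of_le h9, pow_zero]
            have h10 : (1 / w) ^ l = (1 / w) ^ (l - j) * (1 / w) ^ j := by
              rw [← pow_add]; congr 1; omega
            rw [h10, mul_left_comm, ← mul_pow, mul_one_div_cancel hw0.ne', one_pow, mul_one]
            exact one_le_pow₀ hw1
        have h9 : C₁ * 2 ^ j / θ ≤ C := by rw [hC]; linarith
        calc C₁ * (y - z) ^ (j - l) ≤ C₁ * (2 ^ j * (w ^ j * (1 / w) ^ l)) :=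
            mul_le_mul_of_nonneg_left (h7.trans (mul_le_mul_of_nonneg_left h8 (by positivity))) hC₁
          _ = C₁ * 2 ^ j / θ * a * (1 / w) ^ l := by rw [ha]; field_simp
          _ ≤ C * a * (1 / w) ^ l := by
              refine mul_le_mul_of_nonneg_right (mul_le_mul_of_nonneg_right h9 ha0.le) (by positivity)
      · rw [hνa]
        have h7 : 1 ≤ (1 / w) ^ (l - 1) := one_le_pow₀ hw1
        have h8 : 0 ≤ C₁ * 2 ^ j / θ := by positivity
        have key : ∀ t c : ℝ, 0 ≤ c → t ≤ c → c ≤ C → t ≤ C * (1 / w) ^ (l - 1) := by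
          intro t c hc htc hcC
          calc t ≤ C * 1 := by linarith
            _ ≤ C * (1 / w) ^ (l - 1) := mul_le_mul_of_nonneg_left h7 (by linarith)
        exact ⟨key _ C₂ hC₂ (hC₂' y h4 l hl2) (by rw [hC]; linarith),
          key _ C₃ hC₃ (hC₃' y h4 l hl2) (by rw [hC]; linarith),
          key _ C₄ hC₄ (hC₄' y h4 l hl2) (by rw [hC]; linarith)⟩)).2
  -- Dirichlet
  obtain ⟨a', b', hb', hab⟩ := dirichlet (η := η) hθ hν0 (by linarith) J₀ B₂ (by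
    calc (J₀ : ℝ) * (J₀ + 2) * ν = J₀ * (J₀ + 2) * θ * w ^ (j - 1) := by rw [hν]; ring
      _ ≤ 1 := c6.le)
  set s : Dif := f ^ a' * u ^ b' with hs
  have hspow : ∀ i : ℤ, s ^ i = f ^ (i * a') * u ^ (i * b') := by
    intro i
    have hc : Commute (f ^ a') (u ^ b') := (inL_comm hA hf hu).zpow_zpow _ _
    rw [hs, hc.mul_zpow, ← zpow_mul, ← zpow_mul, mul_comm a', mul_comm b']
  have hsmall : ∀ i : ℤ, |i| ≤ J₀ → ∀ y ∈ Icc ((f ^ (-(J₀ : ℤ))) x₀) ((f ^ (J₀ : ℤ)) x₀),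
      ∀ l ≤ r, |iteratedDeriv l (fun t => (s ^ i) t - t) y| ≤ ν ^ (2 * r * j + 1) * a / a ^ l := by
    intro i hi y hy l hl
    obtain ⟨h1, h2⟩ := hab i hi
    rw [hspow i]
    exact hLL' (i * a') (i * b') h1 h2 y hy l hl
  have hνB : ν ^ (2 * r * j + 1) ≤ ν := by
    calc ν ^ (2 * r * j + 1) = ν ^ (2 * r * j) * ν := pow_succ _ _
      _ ≤ 1 * ν := mul_le_mul_of_nonneg_right (pow_le_one₀ hν0.le (by linarith)) hν0.le
      _ = ν := one_mul _
  refine ⟨x₀, hx₀, a / 2, by positivity, by linarith [c8], s,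
    inL_mul hA (inL_zpow hA hf _) (inL_zpow hA hu _), ?_, ?_⟩
  · intro hs1
    have := hind a' b' hs1
    omega
  · intro y hy
    have hyK := hsub J₀ (by omega) hy
    obtain ⟨h1, h2, h3, h4, h5, h6⟩ := hwin y hyK
    refine ⟨h5, fun i hi => ?_⟩
    have h7 := hsmall i hi y hy 0 (Nat.zero_le _)
    rw [iteratedDeriv_zero, pow_zero, div_one] at h7
    have h8 : ν ^ (2 * r * j + 1) * a ≤ a / 2 := by
      have := mul_le_mul_of_nonneg_right (hνB.trans hν1) ha0.le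
      linarith
    have h9 := abs_le.mp (h7.trans h8)
    refine ⟨?_, by linarith [h9.2], fun l hl => ?_⟩
    · -- the point `f⁻¹ y`
      have hy' : f⁻¹ y ∈ Icc ((f ^ (-(K' : ℤ))) x₀) ((f ^ (K' : ℤ)) x₀) := by
        have e1 : f⁻¹ y < y := by
          rw [Dif.inv_lt_iff]
          exact hfpos y h1
        refine ⟨?_, e1.le.trans hyK.2⟩
        rw [Dif.le_inv_iff]
        have e2 : f ((f ^ (-(K' : ℤ))) x₀) = (f ^ (1 + -(K' : ℤ))) x₀ := by
          rw [zpow_one_add]; rfl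
        rw [e2]
        exact ((hmono x₀ hx₀).monotone (by omega)).trans hy.1
      have h10 := (hwin _ hy').2.2.2.2.1
      rw [Dif.apply_inv_self] at h10
      linarith [h9.1]
    · refine (hsmall i hi y hy l hl).trans ?_
      have ha1 : a ≤ 1 := c8.le
      rw [div_le_iff₀ (by positivity)]
      have h10 : a ^ (2 * r) ≤ a ^ r * a ^ l := by
        rw [← pow_add]
        exact pow_le_pow_of_le_one ha0.le ha1 (by omega)
      have h11 : ν ^ (2 * r * j + 1) * 2 ^ r ≤ ε * a ^ (2 * r) := by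
        have e1 : (w ^ (j - 1)) ^ (2 * r * j + 1) ≤ w ^ (2 * r * j + 1) := by
          rw [← pow_mul]
          refine pow_le_pow_of_le_one hw0.le (by linarith) ?_
          exact Nat.le_mul_of_pos_left _ (by omega)
        calc ν ^ (2 * r * j + 1) * 2 ^ r
            = θ ^ (2 * r * j + 1) * 2 ^ r * (w ^ (j - 1)) ^ (2 * r * j + 1) := by
              rw [hν, mul_pow]; ring
          _ ≤ θ ^ (2 * r * j + 1) * 2 ^ r * w ^ (2 * r * j + 1) :=
              mul_le_mul_of_nonneg_left e1 (by positivity)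
          _ = (θ ^ (2 * r * j + 1) * 2 ^ r * w) * w ^ (2 * r * j) := by rw [pow_succ w]; ring
          _ ≤ (ε * θ ^ (2 * r)) * w ^ (2 * r * j) :=
              mul_le_mul_of_nonneg_right c7.le (by positivity)
          _ = ε * a ^ (2 * r) := by
              rw [ha, mul_pow, ← pow_mul, mul_comm j (2 * r)]; ring
      have h12 : ν ^ (2 * r * j + 1) * a ≤ ν ^ (2 * r * j + 1) :=
        mul_le_of_le_one_right (by positivity) ha1
      have h2r : (0 : ℝ) < 2 ^ r := by positivity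
      calc ν ^ (2 * r * j + 1) * a ≤ ν ^ (2 * r * j + 1) := h12
        _ = (ν ^ (2 * r * j + 1) * 2 ^ r) / 2 ^ r := by field_simp
        _ ≤ (ε * a ^ (2 * r)) / 2 ^ r := div_le_div_of_nonneg_right h11 h2r.le
        _ ≤ (ε * (a ^ r * a ^ l)) / 2 ^ r :=
            div_le_div_of_nonneg_right (mul_le_mul_of_nonneg_left h10 hε.le) h2r.le
        _ = ε * (a / 2) ^ r * a ^ l := by rw [div_pow]; ring

end main

end BP

end Pool.Agent.F88
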