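import Pool.Agent.Lib.MP_f88c17.Defs2

/-!
# Task GEO1a: Denjoy estimates at one level
-/

set_option autoImplicit false

open Set Filter Topology
open scoped ContDiff

namespace Pool.Agent.F88

namespace GEO1a

/-! ### Smoothness -/

theorem deriv_contDiff (g : Dif) : ContDiff ℝ ∞ (deriv (fun y => g y)) :=
  (contDiff_infty_iff_deriv.1 g.contDiff).2

theorem logD_contDiff (g : Dif) : ContDiff ℝ ∞ (logD g) := by
  have h := (deriv_contDiff g).log (fun x => (g.deriv_pos x).ne')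
  exact h

theorem psi_contDiff (g : Dif) : ContDiff ℝ ∞ (psi g) :=
  (contDiff_infty_iff_deriv.1 (logD_contDiff g)).2

theorem hasDerivAt_logD (g : Dif) (x : ℝ) : HasDerivAt (logD g) (psi g x) x :=
  ((logD_contDiff g).differentiable (by simp) x).hasDerivAt

theorem hasDerivAt_psi (g : Dif) (x : ℝ) : HasDerivAt (psi g) (deriv (psi g) x) x :=
  ((psi_contDiff g).differentiable (by simp) x).hasDerivAt

theorem hasDerivAt_dif (g : Dif) (x : ℝ) : HasDerivAt (fun y => g y) (deriv (fun y => g y) x) x :=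
  (g.differentiable x).hasDerivAt

theorem exp_logD (g : Dif) (x : ℝ) : Real.exp (logD g x) = deriv (fun y => g y) x :=
  Real.exp_log (g.deriv_pos x)

theorem hasDerivAt_deriv (g : Dif) (x : ℝ) :
    HasDerivAt (deriv (fun y => g y)) (deriv (fun y => g y) x * psi g x) x := by
  have h2 : HasDerivAt (fun y => Real.exp (logD g y)) (deriv (fun y => g y) x * psi g x) x := by
    have h3 := (hasDerivAt_logD g x).exp
    rw [exp_logD] at h3
    exact h3
  exact h2.congr_of_eventuallyEq (Eventually.of_forall fun y => (exp_logD g y).symm)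

theorem sch_continuous (g : Dif) : Continuous (sch g) := by
  have h1 : Continuous (deriv (psi g)) :=
    ((contDiff_infty_iff_deriv.1 (psi_contDiff g)).2).continuous
  have h2 : Continuous (psi g) := (psi_contDiff g).continuous
  show Continuous (fun x => deriv (psi g) x - (psi g x) ^ 2 / 2)
  fun_prop

/-! ### Chain rules -/

theorem logD_mul (f g : Dif) (x : ℝ) : logD (f * g) x = logD f (g x) + logD g x := by
  unfold logD
  have h := Dif.deriv_mul f g x
  have h1 := f.deriv_pos (g x)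
  have h2 := g.deriv_pos x
  have e : deriv (fun y => (f * g) y) x
      = deriv (fun y => f y) (g x) * deriv (fun y => g y) x := h
  calc Real.log (deriv (fun y => (f * g) y) x)
      = Real.log (deriv (fun y => f y) (g x) * deriv (fun y => g y) x) := by rw [e]
    _ = _ := Real.log_mul h1.ne' h2.ne'

theorem psi_mul (f g : Dif) (x : ℝ) :
    psi (f * g) x = psi f (g x) * deriv (fun y => g y) x + psi g x := by
  have h1 : logD (f * g) = fun x => logD f (g x) + logD g x := by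
    funext y; exact logD_mul f g y
  have h2 : HasDerivAt (fun x => logD f (g x) + logD g x)
      (psi f (g x) * deriv (fun y => g y) x + psi g x) x :=
    ((hasDerivAt_logD f (g x)).comp x (hasDerivAt_dif g x)).add (hasDerivAt_logD g x)
  unfold psi
  rw [h1]
  exact h2.deriv

theorem sch_mul (f g : Dif) (x : ℝ) :
    sch (f * g) x = sch f (g x) * (deriv (fun y => g y) x) ^ 2 + sch g x := by
  have h1 : psi (f * g) = fun x => psi f (g x) * deriv (fun y => g y) x + psi g x := by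
    funext y; exact psi_mul f g y
  have h2 : HasDerivAt (fun x => psi f (g x) * deriv (fun y => g y) x + psi g x)
      ((deriv (psi f) (g x) * deriv (fun y => g y) x) * deriv (fun y => g y) x
        + psi f (g x) * (deriv (fun y => g y) x * psi g x) + deriv (psi g) x) x :=
    (((hasDerivAt_psi f (g x)).comp x (hasDerivAt_dif g x)).mul (hasDerivAt_deriv g x)).add
      (hasDerivAt_psi g x)
  unfold sch
  rw [h1]
  rw [h2.deriv]
  ring

theorem logD_one : logD 1 = fun _ => 0 := by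
  funext x
  unfold logD
  have : (fun y : ℝ => (1 : Dif) y) = fun y => y := rfl
  show Real.log (deriv (fun y : ℝ => (1 : Dif) y) x) = 0
  rw [this]; simp

theorem psi_one (x : ℝ) : psi 1 x = 0 := by
  unfold psi; rw [logD_one]; simp

theorem sch_one (x : ℝ) : sch 1 x = 0 := by
  have h : psi 1 = fun _ => 0 := by funext y; exact psi_one y
  unfold sch; rw [h]; simp

theorem deriv_Tz (c : ℤ) (x : ℝ) : deriv (fun y => (T ^ c : Dif) y) x = 1 := by
  have : (fun y : ℝ => (T ^ c : Dif) y) = fun y => y + (c : ℝ) := by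
    funext y; exact T_zpow_apply c y
  rw [this]
  simp

theorem logD_Tz (c : ℤ) : logD (T ^ c) = fun _ => 0 := by
  funext x
  unfold logD
  show Real.log (deriv (fun y => (T ^ c : Dif) y) x) = 0
  rw [deriv_Tz]; simp

theorem psi_Tz (c : ℤ) : psi (T ^ c) = fun _ => 0 := by
  funext x
  unfold psi; rw [logD_Tz]; simp

theorem sch_Tz (c : ℤ) : sch (T ^ c) = fun _ => 0 := by
  funext x
  unfold sch; rw [psi_Tz]; simp

/-! ### Periodicity -/

theorem logD_add {g : Dif} (h : Commute g T) (c : ℤ) (x : ℝ) : logD g (x + c) = logD g x := by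
  have h1 := logD_mul g (T ^ c) x
  have h2 := logD_mul (T ^ c) g x
  rw [(h.zpow_right c).eq] at h1
  rw [h1, logD_Tz, T_zpow_apply] at h2
  linarith

theorem psi_add {g : Dif} (h : Commute g T) (c : ℤ) (x : ℝ) : psi g (x + c) = psi g x := by
  have h1 := psi_mul g (T ^ c) x
  have h2 := psi_mul (T ^ c) g x
  rw [(h.zpow_right c).eq] at h1
  rw [h1, psi_Tz, T_zpow_apply, deriv_Tz] at h2
  linarith

theorem sch_add {g : Dif} (h : Commute g T) (c : ℤ) (x : ℝ) : sch g (x + c) = sch g x := by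
  have h1 := sch_mul g (T ^ c) x
  have h2 := sch_mul (T ^ c) g x
  rw [(h.zpow_right c).eq] at h1
  rw [h1, sch_Tz, T_zpow_apply, deriv_Tz] at h2
  linarith

theorem psi_mul_Tz {g : Dif} (h : Commute g T) (c : ℤ) (x : ℝ) : psi (g * T ^ c) x = psi g x := by
  rw [psi_mul, psi_Tz, T_zpow_apply, deriv_Tz, psi_add h]; ring

theorem sch_mul_Tz {g : Dif} (h : Commute g T) (c : ℤ) (x : ℝ) : sch (g * T ^ c) x = sch g x := by
  rw [sch_mul, sch_Tz, T_zpow_apply, deriv_Tz, sch_add h]; ring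

theorem logD_mul_Tz {g : Dif} (h : Commute g T) (c : ℤ) (x : ℝ) :
    logD (g * T ^ c) x = logD g x := by
  rw [logD_mul, logD_Tz, T_zpow_apply, logD_add h]; ring

theorem exists_bound {f : ℝ → ℝ} (hc : Continuous f) (hp : ∀ x, f (x + 1) = f x) :
    ∃ B, ∀ x, |f x| ≤ B := by
  have hper : Function.Periodic f 1 := hp
  have h := hper.compact_of_continuous one_ne_zero hc
  obtain ⟨B, hB⟩ := h.isBounded.exists_norm_le
  exact ⟨B, fun x => hB _ (mem_range_self x)⟩

theorem exists_max {f : ℝ → ℝ} (hc : Continuous f) (hp : ∀ x, f (x + 1) = f x) :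
    ∃ x₀, ∀ x, f x ≤ f x₀ := by
  have hper : Function.Periodic f 1 := hp
  have h := hper.compact_of_continuous one_ne_zero hc
  obtain ⟨m, ⟨x₀, hx₀⟩, hm⟩ := h.exists_isGreatest (range_nonempty f)
  exact ⟨x₀, fun x => by rw [hx₀]; exact hm (mem_range_self x)⟩

/-! ### Generators -/

theorem gen_T {F G : Dif} (h : Act F G) (i : Fin 4) : Commute (gen F G i) T := by
  fin_cases i
  · exact h.FT
  · exact h.FT.inv_left
  · exact h.GT
  · exact h.GT.inv_left

theorem gen_gen {F G : Dif} (h : Act F G) (i j : Fin 4) : Commute (gen F G i) (gen F G j) := by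
  have hFF : Commute F F := Commute.refl F
  have hGG : Commute G G := Commute.refl G
  fin_cases i <;> fin_cases j
  · exact hFF
  · exact hFF.inv_right
  · exact h.FG
  · exact h.FG.inv_right
  · exact hFF.inv_left
  · exact hFF.inv_inv
  · exact h.FG.inv_left
  · exact h.FG.inv_inv
  · exact h.FG.symm
  · exact h.FG.symm.inv_right
  · exact hGG
  · exact hGG.inv_right
  · exact h.FG.symm.inv_left
  · exact h.FG.symm.inv_inv
  · exact hGG.inv_left
  · exact hGG.inv_inv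

section level

variable {F G S : Dif} {k : Fin 4} {q : ℕ} {p : ℤ} {N : Fin 4 → ℕ}

theorem S_gen (h : Act F G) (hL : LD F G S k q p N) (i : Fin 4) : Commute S (gen F G i) := by
  rw [hL.S_eq]
  exact ((gen_gen h k i).pow_left q).mul_left ((gen_T h i).symm.zpow_left (-p))

theorem S_T (h : Act F G) (hL : LD F G S k q p N) : Commute S T := by
  rw [hL.S_eq]
  exact ((gen_T h k).pow_left q).mul_left ((Commute.refl T).zpow_left (-p))

/-- `S (g^j x) = g^j (S x)` -/
theorem S_gpow (h : Act F G) (hL : LD F G S k q p N) (i : Fin 4) (j : ℕ) (x : ℝ) :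
    S ((gen F G i ^ j) x) = (gen F G i ^ j) (S x) :=
  Dif.comm_apply ((S_gen h hL i).pow_right j) x

theorem phi_pos (hL : LD F G S k q p N) (x : ℝ) : 0 < S x - x := sub_pos.2 (hL.pos x)

end level

/-! ### Powers -/

theorem logD_pow (g : Dif) (j : ℕ) (x : ℝ) :
    logD (g ^ j) x = ∑ l ∈ Finset.range j, logD g ((g ^ l) x) := by
  induction j with
  | zero => rw [pow_zero, logD_one]; simp
  | succ j ih =>
    rw [pow_succ', logD_mul, ih, Finset.sum_range_succ]
    ring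

theorem psi_pow (g : Dif) (j : ℕ) (x : ℝ) :
    psi (g ^ j) x = ∑ l ∈ Finset.range j, psi g ((g ^ l) x) * deriv (fun y => (g ^ l) y) x := by
  induction j with
  | zero => rw [pow_zero, psi_one]; simp
  | succ j ih =>
    rw [pow_succ', psi_mul, ih, Finset.sum_range_succ]
    ring

theorem sch_pow (g : Dif) (j : ℕ) (x : ℝ) :
    sch (g ^ j) x =
      ∑ l ∈ Finset.range j, sch g ((g ^ l) x) * (deriv (fun y => (g ^ l) y) x) ^ 2 := by
  induction j with
  | zero => rw [pow_zero, sch_one]; simp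
  | succ j ih =>
    rw [pow_succ', sch_mul, ih, Finset.sum_range_succ]
    ring

/-- mean value bound for `logD` -/
theorem logD_lip {g : Dif} {V : ℝ} (hV : ∀ x, |psi g x| ≤ V) (y z : ℝ) :
    |logD g y - logD g z| ≤ V * |y - z| := by
  have h := Convex.norm_image_sub_le_of_norm_hasDerivWithin_le (f := logD g) (f' := psi g)
    (C := V) (s := univ) (x := z) (y := y)
    (fun x _ => (hasDerivAt_logD g x).hasDerivWithinAt)
    (fun x _ => hV x) convex_univ (mem_univ _) (mem_univ _)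
  simpa using h

/-- common data: bounds for the generators -/
theorem exists_V {F G : Dif} (h : Act F G) : ∃ V : ℝ, 0 ≤ V ∧ ∀ (i : Fin 4) (x : ℝ),
    |psi (gen F G i) x| ≤ V := by
  have h1 : ∀ i : Fin 4, ∃ B, ∀ x, |psi (gen F G i) x| ≤ B := fun i =>
    exists_bound (psi_contDiff _).continuous (fun x => by
      have := psi_add (gen_T h i) 1 x
      simpa using this)
  choose B hB using h1
  refine ⟨∑ i, |B i|, Finset.sum_nonneg (fun i _ => abs_nonneg _), fun i x => ?_⟩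
  refine (hB i x).trans ((le_abs_self _).trans ?_)
  exact Finset.single_le_sum (f := fun i => |B i|) (fun i _ => abs_nonneg _) (Finset.mem_univ i)

theorem exists_W {F G : Dif} (h : Act F G) : ∃ W : ℝ, 0 ≤ W ∧ ∀ (i : Fin 4) (x : ℝ),
    |sch (gen F G i) x| ≤ W := by
  have h1 : ∀ i : Fin 4, ∃ B, ∀ x, |sch (gen F G i) x| ≤ B := fun i =>
    exists_bound (sch_continuous _) (fun x => by
      have := sch_add (gen_T h i) 1 x
      simpa using this)
  choose B hB using h1
  refine ⟨∑ i, |B i|, Finset.sum_nonneg (fun i _ => abs_nonneg _), fun i x => ?_⟩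
  refine (hB i x).trans ((le_abs_self _).trans ?_)
  exact Finset.single_le_sum (f := fun i => |B i|) (fun i _ => abs_nonneg _) (Finset.mem_univ i)

section level2

variable {F G S : Dif} {k : Fin 4} {q : ℕ} {p : ℤ} {N : Fin 4 → ℕ}

/-- (D1) -/
theorem D1 (h : Act F G) (hL : LD F G S k q p N) {V : ℝ} (hV0 : 0 ≤ V)
    (hV : ∀ (i : Fin 4) (x : ℝ), |psi (gen F G i) x| ≤ V) (i : Fin 4) {j : ℕ} (hj : j ≤ N i)
    {x y z : ℝ} (hy : y ∈ Icc x (S x)) (hz : z ∈ Icc x (S x)) :
    |logD (gen F G i ^ j) y - logD (gen F G i ^ j) z| ≤ V := by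
  rw [logD_pow, logD_pow, ← Finset.sum_sub_distrib]
  calc |∑ l ∈ Finset.range j, (logD (gen F G i) ((gen F G i ^ l) y)
          - logD (gen F G i) ((gen F G i ^ l) z))|
      ≤ ∑ l ∈ Finset.range j, |logD (gen F G i) ((gen F G i ^ l) y)
          - logD (gen F G i) ((gen F G i ^ l) z)| := Finset.abs_sum_le_sum_abs _ _
    _ ≤ ∑ l ∈ Finset.range j, V * (S ((gen F G i ^ l) x) - (gen F G i ^ l) x) := by
        refine Finset.sum_le_sum (fun l _ => ?_)
        refine (logD_lip (hV i) _ _).trans (mul_le_mul_of_nonneg_left ?_ hV0)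
        have hm : ∀ {u v : ℝ}, u ≤ v → (gen F G i ^ l) u ≤ (gen F G i ^ l) v :=
          fun huv => ((gen F G i ^ l).le_iff).2 huv
        rw [S_gpow h hL]
        have a1 := hm hy.1
        have a2 := hm hy.2
        have a3 := hm hz.1
        have a4 := hm hz.2
        rw [abs_le]
        constructor <;> linarith
    _ = V * ∑ l ∈ Finset.range j, (S ((gen F G i ^ l) x) - (gen F G i ^ l) x) := by
        rw [Finset.mul_sum]
    _ ≤ V * ∑ l ∈ Finset.range (N i), (S ((gen F G i ^ l) x) - (gen F G i ^ l) x) := by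
        refine mul_le_mul_of_nonneg_left ?_ hV0
        refine Finset.sum_le_sum_of_subset_of_nonneg (Finset.range_mono hj) (fun l _ _ => ?_)
        exact (phi_pos hL _).le
    _ ≤ V * 1 := mul_le_mul_of_nonneg_left (hL.disj i x) hV0
    _ = V := mul_one V

/-- (D1) for up to `2 N` steps, at the two ends of a segment -/
theorem D1' (h : Act F G) (hL : LD F G S k q p N) {V : ℝ} (hV0 : 0 ≤ V)
    (hV : ∀ (i : Fin 4) (x : ℝ), |psi (gen F G i) x| ≤ V) (i : Fin 4) {j : ℕ} (hj : j ≤ N i + N i)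
    (z : ℝ) :
    |logD (gen F G i ^ j) (S z) - logD (gen F G i ^ j) z| ≤ 2 * V := by
  obtain ⟨j₁, j₂, h1, h2, rfl⟩ : ∃ j₁ j₂ : ℕ, j₁ ≤ N i ∧ j₂ ≤ N i ∧ j = j₁ + j₂ := by
    rcases le_total j (N i) with hle | hle
    · exact ⟨j, 0, hle, Nat.zero_le _, by simp⟩
    · exact ⟨N i, j - N i, le_rfl, by omega, by omega⟩
  rw [pow_add, logD_mul, logD_mul]
  have hmem : ∀ u : ℝ, u ∈ Icc u (S u) := fun u => ⟨le_rfl, (hL.pos u).le⟩
  have hmem' : ∀ u : ℝ, S u ∈ Icc u (S u) := fun u => ⟨(hL.pos u).le, le_rfl⟩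
  have e1 := D1 h hL hV0 hV i h2 (hmem' z) (hmem z)
  have e2 := D1 h hL hV0 hV i h1 (hmem' ((gen F G i ^ j₂) z)) (hmem ((gen F G i ^ j₂) z))
  rw [S_gpow h hL] at e2
  rw [abs_le] at e1 e2 ⊢
  constructor <;> linarith [e1.1, e1.2, e2.1, e2.2]

theorem phi_max_deriv (h : Act F G) (hL : LD F G S k q p N) :
    ∃ x₀, (∀ x, S x - x ≤ S x₀ - x₀) ∧ deriv (fun y => S y) x₀ = 1 := by
  have hper : ∀ x, S (x + 1) - (x + 1) = S x - x := by
    intro x
    have := Dif.comm_apply (S_T h hL) x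
    rw [T_apply, T_apply] at this
    rw [this]; ring
  obtain ⟨x₀, hx₀⟩ := exists_max (f := fun x => S x - x) (S.continuous.sub continuous_id) hper
  refine ⟨x₀, hx₀, ?_⟩
  have hmax : IsLocalMax (fun x => S x - x) x₀ := Filter.Eventually.of_forall hx₀
  have h1 := hmax.deriv_eq_zero
  have h2 : HasDerivAt (fun x => S x - x) (deriv (fun y => S y) x₀ - 1) x₀ :=
    (hasDerivAt_dif S x₀).sub (hasDerivAt_id x₀)
  rw [h2.deriv] at h1
  linarith

/-- (D2) -/
theorem D2 (h : Act F G) (hL : LD F G S k q p N) {V : ℝ} (hV0 : 0 ≤ V)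
    (hV : ∀ (i : Fin 4) (x : ℝ), |psi (gen F G i) x| ≤ V) (z : ℝ) :
    |logD S z| ≤ 3 * V := by
  obtain ⟨x₀, -, hx₀⟩ := phi_max_deriv h hL
  have hlog : logD S x₀ = 0 := by
    unfold logD
    show Real.log (deriv (fun y => S y) x₀) = 0
    rw [hx₀]; simp
  obtain ⟨j, hj, c, hc1, hc2⟩ := hL.cov x₀ z
  set E := gen F G k with hE
  set A : Dif := E ^ j * T ^ c with hA
  have hSA : Commute S A :=
    ((S_gen h hL k).pow_right j).mul_right ((S_T h hL).zpow_right c)
  set z' := A⁻¹ z with hz'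
  have hz1 : z = A z' := (A.apply_inv_self z).symm
  have hz'1 : x₀ ≤ z' := by rw [hz', Dif.le_inv_iff]; exact hc1
  have hz'2 : z' < S x₀ := by rw [hz', Dif.inv_lt_iff]; exact hc2
  have hAlog : ∀ u, logD A u = logD (E ^ j) u := fun u =>
    logD_mul_Tz ((gen_T h k).pow_left j) c u
  have e1 : logD S z = logD S z' + (logD (E ^ j) (S z') - logD (E ^ j) z') := by
    have a1 := logD_mul S A z'
    have a2 := logD_mul A S z'
    rw [hSA.eq, a2, hAlog, hAlog] at a1
    rw [hz1]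
    linarith
  have e2 : |logD (E ^ j) (S z') - logD (E ^ j) z'| ≤ 2 * V := by
    refine D1' h hL hV0 hV k ?_ z'
    have := hL.q_le
    omega
  have hSlog : ∀ u, logD S u = logD (E ^ q) u := by
    intro u
    rw [hL.S_eq]
    exact logD_mul_Tz ((gen_T h k).pow_left q) (-p) u
  have e3 : |logD S z' - logD S x₀| ≤ V := by
    rw [hSlog, hSlog]
    exact D1 h hL hV0 hV k hL.q_le ⟨hz'1, hz'2.le⟩ ⟨le_rfl, (hL.pos x₀).le⟩
  rw [hlog, sub_zero] at e3
  rw [e1]
  rw [abs_le] at e2 e3 ⊢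
  constructor <;> linarith [e2.1, e2.2, e3.1, e3.2]

theorem D2' (h : Act F G) (hL : LD F G S k q p N) {V : ℝ} (hV0 : 0 ≤ V)
    (hV : ∀ (i : Fin 4) (x : ℝ), |psi (gen F G i) x| ≤ V) (z : ℝ) :
    Real.exp (-(3 * V)) ≤ deriv (fun y => S y) z ∧ deriv (fun y => S y) z ≤ Real.exp (3 * V) := by
  have h1 := D2 h hL hV0 hV z
  rw [abs_le] at h1
  rw [← exp_logD]
  exact ⟨Real.exp_le_exp.2 h1.1, Real.exp_le_exp.2 h1.2⟩

/-- mean value theorem for elements of `Dif` -/
theorem mvt (g : Dif) {x y : ℝ} (hxy : x ≤ y) :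
    ∃ ξ ∈ Icc x y, g y - g x = deriv (fun t => g t) ξ * (y - x) := by
  rcases hxy.lt_or_eq with h | h
  · obtain ⟨ξ, hξ, he⟩ := exists_deriv_eq_slope (fun t => g t) h g.continuous.continuousOn
      (fun t _ => (g.differentiable t).differentiableWithinAt)
    refine ⟨ξ, ⟨hξ.1.le, hξ.2.le⟩, ?_⟩
    rw [he, div_mul_cancel₀]
    exact (sub_pos.2 h).ne'
  · subst h
    exact ⟨x, ⟨le_rfl, le_rfl⟩, by simp⟩

/-- (D3) -/
theorem D3 (h : Act F G) (hL : LD F G S k q p N) {V : ℝ} (hV0 : 0 ≤ V)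
    (hV : ∀ (i : Fin 4) (x : ℝ), |psi (gen F G i) x| ≤ V) {x y : ℝ} (hy : y ∈ Icc x (S x)) :
    S y - y ≤ Real.exp (3 * V) * (S x - x) ∧ S x - x ≤ Real.exp (3 * V) * (S y - y) := by
  obtain ⟨ξ, -, hξ⟩ := mvt S hy.1
  obtain ⟨d1, d2⟩ := D2' h hL hV0 hV ξ
  have hE : 1 ≤ Real.exp (3 * V) := Real.one_le_exp (by positivity)
  have hEe : Real.exp (3 * V) * Real.exp (-(3 * V)) = 1 := by
    rw [← Real.exp_add]; simp
  have hxy : 0 ≤ y - x := sub_nonneg.2 hy.1
  have hyS : 0 ≤ S x - y := sub_nonneg.2 hy.2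
  constructor
  · have e1 : S y - S x ≤ Real.exp (3 * V) * (y - x) := by
      rw [hξ]; exact mul_le_mul_of_nonneg_right d2 hxy
    nlinarith
  · have e1 : Real.exp (3 * V) * (S y - S x) ≥ (y - x) := by
      rw [hξ]
      have : Real.exp (3 * V) * (deriv (fun t => S t) ξ * (y - x))
          ≥ Real.exp (3 * V) * (Real.exp (-(3 * V)) * (y - x)) :=
        mul_le_mul_of_nonneg_left (mul_le_mul_of_nonneg_right d1 hxy) (Real.exp_pos _).le
      calc y - x = Real.exp (3 * V) * Real.exp (-(3 * V)) * (y - x) := by rw [hEe]; ring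
        _ ≤ _ := by rw [mul_assoc]; exact this
    nlinarith

/-- (D4) -/
theorem D4 (h : Act F G) (hL : LD F G S k q p N) {V : ℝ} (hV0 : 0 ≤ V)
    (hV : ∀ (i : Fin 4) (x : ℝ), |psi (gen F G i) x| ≤ V) (i : Fin 4) {j : ℕ} (hj : j ≤ N i)
    {x y : ℝ} (hy : y ∈ Icc x (S x)) :
    deriv (fun t => (gen F G i ^ j) t) y * (S x - x) ≤
        Real.exp V * (S ((gen F G i ^ j) x) - (gen F G i ^ j) x) ∧
      (S ((gen F G i ^ j) x) - (gen F G i ^ j) x) ≤
        Real.exp V * deriv (fun t => (gen F G i ^ j) t) y * (S x - x) := by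
  obtain ⟨ξ, hξm, hξ⟩ := mvt (gen F G i ^ j) (hL.pos x).le
  have e := D1 h hL hV0 hV i hj hy hξm
  rw [abs_le] at e
  have hφ := phi_pos hL x
  rw [S_gpow h hL, hξ]
  have a1 : deriv (fun t => (gen F G i ^ j) t) y ≤
      Real.exp V * deriv (fun t => (gen F G i ^ j) t) ξ := by
    rw [← exp_logD, ← exp_logD, ← Real.exp_add]
    exact Real.exp_le_exp.2 (by linarith [e.2])
  have a2 : deriv (fun t => (gen F G i ^ j) t) ξ ≤
      Real.exp V * deriv (fun t => (gen F G i ^ j) t) y := by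
    rw [← exp_logD, ← exp_logD, ← Real.exp_add]
    exact Real.exp_le_exp.2 (by linarith [e.1])
  constructor
  · calc deriv (fun t => (gen F G i ^ j) t) y * (S x - x)
        ≤ Real.exp V * deriv (fun t => (gen F G i ^ j) t) ξ * (S x - x) :=
          mul_le_mul_of_nonneg_right a1 hφ.le
      _ = _ := by ring
  · exact mul_le_mul_of_nonneg_right a2 hφ.le

/-- (D5) -/
theorem D5 (h : Act F G) (hL : LD F G S k q p N) {V : ℝ} (hV0 : 0 ≤ V)
    (hV : ∀ (i : Fin 4) (x : ℝ), |psi (gen F G i) x| ≤ V) (i : Fin 4) {j : ℕ} (hj : j ≤ N i)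
    (x : ℝ) :
    (S x - x) * ∑ l ∈ Finset.range j, deriv (fun t => (gen F G i ^ l) t) x ≤ Real.exp V := by
  rw [Finset.mul_sum]
  calc ∑ l ∈ Finset.range j, (S x - x) * deriv (fun t => (gen F G i ^ l) t) x
      ≤ ∑ l ∈ Finset.range j, Real.exp V * (S ((gen F G i ^ l) x) - (gen F G i ^ l) x) := by
        refine Finset.sum_le_sum (fun l hl => ?_)
        have hl' : l ≤ N i := (Finset.mem_range.1 hl).le.trans hj
        have := (D4 h hL hV0 hV i hl' (x := x) (y := x) ⟨le_rfl, (hL.pos x).le⟩).1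
        linarith
    _ = Real.exp V * ∑ l ∈ Finset.range j, (S ((gen F G i ^ l) x) - (gen F G i ^ l) x) := by
        rw [Finset.mul_sum]
    _ ≤ Real.exp V * ∑ l ∈ Finset.range (N i), (S ((gen F G i ^ l) x) - (gen F G i ^ l) x) := by
        refine mul_le_mul_of_nonneg_left ?_ (Real.exp_pos _).le
        exact Finset.sum_le_sum_of_subset_of_nonneg (Finset.range_mono hj)
          (fun l _ _ => (phi_pos hL _).le)
    _ ≤ Real.exp V * 1 := mul_le_mul_of_nonneg_left (hL.disj i x) (Real.exp_pos _).le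
    _ = Real.exp V := mul_one _

theorem D5' (h : Act F G) (hL : LD F G S k q p N) {V : ℝ} (hV0 : 0 ≤ V)
    (hV : ∀ (i : Fin 4) (x : ℝ), |psi (gen F G i) x| ≤ V) (i : Fin 4) {j : ℕ} (hj : j ≤ N i)
    {M : ℝ} (hM : ∀ x, S x - x ≤ M) (x : ℝ) :
    (S x - x) ^ 2 * ∑ l ∈ Finset.range j, (deriv (fun t => (gen F G i ^ l) t) x) ^ 2
      ≤ Real.exp V ^ 2 * M := by
  have hM0 : 0 ≤ M := (phi_pos hL x).le.trans (hM x)
  rw [Finset.mul_sum]
  calc ∑ l ∈ Finset.range j, (S x - x) ^ 2 * (deriv (fun t => (gen F G i ^ l) t) x) ^ 2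
      ≤ ∑ l ∈ Finset.range j,
          Real.exp V ^ 2 * (M * (S ((gen F G i ^ l) x) - (gen F G i ^ l) x)) := by
        refine Finset.sum_le_sum (fun l hl => ?_)
        have hl' : l ≤ N i := (Finset.mem_range.1 hl).le.trans hj
        have h1 := (D4 h hL hV0 hV i hl' (x := x) (y := x) ⟨le_rfl, (hL.pos x).le⟩).1
        have h2 : 0 ≤ deriv (fun t => (gen F G i ^ l) t) x * (S x - x) :=
          mul_nonneg ((gen F G i ^ l).deriv_pos x).le (phi_pos hL x).le
        have h3 := phi_pos hL ((gen F G i ^ l) x)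
        have h4 := hM ((gen F G i ^ l) x)
        calc (S x - x) ^ 2 * (deriv (fun t => (gen F G i ^ l) t) x) ^ 2
            = (deriv (fun t => (gen F G i ^ l) t) x * (S x - x)) ^ 2 := by ring
          _ ≤ (Real.exp V * (S ((gen F G i ^ l) x) - (gen F G i ^ l) x)) ^ 2 :=
              pow_le_pow_left₀ h2 h1 2
          _ = Real.exp V ^ 2 * ((S ((gen F G i ^ l) x) - (gen F G i ^ l) x) *
                (S ((gen F G i ^ l) x) - (gen F G i ^ l) x)) := by ring
          _ ≤ _ := mul_le_mul_of_nonneg_left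
                (mul_le_mul_of_nonneg_right h4 h3.le) (by positivity)
    _ = Real.exp V ^ 2 * M *
          ∑ l ∈ Finset.range j, (S ((gen F G i ^ l) x) - (gen F G i ^ l) x) := by
        rw [Finset.mul_sum]
        exact Finset.sum_congr rfl (fun l _ => by ring)
    _ ≤ Real.exp V ^ 2 * M *
          ∑ l ∈ Finset.range (N i), (S ((gen F G i ^ l) x) - (gen F G i ^ l) x) := by
        refine mul_le_mul_of_nonneg_left ?_ (by positivity)
        exact Finset.sum_le_sum_of_subset_of_nonneg (Finset.range_mono hj)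
          (fun l _ _ => (phi_pos hL _).le)
    _ ≤ Real.exp V ^ 2 * M * 1 :=
        mul_le_mul_of_nonneg_left (hL.disj i x) (by positivity)
    _ = _ := mul_one _

/-- (D6) -/
theorem D6 (h : Act F G) (hL : LD F G S k q p N) {V : ℝ} (hV0 : 0 ≤ V)
    (hV : ∀ (i : Fin 4) (x : ℝ), |psi (gen F G i) x| ≤ V) (i : Fin 4) {j : ℕ} (hj : j ≤ N i)
    (x : ℝ) : (S x - x) * |psi (gen F G i ^ j) x| ≤ V * Real.exp V := by
  have hφ := (phi_pos hL x).le
  have h1 : |psi (gen F G i ^ j) x| ≤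
      V * ∑ l ∈ Finset.range j, deriv (fun t => (gen F G i ^ l) t) x := by
    rw [psi_pow, Finset.mul_sum]
    refine (Finset.abs_sum_le_sum_abs _ _).trans (Finset.sum_le_sum (fun l _ => ?_))
    rw [abs_mul, abs_of_pos ((gen F G i ^ l).deriv_pos x)]
    exact mul_le_mul_of_nonneg_right (hV i _) ((gen F G i ^ l).deriv_pos x).le
  calc (S x - x) * |psi (gen F G i ^ j) x|
      ≤ (S x - x) * (V * ∑ l ∈ Finset.range j, deriv (fun t => (gen F G i ^ l) t) x) :=
        mul_le_mul_of_nonneg_left h1 hφ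
    _ = V * ((S x - x) * ∑ l ∈ Finset.range j, deriv (fun t => (gen F G i ^ l) t) x) := by ring
    _ ≤ V * Real.exp V := mul_le_mul_of_nonneg_left (D5 h hL hV0 hV i hj x) hV0

/-- (D7) -/
theorem D7 (h : Act F G) (hL : LD F G S k q p N) {V W : ℝ} (hV0 : 0 ≤ V) (hW0 : 0 ≤ W)
    (hV : ∀ (i : Fin 4) (x : ℝ), |psi (gen F G i) x| ≤ V)
    (hW : ∀ (i : Fin 4) (x : ℝ), |sch (gen F G i) x| ≤ W) (i : Fin 4) {j : ℕ} (hj : j ≤ N i)
    {M : ℝ} (hM : ∀ x, S x - x ≤ M) (x : ℝ) :
    (S x - x) ^ 2 * |sch (gen F G i ^ j) x| ≤ W * (Real.exp V ^ 2 * M) := by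
  have h1 : |sch (gen F G i ^ j) x| ≤
      W * ∑ l ∈ Finset.range j, (deriv (fun t => (gen F G i ^ l) t) x) ^ 2 := by
    rw [sch_pow, Finset.mul_sum]
    refine (Finset.abs_sum_le_sum_abs _ _).trans (Finset.sum_le_sum (fun l _ => ?_))
    rw [abs_mul, abs_of_nonneg (sq_nonneg (deriv (fun t => (gen F G i ^ l) t) x))]
    exact mul_le_mul_of_nonneg_right (hW i _) (sq_nonneg _)
  calc (S x - x) ^ 2 * |sch (gen F G i ^ j) x|
      ≤ (S x - x) ^ 2 * (W * ∑ l ∈ Finset.range j, (deriv (fun t => (gen F G i ^ l) t) x) ^ 2) :=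
        mul_le_mul_of_nonneg_left h1 (sq_nonneg _)
    _ = W * ((S x - x) ^ 2 *
          ∑ l ∈ Finset.range j, (deriv (fun t => (gen F G i ^ l) t) x) ^ 2) := by ring
    _ ≤ W * (Real.exp V ^ 2 * M) := mul_le_mul_of_nonneg_left (D5' h hL hV0 hV i hj hM x) hW0

end level2

end GEO1a

theorem denjoy {F G : Dif} (h : Act F G) :
    ∃ C : ℝ, 1 ≤ C ∧ ∀ (S : Dif) (k : Fin 4) (q : ℕ) (p : ℤ)
    (N : Fin 4 → ℕ), LD F G S k q p N → ∀ x : ℝ,
    (deriv S x ≤ C ∧ 1 ≤ C * deriv S x) ∧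
    (∀ y ∈ Icc x (S x), S y - y ≤ C * (S x - x) ∧ S x - x ≤ C * (S y - y)) ∧
    ∀ i : Fin 4, ∀ j ≤ N i, ∀ y ∈ Icc x (S x),
      deriv (gen F G i ^ j : Dif) y * (S x - x) ≤
        C * (S ((gen F G i ^ j) x) - (gen F G i ^ j) x) ∧
      (S ((gen F G i ^ j) x) - (gen F G i ^ j) x) ≤
        C * deriv (gen F G i ^ j : Dif) y * (S x - x) := by
  obtain ⟨V, hV0, hV⟩ := GEO1a.exists_V h
  refine ⟨Real.exp (3 * V), Real.one_le_exp (by positivity), ?_⟩
  intro S k q p N hL x
  have hEV : Real.exp V ≤ Real.exp (3 * V) := Real.exp_le_exp.2 (by linarith)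
  refine ⟨?_, ?_, ?_⟩
  · obtain ⟨h1, h2⟩ := GEO1a.D2' h hL hV0 hV x
    refine ⟨h2, ?_⟩
    calc (1 : ℝ) = Real.exp (3 * V) * Real.exp (-(3 * V)) := by rw [← Real.exp_add]; simp
      _ ≤ Real.exp (3 * V) * deriv (fun y => S y) x :=
        mul_le_mul_of_nonneg_left h1 (Real.exp_pos _).le
  · intro y hy
    exact GEO1a.D3 h hL hV0 hV hy
  · intro i j hj y hy
    obtain ⟨h1, h2⟩ := GEO1a.D4 h hL hV0 hV i hj hy
    have hφ := (GEO1a.phi_pos hL x).le
    have hφ' := (GEO1a.phi_pos hL ((gen F G i ^ j) x)).le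
    have hd := ((gen F G i ^ j).deriv_pos y).le
    refine ⟨h1.trans (mul_le_mul_of_nonneg_right hEV hφ'), h2.trans ?_⟩
    exact mul_le_mul_of_nonneg_right (mul_le_mul_of_nonneg_right hEV hd) hφ

theorem denjoy_sums {F G : Dif} (h : Act F G) :
    ∃ C : ℝ, 1 ≤ C ∧ ∀ (S : Dif) (k : Fin 4) (q : ℕ) (p : ℤ)
    (N : Fin 4 → ℕ), LD F G S k q p N → ∀ M : ℝ, (∀ x, S x - x ≤ M) → ∀ x : ℝ,
    (S x - x) ^ 2 * |sch S x| ≤ C * M ∧ (S x - x) * |psi S x| ≤ C ∧
    ∀ i : Fin 4, ∀ j ≤ N i,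
      (S x - x) * |psi (gen F G i ^ j) x| ≤ C ∧
      (S x - x) ^ 2 * |sch (gen F G i ^ j) x| ≤ C * M ∧
      (S x - x) ^ 2 * ∑ l ∈ Finset.range j, (deriv (gen F G i ^ l : Dif) x) ^ 2 ≤ C * M := by
  obtain ⟨V, hV0, hV⟩ := GEO1a.exists_V h
  obtain ⟨W, hW0, hW⟩ := GEO1a.exists_W h
  refine ⟨1 + V * Real.exp V + (1 + W) * Real.exp V ^ 2, ?_, ?_⟩
  · have : 0 ≤ V * Real.exp V + (1 + W) * Real.exp V ^ 2 := by positivity
    linarith
  intro S k q p N hL M hM x
  have hM0 : 0 ≤ M := (GEO1a.phi_pos hL x).le.trans (hM x)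
  set C := 1 + V * Real.exp V + (1 + W) * Real.exp V ^ 2 with hC
  have b1 : V * Real.exp V ≤ C := by
    have : 0 ≤ (1 + W) * Real.exp V ^ 2 := by positivity
    rw [hC]; linarith
  have b2 : W * (Real.exp V ^ 2 * M) ≤ C * M := by
    have h1 : W * Real.exp V ^ 2 ≤ C := by
      have : 0 ≤ V * Real.exp V := by positivity
      have : 0 ≤ Real.exp V ^ 2 := by positivity
      rw [hC]; nlinarith
    calc W * (Real.exp V ^ 2 * M) = W * Real.exp V ^ 2 * M := by ring
      _ ≤ C * M := mul_le_mul_of_nonneg_right h1 hM0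
  have b3 : Real.exp V ^ 2 * M ≤ C * M := by
    refine mul_le_mul_of_nonneg_right ?_ hM0
    have : 0 ≤ V * Real.exp V := by positivity
    have : 0 ≤ W * Real.exp V ^ 2 := by positivity
    rw [hC]; nlinarith
  have hk : ∀ i : Fin 4, ∀ j ≤ N i,
      (S x - x) * |psi (gen F G i ^ j) x| ≤ C ∧
      (S x - x) ^ 2 * |sch (gen F G i ^ j) x| ≤ C * M ∧
      (S x - x) ^ 2 * ∑ l ∈ Finset.range j, (deriv (gen F G i ^ l : Dif) x) ^ 2 ≤ C * M := by
    intro i j hj
    exact ⟨(GEO1a.D6 h hL hV0 hV i hj x).trans b1,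
      (GEO1a.D7 h hL hV0 hW0 hV hW i hj hM x).trans b2,
      (GEO1a.D5' h hL hV0 hV i hj hM x).trans b3⟩
  have hS1 : psi S x = psi (gen F G k ^ q) x := by
    rw [hL.S_eq]; exact GEO1a.psi_mul_Tz ((GEO1a.gen_T h k).pow_left q) (-p) x
  have hS2 : sch S x = sch (gen F G k ^ q) x := by
    rw [hL.S_eq]; exact GEO1a.sch_mul_Tz ((GEO1a.gen_T h k).pow_left q) (-p) x
  refine ⟨?_, ?_, hk⟩
  · rw [hS2]; exact (hk k q hL.q_le).2.1
  · rw [hS1]; exact (hk k q hL.q_le).1

end Pool.Agent.F88
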