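import Pool.Agent.Lib.MP_f88c17.BS
import Pool.Agent.Lib.MP_f88c17.BPaux
import Pool.Agent.Lib.MP_f88c17.Denjoy

/-!
# Task BH: the hyperbolic case of `TinyNear`
-/

set_option autoImplicit false

open Set Filter Topology Asymptotics
open scoped ContDiff

namespace Pool.Agent.F88

namespace BH

/-! ## Jet bounds on compact intervals -/

theorem exists_JB_bound {h : ℝ → ℝ} (hh : ContDiff ℝ ∞ h) (a b : ℝ) (N : ℕ) :
    ∃ U, 0 ≤ U ∧ ∀ y ∈ Icc a b, JB N h y U 1 := by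
  have h1 : ∀ l : ℕ, ∃ B, ∀ y ∈ Icc a b, ‖iteratedDeriv l h y‖ ≤ B := fun l =>
    isCompact_Icc.exists_bound_of_continuousOn
      (hh.continuous_iteratedDeriv l (by exact_mod_cast le_top)).continuousOn
  choose B hB using h1
  refine ⟨∑ l ∈ Finset.range (N + 1), |B l|, Finset.sum_nonneg (fun _ _ => abs_nonneg _), ?_⟩
  intro y hy
  refine ⟨hh.contDiffAt, fun l hl => ?_⟩
  rw [one_pow, mul_one]
  calc |iteratedDeriv l h y| ≤ B l := hB l y hy
    _ ≤ |B l| := le_abs_self _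
    _ ≤ _ := Finset.single_le_sum (f := fun l => |B l|) (fun _ _ => abs_nonneg _)
        (Finset.mem_range.mpr (by omega))

theorem contDiff_deriv {h : ℝ → ℝ} (hh : ContDiff ℝ ∞ h) : ContDiff ℝ ∞ (deriv h) :=
  (contDiff_infty_iff_deriv.mp hh).2

theorem deriv_comp_fun {h φ : ℝ → ℝ} (hh : ContDiff ℝ ∞ h) (hφ : ContDiff ℝ ∞ φ) :
    deriv (fun y => h (φ y)) = fun y => deriv h (φ y) * deriv φ y := by
  funext y
  exact ((hh.differentiable (by simp) (φ y)).hasDerivAt.comp y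
    (hφ.differentiable (by simp) y).hasDerivAt).deriv

theorem comp_JB (N : ℕ) (A : ℝ) : ∃ C, 0 < C ∧ ∀ (h φ : ℝ → ℝ) (x U V : ℝ),
    ContDiff ℝ ∞ h → ContDiff ℝ ∞ φ → JB N (deriv h) (φ x) U 1 →
    (∀ l, 1 ≤ l → l ≤ N → |iteratedDeriv l φ x| ≤ A) → JB N (deriv φ) x V 1 →
    JB N (deriv (fun y => h (φ y))) x (C * U * V) 1 := by
  obtain ⟨C, hC, h1⟩ := JB.comp N A
  refine ⟨2 ^ N * C, by positivity, fun h φ x U V hh hφ hJ hA hV => ?_⟩
  have h2 := h1 (deriv h) φ x U 1 1 zero_le_one zero_le_one hJ hφ.contDiffAt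
    (fun l hl hl' => by rw [one_pow, one_mul, mul_one]; exact hA l hl hl')
  have h3 := JB.mul zero_le_one h2 hV
  rw [deriv_comp_fun hh hφ]
  have e : 2 ^ N * (C * U) * V = 2 ^ N * C * U * V := by ring
  rwa [e] at h3

theorem JB.deriv_bound {N : ℕ} {h : ℝ → ℝ} {x U : ℝ} (hJ : JB N (deriv h) x U 1) {l : ℕ}
    (h1 : 1 ≤ l) (h2 : l ≤ N + 1) : |iteratedDeriv l h x| ≤ U := by
  obtain ⟨k, rfl⟩ : ∃ k, l = k + 1 := ⟨l - 1, by omega⟩
  rw [iteratedDeriv_succ']
  have := hJ.2 k (by omega)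
  simpa using this

/-! ## Contractions -/

structure Contr (g : Dif) (z w κ : ℝ) : Prop where
  zw : z < w
  gz : g z = z
  κ_pos : 0 < κ
  κ_lt : κ < 1
  der : ∀ x ∈ Icc z w, deriv g x ≤ κ

variable {g : Dif} {z w κ : ℝ}

theorem Contr.le_self (h : Contr g z w κ) {x : ℝ} (hx : x ∈ Icc z w) :
    g x - z ≤ κ * (x - z) := by
  have h1 : ∀ t ∈ Icc z w, ‖deriv g t‖ ≤ κ := fun t ht => by
    rw [Real.norm_eq_abs, abs_of_pos (g.deriv_pos t)]; exact h.der t ht
  have := (convex_Icc z w).norm_image_sub_le_of_norm_deriv_le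
    (fun t _ => g.differentiable t) h1 (left_mem_Icc.mpr h.zw.le) hx
  simp only [h.gz, Real.norm_eq_abs, abs_of_nonneg (sub_nonneg.mpr hx.1)] at this
  exact (le_abs_self _).trans this

theorem Contr.map (h : Contr g z w κ) {x : ℝ} (hx : x ∈ Icc z w) : g x ∈ Icc z w := by
  constructor
  · have := g.le_iff.mpr hx.1
    rwa [h.gz] at this
  · have h1 := h.le_self hx
    have h2 : κ * (x - z) ≤ 1 * (x - z) :=
      mul_le_mul_of_nonneg_right h.κ_lt.le (sub_nonneg.mpr hx.1)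
    linarith [hx.2]

theorem Contr.iter (h : Contr g z w κ) {x : ℝ} (hx : x ∈ Icc z w) (n : ℕ) :
    (g ^ n) x ∈ Icc z w ∧ (g ^ n) x - z ≤ κ ^ n * (x - z) ∧ deriv (g ^ n : Dif) x ≤ κ ^ n := by
  induction n with
  | zero =>
    refine ⟨by simpa using hx, by simp, ?_⟩
    have : deriv (fun y : ℝ => (1 : Dif) y) x = 1 := by
      have e : (fun y : ℝ => (1 : Dif) y) = fun y => y := rfl
      rw [e]; simp
    rw [pow_zero, pow_zero]
    exact this.le
  | succ n ih =>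
    obtain ⟨h1, h2, h3⟩ := ih
    refine ⟨?_, ?_, ?_⟩
    · rw [BS.pow_succ_apply]; exact h.map h1
    · rw [BS.pow_succ_apply]
      calc g ((g ^ n) x) - z ≤ κ * ((g ^ n) x - z) := h.le_self h1
        _ ≤ κ * (κ ^ n * (x - z)) := mul_le_mul_of_nonneg_left h2 h.κ_pos.le
        _ = κ ^ (n + 1) * (x - z) := by ring
    · rw [pow_succ' g, Dif.deriv_mul]
      calc deriv g ((g ^ n) x) * deriv (g ^ n : Dif) x ≤ κ * κ ^ n :=
            mul_le_mul (h.der _ h1) h3 ((g ^ n).deriv_pos x).le h.κ_pos.le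
        _ = κ ^ (n + 1) := by ring

theorem Contr.tendsto (h : Contr g z w κ) {x : ℝ} (hx : x ∈ Icc z w) :
    Tendsto (fun n : ℕ => (g ^ n) x) atTop (𝓝 z) := by
  have h1 : Tendsto (fun n : ℕ => z + κ ^ n * (x - z)) atTop (𝓝 (z + 0 * (x - z))) :=
    tendsto_const_nhds.add ((tendsto_pow_atTop_nhds_zero_of_lt_one h.κ_pos.le h.κ_lt).mul_const _)
  rw [zero_mul, add_zero] at h1
  refine tendsto_of_tendsto_of_tendsto_of_le_of_le tendsto_const_nhds h1
    (fun n => (h.iter hx n).1.1) (fun n => ?_)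
  have := (h.iter hx n).2.1
  linarith

theorem Contr.pp (h : Contr g z w κ) {N : ℕ} {C : ℝ} (hC : 0 ≤ C)
    (hQ : ∀ (n : ℕ), ∀ x ∈ Icc z w, JB N (deriv (g ^ n : Dif)) x (C * κ ^ n) 1)
    {u : ℝ → ℝ} (hu : ContDiff ℝ ∞ u) :
    ∃ M, 0 ≤ M ∧ ∀ (n : ℕ), ∀ x ∈ Icc z w,
      JB N (deriv (fun y => u ((g ^ n) y))) x (M * κ ^ n) 1 := by
  obtain ⟨U, hU0, hU⟩ := exists_JB_bound (contDiff_deriv hu) z w N
  obtain ⟨C₁, hC₁, h1⟩ := comp_JB N C
  refine ⟨C₁ * U * C, by positivity, fun n x hx => ?_⟩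
  have h2 := h1 u (fun y => (g ^ n) y) x U (C * κ ^ n) hu (g ^ n).contDiff
    (hU _ (h.iter hx n).1) (fun l hl hl' => ?_) (hQ n x hx)
  · have e : C₁ * U * (C * κ ^ n) = C₁ * U * C * κ ^ n := by ring
    rwa [e] at h2
  · refine (JB.deriv_bound (hQ n x hx) hl (by omega)).trans ?_
    exact mul_le_of_le_one_right hC (pow_le_one₀ h.κ_pos.le h.κ_lt.le)

theorem Contr.logD_bound (h : Contr g z w κ) {N : ℕ} {C : ℝ} (hC : 0 ≤ C)
    (hQ : ∀ (n : ℕ), ∀ x ∈ Icc z w, JB N (deriv (g ^ n : Dif)) x (C * κ ^ n) 1) :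
    ∃ M, 0 ≤ M ∧ ∀ (n : ℕ), ∀ x ∈ Icc z w, JB N (deriv (logD (g ^ n))) x M 1 := by
  obtain ⟨M, hM, h1⟩ := h.pp hC hQ (GEO1a.logD_contDiff g)
  refine ⟨M * (1 - κ)⁻¹, mul_nonneg hM (inv_nonneg.mpr (by linarith [h.κ_lt])), fun n x hx => ?_⟩
  have e : deriv (logD (g ^ n)) =
      fun y => ∑ j ∈ Finset.range n, deriv (fun y => logD g ((g ^ j) y)) y := by
    funext y
    have e1 : logD (g ^ n) = fun y => ∑ j ∈ Finset.range n, logD g ((g ^ j) y) := by
      funext y; exact GEO1a.logD_pow g n y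
    rw [e1]
    rw [deriv_fun_sum]
    intro j _
    exact ((GEO1a.logD_contDiff g).comp (g ^ j).contDiff).differentiable (by simp) y
  rw [e]
  have h2 := JB.sum (Finset.range n) (h := fun j => deriv (fun y => logD g ((g ^ j) y)))
    (U := fun j => M * κ ^ j) (x := x) zero_le_one (fun j _ => h1 j x hx)
  refine h2.mono le_rfl ?_ zero_le_one
  rw [← Finset.mul_sum]
  apply mul_le_mul_of_nonneg_left _ hM
  have h3 : (1 - κ) * ∑ i ∈ Finset.range n, κ ^ i = 1 - κ ^ n := by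
    have := mul_neg_geom_sum κ n
    linarith
  have h4 : 0 < 1 - κ := by linarith [h.κ_lt]
  have h5 : 0 ≤ κ ^ n := pow_nonneg h.κ_pos.le n
  rw [← mul_le_mul_iff_right₀ h4, h3, mul_inv_cancel₀ h4.ne']
  linarith

/-- uniform estimates for the iterates of a contraction -/
theorem Contr.qq (h : Contr g z w κ) (N : ℕ) :
    ∃ C, 0 ≤ C ∧ ∀ (n : ℕ), ∀ x ∈ Icc z w, JB N (deriv (g ^ n : Dif)) x (C * κ ^ n) 1 := by
  induction N with
  | zero =>
    refine ⟨1, zero_le_one, fun n x hx => ?_⟩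
    rw [JB.zero_iff]
    refine ⟨(contDiff_deriv (g ^ n).contDiff).contDiffAt, ?_⟩
    rw [abs_of_pos ((g ^ n).deriv_pos x), one_mul]
    exact (h.iter hx n).2.2
  | succ N ih =>
    obtain ⟨C, hC, hQ⟩ := ih
    obtain ⟨M, hM, h1⟩ := h.logD_bound hC hQ
    obtain ⟨C', hC', h2⟩ := JB.exp (N + 1) M
    refine ⟨C', hC'.le, fun n x hx => ?_⟩
    have h3 := h2 (logD (g ^ n)) x 1 zero_le_one (GEO1a.logD_contDiff _).contDiffAt
      (fun l hl hl' => by rw [one_pow, mul_one]; exact JB.deriv_bound (h1 n x hx) hl hl')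
    have e : (fun y => Real.exp (logD (g ^ n) y)) = deriv (g ^ n : Dif) := by
      funext y; exact GEO1a.exp_logD _ y
    rw [e, GEO1a.exp_logD] at h3
    refine h3.mono le_rfl ?_ zero_le_one
    exact mul_le_mul_of_nonneg_left (h.iter hx n).2.2 hC'.le

/-! ## Uniform estimates for the centraliser -/

/-- admissible elements -/
structure Adm (g : Dif) (z w w' : ℝ) (δ : Dif) : Prop where
  comm : Commute δ g
  fix : δ z = z
  le : |logD δ z| ≤ 1
  map : ∀ x ∈ Icc z w', δ x ∈ Icc z w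

theorem logD_rel {g δ : Dif} (hc : Commute δ g) (n : ℕ) (x : ℝ) :
    logD δ x = logD δ ((g ^ n) x) + logD (g ^ n) x - logD (g ^ n) (δ x) := by
  have h1 : δ * g ^ n = g ^ n * δ := (hc.pow_right n).eq
  have h2 := GEO1a.logD_mul δ (g ^ n) x
  have h3 := GEO1a.logD_mul (g ^ n) δ x
  rw [h1] at h2
  linarith

theorem Contr.lip (h : Contr g z w κ) : ∃ A, 0 ≤ A ∧ ∀ (δ : Dif), Commute δ g → δ z = z →
    ∀ x ∈ Icc z w, δ x ∈ Icc z w → |logD δ x - logD δ z| ≤ A * |δ x - x| := by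
  obtain ⟨C, hC, hQ⟩ := h.qq 0
  obtain ⟨A, hA, h1⟩ := h.logD_bound hC hQ
  refine ⟨A, hA, fun δ hc hz x hx hδx => ?_⟩
  have h2 : ∀ n : ℕ, |logD δ x - logD δ ((g ^ n) x)| ≤ A * |δ x - x| := by
    intro n
    have h3 := (convex_Icc z w).norm_image_sub_le_of_norm_deriv_le (f := logD (g ^ n)) (C := A)
      (fun t _ => (GEO1a.logD_contDiff (g ^ n)).differentiable (by simp) t)
      (fun t ht => (h1 n t ht).val) hx hδx
    have e : logD δ x - logD δ ((g ^ n) x) = -(logD (g ^ n) (δ x) - logD (g ^ n) x) := by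
      have := logD_rel hc n x
      linarith
    rw [e, abs_neg]
    exact h3
  have h4 : Tendsto (fun n : ℕ => |logD δ x - logD δ ((g ^ n) x)|) atTop
      (𝓝 |logD δ x - logD δ z|) :=
    (tendsto_const_nhds.sub (((GEO1a.logD_contDiff δ).continuous.tendsto z).comp
      (h.tendsto hx))).abs
  exact le_of_tendsto' h4 h2

theorem Contr.uu (h : Contr g z w κ) {w' : ℝ} (hw : w' ≤ w) (N : ℕ) :
    ∃ C, 0 ≤ C ∧ ∀ δ, Adm g z w w' δ → ∀ x ∈ Icc z w', JB N (deriv δ) x C 1 := by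
  induction N with
  | zero =>
    obtain ⟨A, hA, h1⟩ := h.lip
    refine ⟨Real.exp (1 + A * (w - z)), (Real.exp_pos _).le, fun δ hδ x hx => ?_⟩
    rw [JB.zero_iff]
    refine ⟨(contDiff_deriv δ.contDiff).contDiffAt, ?_⟩
    rw [abs_of_pos (δ.deriv_pos x), ← GEO1a.exp_logD]
    apply Real.exp_le_exp.mpr
    have hxw : x ∈ Icc z w := ⟨hx.1, hx.2.trans hw⟩
    have h2 := h1 δ hδ.comm hδ.fix x hxw (hδ.map x hx)
    have h3 : |δ x - x| ≤ w - z := by
      have := hδ.map x hx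
      rw [abs_le]; constructor
      · linarith [this.1, hxw.2]
      · linarith [this.2, hxw.1]
    have h4 : A * |δ x - x| ≤ A * (w - z) := mul_le_mul_of_nonneg_left h3 hA
    have h5 := (abs_le.mp h2).2
    have h6 := (abs_le.mp hδ.le).2
    linarith
  | succ N ih =>
    obtain ⟨C, hC, h1⟩ := ih
    obtain ⟨CQ, hCQ, hQ⟩ := h.qq N
    obtain ⟨A, hA, h2⟩ := h.logD_bound hCQ hQ
    obtain ⟨C₂, hC₂, h3⟩ := comp_JB N C
    obtain ⟨C₃, hC₃, h4⟩ := JB.exp (N + 1) (A + C₂ * A * C)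
    obtain ⟨A₀, hA₀, h5⟩ := h.lip
    refine ⟨C₃ * Real.exp (1 + A₀ * (w - z)), by positivity, fun δ hδ x hx => ?_⟩
    have hxw : x ∈ Icc z w := ⟨hx.1, hx.2.trans hw⟩
    -- bound for the derivatives of log
    have hlog : ∀ l ≤ N, |iteratedDeriv l (deriv (logD δ)) x| ≤ A + C₂ * A * C := by
      obtain ⟨M, hM, h6⟩ := h.pp hCQ hQ (GEO1a.logD_contDiff δ)
      have hn : ∀ n : ℕ, JB N (deriv (logD δ)) x (M * κ ^ n + A + C₂ * A * C) 1 := by
        intro n
        have e : logD δ = fun y => logD δ ((g ^ n) y) + logD (g ^ n) y - logD (g ^ n) (δ y) := by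
          funext y; exact logD_rel hδ.comm n y
        have c1 : ContDiff ℝ ∞ (fun y => logD δ ((g ^ n) y)) :=
          (GEO1a.logD_contDiff δ).comp (g ^ n).contDiff
        have c2 : ContDiff ℝ ∞ (logD (g ^ n)) := GEO1a.logD_contDiff _
        have c3 : ContDiff ℝ ∞ (fun y => logD (g ^ n) (δ y)) := c2.comp δ.contDiff
        have e2 : deriv (logD δ) = fun y => (deriv (fun y => logD δ ((g ^ n) y)) y +
            deriv (logD (g ^ n)) y) - deriv (fun y => logD (g ^ n) (δ y)) y := by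
          funext y
          conv_lhs => rw [e]
          have d1 := (c1.differentiable (by simp) y).hasDerivAt
          have d2 := (c2.differentiable (by simp) y).hasDerivAt
          have d3 := (c3.differentiable (by simp) y).hasDerivAt
          exact ((d1.add d2).sub d3).deriv
        rw [e2]
        refine JB.sub (JB.add (h6 n x hxw) (h2 n x hxw)) ?_
        refine h3 (logD (g ^ n)) (fun y => δ y) x A C c2 δ.contDiff (h2 n _ (hδ.map x hx))
          (fun l hl hl' => JB.deriv_bound (h1 δ hδ x hx) hl (by omega)) (h1 δ hδ x hx)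
      intro l hl
      have h7 : Tendsto (fun n : ℕ => M * κ ^ n + A + C₂ * A * C) atTop
          (𝓝 (M * 0 + A + C₂ * A * C)) :=
        (((tendsto_pow_atTop_nhds_zero_of_lt_one h.κ_pos.le h.κ_lt).const_mul M).add_const
          A).add_const (C₂ * A * C)
      rw [mul_zero, zero_add] at h7
      refine ge_of_tendsto' h7 (fun n => ?_)
      have := (hn n).2 l hl
      simpa using this
    have h8 := h4 (logD δ) x 1 zero_le_one (GEO1a.logD_contDiff _).contDiffAt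
      (fun l hl hl' => by
        rw [one_pow, mul_one]
        obtain ⟨k, rfl⟩ : ∃ k, l = k + 1 := ⟨l - 1, by omega⟩
        rw [iteratedDeriv_succ']
        exact hlog k (by omega))
    have e : (fun y => Real.exp (logD δ y)) = deriv δ := by
      funext y; exact GEO1a.exp_logD _ y
    rw [e] at h8
    refine h8.mono le_rfl ?_ zero_le_one
    apply mul_le_mul_of_nonneg_left _ hC₃.le
    apply Real.exp_le_exp.mpr
    have h2 := h5 δ hδ.comm hδ.fix x hxw (hδ.map x hx)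
    have h3 : |δ x - x| ≤ w - z := by
      have := hδ.map x hx
      rw [abs_le]; constructor
      · linarith [this.1, hxw.2]
      · linarith [this.2, hxw.1]
    have h4 : A₀ * |δ x - x| ≤ A₀ * (w - z) := mul_le_mul_of_nonneg_left h3 hA₀
    have h5 := (abs_le.mp h2).2
    have h6 := (abs_le.mp hδ.le).2
    linarith

/-! ## Closeness to the identity -/

theorem Contr.c0 (h : Contr g z w κ) : ∃ p, z < p ∧ p ≤ w ∧ g⁻¹ p ≤ w ∧
    ∀ δ : Dif, Commute δ g → δ z = z → |logD δ z| ≤ 1 / 2 →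
      (∀ x ∈ Icc z p, g x ≤ δ x ∧ δ x ≤ g⁻¹ x) →
      ∀ x ∈ Icc z p, |δ x - x| ≤ 4 * (p - z) * |logD δ z| := by
  obtain ⟨A, hA, h1⟩ := h.lip
  have hev : ∀ᶠ p in 𝓝[>] z, g⁻¹ p < w ∧ (A + 1) * (g⁻¹ p - z) < 1 / 4 := by
    have c1 : Continuous (fun p => g⁻¹ p) := g⁻¹.continuous
    have c2 : Continuous (fun p => (A + 1) * (g⁻¹ p - z)) :=
      continuous_const.mul (c1.sub continuous_const)
    have hz : g⁻¹ z = z := BS.fix_inv h.gz
    have e1 : ∀ᶠ p in 𝓝 z, g⁻¹ p < w :=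
      (c1.tendsto z).eventually (by rw [hz]; exact Iio_mem_nhds h.zw)
    have e2 : ∀ᶠ p in 𝓝 z, (A + 1) * (g⁻¹ p - z) < 1 / 4 :=
      (c2.tendsto z).eventually_lt_const (by rw [hz]; norm_num)
    exact (e1.and e2).filter_mono nhdsWithin_le_nhds
  obtain ⟨p, ⟨hp1, hp2⟩, hzp, hpw⟩ := (hev.and (Ioo_mem_nhdsGT h.zw)).exists
  have hpp : p ≤ g⁻¹ p := by
    rw [Dif.le_inv_iff]
    have h2 := h.le_self (x := p) ⟨hzp.le, hpw.le⟩
    have h3 : κ * (p - z) ≤ 1 * (p - z) := mul_le_mul_of_nonneg_right h.κ_lt.le (by linarith)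
    linarith
  refine ⟨p, hzp, hpw.le, hp1.le, fun δ hc hz ht hs => ?_⟩
  -- the maximal displacement
  have hcont : ContinuousOn (fun x => |δ x - x|) (Icc z p) :=
    (δ.continuous.sub continuous_id).abs.continuousOn
  obtain ⟨xs, hxs, hmax⟩ := isCompact_Icc.exists_isMaxOn ⟨z, left_mem_Icc.mpr hzp.le⟩ hcont
  set D := |δ xs - xs| with hD
  have hmax' : ∀ x ∈ Icc z p, |δ x - x| ≤ D := fun x hx => hmax hx
  have hD0 : 0 ≤ D := abs_nonneg _
  have hgx : ∀ x ∈ Icc z p, z ≤ g x ∧ g⁻¹ x ≤ g⁻¹ p := fun x hx =>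
    ⟨(h.map ⟨hx.1, hx.2.trans hpw.le⟩).1, g⁻¹.le_iff.mpr hx.2⟩
  have hmem : ∀ x ∈ Icc z p, δ x ∈ Icc z w := fun x hx =>
    ⟨(hgx x hx).1.trans (hs x hx).1, ((hs x hx).2.trans (hgx x hx).2).trans hp1.le⟩
  have hDle : D ≤ g⁻¹ p - z := by
    have h2 := hs xs hxs
    have h3 := hgx xs hxs
    rw [hD, abs_le]
    constructor
    · linarith [hxs.2]
    · linarith [hxs.1]
  have hAD : A * D ≤ 1 / 4 := by
    have h2 : A * D ≤ (A + 1) * (g⁻¹ p - z) :=
      mul_le_mul (by linarith) hDle hD0 (by linarith)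
    linarith
  have hlog : ∀ x ∈ Icc z p, |logD δ x| ≤ |logD δ z| + A * D := by
    intro x hx
    have h2 := h1 δ hc hz x ⟨hx.1, hx.2.trans hpw.le⟩ (hmem x hx)
    have h3 : A * |δ x - x| ≤ A * D := mul_le_mul_of_nonneg_left (hmax' x hx) hA
    have h4 : |logD δ x| ≤ |logD δ x - logD δ z| + |logD δ z| := by
      have := abs_add_le (logD δ x - logD δ z) (logD δ z)
      rwa [sub_add_cancel] at this
    linarith
  have hder : ∀ x ∈ Icc z p, ‖deriv (fun y => δ y - y) x‖ ≤ 2 * (|logD δ z| + A * D) := by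
    intro x hx
    have e : deriv (fun y => δ y - y) x = Real.exp (logD δ x) - 1 := by
      rw [GEO1a.exp_logD]
      exact ((δ.differentiable x).hasDerivAt.sub (hasDerivAt_id x)).deriv
    rw [e, Real.norm_eq_abs]
    have h2 := hlog x hx
    have h3 : |logD δ x| ≤ 1 := by linarith
    exact (Real.abs_exp_sub_one_le h3).trans (by linarith)
  have h2 := (convex_Icc z p).norm_image_sub_le_of_norm_deriv_le (f := fun y => δ y - y)
    (fun t _ => (δ.differentiable t).sub differentiableAt_id) hder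
    (left_mem_Icc.mpr hzp.le) hxs
  simp only [hz, sub_self, sub_zero, Real.norm_eq_abs] at h2
  rw [← hD, abs_of_nonneg (sub_nonneg.mpr hxs.1)] at h2
  have h3 : 2 * (|logD δ z| + A * D) * (xs - z) ≤ 2 * (|logD δ z| + A * D) * (p - z) := by
    apply mul_le_mul_of_nonneg_left (by linarith [hxs.2])
    have := abs_nonneg (logD δ z)
    positivity
  have h4 : 2 * A * (p - z) ≤ 1 / 2 := by
    have h5 : A * (p - z) ≤ (A + 1) * (g⁻¹ p - z) :=
      mul_le_mul (by linarith) (by linarith) (by linarith) (by linarith)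
    linarith
  have h5 : 2 * (|logD δ z| + A * D) * (p - z) = 2 * (p - z) * |logD δ z| + (2 * A * (p - z)) * D := by
    ring
  have h6 : (2 * A * (p - z)) * D ≤ 1 / 2 * D := mul_le_mul_of_nonneg_right h4 hD0
  have h7 : D ≤ 4 * (p - z) * |logD δ z| := by linarith
  intro x hx
  exact (hmax' x hx).trans h7

theorem abs_iteratedDeriv_id_le {l : ℕ} (hl : 1 ≤ l) (x : ℝ) :
    |iteratedDeriv l (fun y : ℝ => y) x| ≤ 1 := by
  obtain ⟨k, rfl⟩ : ∃ k, l = k + 1 := ⟨l - 1, by omega⟩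
  rw [iteratedDeriv_succ']
  have e : deriv (fun y : ℝ => y) = fun _ => (1 : ℝ) := by funext y; simp
  rw [e, iteratedDeriv_const]
  split_ifs <;> simp

theorem Contr.cr (h : Contr g z w κ) (r : ℕ) : ∃ p, z < p ∧ p ≤ w ∧ g⁻¹ p ≤ w ∧
    ∀ ε > (0 : ℝ), ∃ η > (0 : ℝ), ∀ δ : Dif, Commute δ g → δ z = z → |logD δ z| ≤ η →
      (∀ x ∈ Icc z p, g x ≤ δ x ∧ δ x ≤ g⁻¹ x) →
      ∀ x ∈ Icc z p, ∀ l ≤ r, |iteratedDeriv l (fun y => δ y - y) x| ≤ ε := by
  obtain ⟨p, hzp, hpw, hgp, h0⟩ := h.c0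
  obtain ⟨C, hC, h1⟩ := h.uu hpw (r + 1)
  obtain ⟨C', hC', h2⟩ := landau_iter r (C + 1)
  refine ⟨p, hzp, hpw, hgp, fun ε hε => ?_⟩
  have hpz : 0 < p - z := by linarith
  set η' := min 1 (min (((p - z) / C') ^ (2 ^ (r + 1))) ((ε / C') ^ (2 ^ r))) with hη'
  have hη'0 : 0 < η' := by
    rw [hη']
    apply lt_min one_pos (lt_min _ _) <;> positivity
  have hη'1 : η' ≤ 1 := min_le_left _ _
  have hη'2 : η' ≤ ((p - z) / C') ^ (2 ^ (r + 1)) := (min_le_right _ _).trans (min_le_left _ _)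
  have hη'3 : η' ≤ (ε / C') ^ (2 ^ r) := (min_le_right _ _).trans (min_le_right _ _)
  refine ⟨min (1 / 2) (η' / (4 * (p - z))), lt_min (by norm_num) (by positivity), ?_⟩
  intro δ hc hz ht hs x hx l hl
  have ht1 : |logD δ z| ≤ 1 / 2 := ht.trans (min_le_left _ _)
  have ht2 : |logD δ z| ≤ η' / (4 * (p - z)) := ht.trans (min_le_right _ _)
  have hsmall : ∀ y ∈ Icc z p, |δ y - y| ≤ η' := by
    intro y hy
    refine (h0 δ hc hz ht1 hs y hy).trans ?_
    calc 4 * (p - z) * |logD δ z| ≤ 4 * (p - z) * (η' / (4 * (p - z))) :=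
          mul_le_mul_of_nonneg_left ht2 (by positivity)
      _ = η' := by field_simp
  have hadm : Adm g z w p δ := by
    refine ⟨hc, hz, by linarith, fun y hy => ?_⟩
    have hy' : y ∈ Icc z w := ⟨hy.1, hy.2.trans hpw⟩
    exact ⟨(h.map hy').1.trans (hs y hy).1,
      ((hs y hy).2.trans (g⁻¹.le_iff.mpr hy.2)).trans hgp⟩
  have hb : ∀ y ∈ Icc z p, ∀ l, 1 ≤ l → l ≤ r + 1 →
      |iteratedDeriv l (fun y => δ y - y) y| ≤ (C + 1) * 1 ^ l := by
    intro y hy l hl1 hl2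
    rw [BP.iteratedDeriv_sub_id, one_pow, mul_one]
    have h3 := JB.deriv_bound (h1 δ hadm y hy) hl1 (by omega)
    have h4 := abs_iteratedDeriv_id_le hl1 y
    exact (abs_sub _ _).trans (add_le_add h3 h4)
  have h5 := h2 (fun y => δ y - y) z p 1 (p - z) η' one_pos hpz (by rw [one_mul]) hη'0 hη'2 hη'1
    (fun y _ => (BP.contDiff_sub_id δ).contDiffAt) hsmall hb x hx l hl
  refine h5.trans ?_
  rw [one_pow, mul_one]
  have h6 : η' ^ ((1 : ℝ) / 2 ^ l) ≤ ε / C' := by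
    have h7 : η' ^ ((1 : ℝ) / 2 ^ l) ≤ η' ^ ((1 : ℝ) / 2 ^ r) := by
      apply Real.rpow_le_rpow_of_exponent_ge hη'0 hη'1
      apply one_div_le_one_div_of_le (by positivity)
      exact pow_le_pow_right₀ (by norm_num) hl
    have h8 : η' ^ ((1 : ℝ) / 2 ^ r) ≤ ((ε / C') ^ (2 ^ r)) ^ ((1 : ℝ) / 2 ^ r) :=
      Real.rpow_le_rpow hη'0.le hη'3 (by positivity)
    have h9 : ((ε / C') ^ (2 ^ r)) ^ ((1 : ℝ) / 2 ^ r) = ε / C' := by
      rw [← Real.rpow_natCast, ← Real.rpow_mul (by positivity)]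
      push_cast
      rw [mul_one_div, div_self (by positivity), Real.rpow_one]
    rw [h9] at h8
    exact h7.trans h8
  calc C' * η' ^ ((1 : ℝ) / 2 ^ l) ≤ C' * (ε / C') := mul_le_mul_of_nonneg_left h6 hC'.le
    _ = ε := by field_simp

/-! ## Multipliers -/

theorem logD_mul_fix {γ δ : Dif} {z : ℝ} (hδ : δ z = z) :
    logD (γ * δ) z = logD γ z + logD δ z := by
  rw [GEO1a.logD_mul, hδ]

theorem logD_inv_fix {γ : Dif} {z : ℝ} (hγ : γ z = z) : logD γ⁻¹ z = - logD γ z := by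
  have h1 := logD_mul_fix (γ := γ⁻¹) hγ
  rw [inv_mul_cancel, GEO1a.logD_one] at h1
  linarith

theorem logD_zpow_fix {γ : Dif} {z : ℝ} (hγ : γ z = z) (n : ℤ) :
    logD (γ ^ n) z = n * logD γ z := by
  induction n with
  | zero => simp [GEO1a.logD_one]
  | succ n ih => rw [zpow_add_one, logD_mul_fix hγ, ih]; push_cast; ring
  | pred n ih =>
    rw [zpow_sub_one, logD_mul_fix (BS.fix_inv hγ), ih, logD_inv_fix hγ]; push_cast; ring

theorem dsp_lim {γ : Dif} {z : ℝ} (hz : γ z = z) :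
    Tendsto (fun x => BS.dsp γ x / (x - z)) (𝓝[≠] z) (𝓝 (Real.exp (logD γ z) - 1)) := by
  have h1 := BS.tendsto_div_pow 1 (BS.dsp γ) z (BS.dsp_contDiff γ) (fun i hi => by
    have : i = 0 := by omega
    subst this
    simp [BS.dsp, hz])
  have e : iteratedDeriv 1 (BS.dsp γ) z = Real.exp (logD γ z) - 1 := by
    rw [iteratedDeriv_one, GEO1a.exp_logD]
    exact ((γ.differentiable z).hasDerivAt.sub (hasDerivAt_id z)).deriv
  rw [e] at h1
  simpa using h1

theorem pos_of_logD {γ : Dif} {z : ℝ} (hz : γ z = z) (h : 0 < logD γ z) :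
    ∀ᶠ x in 𝓝[>] z, x < γ x := by
  have h1 : 0 < Real.exp (logD γ z) - 1 := by
    have := Real.add_one_lt_exp h.ne'
    linarith
  have h2 := ((dsp_lim hz).mono_left (nhdsWithin_mono z (fun _ hx => ne_of_gt hx) :
    𝓝[>] z ≤ 𝓝[≠] z)).eventually (Ioi_mem_nhds h1)
  filter_upwards [h2, self_mem_nhdsWithin] with x hx hx'
  have h3 : 0 < x - z := sub_pos.mpr hx'
  have h4 := (div_pos_iff_of_pos_right h3).mp hx
  unfold BS.dsp at h4
  linarith

theorem exists_contr {g : Dif} {z b : ℝ} (hz : g z = z) (hb : z < b) (h : logD g z < 0) :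
    ∃ w κ, Contr g z w κ ∧ w < b := by
  have h1 : deriv g z < 1 := by
    rw [← GEO1a.exp_logD, ← Real.exp_zero]; exact Real.exp_lt_exp.mpr h
  have hpos := g.deriv_pos z
  set κ := (1 + deriv g z) / 2 with hκ
  have h2 : ∀ᶠ x in 𝓝 z, deriv g x < κ :=
    ((contDiff_deriv g.contDiff).continuous.tendsto z).eventually
      (Iio_mem_nhds (by rw [hκ]; linarith))
  obtain ⟨δ, hδ, h3⟩ := Metric.eventually_nhds_iff.mp h2
  refine ⟨z + min (δ / 2) ((b - z) / 2), κ, ⟨?_, hz, ?_, ?_, ?_⟩, ?_⟩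
  · have : 0 < min (δ / 2) ((b - z) / 2) := lt_min (by positivity) (by linarith)
    linarith
  · rw [hκ]; linarith
  · rw [hκ]; linarith
  · intro x hx
    apply (h3 _).le
    rw [Real.dist_eq, abs_of_nonneg (by linarith [hx.1])]
    have := min_le_left (δ / 2) ((b - z) / 2)
    linarith [hx.2]
  · have := min_le_right (δ / 2) ((b - z) / 2)
    linarith

section main

variable {F G : Dif} {nF nG q : ℤ}

theorem eq_one_of_logD (h : Rat F G nF nG q) (hnf : NonFlat F G nF nG q) {z z₁ : ℝ}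
    (hz : FixK F G nF nG q z) (hzz : z < z₁) {f γ : Dif} (hf : InL F G nF nG q f)
    (hfp : ∀ y ∈ Ioo z z₁, y < f y) (hf1 : logD f z ≠ 0)
    (hγ : InL F G nF nG q γ) (h0 : logD γ z = 0) : γ = 1 := by
  by_contra hne
  have h1 := dsp_lim (hz γ hγ)
  rw [h0, Real.exp_zero, sub_self] at h1
  have h2 := dsp_lim (hz f hf)
  have hc : Real.exp (logD f z) - 1 ≠ 0 := by
    intro hc
    apply hf1
    have : Real.exp (logD f z) = Real.exp 0 := by rw [Real.exp_zero]; linarith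
    exact Real.exp_injective this
  have hle : 𝓝[>] z ≤ 𝓝[≠] z := nhdsWithin_mono z (fun _ hx => ne_of_gt hx)
  have h3 := (h1.div h2 hc).mono_left hle
  rw [zero_div] at h3
  have ho : (BS.dsp γ) =o[𝓝[>] z] (BS.dsp f) := by
    rw [isLittleO_iff_tendsto']
    · refine h3.congr' ?_
      filter_upwards [self_mem_nhdsWithin] with x hx
      exact div_div_div_cancel_right₀ (sub_pos.mpr hx).ne' _ _
    · filter_upwards [Ioo_mem_nhdsGT hzz] with x hx h0
      have := hfp x hx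
      unfold BS.dsp at h0
      linarith
  have h4 := BS.ratio_right (BS.inL_commute h.toAct hf hγ) hzz (hz f hf)
    (fun x hx => (hfp x hx).ne') ho
  apply nf_not_flat h hnf hγ hne hz
  apply BS.flat_of_right
  filter_upwards [Ioo_mem_nhdsGT hzz] with x hx
  exact h4 x hx

theorem main (h : Rat F G nF nG q) (hnf : NonFlat F G nF nG q) {z : ℝ}
    (hz : FixK F G nF nG q z) {f : Dif} (hf : InL F G nF nG q f)
    (hf1 : 0 < logD f z) (r : ℕ) : TinyNear F G nF nG q r := by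
  have hfz : f z = z := hz f hf
  have hfne : f ≠ 1 := by
    rintro rfl
    rw [GEO1a.logD_one] at hf1
    exact lt_irrefl _ hf1
  obtain ⟨z₁, hz₁, hzz, hgap⟩ := BP.exists_gap h
    (fun γ hγ h1 x hx => nf_fix h hnf hγ h1 hx) hz hf (pos_of_logD hfz hf1)
  have hgp : ∀ γ, InL F G nF nG q γ → 0 < logD γ z → ∀ y ∈ Ioo z z₁, y < γ y := by
    intro γ hγ hp
    obtain ⟨x, hx, hx'⟩ := ((pos_of_logD (hz γ hγ) hp).and (Ioo_mem_nhdsGT hzz)).exists
    exact hgap γ hγ x hx' hx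
  have hfp := hgp f hf hf1
  -- contraction
  obtain ⟨w, κ, hcon, hw⟩ := exists_contr (g := f⁻¹) (BS.fix_inv hfz) hzz
    (by rw [logD_inv_fix hfz]; linarith)
  obtain ⟨p, hzp, hpw, hgpw, hclose⟩ := hcon.cr r
  obtain ⟨u, hu, hind⟩ := BP.exists_indep h hf hfne
  refine ⟨f, hf, z, z₁, hz, hz₁, hzz, hfp, fun J₀ ε hε => ?_⟩
  have hpz₁ : p < z₁ := hpw.trans_lt hw
  have hpm : p ∈ Icc z w := ⟨hzp.le, hpw⟩
  have hgn : ∀ n : ℕ, z < (f⁻¹ ^ n) p := fun n => by
    have h1 := (f⁻¹ ^ n).lt_iff.mpr hzp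
    have h2 : (f⁻¹ ^ n) z = z := by
      have := BS.zpow_fix (BS.fix_inv hfz) (n : ℤ)
      rwa [zpow_natCast] at this
    rwa [h2] at h1
  have hgn' : ∀ n : ℕ, (f⁻¹ ^ n) p ≤ p := fun n => by
    have h1 := (hcon.iter hpm n).2.1
    have h2 : κ ^ n * (p - z) ≤ 1 * (p - z) :=
      mul_le_mul_of_nonneg_right (pow_le_one₀ hcon.κ_pos.le hcon.κ_lt.le) (by linarith)
    linarith
  -- the window
  set x₀ := (f⁻¹ ^ (J₀ + 1)) p with hx₀
  have hlow : (f ^ (-(J₀ : ℤ))) x₀ = (f⁻¹ ^ (2 * J₀ + 1)) p := by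
    rw [zpow_neg, zpow_natCast, ← inv_pow, hx₀, ← Dif.mul_apply, ← pow_add]
    congr 2
    ring_nf
  have hup : (f ^ (J₀ : ℤ)) x₀ = f⁻¹ p := by
    rw [hx₀, ← Dif.mul_apply]
    have : f ^ (J₀ : ℤ) * f⁻¹ ^ (J₀ + 1) = f⁻¹ := by
      rw [pow_succ, zpow_natCast, inv_pow, mul_inv_cancel_left]
    rw [this]
  have hfp1 : f⁻¹ p ≤ p := by simpa using hgn' 1
  set q₀ := (f⁻¹ ^ (2 * J₀ + 1)) p with hq₀
  have hq₀z : z < q₀ := hgn _
  have hsub : ∀ y ∈ Icc ((f ^ (-(J₀ : ℤ))) x₀) ((f ^ (J₀ : ℤ)) x₀), y ∈ Icc q₀ p := by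
    intro y hy
    rw [hlow, hup] at hy
    exact ⟨hy.1, hy.2.trans hfp1⟩
  obtain ⟨ym, hym, hmin⟩ := isCompact_Icc.exists_isMinOn (s := Icc q₀ p)
    ⟨p, right_mem_Icc.mpr (hgn' _)⟩ (f := BS.dsp f)
    (BS.dsp_contDiff f).continuous.continuousOn
  have hymgap : ym ∈ Ioo z z₁ := ⟨hq₀z.trans_le hym.1, hym.2.trans_lt hpz₁⟩
  have hm0 : 0 < BS.dsp f ym := by
    have := hfp ym hymgap
    unfold BS.dsp; linarith
  set a := min 1 (BS.dsp f ym) with ha
  have ha0 : 0 < a := lt_min one_pos hm0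
  have hamin : ∀ y ∈ Icc q₀ p, a ≤ f y - y := fun y hy => (min_le_right _ _).trans (hmin hy)
  obtain ⟨η, hη, hcl⟩ := hclose (ε * a ^ r) (by positivity)
  -- the element s
  set t := logD f z with ht
  obtain ⟨n, hn⟩ := exists_nat_gt ((J₀ + 1) * t / (min η (t / 2)))
  have hmin0 : 0 < min η (t / 2) := lt_min hη (by positivity)
  obtain ⟨j, k, hk0, -, hjk⟩ := Real.exists_int_int_abs_mul_sub_le (logD u z / t)
    (n := n + 1) (Nat.succ_pos n)
  set s := u ^ k * f ^ (-j) with hs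
  have hsL : InL F G nF nG q s := BP.inL_mul h.toAct (BS.inL_zpow h.toAct hu k)
    (BS.inL_zpow h.toAct hf (-j))
  have hs1 : s ≠ 1 := by
    intro he
    have hc : Commute (u ^ k) (f ^ (-j)) :=
      BS.inL_commute h.toAct (BS.inL_zpow h.toAct hu k) (BS.inL_zpow h.toAct hf (-j))
    rw [hs, hc.eq] at he
    have := hind _ _ he
    omega
  have hsz : s z = z := hz s hsL
  have hst : |logD s z| ≤ t / (n + 1) := by
    have e : logD s z = t * (k * (logD u z / t) - j) := by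
      rw [hs, logD_mul_fix (hz _ (BS.inL_zpow h.toAct hf (-j))), logD_zpow_fix (hz u hu),
        logD_zpow_fix hfz]
      push_cast
      field_simp
      ring
    rw [e, abs_mul, abs_of_pos hf1]
    calc t * |(k : ℝ) * (logD u z / t) - j| ≤ t * (1 / ((n + 1 : ℕ) + 1)) :=
          mul_le_mul_of_nonneg_left hjk hf1.le
      _ ≤ t * (1 / (n + 1)) := by
          apply mul_le_mul_of_nonneg_left _ hf1.le
          apply one_div_le_one_div_of_le (by positivity)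
          push_cast; linarith
      _ = t / (n + 1) := by ring
  have hsJ : ∀ i : ℤ, |i| ≤ J₀ → |logD (s ^ i) z| ≤ min η (t / 2) := by
    intro i hi
    rw [logD_zpow_fix hsz, abs_mul]
    have h1 : |(i : ℝ)| ≤ J₀ := by exact_mod_cast hi
    have h2 : |(i : ℝ)| * |logD s z| ≤ (J₀ + 1) * (t / (n + 1)) :=
      mul_le_mul (by linarith) hst (abs_nonneg _) (by positivity)
    refine h2.trans ?_
    rw [div_lt_iff₀ hmin0] at hn
    rw [mul_div_assoc', div_le_iff₀ (by positivity)]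
    calc ((J₀ : ℝ) + 1) * t ≤ n * min η (t / 2) := hn.le
      _ ≤ min η (t / 2) * (n + 1) := by nlinarith
  have hsand : ∀ i : ℤ, |i| ≤ J₀ → ∀ y ∈ Ioo z z₁, f⁻¹ y ≤ (s ^ i) y ∧ (s ^ i) y ≤ f y := by
    intro i hi y hy
    have hL := BS.inL_zpow h.toAct hsL i
    have hb := abs_le.mp ((hsJ i hi).trans (min_le_right _ _))
    constructor
    · have h1 := hgp (f * s ^ i) (BP.inL_mul h.toAct hf hL) (by
        rw [logD_mul_fix (hz _ hL)]
        linarith [hb.1]) y hy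
      rw [Dif.mul_apply] at h1
      rw [Dif.inv_le_iff]
      exact h1.le
    · have hLi := BS.inL_inv h.toAct hL
      have hy' : (s ^ i) y ∈ Ioo z z₁ := by
        constructor
        · have := (s ^ i).lt_iff.mpr hy.1
          rwa [hz _ hL] at this
        · have := (s ^ i).lt_iff.mpr hy.2
          rwa [hz₁ _ hL] at this
      have h1 := hgp (f * (s ^ i)⁻¹) (BP.inL_mul h.toAct hf hLi) (by
        rw [logD_mul_fix (hz _ hLi), logD_inv_fix (hz _ hL)]
        linarith [hb.2]) _ hy'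
      rw [Dif.mul_apply, Dif.inv_apply_self] at h1
      exact h1.le
  have hx₀z : z < x₀ := hgn _
  refine ⟨x₀, ⟨hx₀z, (hgn' _).trans_lt hpz₁⟩, a, ha0, min_le_left _ _, s, hsL, hs1, ?_⟩
  intro y hy
  have hy' := hsub y hy
  have hyg : y ∈ Ioo z z₁ := ⟨hq₀z.trans_le hy'.1, hy'.2.trans_lt hpz₁⟩
  refine ⟨hamin y hy', fun i hi => ?_⟩
  obtain ⟨h1, h2⟩ := hsand i hi y hyg
  refine ⟨h1, h2, fun l hl => ?_⟩
  have hL := BS.inL_zpow h.toAct hsL i
  refine hcl (s ^ i) (BS.inL_commute h.toAct hL (BS.inL_inv h.toAct hf)) (hz _ hL)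
    ((hsJ i hi).trans (min_le_left _ _)) ?_ y ⟨hq₀z.le.trans hy'.1, hy'.2⟩ l hl
  intro x hx
  rw [inv_inv]
  rcases hx.1.lt_or_eq with h3 | h3
  · exact hsand i hi x ⟨h3, hx.2.trans_lt hpz₁⟩
  · rw [← h3, hz _ hL, hfz, BS.fix_inv hfz]
    exact ⟨le_rfl, le_rfl⟩

end main

end BH

variable {F G : Dif} {nF nG q : ℤ}

theorem tinyNear_of_hyp (h : Rat F G nF nG q) (hnf : NonFlat F G nF nG q) {z : ℝ}
    (hz : FixK F G nF nG q z) {f : Dif} (hf : InL F G nF nG q f)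
    (hf1 : deriv f z ≠ 1) (r : ℕ) : TinyNear F G nF nG q r := by
  have hne : logD f z ≠ 0 := by
    intro h0
    apply hf1
    rw [← GEO1a.exp_logD, h0, Real.exp_zero]
  rcases lt_or_gt_of_ne hne with h1 | h1
  · exact BH.main h hnf hz (BS.inL_inv h.toAct hf)
      (by rw [BH.logD_inv_fix (hz f hf)]; linarith) r
  · exact BH.main h hnf hz hf h1 r

end Pool.Agent.F88
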