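import Pool.Agent.Lib.MP_f88c17.CaseD5

/-!
# Case D: some level is extremely small compared with the previous one
-/

set_option autoImplicit false

open Set Filter Topology
open scoped ContDiff

namespace Pool.Agent.F88.CaseD

variable {F G : Dif} {α β : ℝ}

theorem centre_disp (h : Free F G α β) (t : Tower F G α β) (i : ℕ) (D : ℝ) (hD : 0 ≤ D)
    (hb : ∀ g, Small t i g → ∀ x, |deriv g x| ≤ D) (a b c : ℤ)
    (ha : |a| ≤ t.N i 0) (hb' : |b| ≤ t.N i 2) (x : ℝ) :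
    t.S (i + 1) ((el F G a b c) x) - (el F G a b c) x ≤ D ^ 2 * (t.S (i + 1) x - x) := by
  have hS := t.tau (i + 1)
  have h1 : HasTau F G α β (F ^ a) (a * α) := ⟨a, 0, 0, by simp, by simp⟩
  have h2 : HasTau F G α β (G ^ b * T ^ c) (b * β + c) := ⟨0, b, c, by simp, by simp⟩
  have s1 : Small t i (F ^ a) := ⟨a, 0, Or.inl ⟨ha, by simp⟩⟩
  have s2 : Small t i (G ^ b * T ^ c) := ⟨b, c, Or.inr ⟨hb', rfl⟩⟩
  have e : el F G a b c = F ^ a * (G ^ b * T ^ c) := by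
    unfold el; rw [mul_assoc]
  have hpos := (t.ld (i + 1)).pos
  rw [e, Dif.mul_apply]
  have k1 := disp_le (tau_commute h.toAct hS h1) (hb _ s1) ((G ^ b * T ^ c : Dif) x) (hpos _)
  have k2 := disp_le (tau_commute h.toAct hS h2) (hb _ s2) x (hpos _)
  calc _ ≤ D * (t.S (i + 1) ((G ^ b * T ^ c : Dif) x) - (G ^ b * T ^ c : Dif) x) := k1
    _ ≤ D * (D * (t.S (i + 1) x - x)) := mul_le_mul_of_nonneg_left k2 hD
    _ = _ := by ring

theorem exists_x0 (h : Free F G α β) (t : Tower F G α β) (i : ℕ) (w : ℝ) (h1 : w ≤ t.M i)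
    (h2 : t.μ i ≤ w) : ∃ x₀, 0 ≤ x₀ ∧ x₀ ≤ 1 ∧ t.S i x₀ - x₀ = w := by
  have hc : Continuous (fun x => t.S i x - x) := (t.S i).continuous.sub continuous_id
  obtain ⟨xM, hxM⟩ := t.M_att i
  obtain ⟨xm, hxm⟩ := t.μ_att i
  obtain ⟨x, hx⟩ := mem_range_of_exists_le_of_exists_ge (c := w) hc ⟨xm, by rw [hxm]; exact h2⟩
    ⟨xM, by rw [hxM]; exact h1⟩
  refine ⟨Int.fract x, Int.fract_nonneg x, (Int.fract_lt_one x).le, ?_⟩
  have hT : Commute (t.S i) T := tau_commute h.toAct (t.tau i) (tau_T (α := α) (β := β))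
  have e : Int.fract x = x + ((-⌊x⌋ : ℤ) : ℝ) := by
    push_cast
    rw [← Int.self_sub_floor]
    ring
  rw [e, map_add_int hT]
  have hx' : t.S i x - x = w := hx
  linarith

/-- the indices of the generators `F, G, T` -/
def e1 : Fin 3 → ℤ := ![1, 0, 0]
def e2 : Fin 3 → ℤ := ![0, 1, 0]
def e3 : Fin 3 → ℤ := ![0, 0, 1]

theorem gen_eq (i : Fin 3) : (![F, G, T] : Fin 3 → Dif) i = el F G (e1 i) (e2 i) (e3 i) := by
  fin_cases i
  · simp [e1, e2, e3, el]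
  · simp [e1, e2, e3, el]
  · simp [e1, e2, e3, el]

theorem e1_bd (i : Fin 3) : 0 ≤ e1 i ∧ e1 i ≤ 1 := by fin_cases i <;> simp [e1]
theorem e2_bd (i : Fin 3) : 0 ≤ e2 i ∧ e2 i ≤ 1 := by fin_cases i <;> simp [e2]

theorem pow_bound {μ : ℝ} (hμ : 0 < μ) (hμ2 : μ ≤ 1 / 2) (n : ℕ) :
    (1 / μ) ^ n + 1 ≤ (1 / μ) ^ (n + 1) := by
  have h1 : 2 ≤ 1 / μ := by rw [le_div_iff₀ hμ]; linarith
  have h2 : 1 ≤ (1 / μ) ^ n := one_le_pow₀ (by linarith)
  rw [pow_succ]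
  nlinarith

theorem window_bound (h : Free F G α β) {x₀ μ R' : ℝ} (hx0 : 0 ≤ x₀) (hx1 : x₀ ≤ 1)
    (hμ : 0 < μ) (hμ1 : μ ≤ 1) {NF NG : ℕ} (hNFr : (NF : ℝ) ≤ 1 / μ) (hNGr : (NG : ℝ) ≤ 1 / μ)
    {L : ℤ} (hL : (|R'| + 2 * (|α| + |β|) + 5) / μ ≤ L) {x : ℝ} (hx : x ∈ Icc (-R') R')
    {a b : ℤ} (ha : |a| ≤ NF) (hb : |b| ≤ NG) (y : ℝ) (hy : |y - x| ≤ |α| + |β| + 1) :
    |y - (el F G a b 0) x₀| + 1 < L := by
  have haN : |(a : ℝ)| ≤ NF := by exact_mod_cast ha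
  have hbN : |(b : ℝ)| ≤ NG := by exact_mod_cast hb
  have hinv1 : 1 ≤ 1 / μ := by rw [le_div_iff₀ hμ]; linarith
  have d1 : |(el F G a b 0) x₀ - x₀| ≤ |α| * (1 / μ) + |β| * (1 / μ) + 1 := by
    have h0 := tau_disp h (tau_el a b 0) x₀
    have e1 : |(a : ℝ) * α + b * β + ((0 : ℤ) : ℝ)| ≤ |(a : ℝ)| * |α| + |(b : ℝ)| * |β| := by
      push_cast
      rw [add_zero, ← abs_mul, ← abs_mul]
      exact abs_add_le _ _
    have e2 : |(a : ℝ)| * |α| ≤ (1 / μ) * |α| :=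
      mul_le_mul_of_nonneg_right (haN.trans hNFr) (abs_nonneg _)
    have e3 : |(b : ℝ)| * |β| ≤ (1 / μ) * |β| :=
      mul_le_mul_of_nonneg_right (hbN.trans hNGr) (abs_nonneg _)
    linarith only [h0, e1, e2, e3]
  have d2 : |x| ≤ |R'| := by
    rw [abs_le]
    have := le_abs_self R'
    exact ⟨by linarith [hx.1], by linarith [hx.2]⟩
  have a0 := abs_nonneg α
  have b0 := abs_nonneg β
  have r0 := abs_nonneg R'
  refine lt_of_lt_of_le ?_ hL
  have k1 : |y - (el F G a b 0) x₀| ≤ |y - x| + |x| + |x₀| + |(el F G a b 0) x₀ - x₀| := by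
    have e : y - (el F G a b 0) x₀ = (y - x) + x - x₀ - ((el F G a b 0) x₀ - x₀) := by ring
    rw [e]
    refine (abs_sub _ _).trans ?_
    have h1 := abs_sub ((y - x) + x) x₀
    have h2 := abs_add_le (y - x) x
    linarith only [h1, h2]
  have k2 : |x₀| ≤ 1 := by rw [abs_of_nonneg hx0]; exact hx1
  have k3 : (|R'| + 2 * (|α| + |β|) + 5) / μ = |R'| * (1 / μ) + |α| * (1 / μ) + |β| * (1 / μ) +
      (|α| * (1 / μ) + |β| * (1 / μ)) + 5 * (1 / μ) := by ring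
  rw [k3]
  have k4 : |R'| ≤ |R'| * (1 / μ) := le_mul_of_one_le_right r0 hinv1
  have k5 : |α| ≤ |α| * (1 / μ) := le_mul_of_one_le_right a0 hinv1
  have k6 : |β| ≤ |β| * (1 / μ) := le_mul_of_one_le_right b0 hinv1
  linarith only [k1, k2, k4, k5, k6, d1, d2, hy, hinv1]

theorem alt2 (h : Free F G α β) (t : Tower F G α β) (r W : ℕ) (hW : 8 ≤ W) (R ε κ : ℝ)
    (hε : 0 < ε) (hκ : 0 < κ) : ∃ m : ℝ, 0 < m ∧ ∀ i, t.μ i ≤ m →
    t.μ i ^ W ≤ t.M (i + 1) → t.μ (i + 1) ≤ t.μ i ^ W →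
    (∃ (s ψ : Dif) (τs : ℝ) (cF cG Q : ℤ), HasTau F G α β s τs ∧ s ≠ 1 ∧ Q ≠ 0 ∧
      |τs| * (1 + |(cF : ℝ)| + |(cG : ℝ)| + |(Q : ℝ)|) < κ ∧
      Near (r + 1) ε R (ψ * (F * s ^ (-cF)) * ψ⁻¹ : Dif) F ∧
      Near (r + 1) ε R (ψ * (G * s ^ (-cG)) * ψ⁻¹ : Dif) G ∧
      Near (r + 1) ε R (ψ * (T * s ^ (-Q)) * ψ⁻¹ : Dif) T) := by
  obtain ⟨R', δ, hδ, hRR', htw⟩ := twist (r + 1) (by omega) ![F, G, T] R ε hε
  obtain ⟨B₂, hB₂⟩ := local_at (r + 1) (2 * (W + 3) * (r + 1) + 5)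
  obtain ⟨n, hn2, hloc⟩ := hB₂ (B₂ + 13)
  obtain ⟨D, hD, hbd⟩ := small_bound (α := α) (β := β) h.toAct n
  obtain ⟨μ₀, hμ₀, hloc⟩ := hloc D hD
  set Cc : ℝ := |R'| + 2 * (|α| + |β|) + 5 with hCc
  set Cm : ℝ := 2 * (Cc + 1) + 3 * (|α| + |β| + t.θ 0) + 4 with hCm
  have hθ0 := t.θ_pos 0
  have hCc0 : 5 ≤ Cc := by
    have := abs_nonneg R'; have := abs_nonneg α; have := abs_nonneg β
    rw [hCc]; linarith
  have hCm0 : 0 < Cm := by
    have := abs_nonneg α; have := abs_nonneg β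
    rw [hCm]; linarith
  refine ⟨min μ₀ (min (1 / 2) (min (1 / (2 * D ^ 2)) (min (1 / Cm) (min δ (κ / (t.θ 0 + 1)))))),
    by positivity, ?_⟩
  intro i hi hM hμ'
  have hμ := μ_pos t i
  obtain ⟨c1, c2, c3, c4, c5, c6⟩ : t.μ i ≤ μ₀ ∧ t.μ i ≤ 1 / 2 ∧ t.μ i ≤ 1 / (2 * D ^ 2) ∧
      t.μ i ≤ 1 / Cm ∧ t.μ i ≤ δ ∧ t.μ i ≤ κ / (t.θ 0 + 1) := by
    simp only [le_min_iff] at hi
    exact hi
  obtain ⟨pF, pG, u, η, hη, hηθ, hu, hpF, hpG, hind, hSs, hus⟩ := level_pair h t i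
  obtain ⟨x₀, hx0, hx1, hx⟩ := exists_x0 h t (i + 1) _ hM hμ'
  have hNFμ := N_mul_μ t i 0
  have hNGμ := N_mul_μ t i 2
  have hNF := t.N_pos i 0
  have hNG := t.N_pos i 2
  have hθ' := t.θ_pos (i + 1)
  have hθle : t.θ (i + 1) ≤ t.θ 0 := θ_anti t (Nat.zero_le _)
  have hStau := t.tau (i + 1)
  have hSpos := (t.ld (i + 1)).pos
  have hS1 := φ_le_one t (i + 1)
  set μ := t.μ i with hμdef
  set S := t.S (i + 1) with hSdef
  set θ := t.θ (i + 1) with hθdef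
  set NF := t.N i 0 with hNFdef
  set NG := t.N i 2 with hNGdef
  have hμ1 : μ ≤ 1 := by linarith
  have hinv1 : 1 ≤ 1 / μ := by rw [le_div_iff₀ hμ]; linarith
  have hc3 : 2 * D ^ 2 * μ ≤ 1 := by
    rw [le_div_iff₀ (by positivity)] at c3
    linarith
  have hc4 : Cm * μ ≤ 1 := by
    rw [le_div_iff₀ hCm0] at c4
    linarith
  have hCm4 : Cm * (1 / μ) ^ 3 ≤ (1 / μ) ^ 4 := by
    rw [pow_succ (1 / μ) 3, mul_comm]
    apply mul_le_mul_of_nonneg_left _ (by positivity)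
    rw [le_div_iff₀ hμ]; exact hc4
  have hSu : Commute S u := tau_commute h.toAct hStau hu
  -- the point `u` lies between the identity and `S`
  have hu' : ∀ x, x < u x ∧ u x < S x := fun x => ⟨tau_pos h hu hη x, tau_lt h hu hStau hηθ x⟩
  -- numbers
  have hNFr : (NF : ℝ) ≤ 1 / μ := by rw [le_div_iff₀ hμ]; exact hNFμ
  have hNGr : (NG : ℝ) ≤ 1 / μ := by rw [le_div_iff₀ hμ]; exact hNGμ
  have hNF0 : (0 : ℝ) ≤ NF := Nat.cast_nonneg _
  have hNG0 : (0 : ℝ) ≤ NG := Nat.cast_nonneg _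
  set L : ℤ := ⌈Cc / μ⌉ with hLdef
  have hL1 : Cc / μ ≤ L := Int.le_ceil _
  have hL2 : (L : ℝ) ≤ (Cc + 1) * (1 / μ) := by
    have h1 := (Int.ceil_lt_add_one (Cc / μ)).le
    calc (L : ℝ) ≤ Cc / μ + 1 := h1
      _ ≤ Cc / μ + 1 / μ := by linarith
      _ = (Cc + 1) * (1 / μ) := by ring
  have hL0 : (0 : ℝ) ≤ L := le_trans (by positivity) hL1
  set Z := centres F G x₀ NF NG L with hZ
  have hZcard : (Z.card : ℝ) ≤ 2 * (Cc + 1) * (1 / μ) ^ 3 := by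
    have h1 : Z.card = NF * NG * (L - -L).toNat := centres_total h x₀ NF NG L
    have h2 : (((L - -L).toNat : ℕ) : ℝ) = 2 * L := by
      have h3 : (0 : ℤ) ≤ L := by exact_mod_cast hL0
      have h4 : (((L - -L).toNat : ℕ) : ℤ) = L - -L := Int.toNat_of_nonneg (by omega)
      have h5 : (((L - -L).toNat : ℕ) : ℝ) = ((L - -L : ℤ) : ℝ) := by exact_mod_cast h4
      rw [h5]; push_cast; ring
    rw [h1]
    push_cast
    rw [h2]
    calc (NF : ℝ) * NG * (2 * L) ≤ (1 / μ) * (1 / μ) * (2 * ((Cc + 1) * (1 / μ))) := by gcongr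
      _ = _ := by ring
  have habs : ∀ (N : ℕ) (γ : ℝ) (p : ℤ), (N : ℝ) ≤ 1 / μ → |(N : ℝ) * γ - p| ≤ θ →
      |(p : ℝ)| ≤ (|γ| + t.θ 0) * (1 / μ) := by
    intro N γ p hN hp
    have h1 : |(p : ℝ)| ≤ |(N : ℝ) * γ| + θ := by
      have := abs_sub_abs_le_abs_sub (p : ℝ) ((N : ℝ) * γ)
      rw [abs_sub_comm] at this
      linarith
    rw [abs_mul, abs_of_nonneg (Nat.cast_nonneg N : (0 : ℝ) ≤ N)] at h1
    calc |(p : ℝ)| ≤ (N : ℝ) * |γ| + θ := h1
      _ ≤ (1 / μ) * |γ| + t.θ 0 * (1 / μ) := by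
          have h2 := mul_le_mul_of_nonneg_right hN (abs_nonneg γ)
          have h3 : θ ≤ t.θ 0 * (1 / μ) := hθle.trans (le_mul_of_one_le_right hθ0.le hinv1)
          linarith only [h2, h3]
      _ = _ := by ring
  have hpF' := habs NF α pF hNFr hpF
  have hpG' := habs NG β pG hNGr hpG
  have h23 : (1 / μ) ^ 2 ≤ (1 / μ) ^ 3 := pow_le_pow_right₀ hinv1 (by norm_num)
  have h03 : 1 ≤ (1 / μ) ^ 3 := one_le_pow₀ hinv1
  have hcF : |((NG * pF : ℤ) : ℝ)| ≤ (|α| + t.θ 0) * (1 / μ) ^ 3 := by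
    push_cast
    rw [abs_mul, abs_of_nonneg hNG0]
    calc (NG : ℝ) * |(pF : ℝ)| ≤ (1 / μ) * ((|α| + t.θ 0) * (1 / μ)) := by gcongr
      _ = (|α| + t.θ 0) * (1 / μ) ^ 2 := by ring
      _ ≤ _ := by gcongr
  have hcG : |((NF * pG : ℤ) : ℝ)| ≤ (|β| + t.θ 0) * (1 / μ) ^ 3 := by
    push_cast
    rw [abs_mul, abs_of_nonneg hNF0]
    calc (NF : ℝ) * |(pG : ℝ)| ≤ (1 / μ) * ((|β| + t.θ 0) * (1 / μ)) := by gcongr
      _ = (|β| + t.θ 0) * (1 / μ) ^ 2 := by ring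
      _ ≤ _ := by gcongr
  have hcT : |((NF * NG : ℤ) : ℝ)| ≤ (1 / μ) ^ 3 := by
    push_cast
    rw [abs_of_nonneg (by positivity)]
    calc (NF : ℝ) * NG ≤ (1 / μ) * (1 / μ) := by gcongr
      _ = (1 / μ) ^ 2 := by ring
      _ ≤ _ := h23
  set J : ℕ := ⌈(1 / μ) ^ 4⌉₊ with hJdef
  have hJ1 : (1 / μ) ^ 4 ≤ J := Nat.le_ceil _
  have hJ2 : (J : ℝ) ≤ (1 / μ) ^ 5 := by
    have h1 := (Nat.ceil_lt_add_one (show 0 ≤ (1 / μ) ^ 4 by positivity)).le
    exact h1.trans (pow_bound hμ c2 4)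
  -- Dirichlet
  set Nn : ℕ := ⌈(1 / μ) ^ (B₂ + 7)⌉₊ with hNn
  have hNn1 : (1 / μ) ^ (B₂ + 7) ≤ Nn := Nat.le_ceil _
  have hNn2 : (Nn : ℝ) ≤ (1 / μ) ^ (B₂ + 8) := by
    have h1 := (Nat.ceil_lt_add_one (show 0 ≤ (1 / μ) ^ (B₂ + 7) by positivity)).le
    exact h1.trans (pow_bound hμ c2 (B₂ + 7))
  have hNn0 : 0 < Nn := by
    have : (0 : ℝ) < Nn := lt_of_lt_of_le (by positivity) hNn1
    exact_mod_cast this
  obtain ⟨j, k, hk0, hkN, hjk⟩ := Real.exists_int_int_abs_mul_sub_le (η / θ) hNn0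
  set τs : ℝ := ((-j : ℤ) : ℝ) * θ + (k : ℝ) * η with hτs
  have hτs1 : |τs| ≤ θ * μ ^ (B₂ + 7) := by
    have e : τs = θ * (k * (η / θ) - j) := by
      rw [hτs]; push_cast; field_simp; ring
    rw [e, abs_mul, abs_of_pos hθ']
    apply mul_le_mul_of_nonneg_left _ hθ'.le
    refine hjk.trans ?_
    rw [div_le_iff₀ (by positivity)]
    have h1 : μ ^ (B₂ + 7) * (1 / μ) ^ (B₂ + 7) = 1 := by
      rw [← mul_pow]; simp [hμ.ne']
    calc (1 : ℝ) = μ ^ (B₂ + 7) * (1 / μ) ^ (B₂ + 7) := h1.symm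
      _ ≤ μ ^ (B₂ + 7) * (Nn + 1) := by
          apply mul_le_mul_of_nonneg_left _ (by positivity)
          linarith
  set s : Dif := S ^ (-j) * u ^ k with hs
  have hstau : HasTau F G α β s τs := tau_mul h.toAct (tau_zpow h.toAct hStau (-j))
    (tau_zpow h.toAct hu k)
  have hτs0 : τs ≠ 0 := by
    intro h0
    have := hind (-j) k h0
    omega
  have hs1 : s ≠ 1 := tau_ne h hstau hτs0
  have hspow : ∀ l : ℤ, s ^ l = S ^ (-j * l) * u ^ (k * l) := by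
    intro l
    rw [hs, (hSu.zpow_zpow (-j) k).mul_zpow, ← zpow_mul, ← zpow_mul]
  have hJabs : ∀ l : ℤ, |l| ≤ J → |(l : ℝ)| ≤ (1 / μ) ^ 5 := by
    intro l hl
    have : |(l : ℝ)| ≤ (J : ℝ) := by exact_mod_cast hl
    exact this.trans hJ2
  have hJτ : ∀ l : ℤ, |l| ≤ J → |(l : ℝ) * τs| ≤ μ ^ B₂ * θ := by
    intro l hl
    rw [abs_mul]
    calc |(l : ℝ)| * |τs| ≤ (1 / μ) ^ 5 * (θ * μ ^ (B₂ + 7)) := by
          gcongr
          exact hJabs l hl
      _ = μ ^ (B₂ + 2) * θ := by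
          rw [one_div, inv_pow]
          field_simp
          ring
      _ ≤ μ ^ B₂ * θ := by
          gcongr ?_ * θ
          exact pow_le_pow_of_le_one hμ.le hμ1 (by omega)
  have hJτ' : ∀ l : ℤ, |l| ≤ J → |(l : ℝ) * τs| ≤ θ := by
    intro l hl
    refine (hJτ l hl).trans ?_
    have : μ ^ B₂ ≤ 1 := pow_le_one₀ hμ.le hμ1
    exact mul_le_of_le_one_left hθ'.le this
  have hbetween : ∀ l : ℤ, |l| ≤ J → ∀ y, S⁻¹ y ≤ (s ^ l) y ∧ (s ^ l) y ≤ S y := by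
    intro l hl y
    obtain ⟨b1, b2⟩ := abs_le.1 (hJτ' l hl)
    exact ⟨tau_le h (tau_inv h.toAct hStau) (tau_zpow h.toAct hstau l) b1 y,
      tau_le h (tau_zpow h.toAct hstau l) hStau b2 y⟩
  -- derivatives of small elements
  have hder1 : ∀ g, Small t i g → ∀ x, |deriv g x| ≤ D * (1 / μ) := by
    intro g hg x
    have := hbd t i g hg x 1 le_rfl (by omega)
    rwa [iteratedDeriv_one, pow_one] at this
  have hDμ0 : 0 ≤ D * (1 / μ) := by positivity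
  have hDμ : (D * (1 / μ)) ^ 2 ≤ (1 / μ) ^ 3 / 2 := by
    have e : (D * (1 / μ)) ^ 2 = (D ^ 2 * μ) * (1 / μ) ^ 3 := by field_simp
    rw [e]
    have : D ^ 2 * μ ≤ 1 / 2 := by linarith
    calc (D ^ 2 * μ) * (1 / μ) ^ 3 ≤ 1 / 2 * (1 / μ) ^ 3 := by gcongr
      _ = _ := by ring
  set aa : ℝ := μ ^ (W + 3) with haa
  have haa0 : 0 < aa := by positivity
  have haa1 : aa ≤ 1 := pow_le_one₀ hμ.le hμ1
  set η' : ℝ := δ * aa ^ (r + 1) / (Z.card + 1) with hη'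
  -- the main estimate at the centres
  have htiny : ∀ a b c : ℤ, |a| ≤ NF → |b| ≤ NG →
      Tiny S s (r + 1) J aa η' ((el F G a b c) x₀) := by
    intro a b c ha hb
    set w := (el F G a b c) x₀ with hw
    set aw := S w - w with haw
    have up : aw ≤ (D * (1 / μ)) ^ 2 * μ ^ W := by
      have := centre_disp h t i _ hDμ0 hder1 a b c ha hb x₀
      rw [hx] at this
      exact this
    have low : μ ^ W ≤ (D * (1 / μ)) ^ 2 * aw := by
      have := centre_disp h t i _ hDμ0 hder1 (-a) (-b) (-c) (by rwa [abs_neg])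
        (by rwa [abs_neg]) w
      have e : (el F G (-a) (-b) (-c)) w = x₀ := by
        rw [hw, ← Dif.mul_apply, el_mul h.toAct]
        simp [el_zero]
      rw [e, hx] at this
      exact this
    have haw0 : 0 < aw := by have := hSpos w; rw [haw]; linarith
    have hk3 : μ ^ 3 * (1 / μ) ^ 3 = 1 := by rw [← mul_pow]; simp [hμ.ne']
    have haw4 : aw ≤ μ ^ 4 := by
      calc aw ≤ (D * (1 / μ)) ^ 2 * μ ^ W := up
        _ ≤ ((1 / μ) ^ 3 / 2) * μ ^ W := by gcongr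
        _ ≤ ((1 / μ) ^ 3 / 2) * μ ^ 8 := by
            gcongr ?_ * ?_
            exact pow_le_pow_of_le_one hμ.le hμ1 hW
        _ = (μ ^ 3 * (1 / μ) ^ 3) * μ ^ 5 / 2 := by ring
        _ = μ ^ 5 / 2 := by rw [hk3]; ring
        _ ≤ μ ^ 4 := by
            have h5 : μ ^ 5 ≤ μ ^ 4 := pow_le_pow_of_le_one hμ.le hμ1 (by norm_num)
            have h4 : 0 < μ ^ 4 := by positivity
            linarith only [h5, h4]
    have hawlow : 2 * aa ≤ aw := by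
      have h1 : μ ^ W ≤ ((1 / μ) ^ 3 / 2) * aw := low.trans (by gcongr)
      have h2 : μ ^ 3 * μ ^ W ≤ μ ^ 3 * (((1 / μ) ^ 3 / 2) * aw) :=
        mul_le_mul_of_nonneg_left h1 (by positivity)
      have h3 : μ ^ 3 * (((1 / μ) ^ 3 / 2) * aw) = aw / 2 := by
        calc μ ^ 3 * (((1 / μ) ^ 3 / 2) * aw) = (μ ^ 3 * (1 / μ) ^ 3) * aw / 2 := by ring
          _ = aw / 2 := by rw [hk3]; ring
      have h4 : aa = μ ^ 3 * μ ^ W := by rw [haa]; ring
      linarith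
    have haw1 : aw ≤ 1 := haw4.trans (pow_le_one₀ hμ.le hμ1)
    have hloc' := hloc S u w aw μ θ η hSu hμ c1 hη hηθ hSpos hu'
      (fun a' b' hab z => tau_pos h (tau_mul h.toAct (tau_zpow h.toAct hStau a')
        (tau_zpow h.toAct hu b')) hab z)
      (fun z l hl1 hln => ⟨hbd t i S hSs z l hl1 hln, hbd t i _ (hSs.inv h.toAct) z l hl1 hln,
        hbd t i u hus z l hl1 hln, hbd t i _ (hus.inv h.toAct) z l hl1 hln⟩)
      rfl haw4
    intro y hy
    have hy0 := hloc' 0 0 (by rw [Int.cast_zero, abs_zero]; positivity)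
      (by rw [Int.cast_zero, zero_mul, zero_mul, add_zero, abs_zero]; positivity) y hy
    refine ⟨by linarith [hy0.1], ?_⟩
    intro l hl
    refine ⟨(hbetween l hl y).1, (hbetween l hl y).2, ?_⟩
    intro d hd
    have h1 := (hloc' (-j * l) (k * l) ?_ ?_ y hy).2 d hd
    · rw [hspow]
      refine h1.trans ?_
      -- numerical estimate
      have n1 : aw / aw ^ d ≤ 1 / aa ^ (r + 1) := by
        rw [div_le_div_iff₀ (by positivity) (by positivity)]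
        calc aw * aa ^ (r + 1) ≤ 1 * aa ^ (r + 1) := by gcongr
          _ ≤ 1 * aa ^ d := by
              gcongr ?_ * ?_
              exact pow_le_pow_of_le_one haa0.le haa1 hd
          _ ≤ 1 * aw ^ d := by
              gcongr
              linarith
      have n2 : ((Z.card : ℝ) + 1) ≤ (1 / μ) ^ 4 := by
        refine le_trans ?_ hCm4
        have := abs_nonneg α; have := abs_nonneg β
        have h3 : (1 : ℝ) ≤ 4 * (1 / μ) ^ 3 := by linarith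
        have h4 : 0 ≤ 3 * (|α| + |β| + t.θ 0) * (1 / μ) ^ 3 := by positivity
        rw [hCm]
        calc (Z.card : ℝ) + 1 ≤ 2 * (Cc + 1) * (1 / μ) ^ 3 + 4 * (1 / μ) ^ 3 := by linarith
          _ ≤ 2 * (Cc + 1) * (1 / μ) ^ 3 + 4 * (1 / μ) ^ 3 +
              3 * (|α| + |β| + t.θ 0) * (1 / μ) ^ 3 := by linarith
          _ = _ := by ring
      rw [hη', le_div_iff₀ (by positivity)]
      have n3 : μ ^ (2 * (W + 3) * (r + 1) + 5) * (1 / μ) ^ 4 =
          μ * (aa ^ (r + 1) * aa ^ (r + 1)) := by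
        have e1 : μ ^ (2 * (W + 3) * (r + 1) + 5) = μ * (aa ^ (r + 1) * aa ^ (r + 1)) * μ ^ 4 := by
          rw [haa]
          rw [← pow_mul, ← pow_add, ← pow_succ', ← pow_add]
          congr 1
          ring
        have e2 : μ ^ 4 * (1 / μ) ^ 4 = 1 := by rw [← mul_pow]; simp [hμ.ne']
        rw [e1, mul_assoc _ (μ ^ 4), e2, mul_one]
      calc μ ^ (2 * (W + 3) * (r + 1) + 5) * aw / aw ^ d * ((Z.card : ℝ) + 1)
          = μ ^ (2 * (W + 3) * (r + 1) + 5) * (aw / aw ^ d) * ((Z.card : ℝ) + 1) := by ring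
        _ ≤ μ ^ (2 * (W + 3) * (r + 1) + 5) * (1 / aa ^ (r + 1)) * (1 / μ) ^ 4 := by gcongr
        _ = (μ ^ (2 * (W + 3) * (r + 1) + 5) * (1 / μ) ^ 4) * (1 / aa ^ (r + 1)) := by ring
        _ = μ * (aa ^ (r + 1) * aa ^ (r + 1)) * (1 / aa ^ (r + 1)) := by rw [n3]
        _ = μ * aa ^ (r + 1) := by field_simp
        _ ≤ δ * aa ^ (r + 1) := by gcongr
    · push_cast
      rw [abs_mul]
      have h2 : |(k : ℝ)| ≤ Nn := by
        rw [abs_of_pos (by exact_mod_cast hk0)]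
        exact_mod_cast hkN
      calc |(k : ℝ)| * |(l : ℝ)| ≤ (1 / μ) ^ (B₂ + 8) * (1 / μ) ^ 5 := by
            gcongr
            · exact h2.trans hNn2
            · exact hJabs l hl
        _ = (1 / μ) ^ (B₂ + 13) := by rw [← pow_add]
    · have h2 := hJτ l hl
      have e : (((-j * l : ℤ) : ℝ) * θ + ((k * l : ℤ) : ℝ) * η) = (l : ℝ) * τs := by
        rw [hτs]; push_cast; ring
      rw [e]; exact h2
  -- commutation
  have hEt : ∀ i : Fin 3, HasTau F G α β ((![F, G, T] : Fin 3 → Dif) i)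
      (e1 i * α + e2 i * β + e3 i) := by
    intro i
    rw [gen_eq]
    exact tau_el _ _ _
  set c : Fin 3 → ℤ := ![NG * pF, NF * pG, NF * NG] with hc
  have hcbound : ∀ i, |((c i : ℤ) : ℝ)| ≤ (|α| + |β| + t.θ 0 + 1) * (1 / μ) ^ 3 := by
    have q1 : 0 ≤ |α| * (1 / μ) ^ 3 := by positivity
    have q2 : 0 ≤ |β| * (1 / μ) ^ 3 := by positivity
    have q3 : 0 ≤ t.θ 0 * (1 / μ) ^ 3 := by positivity
    have q4 : 0 ≤ (1 / μ) ^ 3 := by positivity
    intro i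
    have e : (|α| + |β| + t.θ 0 + 1) * (1 / μ) ^ 3 = |α| * (1 / μ) ^ 3 + |β| * (1 / μ) ^ 3 +
        t.θ 0 * (1 / μ) ^ 3 + (1 / μ) ^ 3 := by ring
    rw [e]
    fin_cases i
    · refine hcF.trans ?_
      rw [add_mul]
      linarith only [q1, q2, q3, q4]
    · refine hcG.trans ?_
      rw [add_mul]
      linarith only [q1, q2, q3, q4]
    · refine hcT.trans ?_
      linarith only [q1, q2, q3, q4]
  have htwist := htw S s Z aa J c (fun i => tau_commute h.toAct hStau (hEt i))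
    (fun i => tau_commute h.toAct hstau (hEt i)) (tau_commute h.toAct hStau hstau)
    (fun z _ => hSpos z) haa0 haa1 ?_ ?_ ?_ ?_
  · obtain ⟨ψ, hψ⟩ := htwist
    refine ⟨s, ψ, τs, NG * pF, NF * pG, NF * NG, hstau, hs1, ?_, ?_, ?_, ?_, ?_⟩
    · have h1 : (NF : ℤ) ≠ 0 := by omega
      have h2 : (NG : ℤ) ≠ 0 := by omega
      exact mul_ne_zero h1 h2
    · have q1 : 0 ≤ |α| * (1 / μ) ^ 3 := by positivity
      have q2 : 0 ≤ |β| * (1 / μ) ^ 3 := by positivity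
      have q3 : 0 ≤ t.θ 0 * (1 / μ) ^ 3 := by positivity
      have q5 : 0 ≤ Cc * (1 / μ) ^ 3 := by positivity
      have h1 : 1 + |((NG * pF : ℤ) : ℝ)| + |((NF * pG : ℤ) : ℝ)| + |((NF * NG : ℤ) : ℝ)| ≤
          (1 / μ) ^ 4 := by
        refine le_trans ?_ hCm4
        rw [hCm]
        have e : (2 * (Cc + 1) + 3 * (|α| + |β| + t.θ 0) + 4) * (1 / μ) ^ 3 =
            (1 / μ) ^ 3 + (|α| + t.θ 0) * (1 / μ) ^ 3 + (|β| + t.θ 0) * (1 / μ) ^ 3 +
            (1 / μ) ^ 3 + (2 * (Cc * (1 / μ) ^ 3) + 2 * (|α| * (1 / μ) ^ 3) +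
            2 * (|β| * (1 / μ) ^ 3) + t.θ 0 * (1 / μ) ^ 3 + 4 * (1 / μ) ^ 3) := by ring
        rw [e]
        linarith only [q1, q2, q3, q5, h03, hcF, hcG, hcT]
      calc |τs| * (1 + |((NG * pF : ℤ) : ℝ)| + |((NF * pG : ℤ) : ℝ)| + |((NF * NG : ℤ) : ℝ)|)
          ≤ (θ * μ ^ (B₂ + 7)) * (1 / μ) ^ 4 := by gcongr
        _ = θ * μ ^ (B₂ + 3) := by
            rw [one_div, inv_pow]
            field_simp
            ring
        _ ≤ θ * μ ^ 1 := by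
            gcongr θ * ?_
            exact pow_le_pow_of_le_one hμ.le hμ1 (by omega)
        _ ≤ t.θ 0 * (κ / (t.θ 0 + 1)) := by
            rw [pow_one]
            gcongr
        _ < κ := by
            rw [← mul_div_assoc, div_lt_iff₀ (by positivity), mul_add, mul_one, mul_comm κ]
            linarith only [hκ]
    · exact hψ 0
    · exact hψ 1
    · exact hψ 2
  · intro i
    have h1 : ((Z.card : ℝ)) + |((c i : ℤ) : ℝ)| ≤ J := by
      refine le_trans ?_ (hCm4.trans hJ1)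
      have := hcbound i
      have q1 : 0 ≤ |α| * (1 / μ) ^ 3 := by positivity
      have q2 : 0 ≤ |β| * (1 / μ) ^ 3 := by positivity
      have q3 : 0 ≤ t.θ 0 * (1 / μ) ^ 3 := by positivity
      rw [hCm]
      have e : (2 * (Cc + 1) + 3 * (|α| + |β| + t.θ 0) + 4) * (1 / μ) ^ 3 =
          2 * (Cc + 1) * (1 / μ) ^ 3 + (|α| + |β| + t.θ 0 + 1) * (1 / μ) ^ 3 +
          (2 * (|α| * (1 / μ) ^ 3) + 2 * (|β| * (1 / μ) ^ 3) + 2 * (t.θ 0 * (1 / μ) ^ 3) +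
          3 * (1 / μ) ^ 3) := by ring
      rw [e]
      linarith only [q1, q2, q3, h03, hZcard, this]
    exact_mod_cast h1
  · intro l hl x
    obtain ⟨b1, b2⟩ := hbetween l hl x
    have b3 := hS1 x
    have b4 := hS1 (S⁻¹ x)
    rw [Dif.apply_inv_self] at b4
    rw [abs_le]
    constructor <;> linarith
  · intro z hz
    rw [hZ] at hz
    unfold centres at hz
    rw [Finset.mem_image] at hz
    obtain ⟨⟨⟨a, b⟩, cc⟩, hmem, rfl⟩ := hz
    simp only [Finset.mem_product, Finset.mem_range, Finset.mem_Ico] at hmem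
    obtain ⟨⟨ha, hb⟩, -⟩ := hmem
    have ha' : (a : ℤ) < NF := by exact_mod_cast ha
    have hb' : (b : ℤ) < NG := by exact_mod_cast hb
    refine ⟨?_, ?_, ?_, ?_⟩
    · apply htiny
      · rw [abs_le]; simp only; omega
      · rw [abs_le]; simp only; omega
    · intro i
      have b1 := e1_bd i
      have b2 := e2_bd i
      rw [gen_eq, ← Dif.mul_apply, el_mul h.toAct]
      apply htiny
      · rw [abs_le]; simp only; omega
      · rw [abs_le]; simp only; omega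
    · intro i
      have b1 := e1_bd i
      have b2 := e2_bd i
      rw [gen_eq, el_inv h.toAct, ← Dif.mul_apply, el_mul h.toAct]
      apply htiny
      · rw [abs_le]; simp only; omega
      · rw [abs_le]; simp only; omega
    · intro i i'
      have b1 := e1_bd i
      have b2 := e2_bd i
      have b1' := e1_bd i'
      have b2' := e2_bd i'
      rw [gen_eq, gen_eq, el_inv h.toAct, ← Dif.mul_apply, ← Dif.mul_apply, el_mul h.toAct,
        el_mul h.toAct]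
      apply htiny
      · rw [abs_le]; simp only; omega
      · rw [abs_le]; simp only; omega
  · -- counting
    have hcount : ∀ x ∈ Icc (-R') R', (∀ z ∈ Z, (x < (S ^ (-3 : ℤ)) z ∨ (S ^ (3 : ℤ)) z < x) ∧
          ∀ i' : Fin 3, (x < (S ^ (-3 : ℤ)) ((![F, G, T] i' : Dif)⁻¹ z) ∨
            (S ^ (3 : ℤ)) ((![F, G, T] i' : Dif)⁻¹ z) < x)) →
        ((Z.filter (fun z => z < F x)).card : ℤ) =
          (Z.filter (fun z => z < x)).card + NG * pF ∧
        ((Z.filter (fun z => z < G x)).card : ℤ) =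
          (Z.filter (fun z => z < x)).card + NF * pG ∧
        ((Z.filter (fun z => z < T x)).card : ℤ) =
          (Z.filter (fun z => z < x)).card + NF * NG := by
      intro x hxR hgap
      refine counting h x₀ NF NG L pF pG S θ hNF hNG hStau hθ' hS1 hpF hpG x ?_ ?_
      · intro a b ha1 ha2 hb1 hb2
        have haN : |a| ≤ (NF : ℤ) := by rw [abs_le]; omega
        have hbN : |b| ≤ (NG : ℤ) := by rw [abs_le]; omega
        have a0 := abs_nonneg α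
        have b0 := abs_nonneg β
        have dF : |F x - x| ≤ |α| + 1 := by
          have hF : HasTau F G α β F α := ⟨1, 0, 0, by simp, by simp⟩
          exact tau_disp h hF x
        have dG : |G x - x| ≤ |β| + 1 := by
          have hG : HasTau F G α β G β := ⟨0, 1, 0, by simp, by simp⟩
          exact tau_disp h hG x
        have dT : |T x - x| ≤ 1 := by
          rw [T_apply]; simp
        have dx : |x - x| ≤ |α| + |β| + 1 := by
          rw [sub_self, abs_zero]; positivity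
        exact ⟨window_bound h hx0 hx1 hμ hμ1 hNFr hNGr hL1 hxR haN hbN _ dx,
          window_bound h hx0 hx1 hμ hμ1 hNFr hNGr hL1 hxR haN hbN _
            (by linarith only [dF, b0]),
          window_bound h hx0 hx1 hμ hμ1 hNFr hNGr hL1 hxR haN hbN _
            (by linarith only [dG, a0]),
          window_bound h hx0 hx1 hμ hμ1 hNFr hNGr hL1 hxR haN hbN _
            (by linarith only [dT, a0, b0])⟩
      · intro z hz
        have := hgap z hz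
        exact ⟨this.1, this.2 0, this.2 1⟩
    intro i x hxR hgap
    have := hcount x hxR hgap
    fin_cases i
    · exact this.1
    · exact this.2.1
    · exact this.2.2

end Pool.Agent.F88.CaseD

namespace Pool.Agent.F88

open CaseD

variable {F G : Dif} {α β : ℝ}

theorem caseD (h : Free F G α β) (t : Tower F G α β) (r : ℕ) :
    ∃ C₁ : ℕ, (∀ i₀, ∃ i ≥ i₀, t.μ (i + 1) < t.μ i ^ C₁) → ∀ (R ε κ : ℝ), 0 < ε → 0 < κ →
    (∃ (s : Dif) (τs : ℝ), HasTau F G α β s τs ∧ s ≠ 1 ∧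
      ∀ l ≤ r, ∀ x, |iteratedDeriv l (fun y => s y - y) x| ≤ ε) ∨
    (∃ (s ψ : Dif) (τs : ℝ) (cF cG Q : ℤ), HasTau F G α β s τs ∧ s ≠ 1 ∧ Q ≠ 0 ∧
      |τs| * (1 + |(cF : ℝ)| + |(cG : ℝ)| + |(Q : ℝ)|) < κ ∧
      Near r ε R (ψ * (F * s ^ (-cF)) * ψ⁻¹ : Dif) F ∧
      Near r ε R (ψ * (G * s ^ (-cG)) * ψ⁻¹ : Dif) G ∧
      Near r ε R (ψ * (T * s ^ (-Q)) * ψ⁻¹ : Dif) T) := by
  set W : ℕ := (r + 1) * 2 ^ r + 8 with hW
  refine ⟨W, fun hinf R ε κ hε hκ => ?_⟩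
  obtain ⟨m₁, hm₁, ha1⟩ := alt1 h t r W (by omega) (by omega) ε hε
  obtain ⟨m₂, hm₂, ha2⟩ := alt2 h t r W (by omega) R ε κ hε hκ
  obtain ⟨i₀, hi₀⟩ := μ_small h t (min m₁ m₂) (by positivity)
  obtain ⟨i, hi, hlt⟩ := hinf i₀
  have hμi := hi₀ i hi
  by_cases hM : t.M (i + 1) ≤ t.μ i ^ W
  · left
    refine ⟨t.S (i + 1), t.θ (i + 1), t.tau (i + 1), ?_,
      ha1 i (hμi.trans (min_le_left _ _)) hM⟩
    exact tau_ne h (t.tau (i + 1)) (t.θ_pos (i + 1)).ne'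
  · right
    push Not at hM
    obtain ⟨s, ψ, τs, cF, cG, Q, h1, h2, h3, h4, h5, h6, h7⟩ :=
      ha2 i (hμi.trans (min_le_right _ _)) hM.le hlt.le
    exact ⟨s, ψ, τs, cF, cG, Q, h1, h2, h3, h4, fun l hl => h5 l (by omega),
      fun l hl => h6 l (by omega), fun l hl => h7 l (by omega)⟩

end Pool.Agent.F88
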