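import Pool.Agent.Lib.MP_f88c17.Defs2

/-!
# Case D, first part: the group generated by `F, G, T`, elementary analysis
-/

set_option autoImplicit false

open Set Filter Topology
open scoped ContDiff

namespace Pool.Agent.F88.CaseD

variable {F G : Dif} {α β : ℝ}

/-- the element `F^a G^b T^c` -/
noncomputable def el (F G : Dif) (a b c : ℤ) : Dif := F ^ a * G ^ b * T ^ c

theorem el_mul (h : Act F G) (a b c a' b' c' : ℤ) :
    el F G a b c * el F G a' b' c' = el F G (a + a') (b + b') (c + c') := by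
  unfold el
  have h1 : Commute (T ^ c) (F ^ a') := (h.FT.symm).zpow_zpow _ _
  have h2 : Commute (T ^ c) (G ^ b') := (h.GT.symm).zpow_zpow _ _
  have h3 : Commute (G ^ b) (F ^ a') := (h.FG.symm).zpow_zpow _ _
  rw [zpow_add, zpow_add, zpow_add]
  calc F ^ a * G ^ b * T ^ c * (F ^ a' * G ^ b' * T ^ c')
      = F ^ a * G ^ b * (T ^ c * F ^ a') * G ^ b' * T ^ c' := by group
    _ = F ^ a * G ^ b * (F ^ a' * T ^ c) * G ^ b' * T ^ c' := by rw [h1.eq]
    _ = F ^ a * (G ^ b * F ^ a') * (T ^ c * G ^ b') * T ^ c' := by group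
    _ = F ^ a * (F ^ a' * G ^ b) * (G ^ b' * T ^ c) * T ^ c' := by rw [h2.eq, h3.eq]
    _ = _ := by group

theorem el_zero : el F G 0 0 0 = 1 := by simp [el]

theorem el_inv (h : Act F G) (a b c : ℤ) : (el F G a b c)⁻¹ = el F G (-a) (-b) (-c) := by
  rw [inv_eq_iff_mul_eq_one, el_mul h]
  simp [el_zero]

theorem el_commute (h : Act F G) (a b c a' b' c' : ℤ) :
    Commute (el F G a b c) (el F G a' b' c') := by
  show _ * _ = _ * _
  rw [el_mul h, el_mul h]
  congr 1 <;> ring

theorem el_pow (h : Act F G) (a b c : ℤ) (n : ℕ) :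
    (el F G a b c) ^ n = el F G (n * a) (n * b) (n * c) := by
  induction n with
  | zero => simp [el_zero]
  | succ n ih =>
    rw [pow_succ, ih, el_mul h]
    push_cast
    congr 1 <;> ring

theorem el_zpow (h : Act F G) (a b c n : ℤ) :
    (el F G a b c) ^ n = el F G (n * a) (n * b) (n * c) := by
  cases n with
  | ofNat n => simpa using el_pow h a b c n
  | negSucc n =>
    rw [zpow_negSucc, el_pow h, el_inv h, Int.negSucc_eq]
    push_cast
    congr 1 <;> ring

theorem el_inj (h : Act F G) {a b c a' b' c' : ℤ}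
    (he : el F G a b c = el F G a' b' c') : a = a' ∧ b = b' ∧ c = c' := by
  have h1 : el F G (a - a') (b - b') (c - c') = 1 := by
    have : el F G a b c * (el F G a' b' c')⁻¹ = 1 := by rw [he]; simp
    rw [el_inv h, el_mul h] at this
    simpa [sub_eq_add_neg] using this
  obtain ⟨h2, h3, h4⟩ := h.faithful _ _ _ h1
  exact ⟨by omega, by omega, by omega⟩

theorem el_F : el F G 1 0 0 = F := by simp [el]
theorem el_G : el F G 0 1 0 = G := by simp [el]
theorem el_T : el F G 0 0 1 = T := by simp [el]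

theorem tau_el (a b c : ℤ) : HasTau F G α β (el F G a b c) (a * α + b * β + c) :=
  ⟨a, b, c, rfl, rfl⟩

theorem tau_unique (h : Act F G) {g : Dif} {t t' : ℝ} (hg : HasTau F G α β g t)
    (hg' : HasTau F G α β g t') : t = t' := by
  obtain ⟨a, b, c, e1, e2⟩ := hg
  obtain ⟨a', b', c', e1', e2'⟩ := hg'
  have : el F G a b c = el F G a' b' c' := by
    unfold el; rw [← e1, ← e1']
  obtain ⟨h1, h2, h3⟩ := el_inj h this
  subst h1; subst h2; subst h3
  rw [e2, e2']

theorem tau_mul (h : Act F G) {g g' : Dif} {t t' : ℝ} (hg : HasTau F G α β g t)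
    (hg' : HasTau F G α β g' t') : HasTau F G α β (g * g') (t + t') := by
  obtain ⟨a, b, c, e1, e2⟩ := hg
  obtain ⟨a', b', c', e1', e2'⟩ := hg'
  refine ⟨a + a', b + b', c + c', ?_, ?_⟩
  · rw [e1, e1']; exact el_mul h _ _ _ _ _ _
  · rw [e2, e2']; push_cast; ring

theorem tau_zpow (h : Act F G) {g : Dif} {t : ℝ} (hg : HasTau F G α β g t) (n : ℤ) :
    HasTau F G α β (g ^ n) (n * t) := by
  obtain ⟨a, b, c, e1, e2⟩ := hg
  refine ⟨n * a, n * b, n * c, ?_, ?_⟩
  · rw [e1]; exact el_zpow h _ _ _ _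
  · rw [e2]; push_cast; ring

theorem tau_inv (h : Act F G) {g : Dif} {t : ℝ} (hg : HasTau F G α β g t) :
    HasTau F G α β (g⁻¹) (-t) := by
  have := tau_zpow h hg (-1)
  simpa using this

theorem tau_commute (h : Act F G) {g g' : Dif} {t t' : ℝ} (hg : HasTau F G α β g t)
    (hg' : HasTau F G α β g' t') : Commute g g' := by
  obtain ⟨a, b, c, e1, e2⟩ := hg
  obtain ⟨a', b', c', e1', e2'⟩ := hg'
  rw [e1, e1']
  exact el_commute h _ _ _ _ _ _

theorem tau_pos (h : Free F G α β) {g : Dif} {t : ℝ} (hg : HasTau F G α β g t) (ht : 0 < t)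
    (x : ℝ) : x < g x := by
  obtain ⟨a, b, c, e1, e2⟩ := hg
  rw [e1]
  exact h.pos a b c (by rw [← e2]; exact ht) x

theorem tau_neg (h : Free F G α β) {g : Dif} {t : ℝ} (hg : HasTau F G α β g t) (ht : t < 0)
    (x : ℝ) : g x < x := by
  have := tau_pos h (tau_inv h.toAct hg) (by linarith) (g x)
  simpa using this

theorem tau_ne (h : Free F G α β) {g : Dif} {t : ℝ} (hg : HasTau F G α β g t) (ht : t ≠ 0) :
    g ≠ 1 := by
  rintro rfl
  rcases lt_or_gt_of_ne ht with h1 | h1
  · have := tau_neg h hg h1 0; simp at this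
  · have := tau_pos h hg h1 0; simp at this

theorem tau_zero (h : Free F G α β) {g : Dif} (hg : HasTau F G α β g 0) : g = 1 := by
  obtain ⟨a, b, c, e1, e2⟩ := hg
  obtain ⟨h1, h2, h3⟩ := h.indep a b c e2.symm
  rw [e1, h1, h2, h3]
  simp

/-- comparison of two elements -/
theorem tau_lt (h : Free F G α β) {g g' : Dif} {t t' : ℝ} (hg : HasTau F G α β g t)
    (hg' : HasTau F G α β g' t') (ht : t < t') (x : ℝ) : g x < g' x := by
  have h1 : HasTau F G α β (g⁻¹ * g') (-t + t') := tau_mul h.toAct (tau_inv h.toAct hg) hg'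
  have h2 := tau_pos h h1 (by linarith) x
  rw [Dif.mul_apply] at h2
  exact (Dif.lt_inv_iff g).1 h2

theorem tau_le (h : Free F G α β) {g g' : Dif} {t t' : ℝ} (hg : HasTau F G α β g t)
    (hg' : HasTau F G α β g' t') (ht : t ≤ t') (x : ℝ) : g x ≤ g' x := by
  rcases ht.lt_or_eq with h1 | h1
  · exact (tau_lt h hg hg' h1 x).le
  · subst h1
    have h2 : HasTau F G α β (g⁻¹ * g') 0 := by
      have := tau_mul h.toAct (tau_inv h.toAct hg) hg'
      simpa using this
    have h3 := tau_zero h h2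
    have h4 : g' = g := by
      rw [inv_mul_eq_one] at h3
      exact h3.symm
    rw [h4]

theorem tau_T : HasTau F G α β T 1 := ⟨0, 0, 1, by simp, by simp⟩

theorem tau_Tc (c : ℤ) : HasTau F G α β (T ^ c) c := ⟨0, 0, c, by simp, by simp⟩

/-- displacement bound -/
theorem tau_disp (h : Free F G α β) {g : Dif} {t : ℝ} (hg : HasTau F G α β g t) (x : ℝ) :
    |g x - x| ≤ |t| + 1 := by
  have h1 : g x ≤ x + (⌊t⌋ + 1 : ℤ) := by
    have := tau_le h hg (tau_Tc (⌊t⌋ + 1)) (by push_cast; exact (Int.lt_floor_add_one t).le) x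
    rwa [T_zpow_apply] at this
  have h2 : x + (⌊t⌋ : ℤ) ≤ g x := by
    have := tau_le h (tau_Tc ⌊t⌋) hg (Int.floor_le t) x
    rwa [T_zpow_apply] at this
  push_cast at h1
  have h3 := Int.floor_le t
  have h4 := Int.lt_floor_add_one t
  have h5 := le_abs_self t
  have h6 := neg_abs_le t
  rw [abs_le]
  constructor
  · by_cases ht : 0 ≤ t
    · have : (0:ℝ) ≤ ⌊t⌋ := by exact_mod_cast Int.floor_nonneg.2 ht
      linarith
    · push Not at ht
      rw [abs_of_neg ht]
      linarith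
  · by_cases ht : 0 ≤ t
    · rw [abs_of_nonneg ht]
      linarith
    · push Not at ht
      have : (⌊t⌋ : ℝ) ≤ -1 := by
        have : ⌊t⌋ < 0 := Int.floor_lt_zero.2 ht
        exact_mod_cast (by omega : ⌊t⌋ ≤ -1)
      linarith [abs_nonneg t]

end Pool.Agent.F88.CaseD
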