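import Pool.Agent.Lib.MP_f88c17.Defs2

/-!
# Task GEO1b: the Moebius discriminant of a closest return is small
-/

set_option autoImplicit false

open Set Filter Topology
open scoped ContDiff

namespace Pool.Agent.F88

namespace GEO1b

/-! ### Elementary calculus of `Dif` -/

theorem hasDerivAt_coe (g : Dif) (x : ℝ) : HasDerivAt (fun y => g y) (deriv g x) x :=
  (g.differentiable x).hasDerivAt

theorem contDiff_deriv (g : Dif) : ContDiff ℝ ∞ (deriv g) := by
  have h := g.contDiff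
  exact (contDiff_infty_iff_deriv.mp h).2

theorem contDiff_logD (g : Dif) : ContDiff ℝ ∞ (logD g) := by
  unfold logD
  exact (contDiff_deriv g).log (fun x => (g.deriv_pos x).ne')

theorem contDiff_psi (g : Dif) : ContDiff ℝ ∞ (psi g) := by
  have h := contDiff_logD g
  exact (contDiff_infty_iff_deriv.mp h).2

theorem contDiff_sch (g : Dif) : ContDiff ℝ ∞ (sch g) := by
  have h := contDiff_psi g
  have h2 : ContDiff ℝ ∞ (deriv (psi g)) := (contDiff_infty_iff_deriv.mp h).2
  exact h2.sub ((h.pow 2).div_const 2)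

theorem hasDerivAt_logD (g : Dif) (x : ℝ) : HasDerivAt (logD g) (psi g x) x :=
  ((contDiff_logD g).differentiable (by simp) x).hasDerivAt

theorem exp_logD (g : Dif) (x : ℝ) : Real.exp (logD g x) = deriv g x :=
  Real.exp_log (g.deriv_pos x)

theorem hasDerivAt_deriv (g : Dif) (x : ℝ) :
    HasDerivAt (deriv g) (deriv g x * psi g x) x := by
  have h1 := (hasDerivAt_logD g x).exp
  have h2 : (fun y => Real.exp (logD g y)) = deriv g := by
    funext y; exact exp_logD g y
  rw [h2, exp_logD] at h1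
  exact h1

theorem hasDerivAt_psi (g : Dif) (x : ℝ) :
    HasDerivAt (psi g) (sch g x + (psi g x) ^ 2 / 2) x := by
  have h1 : HasDerivAt (psi g) (deriv (psi g) x) x :=
    ((contDiff_psi g).differentiable (by simp) x).hasDerivAt
  have h2 : sch g x + (psi g x) ^ 2 / 2 = deriv (psi g) x := by
    unfold sch; ring
  rw [h2]; exact h1

theorem psi_mul (f g : Dif) (x : ℝ) :
    psi (f * g) x = psi f (g x) * deriv g x + psi g x := by
  have h1 : logD (f * g) = fun y => logD f (g y) + logD g y := by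
    funext y
    unfold logD
    rw [show deriv (f * g : Dif) y = deriv f (g y) * deriv g y from Dif.deriv_mul f g y]
    exact Real.log_mul (f.deriv_pos _).ne' (g.deriv_pos _).ne'
  have h2 : HasDerivAt (fun y => logD f (g y) + logD g y)
      (psi f (g x) * deriv g x + psi g x) x :=
    ((hasDerivAt_logD f (g x)).comp x (hasDerivAt_coe g x)).add (hasDerivAt_logD g x)
  unfold psi at *
  rw [h1]
  exact h2.deriv

/-! periodicity -/

theorem apply_add_one {g : Dif} (h : Commute g T) (x : ℝ) : g (x + 1) = g x + 1 := by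
  have := Dif.comm_apply h x
  simpa using this

theorem deriv_add_one {g : Dif} (h : Commute g T) (x : ℝ) : deriv g (x + 1) = deriv g x := by
  have h1 : (fun y => g (y + 1)) = fun y => g y + 1 := by
    funext y; exact apply_add_one h y
  have h2 : deriv (fun y => g (y + 1)) x = deriv g (x + 1) := by
    exact deriv_comp_add_const (f := fun y => g y) (a := 1) (x := x)
  rw [h1] at h2
  rw [← h2]
  exact ((hasDerivAt_coe g x).add_const 1).deriv

theorem logD_add_one {g : Dif} (h : Commute g T) (x : ℝ) : logD g (x + 1) = logD g x := by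
  unfold logD; rw [deriv_add_one h]

theorem psi_add_one {g : Dif} (h : Commute g T) (x : ℝ) : psi g (x + 1) = psi g x := by
  have h1 : (fun y => logD g (y + 1)) = logD g := by
    funext y; exact logD_add_one h y
  have h2 : deriv (fun y => logD g (y + 1)) x = deriv (logD g) (x + 1) :=
    deriv_comp_add_const (f := logD g) (a := 1) (x := x)
  rw [h1] at h2
  exact h2.symm

theorem sch_add_one {g : Dif} (h : Commute g T) (x : ℝ) : sch g (x + 1) = sch g x := by
  have h1 : (fun y => psi g (y + 1)) = psi g := by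
    funext y; exact psi_add_one h y
  have h2 : deriv (fun y => psi g (y + 1)) x = deriv (psi g) (x + 1) :=
    deriv_comp_add_const (f := psi g) (a := 1) (x := x)
  rw [h1] at h2
  unfold sch
  rw [psi_add_one h, h2]

/-! ### Periodic functions and the mean value inequality -/

theorem mv {f f' : ℝ → ℝ} {a b K : ℝ} (hab : a ≤ b)
    (hd : ∀ x ∈ Icc a b, HasDerivAt f (f' x) x) (hK : ∀ x ∈ Icc a b, |f' x| ≤ K) :
    |f b - f a| ≤ K * (b - a) := by
  have h := Convex.norm_image_sub_le_of_norm_hasDerivWithin_le (f := f) (f' := f') (s := Icc a b)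
    (C := K) (x := a) (y := b) (fun x hx => (hd x hx).hasDerivWithinAt)
    (fun x hx => by simpa using hK x hx) (convex_Icc a b) (left_mem_Icc.mpr hab)
    (right_mem_Icc.mpr hab)
  simpa [abs_of_nonneg (sub_nonneg.mpr hab)] using h

theorem per_fract {f : ℝ → ℝ} (hp : ∀ x, f (x + 1) = f x) (x : ℝ) : f (Int.fract x) = f x := by
  have hp' : Function.Periodic f 1 := hp
  have := hp'.sub_int_mul_eq ⌊x⌋ (x := x)
  rw [mul_one] at this
  exact this

theorem per_add_int {f : ℝ → ℝ} (hp : ∀ x, f (x + 1) = f x) (x : ℝ) (n : ℤ) :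
    f (x + n) = f x := by
  have hp' : Function.Periodic f 1 := hp
  have := hp'.int_mul n x
  simpa using this

theorem per_max {f : ℝ → ℝ} (hf : Continuous f) (hp : ∀ x, f (x + 1) = f x) :
    ∃ x₀, ∀ x, f x ≤ f x₀ := by
  obtain ⟨x₀, -, h⟩ := (isCompact_Icc (a := (0 : ℝ)) (b := 1)).exists_isMaxOn
    ⟨0, by simp⟩ hf.continuousOn
  refine ⟨x₀, fun x => ?_⟩
  rw [← per_fract hp x]
  exact h ⟨Int.fract_nonneg x, (Int.fract_lt_one x).le⟩

theorem per_min {f : ℝ → ℝ} (hf : Continuous f) (hp : ∀ x, f (x + 1) = f x) :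
    ∃ x₀, ∀ x, f x₀ ≤ f x := by
  obtain ⟨x₀, h⟩ := per_max (f := fun x => - f x) hf.neg (fun x => by simp [hp x])
  exact ⟨x₀, fun x => by have := h x; simpa using this⟩

theorem per_bound {f : ℝ → ℝ} (hf : Continuous f) (hp : ∀ x, f (x + 1) = f x) :
    ∃ K, 0 ≤ K ∧ ∀ x, |f x| ≤ K := by
  obtain ⟨x₀, h⟩ := per_max (f := fun x => |f x|) hf.abs (fun x => by simp [hp x])
  exact ⟨|f x₀|, abs_nonneg _, h⟩

/-! ### Taylor estimates for a fixed diffeomorphism -/

theorem taylor_gen {E : Dif} (hE : Commute E T) : ∃ K : ℝ, 1 ≤ K ∧ ∀ x,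
    deriv E x ≤ K ∧ 1 ≤ K * deriv E x ∧ |psi E x| ≤ K ∧ ∀ h, 0 ≤ h → h ≤ 1 →
      |deriv E (x + h) - deriv E x * (1 + psi E x * h)| ≤ K * h ^ 2 ∧
      |E (x + h) - E x - deriv E x * (h + psi E x * h ^ 2 / 2)| ≤ K * h ^ 3 ∧
      |psi E (x + h) - psi E x| ≤ K * h := by
  have cD : Continuous (deriv E) := (contDiff_deriv E).continuous
  have cP : Continuous (psi E) := (contDiff_psi E).continuous
  have cS : Continuous (sch E) := (contDiff_sch E).continuous
  obtain ⟨K1, hK1, b1⟩ := per_bound cD (deriv_add_one hE)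
  obtain ⟨K2, hK2, b2⟩ := per_bound (f := fun x => (deriv E x)⁻¹)
    (cD.inv₀ fun x => (E.deriv_pos x).ne') (fun x => by rw [deriv_add_one hE])
  obtain ⟨K3, hK3, b3⟩ := per_bound cP (psi_add_one hE)
  obtain ⟨K4, hK4, b4⟩ := per_bound (f := fun x => sch E x + (psi E x) ^ 2 / 2)
    (by fun_prop) (fun x => by rw [psi_add_one hE, sch_add_one hE])
  obtain ⟨K5, hK5, b5⟩ := per_bound
    (f := fun x => (deriv E x * psi E x) * psi E x
      + deriv E x * (sch E x + (psi E x) ^ 2 / 2))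
    (by fun_prop) (fun x => by rw [psi_add_one hE, sch_add_one hE, deriv_add_one hE])
  set K := 1 + K1 + K2 + K3 + K4 + K5 with hK
  have hE2 : ∀ x, HasDerivAt (fun x => deriv E x * psi E x) ((deriv E x * psi E x) * psi E x
      + deriv E x * (sch E x + (psi E x) ^ 2 / 2)) x := fun x =>
    (hasDerivAt_deriv E x).mul (hasDerivAt_psi E x)
  refine ⟨K, by linarith, fun x => ⟨?_, ?_, ?_, ?_⟩⟩
  · have := b1 x
    rw [abs_of_pos (E.deriv_pos x)] at this
    linarith
  · have h1 := b2 x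
    rw [abs_of_pos (inv_pos.mpr (E.deriv_pos x))] at h1
    have h2 : (deriv E x)⁻¹ * deriv E x = 1 := inv_mul_cancel₀ (E.deriv_pos x).ne'
    have h3 := E.deriv_pos x
    calc (1 : ℝ) = (deriv E x)⁻¹ * deriv E x := h2.symm
      _ ≤ K * deriv E x := by
        apply mul_le_mul_of_nonneg_right _ h3.le
        linarith
  · have := b3 x
    linarith
  · intro h h0 h1
    have hshift : ∀ (f : ℝ → ℝ) (f' t : ℝ), HasDerivAt f f' (x + t) →
        HasDerivAt (fun t => f (x + t)) f' t := by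
      intro f f' t hf
      exact HasDerivAt.comp_const_add x t hf
    -- first estimate for all t in [0,1]
    have key2 : ∀ t, 0 ≤ t → |deriv E (x + t) * psi E (x + t) - deriv E x * psi E x| ≤ K * t := by
      intro t ht
      have := mv (f := fun x => deriv E x * psi E x) (a := x) (b := x + t) (K := K)
        (by linarith) (fun u _ => hE2 u) (fun u _ => (b5 u).trans (by linarith))
      simpa using this
    have key1 : ∀ t, 0 ≤ t → |deriv E (x + t) - deriv E x * (1 + psi E x * t)| ≤ K * t ^ 2 := by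
      intro t ht
      have := mv (f := fun s => deriv E (x + s) - deriv E x * (1 + psi E x * s))
        (f' := fun s => deriv E (x + s) * psi E (x + s) - deriv E x * psi E x)
        (a := 0) (b := t) (K := K * t) ht
        (fun s _ => by
          have h1 := hshift _ _ s (hasDerivAt_deriv E (x + s))
          have h2 : HasDerivAt (fun s => deriv E x * (1 + psi E x * s)) (deriv E x * psi E x) s := by
            have := (((hasDerivAt_id s).const_mul (psi E x)).const_add 1).const_mul (deriv E x)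
            simpa using this
          exact h1.sub h2)
        (fun s hs => (key2 s hs.1).trans (by
          have : 0 ≤ K := by linarith
          exact mul_le_mul_of_nonneg_left hs.2 this))
      have e : K * t * (t - 0) = K * t ^ 2 := by ring
      rw [e] at this
      simpa using this
    refine ⟨key1 h h0, ?_, ?_⟩
    · have := mv (f := fun s => E (x + s) - E x - deriv E x * (s + psi E x * s ^ 2 / 2))
        (f' := fun s => deriv E (x + s) - deriv E x * (1 + psi E x * s))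
        (a := 0) (b := h) (K := K * h ^ 2) h0
        (fun s _ => by
          have h1 := hshift _ _ s (hasDerivAt_coe E (x + s))
          have h2 : HasDerivAt (fun s => deriv E x * (s + psi E x * s ^ 2 / 2))
              (deriv E x * (1 + psi E x * s)) s := by
            have h3 := (((hasDerivAt_id s).pow 2).const_mul (psi E x)).div_const 2
            have h4 := ((hasDerivAt_id s).add h3).const_mul (deriv E x)
            have h5 : HasDerivAt (fun s => deriv E x * (s + psi E x * s ^ 2 / 2))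
                (deriv E x * (1 + psi E x * (((2 : ℕ) : ℝ) * s ^ (2 - 1) * 1) / 2)) s := h4
            exact h5.congr_deriv (by push_cast; ring)
          exact (h1.sub_const (E x)).sub h2)
        (fun s hs => (key1 s hs.1).trans (by
          have hK0 : 0 ≤ K := by linarith
          have : s ^ 2 ≤ h ^ 2 := pow_le_pow_left₀ hs.1 hs.2 2
          exact mul_le_mul_of_nonneg_left this hK0))
      have e : K * h ^ 2 * (h - 0) = K * h ^ 3 := by ring
      rw [e] at this
      simpa using this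
    · have := mv (f := psi E) (a := x) (b := x + h) (K := K)
        (by linarith) (fun u _ => hasDerivAt_psi E u) (fun u _ => (b4 u).trans (by linarith))
      simpa using this

/-! ### The discriminant -/

/-- `φ ψ` -/
noncomputable def yy (S : Dif) (x : ℝ) : ℝ := (S x - x) * psi S x

noncomputable def ww (S : Dif) (x : ℝ) : ℝ := deriv S x - 1 - yy S x / 2

noncomputable def disc (S : Dif) (x : ℝ) : ℝ := ((ww S x) ^ 2 - 2 * yy S x) / deriv S x

theorem hasDerivAt_phi (S : Dif) (x : ℝ) :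
    HasDerivAt (fun x => S x - x) (deriv S x - 1) x :=
  (hasDerivAt_coe S x).sub (hasDerivAt_id x)

theorem hasDerivAt_yy (S g : Dif) (x : ℝ) :
    HasDerivAt (fun x => (S x - x) * psi g x) ((deriv S x - 1) * psi g x
      + (S x - x) * (sch g x + (psi g x) ^ 2 / 2)) x :=
  (hasDerivAt_phi S x).mul (hasDerivAt_psi g x)

theorem hasDerivAt_ww (S : Dif) (x : ℝ) :
    HasDerivAt (ww S) (deriv S x * psi S x - ((deriv S x - 1) * psi S x
      + (S x - x) * (sch S x + (psi S x) ^ 2 / 2)) / 2) x :=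
  ((hasDerivAt_deriv S x).sub_const 1).sub ((hasDerivAt_yy S S x).div_const 2)

theorem hasDerivAt_disc (S : Dif) (x : ℝ) :
    HasDerivAt (disc S) (-((S x - x) * sch S x * (ww S x + 2) / deriv S x)) x := by
  have hD := S.deriv_pos x
  have h := (((hasDerivAt_ww S x).pow 2).sub ((hasDerivAt_yy S S x).const_mul 2)).div
    (hasDerivAt_deriv S x) hD.ne'
  have h3 : HasDerivAt (disc S) (((((2 : ℕ) : ℝ) * ww S x ^ (2 - 1) *
              (deriv S x * psi S x -
                ((deriv S x - 1) * psi S x + (S x - x) * (sch S x + psi S x ^ 2 / 2)) / 2) -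
            2 * ((deriv S x - 1) * psi S x + (S x - x) * (sch S x + psi S x ^ 2 / 2))) *
          deriv S x -
        (ww S x ^ 2 - 2 * yy S x) * (deriv S x * psi S x)) /
      deriv S x ^ 2) x := h
  have h1 : ww S x = deriv S x - 1 - (S x - x) * psi S x / 2 := rfl
  have h2 : yy S x = (S x - x) * psi S x := rfl
  refine h3.congr_deriv ?_
  rw [h1, h2]
  have hne : deriv S x ≠ 0 := hD.ne'
  generalize deriv S x = D at *
  generalize psi S x = P at *
  generalize S x - x = f at *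
  generalize sch S x = s at *
  push_cast
  field_simp
  ring

/-- polynomial in the remainder of the discriminant -/
noncomputable def PP (v : Fin 7 → ℝ) : ℝ :=
  let y := v 0
  let D := v 1
  let p := v 2
  let h := v 3
  let r1 := v 4
  let r2 := v 5
  let r3 := v 6
  let w := D - 1 - y / 2
  let A2 := D * r3 + p ^ 2 * (D - 1) / 2 + r2 * y + h * (p * D * r3 / 2 + r2 * (D - 1) * p)
    + h ^ 2 * (r2 * D * r3)
  let B1 := p * (w + 2) / 2
  let B2 := D * r1 - A2 / 2
  B1 ^ 2 + 2 * w * B2 - 2 * A2 - r1 * (w ^ 2 - 2 * y) + 2 * h * B1 * B2 + h ^ 2 * B2 ^ 2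

theorem PP_bound (K : ℝ) : ∃ B, 0 ≤ B ∧ ∀ v : Fin 7 → ℝ, (∀ i, |v i| ≤ K) → |PP v| ≤ B := by
  have hc : Continuous PP := by
    unfold PP
    fun_prop
  obtain ⟨B, hB⟩ := (isCompact_Icc (a := fun _ : Fin 7 => -K) (b := fun _ => K)).exists_bound_of_continuousOn
    hc.continuousOn
  refine ⟨max B 0, le_max_right _ _, fun v hv => ?_⟩
  have := hB v ⟨fun i => (abs_le.mp (hv i)).1, fun i => (abs_le.mp (hv i)).2⟩
  simpa using Or.inl this

theorem disc_step (K : ℝ) (hK : 1 ≤ K) : ∃ B, 0 ≤ B ∧ ∀ y D p h r1 r2 r3 D2 y2 : ℝ,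
    |y| ≤ K → |D| ≤ K → |p| ≤ K → |h| ≤ K → |r1| ≤ K → |r2| ≤ K → |r3| ≤ K →
    0 < D → 0 < D2 → 1 ≤ K * D2 →
    D2 = D * (1 + p * h + r1 * h ^ 2) →
    y2 = (1 + p * h / 2 + r2 * h ^ 2) * (y + (D - 1) * p * h + D * r3 * h ^ 2) →
    |((D2 - 1 - y2 / 2) ^ 2 - 2 * y2) / D2 - ((D - 1 - y / 2) ^ 2 - 2 * y) / D| ≤ B * h ^ 2 := by
  obtain ⟨B, hB0, hB⟩ := PP_bound K
  refine ⟨K * B, by positivity, ?_⟩
  intro y D p h r1 r2 r3 D2 y2 hy hD hp hh h1 h2 h3 hD0 hD20 hD2K e1 e2
  have hPP := hB ![y, D, p, h, r1, r2, r3] (by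
    intro i
    fin_cases i <;> simpa using by assumption)
  have key : ((D2 - 1 - y2 / 2) ^ 2 - 2 * y2) - (1 + p * h + r1 * h ^ 2) * ((D - 1 - y / 2) ^ 2 - 2 * y)
      = h ^ 2 * PP ![y, D, p, h, r1, r2, r3] := by
    rw [e1, e2]
    simp only [PP, Matrix.cons_val]
    ring
  have hdiff : ((D2 - 1 - y2 / 2) ^ 2 - 2 * y2) / D2 - ((D - 1 - y / 2) ^ 2 - 2 * y) / D
      = h ^ 2 * PP ![y, D, p, h, r1, r2, r3] / D2 := by
    rw [← key]
    have : ((D - 1 - y / 2) ^ 2 - 2 * y) / D
        = ((1 + p * h + r1 * h ^ 2) * ((D - 1 - y / 2) ^ 2 - 2 * y)) / D2 := by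
      rw [div_eq_div_iff hD0.ne' hD20.ne', e1]
      ring
    rw [this]
    ring
  rw [hdiff, abs_div, abs_mul, abs_of_pos hD20, abs_of_nonneg (sq_nonneg h)]
  rw [div_le_iff₀ hD20]
  have hp0 : 0 ≤ |PP ![y, D, p, h, r1, r2, r3]| := abs_nonneg _
  calc h ^ 2 * |PP ![y, D, p, h, r1, r2, r3]| ≤ h ^ 2 * B :=
        mul_le_mul_of_nonneg_left hPP (sq_nonneg h)
    _ = (B * h ^ 2) * 1 := by ring
    _ ≤ (B * h ^ 2) * (K * D2) := mul_le_mul_of_nonneg_left hD2K (by positivity)
    _ = K * B * h ^ 2 * D2 := by ring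

/-! ### Estimates on one level -/

/-- the Taylor bounds of `taylor_gen` -/
def TG (E : Dif) (K : ℝ) : Prop := ∀ x,
    deriv E x ≤ K ∧ 1 ≤ K * deriv E x ∧ |psi E x| ≤ K ∧ ∀ h, 0 ≤ h → h ≤ 1 →
      |deriv E (x + h) - deriv E x * (1 + psi E x * h)| ≤ K * h ^ 2 ∧
      |E (x + h) - E x - deriv E x * (h + psi E x * h ^ 2 / 2)| ≤ K * h ^ 3 ∧
      |psi E (x + h) - psi E x| ≤ K * h

theorem TG.mono {E : Dif} {K K' : ℝ} (h : TG E K) (hK : K ≤ K') : TG E K' := by
  intro x
  obtain ⟨h1, h2, h3, h4⟩ := h x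
  have hD := E.deriv_pos x
  refine ⟨h1.trans hK, h2.trans (mul_le_mul_of_nonneg_right hK hD.le), h3.trans hK, ?_⟩
  intro t ht0 ht1
  obtain ⟨k1, k2, k3⟩ := h4 t ht0 ht1
  exact ⟨k1.trans (mul_le_mul_of_nonneg_right hK (by positivity)),
    k2.trans (mul_le_mul_of_nonneg_right hK (by positivity)),
    k3.trans (mul_le_mul_of_nonneg_right hK (by positivity))⟩

structure Lev (S : Dif) (C M : ℝ) : Prop where
  comm : Commute S T
  pos : ∀ x, x < S x
  le : ∀ x, S x - x ≤ M
  D_le : ∀ x, deriv S x ≤ C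
  D_ge : ∀ x, 1 ≤ C * deriv S x
  comp : ∀ x, ∀ y ∈ Icc x (S x), S y - y ≤ C * (S x - x) ∧ S x - x ≤ C * (S y - y)
  sch_le : ∀ x, (S x - x) ^ 2 * |sch S x| ≤ C * M
  psi_le : ∀ x, (S x - x) * |psi S x| ≤ C
  C_ge : 1 ≤ C
  M_pos : 0 < M
  M_le : M ≤ 1

theorem Lev.abs_yy {S : Dif} {C M : ℝ} (L : Lev S C M) (x : ℝ) : |yy S x| ≤ C := by
  unfold yy
  rw [abs_mul, abs_of_pos (sub_pos.mpr (L.pos x))]
  exact L.psi_le x

theorem Lev.disc_local {S : Dif} {C M : ℝ} (L : Lev S C M) {x z : ℝ} (hz : z ∈ Icc x (S x)) :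
    |disc S z - disc S x| ≤ 3 * C ^ 4 * M := by
  have hC := L.C_ge
  have hM := L.M_pos
  have hφ : 0 < S x - x := sub_pos.mpr (L.pos x)
  have h := mv (f := disc S) (f' := fun u => -((S u - u) * sch S u * (ww S u + 2) / deriv S u))
    (a := x) (b := z) (K := 3 * C ^ 4 * M / (S x - x)) hz.1
    (fun u _ => hasDerivAt_disc S u)
    (fun u hu => by
      have hu' : u ∈ Icc x (S x) := ⟨hu.1, hu.2.trans hz.2⟩
      have hf : 0 < S u - u := sub_pos.mpr (L.pos u)
      have hD := S.deriv_pos u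
      have e1 : |-((S u - u) * sch S u * (ww S u + 2) / deriv S u)|
          = ((S u - u) * |sch S u|) * (|ww S u + 2| / deriv S u) := by
        rw [abs_neg, abs_div, abs_mul, abs_mul, abs_of_pos hf, abs_of_pos hD]
        ring
      have e2 : (S u - u) * |sch S u| ≤ C ^ 2 * M / (S x - x) := by
        rw [le_div_iff₀ hφ]
        have h1 := (L.comp x u hu').2
        have h2 := L.sch_le u
        have h3 : 0 ≤ (S u - u) * |sch S u| := by positivity
        calc (S u - u) * |sch S u| * (S x - x) ≤ (S u - u) * |sch S u| * (C * (S u - u)) :=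
              mul_le_mul_of_nonneg_left h1 h3
          _ = C * ((S u - u) ^ 2 * |sch S u|) := by ring
          _ ≤ C * (C * M) := mul_le_mul_of_nonneg_left h2 (by linarith)
          _ = C ^ 2 * M := by ring
      have e3 : |ww S u + 2| / deriv S u ≤ 3 * C ^ 2 := by
        rw [div_le_iff₀ hD]
        have h1 : |ww S u + 2| ≤ 3 * C := by
          have hy := abs_le.mp (L.abs_yy u)
          have hd := L.D_le u
          unfold ww
          rw [abs_le]
          constructor <;> linarith [hy.1, hy.2]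
        have h2 := L.D_ge u
        calc |ww S u + 2| ≤ 3 * C := h1
          _ = 3 * C * 1 := by ring
          _ ≤ 3 * C * (C * deriv S u) := mul_le_mul_of_nonneg_left h2 (by linarith)
          _ = 3 * C ^ 2 * deriv S u := by ring
      rw [e1]
      calc ((S u - u) * |sch S u|) * (|ww S u + 2| / deriv S u)
          ≤ (C ^ 2 * M / (S x - x)) * (3 * C ^ 2) :=
            mul_le_mul e2 e3 (by positivity) (by positivity)
        _ = 3 * C ^ 4 * M / (S x - x) := by ring)
  refine h.trans ?_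
  have h1 : z - x ≤ S x - x := by linarith [hz.2]
  calc 3 * C ^ 4 * M / (S x - x) * (z - x) ≤ 3 * C ^ 4 * M / (S x - x) * (S x - x) :=
        mul_le_mul_of_nonneg_left h1 (by positivity)
    _ = 3 * C ^ 4 * M := by field_simp

theorem disc_E {K C : ℝ} (hK : 1 ≤ K) (hC : 1 ≤ C) : ∃ B, 0 ≤ B ∧
    ∀ (E S : Dif) (M : ℝ), TG E K → Lev S C M → Commute S E →
      ∀ x, |disc S (E x) - disc S x| ≤ B * (S x - x) ^ 2 := by
  have hKK : K ≤ K ^ 2 := by nlinarith
  obtain ⟨B, hB0, hB⟩ := disc_step (K ^ 2 + C) (by nlinarith)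
  refine ⟨B, hB0, ?_⟩
  intro E S M hE L hSE x
  set h := S x - x with hh
  have hpos : 0 < h := sub_pos.mpr (L.pos x)
  have hle1 : h ≤ 1 := (L.le x).trans L.M_le
  have hSx : S x = x + h := by rw [hh]; ring
  obtain ⟨t1, t2, t3, t4⟩ := hE x
  obtain ⟨k1, k2, k3⟩ := t4 h hpos.le hle1
  have hED : 0 < deriv E x := E.deriv_pos x
  have hSD : 0 < deriv S x := S.deriv_pos x
  have hSD2 : 0 < deriv S (E x) := S.deriv_pos _
  set r1 := (deriv E (x + h) - deriv E x * (1 + psi E x * h)) / (deriv E x * h ^ 2) with hr1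
  set r2 := (E (x + h) - E x - deriv E x * (h + psi E x * h ^ 2 / 2)) / (deriv E x * h ^ 3)
    with hr2
  set r3 := (psi E (x + h) - psi E x) / h with hr3
  have b1 : |r1| ≤ K ^ 2 := by
    rw [hr1, abs_div, abs_of_pos (by positivity : 0 < deriv E x * h ^ 2),
      div_le_iff₀ (by positivity)]
    calc _ ≤ K * h ^ 2 := k1
      _ = K * 1 * h ^ 2 := by ring
      _ ≤ K * (K * deriv E x) * h ^ 2 := by
        apply mul_le_mul_of_nonneg_right _ (by positivity)
        exact mul_le_mul_of_nonneg_left t2 (by linarith)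
      _ = K ^ 2 * (deriv E x * h ^ 2) := by ring
  have b2 : |r2| ≤ K ^ 2 := by
    rw [hr2, abs_div, abs_of_pos (by positivity : 0 < deriv E x * h ^ 3),
      div_le_iff₀ (by positivity)]
    calc _ ≤ K * h ^ 3 := k2
      _ = K * 1 * h ^ 3 := by ring
      _ ≤ K * (K * deriv E x) * h ^ 3 := by
        apply mul_le_mul_of_nonneg_right _ (by positivity)
        exact mul_le_mul_of_nonneg_left t2 (by linarith)
      _ = K ^ 2 * (deriv E x * h ^ 3) := by ring
  have b3 : |r3| ≤ K := by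
    rw [hr3, abs_div, abs_of_pos hpos, div_le_iff₀ hpos]
    exact k3
  -- the three relations
  have q1 : deriv E (S x) = deriv E x * (1 + psi E x * h + r1 * h ^ 2) := by
    rw [hSx, hr1]
    field_simp
    ring
  have q2 : E (S x) - E x = deriv E x * h * (1 + psi E x * h / 2 + r2 * h ^ 2) := by
    rw [hSx, hr2]
    field_simp
    ring
  have q3 : psi E (S x) = psi E x + r3 * h := by
    rw [hSx, hr3]
    field_simp
    ring
  have c1 : deriv S (E x) * deriv E x = deriv E (S x) * deriv S x := by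
    have h1 : deriv (S * E : Dif) x = deriv S (E x) * deriv E x := Dif.deriv_mul S E x
    have h2 : deriv (E * S : Dif) x = deriv E (S x) * deriv S x := Dif.deriv_mul E S x
    rw [← h1, ← h2, hSE.eq]
  have c2 : psi S (E x) * deriv E x + psi E x = psi E (S x) * deriv S x + psi S x := by
    rw [← psi_mul, ← psi_mul, hSE.eq]
  have c3 : S (E x) = E (S x) := Dif.comm_apply hSE x
  have d2 : deriv S (E x) = deriv S x * (1 + psi E x * h + r1 * h ^ 2) := by
    have : deriv S (E x) * deriv E x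
        = (deriv S x * (1 + psi E x * h + r1 * h ^ 2)) * deriv E x := by
      rw [c1, q1]; ring
    exact mul_right_cancel₀ hED.ne' this
  have y2 : yy S (E x) = (1 + psi E x * h / 2 + r2 * h ^ 2)
      * (yy S x + (deriv S x - 1) * psi E x * h + deriv S x * r3 * h ^ 2) := by
    have e1 : yy S (E x) = (E (S x) - E x) * psi S (E x) := by unfold yy; rw [c3]
    have e2 : psi S (E x) * deriv E x
        = psi S x + deriv S x * (psi E x + r3 * h) - psi E x := by
      have := c2
      rw [q3] at this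
      linarith
    have e3 : yy S x = h * psi S x := rfl
    rw [e1, q2, e3]
    calc deriv E x * h * (1 + psi E x * h / 2 + r2 * h ^ 2) * psi S (E x)
        = h * (1 + psi E x * h / 2 + r2 * h ^ 2) * (psi S (E x) * deriv E x) := by ring
      _ = _ := by rw [e2]; ring
  have m0 : 0 ≤ K ^ 2 := by positivity
  have m1 : K ≤ K ^ 2 + C := by linarith
  have m2 : C ≤ K ^ 2 + C := by linarith
  have m3 : K ^ 2 ≤ K ^ 2 + C := by linarith
  have m4 : (1 : ℝ) ≤ K ^ 2 + C := by linarith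
  have n1 : |deriv S x| ≤ K ^ 2 + C := by rw [abs_of_pos hSD]; exact (L.D_le x).trans m2
  have n2 : |h| ≤ K ^ 2 + C := by rw [abs_of_pos hpos]; linarith
  have n3 : (1 : ℝ) ≤ (K ^ 2 + C) * deriv S (E x) :=
    (L.D_ge (E x)).trans (mul_le_mul_of_nonneg_right m2 hSD2.le)
  have := hB (yy S x) (deriv S x) (psi E x) h r1 r2 r3 (deriv S (E x)) (yy S (E x))
    ((L.abs_yy x).trans m2) n1 (t3.trans m1) n2 (b1.trans m3) (b2.trans m3) (b3.trans m1)
    hSD hSD2 n3 d2 y2
  exact this

theorem disc_add_one {S : Dif} (h : Commute S T) (x : ℝ) : disc S (x + 1) = disc S x := by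
  have e : S (x + 1) - (x + 1) = S x - x := by rw [apply_add_one h]; ring
  unfold disc ww yy
  rw [deriv_add_one h, psi_add_one h, e]

theorem chain {E S : Dif} {B M : ℝ} (hB : 0 ≤ B) (hpos : ∀ x, x < S x) (hle : ∀ x, S x - x ≤ M)
    (h : ∀ x, |disc S (E x) - disc S x| ≤ B * (S x - x) ^ 2) (w : ℝ) (n : ℕ) :
    |disc S ((E ^ n) w) - disc S w| ≤
      B * M * ∑ l ∈ Finset.range n, (S ((E ^ l) w) - (E ^ l) w) := by
  induction n with
  | zero => simp
  | succ n ih =>
    rw [Finset.sum_range_succ, mul_add]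
    have e : (E ^ (n + 1)) w = E ((E ^ n) w) := by rw [pow_succ']; rfl
    have h1 := h ((E ^ n) w)
    have h2 : 0 < S ((E ^ n) w) - (E ^ n) w := sub_pos.mpr (hpos _)
    have h3 := hle ((E ^ n) w)
    have h4 : B * (S ((E ^ n) w) - (E ^ n) w) ^ 2 ≤ B * M * (S ((E ^ n) w) - (E ^ n) w) := by
      have : (S ((E ^ n) w) - (E ^ n) w) ^ 2 ≤ M * (S ((E ^ n) w) - (E ^ n) w) := by
        rw [pow_two]; exact mul_le_mul_of_nonneg_right h3 h2.le
      calc _ ≤ B * (M * (S ((E ^ n) w) - (E ^ n) w)) := mul_le_mul_of_nonneg_left this hB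
        _ = _ := by ring
    calc |disc S ((E ^ (n + 1)) w) - disc S w|
        = |(disc S ((E ^ n) w) - disc S w)
            + (disc S (E ((E ^ n) w)) - disc S ((E ^ n) w))| := by rw [e]; ring_nf
      _ ≤ |disc S ((E ^ n) w) - disc S w| + |disc S (E ((E ^ n) w)) - disc S ((E ^ n) w)| :=
          abs_add_le _ _
      _ ≤ _ := add_le_add ih (h1.trans h4)

theorem osc {K C : ℝ} (hK : 1 ≤ K) (hC : 1 ≤ C) : ∃ C₂, 0 ≤ C₂ ∧
    ∀ (E S : Dif) (M : ℝ) (q N : ℕ), TG E K → Lev S C M → Commute S E → q ≤ N →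
      (∀ x, ∑ j ∈ Finset.range N, (S ((E ^ j) x) - (E ^ j) x) ≤ 1) →
      (∀ x z : ℝ, ∃ j < q + N, ∃ c : ℤ,
        (E ^ j * T ^ c) x ≤ z ∧ z < (E ^ j * T ^ c) (S x)) →
      ∀ x z, |disc S z - disc S x| ≤ C₂ * M := by
  obtain ⟨B, hB0, hB⟩ := disc_E hK hC
  refine ⟨2 * B + 3 * C ^ 4, by positivity, ?_⟩
  intro E S M q N hE L hSE hqN hdisj hcov x z
  obtain ⟨j, hj, c, h1, h2⟩ := hcov x z
  set u : Dif := E ^ j * T ^ c with hu
  set z' := u⁻¹ z with hz'
  have hzu : u z' = z := by rw [hz']; simp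
  have hz1 : x ≤ z' := by rw [hz', u.le_inv_iff]; exact h1
  have hz2 : z' ≤ S x := by
    rw [hz', u.inv_le_iff]; exact h2.le
  have hloc := L.disc_local ⟨hz1, hz2⟩
  have hper : disc S ((T ^ c) z') = disc S z' := by
    rw [T_zpow_apply]
    exact per_add_int (disc_add_one L.comm) z' c
  have hz3 : (E ^ j) ((T ^ c) z') = z := by rw [← hzu, hu]; rfl
  have hch := chain (E := E) (S := S) hB0 L.pos L.le (hB E S M hE L hSE) ((T ^ c) z') j
  rw [hz3, hper] at hch
  set w := (T ^ c) z' with hw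
  have hterm : ∀ l, 0 ≤ S ((E ^ l) w) - (E ^ l) w := fun l => (sub_pos.mpr (L.pos _)).le
  have hsum : ∑ l ∈ Finset.range j, (S ((E ^ l) w) - (E ^ l) w) ≤ 2 := by
    have h3 : ∑ l ∈ Finset.range j, (S ((E ^ l) w) - (E ^ l) w) ≤
        ∑ l ∈ Finset.range (N + N), (S ((E ^ l) w) - (E ^ l) w) := by
      apply Finset.sum_le_sum_of_subset_of_nonneg
      · intro l hl
        rw [Finset.mem_range] at hl ⊢
        omega
      · intro l _ _
        exact hterm l
    have h4 : ∑ l ∈ Finset.range (N + N), (S ((E ^ l) w) - (E ^ l) w) =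
        ∑ l ∈ Finset.range N, (S ((E ^ l) w) - (E ^ l) w)
        + ∑ l ∈ Finset.range N, (S ((E ^ l) ((E ^ N) w)) - (E ^ l) ((E ^ N) w)) := by
      rw [Finset.sum_range_add]
      congr 1
      apply Finset.sum_congr rfl
      intro l _
      have : (E ^ (N + l)) w = (E ^ l) ((E ^ N) w) := by
        rw [add_comm, pow_add]; rfl
      rw [this]
    have h5 := hdisj w
    have h6 := hdisj ((E ^ N) w)
    linarith
  have hBM : 0 ≤ B * M := mul_nonneg hB0 L.M_pos.le
  calc |disc S z - disc S x| = |(disc S z - disc S z') + (disc S z' - disc S x)| := by ring_nf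
    _ ≤ |disc S z - disc S z'| + |disc S z' - disc S x| := abs_add_le _ _
    _ ≤ B * M * 2 + 3 * C ^ 4 * M :=
        add_le_add (hch.trans (mul_le_mul_of_nonneg_left hsum hBM)) hloc
    _ = (2 * B + 3 * C ^ 4) * M := by ring

/-! ### The discriminant takes both signs -/

theorem continuous_yy (S : Dif) : Continuous (yy S) := by
  have h1 : Continuous (psi S) := (contDiff_psi S).continuous
  have h2 := S.continuous
  unfold yy
  fun_prop

theorem continuous_ww (S : Dif) : Continuous (ww S) := by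
  have h1 : Continuous (deriv S) := (contDiff_deriv S).continuous
  have h2 := continuous_yy S
  unfold ww
  fun_prop

theorem exists_disc_nonneg {S : Dif} (hS : Commute S T) : ∃ x, yy S x = 0 ∧ 0 ≤ disc S x := by
  obtain ⟨x₀, h⟩ := per_max (contDiff_logD S).continuous (logD_add_one hS)
  have h1 : IsLocalMax (logD S) x₀ := Filter.Eventually.of_forall h
  have h2 : psi S x₀ = 0 := h1.hasDerivAt_eq_zero (hasDerivAt_logD S x₀)
  have h3 : yy S x₀ = 0 := by unfold yy; rw [h2, mul_zero]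
  refine ⟨x₀, h3, ?_⟩
  unfold disc
  rw [h3]
  have := S.deriv_pos x₀
  have h4 : (0 : ℝ) ≤ ww S x₀ ^ 2 - 2 * 0 := by
    have := sq_nonneg (ww S x₀)
    linarith
  exact div_nonneg h4 this.le

theorem min_second_order {S : Dif} {a : ℝ} (h : ∀ x, S a - a ≤ S x - x) :
    deriv S a = 1 ∧ 0 ≤ psi S a := by
  set f : ℝ → ℝ := fun x => S x - x with hf
  have hmin : IsLocalMin f a := Filter.Eventually.of_forall h
  have h1 : deriv S a - 1 = 0 := hmin.hasDerivAt_eq_zero (hasDerivAt_phi S a)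
  have hD : deriv S a = 1 := by linarith
  refine ⟨hD, ?_⟩
  by_contra hcon
  push Not at hcon
  have e1 : deriv f = fun x => deriv S x - 1 := by
    funext x; exact (hasDerivAt_phi S x).deriv
  have e2 : deriv (deriv f) a = deriv S a * psi S a := by
    rw [e1]
    exact ((hasDerivAt_deriv S a).sub_const 1).deriv
  have hneg : deriv (deriv f) a < 0 := by rw [e2, hD, one_mul]; exact hcon
  have hd0 : deriv f a = 0 := by rw [e1]; exact h1
  have hc : ContinuousAt f a := (hasDerivAt_phi S a).continuousAt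
  have hmax : IsLocalMax f a := isLocalMax_of_deriv_deriv_neg hneg hd0 hc
  have hconst : f =ᶠ[𝓝 a] fun _ => f a := by
    filter_upwards [hmax] with x hx
    exact le_antisymm hx (h x)
  have e3 : deriv f =ᶠ[𝓝 a] fun _ => 0 := by
    have := hconst.deriv
    filter_upwards [this] with x hx
    rw [hx]; simp
  have e4 : deriv (deriv f) a = 0 := by
    rw [e3.deriv_eq]; simp
  rw [e4] at hneg
  exact lt_irrefl _ hneg

theorem exists_disc_nonpos {S : Dif} (hS : Commute S T) (hpos : ∀ x, x < S x) :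
    ∃ x, disc S x ≤ 0 := by
  by_contra hcon
  push Not at hcon
  obtain ⟨a, ha⟩ := per_min (f := fun x => S x - x) (S.continuous.sub continuous_id)
    (fun x => by rw [apply_add_one hS]; ring)
  obtain ⟨hDa, hpa⟩ := min_second_order ha
  have hya : 0 ≤ yy S a := mul_nonneg (sub_pos.mpr (hpos a)).le hpa
  have hwa : ww S a = - yy S a / 2 := by unfold ww; rw [hDa]; ring
  have hda := hcon a
  have hya8 : 8 < yy S a := by
    unfold disc at hda
    rw [hDa, hwa] at hda
    by_contra h8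
    push Not at h8
    have : ((-yy S a / 2) ^ 2 - 2 * yy S a) / 1 = yy S a * (yy S a - 8) / 4 := by ring
    rw [this] at hda
    nlinarith
  obtain ⟨b₀, hb0, -⟩ := exists_disc_nonneg hS
  -- translate b₀ to the right of a
  have hyper : ∀ x, yy S (x + 1) = yy S x := by
    intro x
    unfold yy
    rw [apply_add_one hS, psi_add_one hS]; ring
  obtain ⟨n, hn⟩ := exists_nat_gt (a - b₀)
  set b := b₀ + ((n : ℤ) : ℝ) with hb
  have hab : a < b := by rw [hb]; push_cast; linarith
  have hyb : yy S b = 0 := by rw [hb, per_add_int hyper]; exact hb0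
  -- first point with y ≤ 2
  set Z := {x | x ∈ Icc a b ∧ yy S x ≤ 2} with hZ
  have hZc : IsCompact Z := by
    have : Z = Icc a b ∩ {x | yy S x ≤ 2} := rfl
    rw [this]
    exact isCompact_Icc.inter_right (isClosed_le (continuous_yy S) continuous_const)
  obtain ⟨x₁, hx1, hleast⟩ := hZc.exists_isLeast ⟨b, right_mem_Icc.mpr hab.le, by rw [hyb]; norm_num⟩
  obtain ⟨⟨hx1a, hx1b⟩, hx1y⟩ := hx1
  have hax1 : a < x₁ := by
    rcases hx1a.lt_or_eq with h | h
    · exact h
    · rw [← h] at hx1y; linarith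
  have hy1 : yy S x₁ = 2 := by
    by_contra hne
    have hlt : yy S x₁ < 2 := lt_of_le_of_ne hx1y hne
    have hivt := intermediate_value_Icc' (a := a) (b := x₁) hax1.le (f := yy S)
      (continuous_yy S).continuousOn
    obtain ⟨c, hc, hcy⟩ := hivt ⟨hx1y, by linarith⟩
    have hc2 : c ∈ Z := ⟨⟨hc.1, hc.2.trans hx1b⟩, hcy.le⟩
    have h3 := hleast hc2
    have h4 : c = x₁ := le_antisymm hc.2 h3
    rw [h4] at hcy
    exact hne hcy
  have hw1 : 0 < ww S x₁ := by
    have h1 := hcon x₁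
    have hD := S.deriv_pos x₁
    unfold disc at h1
    rw [hy1] at h1
    have h2 : 0 < ww S x₁ ^ 2 - 2 * 2 := by
      rcases (div_pos_iff.mp h1) with h | h
      · exact h.1
      · linarith [h.2]
    have h3 : -2 < ww S x₁ := by unfold ww; rw [hy1]; linarith
    by_contra h4
    push Not at h4
    nlinarith
  have hwa' : ww S a < 0 := by rw [hwa]; linarith
  obtain ⟨c, hc, hcw⟩ := intermediate_value_Icc (a := a) (b := x₁) hax1.le (f := ww S)
    (continuous_ww S).continuousOn ⟨hwa'.le, hw1.le⟩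
  have hyc : 2 ≤ yy S c := by
    rcases hc.2.lt_or_eq with h | h
    · by_contra h2
      push Not at h2
      have : c ∈ Z := ⟨⟨hc.1, hc.2.trans hx1b⟩, h2.le⟩
      exact absurd (hleast this) (not_le.mpr h)
    · rw [h, hy1]
  have h1 := hcon c
  unfold disc at h1
  rw [hcw] at h1
  have hD := S.deriv_pos c
  have : (0 ^ 2 - 2 * yy S c) / deriv S c ≤ 0 :=
    div_nonpos_of_nonpos_of_nonneg (by linarith) hD.le
  linarith

theorem disc_bound {K C : ℝ} (hK : 1 ≤ K) (hC : 1 ≤ C) : ∃ C₂, 0 ≤ C₂ ∧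
    ∀ (E S : Dif) (M : ℝ) (q N : ℕ), TG E K → Lev S C M → Commute S E → q ≤ N →
      (∀ x, ∑ j ∈ Finset.range N, (S ((E ^ j) x) - (E ^ j) x) ≤ 1) →
      (∀ x z : ℝ, ∃ j < q + N, ∃ c : ℤ,
        (E ^ j * T ^ c) x ≤ z ∧ z < (E ^ j * T ^ c) (S x)) →
      ∀ x, |disc S x| ≤ C₂ * M := by
  obtain ⟨C₂, h0, h⟩ := osc hK hC
  refine ⟨C₂, h0, ?_⟩
  intro E S M q N hE L hSE hqN hdisj hcov x
  obtain ⟨u, -, hu⟩ := exists_disc_nonneg L.comm
  obtain ⟨v, hv⟩ := exists_disc_nonpos L.comm L.pos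
  have h1 := abs_le.mp (h E S M q N hE L hSE hqN hdisj hcov u x)
  have h2 := abs_le.mp (h E S M q N hE L hSE hqN hdisj hcov v x)
  rw [abs_le]
  constructor <;> linarith [h1.1, h1.2, h2.1, h2.2]

/-! ### Final algebra -/

theorem alg5 {D Y Q Δ C C2 m : ℝ} (hC : 1 ≤ C) (hC2 : 0 ≤ C2) (hm : 0 < m)
    (e : (D - 1) * Y + Q + Y ^ 2 / 2 = 0) (hQ : |Q| ≤ C * m ^ 4) (hΔ : |Δ| ≤ C2 * m ^ 4)
    (hD0 : 0 < D) (hDle : D ≤ C) (hDge : 1 ≤ C * D)
    (hdisc : Δ * D = (D - 1 - Y / 2) ^ 2 - 2 * Y)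
    (hsmall : C * ((C2 * C + 2 * C + C ^ 2) / 2 + C) * m ^ 2 < 1) : Y ≤ m ^ 2 := by
  by_contra hY
  push Not at hY
  have hm2 : 0 < m ^ 2 := by positivity
  have hY0 : 0 < Y := hm2.trans hY
  set q := Q / Y with hq
  have hqY : q * Y = Q := by rw [hq]; field_simp
  have hqle : |q| ≤ C * m ^ 2 := by
    rw [hq, abs_div, abs_of_pos hY0, div_le_iff₀ hY0]
    calc |Q| ≤ C * m ^ 4 := hQ
      _ = C * m ^ 2 * m ^ 2 := by ring
      _ ≤ C * m ^ 2 * Y := mul_le_mul_of_nonneg_left hY.le (by positivity)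
  have hDq : D = 1 - Y / 2 - q := by
    have : ((D - 1) + q + Y / 2) * Y = 0 := by
      calc ((D - 1) + q + Y / 2) * Y = (D - 1) * Y + q * Y + Y ^ 2 / 2 := by ring
        _ = 0 := by rw [hqY]; exact e
    rcases mul_eq_zero.mp this with h | h
    · linarith
    · exact absurd h hY0.ne'
  have hR : Y * (Y - 2) = Δ * D - 2 * Q - q ^ 2 := by
    have h1 : (D - 1 - Y / 2) ^ 2 = Y ^ 2 + 2 * (q * Y) + q ^ 2 := by rw [hDq]; ring
    rw [hdisc, h1, hqY]; ring
  have hq2 : q ^ 2 ≤ C ^ 2 * m ^ 4 := by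
    have : q ^ 2 = |q| ^ 2 := (sq_abs q).symm
    rw [this]
    calc |q| ^ 2 ≤ (C * m ^ 2) ^ 2 := pow_le_pow_left₀ (abs_nonneg q) hqle 2
      _ = C ^ 2 * m ^ 4 := by ring
  have hΔD : |Δ * D| ≤ C2 * C * m ^ 4 := by
    rw [abs_mul, abs_of_pos hD0]
    calc |Δ| * D ≤ (C2 * m ^ 4) * C := mul_le_mul hΔ hDle hD0.le (by positivity)
      _ = C2 * C * m ^ 4 := by ring
  have hR1 : |Y * (Y - 2)| ≤ (C2 * C + 2 * C + C ^ 2) * m ^ 4 := by
    rw [hR]
    have a1 := abs_le.mp hΔD
    have a2 := abs_le.mp hQ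
    have a3 := sq_nonneg q
    rw [abs_le]
    constructor <;> nlinarith [a1.1, a1.2, a2.1, a2.2]
  have hY2 : |Y - 2| ≤ (C2 * C + 2 * C + C ^ 2) * m ^ 2 := by
    rw [abs_mul, abs_of_pos hY0] at hR1
    by_contra hc
    push Not at hc
    have h0 : 0 ≤ (C2 * C + 2 * C + C ^ 2) * m ^ 2 := by positivity
    have : m ^ 2 * ((C2 * C + 2 * C + C ^ 2) * m ^ 2) < Y * |Y - 2| :=
      mul_lt_mul'' hY hc hm2.le h0
    have e2 : m ^ 2 * ((C2 * C + 2 * C + C ^ 2) * m ^ 2)
        = (C2 * C + 2 * C + C ^ 2) * m ^ 4 := by ring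
    linarith
  have a1 := abs_le.mp hY2
  have a2 := abs_le.mp hqle
  have hDle2 : D ≤ ((C2 * C + 2 * C + C ^ 2) / 2 + C) * m ^ 2 := by
    rw [hDq]
    linarith [a1.1, a2.1]
  have : C * D ≤ C * (((C2 * C + 2 * C + C ^ 2) / 2 + C) * m ^ 2) :=
    mul_le_mul_of_nonneg_left hDle2 (by linarith)
  have e3 : C * (((C2 * C + 2 * C + C ^ 2) / 2 + C) * m ^ 2)
      = C * ((C2 * C + 2 * C + C ^ 2) / 2 + C) * m ^ 2 := by ring
  linarith

theorem alg6 {d Y Q C4 C m : ℝ} (hC : 1 ≤ C) (hC4 : 0 ≤ C4) (hm : 0 < m) (hm1 : m ≤ 1)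
    (e : d * Y + Q + Y ^ 2 / 2 = 0) (hd : |d| ≤ C4 * m) (hQ : |Q| ≤ C * m ^ 4) :
    |Y| ≤ (2 * C4 + 2 * C) * m := by
  by_contra hcon
  push Not at hcon
  set t := |Y| with ht
  have ht0 : 0 ≤ t := abs_nonneg _
  have h1 : t ^ 2 / 2 ≤ C4 * m * t + C * m ^ 4 := by
    have e1 : t ^ 2 = Y ^ 2 := sq_abs Y
    have e2 : Y ^ 2 / 2 = - (d * Y) - Q := by linarith
    have e3 : |d * Y| ≤ C4 * m * t := by
      rw [abs_mul]; exact mul_le_mul_of_nonneg_right hd ht0
    have a1 := abs_le.mp e3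
    have a2 := abs_le.mp hQ
    rw [e1, e2]
    linarith [a1.1, a2.1]
  have h2 : m ^ 4 ≤ m * m := by
    have h3 : m ^ 4 = (m * m) * (m * m) := by ring
    have h4 : m * m ≤ 1 := by nlinarith
    rw [h3]
    nlinarith [mul_pos hm hm]
  have h5 : t ^ 2 / 2 > (C4 + C) * m * t := by
    have : 0 < t := lt_of_le_of_lt (by positivity) hcon
    nlinarith
  have h6 : C * m * t > C * m * m := by
    have h7 : m < t := by
      have : m ≤ (2 * C4 + 2 * C) * m := by nlinarith
      linarith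
    exact mul_lt_mul_of_pos_left h7 (by positivity)
  have h8 : C * m ^ 4 ≤ C * (m * m) := mul_le_mul_of_nonneg_left h2 (by linarith)
  nlinarith

/-- the extremum relation for `φ ψ_g` -/
theorem extremum_rel {S g : Dif} {x : ℝ}
    (h : (deriv S x - 1) * psi g x + (S x - x) * (sch g x + (psi g x) ^ 2 / 2) = 0) :
    (deriv S x - 1) * ((S x - x) * psi g x) + (S x - x) ^ 2 * sch g x
      + ((S x - x) * psi g x) ^ 2 / 2 = 0 := by
  have : (deriv S x - 1) * ((S x - x) * psi g x) + (S x - x) ^ 2 * sch g x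
      + ((S x - x) * psi g x) ^ 2 / 2
      = (S x - x) * ((deriv S x - 1) * psi g x + (S x - x) * (sch g x + (psi g x) ^ 2 / 2)) := by
    ring
  rw [this, h, mul_zero]

theorem level_bounds {S : Dif} {C C2 M m : ℝ} (L : Lev S C M) (hC2 : 0 ≤ C2)
    (hdisc : ∀ x, |disc S x| ≤ C2 * M) (hm : 0 < m) (hm4 : m ^ 4 = M)
    (hsmall : C * ((C2 * C + 2 * C + C ^ 2) / 2 + C) * m ^ 2 < 1) (x : ℝ) :
    |yy S x| ≤ (1 + C2 * C) * m ^ 2 ∧ |deriv S x - 1| ≤ (3 + 2 * (C2 * C)) * m := by
  have hC := L.C_ge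
  have hm1 : m ≤ 1 := by
    by_contra h
    push Not at h
    have : 1 < m ^ 4 := one_lt_pow₀ h (by norm_num)
    rw [hm4] at this
    exact absurd L.M_le (not_le.mpr this)
  have hDd : ∀ x, disc S x * deriv S x = (deriv S x - 1 - yy S x / 2) ^ 2 - 2 * yy S x := by
    intro x
    have : deriv S x ≠ 0 := (S.deriv_pos x).ne'
    unfold disc ww
    field_simp
  have hm4' : m ^ 4 ≤ m ^ 2 := pow_le_pow_of_le_one hm.le hm1 (by norm_num)
  have hDD : ∀ x, |disc S x * deriv S x| ≤ C2 * C * m ^ 2 := by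
    intro x
    rw [abs_mul, abs_of_pos (S.deriv_pos x)]
    calc |disc S x| * deriv S x ≤ (C2 * M) * C :=
          mul_le_mul (hdisc x) (L.D_le x) (S.deriv_pos x).le (mul_nonneg hC2 L.M_pos.le)
      _ = C2 * C * m ^ 4 := by rw [hm4]; ring
      _ ≤ C2 * C * m ^ 2 := mul_le_mul_of_nonneg_left hm4' (by positivity)
  -- upper bound
  have hup : ∀ x, yy S x ≤ m ^ 2 := by
    obtain ⟨x₀, h0⟩ := per_max (continuous_yy S) (fun x => by
      unfold yy
      rw [apply_add_one L.comm, psi_add_one L.comm]; ring)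
    have h1 : IsLocalMax (yy S) x₀ := Filter.Eventually.of_forall h0
    have h2 := h1.hasDerivAt_eq_zero (hasDerivAt_yy S S x₀)
    have h3 := extremum_rel h2
    have hQ : |(S x₀ - x₀) ^ 2 * sch S x₀| ≤ C * m ^ 4 := by
      rw [abs_mul, abs_of_nonneg (sq_nonneg _), hm4]
      exact L.sch_le x₀
    have h4 : yy S x₀ ≤ m ^ 2 :=
      alg5 (D := deriv S x₀) (Y := yy S x₀) (Q := (S x₀ - x₀) ^ 2 * sch S x₀)
        (Δ := disc S x₀) hC hC2 hm h3 hQ (by rw [hm4]; exact hdisc x₀) (S.deriv_pos x₀)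
        (L.D_le x₀) (L.D_ge x₀) (hDd x₀) hsmall
    exact fun x => (h0 x).trans h4
  have hm2 : 0 < m ^ 2 := by positivity
  have hCC : 0 ≤ C2 * C := by positivity
  have hlow : - (C2 * C * m ^ 2) ≤ 2 * yy S x := by
    have h1 := hDd x
    have h2 := abs_le.mp (hDD x)
    have h3 := sq_nonneg (deriv S x - 1 - yy S x / 2)
    linarith [h2.2]
  have hyy : |yy S x| ≤ (1 + C2 * C) * m ^ 2 := by
    rw [abs_le]
    have h1 := hup x
    constructor
    · nlinarith
    · nlinarith [mul_nonneg hCC hm2.le]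
  refine ⟨hyy, ?_⟩
  have hw2 : (deriv S x - 1 - yy S x / 2) ^ 2 ≤ (2 + C2 * C) * m ^ 2 := by
    have h1 := hDd x
    have h2 := abs_le.mp (hDD x)
    have h3 := hup x
    nlinarith [h2.2]
  have hw : |deriv S x - 1 - yy S x / 2| ≤ (2 + C2 * C) * m := by
    apply abs_le_of_sq_le_sq _ (by positivity)
    calc (deriv S x - 1 - yy S x / 2) ^ 2 ≤ (2 + C2 * C) * m ^ 2 := hw2
      _ ≤ (2 + C2 * C) ^ 2 * m ^ 2 := by
        apply mul_le_mul_of_nonneg_right _ hm2.le
        nlinarith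
      _ = ((2 + C2 * C) * m) ^ 2 := by ring
  have hy2 : |yy S x| / 2 ≤ (1 + C2 * C) * m := by
    have h1 : m ^ 2 ≤ m := by nlinarith
    have h2 : (1 + C2 * C) * m ^ 2 ≤ (1 + C2 * C) * m :=
      mul_le_mul_of_nonneg_left h1 (by linarith)
    have := abs_nonneg (yy S x)
    linarith
  calc |deriv S x - 1| = |(deriv S x - 1 - yy S x / 2) + yy S x / 2| := by ring_nf
    _ ≤ |deriv S x - 1 - yy S x / 2| + |yy S x / 2| := abs_add_le _ _
    _ = |deriv S x - 1 - yy S x / 2| + |yy S x| / 2 := by rw [abs_div, abs_two]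
    _ ≤ (2 + C2 * C) * m + (1 + C2 * C) * m := add_le_add hw hy2
    _ = (3 + 2 * (C2 * C)) * m := by ring

end GEO1b

/-- The key estimate, deduced from the statements of `denjoy` and `denjoy_sums`. -/
theorem geo1_of {F G : Dif} (h : Act F G)
    (hden : ∃ C : ℝ, 1 ≤ C ∧ ∀ (S : Dif) (k : Fin 4) (q : ℕ) (p : ℤ)
      (N : Fin 4 → ℕ), LD F G S k q p N → ∀ x : ℝ,
      (deriv S x ≤ C ∧ 1 ≤ C * deriv S x) ∧
      (∀ y ∈ Icc x (S x), S y - y ≤ C * (S x - x) ∧ S x - x ≤ C * (S y - y)) ∧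
      ∀ i : Fin 4, ∀ j ≤ N i, ∀ y ∈ Icc x (S x),
        deriv (gen F G i ^ j : Dif) y * (S x - x) ≤
          C * (S ((gen F G i ^ j) x) - (gen F G i ^ j) x) ∧
        (S ((gen F G i ^ j) x) - (gen F G i ^ j) x) ≤
          C * deriv (gen F G i ^ j : Dif) y * (S x - x))
    (hsum : ∃ C : ℝ, 1 ≤ C ∧ ∀ (S : Dif) (k : Fin 4) (q : ℕ) (p : ℤ)
      (N : Fin 4 → ℕ), LD F G S k q p N → ∀ M : ℝ, (∀ x, S x - x ≤ M) → ∀ x : ℝ,
      (S x - x) ^ 2 * |sch S x| ≤ C * M ∧ (S x - x) * |psi S x| ≤ C ∧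
      ∀ i : Fin 4, ∀ j ≤ N i,
        (S x - x) * |psi (gen F G i ^ j) x| ≤ C ∧
        (S x - x) ^ 2 * |sch (gen F G i ^ j) x| ≤ C * M ∧
        (S x - x) ^ 2 * ∑ l ∈ Finset.range j, (deriv (gen F G i ^ l : Dif) x) ^ 2 ≤ C * M) :
    ∃ C : ℝ, 1 ≤ C ∧ ∀ (S : Dif) (k : Fin 4) (q : ℕ) (p : ℤ)
    (N : Fin 4 → ℕ), LD F G S k q p N → ∀ M : ℝ, 0 < M → M ≤ 1 / C →
    (∀ x, S x - x ≤ M) → ∀ x : ℝ,
    |deriv S x - 1| ≤ C * M ^ ((1 : ℝ) / 4) ∧
    (S x - x) * |psi S x| ≤ C * M ^ ((1 : ℝ) / 2) ∧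
    ∀ i : Fin 4, ∀ j ≤ N i,
      (S x - x) * |psi (gen F G i ^ j) x| ≤ C * M ^ ((1 : ℝ) / 4) := by
  open GEO1b in
  obtain ⟨Ca, hCa1, hCa⟩ := hden
  obtain ⟨Cb, hCb1, hCb⟩ := hsum
  -- commutation of the generators
  have hFT := h.FT
  have hGT := h.GT
  have hFG := h.FG
  have genT : ∀ k, Commute (gen F G k) T := by
    intro k
    fin_cases k
    · exact hFT
    · exact hFT.inv_left
    · exact hGT
    · exact hGT.inv_left
  have gengen : ∀ k i, Commute (gen F G k) (gen F G i) := by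
    intro k i
    have FF : Commute F F := Commute.refl F
    have GG : Commute G G := Commute.refl G
    have GF : Commute G F := hFG.symm
    fin_cases k <;> fin_cases i <;>
      first
        | exact FF | exact FF.inv_right | exact hFG | exact hFG.inv_right
        | exact FF.inv_left | exact FF.inv_left.inv_right | exact hFG.inv_left
        | exact hFG.inv_left.inv_right | exact GF | exact GF.inv_right | exact GG
        | exact GG.inv_right | exact GF.inv_left | exact GF.inv_left.inv_right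
        | exact GG.inv_left | exact GG.inv_left.inv_right
  -- Taylor constants
  choose Kf hKf1 hKf using fun k => taylor_gen (genT k)
  set K := 1 + ∑ k, Kf k with hKdef
  have hKf0 : ∀ k, 0 ≤ Kf k := fun k => by linarith [hKf1 k]
  have hK1 : 1 ≤ K := by
    have : 0 ≤ ∑ k, Kf k := Finset.sum_nonneg fun k _ => hKf0 k
    linarith
  have hTG : ∀ k, TG (gen F G k) K := by
    intro k
    have h1 : TG (gen F G k) (Kf k) := hKf k
    refine h1.mono ?_
    have : Kf k ≤ ∑ k, Kf k := Finset.single_le_sum (fun k _ => hKf0 k) (Finset.mem_univ k)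
    linarith
  set C := Ca + Cb with hCdef
  have hC1 : 1 ≤ C := by linarith
  obtain ⟨C2, hC20, hC2⟩ := disc_bound hK1 hC1
  set A := C * ((C2 * C + 2 * C + C ^ 2) / 2 + C) with hA
  have hA0 : 0 ≤ A := by positivity
  set C4 := 3 + 2 * (C2 * C) with hC4
  have hCC : 0 ≤ C2 * C := by positivity
  have hA2 : 0 ≤ A ^ 2 := sq_nonneg A
  have hC4p : 0 ≤ C4 := by linarith
  refine ⟨1 + A ^ 2 + C4 + (2 * C4 + 2 * C), by linarith, ?_⟩
  intro S k q p N hLD M hM0 hMle hSM x
  set Cf := 1 + A ^ 2 + C4 + (2 * C4 + 2 * C) with hCf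
  have hCf1 : 1 ≤ Cf := by rw [hCf]; linarith
  have hCf0 : 0 < Cf := by linarith
  have hM1 : M ≤ 1 := hMle.trans (by rw [div_le_one hCf0]; exact hCf1)
  have hSeq := hLD.S_eq
  have hST : Commute S T := by
    rw [hSeq]
    exact ((genT k).pow_left q).mul_left ((Commute.refl T).zpow_left (-p))
  have hSg : ∀ i, Commute S (gen F G i) := by
    intro i
    rw [hSeq]
    exact ((gengen k i).pow_left q).mul_left ((genT i).symm.zpow_left (-p))
  have L : Lev S C M :=
    { comm := hST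
      pos := hLD.pos
      le := hSM
      D_le := fun x => ((hCa S k q p N hLD x).1.1).trans (by linarith)
      D_ge := fun x => ((hCa S k q p N hLD x).1.2).trans
        (mul_le_mul_of_nonneg_right (by linarith) (S.deriv_pos x).le)
      comp := fun x y hy => by
        obtain ⟨h1, h2⟩ := (hCa S k q p N hLD x).2.1 y hy
        have p1 : 0 < S x - x := sub_pos.mpr (hLD.pos x)
        have p2 : 0 < S y - y := sub_pos.mpr (hLD.pos y)
        exact ⟨h1.trans (mul_le_mul_of_nonneg_right (by linarith) p1.le),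
          h2.trans (mul_le_mul_of_nonneg_right (by linarith) p2.le)⟩
      sch_le := fun x => ((hCb S k q p N hLD M hSM x).1).trans
        (mul_le_mul_of_nonneg_right (by linarith) hM0.le)
      psi_le := fun x => ((hCb S k q p N hLD M hSM x).2.1).trans (by linarith)
      C_ge := hC1
      M_pos := hM0
      M_le := hM1 }
  have hdisc := hC2 (gen F G k) S M q (N k) (hTG k) L (hSg k) hLD.q_le (hLD.disj k)
    (fun x z => hLD.cov x z)
  set m := M ^ ((1 : ℝ) / 4) with hm
  have hm0 : 0 < m := Real.rpow_pos_of_pos hM0 _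
  have hm4 : m ^ 4 = M := by
    rw [hm, ← Real.rpow_natCast, ← Real.rpow_mul hM0.le]; norm_num
  have hm2 : m ^ 2 = M ^ ((1 : ℝ) / 2) := by
    rw [hm, ← Real.rpow_natCast, ← Real.rpow_mul hM0.le]; norm_num
  have hm1 : m ≤ 1 := by
    by_contra h
    push Not at h
    have : 1 < m ^ 4 := one_lt_pow₀ h (by norm_num)
    rw [hm4] at this
    exact absurd hM1 (not_le.mpr this)
  have hsmall : A * m ^ 2 < 1 := by
    have h1 : (A * m ^ 2) ^ 2 < 1 := by
      have e : (A * m ^ 2) ^ 2 = A ^ 2 * M := by rw [← hm4]; ring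
      rw [e]
      have h2 : A ^ 2 * M ≤ A ^ 2 * (1 / Cf) := mul_le_mul_of_nonneg_left hMle (sq_nonneg A)
      have h3 : A ^ 2 * (1 / Cf) < 1 := by
        rw [mul_one_div, div_lt_one hCf0, hCf]
        linarith
      exact lt_of_le_of_lt h2 h3
    have h0 : 0 ≤ A * m ^ 2 := by positivity
    nlinarith
  have hlev := level_bounds L hC20 hdisc hm0 hm4 hsmall
  have hC4m : ∀ x, |deriv S x - 1| ≤ C4 * m := fun x => (hlev x).2
  refine ⟨?_, ?_, ?_⟩
  · calc |deriv S x - 1| ≤ C4 * m := hC4m x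
      _ ≤ Cf * m := by
        apply mul_le_mul_of_nonneg_right _ hm0.le
        rw [hCf]; linarith
  · have h1 := (hlev x).1
    unfold yy at h1
    rw [abs_mul, abs_of_pos (sub_pos.mpr (hLD.pos x))] at h1
    rw [← hm2]
    refine h1.trans (mul_le_mul_of_nonneg_right ?_ (by positivity))
    rw [hCf]; linarith
  · intro i j hj
    set g : Dif := gen F G i ^ j with hg
    have hgT : Commute g T := (genT i).pow_left j
    have hcont : Continuous (fun x => (S x - x) * psi g x) := by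
      have h1 : Continuous (psi g) := (contDiff_psi g).continuous
      have h2 := S.continuous
      fun_prop
    have hper : ∀ x, (S (x + 1) - (x + 1)) * psi g (x + 1) = (S x - x) * psi g x := by
      intro x
      rw [apply_add_one hST, psi_add_one hgT]; ring
    have hext : ∀ x₀, (deriv S x₀ - 1) * psi g x₀
        + (S x₀ - x₀) * (sch g x₀ + (psi g x₀) ^ 2 / 2) = 0 →
        |(S x₀ - x₀) * psi g x₀| ≤ (2 * C4 + 2 * C) * m := by
      intro x₀ h0
      refine alg6 hC1 (by linarith) hm0 hm1 (extremum_rel h0) (hC4m x₀) ?_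
      rw [abs_mul, abs_of_nonneg (sq_nonneg _), hm4]
      have h1 := ((hCb S k q p N hLD M hSM x₀).2.2 i j hj).2.1
      exact h1.trans (mul_le_mul_of_nonneg_right (by linarith) hM0.le)
    obtain ⟨u, hu⟩ := per_max hcont hper
    obtain ⟨v, hv⟩ := per_min hcont hper
    have hu1 : IsLocalMax (fun x => (S x - x) * psi g x) u := Filter.Eventually.of_forall hu
    have hv1 : IsLocalMin (fun x => (S x - x) * psi g x) v := Filter.Eventually.of_forall hv
    have hu2 := abs_le.mp (hext u (hu1.hasDerivAt_eq_zero (hasDerivAt_yy S g u)))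
    have hv2 := abs_le.mp (hext v (hv1.hasDerivAt_eq_zero (hasDerivAt_yy S g v)))
    have hx : |(S x - x) * psi g x| ≤ (2 * C4 + 2 * C) * m := by
      rw [abs_le]
      exact ⟨hv2.1.trans (hv x), (hu x).trans hu2.2⟩
    rw [abs_mul, abs_of_pos (sub_pos.mpr (hLD.pos x))] at hx
    refine hx.trans (mul_le_mul_of_nonneg_right ?_ hm0.le)
    rw [hCf]; linarith

end Pool.Agent.F88
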