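import Pool.Agent.Lib.MP_f88c17.Toolkit
import Pool.Agent.Lib.MP_f88c17.Denjoy
import Pool.Agent.Lib.MP_f88c17.GEO1b

/-!
# Task GEO2: bounds for all derivatives of the dynamically defined elements
-/

set_option autoImplicit false

open Set Filter Topology
open scoped ContDiff

namespace Pool.Agent.F88

namespace GEO2

/-! ## Smoothness and chain rules -/

theorem contDiff_deriv (g : Dif) : ContDiff ℝ ∞ (fun x => deriv g x) :=
  (contDiff_infty_iff_deriv.mp g.contDiff).2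

theorem contDiff_logD (g : Dif) : ContDiff ℝ ∞ (logD g) :=
  (contDiff_deriv g).log (fun x => (g.deriv_pos x).ne')

theorem contDiff_psi (g : Dif) : ContDiff ℝ ∞ (psi g) :=
  (contDiff_infty_iff_deriv.mp (contDiff_logD g)).2

theorem contDiff_sch (g : Dif) : ContDiff ℝ ∞ (sch g) := by
  have h1 : ContDiff ℝ ∞ (fun x => deriv (psi g) x) :=
    (contDiff_infty_iff_deriv.mp (contDiff_psi g)).2
  exact h1.sub (((contDiff_psi g).pow 2).div_const 2)

theorem hasDerivAt (g : Dif) (x : ℝ) : HasDerivAt (fun y => g y) (deriv g x) x :=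
  (g.differentiable x).hasDerivAt

theorem hasDerivAt_logD (g : Dif) (x : ℝ) : HasDerivAt (logD g) (psi g x) x :=
  ((contDiff_logD g).differentiable (by simp) x).hasDerivAt

theorem hasDerivAt_psi (g : Dif) (x : ℝ) :
    HasDerivAt (psi g) (sch g x + (psi g x) ^ 2 / 2) x := by
  have h := ((contDiff_psi g).differentiable (by simp) x).hasDerivAt
  have : deriv (psi g) x = sch g x + (psi g x) ^ 2 / 2 := by
    unfold sch; ring
  rwa [this] at h

theorem exp_logD (g : Dif) (x : ℝ) : Real.exp (logD g x) = deriv g x :=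
  Real.exp_log (g.deriv_pos x)

theorem hasDerivAt_deriv (g : Dif) (x : ℝ) :
    HasDerivAt (fun y => deriv g y) (deriv g x * psi g x) x := by
  have h := (hasDerivAt_logD g x).exp
  simp only [exp_logD] at h
  exact h

theorem logD_mul (f g : Dif) (x : ℝ) : logD (f * g) x = logD f (g x) + logD g x := by
  unfold logD
  have h := Dif.deriv_mul f g x
  have h' : deriv (f * g : Dif) x = deriv f (g x) * deriv g x := h
  rw [h', Real.log_mul (f.deriv_pos _).ne' (g.deriv_pos _).ne']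

theorem psi_mul (f g : Dif) (x : ℝ) : psi (f * g) x = psi f (g x) * deriv g x + psi g x := by
  have h1 : logD (f * g) = fun y => logD f (g y) + logD g y := by
    funext y; exact logD_mul f g y
  have h2 : HasDerivAt (fun y => logD f (g y) + logD g y)
      (psi f (g x) * deriv g x + psi g x) x :=
    ((hasDerivAt_logD f (g x)).comp x (hasDerivAt g x)).add (hasDerivAt_logD g x)
  show deriv (logD (f * g)) x = _
  rw [h1]
  exact h2.deriv

theorem sch_mul (f g : Dif) (x : ℝ) :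
    sch (f * g) x = sch f (g x) * (deriv g x) ^ 2 + sch g x := by
  have h1 : psi (f * g) = fun y => psi f (g y) * deriv g y + psi g y := by
    funext y; exact psi_mul f g y
  have h2 : HasDerivAt (fun y => psi f (g y) * deriv g y + psi g y)
      ((sch f (g x) + (psi f (g x)) ^ 2 / 2) * deriv g x * deriv g x +
        psi f (g x) * (deriv g x * psi g x) + (sch g x + (psi g x) ^ 2 / 2)) x :=
    (((hasDerivAt_psi f (g x)).comp x (hasDerivAt g x)).mul (hasDerivAt_deriv g x)).add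
      (hasDerivAt_psi g x)
  have h3 : deriv (psi (f * g)) x = (sch f (g x) + (psi f (g x)) ^ 2 / 2) * deriv g x * deriv g x +
        psi f (g x) * (deriv g x * psi g x) + (sch g x + (psi g x) ^ 2 / 2) := by
    rw [h1]; exact h2.deriv
  have h4 : sch (f * g) x = deriv (psi (f * g)) x - (psi (f * g) x) ^ 2 / 2 := rfl
  rw [h4, h3, psi_mul]
  ring

theorem deriv_one (x : ℝ) : deriv (1 : Dif) x = 1 := by
  have : (fun y : ℝ => (1 : Dif) y) = fun y => y := rfl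
  show deriv (fun y : ℝ => (1 : Dif) y) x = 1
  rw [this]; simp

theorem logD_one : logD 1 = fun _ => 0 := by
  funext x
  unfold logD
  rw [deriv_one, Real.log_one]

theorem psi_one : psi 1 = fun _ => 0 := by
  funext x
  unfold psi
  rw [logD_one]; simp

theorem sch_one (x : ℝ) : sch 1 x = 0 := by
  unfold sch
  rw [psi_one]; simp

theorem sch_pow (g : Dif) (j : ℕ) (x : ℝ) :
    sch (g ^ j) x = ∑ l ∈ Finset.range j, sch g ((g ^ l) x) * (deriv (g ^ l : Dif) x) ^ 2 := by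
  induction j with
  | zero => simp [sch_one]
  | succ j ih =>
    rw [Finset.sum_range_succ, ← ih, pow_succ', sch_mul]
    ring

/-! ## From the nonlinearity to the derivative -/

theorem jb_deriv (n : ℕ) (A : ℝ) : ∃ C, 0 < C ∧ ∀ (f : Dif) (x κ : ℝ), 0 ≤ κ →
    (∀ m < n, |iteratedDeriv m (psi f) x| ≤ A * κ ^ (m + 1)) →
    JB n (fun y => deriv f y) x (C * deriv f x) κ := by
  obtain ⟨C, hC, h⟩ := JB.exp n A
  refine ⟨C, hC, fun f x κ hκ hb => ?_⟩
  have h1 := h (logD f) x κ hκ (contDiff_logD f).contDiffAt (by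
    intro l hl1 hl2
    obtain ⟨m, rfl⟩ : ∃ m, l = m + 1 := ⟨l - 1, by omega⟩
    rw [iteratedDeriv_succ']
    exact hb m (by omega))
  simp only [exp_logD] at h1
  exact h1

theorem iter_of_jb_deriv {n : ℕ} {f : Dif} {x U κ : ℝ}
    (h : JB n (fun y => deriv f y) x U κ) {l : ℕ} (hl : 1 ≤ l) (hln : l ≤ n + 1) :
    |iteratedDeriv l f x| ≤ U * κ ^ (l - 1) := by
  obtain ⟨m, rfl⟩ : ∃ m, l = m + 1 := ⟨l - 1, by omega⟩
  rw [iteratedDeriv_succ']
  exact h.2 m (by omega)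

/-! ## The Schwarzian derivative of a power -/

theorem jb_sch_pow (n : ℕ) (A B C₀ : ℝ) : ∃ C, 0 < C ∧ ∀ (g : Dif) (x κ : ℝ) (J : ℕ), 0 ≤ κ →
    (∀ m ≤ n, ∀ y, |iteratedDeriv m (sch g) y| ≤ B) →
    (∀ j ≤ J, deriv (g ^ j : Dif) x ≤ A * κ) →
    (∀ j ≤ J, ∀ m < n, |iteratedDeriv m (psi (g ^ j)) x| ≤ C₀ * κ ^ (m + 1)) →
    ∀ j ≤ J, JB n (sch (g ^ j)) x
      (C * ∑ l ∈ Finset.range j, (deriv (g ^ l : Dif) x) ^ 2) κ := by
  obtain ⟨C₁, hC₁, h₁⟩ := jb_deriv n C₀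
  obtain ⟨C₂, hC₂, h₂⟩ := JB.comp n (C₁ * A)
  refine ⟨2 ^ n * (C₂ * |B| + 1) * (2 ^ n * C₁ * C₁), by positivity, ?_⟩
  intro g x κ J hκ hσ hd hψ j hj
  have e1 : sch (g ^ j) = fun y =>
      ∑ l ∈ Finset.range j, sch g ((g ^ l) y) * (deriv (g ^ l : Dif) y * deriv (g ^ l : Dif) y) := by
    funext y
    rw [sch_pow]
    refine Finset.sum_congr rfl (fun l _ => ?_)
    ring
  rw [e1, Finset.mul_sum]
  refine JB.sum _ hκ (fun l hl => ?_)
  have hlJ : l ≤ J := by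
    have := Finset.mem_range.mp hl
    omega
  have hD : JB n (fun y => deriv (g ^ l : Dif) y) x (C₁ * deriv (g ^ l : Dif) x) κ :=
    h₁ (g ^ l) x κ hκ (hψ l hlJ)
  have hDD := hD.mul hκ hD
  have hdpos : 0 < deriv (g ^ l : Dif) x := (g ^ l).deriv_pos x
  have hcomp : JB n (fun y => sch g ((g ^ l) y)) x (C₂ * B) κ := by
    refine h₂ (sch g) (fun y => (g ^ l) y) x B 1 κ zero_le_one hκ
      ⟨(contDiff_sch g).contDiffAt, fun m hm => by simpa using hσ m hm _⟩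
      (g ^ l).contDiff.contDiffAt ?_
    intro m hm1 hm2
    rw [one_mul]
    have h3 := iter_of_jb_deriv hD hm1 (by omega)
    have h4 : C₁ * deriv (g ^ l : Dif) x * κ ^ (m - 1) ≤ C₁ * (A * κ) * κ ^ (m - 1) := by
      gcongr
      exact hd l hlJ
    calc |iteratedDeriv m (fun y => (g ^ l) y) x| ≤ C₁ * deriv (g ^ l : Dif) x * κ ^ (m - 1) := h3
      _ ≤ C₁ * (A * κ) * κ ^ (m - 1) := h4
      _ = C₁ * A * (κ ^ (m - 1) * κ) := by ring
      _ = C₁ * A * κ ^ m := by rw [← pow_succ, Nat.sub_add_cancel hm1]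
  have hcomp' : JB n (fun y => sch g ((g ^ l) y)) x (C₂ * |B| + 1) κ :=
    hcomp.mono le_rfl (by nlinarith [le_abs_self B]) hκ
  have := hcomp'.mul hκ hDD
  refine this.mono le_rfl (le_of_eq ?_) hκ
  ring

/-! ## The main induction -/

theorem psi_bound (n : ℕ) : ∀ A B : ℝ, ∃ C, 0 < C ∧ ∀ (g : Dif) (x κ : ℝ) (J : ℕ), 0 ≤ κ →
    (∀ m ≤ n, ∀ y, |iteratedDeriv m (sch g) y| ≤ B) →
    (∀ j ≤ J, |psi (g ^ j) x| ≤ A * κ) →
    (∀ j ≤ J, deriv (g ^ j : Dif) x ≤ A * κ) →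
    (∀ j ≤ J, ∑ l ∈ Finset.range j, (deriv (g ^ l : Dif) x) ^ 2 ≤ A * κ ^ 2) →
    ∀ j ≤ J, ∀ m ≤ n, |iteratedDeriv m (psi (g ^ j)) x| ≤ C * κ ^ (m + 1) := by
  induction n with
  | zero =>
    intro A B
    refine ⟨|A| + 1, by positivity, ?_⟩
    intro g x κ J hκ _ hψ _ _ j hj m hm
    obtain rfl : m = 0 := by omega
    rw [iteratedDeriv_zero]
    refine (hψ j hj).trans ?_
    rw [zero_add, pow_one]
    nlinarith [le_abs_self A]
  | succ n ih =>
    intro A B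
    obtain ⟨C₀, hC₀, h₀⟩ := ih A B
    obtain ⟨C₁, hC₁, h₁⟩ := jb_sch_pow n A B C₀
    refine ⟨C₀ + (C₁ * |A| + |(1 / 2 : ℝ)| * (2 ^ n * C₀ * C₀)), by positivity, ?_⟩
    intro g x κ J hκ hσ hψ hd hs j hj m hm
    have hlow : ∀ j ≤ J, ∀ m ≤ n, |iteratedDeriv m (psi (g ^ j)) x| ≤ C₀ * κ ^ (m + 1) :=
      h₀ g x κ J hκ (fun m hm => hσ m (by omega)) hψ hd hs
    rcases Nat.lt_or_ge m (n + 1) with hmn | hmn
    · refine (hlow j hj m (by omega)).trans ?_
      have : 0 ≤ C₁ * |A| + |(1 / 2 : ℝ)| * (2 ^ n * C₀ * C₀) := by positivity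
      gcongr
      linarith
    · obtain rfl : m = n + 1 := by omega
      have hS : JB n (sch (g ^ j)) x
          (C₁ * ∑ l ∈ Finset.range j, (deriv (g ^ l : Dif) x) ^ 2) κ :=
        h₁ g x κ J hκ (fun m hm => hσ m (by omega)) hd
          (fun j hj m hm => hlow j hj m (by omega)) j hj
      have hP : JB n (psi (g ^ j)) x (C₀ * κ) κ :=
        ⟨(contDiff_psi _).contDiffAt, fun m hm => by
          refine (hlow j hj m hm).trans (le_of_eq ?_)
          ring⟩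
      have hPP := (hP.mul hκ hP).const_mul (1 / 2)
      have hsum := hS.add hPP
      have e : deriv (psi (g ^ j)) =
          fun y => sch (g ^ j) y + 1 / 2 * (psi (g ^ j) y * psi (g ^ j) y) := by
        funext y
        rw [(hasDerivAt_psi (g ^ j) y).deriv]
        ring
      rw [iteratedDeriv_succ', e]
      refine (hsum.2 n le_rfl).trans ?_
      have h5 : C₁ * ∑ l ∈ Finset.range j, (deriv (g ^ l : Dif) x) ^ 2 ≤ C₁ * |A| * κ ^ 2 := by
        have := hs j hj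
        have h6 : A * κ ^ 2 ≤ |A| * κ ^ 2 := by
          gcongr
          exact le_abs_self A
        calc C₁ * ∑ l ∈ Finset.range j, (deriv (g ^ l : Dif) x) ^ 2 ≤ C₁ * (|A| * κ ^ 2) := by
              gcongr
              exact this.trans h6
          _ = C₁ * |A| * κ ^ 2 := by ring
      have h7 : C₁ * ∑ l ∈ Finset.range j, (deriv (g ^ l : Dif) x) ^ 2 +
          |1 / 2| * (2 ^ n * (C₀ * κ) * (C₀ * κ)) ≤
          (C₀ + (C₁ * |A| + |(1 / 2 : ℝ)| * (2 ^ n * C₀ * C₀))) * κ ^ 2 := by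
        have : 0 ≤ C₀ * κ ^ 2 := by positivity
        nlinarith [h5]
      calc _ ≤ (C₀ + (C₁ * |A| + |(1 / 2 : ℝ)| * (2 ^ n * C₀ * C₀))) * κ ^ 2 * κ ^ n := by
            gcongr
        _ = _ := by ring

/-! ## Translations and periodicity -/

theorem deriv_T_zpow (k : ℤ) (x : ℝ) : deriv (T ^ k : Dif) x = 1 := by
  have : (fun y : ℝ => (T ^ k : Dif) y) = fun y => y + (k : ℝ) := by
    funext y; exact T_zpow_apply k y
  show deriv (fun y : ℝ => (T ^ k : Dif) y) x = 1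
  rw [this]; simp

theorem logD_T_zpow (k : ℤ) : logD (T ^ k) = fun _ => 0 := by
  funext x
  unfold logD
  rw [deriv_T_zpow, Real.log_one]

theorem psi_T_zpow (k : ℤ) : psi (T ^ k) = fun _ => 0 := by
  funext x
  unfold psi
  rw [logD_T_zpow]; simp

theorem sch_T_zpow (k : ℤ) (x : ℝ) : sch (T ^ k) x = 0 := by
  unfold sch
  rw [psi_T_zpow]; simp

theorem deriv_mul' (f g : Dif) (x : ℝ) :
    deriv (f * g : Dif) x = deriv f (g x) * deriv g x := Dif.deriv_mul f g x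

theorem psi_mul_T (g : Dif) (k : ℤ) (hg : Commute g T) : psi (g * T ^ k) = psi g := by
  funext x
  rw [(hg.zpow_right k).eq, psi_mul, psi_T_zpow]; simp

theorem sch_mul_T (g : Dif) (k : ℤ) (hg : Commute g T) : sch (g * T ^ k) = sch g := by
  funext x
  rw [(hg.zpow_right k).eq, sch_mul, sch_T_zpow]; simp

theorem sch_periodic (g : Dif) (hg : Commute g T) : Function.Periodic (sch g) 1 := by
  intro x
  have h1 := congrFun (sch_mul_T g 1 hg) x
  rw [sch_mul, deriv_T_zpow, sch_T_zpow] at h1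
  simpa using h1

theorem iter_periodic {h : ℝ → ℝ} (hh : Function.Periodic h 1) (m : ℕ) :
    Function.Periodic (iteratedDeriv m h) 1 := by
  intro x
  have e : (fun y => h (y + 1)) = h := by funext y; exact hh y
  have := iteratedDeriv_comp_add_const m h 1
  rw [e] at this
  exact (congrFun this x).symm

theorem bounded_of_periodic {h : ℝ → ℝ} (hc : Continuous h) (hh : Function.Periodic h 1) :
    ∃ B, ∀ y, |h y| ≤ B := by
  obtain ⟨B, hB⟩ := (isCompact_Icc (a := (0:ℝ)) (b := 1)).exists_bound_of_continuousOn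
    (f := h) hc.continuousOn
  refine ⟨B, fun y => ?_⟩
  obtain ⟨z, hz, hyz⟩ := hh.exists_mem_Ico₀ one_pos y
  rw [hyz]
  exact hB z ⟨hz.1, hz.2.le⟩

theorem gen_comm {F G : Dif} (h : Act F G) (i : Fin 4) : Commute (gen F G i) T := by
  fin_cases i
  · exact h.FT
  · exact h.FT.inv_left
  · exact h.GT
  · exact h.GT.inv_left

theorem sch_gen_bound {F G : Dif} (h : Act F G) (n : ℕ) : ∃ B : ℝ, ∀ i : Fin 4, ∀ m ≤ n, ∀ y,
    |iteratedDeriv m (sch (gen F G i)) y| ≤ B := by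
  have hb : ∀ (i : Fin 4) (m : ℕ), ∃ B, ∀ y, |iteratedDeriv m (sch (gen F G i)) y| ≤ B := by
    intro i m
    refine bounded_of_periodic ?_ (iter_periodic (sch_periodic _ (gen_comm h i)) m)
    exact (contDiff_sch _).continuous_iteratedDeriv m (by exact_mod_cast le_top)
  choose B hB using hb
  refine ⟨∑ i : Fin 4, ∑ m ∈ Finset.range (n + 1), |B i m|, fun i m hm y => ?_⟩
  calc |iteratedDeriv m (sch (gen F G i)) y| ≤ B i m := hB i m y
    _ ≤ |B i m| := le_abs_self _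
    _ ≤ ∑ m ∈ Finset.range (n + 1), |B i m| :=
        Finset.single_le_sum (f := fun m => |B i m|) (fun _ _ => abs_nonneg _)
          (Finset.mem_range.mpr (by omega))
    _ ≤ _ := Finset.single_le_sum (f := fun i => ∑ m ∈ Finset.range (n + 1), |B i m|)
          (fun _ _ => Finset.sum_nonneg (fun _ _ => abs_nonneg _)) (Finset.mem_univ i)

/-! ## The return map -/

theorem psi_return (n : ℕ) : ∀ A : ℝ, ∃ C, 0 < C ∧ ∀ (f : Dif) (x κ ρ : ℝ), 0 ≤ κ → 0 ≤ ρ →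
    ρ * κ ≤ 1 → |psi f x| ≤ A * (ρ * κ ^ 2) → JB n (sch f) x (A * (ρ * κ ^ 3)) κ →
    ∀ m ≤ n, |iteratedDeriv m (psi f) x| ≤ C * (ρ * κ ^ (m + 2)) := by
  induction n with
  | zero =>
    intro A
    refine ⟨|A| + 1, by positivity, ?_⟩
    intro f x κ ρ hκ hρ _ hψ _ m hm
    obtain rfl : m = 0 := by omega
    rw [iteratedDeriv_zero]
    refine hψ.trans ?_
    have : 0 ≤ ρ * κ ^ 2 := by positivity
    rw [zero_add]
    nlinarith [le_abs_self A]
  | succ n ih =>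
    intro A
    obtain ⟨C₀, hC₀, h₀⟩ := ih A
    refine ⟨C₀ + (|A| + |(1 / 2 : ℝ)| * (2 ^ n * C₀ * C₀)), by positivity, ?_⟩
    intro f x κ ρ hκ hρ hρκ hψ hs m hm
    have hlow := h₀ f x κ ρ hκ hρ hρκ hψ (hs.mono (by omega) le_rfl hκ)
    rcases Nat.lt_or_ge m (n + 1) with hmn | hmn
    · refine (hlow m (by omega)).trans ?_
      have : 0 ≤ |A| + |(1 / 2 : ℝ)| * (2 ^ n * C₀ * C₀) := by positivity
      gcongr
      linarith
    · obtain rfl : m = n + 1 := by omega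
      have hS : JB n (sch f) x (A * (ρ * κ ^ 3)) κ := hs.mono (by omega) le_rfl hκ
      have hP : JB n (psi f) x (C₀ * (ρ * κ ^ 2)) κ :=
        ⟨(contDiff_psi _).contDiffAt, fun m hm => by
          refine (hlow m hm).trans (le_of_eq ?_)
          ring⟩
      have hPP := (hP.mul hκ hP).const_mul (1 / 2)
      have hsum := hS.add hPP
      have e : deriv (psi f) = fun y => sch f y + 1 / 2 * (psi f y * psi f y) := by
        funext y
        rw [(hasDerivAt_psi f y).deriv]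
        ring
      rw [iteratedDeriv_succ', e]
      refine (hsum.2 n le_rfl).trans ?_
      have h6 : A * (ρ * κ ^ 3) ≤ |A| * (ρ * κ ^ 3) := by
        gcongr
        exact le_abs_self A
      have h8 : (ρ * κ ^ 2) * (ρ * κ ^ 2) ≤ ρ * κ ^ 3 := by
        have : 0 ≤ ρ * κ ^ 3 := by positivity
        calc (ρ * κ ^ 2) * (ρ * κ ^ 2) = (ρ * κ) * (ρ * κ ^ 3) := by ring
          _ ≤ 1 * (ρ * κ ^ 3) := by gcongr
          _ = ρ * κ ^ 3 := one_mul _
      have h7 : A * (ρ * κ ^ 3) +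
          |1 / 2| * (2 ^ n * (C₀ * (ρ * κ ^ 2)) * (C₀ * (ρ * κ ^ 2))) ≤
          (C₀ + (|A| + |(1 / 2 : ℝ)| * (2 ^ n * C₀ * C₀))) * (ρ * κ ^ 3) := by
        have h9 : 0 ≤ C₀ * (ρ * κ ^ 3) := by positivity
        have h10 : |(1:ℝ) / 2| * (2 ^ n * (C₀ * (ρ * κ ^ 2)) * (C₀ * (ρ * κ ^ 2))) ≤
            |(1 / 2 : ℝ)| * (2 ^ n * C₀ * C₀) * (ρ * κ ^ 3) := by
          calc |(1:ℝ) / 2| * (2 ^ n * (C₀ * (ρ * κ ^ 2)) * (C₀ * (ρ * κ ^ 2)))
              = |(1:ℝ) / 2| * (2 ^ n * C₀ * C₀) * ((ρ * κ ^ 2) * (ρ * κ ^ 2)) := by ring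
            _ ≤ _ := by gcongr
        nlinarith [h6]
      calc _ ≤ (C₀ + (|A| + |(1 / 2 : ℝ)| * (2 ^ n * C₀ * C₀))) * (ρ * κ ^ 3) * κ ^ n := by
            gcongr
        _ = _ := by ring

/-- all derivatives of the displacement of the return map -/
theorem displ_bound (n : ℕ) (A : ℝ) : ∃ C, 0 < C ∧ ∀ (f : Dif) (x κ ρ : ℝ), 0 ≤ κ →
    ρ = f x - x → 0 < ρ → ρ * κ ≤ 1 → |deriv f x - 1| ≤ A * (ρ * κ) → deriv f x ≤ A →
    |psi f x| ≤ A * (ρ * κ ^ 2) → JB n (sch f) x (A * (ρ * κ ^ 3)) κ →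
    ∀ l ≤ n, |iteratedDeriv l (fun y => f y - y) x| ≤ C * ρ * κ ^ l := by
  obtain ⟨C₁, hC₁, h₁⟩ := psi_return n A
  obtain ⟨C₂, hC₂, h₂⟩ := jb_deriv n C₁
  refine ⟨1 + |A| + 2 ^ n * (C₂ * |A|) * C₁, by positivity, ?_⟩
  intro f x κ ρ hκ hρ hρ0 hρκ hd hd' hψ hs l hl
  have hb := h₁ f x κ ρ hκ hρ0.le hρκ hψ hs
  have hD : JB n (fun y => deriv f y) x (C₂ * deriv f x) κ := by
    refine h₂ f x κ hκ (fun m hm => ?_)
    calc |iteratedDeriv m (psi f) x| ≤ C₁ * (ρ * κ ^ (m + 2)) := hb m (by omega)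
      _ = C₁ * ((ρ * κ) * κ ^ (m + 1)) := by ring
      _ ≤ C₁ * (1 * κ ^ (m + 1)) := by gcongr
      _ = C₁ * κ ^ (m + 1) := by ring
  have hder : deriv (fun y => f y - y) = fun y => deriv f y - 1 := by
    funext y
    exact ((hasDerivAt f y).sub (hasDerivAt_id y)).deriv
  have hder2 : deriv (fun y => deriv f y - 1) = fun y => deriv f y * psi f y := by
    funext y
    exact ((hasDerivAt_deriv f y).sub_const 1).deriv
  have hpos1 : 0 ≤ |A| := abs_nonneg A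
  have hpos2 : 0 ≤ 2 ^ n * (C₂ * |A|) * C₁ := by positivity
  match l, hl with
  | 0, _ =>
    rw [iteratedDeriv_zero, pow_zero, mul_one, ← hρ, abs_of_pos hρ0]
    nlinarith
  | 1, _ =>
    rw [iteratedDeriv_one, hder, pow_one]
    refine hd.trans ?_
    have h0 : 0 ≤ ρ * κ := by positivity
    have h1 : A * (ρ * κ) ≤ |A| * (ρ * κ) := by
      gcongr
      exact le_abs_self A
    nlinarith
  | l + 2, hl =>
    rw [iteratedDeriv_succ', hder, iteratedDeriv_succ', hder2]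
    have hP : JB n (psi f) x (C₁ * (ρ * κ ^ 2)) κ :=
      ⟨(contDiff_psi _).contDiffAt, fun m hm => by
        refine (hb m hm).trans (le_of_eq ?_)
        ring⟩
    have h3 := (hD.mul hκ hP).2 l (by omega)
    refine h3.trans ?_
    have hfA : deriv f x ≤ |A| := hd'.trans (le_abs_self A)
    have h0 : 0 ≤ ρ * κ ^ 2 := by positivity
    calc 2 ^ n * (C₂ * deriv f x) * (C₁ * (ρ * κ ^ 2)) * κ ^ l
        ≤ 2 ^ n * (C₂ * |A|) * (C₁ * (ρ * κ ^ 2)) * κ ^ l := by gcongr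
      _ = (2 ^ n * (C₂ * |A|) * C₁) * ρ * κ ^ (l + 2) := by ring
      _ ≤ (1 + |A| + 2 ^ n * (C₂ * |A|) * C₁) * ρ * κ ^ (l + 2) := by
          gcongr
          linarith

/-! ## Elementary facts about level data -/

theorem phi_le_one {F G S : Dif} {k : Fin 4} {q : ℕ} {p : ℤ} {N : Fin 4 → ℕ}
    (hL : LD F G S k q p N) (x : ℝ) : S x - x ≤ 1 := by
  have h := hL.disj k x
  have hN : 0 < N k := lt_of_lt_of_le hL.q_pos hL.q_le
  have h1 := Finset.single_le_sum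
    (f := fun j => S ((gen F G k ^ j) x) - (gen F G k ^ j) x)
    (fun j _ => (sub_pos.mpr (hL.pos _)).le) (Finset.mem_range.mpr hN)
  simp only [pow_zero, Dif.one_apply] at h1
  exact h1.trans h

end GEO2

open GEO2

variable {F G : Dif}

theorem geo_crude (h : Act F G) (n : ℕ) : ∃ C : ℝ, 1 ≤ C ∧ ∀ (S : Dif) (k : Fin 4) (q : ℕ)
    (p : ℤ) (N : Fin 4 → ℕ), LD F G S k q p N → ∀ (x : ℝ) (i : Fin 4), ∀ j ≤ N i,
    ∀ l, 1 ≤ l → l ≤ n →
      |iteratedDeriv l (gen F G i ^ j : Dif) x| ≤ C * (1 / (S x - x)) ^ l := by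
  obtain ⟨Cd, hCd1, hCd⟩ := denjoy h
  obtain ⟨Cs, hCs1, hCs⟩ := denjoy_sums h
  obtain ⟨B, hB⟩ := sch_gen_bound h n
  set A := max Cd Cs with hA
  have hAd : Cd ≤ A := le_max_left _ _
  have hAs : Cs ≤ A := le_max_right _ _
  have hA0 : 0 < A := by linarith
  obtain ⟨C₀, hC₀, h₀⟩ := psi_bound n A B
  obtain ⟨C₁, hC₁, h₁⟩ := jb_deriv n C₀
  refine ⟨C₁ * A + 1, by nlinarith [mul_pos hC₁ hA0], ?_⟩
  intro S k q p N hL x i j hj l hl1 hl2
  have hφ : 0 < S x - x := sub_pos.mpr (hL.pos x)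
  set κ := 1 / (S x - x) with hκ
  have hκ0 : 0 < κ := by positivity
  have hd := (hCd S k q p N hL x).2.2 i
  have hs := (hCs S k q p N hL 1 (phi_le_one hL) x).2.2 i
  have hxx : x ∈ Icc x (S x) := ⟨le_rfl, (hL.pos x).le⟩
  have hD : ∀ j ≤ N i, deriv (gen F G i ^ j : Dif) x ≤ A * κ := by
    intro j hj
    have h1 := (hd j hj x hxx).1
    have h2 := phi_le_one hL ((gen F G i ^ j) x)
    rw [hκ, mul_one_div, le_div_iff₀ hφ]
    refine h1.trans ?_
    calc Cd * (S ((gen F G i ^ j) x) - (gen F G i ^ j) x) ≤ Cd * 1 := by gcongr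
      _ ≤ A := by linarith
  have hP : ∀ j ≤ N i, |psi (gen F G i ^ j) x| ≤ A * κ := by
    intro j hj
    have h1 := (hs j hj).1
    rw [hκ, mul_one_div, le_div_iff₀ hφ, mul_comm]
    exact h1.trans hAs
  have hsq : ∀ j ≤ N i, ∑ l ∈ Finset.range j, (deriv (gen F G i ^ l : Dif) x) ^ 2 ≤ A * κ ^ 2 := by
    intro j hj
    have h1 := (hs j hj).2.2
    have h2 : A * κ ^ 2 = A / (S x - x) ^ 2 := by
      rw [hκ, div_pow, one_pow, mul_one_div]
    rw [h2, le_div_iff₀ (pow_pos hφ 2)]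
    rw [mul_comm] at h1
    linarith
  have hb := h₀ (gen F G i) x κ (N i) hκ0.le (hB i) hP hD hsq j hj
  have hJ := h₁ (gen F G i ^ j) x κ hκ0.le (fun m hm => hb m (by omega))
  refine (iter_of_jb_deriv hJ hl1 (by omega)).trans ?_
  have hDj := hD j hj
  calc C₁ * deriv (gen F G i ^ j : Dif) x * κ ^ (l - 1) ≤ C₁ * (A * κ) * κ ^ (l - 1) := by gcongr
    _ = C₁ * A * (κ ^ (l - 1) * κ) := by ring
    _ = C₁ * A * κ ^ l := by rw [← pow_succ, Nat.sub_add_cancel hl1]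
    _ ≤ (C₁ * A + 1) * κ ^ l := by
        gcongr
        linarith

theorem geo_fine (h : Act F G) (n : ℕ) : ∃ C : ℝ, 1 ≤ C ∧ ∀ (S : Dif) (k : Fin 4) (q : ℕ)
    (p : ℤ) (N : Fin 4 → ℕ), LD F G S k q p N → ∀ M : ℝ, 0 < M → M ≤ 1 / C →
    (∀ x, S x - x ≤ M) → ∀ x : ℝ,
    (∀ l ≤ n, |iteratedDeriv l (fun y => S y - y) x| ≤
      C * (S x - x) * (M ^ ((1 : ℝ) / 4) / (S x - x)) ^ l) ∧
    ∀ i : Fin 4, ∀ j ≤ N i, ∀ l, 1 ≤ l → l ≤ n →
      |iteratedDeriv l (gen F G i ^ j : Dif) x| ≤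
        C * deriv (gen F G i ^ j : Dif) x * (M ^ ((1 : ℝ) / 4) / (S x - x)) ^ (l - 1) := by
  obtain ⟨Cd, hCd1, hCd⟩ := denjoy h
  obtain ⟨Cs, hCs1, hCs⟩ := denjoy_sums h
  obtain ⟨Cg, hCg1, hCg⟩ := geo1_of h (denjoy h) (denjoy_sums h)
  obtain ⟨B, hB⟩ := sch_gen_bound h n
  set A := max Cd (max Cs Cg) with hA
  have hAd : Cd ≤ A := le_max_left _ _
  have hAs : Cs ≤ A := (le_max_left _ _).trans (le_max_right _ _)
  have hAg : Cg ≤ A := (le_max_right _ _).trans (le_max_right _ _)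
  have hA1 : 1 ≤ A := hCd1.trans hAd
  have hA0 : 0 < A := by linarith
  obtain ⟨C₀, hC₀, h₀⟩ := psi_bound n A B
  obtain ⟨C₁, hC₁, h₁⟩ := jb_deriv n C₀
  obtain ⟨C₂, hC₂, h₂⟩ := jb_sch_pow n A B C₀
  obtain ⟨C₃, hC₃, h₃⟩ := displ_bound n (A + C₂ * A)
  refine ⟨A + C₁ + C₃, by linarith, ?_⟩
  intro S k q p N hL M hM hMC hφM x
  have hφ : 0 < S x - x := sub_pos.mpr (hL.pos x)
  have hCC : 0 < A + C₁ + C₃ := by positivity
  have hMCg : M ≤ 1 / Cg := by
    refine hMC.trans ?_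
    apply one_div_le_one_div_of_le (by linarith)
    linarith
  have hM1 : M ≤ 1 := by
    refine hMC.trans ?_
    rw [div_le_one hCC]
    linarith
  set ν := M ^ ((1 : ℝ) / 4) with hν
  have hν0 : 0 < ν := Real.rpow_pos_of_pos hM _
  have hν1 : ν ≤ 1 := Real.rpow_le_one hM.le hM1 (by norm_num)
  have hν4 : ν ^ 4 = M := by
    rw [hν, ← Real.rpow_natCast, ← Real.rpow_mul hM.le]
    norm_num
  have hν2 : M ^ ((1 : ℝ) / 2) = ν ^ 2 := by
    rw [hν, ← Real.rpow_natCast, ← Real.rpow_mul hM.le]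
    norm_num
  set φ := S x - x with hφdef
  set κ := ν / φ with hκ
  have hκ0 : 0 < κ := by positivity
  have hφκ : φ * κ = ν := by rw [hκ]; field_simp
  have hd := (hCd S k q p N hL x).2.2
  have hs := (hCs S k q p N hL M hφM x).2.2
  have hg := hCg S k q p N hL M hM hMCg hφM x
  have hxx : x ∈ Icc x (S x) := ⟨le_rfl, (hL.pos x).le⟩
  have hν41 : ν ^ 4 ≤ ν := by
    calc ν ^ 4 ≤ ν ^ 1 := pow_le_pow_of_le_one hν0.le hν1 (by norm_num)
      _ = ν := pow_one ν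
  have hν42 : ν ^ 4 ≤ ν ^ 2 := pow_le_pow_of_le_one hν0.le hν1 (by norm_num)
  have hν43 : ν ^ 4 ≤ ν ^ 3 := pow_le_pow_of_le_one hν0.le hν1 (by norm_num)
  have hD : ∀ i, ∀ j ≤ N i, deriv (gen F G i ^ j : Dif) x ≤ A * κ := by
    intro i j hj
    have h1 := (hd i j hj x hxx).1
    have h2 := hφM ((gen F G i ^ j) x)
    rw [hκ, mul_div_assoc', le_div_iff₀ hφ]
    refine h1.trans ?_
    calc Cd * (S ((gen F G i ^ j) x) - (gen F G i ^ j) x) ≤ Cd * M := by gcongr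
      _ ≤ A * ν := by
        rw [← hν4]
        gcongr
  have hP : ∀ i, ∀ j ≤ N i, |psi (gen F G i ^ j) x| ≤ A * κ := by
    intro i j hj
    have h1 := hg.2.2 i j hj
    rw [hκ, mul_div_assoc', le_div_iff₀ hφ, mul_comm]
    refine h1.trans ?_
    gcongr
  have hsq' : ∀ i, ∀ j ≤ N i, ∑ l ∈ Finset.range j, (deriv (gen F G i ^ l : Dif) x) ^ 2 ≤
      A * (ν ^ 4 / φ ^ 2) := by
    intro i j hj
    have h1 := (hs i j hj).2.2
    rw [mul_div_assoc', le_div_iff₀ (by positivity), mul_comm, hν4]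
    refine h1.trans ?_
    gcongr
  have hsq : ∀ i, ∀ j ≤ N i, ∑ l ∈ Finset.range j, (deriv (gen F G i ^ l : Dif) x) ^ 2 ≤
      A * κ ^ 2 := by
    intro i j hj
    refine (hsq' i j hj).trans ?_
    rw [hκ, div_pow]
    gcongr
  have hb : ∀ i, ∀ j ≤ N i, ∀ m ≤ n, |iteratedDeriv m (psi (gen F G i ^ j)) x| ≤
      C₀ * κ ^ (m + 1) := fun i =>
    h₀ (gen F G i) x κ (N i) hκ0.le (hB i) (hP i) (hD i) (hsq i)
  refine ⟨?_, ?_⟩
  · intro l hl
    -- the return map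
    have hcomm : Commute (gen F G k ^ q) T := (gen_comm h k).pow_left q
    have eψ : psi S = psi (gen F G k ^ q) := by
      rw [hL.S_eq]; exact psi_mul_T _ _ hcomm
    have eσ : sch S = sch (gen F G k ^ q) := by
      rw [hL.S_eq]; exact sch_mul_T _ _ hcomm
    have hsch : JB n (sch S) x ((A + C₂ * A) * (φ * κ ^ 3)) κ := by
      rw [eσ]
      have h4 := h₂ (gen F G k) x κ (N k) hκ0.le (hB k) (hD k)
        (fun j hj m hm => hb k j hj m (by omega)) q hL.q_le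
      refine h4.mono le_rfl ?_ hκ0.le
      have h5 : φ * κ ^ 3 = ν ^ 3 / φ ^ 2 := by
        rw [hκ]; field_simp
      rw [h5]
      calc C₂ * ∑ l ∈ Finset.range q, (deriv (gen F G k ^ l : Dif) x) ^ 2
          ≤ C₂ * (A * (ν ^ 4 / φ ^ 2)) := by
            gcongr
            exact hsq' k q hL.q_le
        _ ≤ C₂ * (A * (ν ^ 3 / φ ^ 2)) := by gcongr
        _ ≤ (A + C₂ * A) * (ν ^ 3 / φ ^ 2) := by
            have : 0 ≤ A * (ν ^ 3 / φ ^ 2) := by positivity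
            nlinarith
    have h6 := h₃ S x κ φ hκ0.le hφdef hφ (by rw [hφκ]; exact hν1) ?_ ?_ ?_ hsch l hl
    · refine h6.trans ?_
      gcongr
      linarith
    · rw [hφκ]
      refine hg.1.trans ?_
      have : 0 ≤ C₂ * A := by positivity
      gcongr
      linarith
    · have h7 := (hCd S k q p N hL x).1.1
      have : 0 ≤ C₂ * A := by positivity
      linarith
    · have h8 := hg.2.1
      rw [hν2] at h8
      have h9 : φ * κ ^ 2 = ν ^ 2 / φ := by
        rw [hκ]; field_simp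
      rw [h9, mul_div_assoc', le_div_iff₀ hφ, mul_comm]
      refine h8.trans ?_
      have : 0 ≤ C₂ * A := by positivity
      gcongr
      linarith
  · intro i j hj l hl1 hl2
    have hJ := h₁ (gen F G i ^ j) x κ hκ0.le (fun m hm => hb i j hj m (by omega))
    refine (iter_of_jb_deriv hJ hl1 (by omega)).trans ?_
    have := (gen F G i ^ j).deriv_pos x
    gcongr
    linarith

end Pool.Agent.F88
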