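import Pool.Agent.Lib.MP_f88c17.GEO2

/-!
# Task P: if consecutive minimal displacements are polynomially comparable, there are elements of
the group which are close to the identity
-/

set_option autoImplicit false

open Set Filter Topology
open scoped ContDiff

namespace Pool.Agent.F88

/-- The statement of the local lemma (task LL). -/
def LLStatement : Prop := ∀ r m B : ℕ, ∃ B₂ : ℕ, ∀ B₁ : ℕ, ∃ n K : ℕ, ∀ C : ℝ, ∃ ν₀ : ℝ, 0 < ν₀ ∧
    ∀ (S u : Dif) (x₀ a ν θ η : ℝ), Commute S u → 0 < a → 0 < ν → ν ≤ ν₀ → 0 < η → η < θ →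
    x₀ < S x₀ →
    (∀ a' b' : ℤ, 0 < a' * θ + b' * η →
      ∀ z ∈ Icc ((S ^ (-(K : ℤ))) x₀) ((S ^ (K : ℤ)) x₀), z < (S ^ a' * u ^ b') z) →
    (∀ z ∈ Icc ((S ^ (-(K : ℤ))) x₀) ((S ^ (K : ℤ)) x₀),
      a / 2 ≤ S z - z ∧ S z - z ≤ 2 * a ∧
      (∀ l ≤ n, |iteratedDeriv l (fun y => S y - y) z| ≤ C * a * (ν / a) ^ l) ∧
      ∀ l, 1 ≤ l → l ≤ n → |iteratedDeriv l (S⁻¹ : Dif) z| ≤ C * (ν / a) ^ (l - 1) ∧
        |iteratedDeriv l u z| ≤ C * (ν / a) ^ (l - 1) ∧
        |iteratedDeriv l (u⁻¹ : Dif) z| ≤ C * (ν / a) ^ (l - 1)) →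
    (∀ a' b' : ℤ, |(b' : ℝ)| ≤ (1 / ν) ^ B₁ → |a' * θ + b' * η| ≤ 2 * θ →
      ∀ z ∈ Icc ((S ^ (-(m : ℤ))) x₀) ((S ^ (m : ℤ)) x₀),
        1 / 2 ≤ deriv (S ^ a' * u ^ b' : Dif) z ∧ deriv (S ^ a' * u ^ b' : Dif) z ≤ 2) ∧
    (∀ a' b' : ℤ, |(b' : ℝ)| ≤ (1 / ν) ^ B₁ → |a' * θ + b' * η| ≤ ν ^ B₂ * θ →
      ∀ z ∈ Icc ((S ^ (-(m : ℤ))) x₀) ((S ^ (m : ℤ)) x₀), ∀ l ≤ r,
        |iteratedDeriv l (fun y => (S ^ a' * u ^ b') y - y) z| ≤ ν ^ B * a / a ^ l)

namespace CaseP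

variable {F G : Dif} {α β : ℝ}

/-! ## Translation numbers -/

theorem comm_three (h : Act F G) (a b c a' b' c' : ℤ) :
    (F ^ a * G ^ b * T ^ c) * (F ^ a' * G ^ b' * T ^ c') =
      F ^ (a + a') * G ^ (b + b') * T ^ (c + c') := by
  have h1 : Commute (G ^ b) (F ^ a') := (h.FG.zpow_zpow a' b).symm
  have h2 : Commute (T ^ c) (F ^ a' * G ^ b') :=
    ((h.FT.zpow_zpow a' c).symm).mul_right ((h.GT.zpow_zpow b' c).symm)
  calc (F ^ a * G ^ b * T ^ c) * (F ^ a' * G ^ b' * T ^ c')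
      = F ^ a * G ^ b * (T ^ c * (F ^ a' * G ^ b')) * T ^ c' := by group
    _ = F ^ a * G ^ b * ((F ^ a' * G ^ b') * T ^ c) * T ^ c' := by rw [h2.eq]
    _ = F ^ a * (G ^ b * F ^ a') * G ^ b' * (T ^ c * T ^ c') := by group
    _ = F ^ a * (F ^ a' * G ^ b) * G ^ b' * (T ^ c * T ^ c') := by rw [h1.eq]
    _ = F ^ (a + a') * G ^ (b + b') * T ^ (c + c') := by
      rw [zpow_add, zpow_add, zpow_add]; group

theorem tau_mul (h : Act F G) {g g' : Dif} {t t' : ℝ} (hg : HasTau F G α β g t)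
    (hg' : HasTau F G α β g' t') : HasTau F G α β (g * g') (t + t') := by
  obtain ⟨a, b, c, rfl, rfl⟩ := hg
  obtain ⟨a', b', c', rfl, rfl⟩ := hg'
  refine ⟨a + a', b + b', c + c', comm_three h _ _ _ _ _ _, ?_⟩
  push_cast; ring

theorem tau_comm (h : Act F G) {g g' : Dif} {t t' : ℝ} (hg : HasTau F G α β g t)
    (hg' : HasTau F G α β g' t') : Commute g g' := by
  obtain ⟨a, b, c, rfl, rfl⟩ := hg
  obtain ⟨a', b', c', rfl, rfl⟩ := hg'
  show _ * _ = _ * _
  rw [comm_three h, comm_three h]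
  congr 2 <;> ring_nf

theorem tau_one : HasTau F G α β 1 0 := ⟨0, 0, 0, by simp, by simp⟩

theorem tau_inv (h : Act F G) {g : Dif} {t : ℝ} (hg : HasTau F G α β g t) :
    HasTau F G α β g⁻¹ (-t) := by
  obtain ⟨a, b, c, rfl, rfl⟩ := hg
  refine ⟨-a, -b, -c, ?_, by push_cast; ring⟩
  rw [inv_eq_iff_mul_eq_one, comm_three h]
  simp

theorem tau_pow (h : Act F G) {g : Dif} {t : ℝ} (hg : HasTau F G α β g t) (n : ℕ) :
    HasTau F G α β (g ^ n) (n * t) := by
  induction n with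
  | zero => simpa using tau_one
  | succ n ih =>
    rw [pow_succ]
    have := tau_mul h ih hg
    convert this using 1
    push_cast; ring

theorem tau_zpow (h : Act F G) {g : Dif} {t : ℝ} (hg : HasTau F G α β g t) (n : ℤ) :
    HasTau F G α β (g ^ n) (n * t) := by
  cases n with
  | ofNat n => simpa using tau_pow h hg n
  | negSucc n =>
    rw [zpow_negSucc]
    have := tau_inv h (tau_pow h hg (n + 1))
    convert this using 1
    push_cast; ring

theorem tau_pos (h : Free F G α β) {g : Dif} {t : ℝ} (hg : HasTau F G α β g t) (ht : 0 < t)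
    (x : ℝ) : x < g x := by
  obtain ⟨a, b, c, rfl, rfl⟩ := hg
  exact h.pos a b c ht x

theorem tau_lt (h : Free F G α β) {g g' : Dif} {t t' : ℝ} (hg : HasTau F G α β g t)
    (hg' : HasTau F G α β g' t') (ht : t < t') (x : ℝ) : g x < g' x := by
  have h1 := tau_mul h.toAct hg' (tau_inv h.toAct hg)
  have h2 := tau_pos h h1 (by linarith) (g x)
  simpa using h2

/-! ## Elementary facts about towers -/

variable (h : Free F G α β) (t : Tower F G α β)

include h in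
theorem S_lt (i : ℕ) (x : ℝ) : t.S (i + 1) x < t.S i x :=
  tau_lt h (t.tau (i + 1)) (t.tau i) (t.θ_lt i) x

theorem M_pos (i : ℕ) : 0 < t.M i := by
  obtain ⟨x, hx⟩ := t.M_att i
  rw [← hx]
  exact sub_pos.mpr ((t.ld i).pos x)

theorem μ_pos (i : ℕ) : 0 < t.μ i := by
  obtain ⟨x, hx⟩ := t.μ_att i
  rw [← hx]
  exact sub_pos.mpr ((t.ld i).pos x)

theorem phi_le_one' {S : Dif} {k : Fin 4} {q : ℕ} {p : ℤ} {N : Fin 4 → ℕ}
    (hL : LD F G S k q p N) (x : ℝ) : S x - x ≤ 1 := by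
  have h := hL.disj k x
  have hN : 0 < N k := lt_of_lt_of_le hL.q_pos hL.q_le
  have h1 := Finset.single_le_sum
    (f := fun j => S ((gen F G k ^ j) x) - (gen F G k ^ j) x)
    (fun j _ => (sub_pos.mpr (hL.pos _)).le) (Finset.mem_range.mpr hN)
  simp only [pow_zero, Dif.one_apply] at h1
  exact h1.trans h

theorem M_le_one (i : ℕ) : t.M i ≤ 1 := by
  obtain ⟨x, hx⟩ := t.M_att i
  rw [← hx]
  exact phi_le_one' (t.ld i) x

theorem μ_le_one (i : ℕ) : t.μ i ≤ 1 := by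
  obtain ⟨x, hx⟩ := t.μ_att i
  rw [← hx]
  exact phi_le_one' (t.ld i) x

theorem μ_le_M (i : ℕ) : t.μ i ≤ t.M i := (t.μ_le i 0).trans (t.le_M i 0)

include h in
theorem M_succ_le (i : ℕ) : t.M (i + 1) ≤ t.M i := by
  obtain ⟨x, hx⟩ := t.M_att (i + 1)
  have h1 := S_lt h t i x
  have h2 := t.le_M i x
  linarith

include h in
theorem M_decay : ∃ κ : ℝ, 0 < κ ∧ κ < 1 ∧ ∀ i, t.M (i + 5) ≤ κ * t.M i := by
  obtain ⟨C, hC1, hC⟩ := denjoy h.toAct
  refine ⟨C / (C + 1), by positivity, by rw [div_lt_one (by linarith)]; linarith, fun i => ?_⟩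
  obtain ⟨x, hx⟩ := t.M_att (i + 5)
  have hlt : (t.S (i + 5) ^ 2 : Dif) x < t.S i x :=
    tau_lt h (tau_pow h.toAct (t.tau (i + 5)) 2) (t.tau i) (by
      have := t.half i
      push_cast; linarith) x
  have hp := (t.ld (i + 5)).pos x
  have h2 := ((hC _ _ _ _ _ (t.ld (i + 5)) x).2.1 (t.S (i + 5) x) ⟨hp.le, le_rfl⟩).2
  rw [pow_two, Dif.mul_apply] at hlt
  have h3 := t.le_M i x
  rw [hx] at h2
  rw [div_mul_eq_mul_div, le_div_iff₀ (by linarith)]
  have h4 : t.S (i + 5) (t.S (i + 5) x) - x ≤ t.M i := by linarith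
  have h5 : t.M (i + 5) + (t.S (i + 5) (t.S (i + 5) x) - t.S (i + 5) x) ≤ t.M i := by linarith
  nlinarith

/-- linear growth of `log (1 / M)` -/
theorem M_growth (h : Free F G α β) (t : Tower F G α β) :
    ∃ c : ℝ, 0 < c ∧ ∀ i ≥ 10, c * i ≤ - Real.log (t.M i) := by
  obtain ⟨κ, hκ0, hκ1, hκ⟩ := M_decay h t
  set c := - Real.log κ with hc
  have hc0 : 0 < c := by rw [hc]; linarith [Real.log_neg hκ0 hκ1]
  have hstep : ∀ i, c + (- Real.log (t.M i)) ≤ - Real.log (t.M (i + 5)) := by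
    intro i
    have h1 := Real.log_le_log (M_pos t (i + 5)) (hκ i)
    rw [Real.log_mul hκ0.ne' (M_pos t i).ne'] at h1
    rw [hc]; linarith
  have hmono : ∀ i, - Real.log (t.M i) ≤ - Real.log (t.M (i + 1)) := by
    intro i
    have h1 := Real.log_le_log (M_pos t (i + 1)) (M_succ_le h t i)
    linarith
  have hmono' : ∀ i d, - Real.log (t.M i) ≤ - Real.log (t.M (i + d)) := by
    intro i d
    induction d with
    | zero => simp
    | succ d ih => exact ih.trans (hmono _)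
  have h0 : ∀ i, 0 ≤ - Real.log (t.M i) := by
    intro i
    have := Real.log_nonpos (M_pos t i).le (M_le_one t i)
    linarith
  have h5 : ∀ j : ℕ, c * j ≤ - Real.log (t.M (5 * j)) := by
    intro j
    induction j with
    | zero => simpa using h0 0
    | succ j ih =>
      have := hstep (5 * j)
      have e : 5 * (j + 1) = 5 * j + 5 := by ring
      rw [e]
      push_cast
      linarith
  refine ⟨c / 10, by positivity, fun i hi => ?_⟩
  have h6 := h5 (i / 5)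
  have h7 := hmono' (5 * (i / 5)) (i - 5 * (i / 5))
  have e : 5 * (i / 5) + (i - 5 * (i / 5)) = i := by omega
  rw [e] at h7
  have h8 : (i : ℝ) / 10 ≤ ((i / 5 : ℕ) : ℝ) := by
    rw [div_le_iff₀ (by norm_num)]
    have : i ≤ (i / 5) * 10 := by omega
    exact_mod_cast this
  calc c / 10 * i = c * (i / 10) := by ring
    _ ≤ c * ((i / 5 : ℕ) : ℝ) := by gcongr
    _ ≤ _ := h6.trans h7

theorem M_tendsto (h : Free F G α β) (t : Tower F G α β) :
    Tendsto t.M atTop (𝓝 0) := by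
  obtain ⟨c, hc, hg⟩ := M_growth h t
  have h1 : Tendsto (fun i : ℕ => Real.exp (-(c * (i : ℝ)))) atTop (𝓝 0) := by
    apply Real.tendsto_exp_neg_atTop_nhds_zero.comp
    exact (tendsto_natCast_atTop_atTop).const_mul_atTop hc
  refine squeeze_zero' (Eventually.of_forall (fun i => (M_pos t i).le)) ?_ h1
  filter_upwards [eventually_ge_atTop 10] with i hi
  have := hg i hi
  rw [← Real.exp_log (M_pos t i)]
  apply Real.exp_le_exp.mpr
  linarith

/-! ## Windows -/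

/-- length of a window around `x₀` -/
theorem window_pos {S : Dif} {C : ℝ} (hC1 : 1 ≤ C) (hpos : ∀ x, x < S x)
    (hC : ∀ x, ∀ y ∈ Icc x (S x), S y - y ≤ C * (S x - x) ∧ S x - x ≤ C * (S y - y))
    (x₀ : ℝ) (K : ℕ) :
    S ((S ^ K) x₀) - (S ^ K) x₀ ≤ C ^ K * (S x₀ - x₀) ∧
      (S ^ K) x₀ - x₀ ≤ K * C ^ K * (S x₀ - x₀) := by
  have hφ : 0 < S x₀ - x₀ := sub_pos.mpr (hpos x₀)
  induction K with
  | zero => simp
  | succ K ih =>
    have e : (S ^ (K + 1)) x₀ = S ((S ^ K) x₀) := by rw [pow_succ']; rfl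
    rw [e]
    refine ⟨?_, ?_⟩
    · have h1 := (hC ((S ^ K) x₀) (S ((S ^ K) x₀)) ⟨(hpos _).le, le_rfl⟩).1
      calc _ ≤ C * (S ((S ^ K) x₀) - (S ^ K) x₀) := h1
        _ ≤ C * (C ^ K * (S x₀ - x₀)) := by
          have := ih.1
          gcongr
        _ = C ^ (K + 1) * (S x₀ - x₀) := by ring
    · have h2 : C ^ K ≤ C ^ (K + 1) := pow_le_pow_right₀ hC1 (Nat.le_succ K)
      calc S ((S ^ K) x₀) - x₀ = (S ((S ^ K) x₀) - (S ^ K) x₀) + ((S ^ K) x₀ - x₀) := by ring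
        _ ≤ C ^ K * (S x₀ - x₀) + K * C ^ K * (S x₀ - x₀) := add_le_add ih.1 ih.2
        _ = (K + 1 : ℕ) * C ^ K * (S x₀ - x₀) := by push_cast; ring
        _ ≤ (K + 1 : ℕ) * C ^ (K + 1) * (S x₀ - x₀) := by gcongr

theorem window_neg {S : Dif} {C : ℝ} (hC1 : 1 ≤ C) (hpos : ∀ x, x < S x)
    (hC : ∀ x, ∀ y ∈ Icc x (S x), S y - y ≤ C * (S x - x) ∧ S x - x ≤ C * (S y - y))
    (x₀ : ℝ) (K : ℕ) :
    S ((S⁻¹ ^ K) x₀) - (S⁻¹ ^ K) x₀ ≤ C ^ K * (S x₀ - x₀) ∧
      x₀ - (S⁻¹ ^ K) x₀ ≤ K * C ^ K * (S x₀ - x₀) := by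
  have hφ : 0 < S x₀ - x₀ := sub_pos.mpr (hpos x₀)
  induction K with
  | zero => simp
  | succ K ih =>
    have e : (S⁻¹ ^ (K + 1)) x₀ = S⁻¹ ((S⁻¹ ^ K) x₀) := by rw [pow_succ']; rfl
    rw [e]
    set w := S⁻¹ ((S⁻¹ ^ K) x₀) with hw
    have ew : S w = (S⁻¹ ^ K) x₀ := by rw [hw]; simp
    have h1 := (hC w (S w) ⟨(hpos _).le, le_rfl⟩).2
    have h3 : S w - w ≤ C ^ (K + 1) * (S x₀ - x₀) := by
      calc _ ≤ C * (S (S w) - S w) := h1
        _ ≤ C * (C ^ K * (S x₀ - x₀)) := by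
          have := ih.1
          rw [ew]
          gcongr
        _ = C ^ (K + 1) * (S x₀ - x₀) := by ring
    refine ⟨h3, ?_⟩
    have h2 : C ^ K ≤ C ^ (K + 1) := pow_le_pow_right₀ hC1 (Nat.le_succ K)
    calc x₀ - w = (S w - w) + (x₀ - (S⁻¹ ^ K) x₀) := by rw [ew]; ring
      _ ≤ C ^ (K + 1) * (S x₀ - x₀) + K * C ^ K * (S x₀ - x₀) := add_le_add h3 ih.2
      _ ≤ C ^ (K + 1) * (S x₀ - x₀) + K * C ^ (K + 1) * (S x₀ - x₀) := by gcongr
      _ = (K + 1 : ℕ) * C ^ (K + 1) * (S x₀ - x₀) := by push_cast; ring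

theorem window_abs {S : Dif} {C : ℝ} (hC1 : 1 ≤ C) (hpos : ∀ x, x < S x)
    (hC : ∀ x, ∀ y ∈ Icc x (S x), S y - y ≤ C * (S x - x) ∧ S x - x ≤ C * (S y - y))
    (x₀ : ℝ) (K : ℕ) {z : ℝ} (hz : z ∈ Icc ((S ^ (-(K : ℤ))) x₀) ((S ^ (K : ℤ)) x₀)) :
    |z - x₀| ≤ K * C ^ K * (S x₀ - x₀) := by
  have h1 := (window_pos hC1 hpos hC x₀ K).2
  have h2 := (window_neg hC1 hpos hC x₀ K).2
  have e1 : (S ^ (K : ℤ)) x₀ = (S ^ K) x₀ := by rw [zpow_natCast]
  have e2 : (S ^ (-(K : ℤ))) x₀ = (S⁻¹ ^ K) x₀ := by rw [zpow_neg, zpow_natCast, inv_pow]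
  rw [e1, e2] at hz
  rw [abs_le]
  constructor
  · linarith [hz.1]
  · linarith [hz.2]

/-! ## Generators and inverses -/

theorem gen_comm {F G : Dif} (h : Act F G) (i : Fin 4) : Commute (gen F G i) T := by
  fin_cases i
  · exact h.FT
  · exact h.FT.inv_left
  · exact h.GT
  · exact h.GT.inv_left

theorem inv_index (t : Tower F G α β) (i : ℕ) (k : Fin 4) :
    ∃ k' : Fin 4, gen F G k' = (gen F G k)⁻¹ ∧ t.N i k' = t.N i k := by
  have h1 := t.N01 i
  have h2 := t.N23 i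
  fin_cases k
  · exact ⟨1, rfl, h1.symm⟩
  · exact ⟨0, (inv_inv F).symm, h1⟩
  · exact ⟨3, rfl, h2.symm⟩
  · exact ⟨2, (inv_inv G).symm, h2⟩

theorem mul_T_apply {g : Dif} (hg : Commute g T) (k : ℤ) (y : ℝ) :
    (g * T ^ k) y = g y + k := by
  rw [(hg.zpow_right k).eq, Dif.mul_apply, T_zpow_apply]

theorem mul_T_deriv {g : Dif} (hg : Commute g T) (k : ℤ) (y : ℝ) :
    deriv (g * T ^ k : Dif) y = deriv g y := by
  have e : (fun y => (g * T ^ k) y) = fun y => g y + (k : ℝ) := by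
    funext y; exact mul_T_apply hg k y
  show deriv (fun y => (g * T ^ k) y) y = _
  rw [e]
  simp

theorem mul_T_iter {g : Dif} (hg : Commute g T) (k : ℤ) {l : ℕ} (hl : 1 ≤ l) (y : ℝ) :
    iteratedDeriv l (g * T ^ k : Dif) y = iteratedDeriv l g y := by
  obtain ⟨m, rfl⟩ : ∃ m, l = m + 1 := ⟨l - 1, by omega⟩
  rw [iteratedDeriv_succ', iteratedDeriv_succ']
  congr 1
  funext y
  exact mul_T_deriv hg k y

theorem deriv_inv_le {S : Dif} {C : ℝ} (hC : ∀ x, 1 ≤ C * deriv S x) (z : ℝ) :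
    deriv (S⁻¹ : Dif) z ≤ C := by
  have h1 : deriv (S * S⁻¹ : Dif) z = deriv S (S⁻¹ z) * deriv (S⁻¹ : Dif) z :=
    Dif.deriv_mul S S⁻¹ z
  have h2 : deriv (S * S⁻¹ : Dif) z = 1 := by
    rw [mul_inv_cancel]
    show deriv (fun y : ℝ => y) z = 1
    simp
  rw [h2] at h1
  have h3 := hC (S⁻¹ z)
  have h4 := (S⁻¹ : Dif).deriv_pos z
  calc deriv (S⁻¹ : Dif) z = 1 * deriv (S⁻¹ : Dif) z := (one_mul _).symm
    _ ≤ C * deriv S (S⁻¹ z) * deriv (S⁻¹ : Dif) z := by gcongr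
    _ = C * (deriv S (S⁻¹ z) * deriv (S⁻¹ : Dif) z) := by ring
    _ = C := by rw [← h1, mul_one]

/-- the inverse of `gen k ^ q * T ^ c` is of the same form -/
theorem inv_form (h : Act F G) (t : Tower F G α β) (i : ℕ) {S : Dif} {k : Fin 4} {q : ℕ} {c : ℤ}
    (hS : S = gen F G k ^ q * T ^ c) (hq : q ≤ t.N i k) :
    ∃ k' : Fin 4, S⁻¹ = gen F G k' ^ q * T ^ (-c) ∧ q ≤ t.N i k' := by
  obtain ⟨k', hk', hN⟩ := inv_index t i k
  refine ⟨k', ?_, by rw [hN]; exact hq⟩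
  rw [hk', hS, mul_inv_rev, inv_pow, zpow_neg]
  exact (((gen_comm h k).pow_left q).inv_left.zpow_right c).inv_right.eq.symm

/-! ## The local lemma at a level of the tower -/

theorem ll_app (hLL₀ : LLStatement) (h : Free F G α β) (r m B : ℕ) : ∃ B₂ : ℕ, ∀ B₁ : ℕ, ∃ δ : ℝ, 0 < δ ∧
    ∀ (t : Tower F G α β) (i : ℕ), t.M i ≤ δ → ∀ x₀ : ℝ,
    (∀ a' b' : ℤ, |(b' : ℝ)| ≤ (1 / t.M i ^ ((1 : ℝ) / 4)) ^ B₁ →
      |a' * t.θ i + b' * t.θ (i + 1)| ≤ 2 * t.θ i →
      ∀ z ∈ Icc ((t.S i ^ (-(m : ℤ))) x₀) ((t.S i ^ (m : ℤ)) x₀),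
        1 / 2 ≤ deriv (t.S i ^ a' * t.S (i + 1) ^ b' : Dif) z ∧
          deriv (t.S i ^ a' * t.S (i + 1) ^ b' : Dif) z ≤ 2) ∧
    (∀ a' b' : ℤ, |(b' : ℝ)| ≤ (1 / t.M i ^ ((1 : ℝ) / 4)) ^ B₁ →
      |a' * t.θ i + b' * t.θ (i + 1)| ≤ (t.M i ^ ((1 : ℝ) / 4)) ^ B₂ * t.θ i →
      ∀ z ∈ Icc ((t.S i ^ (-(m : ℤ))) x₀) ((t.S i ^ (m : ℤ)) x₀), ∀ l ≤ r,
        |iteratedDeriv l (fun y => (t.S i ^ a' * t.S (i + 1) ^ b') y - y) z| ≤
          (t.M i ^ ((1 : ℝ) / 4)) ^ B * (t.S i x₀ - x₀) / (t.S i x₀ - x₀) ^ l) := by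
  obtain ⟨B₂, hB₂⟩ := hLL₀ r m B
  refine ⟨B₂, fun B₁ => ?_⟩
  obtain ⟨n, K, hnK⟩ := hB₂ B₁
  obtain ⟨Cd, hCd1, hCd⟩ := denjoy h.toAct
  obtain ⟨Cf, hCf1, hCf⟩ := geo_fine h.toAct (n + 1)
  obtain ⟨ν₀, hν₀, hLL⟩ := hnK (Cf * Cd * 2 ^ (n + 1))
  set W : ℝ := Cf * (K * Cd ^ K) with hW
  have hW0 : 0 ≤ W := by positivity
  have hCf0 : 0 < Cf := by linarith
  have hCd0 : 0 < Cd := by linarith
  refine ⟨min (ν₀ ^ 4) (min (1 / Cf) ((1 / (2 * (W + 1))) ^ 4)), by positivity, ?_⟩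
  intro t i hM x₀
  have hM1 : t.M i ≤ ν₀ ^ 4 := hM.trans (min_le_left _ _)
  have hM2 : t.M i ≤ 1 / Cf := hM.trans ((min_le_right _ _).trans (min_le_left _ _))
  have hM3 : t.M i ≤ (1 / (2 * (W + 1))) ^ 4 :=
    hM.trans ((min_le_right _ _).trans (min_le_right _ _))
  have hM0 := M_pos t i
  set ν := t.M i ^ ((1 : ℝ) / 4) with hν
  have hν0 : 0 < ν := Real.rpow_pos_of_pos hM0 _
  have hν4 : ν ^ 4 = t.M i := by
    rw [hν, ← Real.rpow_natCast, ← Real.rpow_mul hM0.le]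
    norm_num
  have hνν₀ : ν ≤ ν₀ := by
    rw [← hν4] at hM1
    exact (pow_le_pow_iff_left₀ hν0.le hν₀.le (by norm_num)).mp hM1
  have hνW : ν ≤ 1 / (2 * (W + 1)) := by
    rw [← hν4] at hM3
    exact (pow_le_pow_iff_left₀ hν0.le (by positivity) (by norm_num)).mp hM3
  have hL := t.ld i
  have hpos := hL.pos
  have hcomp : ∀ x, ∀ y ∈ Icc x (t.S i x), t.S i y - y ≤ Cd * (t.S i x - x) ∧
      t.S i x - x ≤ Cd * (t.S i y - y) := fun x => (hCd _ _ _ _ _ hL x).2.1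
  have hfine := hCf _ _ _ _ _ hL (t.M i) hM0 hM2 (t.le_M i)
  simp only [← hν] at hfine
  set a := t.S i x₀ - x₀ with ha
  have ha0 : 0 < a := sub_pos.mpr (hpos x₀)
  have hφd : ∀ z, |deriv (fun y => t.S i y - y) z| ≤ Cf * ν := by
    intro z
    have h1 := (hfine z).1 1 (by omega)
    rw [iteratedDeriv_one, pow_one] at h1
    have hz : 0 < t.S i z - z := sub_pos.mpr (hpos z)
    refine h1.trans (le_of_eq ?_)
    field_simp
  have hwin : ∀ z ∈ Icc ((t.S i ^ (-(K : ℤ))) x₀) ((t.S i ^ (K : ℤ)) x₀),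
      a / 2 ≤ t.S i z - z ∧ t.S i z - z ≤ 2 * a := by
    intro z hz
    have h1 := window_abs hCd1 hpos hcomp x₀ K hz
    have h2 : ‖(fun y => t.S i y - y) z - (fun y => t.S i y - y) x₀‖ ≤ Cf * ν * ‖z - x₀‖ := by
      refine Convex.norm_image_sub_le_of_norm_deriv_le (f := fun y => t.S i y - y) (s := univ)
        (fun y _ => ?_) (fun y _ => ?_) convex_univ (mem_univ x₀) (mem_univ z)
      · exact ((t.S i).differentiable y).sub differentiableAt_id
      · exact hφd y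
    rw [Real.norm_eq_abs, Real.norm_eq_abs] at h2
    have h3 : Cf * ν * |z - x₀| ≤ a / 2 := by
      calc Cf * ν * |z - x₀| ≤ Cf * ν * (K * Cd ^ K * a) := by gcongr
        _ = ν * (W * a) := by rw [hW]; ring
        _ ≤ 1 / (2 * (W + 1)) * (W * a) := by gcongr
        _ = a * (W / (W + 1)) / 2 := by field_simp
        _ ≤ a * 1 / 2 := by
          gcongr
          rw [div_le_one (by positivity)]
          linarith
        _ = a / 2 := by ring
    have h4 := abs_le.mp (h2.trans h3)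
    simp only at h4
    constructor
    · linarith [h4.1]
    · linarith [h4.2]
  have hder : ∀ x, deriv (t.S i : Dif) x ≤ Cd ∧ 1 ≤ Cd * deriv (t.S i : Dif) x :=
    fun x => (hCd _ _ _ _ _ hL x).1
  have hder' : ∀ x, deriv (t.S (i + 1) : Dif) x ≤ Cd ∧ 1 ≤ Cd * deriv (t.S (i + 1) : Dif) x :=
    fun x => (hCd _ _ _ _ _ (t.ld (i + 1)) x).1
  have hform : ∀ (f : Dif) (k : Fin 4) (q : ℕ) (c : ℤ), f = gen F G k ^ q * T ^ c →
      q ≤ t.N i k → (∀ z, deriv f z ≤ Cd) →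
      ∀ z ∈ Icc ((t.S i ^ (-(K : ℤ))) x₀) ((t.S i ^ (K : ℤ)) x₀), ∀ l, 1 ≤ l → l ≤ n →
        |iteratedDeriv l f z| ≤ Cf * Cd * 2 ^ (n + 1) * (ν / a) ^ (l - 1) := by
    intro f k q c hf hq hd z hz l hl1 hl2
    have hc : Commute (gen F G k ^ q) T := (gen_comm h.toAct k).pow_left q
    have h1 := (hfine z).2 k q hq l hl1 (by omega)
    have e1 : iteratedDeriv l f z = iteratedDeriv l (gen F G k ^ q : Dif) z := by
      rw [hf]; exact mul_T_iter hc c hl1 z
    have e2 : deriv f z = deriv (gen F G k ^ q : Dif) z := by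
      rw [hf]; exact mul_T_deriv hc c z
    rw [e1]
    refine h1.trans ?_
    rw [← e2]
    have hz' := hwin z hz
    have hz0 : 0 < t.S i z - z := sub_pos.mpr (hpos z)
    have h5 : ν / (t.S i z - z) ≤ 2 * (ν / a) := by
      rw [mul_div_assoc', div_le_div_iff₀ hz0 ha0]
      nlinarith [hz'.1]
    have h6 := hd z
    have h7 := f.deriv_pos z
    calc Cf * deriv f z * (ν / (t.S i z - z)) ^ (l - 1)
        ≤ Cf * Cd * (2 * (ν / a)) ^ (l - 1) := by gcongr
      _ = Cf * Cd * 2 ^ (l - 1) * (ν / a) ^ (l - 1) := by rw [mul_pow]; ring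
      _ ≤ Cf * Cd * 2 ^ (n + 1) * (ν / a) ^ (l - 1) := by
        gcongr
        · norm_num
        · omega
  have hq1 : t.q (i + 1) ≤ t.N i (t.k (i + 1)) := (t.next_q i).le
  have := hLL (t.S i) (t.S (i + 1)) x₀ a ν (t.θ i) (t.θ (i + 1))
    (tau_comm h.toAct (t.tau i) (t.tau (i + 1))) ha0 hν0 hνν₀ (t.θ_pos (i + 1)) (t.θ_lt i) (hpos x₀)
    (fun a' b' hab z _ => tau_pos h (tau_mul h.toAct (tau_zpow h.toAct (t.tau i) a')
      (tau_zpow h.toAct (t.tau (i + 1)) b')) hab z)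
    (fun z hz => by
      have hz' := hwin z hz
      refine ⟨hz'.1, hz'.2, ?_, ?_⟩
      · intro l hl
        have h1 := (hfine z).1 l (by omega)
        have hz0 : 0 < t.S i z - z := sub_pos.mpr (hpos z)
        have h5 : ν / (t.S i z - z) ≤ 2 * (ν / a) := by
          rw [mul_div_assoc', div_le_div_iff₀ hz0 ha0]
          nlinarith [hz'.1]
        refine h1.trans ?_
        calc Cf * (t.S i z - z) * (ν / (t.S i z - z)) ^ l
            ≤ Cf * (2 * a) * (2 * (ν / a)) ^ l := by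
              gcongr
              exact hz'.2
          _ = Cf * 1 * 2 ^ (l + 1) * a * (ν / a) ^ l := by rw [mul_pow]; ring
          _ ≤ Cf * Cd * 2 ^ (n + 1) * a * (ν / a) ^ l := by
            gcongr
            norm_num
      · intro l hl1 hl2
        refine ⟨?_, ?_, ?_⟩
        · obtain ⟨k', hk', hN'⟩ := inv_form h.toAct t i hL.S_eq hL.q_le
          exact hform _ k' _ _ hk' hN' (deriv_inv_le (fun x => (hder x).2)) z hz l hl1 hl2
        · exact hform _ _ _ _ (t.ld (i + 1)).S_eq hq1 (fun z => (hder' z).1) z hz l hl1 hl2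
        · obtain ⟨k', hk', hN'⟩ := inv_form h.toAct t i (t.ld (i + 1)).S_eq hq1
          exact hform _ k' _ _ hk' hN' (deriv_inv_le (fun x => (hder' x).2)) z hz l hl1 hl2)
  exact this

/-! ## Uniqueness of translation numbers -/

theorem tau_inj (h : Free F G α β) {g g' : Dif} {τ : ℝ} (hg : HasTau F G α β g τ)
    (hg' : HasTau F G α β g' τ) : g = g' := by
  obtain ⟨a, b, c, e, h0⟩ := tau_mul h.toAct hg (tau_inv h.toAct hg')
  have h1 := h.indep a b c (by rw [← h0]; ring)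
  obtain ⟨rfl, rfl, rfl⟩ := h1
  have : g * g'⁻¹ = 1 := by rw [e]; simp
  exact mul_inv_eq_one.mp this

theorem tau_unique (h : Free F G α β) {g : Dif} {τ τ' : ℝ} (hg : HasTau F G α β g τ)
    (hg' : HasTau F G α β g τ') : τ = τ' := by
  obtain ⟨a, b, c, e, h0⟩ := tau_mul h.toAct hg (tau_inv h.toAct hg')
  rw [mul_inv_cancel] at e
  obtain ⟨rfl, rfl, rfl⟩ := h.faithful a b c e.symm
  simp at h0
  linarith

theorem tau_le (h : Free F G α β) {g g' : Dif} {τ τ' : ℝ} (hg : HasTau F G α β g τ)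
    (hg' : HasTau F G α β g' τ') (ht : τ ≤ τ') (x : ℝ) : g x ≤ g' x := by
  rcases ht.lt_or_eq with h1 | h1
  · exact (tau_lt h hg hg' h1 x).le
  · subst h1
    rw [tau_inj h hg hg']

theorem tau_T : HasTau F G α β T 1 := ⟨0, 0, 1, by simp, by simp⟩

theorem tau_gen (k : Fin 4) : HasTau F G α β (gen F G k) (rot α β k) := by
  fin_cases k
  · exact ⟨1, 0, 0, by simp [gen], by simp [rot]⟩
  · exact ⟨-1, 0, 0, by simp [gen], by simp [rot]⟩
  · exact ⟨0, 1, 0, by simp [gen], by simp [rot]⟩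
  · exact ⟨0, -1, 0, by simp [gen], by simp [rot]⟩

theorem theta_eq (h : Free F G α β) (t : Tower F G α β) (i : ℕ) :
    t.θ i = t.q i * rot α β (t.k i) - t.p i := by
  have h1 := t.tau i
  have h2 : HasTau F G α β (t.S i) ((t.q i : ℝ) * rot α β (t.k i) + ((-t.p i : ℤ) : ℝ) * 1) := by
    rw [(t.ld i).S_eq]
    exact tau_mul h.toAct (tau_pow h.toAct (tau_gen _) _) (tau_zpow h.toAct tau_T _)
  rw [tau_unique h h1 h2]
  push_cast; ring

theorem ne_one (h : Free F G α β) (t : Tower F G α β) (i : ℕ) (a b : ℤ) (hb : 0 < b) :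
    t.S i ^ a * t.S (i + 1) ^ b ≠ 1 := by
  intro hcon
  have h1 := tau_mul h.toAct (tau_zpow h.toAct (t.tau i) a) (tau_zpow h.toAct (t.tau (i + 1)) b)
  rw [hcon] at h1
  have h2 : (a : ℝ) * t.θ i + b * t.θ (i + 1) = 0 := tau_unique h h1 tau_one
  have hbR : (0 : ℝ) < b := by exact_mod_cast hb
  have h3 : -b < a := by
    have : (-(b : ℝ)) < a := by
      by_contra hc
      push Not at hc
      have h4 := t.θ_pos i
      have h5 := t.θ_lt i
      nlinarith
    exact_mod_cast this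
  have h4 : a < 0 := by
    have : (a : ℝ) < 0 := by
      by_contra hc
      push Not at hc
      have h4 := t.θ_pos i
      have h5 := t.θ_pos (i + 1)
      nlinarith
    exact_mod_cast this
  have hq := (t.ld i).q_pos
  have hq' := (t.ld (i + 1)).q_pos
  have hqN := (t.ld i).q_le
  have hN := t.next_q i
  have h01 := t.N01 i
  have h23 := t.N23 i
  rw [theta_eq h t i, theta_eq h t (i + 1)] at h2
  generalize t.k i = k at *
  generalize t.k (i + 1) = k' at *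
  have hqz : (1 : ℤ) ≤ t.q i := by exact_mod_cast hq
  have hqz' : (1 : ℤ) ≤ t.q (i + 1) := by exact_mod_cast hq'
  have key : ∀ x y z : ℤ, (x : ℝ) * α + y * β + z = 0 → x = 0 ∧ y = 0 := fun x y z hx =>
    ⟨(h.indep x y z hx).1, (h.indep x y z hx).2.1⟩
  have same : t.q i ≤ t.q (i + 1) → a * t.q i + b * t.q (i + 1) = 0 → False := by
    intro h5 h6
    have h7 : (t.q i : ℤ) ≤ t.q (i + 1) := by exact_mod_cast h5
    nlinarith
  have opp : a * t.q i - b * t.q (i + 1) = 0 → False := by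
    intro h6
    nlinarith
  have bad : b * t.q (i + 1) = 0 → False := by
    intro h6
    nlinarith
  fin_cases k <;> fin_cases k'
  · have h5 := key (a * t.q i + b * t.q (i + 1)) 0 (-(a * t.p i) - b * t.p (i + 1)) (by
      simp [rot] at h2; push_cast; linarith)
    exact same (by rw [hN]; exact hqN) h5.1
  · have h5 := key (a * t.q i - b * t.q (i + 1)) 0 (-(a * t.p i) - b * t.p (i + 1)) (by
      simp [rot] at h2; push_cast; linarith)
    exact opp h5.1
  · have h5 := key (a * t.q i) (b * t.q (i + 1)) (-(a * t.p i) - b * t.p (i + 1)) (by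
      simp [rot] at h2; push_cast; linarith)
    exact bad h5.2
  · have h5 := key (a * t.q i) (-(b * t.q (i + 1))) (-(a * t.p i) - b * t.p (i + 1)) (by
      simp [rot] at h2; push_cast; linarith)
    exact bad (by linarith [h5.2])
  · have h5 := key (-(a * t.q i) + b * t.q (i + 1)) 0 (-(a * t.p i) - b * t.p (i + 1)) (by
      simp [rot] at h2; push_cast; linarith)
    exact opp (by linarith [h5.1])
  · have h5 := key (-(a * t.q i) - b * t.q (i + 1)) 0 (-(a * t.p i) - b * t.p (i + 1)) (by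
      simp [rot] at h2; push_cast; linarith)
    exact same (by rw [hN]; exact hqN) (by linarith [h5.1])
  · have h5 := key (-(a * t.q i)) (b * t.q (i + 1)) (-(a * t.p i) - b * t.p (i + 1)) (by
      simp [rot] at h2; push_cast; linarith)
    exact bad h5.2
  · have h5 := key (-(a * t.q i)) (-(b * t.q (i + 1))) (-(a * t.p i) - b * t.p (i + 1)) (by
      simp [rot] at h2; push_cast; linarith)
    exact bad (by linarith [h5.2])
  · have h5 := key (b * t.q (i + 1)) (a * t.q i) (-(a * t.p i) - b * t.p (i + 1)) (by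
      simp [rot] at h2; push_cast; linarith)
    exact bad h5.1
  · have h5 := key (-(b * t.q (i + 1))) (a * t.q i) (-(a * t.p i) - b * t.p (i + 1)) (by
      simp [rot] at h2; push_cast; linarith)
    exact bad (by linarith [h5.1])
  · have h5 := key 0 (a * t.q i + b * t.q (i + 1)) (-(a * t.p i) - b * t.p (i + 1)) (by
      simp [rot] at h2; push_cast; linarith)
    exact same (by rw [hN]; exact hqN) h5.2
  · have h5 := key 0 (a * t.q i - b * t.q (i + 1)) (-(a * t.p i) - b * t.p (i + 1)) (by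
      simp [rot] at h2; push_cast; linarith)
    exact opp h5.2
  · have h5 := key (b * t.q (i + 1)) (-(a * t.q i)) (-(a * t.p i) - b * t.p (i + 1)) (by
      simp [rot] at h2; push_cast; linarith)
    exact bad h5.1
  · have h5 := key (-(b * t.q (i + 1))) (-(a * t.q i)) (-(a * t.p i) - b * t.p (i + 1)) (by
      simp [rot] at h2; push_cast; linarith)
    exact bad (by linarith [h5.1])
  · have h5 := key 0 (-(a * t.q i) + b * t.q (i + 1)) (-(a * t.p i) - b * t.p (i + 1)) (by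
      simp [rot] at h2; push_cast; linarith)
    exact opp (by linarith [h5.2])
  · have h5 := key 0 (-(a * t.q i) - b * t.q (i + 1)) (-(a * t.p i) - b * t.p (i + 1)) (by
      simp [rot] at h2; push_cast; linarith)
    exact same (by rw [hN]; exact hqN) (by linarith [h5.2])

/-! ## Comparison of consecutive levels -/

theorem pow_sub_eq (u : Dif) (x : ℝ) (j : ℕ) :
    (u ^ j) x - x = ∑ l ∈ Finset.range j, ((u ^ l) (u x) - (u ^ l) x) := by
  have h1 := Finset.sum_range_sub (fun l => (u ^ l) x) j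
  simp only [pow_zero, Dif.one_apply] at h1
  rw [← h1]
  refine Finset.sum_congr rfl (fun l _ => ?_)
  rw [pow_succ]; rfl

theorem mvt (g : Dif) {x y : ℝ} (hxy : x < y) :
    ∃ c ∈ Icc x y, g y - g x = deriv g c * (y - x) := by
  obtain ⟨c, hc, hc'⟩ := exists_deriv_eq_slope (fun z => g z) hxy g.continuous.continuousOn
    (g.differentiable.differentiableOn)
  refine ⟨c, ⟨hc.1.le, hc.2.le⟩, ?_⟩
  have : deriv g c = (g y - g x) / (y - x) := hc'
  rw [this]
  field_simp [sub_ne_zero.mpr hxy.ne']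

theorem compare (hLL₀ : LLStatement) (h : Free F G α β) (B₁ : ℕ) : ∃ δ : ℝ, 0 < δ ∧
    ∀ (t : Tower F G α β) (i : ℕ), t.M i ≤ δ → ∀ (x : ℝ) (j : ℕ),
    (j : ℝ) ≤ (1 / t.M i ^ ((1 : ℝ) / 4)) ^ B₁ → j * t.θ (i + 1) ≤ 2 * t.θ i →
      (j : ℝ) / 2 * (t.S (i + 1) x - x) ≤ (t.S (i + 1) ^ j) x - x ∧
      (t.S (i + 1) ^ j) x - x ≤ 2 * j * (t.S (i + 1) x - x) := by
  obtain ⟨B₂, hB₂⟩ := ll_app hLL₀ h 0 1 0
  obtain ⟨δ, hδ, hmain⟩ := hB₂ B₁
  refine ⟨δ, hδ, fun t i hM x j hj hj' => ?_⟩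
  have h1 := (hmain t i hM x).1
  have hpos := (t.ld (i + 1)).pos x
  have hφ : 0 < t.S (i + 1) x - x := sub_pos.mpr hpos
  have hterm : ∀ l ∈ Finset.range j,
      1 / 2 * (t.S (i + 1) x - x) ≤ (t.S (i + 1) ^ l) (t.S (i + 1) x) - (t.S (i + 1) ^ l) x ∧
      (t.S (i + 1) ^ l) (t.S (i + 1) x) - (t.S (i + 1) ^ l) x ≤ 2 * (t.S (i + 1) x - x) := by
    intro l hl
    have hlj : (l : ℝ) ≤ j := by
      have := (Finset.mem_range.mp hl).le
      exact_mod_cast this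
    obtain ⟨c, hc, hc'⟩ := mvt (t.S (i + 1) ^ l) hpos
    have h2 := h1 0 l (by
      have : |((l : ℤ) : ℝ)| = l := by simp
      rw [this]; exact hlj.trans hj) (by
      have h3 := t.θ_pos (i + 1)
      have h4 : (l : ℝ) * t.θ (i + 1) ≤ j * t.θ (i + 1) := by gcongr
      have h5 : 0 ≤ (l : ℝ) * t.θ (i + 1) := by positivity
      push_cast
      rw [zero_mul, zero_add, abs_of_nonneg h5]
      linarith) c (by
      have h3 := (S_lt h t i x).le
      have h4 : (t.S i ^ (-((1 : ℕ) : ℤ))) x ≤ x := by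
        rw [Nat.cast_one, zpow_neg, zpow_one]
        exact ((t.S i).inv_lt_iff.mpr ((t.ld i).pos x)).le
      have h5 : (t.S i ^ ((1 : ℕ) : ℤ)) x = t.S i x := by
        rw [Nat.cast_one, zpow_one]
      rw [h5]
      exact ⟨h4.trans hc.1, hc.2.trans h3⟩)
    rw [zpow_zero, one_mul, zpow_natCast] at h2
    rw [hc']
    constructor
    · have := h2.1
      gcongr
    · have := h2.2
      gcongr
  rw [pow_sub_eq]
  constructor
  · calc (j : ℝ) / 2 * (t.S (i + 1) x - x)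
        = ∑ l ∈ Finset.range j, 1 / 2 * (t.S (i + 1) x - x) := by
          rw [Finset.sum_const, Finset.card_range, nsmul_eq_mul]; ring
      _ ≤ _ := Finset.sum_le_sum (fun l hl => (hterm l hl).1)
  · calc _ ≤ ∑ l ∈ Finset.range j, 2 * (t.S (i + 1) x - x) :=
          Finset.sum_le_sum (fun l hl => (hterm l hl).2)
      _ = 2 * j * (t.S (i + 1) x - x) := by
          rw [Finset.sum_const, Finset.card_range, nsmul_eq_mul]; ring

theorem level_step (hLL₀ : LLStatement) (h : Free F G α β) (B₁ : ℕ) : ∃ δ : ℝ, 0 < δ ∧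
    ∀ (t : Tower F G α β) (i : ℕ), t.M i ≤ δ →
    (∃ w : ℝ, 0 < w ∧ ∀ x, w / 4 * (t.S i x - x) ≤ t.S (i + 1) x - x ∧
      t.S (i + 1) x - x ≤ 4 * w * (t.S i x - x)) ∨
    (∀ x, t.S (i + 1) x - x ≤ 8 * (t.M i ^ ((1 : ℝ) / 4)) ^ B₁ * (t.S i x - x)) := by
  obtain ⟨δ, hδ, hmain⟩ := compare hLL₀ h B₁
  refine ⟨min δ (min 1 ((1 / 2) ^ 4)), by positivity, fun t i hM => ?_⟩
  have hM1 : t.M i ≤ δ := hM.trans (min_le_left _ _)
  have hM0 := M_pos t i
  have hcmp := hmain t i hM1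
  set ν := t.M i ^ ((1 : ℝ) / 4) with hν
  have hν0 : 0 < ν := Real.rpow_pos_of_pos hM0 _
  have hθ := t.θ_pos i
  have hη := t.θ_pos (i + 1)
  have hηθ := t.θ_lt i
  set ξ := t.θ i / t.θ (i + 1) with hξ
  have hξ1 : 1 < ξ := by rw [hξ, one_lt_div hη]; exact hηθ
  have hξθ : ξ * t.θ (i + 1) = t.θ i := by rw [hξ]; field_simp
  set Q := (1 / ν) ^ B₁ with hQ
  have hQ0 : 0 < Q := by positivity
  have hQν : Q * ν ^ B₁ = 1 := by
    rw [hQ, one_div, inv_pow]
    exact inv_mul_cancel₀ (by positivity)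
  have hτ : ∀ j : ℕ, HasTau F G α β (t.S (i + 1) ^ j) (j * t.θ (i + 1)) :=
    fun j => tau_pow h.toAct (t.tau (i + 1)) j
  rcases le_or_gt (2 * ξ) Q with hcase | hcase
  · left
    refine ⟨1 / ξ, by positivity, fun x => ?_⟩
    have hφi : 0 < t.S i x - x := sub_pos.mpr ((t.ld i).pos x)
    have hφ : 0 < t.S (i + 1) x - x := sub_pos.mpr ((t.ld (i + 1)).pos x)
    set J := ⌊ξ⌋₊ with hJ
    have hJ1 : (J : ℝ) ≤ ξ := Nat.floor_le (by linarith)
    have hJ2 : ξ < J + 1 := Nat.lt_floor_add_one ξ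
    have hJ3 : (1 : ℝ) ≤ J := by
      have : 1 ≤ J := Nat.le_floor (by simpa using hξ1.le)
      exact_mod_cast this
    have h1 := hcmp x J (by linarith) (by
      have : (J : ℝ) * t.θ (i + 1) ≤ ξ * t.θ (i + 1) := by gcongr
      rw [hξθ] at this
      linarith)
    have h2 := hcmp x (J + 1) (by push_cast; linarith) (by
      have : ((J + 1 : ℕ) : ℝ) * t.θ (i + 1) ≤ (2 * ξ) * t.θ (i + 1) := by
        gcongr
        push_cast
        linarith
      rw [mul_assoc, hξθ] at this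
      exact this)
    have h3 : (t.S (i + 1) ^ J) x ≤ t.S i x := tau_le h (hτ J) (t.tau i) (by
      have : (J : ℝ) * t.θ (i + 1) ≤ ξ * t.θ (i + 1) := by gcongr
      rwa [hξθ] at this) x
    have h4 : t.S i x ≤ (t.S (i + 1) ^ (J + 1)) x := tau_le h (t.tau i) (hτ (J + 1)) (by
      have : ξ * t.θ (i + 1) ≤ ((J + 1 : ℕ) : ℝ) * t.θ (i + 1) := by
        gcongr
        push_cast
        exact hJ2.le
      rwa [hξθ] at this) x
    have h5 : (J : ℝ) / 2 * (t.S (i + 1) x - x) ≤ t.S i x - x := by linarith [h1.1]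
    have h6 : t.S i x - x ≤ 2 * (J + 1 : ℕ) * (t.S (i + 1) x - x) := by linarith [h2.2]
    push_cast at h6
    constructor
    · have h7 : t.S i x - x ≤ 4 * ξ * (t.S (i + 1) x - x) := by
        refine h6.trans ?_
        have : 2 * ((J : ℝ) + 1) ≤ 4 * ξ := by linarith
        gcongr
      calc 1 / ξ / 4 * (t.S i x - x) ≤ 1 / ξ / 4 * (4 * ξ * (t.S (i + 1) x - x)) := by gcongr
        _ = t.S (i + 1) x - x := by field_simp
    · have h8 : ξ / 4 * (t.S (i + 1) x - x) ≤ t.S i x - x := by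
        refine le_trans ?_ h5
        have : ξ / 4 ≤ (J : ℝ) / 2 := by linarith
        gcongr
      calc t.S (i + 1) x - x = 4 * (1 / ξ) * (ξ / 4 * (t.S (i + 1) x - x)) := by field_simp
        _ ≤ 4 * (1 / ξ) * (t.S i x - x) := by gcongr
  · right
    intro x
    have hφi : 0 < t.S i x - x := sub_pos.mpr ((t.ld i).pos x)
    have hφ : 0 < t.S (i + 1) x - x := sub_pos.mpr ((t.ld (i + 1)).pos x)
    have hle := (S_lt h t i x).le
    rcases le_or_gt Q 2 with hQ2 | hQ2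
    · have h1 : 1 ≤ 8 * ν ^ B₁ := by
        have : 0 < ν ^ B₁ := by positivity
        nlinarith
      nlinarith
    · set J := ⌊Q / 2⌋₊ with hJ
      have hJ1 : (J : ℝ) ≤ Q / 2 := Nat.floor_le (by linarith)
      have hJ2 : Q / 2 < J + 1 := Nat.lt_floor_add_one _
      have hJ3 : (1 : ℝ) ≤ J := by
        have : 1 ≤ J := Nat.le_floor (by push_cast; linarith)
        exact_mod_cast this
      have hJξ : (J : ℝ) ≤ ξ := by linarith
      have hJθ : (J : ℝ) * t.θ (i + 1) ≤ t.θ i := by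
        have : (J : ℝ) * t.θ (i + 1) ≤ ξ * t.θ (i + 1) := by gcongr
        rwa [hξθ] at this
      have h1 := hcmp x J (by linarith) (by linarith)
      have h3 : (t.S (i + 1) ^ J) x ≤ t.S i x := tau_le h (hτ J) (t.tau i) hJθ x
      have h5 : (J : ℝ) / 2 * (t.S (i + 1) x - x) ≤ t.S i x - x := by linarith [h1.1]
      have h8 : Q / 8 * (t.S (i + 1) x - x) ≤ t.S i x - x := by
        refine le_trans ?_ h5
        have : Q / 8 ≤ (J : ℝ) / 2 := by linarith
        gcongr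
      calc t.S (i + 1) x - x = 8 * (Q * ν ^ B₁) * (1 / 8 * (t.S (i + 1) x - x)) := by
            rw [hQν]; ring
        _ = 8 * ν ^ B₁ * (Q / 8 * (t.S (i + 1) x - x)) := by ring
        _ ≤ 8 * ν ^ B₁ * (t.S i x - x) := by gcongr

/-! ## The polynomial comparison of maximal and minimal displacements -/

theorem abstract_seq {a b : ℕ → ℝ} {c lam C : ℝ} {i₁ : ℕ} (hc : 0 < c) (hlam : 0 ≤ lam)
    (hC : 1 ≤ C) (hi₁ : 1 ≤ i₁) (ha : ∀ i ≥ i₁, c * i ≤ a i) (hmono : ∀ i ≥ i₁, a i ≤ a (i + 1))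
    (hstep : ∀ i ≥ i₁, b (i + 1) ≤ b i + (a (i + 1) - a i) + lam ∨
      (b (i + 1) ≤ C * b i ∧ 2 * C * a i ≤ a (i + 1))) :
    ∃ R : ℕ, ∀ i ≥ i₁, b i ≤ R * a i := by
  have hapos : ∀ i ≥ i₁, 0 < a i := by
    intro i hi
    have h1 : (0 : ℝ) < i := by
      have : 0 < i := by omega
      exact_mod_cast this
    exact lt_of_lt_of_le (by positivity) (ha i hi)
  set R₁ := max 1 (max (lam / c) (b i₁ / a i₁)) with hR₁
  have hR1 : 1 ≤ R₁ := le_max_left _ _
  have hR2 : lam / c ≤ R₁ := (le_max_left _ _).trans (le_max_right _ _)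
  have hR3 : b i₁ / a i₁ ≤ R₁ := (le_max_right _ _).trans (le_max_right _ _)
  have hlam_i : ∀ i ≥ i₁, lam * i ≤ R₁ * a i := by
    intro i hi
    have h1 := ha i hi
    calc lam * i = lam / c * (c * i) := by field_simp
      _ ≤ R₁ * a i := by
        gcongr
  have main : ∀ d : ℕ, b (i₁ + d) - lam * ((i₁ + d : ℕ) : ℝ) ≤ R₁ * a (i₁ + d) := by
    intro d
    induction d with
    | zero =>
      have h1 : b i₁ ≤ R₁ * a i₁ := by
        rw [div_le_iff₀ (hapos i₁ le_rfl)] at hR3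
        exact hR3
      have h2 : 0 ≤ lam * ((i₁ + 0 : ℕ) : ℝ) := by positivity
      simp only [add_zero] at *
      linarith
    | succ d ih =>
      set i := i₁ + d with hi
      have hii : i ≥ i₁ := by omega
      have e : i₁ + (d + 1) = i + 1 := by omega
      rw [e]
      have hm := hmono i hii
      rcases hstep i hii with h1 | ⟨h1, h2⟩
      · have h3 : R₁ * a i + (a (i + 1) - a i) ≤ R₁ * a (i + 1) := by nlinarith
        push_cast

        linarith
      · have h3 := hlam_i i hii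
        have h4 : b i ≤ 2 * (R₁ * a i) := by linarith
        have h5 : 0 ≤ lam * ((i + 1 : ℕ) : ℝ) := by positivity
        have h6 : b (i + 1) ≤ R₁ * a (i + 1) := by
          calc b (i + 1) ≤ C * b i := h1
            _ ≤ C * (2 * (R₁ * a i)) := by gcongr
            _ = R₁ * (2 * C * a i) := by ring
            _ ≤ R₁ * a (i + 1) := by gcongr
        linarith
  refine ⟨⌈2 * R₁⌉₊, fun i hi => ?_⟩
  obtain ⟨d, rfl⟩ : ∃ d, i = i₁ + d := ⟨i - i₁, by omega⟩
  have h1 := main d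
  have h2 := hlam_i (i₁ + d) (by omega)
  have h3 := hapos (i₁ + d) (by omega)
  calc b (i₁ + d) ≤ 2 * R₁ * a (i₁ + d) := by linarith
    _ ≤ ⌈2 * R₁⌉₊ * a (i₁ + d) := by
      gcongr
      exact Nat.le_ceil _

theorem poly_compare (hLL₀ : LLStatement) (h : Free F G α β) (t : Tower F G α β) (C₁ : ℕ)
    (hP : ∃ i₀, ∀ i ≥ i₀, t.μ i ^ C₁ ≤ t.μ (i + 1)) :
    ∃ (R i₁ : ℕ), ∀ i ≥ i₁, t.M i ^ R ≤ t.μ i := by
  obtain ⟨i₀, hi₀⟩ := hP
  obtain ⟨c, hc, hgrow⟩ := M_growth h t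
  obtain ⟨δ, hδ, hstep⟩ := level_step hLL₀ h (8 * (C₁ + 1))
  have hev := (M_tendsto h t).eventually (gt_mem_nhds (show (0 : ℝ) < min δ (1 / 8) by positivity))
  obtain ⟨i₂, hi₂⟩ := eventually_atTop.mp hev
  set i₁ := max (max i₀ 10) i₂ with hi₁
  have hi₁0 : i₀ ≤ i₁ := (le_max_left _ _).trans (le_max_left _ _)
  have hi₁1 : 10 ≤ i₁ := (le_max_right _ _).trans (le_max_left _ _)
  have hi₁2 : i₂ ≤ i₁ := le_max_right _ _
  have hlog8 : 0 ≤ Real.log 16 := Real.log_nonneg (by norm_num)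
  obtain ⟨R, hR⟩ := abstract_seq (a := fun i => - Real.log (t.M i))
    (b := fun i => - Real.log (t.μ i)) (c := c) (lam := Real.log 16) (C := (C₁ : ℝ) + 1)
    (i₁ := i₁) hc hlog8 (by linarith [Nat.cast_nonneg (α := ℝ) C₁]) (by omega)
    (fun i hi => hgrow i (hi₁1.trans hi))
    (fun i hi => by
      have := Real.log_le_log (M_pos t (i + 1)) (M_succ_le h t i)
      linarith)
    (fun i hi => by
      have hMδ : t.M i ≤ δ := ((hi₂ i (hi₁2.trans hi)).le).trans (min_le_left _ _)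
      have hM8 : t.M i ≤ 1 / 8 := ((hi₂ i (hi₁2.trans hi)).le).trans (min_le_right _ _)
      have hM0 := M_pos t i
      have hμ0 := μ_pos t i
      have hM0' := M_pos t (i + 1)
      have hμ0' := μ_pos t (i + 1)
      rcases hstep t i hMδ with ⟨w, hw, hw'⟩ | hJ
      · left
        obtain ⟨x, hx⟩ := t.μ_att (i + 1)
        obtain ⟨y, hy⟩ := t.M_att (i + 1)
        have h1 : w / 4 * t.μ i ≤ t.μ (i + 1) := by
          have := (hw' x).1
          rw [hx] at this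
          refine le_trans ?_ this
          have := t.μ_le i x
          gcongr
        have h2 : t.M (i + 1) ≤ 4 * w * t.M i := by
          have := (hw' y).2
          rw [hy] at this
          refine this.trans ?_
          have := t.le_M i y
          gcongr
        have h3 := Real.log_le_log (by positivity) h1
        have h4 := Real.log_le_log hM0' h2
        rw [Real.log_mul (by positivity) hμ0.ne', Real.log_div hw.ne' (by norm_num)] at h3
        rw [Real.log_mul (by positivity) hM0.ne', Real.log_mul (by norm_num) hw.ne'] at h4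
        have h5 : Real.log 16 = Real.log 4 + Real.log 4 := by
          rw [← Real.log_mul (by norm_num) (by norm_num)]; norm_num
        rw [h5]
        linarith
      · right
        constructor
        · have h1 := hi₀ i (hi₁0.trans hi)
          have h2 : t.μ i ^ (C₁ + 1) ≤ t.μ (i + 1) := by
            refine le_trans ?_ h1
            exact pow_le_pow_of_le_one hμ0.le (μ_le_one t i) (Nat.le_succ _)
          have h3 := Real.log_le_log (by positivity) h2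
          rw [Real.log_pow] at h3
          push_cast at h3
          linarith
        · obtain ⟨y, hy⟩ := t.M_att (i + 1)
          have h1 := hJ y
          rw [hy] at h1
          have h2 : t.M (i + 1) ≤ 8 * (t.M i ^ ((1 : ℝ) / 4)) ^ (8 * (C₁ + 1)) * t.M i := by
            refine h1.trans ?_
            have := t.le_M i y
            gcongr
          have e : (t.M i ^ ((1 : ℝ) / 4)) ^ (8 * (C₁ + 1)) = t.M i ^ (2 * (C₁ + 1)) := by
            rw [← Real.rpow_natCast, ← Real.rpow_mul hM0.le, ← Real.rpow_natCast]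
            congr 1
            push_cast; ring
          rw [e] at h2
          have h3 : t.M (i + 1) ≤ t.M i ^ (2 * (C₁ + 1)) := by
            refine h2.trans ?_
            have h4 : 0 < t.M i ^ (2 * (C₁ + 1)) := by positivity
            nlinarith
          have h4 := Real.log_le_log hM0' h3
          rw [Real.log_pow] at h4
          push_cast at h4
          linarith)
  refine ⟨R, i₁, fun i hi => ?_⟩
  have h1 := hR i hi
  have h2 : (R : ℝ) * Real.log (t.M i) ≤ Real.log (t.μ i) := by linarith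
  rw [← Real.log_pow] at h2
  exact (Real.log_le_log_iff (by have := M_pos t i; positivity) (μ_pos t i)).mp h2

end CaseP

open CaseP

variable {F G : Dif} {α β : ℝ}

theorem caseP_of (hLL₀ : LLStatement) (h : Free F G α β) (t : Tower F G α β) (C₁ : ℕ)
    (hP : ∃ i₀, ∀ i ≥ i₀, t.μ i ^ C₁ ≤ t.μ (i + 1)) (r : ℕ) (ε : ℝ) (hε : 0 < ε) :
    ∃ (s : Dif) (τs : ℝ), HasTau F G α β s τs ∧ s ≠ 1 ∧
      ∀ l ≤ r, ∀ x, |iteratedDeriv l (fun y => s y - y) x| ≤ ε := by
  obtain ⟨R, i₁, hR⟩ := poly_compare hLL₀ h t C₁ hP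
  obtain ⟨B₂, hB₂⟩ := ll_app hLL₀ h r 0 (4 * (R * r + 1))
  obtain ⟨δ, hδ, hmain⟩ := hB₂ (B₂ + 1)
  have hev := (M_tendsto h t).eventually
    (gt_mem_nhds (show (0 : ℝ) < min δ (min ε ((1 / 2) ^ 4)) by positivity))
  obtain ⟨i₂, hi₂⟩ := eventually_atTop.mp hev
  set i := max i₁ i₂ with hi
  have hMi := (hi₂ i (le_max_right _ _)).le
  have hMδ : t.M i ≤ δ := hMi.trans (min_le_left _ _)
  have hMε : t.M i ≤ ε := hMi.trans ((min_le_right _ _).trans (min_le_left _ _))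
  have hM2 : t.M i ≤ (1 / 2) ^ 4 := hMi.trans ((min_le_right _ _).trans (min_le_right _ _))
  have hRi := hR i (le_max_left _ _)
  have hM0 := M_pos t i
  have hmi := hmain t i hMδ
  set ν := t.M i ^ ((1 : ℝ) / 4) with hν
  have hν0 : 0 < ν := Real.rpow_pos_of_pos hM0 _
  have hν4 : ν ^ 4 = t.M i := by
    rw [hν, ← Real.rpow_natCast, ← Real.rpow_mul hM0.le]
    norm_num
  have hν2 : ν ≤ 1 / 2 := by
    rw [← hν4] at hM2
    exact (pow_le_pow_iff_left₀ hν0.le (by norm_num) (by norm_num)).mp hM2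
  have hν1 : 2 ≤ 1 / ν := by
    rw [le_div_iff₀ hν0]; linarith
  have hθ := t.θ_pos i
  set X := (1 / ν) ^ B₂ with hX
  have hX1 : 1 ≤ X := one_le_pow₀ (by linarith)
  have hXν : X * ν ^ B₂ = 1 := by
    rw [hX, one_div, inv_pow]
    exact inv_mul_cancel₀ (by positivity)
  have hn : 0 < ⌈X⌉₊ := Nat.ceil_pos.mpr (by linarith)
  obtain ⟨j, k, hk0, hkn, hkj⟩ := Real.exists_int_int_abs_mul_sub_le (t.θ (i + 1) / t.θ i) hn
  refine ⟨t.S i ^ (-j) * t.S (i + 1) ^ k, ((-j : ℤ) : ℝ) * t.θ i + k * t.θ (i + 1),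
    tau_mul h.toAct (tau_zpow h.toAct (t.tau i) _) (tau_zpow h.toAct (t.tau (i + 1)) _),
    ne_one h t i _ _ hk0, fun l hl x => ?_⟩
  have hk0' : (0 : ℝ) < k := by exact_mod_cast hk0
  have h1 : |(k : ℝ)| ≤ (1 / ν) ^ (B₂ + 1) := by
    rw [abs_of_pos hk0']
    have h2 : (k : ℝ) ≤ ⌈X⌉₊ := by exact_mod_cast hkn
    have h3 : (⌈X⌉₊ : ℝ) < X + 1 := Nat.ceil_lt_add_one (by linarith)
    calc (k : ℝ) ≤ X + 1 := by linarith
      _ ≤ X * 2 := by linarith
      _ ≤ X * (1 / ν) := by gcongr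
      _ = (1 / ν) ^ (B₂ + 1) := by rw [hX, pow_succ]
  have h2 : |((-j : ℤ) : ℝ) * t.θ i + k * t.θ (i + 1)| ≤ ν ^ B₂ * t.θ i := by
    have e : ((-j : ℤ) : ℝ) * t.θ i + k * t.θ (i + 1) =
        (k * (t.θ (i + 1) / t.θ i) - j) * t.θ i := by
      push_cast
      field_simp
      ring
    rw [e, abs_mul, abs_of_pos hθ]
    have h3 : (1 : ℝ) / (⌈X⌉₊ + 1) ≤ ν ^ B₂ := by
      rw [div_le_iff₀ (by positivity), ← hXν, mul_comm]
      have h4 : X ≤ ⌈X⌉₊ := Nat.le_ceil X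
      have h5 : 0 < ν ^ B₂ := by positivity
      gcongr
      linarith
    exact mul_le_mul_of_nonneg_right (hkj.trans h3) hθ.le
  have h3 := (hmi x).2 (-j) k h1 h2 x (by simp) l hl
  refine h3.trans (le_trans ?_ hMε)
  have hφ : 0 < t.S i x - x := sub_pos.mpr ((t.ld i).pos x)
  have hφ1 : t.S i x - x ≤ 1 := phi_le_one' (t.ld i) x
  have hφμ : t.M i ^ R ≤ t.S i x - x := hRi.trans (t.μ_le i x)
  have e : ν ^ (4 * (R * r + 1)) = t.M i * t.M i ^ (R * r) := by
    rw [pow_mul, hν4, pow_succ, mul_comm]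
  rw [e, div_le_iff₀ (by positivity)]
  have h4 : t.M i ^ (R * r) ≤ (t.S i x - x) ^ l := by
    calc t.M i ^ (R * r) = (t.M i ^ R) ^ r := pow_mul _ _ _
      _ ≤ (t.S i x - x) ^ r := by gcongr
      _ ≤ (t.S i x - x) ^ l := pow_le_pow_of_le_one hφ.le hφ1 hl
  calc t.M i * t.M i ^ (R * r) * (t.S i x - x) ≤ t.M i * t.M i ^ (R * r) * 1 := by gcongr
    _ = t.M i * t.M i ^ (R * r) := mul_one _
    _ ≤ t.M i * (t.S i x - x) ^ l := by gcongr

end Pool.Agent.F88
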