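import Pool.Agent.Lib.MP_f88c17.LLLet

/-!
# Local lemma: conclusion from the existence of an almost invariant vector field
-/

set_option autoImplicit false

open Set Filter Topology
open scoped ContDiff

namespace Pool.Agent.F88.LL

/-- The statement of the existence of an almost invariant vector field. -/
def FieldStmt : Prop := ∀ (k n : ℕ), 1 ≤ k → ∀ C : ℝ, ∃ C' ν₁ : ℝ, 1 ≤ C' ∧ 0 < ν₁ ∧
    ∀ (S : Dif) (x₀ a ρ ν : ℝ) (K : ℤ), (k : ℤ) + 3 ≤ K → Win S x₀ a ρ ν C (n + k + 2) K →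
    ν ≤ ν₁ →
    ∃ X : ℝ → ℝ,
      (∀ z ∈ Wd S x₀ (K - k - 2), ContDiffAt ℝ ∞ X z ∧ a / 4 ≤ X z ∧ X z ≤ 3 * a ∧
        ∀ l ≤ n, |iteratedDeriv l X z| ≤ C' * a * ρ ^ l) ∧
      ∀ g : Dif, Commute g S →
        (∀ z ∈ Wd S x₀ K, ∀ l, 1 ≤ l → l ≤ k + 2 → |iteratedDeriv l g z| ≤ C * ρ ^ (l - 1)) →
        ∀ z ∈ Wd S x₀ (K - k - 2), |X (g z) - deriv g z * X z| ≤ C' * a * ν ^ k

/-- The hypotheses of the local lemma on the window. -/
structure Hyp (S u : Dif) (x₀ a ρ ν θ η C : ℝ) (n : ℕ) (K : ℤ) : Prop where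
  win : Win S x₀ a ρ ν C n K
  comm : Commute S u
  η_pos : 0 < η
  η_lt : η < θ
  pos : ∀ a' b' : ℤ, 0 < (a' : ℝ) * θ + (b' : ℝ) * η → ∀ z ∈ Wd S x₀ K, z < el S u a' b' z
  letter : ∀ g, IsLetter S u g → ∀ z ∈ Wd S x₀ K, ∀ l, 1 ≤ l → l ≤ n →
    |iteratedDeriv l g z| ≤ C * ρ ^ (l - 1)

/-- positions of letters -/
theorem Hyp.letter_mem {S u : Dif} {x₀ a ρ ν θ η C : ℝ} {n : ℕ} {K : ℤ}
    (c : Hyp S u x₀ a ρ ν θ η C n K) {g : Dif} (hg : IsLetter S u g)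
    {i : ℤ} {z : ℝ} (hz : z ∈ Wd S x₀ i) (hi : i ≤ K) : g z ∈ Wd S x₀ (i + 2) := by
  have hη := c.η_pos
  have hηθ := c.η_lt
  have key : ∀ a' b' : ℤ, |(a' : ℝ) * θ + (b' : ℝ) * η| < 2 * θ →
      el S u a' b' z ∈ Wd S x₀ (i + 2) := by
    intro a' b' hb
    have hzK : z ∈ Wd S x₀ K := Wd_mono c.win.lt hi hz
    rw [abs_lt] at hb
    have h1 : el S u a' b' z < el S u 2 0 z := by
      have h1 := c.pos (2 - a') (0 - b') (by push_cast; linarith) z hzK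
      have h2 := (el S u a' b').strictMono h1
      simp only [el_mul_apply c.comm] at h2
      rwa [show a' + (2 - a') = 2 by ring, show b' + (0 - b') = 0 by ring] at h2
    have h2 : el S u (-2) 0 z < el S u a' b' z := by
      have h1 := c.pos (a' - (-2)) (b' - 0) (by push_cast; linarith) z hzK
      have h2 := (el S u (-2) 0).strictMono h1
      simp only [el_mul_apply c.comm] at h2
      rwa [show -2 + (a' - -2) = a' by ring, show 0 + (b' - 0) = b' by ring] at h2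
    rw [el_zero_right] at h1 h2
    have h3 := (S ^ (2 : ℤ)).strictMono.monotone hz.2
    have h4 := (S ^ (-2 : ℤ)).strictMono.monotone hz.1
    simp only [← Dif.mul_apply, ← zpow_add] at h3 h4
    constructor
    · rw [neg_add_rev]
      exact h4.trans h2.le
    · rw [add_comm i 2]
      exact h1.le.trans h3
  rcases hg with rfl | rfl | rfl | rfl
  · have := key 1 0 (by push_cast; rw [abs_lt]; constructor <;> linarith)
    simpa [el] using this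
  · have := key (-1) 0 (by push_cast; rw [abs_lt]; constructor <;> linarith)
    simpa [el] using this
  · have := key 0 1 (by push_cast; rw [abs_lt]; constructor <;> linarith)
    simpa [el] using this
  · have := key 0 (-1) (by push_cast; rw [abs_lt]; constructor <;> linarith)
    simpa [el] using this

theorem IsLetter.commute {S u g : Dif} (h : Commute S u) (hg : IsLetter S u g) :
    Commute g S := by
  rcases hg with rfl | rfl | rfl | rfl
  · exact Commute.refl _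
  · exact (Commute.refl _).inv_left
  · exact h.symm
  · exact h.symm.inv_left

/-- From the hypotheses to a context. -/
theorem ctx_of_hyp (hField : FieldStmt) (r k₁ m : ℕ) (hk₁ : 3 ≤ k₁) (C : ℝ) (hC : 1 ≤ C) :
    ∃ C' Cε ν₁ : ℝ, 1 ≤ C' ∧ 1 ≤ Cε ∧ 0 < ν₁ ∧
    ∀ (S u : Dif) (x₀ a ρ ν θ η : ℝ),
      Hyp S u x₀ a ρ ν θ η C (r + 2 ^ r * k₁ + 3) (m + 2 ^ r * k₁ + 20 : ℕ) → ν ≤ ν₁ →
      ∃ X : ℝ → ℝ, Ctx S u X x₀ a ρ ν θ η C' (Cε * ν ^ k₁) r (m + 12) := by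
  set k : ℕ := 2 ^ r * k₁ with hk
  have hk1 : 1 ≤ k := by
    have : 1 ≤ 2 ^ r := Nat.one_le_two_pow
    nlinarith
  have hk2 : 2 ^ (r + 1) + 1 ≤ k := by
    have : 1 ≤ 2 ^ r := Nat.one_le_two_pow
    rw [pow_succ]
    nlinarith
  obtain ⟨C', ν₂, hC', hν₂, hfield⟩ := hField k (r + 1) hk1 C
  obtain ⟨C₃, hC₃, hcrude⟩ := letter_crude k r C C' hC hC'
  obtain ⟨C₄, hC₄, hland⟩ := landau_iter r C₃
  set M : ℝ := ν₂⁻¹ + 8 * C' * (2 * C₄) ^ (2 ^ (r + 1)) + (8 * C' + 1) + C₄ with hM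
  have hp1 : 0 < ν₂⁻¹ := by positivity
  have hp2 : 0 ≤ 8 * C' * (2 * C₄) ^ (2 ^ (r + 1)) := by positivity
  have hMpos : 0 < M := by positivity
  refine ⟨C', C₄ * (8 * C' + 1) + 1, M⁻¹, hC', by nlinarith [mul_pos hC₄ (by linarith : (0:ℝ) < 8 * C' + 1)],
    by positivity, ?_⟩
  intro S u x₀ a ρ ν θ η H hν
  have hνpos := H.win.ν_pos
  have hν1 := H.win.ν_le
  have ha := H.win.a_pos
  have hρ := H.win.ρ_pos
  have hMν : M * ν ≤ 1 := by
    calc M * ν ≤ M * M⁻¹ := mul_le_mul_of_nonneg_left hν hMpos.le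
      _ = 1 := mul_inv_cancel₀ hMpos.ne'
  have hle : ∀ t : ℝ, t ≤ M → t * ν ≤ 1 := fun t ht =>
    (mul_le_mul_of_nonneg_right ht hνpos.le).trans hMν
  have c1 : ν ≤ ν₂ := by
    have := hle ν₂⁻¹ (by linarith)
    rwa [inv_mul_le_iff₀ hν₂, mul_one] at this
  have c2 : 8 * C' * (2 * C₄) ^ (2 ^ (r + 1)) * ν ≤ 1 := hle _ (by linarith)
  have c3 : (8 * C' + 1) * ν ≤ 1 := hle _ (by linarith)
  have hpowk : ν ^ k ≤ ν := by
    calc ν ^ k ≤ ν ^ 1 := pow_le_pow_of_le_one hνpos.le hν1 hk1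
      _ = ν := pow_one ν
  have c4 : 8 * C' * ν ^ k ≤ 1 := by nlinarith
  obtain ⟨X, hX, herr⟩ := hfield S x₀ a ρ ν ((m + k + 20 : ℕ) : ℤ) (by push_cast; omega)
    (by
      have hw := H.win
      exact { hw with der := fun z hz l hl => hw.der z hz l (by omega) }) c1
  have hlt := H.win.lt
  have hKX : ((m + k + 20 : ℕ) : ℤ) - k - 2 = (m : ℤ) + 18 := by push_cast; ring
  rw [hKX] at hX herr
  refine ⟨X, ?_⟩
  have hsub : ∀ i : ℤ, i ≤ (m : ℤ) + 18 → Wd S x₀ i ⊆ Wd S x₀ ((m : ℤ) + 18) :=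
    fun i hi => Wd_mono hlt hi
  have hsubK : ∀ i : ℤ, i ≤ (m : ℤ) + 18 → Wd S x₀ i ⊆ Wd S x₀ ((m + k + 20 : ℕ) : ℤ) :=
    fun i hi => Wd_mono hlt (by push_cast; omega)
  refine { comm := H.comm, lt := hlt, η_pos := H.η_pos, η_lt := H.η_lt, a_pos := ha,
           ρ_pos := hρ, ν_pos := hνpos, ν_le := hν1, ρa := H.win.ρa, C_ge := hC',
           ε_nonneg := by positivity, K_ge := by positivity, lo := ?_, hi := ?_, pos := ?_,
           X_smooth := ?_, X_lo := ?_, X_hi := ?_, X_der := ?_, err := ?_ }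
  · intro z hz
    exact H.win.lo z (hsubK _ (by omega) hz)
  · intro z hz
    exact H.win.hi z (hsubK _ (by omega) hz)
  · intro a' b' hab z hz
    exact H.pos a' b' hab z (hsubK _ (by omega) hz)
  · intro z hz
    exact (hX z (hsub _ (by omega) hz)).1
  · intro z hz
    exact (hX z (hsub _ (by omega) hz)).2.1
  · intro z hz
    exact (hX z (hsub _ (by omega) hz)).2.2.1
  · intro z hz l hl
    exact (hX z (hsub _ (by omega) hz)).2.2.2 l hl
  · intro g hg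
    have hcr := hcrude S X x₀ a ρ ν ((m : ℤ) + 11) g ha hρ hνpos H.win.ρa c4
      (fun z hz => by
        have := hX z (hsub _ (by omega) hz)
        exact this)
      (fun z hz => ⟨Wd_mono hlt (by omega) hz, H.letter_mem hg hz (by push_cast; omega)⟩)
      (fun z hz l hl1 hl2 => H.letter g hg z (hsubK _ (by omega) hz) l hl1 (by omega))
      (fun z hz => herr g (hg.commute H.comm)
        (fun y hy l hl1 hl2 => H.letter g hg y hy l hl1 (by omega)) z (hsub _ (by omega) hz))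
    -- length of the window
    have hlen : ν / 2 ≤ ρ * ((S ^ ((m : ℤ) + 11)) x₀ - (S ^ (-((m : ℤ) + 11))) x₀) := by
      have h1 := wd_length (j := (m : ℤ) + 11) hlt H.win.lo (by positivity) (by omega)
      calc ν / 2 = ρ * (a / 2) := by rw [← H.win.ρa]; ring
        _ ≤ _ := mul_le_mul_of_nonneg_left h1 hρ.le
    have hη1 : 8 * C' * ν ^ k ≤ (ν / 2 / C₄) ^ (2 ^ (r + 1)) := by
      have h1 : (ν / 2 / C₄) ^ (2 ^ (r + 1)) = ν ^ (2 ^ (r + 1)) / (2 * C₄) ^ (2 ^ (r + 1)) := by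
        rw [div_div, div_pow]
      rw [h1, le_div_iff₀ (by positivity)]
      have h2 : ν ^ k ≤ ν ^ (2 ^ (r + 1)) * ν := by
        rw [← pow_succ]
        exact pow_le_pow_of_le_one hνpos.le hν1 hk2
      calc 8 * C' * ν ^ k * (2 * C₄) ^ 2 ^ (r + 1)
          = (8 * C' * (2 * C₄) ^ 2 ^ (r + 1)) * ν ^ k := by ring
        _ ≤ (8 * C' * (2 * C₄) ^ 2 ^ (r + 1)) * (ν ^ (2 ^ (r + 1)) * ν) :=
            mul_le_mul_of_nonneg_left h2 hp2
        _ = (8 * C' * (2 * C₄) ^ 2 ^ (r + 1) * ν) * ν ^ (2 ^ (r + 1)) := by ring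
        _ ≤ 1 * ν ^ (2 ^ (r + 1)) := mul_le_mul_of_nonneg_right c2 (by positivity)
        _ = _ := one_mul _
    have hη0 : 0 < 8 * C' * ν ^ k := by positivity
    have hl := hland (dfc X a g) ((S ^ (-((m : ℤ) + 11))) x₀) ((S ^ ((m : ℤ) + 11)) x₀) ρ (ν / 2)
      (8 * C' * ν ^ k) hρ (by positivity) hlen hη0 hη1 c4
      (fun x hx => (hcr x hx).1) (fun x hx => (hcr x hx).2.1)
      (fun x hx l h1 h2 => (hcr x hx).2.2 l h1 h2)
    intro z hz
    rw [show (m : ℤ) + 12 - 1 = (m : ℤ) + 11 by ring] at hz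
    refine ⟨(hcr z hz).1, fun l hl' => (hl z hz l hl').trans ?_⟩
    refine mul_le_mul_of_nonneg_right ?_ (pow_nonneg hρ.le _)
    have hY1 : (8 * C' + 1) * ν ^ k₁ ≤ 1 := by
      have : ν ^ k₁ ≤ ν ^ 1 := pow_le_pow_of_le_one hνpos.le hν1 (by omega)
      rw [pow_one] at this
      nlinarith
    have hY2 : 8 * C' * ν ^ k ≤ ((8 * C' + 1) * ν ^ k₁) ^ (2 ^ r) := by
      rw [mul_pow, ← pow_mul, mul_comm k₁]
      refine mul_le_mul_of_nonneg_right ?_ (by positivity)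
      have h1 : (8 * C' + 1) ≤ (8 * C' + 1) ^ (2 ^ r) :=
        le_self_pow₀ (by linarith) (by positivity)
      linarith
    have h3 := rpow_small (l := l) (r := r) hη0 (by positivity) hY1 hY2 hl'
    calc C₄ * (8 * C' * ν ^ k) ^ ((1 : ℝ) / 2 ^ l) ≤ C₄ * ((8 * C' + 1) * ν ^ k₁) :=
          mul_le_mul_of_nonneg_left h3 hC₄.le
      _ ≤ (C₄ * (8 * C' + 1) + 1) * ν ^ k₁ := by
          have : 0 ≤ ν ^ k₁ := by positivity
          nlinarith

/-- The local lemma in a context. -/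
theorem main_ctx (r B B₁ B₂ m : ℕ) (hB₂ : B₂ = 2 ^ (r + 1) * (B + 3)) (C' Cε : ℝ)
    (hCε : 1 ≤ Cε) : ∃ ν₂ : ℝ, 0 < ν₂ ∧
    ∀ (S u : Dif) (X : ℝ → ℝ) (x₀ a ρ ν θ η : ℝ),
      Ctx S u X x₀ a ρ ν θ η C' (Cε * ν ^ (B₁ + B₂ + 4)) r (m + 12) → ν ≤ ν₂ →
      (∀ a' b' : ℤ, |(b' : ℝ)| ≤ (1 / ν) ^ B₁ → |a' * θ + b' * η| ≤ 2 * θ →
        ∀ z ∈ Wd S x₀ m, 1 / 2 ≤ deriv (el S u a' b') z ∧ deriv (el S u a' b') z ≤ 2) ∧
      (∀ a' b' : ℤ, |(b' : ℝ)| ≤ (1 / ν) ^ B₁ → |a' * θ + b' * η| ≤ ν ^ B₂ * θ →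
        ∀ z ∈ Wd S x₀ m, ∀ l ≤ r,
          |iteratedDeriv l (fun y => el S u a' b' y - y) z| ≤ ν ^ B * a / a ^ l) := by
  obtain ⟨Cw, hCw, hword⟩ := word_deriv r C'
  obtain ⟨Cd, hCd, hder⟩ := der_of_log r Cw
  obtain ⟨C₇, hC₇, hland⟩ := landau_iter r (Cd + 1)
  set M : ℝ := 5 * Cε + 2 * Cw + 16 + 16 * (2 * C₇) ^ (2 ^ (r + 1)) + C₇ with hM
  have hp2 : 0 ≤ (2 * C₇) ^ (2 ^ (r + 1)) := by positivity
  have hMpos : 0 < M := by positivity
  refine ⟨M⁻¹, by positivity, ?_⟩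
  intro S u X x₀ a ρ ν θ η c hν
  have hνpos := c.ν_pos
  have hν1 := c.ν_le
  have ha := c.a_pos
  have hρ := c.ρ_pos
  have hlt := c.lt
  have hθ := c.θ_pos
  have hη := c.η_pos
  have hMν : M * ν ≤ 1 := by
    calc M * ν ≤ M * M⁻¹ := mul_le_mul_of_nonneg_left hν hMpos.le
      _ = 1 := mul_inv_cancel₀ hMpos.ne'
  have hle : ∀ t : ℝ, t ≤ M → t * ν ≤ 1 := fun t ht =>
    (mul_le_mul_of_nonneg_right ht hνpos.le).trans hMν
  have c1 : 5 * Cε * ν ≤ 1 := hle _ (by linarith)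
  have c2 : 2 * Cw * ν ≤ 1 := hle _ (by linarith)
  have c3 : 16 * ν ≤ 1 := hle _ (by linarith)
  have c4 : 16 * (2 * C₇) ^ (2 ^ (r + 1)) * ν ≤ 1 := hle _ (by linarith)
  have c5 : C₇ * ν ≤ 1 := hle _ (by linarith)
  have hinv1 : 1 ≤ 1 / ν := by rw [le_div_iff₀ hνpos]; linarith
  set ε : ℝ := Cε * ν ^ (B₁ + B₂ + 4) with hε
  -- words of moderate length
  have hreach : ∀ a' b' : ℤ, |(b' : ℝ)| ≤ (1 / ν) ^ (B₁ + B₂) → |a' * θ + b' * η| ≤ 2 * θ →
      ∃ L : ℕ, Reach θ η L a' b' ∧ L * ε ≤ ν := by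
    intro a' b' hb hab
    obtain ⟨L, hL, hR⟩ := reach_all hη c.η_lt a' b' hab
    refine ⟨L, hR, ?_⟩
    have hL' : (L : ℝ) ≤ 2 * |(b' : ℝ)| + 3 := by
      have : ((L : ℤ) : ℝ) ≤ ((2 * |b'| + 3 : ℤ) : ℝ) := by exact_mod_cast hL
      push_cast at this
      exact this
    have h1 : (1 : ℝ) ≤ (1 / ν) ^ (B₁ + B₂) := one_le_pow₀ hinv1
    have h2 : (L : ℝ) ≤ 5 * (1 / ν) ^ (B₁ + B₂) := by linarith
    have h3 : (1 / ν) ^ (B₁ + B₂) * ν ^ (B₁ + B₂) = 1 := by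
      rw [← mul_pow, one_div, inv_mul_cancel₀ hνpos.ne', one_pow]
    have h4 : ν ^ 4 ≤ ν ^ 2 := pow_le_pow_of_le_one hνpos.le hν1 (by norm_num)
    calc (L : ℝ) * ε ≤ 5 * (1 / ν) ^ (B₁ + B₂) * ε :=
          mul_le_mul_of_nonneg_right h2 (by positivity)
      _ = 5 * Cε * ((1 / ν) ^ (B₁ + B₂) * ν ^ (B₁ + B₂)) * ν ^ 4 := by
          rw [hε, pow_add ν (B₁ + B₂) 4]; ring
      _ = 5 * Cε * ν ^ 4 := by rw [h3]; ring
      _ ≤ 5 * Cε * ν ^ 2 := mul_le_mul_of_nonneg_left h4 (by positivity)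
      _ = (5 * Cε * ν) * ν := by ring
      _ ≤ 1 * ν := mul_le_mul_of_nonneg_right c1 hνpos.le
      _ = ν := one_mul _
  -- derivatives of words
  have hderiv : ∀ a' b' : ℤ, |(b' : ℝ)| ≤ (1 / ν) ^ (B₁ + B₂) → |a' * θ + b' * η| ≤ 2 * θ →
      ∀ z ∈ Wd S x₀ (m + 6), (1 / 2 ≤ deriv (el S u a' b') z ∧ deriv (el S u a' b') z ≤ 2) ∧
        JB r (fun y => Real.log (deriv (el S u a' b') y)) z Cw ρ := by
    intro a' b' hb hab z hz
    obtain ⟨L, hR, hL⟩ := hreach a' b' hb hab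
    obtain ⟨h1, h2⟩ := hword S u X x₀ a ρ ν θ η ε (m + 12) c L a' b' hR hL z (by
      rw [show (m : ℤ) + 12 - 6 = m + 6 by ring]; exact hz)
    refine ⟨?_, h2⟩
    have h3 : |Real.log (deriv (el S u a' b') z)| ≤ Real.log 2 := by
      have : (1 : ℝ) / 2 ≤ Real.log 2 := by
        have := Real.log_two_gt_d9
        linarith
      linarith
    have hdp := (el S u a' b').deriv_pos z
    rw [abs_le] at h3
    constructor
    · have h4 : Real.log (1 / 2) ≤ Real.log (deriv (el S u a' b') z) := by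
        rw [one_div, Real.log_inv]; exact h3.1
      exact (Real.log_le_log_iff (by norm_num) hdp).mp h4
    · exact (Real.log_le_log_iff hdp (by norm_num)).mp h3.2
  have hmono : (1 / ν) ^ B₁ ≤ (1 / ν) ^ (B₁ + B₂) := pow_le_pow_right₀ hinv1 (by omega)
  refine ⟨fun a' b' hb hab z hz => (hderiv a' b' (hb.trans hmono) hab z
    (Wd_mono hlt (by omega) hz)).1, ?_⟩
  intro a' b' hb hab
  have hB₂1 : 1 ≤ B₂ := by
    have : 1 ≤ 2 ^ (r + 1) := Nat.one_le_two_pow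
    rw [hB₂]; nlinarith
  have hνB : ν ^ B₂ ≤ 1 := pow_le_one₀ hνpos.le hν1
  set s := el S u a' b' with hs
  set q : ℕ := ⌊(1 / ν) ^ B₂⌋₊ with hq
  have hX1 : (1 : ℝ) ≤ (1 / ν) ^ B₂ := one_le_pow₀ hinv1
  have hq1 : (q : ℝ) ≤ (1 / ν) ^ B₂ := Nat.floor_le (by positivity)
  have hq2 : (1 / ν) ^ B₂ / 2 ≤ q := by
    have h1 : (1 / ν) ^ B₂ < q + 1 := Nat.lt_floor_add_one _
    have h2 : (1 : ℝ) ≤ q := by
      have : 1 ≤ q := Nat.le_floor (by simpa using hX1)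
      exact_mod_cast this
    linarith
  have hprod : (1 / ν) ^ B₂ * ν ^ B₂ = 1 := by
    rw [← mul_pow, one_div, inv_mul_cancel₀ hνpos.ne', one_pow]
  -- powers
  have hpowτ : ∀ j : ℕ, j ≤ q →
      |(((j : ℤ) * a' : ℤ) : ℝ) * θ + (((j : ℤ) * b' : ℤ) : ℝ) * η| ≤ θ := by
    intro j hj
    have h1 : (((j : ℤ) * a' : ℤ) : ℝ) * θ + (((j : ℤ) * b' : ℤ) : ℝ) * η =
        (j : ℝ) * (a' * θ + b' * η) := by push_cast; ring
    rw [h1, abs_mul, abs_of_nonneg (Nat.cast_nonneg j)]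
    have h2 : (j : ℝ) ≤ (1 / ν) ^ B₂ := by
      have : (j : ℝ) ≤ q := by exact_mod_cast hj
      linarith
    calc (j : ℝ) * |a' * θ + b' * η| ≤ (1 / ν) ^ B₂ * (ν ^ B₂ * θ) :=
          mul_le_mul h2 hab (abs_nonneg _) (by positivity)
      _ = ((1 / ν) ^ B₂ * ν ^ B₂) * θ := by ring
      _ = θ := by rw [hprod, one_mul]
  have hpowb : ∀ j : ℕ, j ≤ q → |(((j : ℤ) * b' : ℤ) : ℝ)| ≤ (1 / ν) ^ (B₁ + B₂) := by
    intro j hj
    push_cast
    rw [abs_mul, abs_of_nonneg (Nat.cast_nonneg j), pow_add, mul_comm]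
    have h2 : (j : ℝ) ≤ (1 / ν) ^ B₂ := by
      have : (j : ℝ) ≤ q := by exact_mod_cast hj
      linarith
    exact mul_le_mul hb h2 (Nat.cast_nonneg _) (by positivity)
  have hτs : |(a' : ℝ) * θ + b' * η| ≤ θ :=
    hab.trans (by nlinarith)
  -- displacement
  have hdisp : ∀ z ∈ Wd S x₀ (m + 1), |s z - z| ≤ 16 * a * ν ^ B₂ := by
    intro z hz
    have hsz : s z ∈ Wd S x₀ (m + 1 + 2) :=
      c.el_mem (j := 2) (by push_cast; linarith) hz (by omega)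
    have h1 := disp s z q (4 * a) (fun j hj y hy => by
      have hy' : y ∈ Wd S x₀ (m + 3) := by
        have h3 : Wd S x₀ (m + 1) ⊆ Wd S x₀ (m + 3) := Wd_mono hlt (by omega)
        have h4 : uIcc z (s z) ⊆ Wd S x₀ (m + 3) := by
          have h5 : (uIcc z (s z)) ⊆ Icc _ _ := uIcc_subset_Icc (h3 hz) (by
            rwa [show (m : ℤ) + 1 + 2 = m + 3 by ring] at hsz)
          exact h5
        exact h4 hy
      have h6 := (hderiv (j * a') (j * b') (hpowb j hj.le)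
        ((hpowτ j hj.le).trans (by linarith)) y (Wd_mono hlt (by omega) hy')).1.1
      rw [hs, el_pow c.comm]
      exact h6) (by
      rw [hs, el_pow c.comm]
      have h7 := c.dist_le (a' := (q : ℤ) * a') (b' := (q : ℤ) * b') 2 (i := m + 1) (z := z)
        (by
          have := hpowτ q le_rfl
          push_cast at this ⊢
          linarith) hz (by push_cast; omega)
      push_cast at h7
      linarith)
    have h8 : (1 / ν) ^ B₂ / 4 * |s z - z| ≤ 4 * a := by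
      refine le_trans (mul_le_mul_of_nonneg_right ?_ (abs_nonneg _)) h1
      linarith
    calc |s z - z| = ((1 / ν) ^ B₂ * ν ^ B₂) * |s z - z| := by rw [hprod, one_mul]
      _ = ((1 / ν) ^ B₂ / 4 * |s z - z|) * (4 * ν ^ B₂) := by ring
      _ ≤ (4 * a) * (4 * ν ^ B₂) := mul_le_mul_of_nonneg_right h8 (by positivity)
      _ = 16 * a * ν ^ B₂ := by ring
  -- interpolation
  have hlen : ν / 2 ≤ ρ * ((S ^ ((m : ℤ) + 1)) x₀ - (S ^ (-((m : ℤ) + 1))) x₀) := by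
    have h1 := wd_length (j := (m : ℤ) + 1) hlt c.lo (by positivity) (by omega)
    calc ν / 2 = ρ * (a / 2) := by rw [← c.ρa]; ring
      _ ≤ _ := mul_le_mul_of_nonneg_left h1 hρ.le
  have hη0 : 0 < 16 * ν ^ (B₂ + 1) := by positivity
  have hη1 : 16 * ν ^ (B₂ + 1) ≤ ν ^ B₂ := by
    rw [pow_succ]
    have : 0 < ν ^ B₂ := by positivity
    nlinarith
  have hpB : 2 ^ (r + 1) ≤ B₂ := by
    rw [hB₂]; nlinarith [Nat.one_le_two_pow (n := r + 1)]
  have hη2 : 16 * ν ^ (B₂ + 1) ≤ (ν / 2 / C₇) ^ (2 ^ (r + 1)) := by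
    have h1 : (ν / 2 / C₇) ^ (2 ^ (r + 1)) = ν ^ (2 ^ (r + 1)) / (2 * C₇) ^ (2 ^ (r + 1)) := by
      rw [div_div, div_pow]
    rw [h1, le_div_iff₀ (by positivity)]
    have h2 : ν ^ B₂ ≤ ν ^ (2 ^ (r + 1)) := pow_le_pow_of_le_one hνpos.le hν1 hpB
    calc 16 * ν ^ (B₂ + 1) * (2 * C₇) ^ 2 ^ (r + 1)
        = (16 * (2 * C₇) ^ 2 ^ (r + 1) * ν) * ν ^ B₂ := by rw [pow_succ ν]; ring
      _ ≤ 1 * ν ^ B₂ := mul_le_mul_of_nonneg_right c4 (by positivity)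
      _ ≤ ν ^ (2 ^ (r + 1)) := by rw [one_mul]; exact h2
  have hsd : ∀ z ∈ Wd S x₀ (m + 6), ∀ i, 1 ≤ i → i ≤ r + 1 →
      ρ * |iteratedDeriv i s z| ≤ Cd * ρ ^ i := by
    intro z hz i hi1 hi2
    exact hder s z ρ hρ (hderiv a' b' (hb.trans hmono) (hτs.trans (by linarith)) z hz).2
      i hi1 hi2
  have hl := hland (fun y => ρ * (s y - y)) ((S ^ (-((m : ℤ) + 1))) x₀)
    ((S ^ ((m : ℤ) + 1)) x₀) ρ (ν / 2) (16 * ν ^ (B₂ + 1)) hρ (by positivity) hlen hη0 hη2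
    (hη1.trans hνB)
    (fun x hx => contDiffAt_const.mul (s.contDiff.contDiffAt.sub contDiffAt_id))
    (fun x hx => by
      have h1 := hdisp x hx
      rw [abs_mul, abs_of_pos hρ]
      calc ρ * |s x - x| ≤ ρ * (16 * a * ν ^ B₂) := mul_le_mul_of_nonneg_left h1 hρ.le
        _ = 16 * (ρ * a) * ν ^ B₂ := by ring
        _ = 16 * ν ^ (B₂ + 1) := by rw [c.ρa, pow_succ]; ring)
    (fun x hx l hl1 hl2 => by
      have h1 := hsd x (Wd_mono hlt (by omega) hx) l hl1 hl2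
      have h2 : iteratedDeriv l (fun y => ρ * (s y - y)) x =
          ρ * (iteratedDeriv l s x - iteratedDeriv l (fun y => y) x) := by
        have h3 : ContDiffAt ℝ l (fun y => s y) x :=
          s.contDiff.contDiffAt.of_le (by exact_mod_cast le_top)
        have h4 : ContDiffAt ℝ l (fun y : ℝ => y) x := contDiffAt_id
        rw [← iteratedDeriv_fun_sub h3 h4]
        exact iteratedDeriv_const_mul_field ρ (fun y => s y - y)
      rw [h2, abs_mul, abs_of_pos hρ]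
      have h5 : ρ * |iteratedDeriv l (fun y : ℝ => y) x| ≤ ρ ^ l := by
        obtain ⟨j, rfl⟩ : ∃ j, l = j + 1 := ⟨l - 1, by omega⟩
        rw [iteratedDeriv_succ']
        have h6 : deriv (fun y : ℝ => y) = fun _ => (1 : ℝ) := by funext y; simp
        rw [h6]
        rcases Nat.eq_zero_or_pos j with rfl | hj
        · simp
        · rw [iteratedDeriv_const]
          simp [hj.ne']
          positivity
      calc ρ * |iteratedDeriv l s x - iteratedDeriv l (fun y => y) x|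
          ≤ ρ * (|iteratedDeriv l s x| + |iteratedDeriv l (fun y : ℝ => y) x|) :=
            mul_le_mul_of_nonneg_left (abs_sub _ _) hρ.le
        _ = ρ * |iteratedDeriv l s x| + ρ * |iteratedDeriv l (fun y : ℝ => y) x| := by ring
        _ ≤ Cd * ρ ^ l + ρ ^ l := add_le_add h1 h5
        _ = (Cd + 1) * ρ ^ l := by ring)
  intro z hz l hlr
  have hz1 : z ∈ Wd S x₀ (m + 1) := Wd_mono hlt (by omega) hz
  have h1 := hl z hz1 l hlr
  rw [iteratedDeriv_const_mul_field ρ (fun y => s y - y), abs_mul, abs_of_pos hρ] at h1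
  have h2 : (16 * ν ^ (B₂ + 1)) ^ ((1 : ℝ) / 2 ^ l) ≤ ν ^ (B + 2) := by
    refine rpow_small (r := r) hη0 (by positivity) (pow_le_one₀ hνpos.le hν1) ?_ hlr
    refine hη1.trans ?_
    rw [← pow_mul]
    refine pow_le_pow_of_le_one hνpos.le hν1 ?_
    rw [hB₂, pow_succ, mul_comm (B + 2), mul_assoc]
    exact Nat.mul_le_mul_left _ (by omega)
  have h3 : ρ * |iteratedDeriv l (fun y => s y - y) z| ≤ C₇ * ν ^ (B + 2) * ρ ^ l :=
    h1.trans (mul_le_mul_of_nonneg_right (mul_le_mul_of_nonneg_left h2 hC₇.le) (by positivity))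
  have hρ' : ρ = ν / a := by rw [← c.ρa]; field_simp
  have h4 : C₇ * ν ^ (B + 2) * ρ ^ l ≤ ρ * (ν ^ B * a / a ^ l) := by
    have h5 : ν ^ l ≤ 1 := pow_le_one₀ hνpos.le hν1
    have h6 : ρ * (ν ^ B * a / a ^ l) = ν ^ (B + 1) / a ^ l := by
      rw [hρ']; field_simp; ring
    have h7 : C₇ * ν ^ (B + 2) * ρ ^ l = (C₇ * ν) * ν ^ l * (ν ^ (B + 1) / a ^ l) := by
      rw [hρ', div_pow]; field_simp; ring
    rw [h6, h7]
    have h8 : C₇ * ν * ν ^ l ≤ 1 := by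
      have h10 : 0 ≤ ν ^ l := by positivity
      calc C₇ * ν * ν ^ l ≤ 1 * 1 := mul_le_mul c5 h5 h10 zero_le_one
        _ = 1 := one_mul 1
    have h9 : 0 ≤ ν ^ (B + 1) / a ^ l := by positivity
    exact mul_le_of_le_one_left h9 h8
  exact le_of_mul_le_mul_left (h3.trans h4) hρ

end Pool.Agent.F88.LL

namespace Pool.Agent.F88

open LL in
theorem local_lemma_of (hField : FieldStmt) (r m B : ℕ) : ∃ B₂ : ℕ, ∀ B₁ : ℕ, ∃ n K : ℕ, ∀ C : ℝ, ∃ ν₀ : ℝ, 0 < ν₀ ∧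
    ∀ (S u : Dif) (x₀ a ν θ η : ℝ), Commute S u → 0 < a → 0 < ν → ν ≤ ν₀ → 0 < η → η < θ →
    x₀ < S x₀ →
    (∀ a' b' : ℤ, 0 < a' * θ + b' * η →
      ∀ z ∈ Icc ((S ^ (-(K : ℤ))) x₀) ((S ^ (K : ℤ)) x₀), z < (S ^ a' * u ^ b') z) →
    (∀ z ∈ Icc ((S ^ (-(K : ℤ))) x₀) ((S ^ (K : ℤ)) x₀),
      a / 2 ≤ S z - z ∧ S z - z ≤ 2 * a ∧
      (∀ l ≤ n, |iteratedDeriv l (fun y => S y - y) z| ≤ C * a * (ν / a) ^ l) ∧
      ∀ l, 1 ≤ l → l ≤ n → |iteratedDeriv l (S⁻¹ : Dif) z| ≤ C * (ν / a) ^ (l - 1) ∧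
        |iteratedDeriv l u z| ≤ C * (ν / a) ^ (l - 1) ∧
        |iteratedDeriv l (u⁻¹ : Dif) z| ≤ C * (ν / a) ^ (l - 1)) →
    (∀ a' b' : ℤ, |(b' : ℝ)| ≤ (1 / ν) ^ B₁ → |a' * θ + b' * η| ≤ 2 * θ →
      ∀ z ∈ Icc ((S ^ (-(m : ℤ))) x₀) ((S ^ (m : ℤ)) x₀),
        1 / 2 ≤ deriv (S ^ a' * u ^ b' : Dif) z ∧ deriv (S ^ a' * u ^ b' : Dif) z ≤ 2) ∧
    (∀ a' b' : ℤ, |(b' : ℝ)| ≤ (1 / ν) ^ B₁ → |a' * θ + b' * η| ≤ ν ^ B₂ * θ →
      ∀ z ∈ Icc ((S ^ (-(m : ℤ))) x₀) ((S ^ (m : ℤ)) x₀), ∀ l ≤ r,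
        |iteratedDeriv l (fun y => (S ^ a' * u ^ b') y - y) z| ≤ ν ^ B * a / a ^ l) := by
  refine ⟨2 ^ (r + 1) * (B + 3), fun B₁ => ?_⟩
  set B₂ : ℕ := 2 ^ (r + 1) * (B + 3) with hB₂
  set k₁ : ℕ := B₁ + B₂ + 4 with hk₁
  refine ⟨r + 2 ^ r * k₁ + 3, m + 2 ^ r * k₁ + 20, fun C => ?_⟩
  have hCc : 1 ≤ |C| + 2 := by linarith [abs_nonneg C]
  obtain ⟨C', Cε, ν₁, hC', hCε, hν₁, hctx⟩ := ctx_of_hyp hField r k₁ m (by omega) (|C| + 2) hCc
  obtain ⟨ν₂, hν₂, hmain⟩ := main_ctx r B B₁ B₂ m hB₂ C' Cε hCε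
  refine ⟨min 1 (min ν₁ ν₂), by positivity, ?_⟩
  intro S u x₀ a ν θ η hcomm ha hν hνle hη hηθ hlt hpos hwin
  have hν1 : ν ≤ 1 := hνle.trans (min_le_left _ _)
  have hνν₁ : ν ≤ ν₁ := hνle.trans ((min_le_right _ _).trans (min_le_left _ _))
  have hνν₂ : ν ≤ ν₂ := hνle.trans ((min_le_right _ _).trans (min_le_right _ _))
  have hρ : 0 < ν / a := by positivity
  have hρa : ν / a * a = ν := by field_simp
  have hCle : C ≤ |C| + 2 := by linarith [le_abs_self C]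
  set n : ℕ := r + 2 ^ r * k₁ + 3 with hn
  have hH : Hyp S u x₀ a (ν / a) ν θ η (|C| + 2) n (m + 2 ^ r * k₁ + 20 : ℕ) := by
    refine { win := ?_, comm := hcomm, η_pos := hη, η_lt := hηθ, pos := hpos, letter := ?_ }
    · refine { lt := hlt, a_pos := ha, ρ_pos := hρ, ν_pos := hν, ν_le := hν1, ρa := hρa,
               C_ge := hCc, lo := fun z hz => (hwin z hz).1, hi := fun z hz => (hwin z hz).2.1,
               der := fun z hz l hl => ((hwin z hz).2.2.1 l hl).trans ?_ }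
      gcongr
    · intro g hg z hz l hl1 hl2
      obtain ⟨-, -, h1, h2⟩ := hwin z hz
      obtain ⟨h3, h4, h5⟩ := h2 l hl1 hl2
      rcases hg with rfl | rfl | rfl | rfl
      · -- the letter `S`
        obtain ⟨j, rfl⟩ : ∃ j, l = j + 1 := ⟨l - 1, by omega⟩
        have h6 := h1 (j + 1) hl2
        have h7 : iteratedDeriv (j + 1) (fun y => g y - y) z =
            iteratedDeriv (j + 1) g z - iteratedDeriv (j + 1) (fun y => y) z := by
          have h3 : ContDiffAt ℝ (j + 1 : ℕ) (fun y => g y) z :=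
            g.contDiff.contDiffAt.of_le (by exact_mod_cast le_top)
          have h4 : ContDiffAt ℝ (j + 1 : ℕ) (fun y : ℝ => y) z := contDiffAt_id
          exact iteratedDeriv_fun_sub h3 h4
        have h8 : C * a * (ν / a) ^ (j + 1) = C * ν * (ν / a) ^ j := by
          rw [pow_succ]; field_simp
        have h9 : |iteratedDeriv (j + 1) (fun y : ℝ => y) z| ≤ (ν / a) ^ j := by
          rw [iteratedDeriv_succ']
          have h6 : deriv (fun y : ℝ => y) = fun _ => (1 : ℝ) := by funext y; simp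
          rw [h6]
          rcases Nat.eq_zero_or_pos j with rfl | hj
          · simp
          · rw [iteratedDeriv_const]
            simp [hj.ne']
            positivity
        rw [h7, h8] at h6
        rw [Nat.add_sub_cancel]
        have h10 : |iteratedDeriv (j + 1) g z| ≤ C * ν * (ν / a) ^ j + (ν / a) ^ j := by
          have := abs_sub_abs_le_abs_sub (iteratedDeriv (j + 1) g z)
            (iteratedDeriv (j + 1) (fun y => y) z)
          linarith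
        refine h10.trans ?_
        have h11 : 0 ≤ (ν / a) ^ j := by positivity
        have h12 : C * ν ≤ |C| := by
          calc C * ν ≤ |C| * ν := mul_le_mul_of_nonneg_right (le_abs_self C) hν.le
            _ ≤ |C| * 1 := mul_le_mul_of_nonneg_left hν1 (abs_nonneg C)
            _ = |C| := mul_one _
        nlinarith
      · exact h3.trans (mul_le_mul_of_nonneg_right hCle (by positivity))
      · exact h4.trans (mul_le_mul_of_nonneg_right hCle (by positivity))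
      · exact h5.trans (mul_le_mul_of_nonneg_right hCle (by positivity))
  obtain ⟨X, hX⟩ := hctx S u x₀ a (ν / a) ν θ η hH hνν₁
  exact hmain S u X x₀ a (ν / a) ν θ η hX hνν₂

end Pool.Agent.F88
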