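import Pool.Agent.Lib.MP_f88c17.LLAb
import Pool.Agent.Lib.MP_f88c17.LLB
import Pool.Agent.Lib.MP_f88c17.CaseP

/-!
# The local lemma, and case P
-/

set_option autoImplicit false

open Set Filter Topology
open scoped ContDiff

namespace Pool.Agent.F88

theorem local_lemma (r m B : ℕ) : ∃ B₂ : ℕ, ∀ B₁ : ℕ, ∃ n K : ℕ, ∀ C : ℝ, ∃ ν₀ : ℝ, 0 < ν₀ ∧
    ∀ (S u : Dif) (x₀ a ν θ η : ℝ), Commute S u → 0 < a → 0 < ν → ν ≤ ν₀ → 0 < η → η < θ →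
    x₀ < S x₀ →
    (∀ a' b' : ℤ, 0 < a' * θ + b' * η →
      ∀ z ∈ Icc ((S ^ (-(K : ℤ))) x₀) ((S ^ (K : ℤ)) x₀), z < (S ^ a' * u ^ b') z) →
    (∀ z ∈ Icc ((S ^ (-(K : ℤ))) x₀) ((S ^ (K : ℤ)) x₀),
      a / 2 ≤ S z - z ∧ S z - z ≤ 2 * a ∧
      (∀ l ≤ n, |iteratedDeriv l (fun y => S y - y) z| ≤ C * a * (ν / a) ^ l) ∧
      ∀ l, 1 ≤ l → l ≤ n → |iteratedDeriv l (S⁻¹ : Dif) z| ≤ C * (ν / a) ^ (l - 1) ∧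
        |iteratedDeriv l u z| ≤ C * (ν / a) ^ (l - 1) ∧
        |iteratedDeriv l (u⁻¹ : Dif) z| ≤ C * (ν / a) ^ (l - 1)) →
    (∀ a' b' : ℤ, |(b' : ℝ)| ≤ (1 / ν) ^ B₁ → |a' * θ + b' * η| ≤ 2 * θ →
      ∀ z ∈ Icc ((S ^ (-(m : ℤ))) x₀) ((S ^ (m : ℤ)) x₀),
        1 / 2 ≤ deriv (S ^ a' * u ^ b' : Dif) z ∧ deriv (S ^ a' * u ^ b' : Dif) z ≤ 2) ∧
    (∀ a' b' : ℤ, |(b' : ℝ)| ≤ (1 / ν) ^ B₁ → |a' * θ + b' * η| ≤ ν ^ B₂ * θ →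
      ∀ z ∈ Icc ((S ^ (-(m : ℤ))) x₀) ((S ^ (m : ℤ)) x₀), ∀ l ≤ r,
        |iteratedDeriv l (fun y => (S ^ a' * u ^ b') y - y) z| ≤ ν ^ B * a / a ^ l) :=
  local_lemma_of (fun k n hk C => LL.exists_field k n hk C) r m B

variable {F G : Dif} {α β : ℝ}

theorem caseP (h : Free F G α β) (t : Tower F G α β) (C₁ : ℕ)
    (hP : ∃ i₀, ∀ i ≥ i₀, t.μ i ^ C₁ ≤ t.μ (i + 1)) (r : ℕ) (ε : ℝ) (hε : 0 < ε) :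
    ∃ (s : Dif) (τs : ℝ), HasTau F G α β s τs ∧ s ≠ 1 ∧
      ∀ l ≤ r, ∀ x, |iteratedDeriv l (fun y => s y - y) x| ≤ ε :=
  caseP_of (fun r m B => local_lemma r m B) h t C₁ hP r ε hε

end Pool.Agent.F88
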