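import Pool.Agent.Lib.MP_f88c17.CaseD1
import Pool.Agent.Lib.MP_f88c17.GEO2
import Pool.Agent.Lib.MP_f88c17.LL
import Pool.Agent.Lib.MP_f88c17.TW

/-!
# Case D, second part: elementary analysis, use of the local lemma
-/

set_option autoImplicit false

open Set Filter Topology
open scoped ContDiff

namespace Pool.Agent.F88.CaseD

/-- a nonnegative function with bounded second derivative -/
theorem pos_trick {h : ℝ → ℝ} {A : ℝ} (hh : ContDiff ℝ ∞ h) (hA : 0 < A)
    (h0 : ∀ x, 0 ≤ h x) (h2 : ∀ x, |iteratedDeriv 2 h x| ≤ A) (x : ℝ) :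
    (deriv h x) ^ 2 ≤ 4 * A * h x := by
  have hd : Differentiable ℝ h := hh.differentiable (by simp)
  have hd1 : ContDiff ℝ ∞ (deriv h) := by
    have : ContDiff ℝ (∞ + 1) h := by simpa using hh
    exact (contDiff_succ_iff_deriv.1 this).2.2
  have hd2 : Differentiable ℝ (deriv h) := hd1.differentiable (by simp)
  have hl : ∀ y, |deriv h y - deriv h x| ≤ A * |y - x| := by
    intro y
    have := Convex.norm_image_sub_le_of_norm_deriv_le (𝕜 := ℝ) (f := deriv h) (C := A)
      (s := univ) (x := x) (y := y) (fun z _ => hd2 z) (fun z _ => by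
        have := h2 z
        rw [iteratedDeriv_succ, iteratedDeriv_one] at this
        exact this) convex_univ (mem_univ _) (mem_univ _)
    simpa using this
  set t : ℝ := - deriv h x / (2 * A) with ht
  have hg : |(h (x + t) - deriv h x * (x + t)) - (h x - deriv h x * x)| ≤ (A * |t|) * |t| := by
    have := Convex.norm_image_sub_le_of_norm_deriv_le (𝕜 := ℝ)
      (f := fun y => h y - deriv h x * y) (C := A * |t|)
      (s := uIcc x (x + t)) (x := x) (y := x + t) (fun z _ => by fun_prop) (fun z hz => by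
        have e : deriv (fun y => h y - deriv h x * y) z = deriv h z - deriv h x := by
          have h1 : HasDerivAt (fun y => h y - deriv h x * y) (deriv h z - deriv h x * 1) z :=
            (hd z).hasDerivAt.sub ((hasDerivAt_id z).const_mul _)
          simpa using h1.deriv
        rw [e]
        refine (hl z).trans (mul_le_mul_of_nonneg_left ?_ hA.le)
        have := abs_sub_left_of_mem_uIcc hz
        simpa using this) (convex_uIcc _ _) left_mem_uIcc right_mem_uIcc
    simpa using this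
  have h3 := h0 (x + t)
  have h4 := (abs_le.1 hg).2
  have h5 : |t| * |t| = t ^ 2 := by rw [abs_mul_abs_self]; ring
  have h6 : h (x + t) ≤ h x + deriv h x * t + A * t ^ 2 := by
    have : A * |t| * |t| = A * t ^ 2 := by rw [mul_assoc, h5]
    nlinarith
  have h7 : h x + deriv h x * t + A * t ^ 2 = h x - (deriv h x) ^ 2 / (4 * A) := by
    rw [ht]; field_simp; ring
  have h8 : (deriv h x) ^ 2 / (4 * A) ≤ h x := by linarith
  rw [div_le_iff₀ (by positivity)] at h8
  linarith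

theorem sqrt_lip {φ : ℝ → ℝ} {A : ℝ} (hφ : ContDiff ℝ ∞ φ)
    (hpos : ∀ x, 0 < φ x) (hd : ∀ x, (deriv φ x) ^ 2 ≤ 4 * A * φ x) (x y : ℝ) :
    |√(φ x) - √(φ y)| ≤ √A * |x - y| := by
  have hdf : Differentiable ℝ φ := hφ.differentiable (by simp)
  have h1 : ∀ z, HasDerivAt (fun z => √(φ z)) (deriv φ z / (2 * √(φ z))) z := fun z =>
    (hdf z).hasDerivAt.sqrt (hpos z).ne'
  have := Convex.norm_image_sub_le_of_norm_deriv_le (𝕜 := ℝ) (f := fun z => √(φ z)) (C := √A)
    (s := univ) (x := y) (y := x) (fun z _ => (h1 z).differentiableAt) (fun z _ => by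
      rw [(h1 z).deriv, Real.norm_eq_abs]
      apply Real.abs_le_sqrt
      rw [div_pow, mul_pow, Real.sq_sqrt (hpos z).le, div_le_iff₀ (by have := hpos z; positivity)]
      have := hd z
      linarith) convex_univ (mem_univ _) (mem_univ _)
  simpa using this

theorem near_window {φ : ℝ → ℝ} {A a w ρ : ℝ}
    (hl : ∀ x y, |√(φ x) - √(φ y)| ≤ √A * |x - y|) (hpos : ∀ x, 0 < φ x)
    (ha : φ w = a) (hρ : √A * ρ ≤ √a / 10) (z : ℝ) (hz : |z - w| ≤ ρ) :
    a / 2 ≤ φ z ∧ φ z ≤ 2 * a := by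
  have ha0 : 0 < a := ha ▸ hpos w
  have h1 : |√(φ z) - √a| ≤ √a / 10 := by
    rw [← ha]
    refine (hl z w).trans (le_trans (mul_le_mul_of_nonneg_left hz (Real.sqrt_nonneg _)) ?_)
    rw [ha]; exact hρ
  have h2 : 0 < √a := Real.sqrt_pos.2 ha0
  obtain ⟨h3, h4⟩ := abs_le.1 h1
  have e1 : (√(φ z)) ^ 2 = φ z := Real.sq_sqrt (hpos z).le
  have e2 : (√a) ^ 2 = a := Real.sq_sqrt ha0.le
  constructor <;> nlinarith

theorem zpow_succ_apply (S : Dif) (j : ℤ) (w : ℝ) : (S ^ (j + 1)) w = S ((S ^ j) w) := by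
  rw [← Dif.mul_apply, ← zpow_one_add, add_comm]

theorem orbit_window {S : Dif} {w a : ℝ} {K : ℕ}
    (ha : 0 < a) (hw : ∀ z, |z - w| ≤ 2 * K * a → S z - z ≤ 2 * a) (j : ℕ) (hj : j ≤ K) :
    w - 2 * j * a ≤ (S ^ (-(j : ℤ))) w ∧ (S ^ (j : ℤ)) w ≤ w + 2 * j * a := by
  induction j with
  | zero => simp
  | succ j ih =>
    obtain ⟨h1, h2⟩ := ih (by omega)
    have hK : (j : ℝ) + 1 ≤ K := by exact_mod_cast hj
    have hja : (0 : ℝ) ≤ (j : ℝ) := by positivity
    constructor
    · have e : (S ^ (-((j + 1 : ℕ) : ℤ))) w = S⁻¹ ((S ^ (-(j : ℤ))) w) := by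
        rw [← Dif.mul_apply, ← zpow_neg_one, ← zpow_add]
        congr 2
        push_cast; ring_nf
      rw [e, Dif.le_inv_iff]
      set y := w - 2 * (j + 1 : ℕ) * a with hy
      have h3 : S y - y ≤ 2 * a := by
        apply hw
        rw [hy]
        push_cast
        rw [abs_le]
        constructor
        · nlinarith
        · nlinarith
      have h4 : y + 2 * a = w - 2 * j * a := by rw [hy]; push_cast; ring
      linarith
    · have e : (S ^ (((j + 1 : ℕ) : ℤ))) w = S ((S ^ (j : ℤ)) w) := by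
        rw [← Dif.mul_apply]
        rw [← zpow_one_add]
        congr 2; push_cast; ring_nf
      rw [e]
      set y := w + 2 * j * a with hy
      have h3 : S y - y ≤ 2 * a := by
        apply hw
        rw [hy, abs_le]
        constructor
        · nlinarith
        · nlinarith
      have h4 : S ((S ^ (j : ℤ)) w) ≤ S y := (Dif.le_iff S).2 h2
      push_cast
      linarith

theorem orbit_window' {S : Dif} {w a : ℝ} {K : ℕ}
    (ha : 0 < a) (hw : ∀ z, |z - w| ≤ 2 * K * a → S z - z ≤ 2 * a) (j : ℕ) (hj : j ≤ K)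
    {z : ℝ} (hz : z ∈ Icc ((S ^ (-(j : ℤ))) w) ((S ^ (j : ℤ)) w)) : |z - w| ≤ 2 * K * a := by
  obtain ⟨h1, h2⟩ := orbit_window ha hw j hj
  have hK : (j : ℝ) ≤ K := by exact_mod_cast hj
  obtain ⟨h3, h4⟩ := hz
  rw [abs_le]
  constructor <;> nlinarith

theorem iter_sub_id {g : ℝ → ℝ} (hg : ContDiff ℝ ∞ g) {l : ℕ} (hl : 2 ≤ l) (x : ℝ) :
    iteratedDeriv l (fun y => g y - y) x = iteratedDeriv l g x := by
  obtain ⟨m, rfl⟩ := Nat.exists_eq_add_of_le hl
  have hd : Differentiable ℝ g := hg.differentiable (by simp)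
  have e1 : deriv (fun y => g y - y) = fun y => deriv g y - 1 := by
    funext y
    have h1 : HasDerivAt (fun y => g y - y) (deriv g y - 1) y :=
      (hd y).hasDerivAt.sub (hasDerivAt_id y)
    exact h1.deriv
  have e2 : deriv (fun y => deriv g y - 1) = deriv (deriv g) := by
    funext y
    exact deriv_sub_const (f := deriv g) (x := y) (1 : ℝ)
  rw [show 2 + m = (m + 1) + 1 by ring, iteratedDeriv_succ', iteratedDeriv_succ', e1, e2,
    iteratedDeriv_succ', iteratedDeriv_succ']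

theorem iter_id_sub {g : ℝ → ℝ} (hg : ContDiff ℝ ∞ g) {l : ℕ} (hl : 2 ≤ l) (x : ℝ) :
    iteratedDeriv l (fun y => y - g y) x = - iteratedDeriv l g x := by
  rw [← iter_sub_id hg hl, ← iteratedDeriv_fun_neg]
  congr 1
  funext y
  ring

theorem deriv_sub_id {g : ℝ → ℝ} (hg : ContDiff ℝ ∞ g) (x : ℝ) :
    deriv (fun y => g y - y) x = deriv g x - 1 := by
  have hd : Differentiable ℝ g := hg.differentiable (by simp)
  exact ((hd x).hasDerivAt.sub (hasDerivAt_id x)).deriv

theorem deriv_id_sub {g : ℝ → ℝ} (hg : ContDiff ℝ ∞ g) (x : ℝ) :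
    deriv (fun y => y - g y) x = 1 - deriv g x := by
  have hd : Differentiable ℝ g := hg.differentiable (by simp)
  exact ((hasDerivAt_id x).sub (hd x).hasDerivAt).deriv

/-- scale inequalities -/
theorem scale1 {μ a : ℝ} (hμ : 0 < μ) (hμ1 : μ ≤ 1) (ha : 0 < a) (ha4 : a ≤ μ ^ 4) {l : ℕ}
    (hl : 2 ≤ l) : (1 / μ) ^ l ≤ a * (μ / a) ^ l := by
  obtain ⟨k, rfl⟩ := Nat.exists_eq_add_of_le hl
  have h1 : a ^ (k + 1) ≤ μ ^ (2 * k + 4) := by
    calc a ^ (k + 1) ≤ (μ ^ 4) ^ (k + 1) := pow_le_pow_left₀ ha.le ha4 _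
      _ = μ ^ (4 * k + 4) := by rw [← pow_mul]; rfl
      _ ≤ μ ^ (2 * k + 4) := pow_le_pow_of_le_one hμ.le hμ1 (by omega)
  rw [div_pow, div_pow, one_pow, mul_div_assoc', div_le_div_iff₀ (by positivity) (by positivity)]
  calc 1 * a ^ (2 + k) = a * a ^ (k + 1) := by ring
    _ ≤ a * μ ^ (2 * k + 4) := mul_le_mul_of_nonneg_left h1 ha.le
    _ = a * μ ^ (2 + k) * μ ^ (2 + k) := by ring

theorem scale2 {μ a : ℝ} (hμ : 0 < μ) (hμ1 : μ ≤ 1) (ha : 0 < a) (ha4 : a ≤ μ ^ 4) {l : ℕ}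
    (hl : 2 ≤ l) : (1 / μ) ^ l ≤ (μ / a) ^ (l - 1) := by
  obtain ⟨k, rfl⟩ := Nat.exists_eq_add_of_le hl
  have h1 : a ^ (k + 1) ≤ μ ^ (2 * k + 3) := by
    calc a ^ (k + 1) ≤ (μ ^ 4) ^ (k + 1) := pow_le_pow_left₀ ha.le ha4 _
      _ = μ ^ (4 * k + 4) := by rw [← pow_mul]; rfl
      _ ≤ μ ^ (2 * k + 3) := pow_le_pow_of_le_one hμ.le hμ1 (by omega)
  have e : 2 + k - 1 = k + 1 := by omega
  rw [e, div_pow, div_pow, one_pow, div_le_div_iff₀ (by positivity) (by positivity)]
  calc 1 * a ^ (k + 1) = a ^ (k + 1) := one_mul _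
    _ ≤ μ ^ (2 * k + 3) := h1
    _ = μ ^ (k + 1) * μ ^ (2 + k) := by ring

theorem local_at (r B : ℕ) : ∃ B₂ : ℕ, ∀ B₁ : ℕ, ∃ n : ℕ, 2 ≤ n ∧ ∀ D : ℝ, 1 ≤ D →
    ∃ μ₀ : ℝ, 0 < μ₀ ∧
    ∀ (S u : Dif) (w a μ θ η : ℝ), Commute S u → 0 < μ → μ ≤ μ₀ → 0 < η → η < θ →
    (∀ x, x < S x) → (∀ x, x < u x ∧ u x < S x) →
    (∀ a' b' : ℤ, 0 < a' * θ + b' * η → ∀ z, z < (S ^ a' * u ^ b') z) →
    (∀ z l, 1 ≤ l → l ≤ n → |iteratedDeriv l S z| ≤ D * (1 / μ) ^ l ∧
       |iteratedDeriv l (S⁻¹ : Dif) z| ≤ D * (1 / μ) ^ l ∧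
       |iteratedDeriv l u z| ≤ D * (1 / μ) ^ l ∧
       |iteratedDeriv l (u⁻¹ : Dif) z| ≤ D * (1 / μ) ^ l) →
    S w - w = a → a ≤ μ ^ 4 →
    ∀ a' b' : ℤ, |(b' : ℝ)| ≤ (1 / μ) ^ B₁ → |a' * θ + b' * η| ≤ μ ^ B₂ * θ →
      ∀ z ∈ Icc ((S ^ (-(5 : ℤ))) w) ((S ^ (5 : ℤ)) w), a / 2 ≤ S z - z ∧ ∀ l ≤ r,
        |iteratedDeriv l (fun y => (S ^ a' * u ^ b') y - y) z| ≤ μ ^ B * a / a ^ l := by
  obtain ⟨B₂, hB₂⟩ := local_lemma r 5 B
  refine ⟨B₂, fun B₁ => ?_⟩
  obtain ⟨n, K, h⟩ := hB₂ B₁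
  refine ⟨max n 2, le_max_right _ _, fun D hD => ?_⟩
  obtain ⟨ν₀, hν₀, h⟩ := h (8 * D)
  refine ⟨min ν₀ (1 / (20 * (K + 6) * D)), by positivity, ?_⟩
  intro S u w a μ θ η hSu hμ hμ₀ hη hηθ hS hu hord hder hwa ha4 a' b' hb' hab
  have hμν : μ ≤ ν₀ := hμ₀.trans (min_le_left _ _)
  have hμK : μ ≤ 1 / (20 * (K + 6) * D) := hμ₀.trans (min_le_right _ _)
  have hKpos : (0 : ℝ) ≤ K := Nat.cast_nonneg K
  have hμK' : 20 * (K + 6) * D * μ ≤ 1 := by
    rw [le_div_iff₀ (by positivity)] at hμK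
    linarith
  have hμD : 8 * D * μ ≤ 1 := by nlinarith
  have hμ1 : μ ≤ 1 := by nlinarith
  have ha : 0 < a := by have := hS w; linarith
  set A : ℝ := D * (1 / μ) ^ 2 with hA
  have hApos : 0 < A := by positivity
  set φ : ℝ → ℝ := fun y => S y - y with hφ
  have hφpos : ∀ x, 0 < φ x := fun x => by have := hS x; simp only [hφ]; linarith
  have hφs : ContDiff ℝ ∞ φ := S.contDiff.sub contDiff_id
  have hφ2 : ∀ x, |iteratedDeriv 2 φ x| ≤ A := fun x => by
    rw [hφ, iter_sub_id S.contDiff le_rfl]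
    exact (hder x 2 (by norm_num) (le_max_right _ _)).1
  have hφd : ∀ x, (deriv φ x) ^ 2 ≤ 4 * A * φ x :=
    pos_trick hφs hApos (fun x => (hφpos x).le) hφ2
  have hlip := sqrt_lip hφs hφpos hφd
  have hsa : √a ≤ μ ^ 2 := by
    rw [Real.sqrt_le_left (by positivity)]
    calc a ≤ μ ^ 4 := ha4
      _ = (μ ^ 2) ^ 2 := by ring
  have hsA : √A = √D * (1 / μ) := by
    rw [hA, Real.sqrt_mul (by linarith), Real.sqrt_sq (by positivity)]
  have hsD : √D ≤ D := by
    rw [Real.sqrt_le_left (by linarith)]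
    nlinarith
  have hsapos : 0 < √a := Real.sqrt_pos.2 ha
  have hρ : √A * (2 * (K + 6 : ℕ) * a) ≤ √a / 10 := by
    have e1 : a = √a * √a := (Real.mul_self_sqrt ha.le).symm
    have h1 : √A * (2 * (K + 6) * √a) ≤ 1 / 10 := by
      rw [hsA]
      calc √D * (1 / μ) * (2 * (K + 6) * √a) ≤ D * (1 / μ) * (2 * (K + 6) * μ ^ 2) := by
            gcongr
        _ = (20 * (K + 6) * D * μ) / 10 := by field_simp; ring
        _ ≤ 1 / 10 := by linarith
    push_cast
    calc √A * (2 * (K + 6) * a) = √A * (2 * (K + 6) * (√a * √a)) := by rw [← e1]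
      _ = (√A * (2 * (K + 6) * √a)) * √a := by ring
      _ ≤ (1 / 10) * √a := mul_le_mul_of_nonneg_right h1 hsapos.le
      _ = √a / 10 := by ring
  have hwin : ∀ z, |z - w| ≤ 2 * (K + 6 : ℕ) * a → a / 2 ≤ φ z ∧ φ z ≤ 2 * a := fun z hz =>
    near_window hlip hφpos hwa hρ z hz
  have hwin' : ∀ z, |z - w| ≤ 2 * (K + 6 : ℕ) * a → S z - z ≤ 2 * a := fun z hz =>
    (hwin z hz).2
  have hAa : 8 * A * a ≤ 8 * D * μ ^ 2 := by
    rw [hA]
    calc 8 * (D * (1 / μ) ^ 2) * a ≤ 8 * (D * (1 / μ) ^ 2) * μ ^ 4 := by gcongr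
      _ = 8 * D * μ ^ 2 := by field_simp
  have hAa1 : 8 * A * a ≤ 1 := by
    refine hAa.trans ?_
    nlinarith
  have hinvstep : ∀ z ∈ Icc ((S ^ (-(K : ℤ))) w) ((S ^ (K : ℤ)) w),
      a / 2 ≤ φ z ∧ φ z ≤ 2 * a ∧ z - S⁻¹ z ≤ 2 * a := by
    intro z hz
    have h1 := hwin z (orbit_window' ha hwin' K (by omega) hz)
    refine ⟨h1.1, h1.2, ?_⟩
    have h2 : S⁻¹ z ∈ Icc ((S ^ (-((K + 1 : ℕ) : ℤ))) w) ((S ^ ((K + 1 : ℕ) : ℤ)) w) := by
      obtain ⟨h3, h4⟩ := hz
      constructor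
      · rw [Dif.le_inv_iff]
        have : S ((S ^ (-((K + 1 : ℕ) : ℤ))) w) = (S ^ (-(K : ℤ))) w := by
          rw [← Dif.mul_apply, ← zpow_one_add]
          congr 2; push_cast; ring_nf
        rw [this]; exact h3
      · have : (S ^ (((K + 1 : ℕ) : ℤ))) w = S ((S ^ ((K : ℤ))) w) := by
          rw [← zpow_succ_apply]; push_cast; rfl
        rw [this]
        have h5 := hS ((S ^ (K : ℤ)) w)
        have h6 := hS ((S⁻¹ : Dif) z)
        rw [Dif.apply_inv_self] at h6
        linarith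
    have h3 := hwin _ (orbit_window' ha hwin' (K + 1) (by omega) h2)
    have h4 : φ (S⁻¹ z) = z - S⁻¹ z := by simp [hφ]
    rw [← h4]; exact h3.2
  have key := h S u w a μ θ η hSu ha hμ hμν hη hηθ (hS w)
    (fun a' b' hab z _ => hord a' b' hab z) ?_
  · have key2 := key.2 a' b' hb' hab
    intro z hz
    refine ⟨(hwin z (orbit_window' ha hwin' 5 (by omega) hz)).1, fun l hl => key2 z hz l hl⟩
  · intro z hz
    obtain ⟨h1, h2, h3⟩ := hinvstep z hz
    refine ⟨h1, h2, ?_, ?_⟩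
    · intro l hl
      rcases Nat.lt_or_ge l 2 with hl2 | hl2
      · interval_cases l
        · simp only [iteratedDeriv_zero, pow_zero, mul_one]
          show |φ z| ≤ _
          rw [abs_of_pos (hφpos z)]
          nlinarith
        · rw [iteratedDeriv_one]
          show |deriv φ z| ≤ _
          have e : 8 * D * a * (μ / a) ^ 1 = 8 * D * μ := by field_simp
          rw [e]
          apply abs_le_of_sq_le_sq _ (by positivity)
          calc (deriv φ z) ^ 2 ≤ 4 * A * φ z := hφd z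
            _ ≤ 4 * A * (2 * a) := by gcongr
            _ = 8 * A * a := by ring
            _ ≤ 8 * D * μ ^ 2 := hAa
            _ ≤ (8 * D * μ) ^ 2 := by
              have : 0 < μ ^ 2 := by positivity
              nlinarith
      · rw [iter_sub_id S.contDiff hl2]
        calc |iteratedDeriv l S z| ≤ D * (1 / μ) ^ l :=
              (hder z l (by omega) (hl.trans (le_max_left _ _))).1
          _ ≤ D * (a * (μ / a) ^ l) :=
              mul_le_mul_of_nonneg_left (scale1 hμ hμ1 ha ha4 hl2) (by linarith)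
          _ ≤ 8 * D * a * (μ / a) ^ l := by
              have : 0 ≤ a * (μ / a) ^ l := by positivity
              nlinarith
    · intro l hl1 hln
      have hl' : l ≤ max n 2 := hln.trans (le_max_left _ _)
      rcases Nat.lt_or_ge l 2 with hl2 | hl2
      · have hl3 : l = 1 := by omega
        subst hl3
        simp only [iteratedDeriv_one, Nat.sub_self, pow_zero, mul_one]
        -- a general bound
        have gen : ∀ g : ℝ → ℝ, ContDiff ℝ ∞ g → (∀ x, 0 ≤ g x) →
            (∀ x, |iteratedDeriv 2 g x| ≤ A) → g z ≤ 2 * a → |deriv g z| ≤ 1 := by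
          intro g hg hg0 hg2 hgz
          have h4 := pos_trick hg hApos hg0 hg2 z
          apply abs_le_of_sq_le_sq _ zero_le_one
          calc (deriv g z) ^ 2 ≤ 4 * A * g z := h4
            _ ≤ 4 * A * (2 * a) := by gcongr
            _ = 8 * A * a := by ring
            _ ≤ 1 ^ 2 := by linarith
        have gu := gen (fun y => u y - y) (u.contDiff.sub contDiff_id)
          (fun x => by have := (hu x).1; linarith)
          (fun x => by
            rw [iter_sub_id u.contDiff le_rfl]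
            exact (hder x 2 (by norm_num) (le_max_right _ _)).2.2.1)
          (by have := (hu z).2; simp only [hφ] at h2; linarith)
        rw [deriv_sub_id u.contDiff] at gu
        have gS := gen (fun y => y - (S⁻¹ : Dif) y) (contDiff_id.sub (S⁻¹ : Dif).contDiff)
          (fun x => by
            have := hS ((S⁻¹ : Dif) x)
            rw [Dif.apply_inv_self] at this
            linarith)
          (fun x => by
            rw [iter_id_sub (S⁻¹ : Dif).contDiff le_rfl, abs_neg]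
            exact (hder x 2 (by norm_num) (le_max_right _ _)).2.1)
          h3
        rw [deriv_id_sub (S⁻¹ : Dif).contDiff] at gS
        have gui := gen (fun y => y - (u⁻¹ : Dif) y) (contDiff_id.sub (u⁻¹ : Dif).contDiff)
          (fun x => by
            have := (hu ((u⁻¹ : Dif) x)).1
            rw [Dif.apply_inv_self] at this
            linarith)
          (fun x => by
            rw [iter_id_sub (u⁻¹ : Dif).contDiff le_rfl, abs_neg]
            exact (hder x 2 (by norm_num) (le_max_right _ _)).2.2.2)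
          (by
            have h5 : S⁻¹ z < u⁻¹ z := by
              rw [Dif.inv_lt_iff]
              have := (hu ((u⁻¹ : Dif) z)).2
              rw [Dif.apply_inv_self] at this
              exact this
            linarith)
        rw [deriv_id_sub (u⁻¹ : Dif).contDiff] at gui
        refine ⟨?_, ?_, ?_⟩
        · rw [abs_le] at gS ⊢
          constructor <;> linarith [gS.1, gS.2]
        · rw [abs_le] at gu ⊢
          constructor <;> linarith [gu.1, gu.2]
        · rw [abs_le] at gui ⊢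
          constructor <;> linarith [gui.1, gui.2]
      · have hsc : D * (1 / μ) ^ l ≤ 8 * D * (μ / a) ^ (l - 1) := by
          calc D * (1 / μ) ^ l ≤ D * (μ / a) ^ (l - 1) :=
                mul_le_mul_of_nonneg_left (scale2 hμ hμ1 ha ha4 hl2) (by linarith)
            _ ≤ 8 * D * (μ / a) ^ (l - 1) := by
                have : 0 ≤ (μ / a) ^ (l - 1) := by positivity
                nlinarith
        obtain ⟨_, e2, e3, e4⟩ := hder z l hl1 hl'
        exact ⟨e2.trans hsc, e3.trans hsc, e4.trans hsc⟩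

end Pool.Agent.F88.CaseD
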