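import Pool.Agent.Lib.MP_f88c17.CaseD2

/-!
# Case D, third part: facts on the levels
-/

set_option autoImplicit false

open Set Filter Topology
open scoped ContDiff

namespace Pool.Agent.F88.CaseD

variable {F G : Dif} {α β : ℝ}

theorem μ_pos (t : Tower F G α β) (i : ℕ) : 0 < t.μ i := by
  obtain ⟨x, hx⟩ := t.μ_att i
  rw [← hx]
  have := (t.ld i).pos x
  linarith

theorem N_mul_μ (t : Tower F G α β) (i : ℕ) (k : Fin 4) : (t.N i k : ℝ) * t.μ i ≤ 1 := by
  have h1 := (t.ld i).disj k 0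
  have h2 : ∑ j ∈ Finset.range (t.N i k), t.μ i ≤
      ∑ j ∈ Finset.range (t.N i k),
        ((t.S i) ((gen F G k ^ j) 0) - (gen F G k ^ j) 0) :=
    Finset.sum_le_sum (fun j _ => t.μ_le i _)
  rw [Finset.sum_const, Finset.card_range, nsmul_eq_mul] at h2
  exact h2.trans h1

theorem φ_le_one (t : Tower F G α β) (i : ℕ) (x : ℝ) : t.S i x - x ≤ 1 := by
  have h1 := (t.ld i).disj 0 x
  have h2 : t.S i x - x = (t.S i) ((gen F G 0 ^ 0) x) - (gen F G 0 ^ 0) x := by simp
  rw [h2]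
  refine le_trans ?_ h1
  have h3 : ∀ j ∈ Finset.range (t.N i 0),
      0 ≤ (t.S i) ((gen F G 0 ^ j) x) - (gen F G 0 ^ j) x := fun j _ => by
    have := (t.ld i).pos ((gen F G 0 ^ j) x)
    linarith
  exact Finset.single_le_sum (f := fun j => (t.S i) ((gen F G 0 ^ j) x) - (gen F G 0 ^ j) x)
    h3 (Finset.mem_range.2 (t.N_pos i 0))

theorem μ_le_one (t : Tower F G α β) (i : ℕ) : t.μ i ≤ 1 :=
  (t.μ_le i 0).trans (φ_le_one t i 0)

theorem iterate_ge (t : Tower F G α β) (i : ℕ) (n : ℕ) (x : ℝ) :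
    x + n * t.μ i ≤ (t.S i ^ n) x := by
  induction n with
  | zero => simp
  | succ n ih =>
    rw [pow_succ', Dif.mul_apply]
    have := t.μ_le i ((t.S i ^ n) x)
    push_cast
    linarith

theorem μ_le_θ (h : Free F G α β) (t : Tower F G α β) (i : ℕ) : t.μ i ≤ t.θ i := by
  by_contra hcon
  push Not at hcon
  have hd : 0 < t.μ i - t.θ i := by linarith
  obtain ⟨n, hn⟩ := exists_nat_gt (1 / (t.μ i - t.θ i))
  have h1 := iterate_ge t i n 0
  have h2 : HasTau F G α β (t.S i ^ n) (n * t.θ i) := by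
    have := tau_zpow h.toAct (t.tau i) n
    simpa using this
  have h3 := tau_disp h h2 0
  have hnθ : 0 ≤ (n : ℝ) * t.θ i := mul_nonneg (Nat.cast_nonneg n) (t.θ_pos i).le
  rw [abs_of_nonneg hnθ] at h3
  have h4 := (abs_le.1 h3).2
  rw [div_lt_iff₀ hd] at hn
  nlinarith

theorem θ_anti (t : Tower F G α β) {i j : ℕ} (hij : i ≤ j) : t.θ j ≤ t.θ i := by
  induction hij with
  | refl => exact le_rfl
  | step _ ih => exact (t.θ_lt _).le.trans ih

theorem θ_small (t : Tower F G α β) (k : ℕ) : 2 ^ k * t.θ (5 * k) ≤ t.θ 0 := by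
  induction k with
  | zero => simp
  | succ k ih =>
    have h1 := t.half (5 * k)
    have h2 : 5 * (k + 1) = 5 * k + 5 := by ring
    rw [h2, pow_succ]
    have : (0 : ℝ) < 2 ^ k := by positivity
    nlinarith

theorem μ_small (h : Free F G α β) (t : Tower F G α β) (ε : ℝ) (hε : 0 < ε) :
    ∃ i₀, ∀ i ≥ i₀, t.μ i ≤ ε := by
  obtain ⟨k, hk⟩ := pow_unbounded_of_one_lt (t.θ 0 / ε) (by norm_num : (1 : ℝ) < 2)
  refine ⟨5 * k, fun i hi => ?_⟩
  refine (μ_le_θ h t i).trans ((θ_anti t hi).trans ?_)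
  have h1 := θ_small t k
  rw [div_lt_iff₀ hε] at hk
  have h2 : (0 : ℝ) < 2 ^ k := by positivity
  by_contra hcon
  push Not at hcon
  nlinarith

/-- powers of the generators, up to the first return -/
def Small (t : Tower F G α β) (i : ℕ) (g : Dif) : Prop :=
  ∃ a c : ℤ, (|a| ≤ t.N i 0 ∧ g = F ^ a * T ^ c) ∨ (|a| ≤ t.N i 2 ∧ g = G ^ a * T ^ c)

theorem Small.inv (h : Act F G) {t : Tower F G α β} {i : ℕ} {g : Dif} (hg : Small t i g) :
    Small t i g⁻¹ := by
  obtain ⟨a, c, hg⟩ := hg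
  refine ⟨-a, -c, ?_⟩
  rcases hg with ⟨h1, h2⟩ | ⟨h1, h2⟩
  · left
    refine ⟨by rwa [abs_neg], ?_⟩
    have hc : Commute (F ^ (-a)) (T ^ (-c)) := h.FT.zpow_zpow _ _
    rw [h2, mul_inv_rev, ← zpow_neg, ← zpow_neg, hc.eq]
  · right
    refine ⟨by rwa [abs_neg], ?_⟩
    have hc : Commute (G ^ (-a)) (T ^ (-c)) := h.GT.zpow_zpow _ _
    rw [h2, mul_inv_rev, ← zpow_neg, ← zpow_neg, hc.eq]

theorem small_one (t : Tower F G α β) (i : ℕ) : Small t i 1 :=
  ⟨0, 0, Or.inl ⟨by simp, by simp⟩⟩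

theorem iter_comp_T (g : Dif) (c : ℤ) (l : ℕ) (x : ℝ) :
    iteratedDeriv l (g * T ^ c : Dif) x = iteratedDeriv l g (x + c) := by
  have e : ((g * T ^ c : Dif) : ℝ → ℝ) = fun y => g (y + c) := by
    funext y
    rw [Dif.mul_apply, T_zpow_apply]
  rw [e, iteratedDeriv_comp_add_const]

theorem small_bound (h : Act F G) (n : ℕ) : ∃ C : ℝ, 1 ≤ C ∧ ∀ (t : Tower F G α β) (i : ℕ)
    (g : Dif), Small t i g → ∀ x l, 1 ≤ l → l ≤ n →
      |iteratedDeriv l g x| ≤ C * (1 / t.μ i) ^ l := by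
  obtain ⟨C, hC, hgeo⟩ := geo_crude h n
  refine ⟨C, hC, fun t i g hg x l hl hln => ?_⟩
  have hμ := μ_pos t i
  -- powers of generators
  have key : ∀ (k : Fin 4) (j : ℕ), j ≤ t.N i k → ∀ y,
      |iteratedDeriv l (gen F G k ^ j : Dif) y| ≤ C * (1 / t.μ i) ^ l := by
    intro k j hj y
    refine (hgeo _ _ _ _ _ (t.ld i) y k j hj l hl hln).trans ?_
    have h1 := t.μ_le i y
    have h2 : 1 / (t.S i y - y) ≤ 1 / t.μ i := one_div_le_one_div_of_le hμ h1
    have h3 : 0 ≤ 1 / (t.S i y - y) := by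
      apply one_div_nonneg.2
      linarith
    gcongr
  obtain ⟨a, c, hg⟩ := hg
  rcases hg with ⟨ha, rfl⟩ | ⟨ha, rfl⟩
  · rw [iter_comp_T]
    obtain ⟨j, rfl | rfl⟩ := Int.eq_nat_or_neg a
    · rw [zpow_natCast]
      exact key 0 j (by simpa using ha) _
    · have hj : (F ^ (-(j : ℤ)) : Dif) = gen F G 1 ^ j := by
        simp [gen]
      rw [hj]
      refine key 1 j ?_ _
      rw [← t.N01 i]
      simpa using ha
  · rw [iter_comp_T]
    obtain ⟨j, rfl | rfl⟩ := Int.eq_nat_or_neg a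
    · rw [zpow_natCast]
      exact key 2 j (by simpa using ha) _
    · have hj : (G ^ (-(j : ℤ)) : Dif) = gen F G 3 ^ j := by
        simp [gen]
      rw [hj]
      refine key 3 j ?_ _
      rw [← t.N23 i]
      simpa using ha

/-- the two returns at level `i + 1` -/
theorem level_pair (h : Free F G α β) (t : Tower F G α β) (i : ℕ) :
    ∃ (pF pG : ℤ) (u : Dif) (η : ℝ), 0 < η ∧ η < t.θ (i + 1) ∧ HasTau F G α β u η ∧
      |(t.N i 0 : ℝ) * α - pF| ≤ t.θ (i + 1) ∧ |(t.N i 2 : ℝ) * β - pG| ≤ t.θ (i + 1) ∧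
      (∀ a' b' : ℤ, a' * t.θ (i + 1) + b' * η = 0 → b' = 0) ∧
      Small t i (t.S (i + 1)) ∧ Small t i u := by
  obtain ⟨pF, pG, e, he, hr⟩ := t.ret i
  have hθ := t.θ_pos (i + 1)
  have hN0 := t.N_pos i 0
  have hN2 := t.N_pos i 2
  have tF : HasTau F G α β (F ^ (t.N i 0 : ℤ) * T ^ (-pF)) ((t.N i 0 : ℝ) * α - pF) :=
    ⟨t.N i 0, 0, -pF, by simp, by push_cast; ring⟩
  have tG : HasTau F G α β (G ^ (t.N i 2 : ℤ) * T ^ (-pG)) ((t.N i 2 : ℝ) * β - pG) :=
    ⟨0, t.N i 2, -pG, by simp, by push_cast; ring⟩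
  have neF : (t.N i 0 : ℝ) * α - pF ≠ 0 := by
    intro h0
    have := h.indep (t.N i 0) 0 (-pF) (by push_cast; linarith)
    omega
  have neG : (t.N i 2 : ℝ) * β - pG ≠ 0 := by
    intro h0
    have := h.indep 0 (t.N i 2) (-pG) (by push_cast; linarith)
    omega
  have sF : Small t i (F ^ (t.N i 0 : ℤ) * T ^ (-pF)) :=
    ⟨t.N i 0, -pF, Or.inl ⟨by simp, rfl⟩⟩
  have sG : Small t i (G ^ (t.N i 2 : ℤ) * T ^ (-pG)) :=
    ⟨t.N i 2, -pG, Or.inr ⟨by simp, rfl⟩⟩
  -- signs
  have sgn : ∀ (g : Dif) (τ : ℝ), HasTau F G α β g τ → Small t i g → τ ≠ 0 →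
      ∃ e' : ℤ, (e' = 1 ∨ e' = -1) ∧ |τ| = e' * τ ∧ HasTau F G α β (g ^ e') |τ| ∧
        Small t i (g ^ e') := by
    intro g τ hg hs hτ
    rcases lt_or_gt_of_ne hτ with h1 | h1
    · refine ⟨-1, Or.inr rfl, by rw [abs_of_neg h1]; push_cast; ring, ?_, ?_⟩
      · rw [abs_of_neg h1]
        have := tau_inv h.toAct hg
        simpa using this
      · simpa using hs.inv h.toAct
    · refine ⟨1, Or.inl rfl, by rw [abs_of_pos h1]; push_cast; ring, ?_, ?_⟩
      · rw [abs_of_pos h1]; simpa using hg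
      · simpa using hs
  have powe : ∀ g : Dif, Small t i g → Small t i (g ^ e) := by
    intro g hg
    rcases he with rfl | rfl
    · simpa using hg
    · simpa using hg.inv h.toAct
  rcases hr with ⟨hS, hlt⟩ | ⟨hS, hlt⟩
  · obtain ⟨e', he', habs, hu, hus⟩ := sgn _ _ tG sG neG
    have hS' : HasTau F G α β (t.S (i + 1)) (e * ((t.N i 0 : ℝ) * α - pF)) := by
      rw [hS]
      have := tau_zpow h.toAct tF e
      simpa using this
    have hθe := tau_unique h.toAct (t.tau (i + 1)) hS'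
    refine ⟨pF, pG, _, _, abs_pos.2 neG, hlt, hu, ?_, hlt.le, ?_, ?_, hus⟩
    · rcases he with rfl | rfl
      · push_cast at hθe
        rw [one_mul] at hθe
        rw [← hθe, abs_of_pos hθ]
      · push_cast at hθe
        rw [hθe, ← abs_neg]
        have : (-((t.N i 0 : ℝ) * α - pF)) = -1 * ((t.N i 0 : ℝ) * α - pF) := by ring
        rw [this, ← hθe, abs_of_pos hθ]
    · intro a' b' hab
      rw [habs, hθe] at hab
      have := h.indep (a' * e * t.N i 0) (b' * e' * t.N i 2) (-(a' * e * pF) - b' * e' * pG)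
        (by push_cast; linarith)
      have h2 := this.2.1
      rcases he' with rfl | rfl
      · rcases mul_eq_zero.1 h2 with h3 | h3
        · omega
        · omega
      · rcases mul_eq_zero.1 h2 with h3 | h3
        · omega
        · omega
    · rw [hS]
      have := powe _ sF
      simpa using this
  · obtain ⟨e', he', habs, hu, hus⟩ := sgn _ _ tF sF neF
    have hS' : HasTau F G α β (t.S (i + 1)) (e * ((t.N i 2 : ℝ) * β - pG)) := by
      rw [hS]
      have := tau_zpow h.toAct tG e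
      simpa using this
    have hθe := tau_unique h.toAct (t.tau (i + 1)) hS'
    refine ⟨pF, pG, _, _, abs_pos.2 neF, hlt, hu, hlt.le, ?_, ?_, ?_, hus⟩
    · rcases he with rfl | rfl
      · push_cast at hθe
        rw [one_mul] at hθe
        rw [← hθe, abs_of_pos hθ]
      · push_cast at hθe
        rw [hθe, ← abs_neg]
        have : (-((t.N i 2 : ℝ) * β - pG)) = -1 * ((t.N i 2 : ℝ) * β - pG) := by ring
        rw [this, ← hθe, abs_of_pos hθ]
    · intro a' b' hab
      rw [habs, hθe] at hab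
      have := h.indep (b' * e' * t.N i 0) (a' * e * t.N i 2) (-(a' * e * pG) - b' * e' * pF)
        (by push_cast; linarith)
      have h2 := this.1
      rcases he' with rfl | rfl
      · rcases mul_eq_zero.1 h2 with h3 | h3
        · omega
        · omega
      · rcases mul_eq_zero.1 h2 with h3 | h3
        · omega
        · omega
    · rw [hS]
      have := powe _ sG
      simpa using this

/-- transport of the displacement by a commuting map with bounded derivative -/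
theorem disp_le {S g : Dif} {D : ℝ} (hc : Commute S g)
    (hg : ∀ x, |deriv g x| ≤ D) (x : ℝ) (hx : x < S x) : S (g x) - g x ≤ D * (S x - x) := by
  have h1 := Convex.norm_image_sub_le_of_norm_deriv_le (𝕜 := ℝ) (f := fun y => g y) (C := D)
    (s := univ) (x := x) (y := S x) (fun z _ => g.differentiable z) (fun z _ => hg z)
    convex_univ (mem_univ _) (mem_univ _)
  rw [Dif.comm_apply hc]
  rw [Real.norm_eq_abs, Real.norm_eq_abs, abs_of_pos (by linarith : (0:ℝ) < S x - x)] at h1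
  exact (le_abs_self _).trans h1

end Pool.Agent.F88.CaseD
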