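import Pool.Agent.Lib.MP_f88c17.CaseD1

/-!
# Case D, fourth part: counting the centres to the left of a point
-/

set_option autoImplicit false

open Set Filter Topology
open scoped ContDiff

namespace Pool.Agent.F88.CaseD

variable {F G : Dif} {α β : ℝ}

theorem map_add_int {E : Dif} (hE : Commute E T) (y : ℝ) (c : ℤ) : E (y + c) = E y + c := by
  have h1 : Commute E (T ^ c) := hE.zpow_right c
  have h2 := Dif.comm_apply h1 y
  rwa [T_zpow_apply, T_zpow_apply] at h2

theorem ceil_map {E : Dif} (hE : Commute E T) (x y : ℝ) : ⌈E x - E y⌉ = ⌈x - y⌉ := by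
  apply eq_of_forall_lt_iff
  intro c
  rw [Int.lt_ceil, Int.lt_ceil, lt_sub_iff_add_lt, lt_sub_iff_add_lt, add_comm, add_comm (c : ℝ) y,
    ← map_add_int hE, Dif.lt_iff]

theorem card_col (y x : ℝ) (L : ℤ) (hL : |x - y| ≤ L) :
    (((Finset.Ico (-L) L).filter (fun c : ℤ => y + c < x)).card : ℤ) = ⌈x - y⌉ + L := by
  obtain ⟨h1, h2⟩ := abs_le.1 hL
  have h3 : ⌈x - y⌉ ≤ L := Int.ceil_le.2 h2
  have h4 : -L ≤ ⌈x - y⌉ := by
    have := Int.le_ceil (x - y)
    have h5 : ((-L : ℤ) : ℝ) ≤ ⌈x - y⌉ := by push_cast; linarith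
    exact_mod_cast h5
  have h5 : (Finset.Ico (-L) L).filter (fun c : ℤ => y + c < x) = Finset.Ico (-L) ⌈x - y⌉ := by
    ext c
    simp only [Finset.mem_filter, Finset.mem_Ico]
    have h6 : y + c < x ↔ c < ⌈x - y⌉ := by
      rw [Int.lt_ceil, lt_sub_iff_add_lt, add_comm]
    rw [h6]
    omega
  rw [h5, Int.card_Ico]
  omega

/-- the set of centres -/
noncomputable def centres (F G : Dif) (x₀ : ℝ) (NF NG : ℕ) (L : ℤ) : Finset ℝ :=
  ((Finset.range NF ×ˢ Finset.range NG) ×ˢ Finset.Ico (-L) L).image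
    (fun v : (ℕ × ℕ) × ℤ => (el F G v.1.1 v.1.2 v.2) x₀)

theorem el_apply (a b c : ℤ) (h : Act F G) (x : ℝ) : (el F G a b c) x = (el F G a b 0) x + c := by
  have : el F G a b c = el F G 0 0 c * el F G a b 0 := by
    rw [el_mul h]; simp
  rw [this, Dif.mul_apply]
  have h2 : el F G 0 0 c = T ^ c := by simp [el]
  rw [h2, T_zpow_apply]

theorem el_inj_apply (h : Free F G α β) {a b c a' b' c' : ℤ} {x : ℝ}
    (he : (el F G a b c) x = (el F G a' b' c') x) : a = a' ∧ b = b' ∧ c = c' := by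
  have h0 : (a : ℝ) * α + b * β + c = a' * α + b' * β + c' := by
    rcases lt_trichotomy ((a : ℝ) * α + b * β + c) (a' * α + b' * β + c') with h1 | h1 | h1
    · have := tau_lt h (tau_el a b c) (tau_el a' b' c') h1 x
      exact absurd he this.ne
    · exact h1
    · have := tau_lt h (tau_el a' b' c') (tau_el a b c) h1 x
      exact absurd he this.ne'
  have := h.indep (a - a') (b - b') (c - c') (by push_cast; linarith)
  omega

theorem centres_card (h : Free F G α β) (x₀ : ℝ) (NF NG : ℕ) (L : ℤ)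
    (P : ℝ → Prop) [DecidablePred P] :
    ((centres F G x₀ NF NG L).filter P).card =
      ∑ a ∈ Finset.range NF, ∑ b ∈ Finset.range NG,
        ((Finset.Ico (-L) L).filter (fun c : ℤ => P ((el F G a b 0) x₀ + c))).card := by
  unfold centres
  rw [Finset.filter_image, Finset.card_image_of_injOn]
  · rw [Finset.card_filter, Finset.sum_product, Finset.sum_product]
    refine Finset.sum_congr rfl fun a _ => Finset.sum_congr rfl fun b _ => ?_
    rw [Finset.card_filter]
    refine Finset.sum_congr rfl fun c _ => ?_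
    rw [el_apply _ _ _ h.toAct]
  · intro v _ w _ hvw
    obtain ⟨h1, h2, h3⟩ := el_inj_apply h hvw
    ext
    · exact_mod_cast h1
    · exact_mod_cast h2
    · exact h3

theorem count_formula (h : Free F G α β) (x₀ : ℝ) (NF NG : ℕ) (L : ℤ) (x : ℝ)
    (hL : ∀ a b : ℕ, a < NF → b < NG → |x - (el F G a b 0) x₀| ≤ L) :
    (((centres F G x₀ NF NG L).filter (fun z => z < x)).card : ℤ) =
      ∑ a ∈ Finset.range NF, ∑ b ∈ Finset.range NG, (⌈x - (el F G a b 0) x₀⌉ + L) := by
  rw [centres_card h]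
  push_cast
  refine Finset.sum_congr rfl fun a ha => Finset.sum_congr rfl fun b hb => ?_
  exact card_col _ _ _ (hL a b (Finset.mem_range.1 ha) (Finset.mem_range.1 hb))

theorem centres_total (h : Free F G α β) (x₀ : ℝ) (NF NG : ℕ) (L : ℤ) :
    (centres F G x₀ NF NG L).card = NF * NG * (L - -L).toNat := by
  have h1 := centres_card h x₀ NF NG L (fun _ => True)
  simp only [Finset.filter_true, Int.card_Ico] at h1
  rw [h1]
  simp only [Finset.sum_const, Finset.card_range, smul_eq_mul]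
  ring

theorem sum_shift (f : ℤ → ℤ) (N : ℕ) :
    (∑ a ∈ Finset.range N, f ((a : ℤ) - 1)) + f ((N : ℤ) - 1) =
      (∑ a ∈ Finset.range N, f a) + f (-1) := by
  induction N with
  | zero => simp
  | succ N ih =>
    rw [Finset.sum_range_succ, Finset.sum_range_succ]
    have e : (((N + 1 : ℕ) : ℤ) - 1) = N := by push_cast; ring
    rw [e]
    linarith

/-- the count changes by a constant under the first generator -/
theorem shift_count {E : Dif} (hE : Commute E T) (NF NG : ℕ) (y : ℤ → ℤ → ℝ)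
    (hy : ∀ a b, E (y a b) = y (a + 1) b) (x : ℝ) (p L : ℤ)
    (hp : ∀ b : ℕ, b < NG → ⌈x - y (-1) b⌉ - ⌈x - y ((NF : ℤ) - 1) b⌉ = p) :
    ∑ a ∈ Finset.range NF, ∑ b ∈ Finset.range NG, (⌈E x - y a b⌉ + L) =
      (∑ a ∈ Finset.range NF, ∑ b ∈ Finset.range NG, (⌈x - y a b⌉ + L)) + NG * p := by
  have h1 : ∀ a b : ℤ, ⌈E x - y a b⌉ = ⌈x - y (a - 1) b⌉ := by
    intro a b
    have : y a b = E (y (a - 1) b) := by rw [hy]; congr 1; ring
    rw [this, ceil_map hE]
  have h2 := sum_shift (fun a => ∑ b ∈ Finset.range NG, (⌈x - y a b⌉ + L)) NF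
  have h3 : (∑ b ∈ Finset.range NG, (⌈x - y (-1) b⌉ + L)) -
      ∑ b ∈ Finset.range NG, (⌈x - y ((NF : ℤ) - 1) b⌉ + L) = NG * p := by
    rw [← Finset.sum_sub_distrib]
    rw [Finset.sum_congr rfl (fun b hb => by
      rw [show ⌈x - y (-1) b⌉ + L - (⌈x - y ((NF : ℤ) - 1) b⌉ + L) =
        ⌈x - y (-1) b⌉ - ⌈x - y ((NF : ℤ) - 1) b⌉ by ring,
        hp b (Finset.mem_range.1 hb)])]
    simp
  simp only [h1]
  linarith

/-- equality of two ceilings for points not separated by translates of `x` -/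
theorem ceil_eq {g : Dif} {τ θ : ℝ} {S : Dif} (h : Free F G α β) (hg : HasTau F G α β g τ)
    (hS : HasTau F G α β S θ) (hθ : 0 < θ) (hτ : |τ| ≤ θ) (x y : ℝ) (L : ℤ)
    (hgap : ∀ c : ℤ, -L ≤ c → c < L → x < (S ^ (-3 : ℤ)) (y + c) ∨ (S ^ (3 : ℤ)) (y + c) < x)
    (hL : |x - y| + 1 < L) (hg1 : |g y - y| ≤ 1) : ⌈x - y⌉ = ⌈x - g y⌉ := by
  have hgT : Commute g T := tau_commute h.toAct hg (tau_T (α := α) (β := β))
  obtain ⟨h1, h2⟩ := abs_le.1 hτ
  obtain ⟨g1, g2⟩ := abs_le.1 hg1
  have l1 := le_abs_self (x - y)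
  have l2 := neg_abs_le (x - y)
  apply eq_of_forall_lt_iff
  intro c
  rw [Int.lt_ceil, Int.lt_ceil, lt_sub_iff_add_lt, lt_sub_iff_add_lt, add_comm,
    add_comm (c : ℝ) (g y), ← map_add_int hgT]
  by_cases hc1 : c < -L
  · have hc : (c : ℝ) ≤ -L - 1 := by
      have : c ≤ -L - 1 := by omega
      exact_mod_cast this
    rw [map_add_int hgT]
    constructor
    · intro _; linarith
    · intro _; linarith
  by_cases hc2 : L ≤ c
  · have hc : (L : ℝ) ≤ c := by exact_mod_cast hc2
    rw [map_add_int hgT]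
    constructor
    · intro _; linarith
    · intro _; linarith
  push Not at hc1 hc2
  have a1 : (S ^ (-3 : ℤ)) (y + c) < g (y + c) :=
    tau_lt h (tau_zpow h.toAct hS (-3)) hg (by push_cast; linarith) _
  have a2 : (S ^ (-3 : ℤ)) (y + c) < y + c :=
    tau_neg h (tau_zpow h.toAct hS (-3)) (by push_cast; linarith) _
  have a3 : g (y + c) < (S ^ (3 : ℤ)) (y + c) :=
    tau_lt h hg (tau_zpow h.toAct hS 3) (by push_cast; linarith) _
  have a4 : y + c < (S ^ (3 : ℤ)) (y + c) :=
    tau_pos h (tau_zpow h.toAct hS 3) (by push_cast; linarith) _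
  rcases hgap c hc1 hc2 with h5 | h5
  · constructor
    · intro _; linarith
    · intro _; linarith
  · constructor
    · intro _; linarith
    · intro _; linarith

/-- the three counting identities -/
theorem counting (h : Free F G α β) (x₀ : ℝ) (NF NG : ℕ) (L pF pG : ℤ) (S : Dif) (θ : ℝ)
    (hNF : 1 ≤ NF) (hNG : 1 ≤ NG)
    (hS : HasTau F G α β S θ) (hθ : 0 < θ) (hS1 : ∀ x, S x - x ≤ 1)
    (hτF : |(NF : ℝ) * α - pF| ≤ θ) (hτG : |(NG : ℝ) * β - pG| ≤ θ) (x : ℝ)
    (hL : ∀ a b : ℤ, -1 ≤ a → a ≤ NF → -1 ≤ b → b ≤ NG →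
      |x - (el F G a b 0) x₀| + 1 < L ∧ |F x - (el F G a b 0) x₀| + 1 < L ∧
      |G x - (el F G a b 0) x₀| + 1 < L ∧ |T x - (el F G a b 0) x₀| + 1 < L)
    (hgap : ∀ z ∈ centres F G x₀ NF NG L,
      (x < (S ^ (-3 : ℤ)) z ∨ (S ^ (3 : ℤ)) z < x) ∧
      (x < (S ^ (-3 : ℤ)) (F⁻¹ z) ∨ (S ^ (3 : ℤ)) (F⁻¹ z) < x) ∧
      (x < (S ^ (-3 : ℤ)) (G⁻¹ z) ∨ (S ^ (3 : ℤ)) (G⁻¹ z) < x)) :
    (((centres F G x₀ NF NG L).filter (fun z => z < F x)).card : ℤ) =
      ((centres F G x₀ NF NG L).filter (fun z => z < x)).card + NG * pF ∧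
    (((centres F G x₀ NF NG L).filter (fun z => z < G x)).card : ℤ) =
      ((centres F G x₀ NF NG L).filter (fun z => z < x)).card + NF * pG ∧
    (((centres F G x₀ NF NG L).filter (fun z => z < T x)).card : ℤ) =
      ((centres F G x₀ NF NG L).filter (fun z => z < x)).card + NF * NG := by
  have hmem : ∀ (a b : ℕ) (c : ℤ), a < NF → b < NG → -L ≤ c → c < L →
      (el F G a b c) x₀ ∈ centres F G x₀ NF NG L := by
    intro a b c ha hb hc1 hc2
    unfold centres
    rw [Finset.mem_image]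
    exact ⟨((a, b), c), by simp [ha, hb, hc1, hc2], rfl⟩
  have hLx : ∀ a b : ℕ, a < NF → b < NG → |x - (el F G a b 0) x₀| ≤ L := fun a b ha hb => by
    have := (hL a b (by omega) (by omega) (by omega) (by omega)).1
    linarith
  have hLF : ∀ a b : ℕ, a < NF → b < NG → |F x - (el F G a b 0) x₀| ≤ L := fun a b ha hb => by
    have := (hL a b (by omega) (by omega) (by omega) (by omega)).2.1
    linarith
  have hLG : ∀ a b : ℕ, a < NF → b < NG → |G x - (el F G a b 0) x₀| ≤ L := fun a b ha hb => by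
    have := (hL a b (by omega) (by omega) (by omega) (by omega)).2.2.1
    linarith
  have hLT : ∀ a b : ℕ, a < NF → b < NG → |T x - (el F G a b 0) x₀| ≤ L := fun a b ha hb => by
    have := (hL a b (by omega) (by omega) (by omega) (by omega)).2.2.2
    linarith
  have disp1 : ∀ (g : Dif) (τ : ℝ), HasTau F G α β g τ → |τ| ≤ θ → ∀ y, |g y - y| ≤ 1 := by
    intro g τ hg hτ y
    obtain ⟨h1, h2⟩ := abs_le.1 hτ
    have b1 : g y ≤ S y := tau_le h hg hS h2 y
    have b2 : S⁻¹ y ≤ g y := tau_le h (tau_inv h.toAct hS) hg h1 y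
    have b3 := hS1 y
    have b4 := hS1 (S⁻¹ y)
    rw [Dif.apply_inv_self] at b4
    rw [abs_le]
    constructor <;> linarith
  rw [count_formula h x₀ NF NG L x hLx, count_formula h x₀ NF NG L (F x) hLF,
    count_formula h x₀ NF NG L (G x) hLG, count_formula h x₀ NF NG L (T x) hLT]
  refine ⟨?_, ?_, ?_⟩
  · -- F
    refine shift_count h.FT NF NG (fun a b => (el F G a b 0) x₀) ?_ x pF L ?_
    · intro a b
      show F ((el F G a b 0) x₀) = _
      rw [← Dif.mul_apply]
      congr 2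
      have : F * el F G a b 0 = el F G 1 0 0 * el F G a b 0 := by rw [el_F]
      rw [this, el_mul h.toAct]
      congr 1 <;> ring
    · intro b hb
      have htau : HasTau F G α β (el F G NF 0 (-pF)) ((NF : ℝ) * α - pF) :=
        ⟨NF, 0, -pF, rfl, by push_cast; ring⟩
      have hy : (el F G ((NF : ℤ) - 1) b 0) x₀ =
          (el F G NF 0 (-pF)) ((el F G (-1) b 0) x₀) + pF := by
        rw [← Dif.mul_apply, el_mul h.toAct, el_apply _ _ (-pF + 0) h.toAct]
        have e1 : ((NF : ℤ) + -1) = NF - 1 := by ring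
        have e2 : (0 : ℤ) + b = b := by ring
        rw [e1, e2]
        push_cast; ring
      have hy' : x - (el F G ((NF : ℤ) - 1) b 0) x₀ =
          (x - (el F G NF 0 (-pF)) ((el F G (-1) b 0) x₀)) - pF := by rw [hy]; ring
      rw [hy', Int.ceil_sub_intCast]
      rw [← ceil_eq (L := L) h htau hS hθ hτF]
      · ring
      · intro c hc1 hc2
        have h3 := (hgap _ (hmem 0 b c (by omega) hb hc1 hc2)).2.1
        have e3 : F⁻¹ ((el F G ((0 : ℕ) : ℤ) b c) x₀) = (el F G (-1) b 0) x₀ + c := by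
          have e4 : F⁻¹ * el F G ((0 : ℕ) : ℤ) b c = el F G (-1) b c := by
            have : F⁻¹ = el F G (-1) 0 0 := by simp [el]
            rw [this, el_mul h.toAct]
            simp
          rw [← el_apply _ _ _ h.toAct, ← Dif.mul_apply, e4]
        rwa [e3] at h3
      · exact (hL (-1) b (by omega) (by omega) (by omega) (by omega)).1
      · exact disp1 _ _ htau hτF _
  · -- G
    rw [Finset.sum_comm, Finset.sum_comm (s := Finset.range NF)]
    refine shift_count h.GT NG NF (fun b a => (el F G a b 0) x₀) ?_ x pG L ?_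
    · intro b a
      show G ((el F G a b 0) x₀) = _
      rw [← Dif.mul_apply]
      congr 2
      have : G * el F G a b 0 = el F G 0 1 0 * el F G a b 0 := by rw [el_G]
      rw [this, el_mul h.toAct]
      congr 1 <;> ring
    · intro a ha
      have htau : HasTau F G α β (el F G 0 NG (-pG)) ((NG : ℝ) * β - pG) :=
        ⟨0, NG, -pG, rfl, by push_cast; ring⟩
      have hy : (el F G a ((NG : ℤ) - 1) 0) x₀ =
          (el F G 0 NG (-pG)) ((el F G a (-1) 0) x₀) + pG := by
        rw [← Dif.mul_apply, el_mul h.toAct, el_apply _ _ (-pG + 0) h.toAct]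
        have e1 : ((NG : ℤ) + -1) = NG - 1 := by ring
        have e2 : (0 : ℤ) + a = a := by ring
        rw [e1, e2]
        push_cast; ring
      have hy' : x - (el F G a ((NG : ℤ) - 1) 0) x₀ =
          (x - (el F G 0 NG (-pG)) ((el F G a (-1) 0) x₀)) - pG := by rw [hy]; ring
      rw [hy', Int.ceil_sub_intCast]
      rw [← ceil_eq (L := L) h htau hS hθ hτG]
      · ring
      · intro c hc1 hc2
        have h3 := (hgap _ (hmem a 0 c ha (by omega) hc1 hc2)).2.2
        have e3 : G⁻¹ ((el F G a ((0 : ℕ) : ℤ) c) x₀) = (el F G a (-1) 0) x₀ + c := by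
          have e4 : G⁻¹ * el F G a ((0 : ℕ) : ℤ) c = el F G a (-1) c := by
            have : G⁻¹ = el F G 0 (-1) 0 := by simp [el]
            rw [this, el_mul h.toAct]
            simp
          rw [← el_apply _ _ _ h.toAct, ← Dif.mul_apply, e4]
        rwa [e3] at h3
      · exact (hL a (-1) (by omega) (by omega) (by omega) (by omega)).1
      · exact disp1 _ _ htau hτG _
  · -- T
    have h1 : ∀ a b : ℕ, ⌈T x - (el F G a b 0) x₀⌉ = ⌈x - (el F G a b 0) x₀⌉ + 1 := by
      intro a b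
      rw [T_apply, show x + 1 - (el F G a b 0) x₀ = (x - (el F G a b 0) x₀) + 1 by ring,
        Int.ceil_add_one]
    simp only [h1]
    have h2 : ∀ a b : ℕ, ⌈x - (el F G a b 0) x₀⌉ + 1 + L = (⌈x - (el F G a b 0) x₀⌉ + L) + 1 := by
      intro a b; ring
    simp only [h2, Finset.sum_add_distrib (g := fun _ => (1 : ℤ))]
    simp [Finset.sum_add_distrib]

end Pool.Agent.F88.CaseD
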