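import Pool.Agent.Lib.MP_f88c17.CaseD3
import Pool.Agent.Lib.MP_f88c17.CaseD4

/-!
# Case D, fifth part: the first alternative
-/

set_option autoImplicit false

open Set Filter Topology
open scoped ContDiff

namespace Pool.Agent.F88.CaseD

variable {F G : Dif} {α β : ℝ}

theorem alt1 (h : Free F G α β) (t : Tower F G α β) (r W : ℕ) (hW : (r + 1) * 2 ^ r ≤ W)
    (hW1 : 1 ≤ W)
    (ε : ℝ) (hε : 0 < ε) : ∃ m : ℝ, 0 < m ∧ ∀ i, t.μ i ≤ m → t.M (i + 1) ≤ t.μ i ^ W →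
      ∀ l ≤ r, ∀ x, |iteratedDeriv l (fun y => t.S (i + 1) y - y) x| ≤ ε := by
  obtain ⟨D, hD, hb⟩ := small_bound (α := α) (β := β) h.toAct (r + 1)
  obtain ⟨C', hC', hL⟩ := landau_iter r (2 * D)
  refine ⟨min 1 (min (ε / C') ((1 / C') ^ (2 ^ (r + 1)))), by positivity, ?_⟩
  intro i hi hM l hl x
  have hμ := μ_pos t i
  have hμ1 : t.μ i ≤ 1 := hi.trans (min_le_left _ _)
  have hμ2 : t.μ i ≤ ε / C' := hi.trans ((min_le_right _ _).trans (min_le_left _ _))
  have hμ3 : t.μ i ≤ (1 / C') ^ (2 ^ (r + 1)) :=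
    hi.trans ((min_le_right _ _).trans (min_le_right _ _))
  obtain ⟨pF, pG, u, η, -, -, -, -, -, -, hSs, -⟩ := level_pair h t i
  set μ := t.μ i with hμdef
  set S := t.S (i + 1) with hSdef
  have hηle : μ ^ W ≤ μ := by
    calc μ ^ W ≤ μ ^ 1 := pow_le_pow_of_le_one hμ.le hμ1 hW1
      _ = μ := pow_one _
  have key := hL (fun y => S y - y) x (x + 1) (1 / μ) 1 (μ ^ W) (by positivity) one_pos
    (by
      have : 1 ≤ 1 / μ := by rw [le_div_iff₀ hμ]; linarith
      have e : x + 1 - x = 1 := by ring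
      rw [e, mul_one]; exact this)
    (by positivity) (hηle.trans hμ3) (hηle.trans hμ1)
    (fun y _ => (S.contDiff.sub contDiff_id).contDiffAt)
    (fun y _ => by
      have h1 := (t.ld (i + 1)).pos y
      rw [abs_of_pos (by linarith)]
      exact (t.le_M (i + 1) y).trans hM)
    (fun y _ k hk1 hk2 => by
      have h1 := hb t i S hSs y k hk1 hk2
      rcases Nat.lt_or_ge k 2 with h2 | h2
      · have hk : k = 1 := by omega
        subst hk
        rw [iteratedDeriv_one] at h1 ⊢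
        rw [deriv_sub_id S.contDiff]
        have h3 : 1 ≤ 1 / μ := by rw [le_div_iff₀ hμ]; linarith
        have h4 : (1 : ℝ) ≤ D * (1 / μ) ^ 1 := by
          rw [pow_one]; nlinarith
        have h5 := abs_sub (deriv S y) 1
        rw [abs_one] at h5
        calc |deriv S y - 1| ≤ |deriv S y| + 1 := h5
          _ ≤ D * (1 / μ) ^ 1 + D * (1 / μ) ^ 1 := add_le_add h1 h4
          _ = 2 * D * (1 / μ) ^ 1 := by ring
      · rw [iter_sub_id S.contDiff h2]
        refine h1.trans ?_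
        have : 0 ≤ D * (1 / μ) ^ k := by positivity
        linarith)
    x (left_mem_Icc.2 (by linarith)) l hl
  refine key.trans ?_
  have h1 : (μ ^ W) ^ ((1 : ℝ) / 2 ^ l) ≤ μ ^ (r + 1) := by
    have h2 : μ ^ W ≤ (μ ^ (r + 1)) ^ (2 ^ l) := by
      rw [← pow_mul]
      apply pow_le_pow_of_le_one hμ.le hμ1
      calc (r + 1) * 2 ^ l ≤ (r + 1) * 2 ^ r :=
            Nat.mul_le_mul_left _ (Nat.pow_le_pow_right (by norm_num) hl)
        _ ≤ W := hW
    calc (μ ^ W) ^ ((1 : ℝ) / 2 ^ l) ≤ ((μ ^ (r + 1)) ^ (2 ^ l)) ^ ((1 : ℝ) / 2 ^ l) :=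
          Real.rpow_le_rpow (by positivity) h2 (by positivity)
      _ = μ ^ (r + 1) := by
          have e : ((1 : ℝ) / 2 ^ l) = (((2 ^ l : ℕ) : ℝ))⁻¹ := by push_cast; ring
          rw [e]
          exact Real.pow_rpow_inv_natCast (by positivity) (by positivity)
  have h3 : μ ^ (r + 1) * (1 / μ) ^ l ≤ μ := by
    rw [one_div, inv_pow, ← div_eq_mul_inv, div_le_iff₀ (by positivity)]
    calc μ ^ (r + 1) ≤ μ ^ (l + 1) := pow_le_pow_of_le_one hμ.le hμ1 (by omega)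
      _ = μ * μ ^ l := by ring
  calc C' * (μ ^ W) ^ ((1 : ℝ) / 2 ^ l) * (1 / μ) ^ l
      ≤ C' * μ ^ (r + 1) * (1 / μ) ^ l := by gcongr
    _ = C' * (μ ^ (r + 1) * (1 / μ) ^ l) := by ring
    _ ≤ C' * μ := by gcongr
    _ ≤ C' * (ε / C') := by gcongr
    _ = ε := by field_simp

end Pool.Agent.F88.CaseD
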