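import Pool.Agent.Lib.MP_f88c17.Defs2

/-!
# Continuous convergence of jets (helper91)

`CC r p f g x`: the jets of order `r` of `f i` at points `y` converge to the jet of `g` at `x`
when `i → p` and `y → x`. This notion is stable under products, composition, inverses.
-/

set_option autoImplicit false

open Set Filter Topology
open scoped ContDiff

namespace Pool.Agent.F88

/-- Continuous convergence of jets at `x`. -/
def CC {ι : Type*} (r : ℕ) (p : Filter ι) (f : ι → ℝ → ℝ) (g : ℝ → ℝ) (x : ℝ) : Prop :=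
  ∀ k ≤ r, Tendsto (fun q : ι × ℝ => iteratedDeriv k (f q.1) q.2) (p ×ˢ 𝓝 x)
    (𝓝 (iteratedDeriv k g x))

namespace CC

variable {ι : Type*} {r : ℕ} {p : Filter ι} {f f' : ι → ℝ → ℝ} {g g' : ℝ → ℝ} {x : ℝ}

theorem mono {r' : ℕ} (h : CC r p f g x) (hr : r' ≤ r) : CC r' p f g x :=
  fun k hk => h k (hk.trans hr)

theorem zero_iff : CC 0 p f g x ↔ Tendsto (fun q : ι × ℝ => f q.1 q.2) (p ×ˢ 𝓝 x) (𝓝 (g x)) := by
  constructor
  · intro h
    simpa using h 0 le_rfl
  · intro h k hk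
    obtain rfl : k = 0 := by omega
    simpa using h

theorem tendsto (h : CC r p f g x) :
    Tendsto (fun q : ι × ℝ => f q.1 q.2) (p ×ˢ 𝓝 x) (𝓝 (g x)) :=
  zero_iff.1 (h.mono (Nat.zero_le r))

theorem succ_iff : CC (r + 1) p f g x ↔
    Tendsto (fun q : ι × ℝ => f q.1 q.2) (p ×ˢ 𝓝 x) (𝓝 (g x)) ∧
      CC r p (fun i => deriv (f i)) (deriv g) x := by
  constructor
  · intro h
    refine ⟨h.tendsto, fun k hk => ?_⟩
    have := h (k + 1) (by omega)
    simpa only [iteratedDeriv_succ'] using this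
  · rintro ⟨h0, h1⟩ k hk
    cases k with
    | zero => simpa using h0
    | succ k =>
      have := h1 k (by omega)
      simpa only [iteratedDeriv_succ'] using this

theorem congr_right {g₂ : ℝ → ℝ} (h : CC r p f g x) (hg : g =ᶠ[𝓝 x] g₂) : CC r p f g₂ x := by
  intro k hk
  rw [← hg.iteratedDeriv_eq k]
  exact h k hk

/-- If `f' i` locally coincides with `f i` near `y` for `(i, y)` close to `(p, x)`. -/
theorem congr_left (h : CC r p f g x)
    (hf : ∀ᶠ q : ι × ℝ in p ×ˢ 𝓝 x, f q.1 =ᶠ[𝓝 q.2] f' q.1) : CC r p f' g x := by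
  intro k hk
  refine (h k hk).congr' ?_
  filter_upwards [hf] with q hq
  exact hq.iteratedDeriv_eq k

theorem const_fun (hg : ContDiff ℝ ∞ g) : CC r p (fun _ => g) g x := by
  intro k _
  have h1 : Continuous (iteratedDeriv k g) := hg.continuous_iteratedDeriv k (by exact_mod_cast le_top)
  exact (h1.tendsto x).comp tendsto_snd

theorem add (hf : ∀ i, ContDiff ℝ ∞ (f i)) (hf' : ∀ i, ContDiff ℝ ∞ (f' i))
    (hg : ContDiff ℝ ∞ g) (hg' : ContDiff ℝ ∞ g') (h : CC r p f g x) (h' : CC r p f' g' x) :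
    CC r p (fun i y => f i y + f' i y) (fun y => g y + g' y) x := by
  intro k hk
  have e1 : ∀ i y, iteratedDeriv k (fun y => f i y + f' i y) y
      = iteratedDeriv k (f i) y + iteratedDeriv k (f' i) y := by
    intro i y
    exact iteratedDeriv_add ((hf i).contDiffAt.of_le (by exact_mod_cast le_top))
      ((hf' i).contDiffAt.of_le (by exact_mod_cast le_top))
  have e2 : iteratedDeriv k (fun y => g y + g' y) x
      = iteratedDeriv k g x + iteratedDeriv k g' x :=
    iteratedDeriv_add (hg.contDiffAt.of_le (by exact_mod_cast le_top))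
      (hg'.contDiffAt.of_le (by exact_mod_cast le_top))
  rw [e2]
  simp only [e1]
  exact (h k hk).add (h' k hk)

theorem mul (hf : ∀ i, ContDiff ℝ ∞ (f i)) (hf' : ∀ i, ContDiff ℝ ∞ (f' i))
    (hg : ContDiff ℝ ∞ g) (hg' : ContDiff ℝ ∞ g') (h : CC r p f g x) (h' : CC r p f' g' x) :
    CC r p (fun i y => f i y * f' i y) (fun y => g y * g' y) x := by
  induction r generalizing f f' g g' with
  | zero =>
    rw [zero_iff] at *
    exact h.mul h'
  | succ r ih =>
    have hd := (contDiff_infty_iff_deriv.1 hg)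
    have hd' := (contDiff_infty_iff_deriv.1 hg')
    have hfd := fun i => (contDiff_infty_iff_deriv.1 (hf i))
    have hfd' := fun i => (contDiff_infty_iff_deriv.1 (hf' i))
    rw [succ_iff]
    refine ⟨h.tendsto.mul h'.tendsto, ?_⟩
    have e1 : (fun i => deriv (fun y => f i y * f' i y))
        = fun i y => deriv (f i) y * f' i y + f i y * deriv (f' i) y := by
      funext i y
      exact deriv_fun_mul ((hfd i).1 y) ((hfd' i).1 y)
    have e2 : deriv (fun y => g y * g' y) = fun y => deriv g y * g' y + g y * deriv g' y := by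
      funext y
      exact deriv_fun_mul (hd.1 y) (hd'.1 y)
    rw [e1, e2]
    refine add (fun i => (hfd i).2.mul (hf' i)) (fun i => (hf i).mul (hfd' i).2)
      (hd.2.mul hg') (hg.mul hd'.2) ?_ ?_
    · exact ih (fun i => (hfd i).2) hf' hd.2 hg' (succ_iff.1 h).2 (h'.mono (by omega))
    · exact ih hf (fun i => (hfd' i).2) hg hd'.2 (h.mono (by omega)) (succ_iff.1 h').2

theorem neg (h : CC r p f g x) : CC r p (fun i y => - f i y) (fun y => - g y) x := by
  intro k hk
  have e : ∀ (u : ℝ → ℝ) y, iteratedDeriv k (fun y => - u y) y = - iteratedDeriv k u y := by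
    intro u y
    exact iteratedDeriv_neg k u y
  simp only [e]
  exact (h k hk).neg

theorem inv₀ (hf : ∀ i, ContDiff ℝ ∞ (f i)) (hg : ContDiff ℝ ∞ g)
    (hf0 : ∀ i y, f i y ≠ 0) (hg0 : ∀ y, g y ≠ 0) (h : CC r p f g x) :
    CC r p (fun i y => (f i y)⁻¹) (fun y => (g y)⁻¹) x := by
  induction r with
  | zero =>
    rw [zero_iff] at *
    exact h.inv₀ (hg0 x)
  | succ r ih =>
    have hd := (contDiff_infty_iff_deriv.1 hg)
    have hfd := fun i => (contDiff_infty_iff_deriv.1 (hf i))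
    rw [succ_iff]
    refine ⟨h.tendsto.inv₀ (hg0 x), ?_⟩
    have e1 : (fun i => deriv (fun y => (f i y)⁻¹))
        = fun i y => (- deriv (f i) y) * ((f i y)⁻¹ * (f i y)⁻¹) := by
      funext i y
      rw [deriv_fun_inv'' ((hfd i).1 y) (hf0 i y)]
      field_simp
    have e2 : deriv (fun y => (g y)⁻¹) = fun y => (- deriv g y) * ((g y)⁻¹ * (g y)⁻¹) := by
      funext y
      rw [deriv_fun_inv'' (hd.1 y) (hg0 y)]
      field_simp
    rw [e1, e2]
    have h1 := ih (h.mono (by omega))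
    have s1 : ∀ i, ContDiff ℝ ∞ (fun y => (f i y)⁻¹) := fun i => (hf i).inv (hf0 i)
    have s2 : ContDiff ℝ ∞ (fun y => (g y)⁻¹) := hg.inv hg0
    exact mul (fun i => (hfd i).2.neg) (fun i => (s1 i).mul (s1 i)) hd.2.neg (s2.mul s2)
      (succ_iff.1 h).2.neg (mul s1 s1 s2 s2 h1 h1)

theorem comp (hf : ∀ i, ContDiff ℝ ∞ (f i)) (hf' : ∀ i, ContDiff ℝ ∞ (f' i))
    (hg : ContDiff ℝ ∞ g) (hg' : ContDiff ℝ ∞ g') (h : CC r p f g (g' x))
    (h' : CC r p f' g' x) :
    CC r p (fun i y => f i (f' i y)) (fun y => g (g' y)) x := by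
  have T0 : Tendsto (fun q : ι × ℝ => ((q.1, f' q.1 q.2) : ι × ℝ)) (p ×ˢ 𝓝 x) (p ×ˢ 𝓝 (g' x)) :=
    tendsto_fst.prodMk h'.tendsto
  induction r generalizing f g with
  | zero =>
    rw [zero_iff] at *
    exact h.comp T0
  | succ r ih =>
    have hd := (contDiff_infty_iff_deriv.1 hg)
    have hd' := (contDiff_infty_iff_deriv.1 hg')
    have hfd := fun i => (contDiff_infty_iff_deriv.1 (hf i))
    have hfd' := fun i => (contDiff_infty_iff_deriv.1 (hf' i))
    rw [succ_iff]
    refine ⟨h.tendsto.comp T0, ?_⟩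
    have e1 : (fun i => deriv (fun y => f i (f' i y)))
        = fun i y => deriv (f i) (f' i y) * deriv (f' i) y := by
      funext i y
      exact ((((hfd i).1 (f' i y)).hasDerivAt).comp y ((hfd' i).1 y).hasDerivAt).deriv
    have e2 : deriv (fun y => g (g' y)) = fun y => deriv g (g' y) * deriv g' y := by
      funext y
      exact (((hd.1 (g' y)).hasDerivAt).comp y (hd'.1 y).hasDerivAt).deriv
    rw [e1, e2]
    exact mul (fun i => (hfd i).2.comp (hf' i)) (fun i => (hfd' i).2) (hd.2.comp hg') hd'.2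
      (ih (fun i => (hfd i).2) hd.2 (succ_iff.1 h).2 (h'.mono (by omega)) )
      (succ_iff.1 h').2

/-- uniform consequence on compact sets -/
theorem eventually_of_compact {K : Set ℝ} (hK : IsCompact K) {P : ι → ℝ → Prop}
    (h : ∀ x ∈ K, ∀ᶠ q : ι × ℝ in p ×ˢ 𝓝 x, P q.1 q.2) : ∀ᶠ i in p, ∀ x ∈ K, P i x := by
  refine hK.induction_on (p := fun K => ∀ᶠ i in p, ∀ x ∈ K, P i x) ?_ ?_ ?_ ?_
  · exact Eventually.of_forall (by simp)
  · intro s t hst ht
    filter_upwards [ht] with i hi x hx using hi x (hst hx)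
  · intro s t hs ht
    filter_upwards [hs, ht] with i hi hi' x hx
    rcases hx with hx | hx
    · exact hi x hx
    · exact hi' x hx
  · intro x hx
    obtain ⟨pa, hpa, pb, hpb, hab⟩ := eventually_prod_iff.1 (h x hx)
    refine ⟨{y | pb y}, mem_nhdsWithin_of_mem_nhds hpb, ?_⟩
    filter_upwards [hpa] with i hi y hy using hab hi hy

theorem near (hg : ContDiff ℝ ∞ g) {K : Set ℝ} (hK : IsCompact K) (h : ∀ x ∈ K, CC r p f g x)
    {ε : ℝ} (hε : 0 < ε) :
    ∀ᶠ i in p, ∀ x ∈ K, ∀ k ≤ r, |iteratedDeriv k (f i) x - iteratedDeriv k g x| < ε := by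
  apply eventually_of_compact hK
  intro x hx
  have h1 : ∀ k ∈ Finset.range (r + 1), ∀ᶠ q : ι × ℝ in p ×ˢ 𝓝 x,
      |iteratedDeriv k (f q.1) q.2 - iteratedDeriv k g q.2| < ε := by
    intro k hk
    have hk' : k ≤ r := by have := Finset.mem_range.1 hk; omega
    have c1 : Continuous (iteratedDeriv k g) :=
      hg.continuous_iteratedDeriv k (by exact_mod_cast le_top)
    have t1 : Tendsto (fun q : ι × ℝ => iteratedDeriv k g q.2) (p ×ˢ 𝓝 x)
        (𝓝 (iteratedDeriv k g x)) := (c1.tendsto x).comp tendsto_snd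
    have t2 := ((h x hx k hk').sub t1)
    rw [sub_self] at t2
    have := (t2.abs).eventually (gt_mem_nhds (show |(0:ℝ)| < ε by simpa using hε))
    exact this
  have h2 := (Filter.eventually_all_finset (Finset.range (r + 1))).2 h1
  filter_upwards [h2] with q hq k hk
  exact hq k (Finset.mem_range.2 (by omega))

theorem of_near (hg : ContDiff ℝ ∞ g) {U : Set ℝ} (hU : IsOpen U)
    (h : ∀ ε > (0:ℝ), ∀ᶠ i in p, ∀ k ≤ r, ∀ x ∈ U,
      |iteratedDeriv k (f i) x - iteratedDeriv k g x| ≤ ε) (hx : x ∈ U) : CC r p f g x := by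
  intro k hk
  have c1 : Continuous (iteratedDeriv k g) :=
    hg.continuous_iteratedDeriv k (by exact_mod_cast le_top)
  have t1 : Tendsto (fun q : ι × ℝ => iteratedDeriv k g q.2) (p ×ˢ 𝓝 x)
      (𝓝 (iteratedDeriv k g x)) := (c1.tendsto x).comp tendsto_snd
  have t2 : Tendsto (fun q : ι × ℝ => iteratedDeriv k (f q.1) q.2 - iteratedDeriv k g q.2)
      (p ×ˢ 𝓝 x) (𝓝 0) := by
    rw [Metric.tendsto_nhds]
    intro ε hε
    have h1 := h (ε / 2) (by positivity)
    have h2 : ∀ᶠ q : ι × ℝ in p ×ˢ 𝓝 x, (∀ k ≤ r, ∀ x ∈ U,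
      |iteratedDeriv k (f q.1) x - iteratedDeriv k g x| ≤ ε / 2) ∧ q.2 ∈ U :=
      h1.prod_mk (hU.mem_nhds hx)
    filter_upwards [h2] with q hq
    rw [Real.dist_eq, sub_zero]
    have := hq.1 k hk q.2 hq.2
    linarith
  have t3 := t2.add t1
  simpa using t3

/-- A function that locally coincides with one of finitely many good functions. -/
theorem of_finite {κ : Type*} {h : κ → ι → ℝ → ℝ} (s : Finset κ)
    (hh : ∀ j ∈ s, CC r p (h j) g x)
    (hf : ∀ᶠ q : ι × ℝ in p ×ˢ 𝓝 x, ∃ j ∈ s, f q.1 =ᶠ[𝓝 q.2] h j q.1) : CC r p f g x := by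
  intro k hk
  rw [tendsto_def]
  intro V hV
  have h1 : ∀ j ∈ s, ∀ᶠ q : ι × ℝ in p ×ˢ 𝓝 x, iteratedDeriv k (h j q.1) q.2 ∈ V :=
    fun j hj => (hh j hj k hk).eventually hV
  have h2 := (Filter.eventually_all_finset s).2 h1
  filter_upwards [h2, hf] with q hq hq'
  obtain ⟨j, hj, hj'⟩ := hq'
  show iteratedDeriv k (f q.1) q.2 ∈ V
  rw [hj'.iteratedDeriv_eq k]
  exact hq j hj

end CC

/-! ### Diffeomorphisms -/

namespace Dif

theorem contDiff_deriv (f : Dif) : ContDiff ℝ ∞ (deriv (fun y => f y)) :=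
  (contDiff_infty_iff_deriv.1 f.contDiff).2

theorem deriv_inv (f : Dif) (y : ℝ) :
    deriv (fun y => f⁻¹ y) y = (deriv (fun y => f y) (f⁻¹ y))⁻¹ := by
  have h := Dif.deriv_mul f f⁻¹ y
  have e : (fun y => (f * f⁻¹) y) = fun y => y := by
    funext y; simp
  rw [e] at h
  have h1 : deriv (fun y : ℝ => y) y = 1 := by simp
  rw [h1] at h
  exact eq_inv_of_mul_eq_one_right h.symm

theorem CC_mul {ι : Type*} {r : ℕ} {p : Filter ι} {f f' : ι → Dif} {g g' : Dif} {x : ℝ}
    (h : CC r p (fun i => f i) g (g' x)) (h' : CC r p (fun i => f' i) g' x) :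
    CC r p (fun i => (f i * f' i : Dif)) (g * g' : Dif) x :=
  CC.comp (f := fun i x => f i x) (f' := fun i x => f' i x) (g := fun x => g x)
    (g' := fun x => g' x) (fun i => (f i).contDiff) (fun i => (f' i).contDiff) g.contDiff
    g'.contDiff h h'

theorem CC_const {ι : Type*} {r : ℕ} {p : Filter ι} (g : Dif) (x : ℝ) :
    CC r p (fun _ => g) g x := CC.const_fun g.contDiff

theorem CC_inv {ι : Type*} {r : ℕ} {p : Filter ι} {f : ι → Dif} {g : Dif} {U : Set ℝ}
    (hU : IsOpen U) (h : ∀ x ∈ U, CC r p (fun i => f i) g x) {y : ℝ} (hy : g⁻¹ y ∈ U) :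
    CC r p (fun i => ((f i)⁻¹ : Dif)) (g⁻¹ : Dif) y := by
  have T0 : Tendsto (fun q : ι × ℝ => (f q.1)⁻¹ q.2) (p ×ˢ 𝓝 y) (𝓝 (g⁻¹ y)) := by
    rw [tendsto_order]
    constructor
    · intro a ha
      obtain ⟨a', ha', haU⟩ : ∃ a', (a < a' ∧ a' < g⁻¹ y) ∧ a' ∈ U := by
        have : ∀ᶠ b in 𝓝[<] (g⁻¹ y), b ∈ U := mem_nhdsWithin_of_mem_nhds (hU.mem_nhds hy)
        have h2 : ∀ᶠ b in 𝓝[<] (g⁻¹ y), a < b ∧ b < g⁻¹ y := Ioo_mem_nhdsLT ha
        exact (h2.and this).exists
      have h3 : g a' < y := by rw [← g.lt_inv_iff]; exact ha'.2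
      have t := (h a' haU).tendsto
      have t' : ∀ᶠ i in p, f i a' < (g a' + y) / 2 := by
        have hlt : g a' < (g a' + y) / 2 := by linarith
        have := t.eventually (gt_mem_nhds hlt)
        obtain ⟨pa, hpa, pb, hpb, hab⟩ := eventually_prod_iff.1 this
        filter_upwards [hpa] with i hi using hab hi hpb.self_of_nhds
      have t'' : ∀ᶠ z in 𝓝 y, (g a' + y) / 2 < z := lt_mem_nhds (by linarith)
      filter_upwards [t'.prod_mk t''] with q hq
      refine ha'.1.trans ?_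
      rw [(f q.1).lt_inv_iff]
      exact hq.1.trans hq.2
    · intro a ha
      obtain ⟨a', ha', haU⟩ : ∃ a', (g⁻¹ y < a' ∧ a' < a) ∧ a' ∈ U := by
        have : ∀ᶠ b in 𝓝[>] (g⁻¹ y), b ∈ U := mem_nhdsWithin_of_mem_nhds (hU.mem_nhds hy)
        have h2 : ∀ᶠ b in 𝓝[>] (g⁻¹ y), g⁻¹ y < b ∧ b < a := Ioo_mem_nhdsGT ha
        exact (h2.and this).exists
      have h3 : y < g a' := by rw [← g.inv_lt_iff]; exact ha'.1
      have t := (h a' haU).tendsto
      have t' : ∀ᶠ i in p, (g a' + y) / 2 < f i a' := by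
        have hlt : (g a' + y) / 2 < g a' := by linarith
        have := t.eventually (lt_mem_nhds hlt)
        obtain ⟨pa, hpa, pb, hpb, hab⟩ := eventually_prod_iff.1 this
        filter_upwards [hpa] with i hi using hab hi hpb.self_of_nhds
      have t'' : ∀ᶠ z in 𝓝 y, z < (g a' + y) / 2 := gt_mem_nhds (by linarith)
      filter_upwards [t'.prod_mk t''] with q hq
      refine lt_trans ?_ ha'.2
      rw [(f q.1).inv_lt_iff]
      exact hq.2.trans hq.1
  induction r with
  | zero => rw [CC.zero_iff]; exact T0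
  | succ r ih =>
    rw [CC.succ_iff]
    refine ⟨T0, ?_⟩
    have e1 : (fun i => deriv (fun y => (f i)⁻¹ y))
        = fun i y => (deriv (fun y => f i y) ((f i)⁻¹ y))⁻¹ := by
      funext i y
      exact deriv_inv (f i) y
    have e2 : deriv (fun y => g⁻¹ y) = fun y => (deriv (fun y => g y) (g⁻¹ y))⁻¹ := by
      funext y
      exact deriv_inv g y
    show CC r p (fun i => deriv (fun y => (f i)⁻¹ y)) (deriv (fun y => g⁻¹ y)) y
    rw [e1, e2]
    have s1 : ∀ i, ContDiff ℝ ∞ (fun y => deriv (fun y => f i y) ((f i)⁻¹ y)) :=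
      fun i => (f i).contDiff_deriv.comp ((f i)⁻¹).contDiff
    have s2 : ContDiff ℝ ∞ (fun y => deriv (fun y => g y) (g⁻¹ y)) :=
      g.contDiff_deriv.comp (g⁻¹).contDiff
    refine CC.inv₀ s1 s2 (fun i y => ((f i).deriv_pos _).ne') (fun y => (g.deriv_pos _).ne') ?_
    exact CC.comp (fun i => (f i).contDiff_deriv) (fun i => ((f i)⁻¹).contDiff)
      g.contDiff_deriv (g⁻¹).contDiff (CC.succ_iff.1 (h _ hy)).2
      (ih (fun x hx => (h x hx).mono (by omega)))

end Dif

end Pool.Agent.F88
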