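import Pool.Agent.Lib.MP_f88c17.Jet82

/-!
# Conjugacies between the action and its twist
-/

set_option autoImplicit false

open Set Filter Topology
open scoped ContDiff

namespace Pool.Agent.F88.BA

variable {F G : Dif} {nF nG q : ℤ}

/-- `H` intertwines `γ` and `δ`. -/
def Itw (H : Equiv.Perm ℝ) (γ δ : Dif) : Prop := ∀ x, H (γ x) = δ (H x)

theorem Itw.mul {H : Equiv.Perm ℝ} {γ δ γ' δ' : Dif} (h1 : Itw H γ δ) (h2 : Itw H γ' δ') :
    Itw H (γ * γ') (δ * δ') := by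
  intro x
  rw [Dif.mul_apply, Dif.mul_apply, h1, h2]

theorem Itw.one (H : Equiv.Perm ℝ) : Itw H 1 1 := fun x => by simp

theorem Itw.inv {H : Equiv.Perm ℝ} {γ δ : Dif} (h1 : Itw H γ δ) : Itw H γ⁻¹ δ⁻¹ := by
  intro x
  apply δ.injective
  show δ (H (γ⁻¹ x)) = δ (δ⁻¹ (H x))
  rw [← h1, Dif.apply_inv_self, Dif.apply_inv_self]

theorem Itw.pow {H : Equiv.Perm ℝ} {γ δ : Dif} (h1 : Itw H γ δ) (n : ℕ) :
    Itw H (γ ^ n) (δ ^ n) := by
  induction n with
  | zero => simpa using Itw.one H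
  | succ n ih =>
    rw [pow_succ, pow_succ]
    exact ih.mul h1

theorem Itw.zpow {H : Equiv.Perm ℝ} {γ δ : Dif} (h1 : Itw H γ δ) (n : ℤ) :
    Itw H (γ ^ n) (δ ^ n) := by
  cases n with
  | ofNat n => simpa using h1.pow n
  | negSucc n =>
    rw [zpow_negSucc, zpow_negSucc]
    exact (h1.pow (n + 1)).inv

theorem word_zpow_left {A s : Dif} (h : Commute A s) (n k : ℤ) :
    (A * s ^ (-n)) ^ k = A ^ k * s ^ (-(k * n)) := by
  rw [(h.zpow_right (-n)).mul_zpow, ← zpow_mul]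
  congr 2
  ring

/-- The conjugacy and the words. -/
theorem conj_words (h : Rat F G nF nG q) {s ψ : Dif} (hs : InL F G nF nG q s)
    (hc : ConjTo F G (ψ * (F * s ^ (-nF)) * ψ⁻¹) (ψ * (G * s ^ (-nG)) * ψ⁻¹)
      (ψ * (T * s ^ (-q)) * ψ⁻¹)) :
    ∃ H : Equiv.Perm ℝ, H ∈ AllDif ∧ ∃ j₁ j₂ e : ℤ, (e = 1 ∨ e = -1) ∧
      ∀ a b c : ℤ, Itw H (F ^ a * G ^ b * T ^ c * s ^ (-(a * nF + b * nG + c * q)))
        (F ^ a * G ^ b * T ^ (a * j₁ + b * j₂ + e * c)) := by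
  obtain ⟨H, hH, j₁, j₂, e, he, h1, h2, h3⟩ := hc
  have hA := h.toAct
  have vs := inL_iff.mp hs
  have cF : Commute F s := (val_F (nF := nF) (nG := nG) (q := q)).comm hA vs
  have cG : Commute G s := (val_G (nF := nF) (nG := nG) (q := q)).comm hA vs
  have cT : Commute T s := (val_T (F := F) (G := G) (nF := nF) (nG := nG) (q := q)).comm hA vs
  refine ⟨H * ψ.toPerm, mul_mem hH ψ.2.1, j₁, j₂, e, he, ?_⟩
  have i1 : Itw (H * ψ.toPerm) (F * s ^ (-nF)) (F * T ^ j₁) := by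
    intro x
    have := h1 (ψ x)
    simp only [Dif.mul_apply, Dif.inv_apply_self] at this
    show H (ψ ((F * s ^ (-nF)) x)) = (F * T ^ j₁) (H (ψ x))
    rw [Dif.mul_apply, this, Dif.mul_apply, Dif.comm_apply ((hA.FT).zpow_right j₁), T_zpow_apply]
  have i2 : Itw (H * ψ.toPerm) (G * s ^ (-nG)) (G * T ^ j₂) := by
    intro x
    have := h2 (ψ x)
    simp only [Dif.mul_apply, Dif.inv_apply_self] at this
    show H (ψ ((G * s ^ (-nG)) x)) = (G * T ^ j₂) (H (ψ x))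
    rw [Dif.mul_apply, this, Dif.mul_apply, Dif.comm_apply ((hA.GT).zpow_right j₂), T_zpow_apply]
  have i3 : Itw (H * ψ.toPerm) (T * s ^ (-q)) (T ^ e) := by
    intro x
    have := h3 (ψ x)
    simp only [Dif.mul_apply, Dif.inv_apply_self] at this
    show H (ψ ((T * s ^ (-q)) x)) = (T ^ e) (H (ψ x))
    rw [Dif.mul_apply, this, T_zpow_apply]
  intro a b c
  have i4 := ((i1.zpow a).mul (i2.zpow b)).mul (i3.zpow c)
  have e1 : (F * s ^ (-nF)) ^ a * (G * s ^ (-nG)) ^ b * (T * s ^ (-q)) ^ c =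
      F ^ a * G ^ b * T ^ c * s ^ (-(a * nF + b * nG + c * q)) := by
    rw [word_zpow_left cF, word_zpow_left cG, word_zpow_left cT]
    have c1 : Commute (s ^ (-(a * nF))) (G ^ b) := (cG.symm).zpow_zpow _ _
    have c2 : Commute (s ^ (-(a * nF)) * s ^ (-(b * nG))) (T ^ c) :=
      ((cT.symm).zpow_zpow _ _).mul_left ((cT.symm).zpow_zpow _ _)
    calc F ^ a * s ^ (-(a * nF)) * (G ^ b * s ^ (-(b * nG))) * (T ^ c * s ^ (-(c * q)))
        = F ^ a * (s ^ (-(a * nF)) * G ^ b) * s ^ (-(b * nG)) * (T ^ c * s ^ (-(c * q))) := by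
          group
      _ = F ^ a * (G ^ b * s ^ (-(a * nF))) * s ^ (-(b * nG)) * (T ^ c * s ^ (-(c * q))) := by
          rw [c1.eq]
      _ = F ^ a * G ^ b * ((s ^ (-(a * nF)) * s ^ (-(b * nG))) * T ^ c) * s ^ (-(c * q)) := by
          group
      _ = F ^ a * G ^ b * (T ^ c * (s ^ (-(a * nF)) * s ^ (-(b * nG)))) * s ^ (-(c * q)) := by
          rw [c2.eq]
      _ = F ^ a * G ^ b * T ^ c * (s ^ (-(a * nF)) * s ^ (-(b * nG)) * s ^ (-(c * q))) := by
          group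
      _ = _ := by
          rw [← zpow_add, ← zpow_add]
          congr 2
          ring
  have e2 : (F * T ^ j₁) ^ a * (G * T ^ j₂) ^ b * (T ^ e) ^ c =
      F ^ a * G ^ b * T ^ (a * j₁ + b * j₂ + e * c) := by
    rw [((hA.FT).zpow_right j₁).mul_zpow, ((hA.GT).zpow_right j₂).mul_zpow, ← zpow_mul,
      ← zpow_mul, ← zpow_mul]
    have c1 : Commute (T ^ (j₁ * a)) (G ^ b) := (hA.GT.symm).zpow_zpow _ _
    calc F ^ a * T ^ (j₁ * a) * (G ^ b * T ^ (j₂ * b)) * T ^ (e * c)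
        = F ^ a * (T ^ (j₁ * a) * G ^ b) * T ^ (j₂ * b) * T ^ (e * c) := by group
      _ = F ^ a * (G ^ b * T ^ (j₁ * a)) * T ^ (j₂ * b) * T ^ (e * c) := by rw [c1.eq]
      _ = F ^ a * G ^ b * (T ^ (j₁ * a) * T ^ (j₂ * b) * T ^ (e * c)) := by group
      _ = _ := by
          rw [← zpow_add, ← zpow_add]
          congr 2
          ring
  rw [e1, e2] at i4
  exact i4

/-- The structure of a conjugacy. -/
theorem conj_structure (h : Rat F G nF nG q) {a₀ b₀ c₀ : ℤ} (h₀ : a₀ * nF + b₀ * nG + c₀ * q = 1)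
    {s ψ : Dif} (hs : InL F G nF nG q s)
    (hc : ConjTo F G (ψ * (F * s ^ (-nF)) * ψ⁻¹) (ψ * (G * s ^ (-nG)) * ψ⁻¹)
      (ψ * (T * s ^ (-q)) * ψ⁻¹)) :
    ∃ H : Equiv.Perm ℝ, H ∈ AllDif ∧ (∀ γ, InL F G nF nG q γ → Itw H γ γ) ∧
      ((StrictMono H ∧ Itw H (F ^ a₀ * G ^ b₀ * T ^ c₀ * s⁻¹) (F ^ a₀ * G ^ b₀ * T ^ c₀)) ∨
       (StrictAnti H ∧ ∃ c₁ : ℤ, q * c₁ = -(q * c₀) - 2 * a₀ * nF - 2 * b₀ * nG ∧
          Itw H (F ^ a₀ * G ^ b₀ * T ^ c₀ * s⁻¹) (F ^ a₀ * G ^ b₀ * T ^ c₁))) := by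
  obtain ⟨H, hH, j₁, j₂, e, he, hw⟩ := conj_words h hs hc
  have hA := h.toAct
  have hq := h.q_pos
  -- words of value zero
  have key : ∀ a b c : ℤ, a * nF + b * nG + c * q = 0 → a * j₁ + b * j₂ + e * c = c := by
    intro a b c habc
    have h1 := hw a b c
    rw [habc, neg_zero, zpow_zero, mul_one] at h1
    obtain ⟨x, hx⟩ := h.fix a b c habc
    have h2 := h1 x
    rw [hx] at h2
    have h3 : Val F G nF nG q (F ^ a * G ^ b * T ^ (a * j₁ + b * j₂ + e * c))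
      (a * nF + b * nG + (a * j₁ + b * j₂ + e * c) * q) := ⟨_, _, _, rfl, rfl⟩
    have h4 : a * nF + b * nG + (a * j₁ + b * j₂ + e * c) * q = 0 := by
      rcases lt_trichotomy (a * nF + b * nG + (a * j₁ + b * j₂ + e * c) * q) 0 with h5 | h5 | h5
      · have h6 := (h3.inv hA).lt h (by omega) (H x)
        rw [Dif.lt_inv_iff, ← h2] at h6
        exact absurd h6 (lt_irrefl _)
      · exact h5
      · have h6 := h3.lt h h5 (H x)
        rw [← h2] at h6
        exact absurd h6 (lt_irrefl _)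
    have h5 : (a * j₁ + b * j₂ + e * c) * q = c * q := by linarith
    exact mul_right_cancel₀ hq.ne' h5
  have hL : ∀ γ, InL F G nF nG q γ → Itw H γ γ := by
    rintro γ ⟨a, b, c, rfl, habc⟩
    have h1 := hw a b c
    rw [habc, neg_zero, zpow_zero, mul_one, key a b c habc] at h1
    exact h1
  have k1 := key q 0 (-nF) (by ring)
  have k2 := key 0 q (-nG) (by ring)
  have hσ := hw a₀ b₀ c₀
  rw [h₀, zpow_neg, zpow_one] at hσ
  -- monotonicity
  have hHc : Continuous (fun x => H x) := hH.1.continuous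
  have hTs : ∀ x, x < (T * s ^ (-q)) x := by
    have h1 := (val_T (F := F) (G := G) (nF := nF) (nG := nG) (q := q)).mul hA
      ((inL_iff.mp hs).zpow hA (-q))
    exact fun x => h1.lt h (by rw [mul_zero, add_zero]; exact hq) x
  have hT := hw 0 0 1
  rw [zero_mul, zero_mul, zero_add, zero_add, one_mul, zpow_zero, zpow_zero, one_mul, one_mul,
    zpow_one, zero_mul, zero_mul, zero_add, zero_add, mul_one] at hT
  rw [one_mul] at hT
  have hT' := hT 0
  rw [T_zpow_apply] at hT'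
  have hmono := hHc.strictMono_of_inj H.injective
  refine ⟨H, hH, hL, ?_⟩
  rcases he with rfl | rfl
  · left
    have hj1 : j₁ = 0 := by
      have : q * j₁ = 0 := by linarith
      rcases mul_eq_zero.mp this with h1 | h1
      · omega
      · exact h1
    have hj2 : j₂ = 0 := by
      have : q * j₂ = 0 := by linarith
      rcases mul_eq_zero.mp this with h1 | h1
      · omega
      · exact h1
    refine ⟨?_, ?_⟩
    · rcases hmono with h1 | h1
      · exact h1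
      · have := h1 (hTs 0)
        simp only at this
        push_cast at hT'
        linarith
    · rw [hj1, hj2, mul_zero, mul_zero, zero_add, zero_add, one_mul] at hσ
      exact hσ
  · right
    refine ⟨?_, a₀ * j₁ + b₀ * j₂ + -1 * c₀, ?_, hσ⟩
    · rcases hmono with h1 | h1
      · have := h1 (hTs 0)
        simp only at this
        push_cast at hT'
        linarith
      · exact h1
    · have e1 : q * j₁ = -(2 * nF) := by linarith
      have e2 : q * j₂ = -(2 * nG) := by linarith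
      calc q * (a₀ * j₁ + b₀ * j₂ + -1 * c₀) = a₀ * (q * j₁) + b₀ * (q * j₂) - q * c₀ := by ring
        _ = _ := by rw [e1, e2]; ring

/-- An increasing element of `AllDif` as an element of `Dif`. -/
def toDif (H : Equiv.Perm ℝ) (hH : H ∈ AllDif) (hm : StrictMono H) : Dif := ⟨H, hH, hm⟩

@[simp] theorem toDif_apply (H : Equiv.Perm ℝ) (hH : H ∈ AllDif) (hm : StrictMono H) (x : ℝ) :
    toDif H hH hm x = H x := rfl

/-- There cannot be conjugacies for `s` and for `s^2`. -/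
theorem no_conj (h : Rat F G nF nG q)
    (hNT : ∀ {σ s B : Dif}, (∃ a b c : ℤ, σ = F ^ a * G ^ b * T ^ c ∧ a * nF + b * nG + c * q = 1) →
      InL F G nF nG q s → s ≠ 1 → (∀ γ, InL F G nF nG q γ → Commute B γ) →
      B * σ * B⁻¹ ≠ σ * s)
    {s : Dif} (hs : InL F G nF nG q s) (hs1 : s ≠ 1) {ψ₁ ψ₂ : Dif}
    (hc₁ : ConjTo F G (ψ₁ * (F * s ^ (-nF)) * ψ₁⁻¹) (ψ₁ * (G * s ^ (-nG)) * ψ₁⁻¹)
      (ψ₁ * (T * s ^ (-q)) * ψ₁⁻¹))
    (hc₂ : ConjTo F G (ψ₂ * (F * (s ^ 2) ^ (-nF)) * ψ₂⁻¹) (ψ₂ * (G * (s ^ 2) ^ (-nG)) * ψ₂⁻¹)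
      (ψ₂ * (T * (s ^ 2) ^ (-q)) * ψ₂⁻¹)) : False := by
  have hA := h.toAct
  obtain ⟨a₀, b₀, c₀, h₀⟩ := h.one
  have hs2 : InL F G nF nG q (s ^ 2) := by
    have := inL_zpow hA hs 2
    exact_mod_cast this
  -- the increasing case is impossible
  have inc : ∀ (u : Dif) (H : Equiv.Perm ℝ), H ∈ AllDif → InL F G nF nG q u → u ≠ 1 →
      (∀ γ, InL F G nF nG q γ → Itw H γ γ) → StrictMono H →
      Itw H (F ^ a₀ * G ^ b₀ * T ^ c₀ * u⁻¹) (F ^ a₀ * G ^ b₀ * T ^ c₀) → False := by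
    intro u H hH hu hu1 hL hm hI
    set D := toDif H hH hm with hD
    have hDc : ∀ γ, InL F G nF nG q γ → Commute D γ := fun γ hγ =>
      Dif.commute_of_apply fun x => by
        show H (γ x) = γ (H x)
        exact hL γ hγ x
    have hDσ : D * (F ^ a₀ * G ^ b₀ * T ^ c₀ * u⁻¹) = (F ^ a₀ * G ^ b₀ * T ^ c₀) * D := by
      ext x
      exact hI x
    refine hNT (σ := F ^ a₀ * G ^ b₀ * T ^ c₀) (s := u⁻¹) (B := D⁻¹) ⟨a₀, b₀, c₀, rfl, h₀⟩
      (inL_inv hA hu) (by simpa using hu1) (fun γ hγ => (hDc γ hγ).inv_left) ?_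
    rw [inv_inv, mul_assoc, ← hDσ, inv_mul_cancel_left]
  obtain ⟨H₁, hH₁, hL₁, h₁⟩ := conj_structure h h₀ hs hc₁
  obtain ⟨H₂, hH₂, hL₂, h₂⟩ := conj_structure h h₀ hs2 hc₂
  rcases h₁ with ⟨hm₁, hI₁⟩ | ⟨ha₁, c₁, hc₁', hI₁⟩
  · exact inc s H₁ hH₁ hs hs1 hL₁ hm₁ hI₁
  · rcases h₂ with ⟨hm₂, hI₂⟩ | ⟨ha₂, c₂, hc₂', hI₂⟩
    · refine inc (s ^ 2) H₂ hH₂ hs2 ?_ hL₂ hm₂ hI₂
      intro h1
      -- `s^2 = 1` implies `s = 1`
      apply hs1
      ext x
      have h2 : s (s x) = x := by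
        have := congrArg (fun k : Dif => k x) h1
        simpa [pow_two] using this
      rcases lt_trichotomy (s x) x with h3 | h3 | h3
      · have := s.lt_iff.mpr h3
        rw [h2] at this
        exact absurd (this.trans h3) (lt_irrefl _)
      · exact h3
      · have := s.lt_iff.mpr h3
        rw [h2] at this
        exact absurd (this.trans h3) (lt_irrefl _)
    · have hcc : c₁ = c₂ := by
        have : q * c₁ = q * c₂ := by rw [hc₁', hc₂']
        exact mul_left_cancel₀ h.q_pos.ne' this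
      subst hcc
      -- the composition is increasing
      have hmem : H₂⁻¹ * H₁ ∈ AllDif := mul_mem (inv_mem hH₂) hH₁
      have hmono : StrictMono (H₂⁻¹ * H₁ : Equiv.Perm ℝ) := by
        intro x y hxy
        by_contra hcon
        push Not at hcon
        have h1 := ha₁ hxy
        have h2 := ha₂.antitone hcon
        have e1 : ∀ z, H₂ ((H₂⁻¹ * H₁ : Equiv.Perm ℝ) z) = H₁ z := fun z =>
          H₂.apply_symm_apply (H₁ z)
        rw [e1, e1] at h2
        exact absurd h1 (not_lt.mpr h2)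
      set D := toDif _ hmem hmono with hD
      have hH2D : ∀ x, H₂ (D x) = H₁ x := fun x => H₂.apply_symm_apply (H₁ x)
      have hDc : ∀ γ, InL F G nF nG q γ → Commute D γ := fun γ hγ =>
        Dif.commute_of_apply fun x => by
          apply H₂.injective
          rw [hH2D, hL₂ γ hγ, hH2D, hL₁ γ hγ]
      have hDσ : D * (F ^ a₀ * G ^ b₀ * T ^ c₀ * s⁻¹) =
          (F ^ a₀ * G ^ b₀ * T ^ c₀ * (s ^ 2)⁻¹) * D := by
        ext x
        apply H₂.injective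
        rw [Dif.mul_apply D, Dif.mul_apply _ D, hH2D, hI₂, hH2D, hI₁]
      refine hNT (σ := F ^ a₀ * G ^ b₀ * T ^ c₀) (s := s⁻¹) (B := D) ⟨a₀, b₀, c₀, rfl, h₀⟩
        (inL_inv hA hs) (by simpa using hs1) hDc ?_
      have hDs := (hDc s hs).eq
      calc D * (F ^ a₀ * G ^ b₀ * T ^ c₀) * D⁻¹
          = (D * (F ^ a₀ * G ^ b₀ * T ^ c₀ * s⁻¹)) * s * D⁻¹ := by group
        _ = (F ^ a₀ * G ^ b₀ * T ^ c₀ * (s ^ 2)⁻¹) * D * s * D⁻¹ := by rw [hDσ]
        _ = (F ^ a₀ * G ^ b₀ * T ^ c₀ * (s ^ 2)⁻¹) * (D * s) * D⁻¹ := by group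
        _ = (F ^ a₀ * G ^ b₀ * T ^ c₀ * (s ^ 2)⁻¹) * (s * D) * D⁻¹ := by rw [hDs]
        _ = F ^ a₀ * G ^ b₀ * T ^ c₀ * s⁻¹ := by group

end Pool.Agent.F88.BA
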