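import Pool.Agent.Lib.MP_f88c17.NC

/-!
# Task D0: the dichotomy between free actions and rational rotation numbers
-/

set_option autoImplicit false

open Set Filter Topology MeasureTheory
open scoped ContDiff

namespace Pool.Agent.F88

namespace D0

/-! ## Lengths of intervals disjoint modulo one -/

theorem sum_len_le {n : ℕ} (u v : ℕ → ℝ) (huv : ∀ l < n, u l ≤ v l)
    (hdisj : ∀ l < n, ∀ l' < n, ∀ m : ℤ, (l ≠ l' ∨ m ≠ 0) →
      Disjoint (Ioo (u l) (v l)) (Ioo (u l' + m) (v l' + m))) :
    ∑ l ∈ Finset.range n, (v l - u l) ≤ 1 := by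
  set t : Set ℝ := ⋃ l ∈ Finset.range n, Ioo (u l) (v l) with ht
  have hmeas : MeasurableSet t := Finset.measurableSet_biUnion _ fun _ _ => measurableSet_Ioo
  have hvol : volume t = ENNReal.ofReal (∑ l ∈ Finset.range n, (v l - u l)) := by
    rw [ht, measure_biUnion_finset]
    · rw [ENNReal.ofReal_sum_of_nonneg]
      · exact Finset.sum_congr rfl fun l _ => Real.volume_Ioo
      · intro l hl
        linarith [huv l (Finset.mem_range.mp hl)]
    · intro l hl l' hl' hne
      have := hdisj l (Finset.mem_range.mp hl) l' (Finset.mem_range.mp hl') 0 (Or.inl hne)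
      simpa using this
    · exact fun _ _ => measurableSet_Ioo
  have hfd := isAddFundamentalDomain_Ioc (zero_lt_one' ℝ) 0 (volume : Measure ℝ)
  have hle : volume t ≤ volume (Ioc (0 : ℝ) (0 + 1)) := by
    refine hfd.measure_le_of_pairwise_disjoint hmeas.nullMeasurableSet ?_
    intro g g' hgg'
    apply Disjoint.aedisjoint
    apply Disjoint.mono inter_subset_left inter_subset_left
    rw [Set.disjoint_left]
    rintro z hz hz'
    obtain ⟨y, hy, rfl⟩ := Set.mem_vadd_set.mp hz
    obtain ⟨y', hy', he⟩ := Set.mem_vadd_set.mp hz'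
    obtain ⟨_, m, rfl⟩ := g
    obtain ⟨_, m', rfl⟩ := g'
    rw [ht, mem_iUnion₂] at hy hy'
    obtain ⟨l, hl, hy⟩ := hy
    obtain ⟨l', hl', hy'⟩ := hy'
    have he2 : m' + y' = m + y := by
      have := he
      simp only [AddSubgroup.vadd_def, vadd_eq_add] at this
      simpa using this
    have hne : m' - m ≠ 0 := by
      intro h0
      apply hgg'
      have : m = m' := by linarith
      subst this
      rfl
    have := hdisj l (Finset.mem_range.mp hl) l' (Finset.mem_range.mp hl') (m' - m) (Or.inr hne)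
    rw [Set.disjoint_left] at this
    refine this hy ⟨?_, ?_⟩
    · push_cast; linarith [hy'.1]
    · push_cast; linarith [hy'.2]
  rw [hvol, Real.volume_Ioc, ENNReal.ofReal_le_ofReal_iff (by norm_num)] at hle
  linarith

/-! ## Periodic functions -/

theorem periodic_lip {f : ℝ → ℝ} (hf : ContDiff ℝ 1 f) (hp : ∀ x, f (x + 1) = f x) :
    ∃ C : ℝ, 0 ≤ C ∧ ∀ x y, |f x - f y| ≤ C * |x - y| := by
  have hper : Function.Periodic (deriv f) 1 := by
    intro x
    have h1 : (fun x => f (x + 1)) = f := funext hp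
    calc deriv f (x + 1) = deriv (fun x => f (x + 1)) x := (deriv_comp_add_const f 1 x).symm
      _ = deriv f x := by rw [h1]
  have hb := hper.isBounded_of_continuous one_ne_zero (hf.continuous_deriv le_rfl)
  obtain ⟨C, hC⟩ := hb.exists_norm_le
  have hC' : ∀ x, ‖deriv f x‖ ≤ C := fun x => hC _ (mem_range_self x)
  have hC0 : 0 ≤ C := (norm_nonneg _).trans (hC' 0)
  refine ⟨C, hC0, fun x y => ?_⟩
  have := Convex.norm_image_sub_le_of_norm_deriv_le (s := univ) (f := f) (C := C)
    (fun z _ => hf.differentiable (by norm_num) z) (fun z _ => hC' z) convex_univ (mem_univ y)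
    (mem_univ x)
  simpa [Real.norm_eq_abs] using this

theorem map_add_one {f : Dif} (hf : Commute f T) (x : ℝ) : f (x + 1) = f x + 1 := by
  have := Dif.comm_apply hf x
  simpa using this

theorem deriv_periodic {f : Dif} (hf : Commute f T) (x : ℝ) :
    deriv (fun y => f y) (x + 1) = deriv (fun y => f y) x := by
  have h1 : (fun x => f (x + 1)) = fun x => f x + 1 := funext (map_add_one hf)
  calc deriv (fun y => f y) (x + 1) = deriv (fun x => f (x + 1)) x :=
        (deriv_comp_add_const (fun y => f y) 1 x).symm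
    _ = deriv (fun x => f x + 1) x := by rw [h1]
    _ = deriv (fun y => f y) x := deriv_add_const _

theorem contDiff_deriv (f : Dif) : ContDiff ℝ ∞ (deriv (fun y => f y)) :=
  (contDiff_infty_iff_deriv.mp f.contDiff).2

theorem deriv_lip {f : Dif} (hf : Commute f T) :
    ∃ C : ℝ, 0 ≤ C ∧ ∀ x y, |deriv (fun z => f z) x - deriv (fun z => f z) y| ≤ C * |x - y| :=
  periodic_lip ((contDiff_deriv f).of_le (by exact_mod_cast le_top)) (deriv_periodic hf)

theorem logD_lip {f : Dif} (hf : Commute f T) :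
    ∃ C : ℝ, 0 ≤ C ∧ ∀ x y, |logD f x - logD f y| ≤ C * |x - y| := by
  refine periodic_lip ?_ ?_
  · have h1 : ContDiff ℝ 1 (deriv (fun z => f z)) :=
      (contDiff_deriv f).of_le (by exact_mod_cast le_top)
    exact h1.log fun x => (f.deriv_pos x).ne'
  · intro x
    show Real.log (deriv (fun z => f z) (x + 1)) = Real.log (deriv (fun z => f z) x)
    rw [deriv_periodic hf]

theorem logD_pow (f : Dif) (n : ℕ) (x : ℝ) :
    logD (f ^ n) x = ∑ l ∈ Finset.range n, logD f ((f ^ l) x) := by
  induction n with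
  | zero =>
    have : (fun y : ℝ => (f ^ 0 : Dif) y) = fun y => y := by funext y; simp
    show Real.log (deriv (fun y => (f ^ 0 : Dif) y) x) = _
    rw [this]; simp
  | succ n ih =>
    rw [Finset.sum_range_succ, ← ih]
    show Real.log (deriv (fun y => (f ^ (n + 1) : Dif) y) x) =
      Real.log (deriv (fun y => (f ^ n : Dif) y) x) + Real.log (deriv (fun y => f y) ((f ^ n) x))
    rw [pow_succ', Dif.deriv_mul, Real.log_mul (f.deriv_pos _).ne' ((f ^ n).deriv_pos _).ne',
      add_comm]

/-! ## The core of the freeness argument -/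

theorem comm_fix {f g : Dif} (h : Commute f g) {x : ℝ} (hx : g x = x) : g (f x) = f x := by
  rw [← Dif.comm_apply h x, hx]

theorem comm_fix_pow {f : Dif} {x : ℝ} (hx : f x = x) (k : ℕ) : (f ^ k) x = x := by
  induction k with
  | zero => simp
  | succ k ih => rw [pow_succ, Dif.mul_apply, hx, ih]

/-- derivative of a power at a fixed point -/
theorem deriv_pow_fix {f : Dif} {x : ℝ} (hx : f x = x) (k : ℕ) :
    deriv (fun y => (f ^ k : Dif) y) x = deriv (fun y => f y) x ^ k := by
  have hk : ∀ k : ℕ, (f ^ k) x = x := by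
    intro k
    induction k with
    | zero => simp
    | succ k ih => rw [pow_succ, Dif.mul_apply, hx, ih]
  induction k with
  | zero =>
    have : (fun y : ℝ => (f ^ 0 : Dif) y) = fun y => y := by funext y; simp
    rw [this]; simp
  | succ k ih => rw [pow_succ', Dif.deriv_mul, hk, ih, pow_succ']

/-- derivatives at conjugate points agree -/
theorem deriv_conj {f g : Dif} (h : Commute f g) {x : ℝ} (hx : g x = x) :
    deriv (fun y => g y) (f x) = deriv (fun y => g y) x := by
  have h1 := Dif.deriv_mul f g x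
  have h2 := Dif.deriv_mul g f x
  rw [← h.eq, h1, hx, mul_comm] at h2
  exact (mul_right_cancel₀ (f.deriv_pos x).ne' h2).symm

theorem core {E γ : Dif} (hE : Commute E T) (hγ : Commute γ T) (hEγ : Commute E γ)
    (hirr : ∀ (n m : ℤ) (x : ℝ), (E ^ n * T ^ m) x = x → n = 0)
    {a b : ℝ} (hab : a < b) (ha : γ a = a) (hb : γ b = b) (hne : ∀ z ∈ Ioo a b, γ z ≠ z)
    (h1 : 1 ≤ deriv (fun y => γ y) a) : False := by
  have hET : ∀ (n m : ℤ) (x : ℝ), (E ^ n) (x + m) = (E ^ n) x + m := by
    intro n m x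
    have := Dif.comm_apply (hE.zpow_zpow n m) x
    rwa [T_zpow_apply, T_zpow_apply] at this
  have hET' : ∀ (n : ℕ) (m : ℤ) (x : ℝ), (E ^ n) (x + m) = (E ^ n) x + m := by
    intro n m x
    have := hET n m x
    simpa using this
  have hγT : ∀ (m : ℤ) (x : ℝ), γ (x + m) = γ x + m := by
    intro m x
    have := Dif.comm_apply (hγ.zpow_right m) x
    rwa [T_zpow_apply, T_zpow_apply] at this
  have hEj : ∀ (j : ℕ) (x : ℝ), γ ((E ^ j) x) = (E ^ j) (γ x) := fun j x =>
    (Dif.comm_apply (hEγ.pow_left j) x).symm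
  -- sums of lengths
  have hsum : ∀ n : ℕ, ∑ l ∈ Finset.range n, ((E ^ l) b - (E ^ l) a) ≤ 1 := by
    intro n
    apply sum_len_le
    · intro l _
      exact ((E ^ l).le_iff).mpr hab.le
    · intro l _ l' _ m hlm
      -- endpoints
      have key : ∀ (j j' : ℕ) (i i' : ℤ) (p : ℝ),
          p ∈ Ioo ((E ^ j) a + i) ((E ^ j) b + i) → p ∈ Ioo ((E ^ j') a + i') ((E ^ j') b + i') →
          (E ^ j') a + i' ≤ (E ^ j) a + i := by
        intro j j' i i' p hp hp'
        by_contra hcon
        rw [not_le] at hcon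
        -- w in (a, b) with E^j w + i = E^j' a + i'
        set z := (E ^ j') a + i' with hz
        set w := (E ^ j)⁻¹ (z - i) with hw
        have hw1 : (E ^ j) w = z - i := by rw [hw, Dif.apply_inv_self]
        have hwab : w ∈ Ioo a b := by
          constructor
          · rw [← (E ^ j).lt_iff, hw1]; linarith
          · rw [← (E ^ j).lt_iff, hw1]; linarith [hp.2, hp'.1]
        apply hne w hwab
        apply (E ^ j).injective
        show (E ^ j) (γ w) = (E ^ j) w
        rw [← hEj, hw1]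
        have h2 : γ z = z := by rw [hz, hγT, hEj, ha]
        have h3 := hγT (-i) z
        push_cast at h3
        rw [← sub_eq_add_neg, ← sub_eq_add_neg] at h3
        rw [h3, h2]
      rw [Set.disjoint_left]
      intro p hp hp'
      have hp0 : p ∈ Ioo ((E ^ l) a + (0 : ℤ)) ((E ^ l) b + (0 : ℤ)) := by simpa using hp
      have e1 := key l l' 0 m p hp0 hp'
      have e2 := key l' l m 0 p hp' hp0
      have e3 : (E ^ l) a = (E ^ l') a + m := by
        have := le_antisymm e1 e2
        push_cast at this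
        linarith
      have e4 : ((l : ℤ) - (l' : ℤ)) = 0 := by
        apply hirr ((l : ℤ) - l') (-m) ((E ^ l') a)
        rw [Dif.mul_apply, T_zpow_apply, hET]
        have : (E ^ ((l : ℤ) - (l' : ℤ))) ((E ^ l') a) = (E ^ l) a := by
          rw [← Dif.mul_apply, ← zpow_natCast E l', ← zpow_add, sub_add_cancel, zpow_natCast]
        rw [this, e3]
        push_cast; ring
      have e5 : l = l' := by omega
      subst e5
      rcases hlm with h | h
      · exact h rfl
      · apply h
        have : (m : ℝ) = 0 := by linarith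
        exact_mod_cast this
  have hnn : ∀ l : ℕ, 0 ≤ (E ^ l) b - (E ^ l) a := fun l =>
    sub_nonneg.mpr (((E ^ l).le_iff).mpr hab.le)
  have hlim : Tendsto (fun l : ℕ => (E ^ l) b - (E ^ l) a) atTop (𝓝 0) :=
    (summable_of_sum_range_le hnn hsum).tendsto_atTop_zero
  -- distortion
  obtain ⟨C, hC0, hC⟩ := logD_lip hE
  have hdist : ∀ (n : ℕ), ∀ x ∈ Icc a b, ∀ y ∈ Icc a b,
      logD (E ^ n) y - logD (E ^ n) x ≤ C := by
    intro n x hx y hy
    rw [logD_pow, logD_pow, ← Finset.sum_sub_distrib]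
    calc ∑ l ∈ Finset.range n, (logD E ((E ^ l) y) - logD E ((E ^ l) x))
        ≤ ∑ l ∈ Finset.range n, C * ((E ^ l) b - (E ^ l) a) := by
          apply Finset.sum_le_sum
          intro l _
          refine (le_abs_self _).trans ((hC _ _).trans ?_)
          apply mul_le_mul_of_nonneg_left _ hC0
          have a1 := ((E ^ l).le_iff).mpr hx.1
          have a2 := ((E ^ l).le_iff).mpr hx.2
          have a3 := ((E ^ l).le_iff).mpr hy.1
          have a4 := ((E ^ l).le_iff).mpr hy.2
          rw [abs_le]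
          constructor <;> linarith
      _ = C * ∑ l ∈ Finset.range n, ((E ^ l) b - (E ^ l) a) := by rw [Finset.mul_sum]
      _ ≤ C * 1 := mul_le_mul_of_nonneg_left (hsum n) hC0
      _ = C := mul_one C
  have hγk : ∀ (k : ℕ), ∀ x ∈ Icc a b, (γ ^ k) x ∈ Icc a b := by
    intro k x hx
    constructor
    · calc a = (γ ^ k) a := (comm_fix_pow ha k).symm
        _ ≤ _ := ((γ ^ k).le_iff).mpr hx.1
    · calc (γ ^ k) x ≤ (γ ^ k) b := ((γ ^ k).le_iff).mpr hx.2
        _ = b := comm_fix_pow hb k
  have hlow : ∀ (k : ℕ), ∀ x ∈ Icc a b, Real.exp (-C) ≤ deriv (fun y => (γ ^ k : Dif) y) x := by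
    intro k x hx
    obtain ⟨Ck, hCk0, hCk⟩ := deriv_lip (hγ.pow_left k)
    have hn : ∀ n : ℕ, Real.exp (-C) * (1 - Ck * ((E ^ n) b - (E ^ n) a)) ≤
        deriv (fun y => (γ ^ k : Dif) y) x := by
      intro n
      have hcomm : Commute (E ^ n) (γ ^ k) := hEγ.pow_pow n k
      have e1 := Dif.deriv_mul (E ^ n) (γ ^ k) x
      have e2 := Dif.deriv_mul (γ ^ k) (E ^ n) x
      rw [← hcomm.eq, e1] at e2
      -- D(E^n)(γ^k x) * D(γ^k) x = D(γ^k)(E^n x) * D(E^n) x
      have p1 := (E ^ n).deriv_pos ((γ ^ k) x)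
      have p2 := (E ^ n).deriv_pos x
      have p3 := (γ ^ k).deriv_pos ((E ^ n) x)
      have d1 := hdist n x hx ((γ ^ k) x) (hγk k x hx)
      have d2 : Real.exp (-C) * deriv (fun y => (E ^ n : Dif) y) ((γ ^ k) x) ≤
          deriv (fun y => (E ^ n : Dif) y) x := by
        have e3 : logD (E ^ n) ((γ ^ k) x) ≤ C + logD (E ^ n) x := by linarith
        have e4 := Real.exp_le_exp.mpr e3
        rw [Real.exp_add] at e4
        have e5 : Real.exp (logD (E ^ n) ((γ ^ k) x)) =
          deriv (fun y => (E ^ n : Dif) y) ((γ ^ k) x) := Real.exp_log p1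
        have e6 : Real.exp (logD (E ^ n) x) = deriv (fun y => (E ^ n : Dif) y) x :=
          Real.exp_log p2
        rw [e5, e6] at e4
        rw [Real.exp_neg, inv_mul_le_iff₀ (Real.exp_pos _)]
        exact e4
      have d3 : 1 - Ck * ((E ^ n) b - (E ^ n) a) ≤
          deriv (fun y => (γ ^ k : Dif) y) ((E ^ n) x) := by
        have e3 := hCk ((E ^ n) a) ((E ^ n) x)
        have e4 : deriv (fun y => (γ ^ k : Dif) y) ((E ^ n) a) =
            deriv (fun y => γ y) a ^ k := by
          have hfix : (γ ^ k) a = a := comm_fix_pow ha k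
          rw [deriv_conj hcomm hfix, deriv_pow_fix ha]
        have e5 : 1 ≤ deriv (fun y => (γ ^ k : Dif) y) ((E ^ n) a) := by
          rw [e4]; exact one_le_pow₀ h1
        have e6 := le_abs_self (deriv (fun y => (γ ^ k : Dif) y) ((E ^ n) a) -
          deriv (fun y => (γ ^ k : Dif) y) ((E ^ n) x))
        have e7 : |(E ^ n) a - (E ^ n) x| ≤ (E ^ n) b - (E ^ n) a := by
          have a1 := ((E ^ n).le_iff).mpr hx.1
          have a2 := ((E ^ n).le_iff).mpr hx.2
          rw [abs_le]
          constructor <;> linarith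
        have e8 := mul_le_mul_of_nonneg_left e7 hCk0
        linarith
      have d4 : Real.exp (-C) * (1 - Ck * ((E ^ n) b - (E ^ n) a)) ≤
          Real.exp (-C) * deriv (fun y => (γ ^ k : Dif) y) ((E ^ n) x) :=
        mul_le_mul_of_nonneg_left d3 (Real.exp_pos _).le
      refine d4.trans ?_
      have d5 : Real.exp (-C) * deriv (fun y => (γ ^ k : Dif) y) ((E ^ n) x) *
          deriv (fun y => (E ^ n : Dif) y) ((γ ^ k) x) ≤
          deriv (fun y => (γ ^ k : Dif) y) x *
          deriv (fun y => (E ^ n : Dif) y) ((γ ^ k) x) := by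
        have := mul_le_mul_of_nonneg_left d2 p3.le
        linarith
      exact le_of_mul_le_mul_right d5 p1
    have hl : Tendsto (fun n : ℕ => Real.exp (-C) * (1 - Ck * ((E ^ n) b - (E ^ n) a))) atTop
        (𝓝 (Real.exp (-C) * (1 - Ck * 0))) :=
      ((hlim.const_mul Ck).const_sub 1).const_mul _
    have := le_of_tendsto' hl hn
    simpa using this
  -- contradiction
  have hstep : ∀ (k : ℕ) (u v : ℝ), u ∈ Icc a b → v ∈ Icc a b → u ≤ v →
      Real.exp (-C) * (v - u) ≤ (γ ^ k) v - (γ ^ k) u := by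
    intro k u v hu hv huv
    refine Convex.mul_sub_le_image_sub_of_le_deriv (convex_Icc a b)
      (γ ^ k).continuous.continuousOn (γ ^ k).differentiable.differentiableOn ?_ u hu v hv huv
    intro x hx
    exact hlow k x (interior_subset hx)
  have hc := Real.exp_pos (-C)
  set y := (a + b) / 2 with hy
  have hyab : y ∈ Ioo a b := ⟨by rw [hy]; linarith, by rw [hy]; linarith⟩
  have hyI : y ∈ Icc a b := Ioo_subset_Icc_self hyab
  have hyγ : γ y ∈ Icc a b := by simpa using hγk 1 y hyI
  rcases lt_or_gt_of_ne (hne y hyab) with hlt | hlt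
  · -- γ y < y
    have hind : ∀ k : ℕ, (γ ^ k) y ≤ y - k * (Real.exp (-C) * (y - γ y)) := by
      intro k
      induction k with
      | zero => simp
      | succ k ih =>
        have := hstep k (γ y) y hyγ hyI hlt.le
        rw [pow_succ, Dif.mul_apply]
        push_cast
        linarith
    have hpos : 0 < Real.exp (-C) * (y - γ y) := mul_pos hc (by linarith)
    obtain ⟨k, hk⟩ := exists_nat_gt ((y - a) / (Real.exp (-C) * (y - γ y)))
    rw [div_lt_iff₀ hpos] at hk
    have h2 := hind k
    have h3 := (hγk k y hyI).1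
    linarith
  · have hind : ∀ k : ℕ, y + k * (Real.exp (-C) * (γ y - y)) ≤ (γ ^ k) y := by
      intro k
      induction k with
      | zero => simp
      | succ k ih =>
        have := hstep k y (γ y) hyI hyγ hlt.le
        rw [pow_succ, Dif.mul_apply]
        push_cast
        linarith
    have hpos : 0 < Real.exp (-C) * (γ y - y) := mul_pos hc (by linarith)
    obtain ⟨k, hk⟩ := exists_nat_gt ((b - y) / (Real.exp (-C) * (γ y - y)))
    rw [div_lt_iff₀ hpos] at hk
    have h2 := hind k
    have h3 := (hγk k y hyI).2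
    linarith

/-! ## Translation numbers -/

/-- The lift of a circle map. -/
def lift (f : Dif) (hf : Commute f T) : CircleDeg1Lift :=
  ⟨⟨fun x => f x, f.strictMono.monotone⟩, map_add_one hf⟩

@[simp] theorem lift_apply (f : Dif) (hf : Commute f T) (x : ℝ) : lift f hf x = f x := rfl

/-- the translation number -/
noncomputable def tn (f : Dif) (hf : Commute f T) : ℝ := (lift f hf).translationNumber

theorem tn_mul {f g : Dif} (hf : Commute f T) (hg : Commute g T) (hfg : Commute f g) :
    tn (f * g) (hf.mul_left hg) = tn f hf + tn g hg := by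
  have hc : Commute (lift f hf) (lift g hg) := by
    show lift f hf * lift g hg = lift g hg * lift f hf
    ext x
    exact Dif.comm_apply hfg x
  have := CircleDeg1Lift.translationNumber_mul_of_commute hc
  exact this

theorem tn_congr {f g : Dif} (hf : Commute f T) (hg : Commute g T) (h : f = g) :
    tn f hf = tn g hg := by subst h; rfl

theorem tn_one : tn 1 (Commute.one_left T) = 0 := by
  have : lift 1 (Commute.one_left T) = 1 := by ext x; rfl
  rw [tn, this]
  exact CircleDeg1Lift.translationNumber_one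

theorem tn_inv {f : Dif} (hf : Commute f T) : tn f⁻¹ hf.inv_left = - tn f hf := by
  have h1 := tn_mul hf hf.inv_left (Commute.refl f).inv_right
  have h2 : tn (f * f⁻¹) (hf.mul_left hf.inv_left) = 0 := by
    rw [← tn_one]; exact tn_congr _ _ (mul_inv_cancel f)
  linarith

theorem tn_zpow {f : Dif} (hf : Commute f T) (n : ℤ) :
    tn (f ^ n) (hf.zpow_left n) = n * tn f hf := by
  induction n using Int.induction_on with
  | zero =>
    have : tn (f ^ (0 : ℤ)) (hf.zpow_left 0) = tn 1 (Commute.one_left T) :=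
      tn_congr _ _ (zpow_zero f)
    rw [this, tn_one]; simp
  | succ n ih =>
    have h1 := tn_mul (hf.zpow_left n) hf ((Commute.refl f).zpow_left n)
    have h2 : tn (f ^ ((n : ℤ) + 1)) (hf.zpow_left _) =
        tn (f ^ (n : ℤ) * f) ((hf.zpow_left n).mul_left hf) := tn_congr _ _ (zpow_add_one f _)
    rw [h2, h1, ih]; push_cast; ring
  | pred n ih =>
    have h1 := tn_mul (hf.zpow_left (-(n : ℤ))) hf.inv_left
      (((Commute.refl f).zpow_left (-(n : ℤ))).inv_right)
    have h2 : tn (f ^ (-(n : ℤ) - 1)) (hf.zpow_left _) =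
        tn (f ^ (-(n : ℤ)) * f⁻¹) ((hf.zpow_left (-(n : ℤ))).mul_left hf.inv_left) :=
      tn_congr _ _ (zpow_sub_one f _)
    rw [h2, h1, ih, tn_inv hf]; push_cast; ring

theorem tn_T : tn T (Commute.refl T) = 1 := by
  have : (lift T (Commute.refl T)).translationNumber = ((1 : ℤ) : ℝ) :=
    CircleDeg1Lift.translationNumber_of_eq_add_int (lift T (Commute.refl T)) (x := 0) (by simp)
  rw [tn, this]; simp

/-- the commutation of the general element with `T` -/
theorem el_comm {F G : Dif} (h : Act F G) (a b c : ℤ) : Commute (F ^ a * G ^ b * T ^ c) T :=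
  ((h.FT.zpow_left a).mul_left (h.GT.zpow_left b)).mul_left ((Commute.refl T).zpow_left c)

theorem tn_el {F G : Dif} (h : Act F G) (a b c : ℤ) :
    tn (F ^ a * G ^ b * T ^ c) (el_comm h a b c) = a * tn F h.FT + b * tn G h.GT + c := by
  have h1 := tn_mul ((h.FT.zpow_left a).mul_left (h.GT.zpow_left b))
    ((Commute.refl T).zpow_left c)
    ((h.FT.zpow_zpow a c).mul_left (h.GT.zpow_zpow b c))
  have h2 := tn_mul (h.FT.zpow_left a) (h.GT.zpow_left b) (h.FG.zpow_zpow a b)
  have h3 : tn (F ^ a * G ^ b * T ^ c) (el_comm h a b c) = tn (F ^ a * G ^ b * T ^ c)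
    (((h.FT.zpow_left a).mul_left (h.GT.zpow_left b)).mul_left ((Commute.refl T).zpow_left c)) :=
    rfl
  rw [h3, h1, h2, tn_zpow h.FT, tn_zpow h.GT, tn_zpow (Commute.refl T), tn_T, mul_one]

/-- positive translation number: every point moves right -/
theorem lt_of_tn_pos {f : Dif} (hf : Commute f T) (h : 0 < tn f hf) (x : ℝ) : x < f x := by
  by_contra hcon
  have : (lift f hf).translationNumber ≤ ((0 : ℤ) : ℝ) :=
    CircleDeg1Lift.translationNumber_le_of_le_add_int (lift f hf) (x := x) (by simpa using hcon)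
  rw [tn] at h
  push_cast at this
  linarith

theorem fix_of_tn_zero {f : Dif} (hf : Commute f T) (h : tn f hf = 0) : ∃ x, f x = x := by
  have h1 : (lift f hf).translationNumber = ((0 : ℤ) : ℝ) := by
    rw [tn] at h; push_cast; exact h
  obtain ⟨x, hx⟩ :=
    (CircleDeg1Lift.translationNumber_eq_int_iff (lift f hf) f.continuous).mp h1
  exact ⟨x, by simpa using hx⟩

theorem tn_zero_of_fix {f : Dif} (hf : Commute f T) {x : ℝ} (hx : f x = x) : tn f hf = 0 := by
  have h1 : (lift f hf).translationNumber = ((0 : ℤ) : ℝ) :=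
    CircleDeg1Lift.translationNumber_of_eq_add_int (lift f hf) (x := x) (by simpa using hx)
  rw [tn, h1]; simp

/-! ## Freeness -/

theorem eq_one_of_fix {E γ : Dif} (hE : Commute E T) (hγ : Commute γ T) (hEγ : Commute E γ)
    (hirr : Irrational (tn E hE)) {x₀ : ℝ} (hx₀ : γ x₀ = x₀) : γ = 1 := by
  have hirr' : ∀ (n m : ℤ) (x : ℝ), (E ^ n * T ^ m) x = x → n = 0 := by
    intro n m x hx
    have h1 := tn_mul (hE.zpow_left n) ((Commute.refl T).zpow_left m) (hE.zpow_zpow n m)
    rw [tn_zpow hE, tn_zpow (Commute.refl T), tn_T, mul_one] at h1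
    have h2 := tn_zero_of_fix ((hE.zpow_left n).mul_left ((Commute.refl T).zpow_left m)) hx
    rw [h1] at h2
    by_contra hn
    have h3 := (hirr.intCast_mul hn).add_intCast m
    rw [h2] at h3
    exact h3 ⟨0, by simp⟩
  have hγT : ∀ (m : ℤ) (x : ℝ), γ (x + m) = γ x + m := by
    intro m x
    have := Dif.comm_apply (hγ.zpow_right m) x
    rwa [T_zpow_apply, T_zpow_apply] at this
  by_contra hne1
  have : ∃ y, γ y ≠ y := by
    by_contra hcon
    push Not at hcon
    exact hne1 (Dif.ext fun x => by simpa using hcon x)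
  obtain ⟨y, hy⟩ := this
  -- the component
  set A : Set ℝ := {z | γ z = z} with hA
  have hAc : IsClosed A := isClosed_eq γ.continuous continuous_id
  have hx₀m : ∀ m : ℤ, x₀ + m ∈ A := by
    intro m
    show γ (x₀ + m) = x₀ + m
    rw [hγT, hx₀]
  -- left end point
  have hL : ∃ a, IsGreatest (A ∩ Iic y) a := by
    refine ⟨_, (hAc.inter isClosed_Iic).isGreatest_csSup ?_ ⟨y, fun z hz => hz.2⟩⟩
    · refine ⟨x₀ + (⌊y - x₀⌋ : ℤ), hx₀m _, ?_⟩
      show x₀ + (⌊y - x₀⌋ : ℝ) ≤ y
      linarith [Int.floor_le (y - x₀)]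
  have hR : ∃ b, IsLeast (A ∩ Ici y) b := by
    refine ⟨_, (hAc.inter isClosed_Ici).isLeast_csInf ?_ ⟨y, fun z hz => hz.2⟩⟩
    · refine ⟨x₀ + (⌈y - x₀⌉ : ℤ), hx₀m _, ?_⟩
      show y ≤ x₀ + (⌈y - x₀⌉ : ℝ)
      linarith [Int.le_ceil (y - x₀)]
  obtain ⟨a, ⟨ha, hay⟩, hamax⟩ := hL
  obtain ⟨b, ⟨hb, hby⟩, hbmin⟩ := hR
  have hay' : a < y := lt_of_le_of_ne hay (by rintro rfl; exact hy ha)
  have hby' : y < b := lt_of_le_of_ne hby (by rintro rfl; exact hy hb)
  have hint : ∀ z ∈ Ioo a b, γ z ≠ z := by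
    intro z hz hzf
    rcases le_total z y with h1 | h1
    · exact absurd (hamax ⟨hzf, h1⟩) (not_le.mpr hz.1)
    · exact absurd (hbmin ⟨hzf, h1⟩) (not_le.mpr hz.2)
  rcases le_total 1 (deriv (fun y => γ y) a) with h1 | h1
  · exact core hE hγ hEγ hirr' (hay'.trans hby') ha hb hint h1
  · have ha' : γ⁻¹ a = a := by
      conv_lhs => rw [← (show γ a = a from ha)]
      simp
    have hb' : γ⁻¹ b = b := by
      conv_lhs => rw [← (show γ b = b from hb)]
      simp
    refine core hE hγ.inv_left hEγ.inv_right hirr' (hay'.trans hby') ha' hb' ?_ ?_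
    · intro z hz hzf
      apply hint z hz
      conv_lhs => rw [← hzf]
      simp
    · have h2 := Dif.deriv_mul γ⁻¹ γ a
      rw [inv_mul_cancel, (show γ a = a from ha)] at h2
      have h3 : deriv (fun y : ℝ => (1 : Dif) y) a = 1 := by
        have : (fun y : ℝ => (1 : Dif) y) = fun y => y := rfl
        rw [this]; simp
      rw [h3] at h2
      have h4 := γ.deriv_pos a
      have h5 := (γ⁻¹).deriv_pos a
      nlinarith

theorem free_of_irr {F G E : Dif} (h : Act F G) (hE : Commute E T) (hEF : Commute E F)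
    (hEG : Commute E G) (hirr : Irrational (tn E hE)) : Free F G (tn F h.FT) (tn G h.GT) := by
  refine { toAct := h, pos := ?_, indep := ?_ }
  · intro a b c habc x
    exact lt_of_tn_pos (el_comm h a b c) (by rw [tn_el h]; exact habc) x
  · intro a b c habc
    obtain ⟨x, hx⟩ := fix_of_tn_zero (el_comm h a b c) (by rw [tn_el h]; exact habc)
    exact h.faithful a b c (eq_one_of_fix hE (el_comm h a b c)
      (((hEF.zpow_right a).mul_right (hEG.zpow_right b)).mul_right (hE.zpow_right c)) hirr hx)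

theorem bezout3 (x y z : ℤ) (hz : z ≠ 0) : ∃ g x' y' z' a b c : ℤ, 0 < g ∧ x = g * x' ∧
    y = g * y' ∧ z = g * z' ∧ a * x' + b * y' + c * z' = 1 := by
  set g1 : ℤ := (Int.gcd x y : ℤ) with hg1
  set g : ℤ := (Int.gcd g1 z : ℤ) with hg
  have e1 : g1 = x * Int.gcdA x y + y * Int.gcdB x y := Int.gcd_eq_gcd_ab x y
  have e2 : g = g1 * Int.gcdA g1 z + z * Int.gcdB g1 z := Int.gcd_eq_gcd_ab g1 z
  have hg0 : 0 < g := by
    have : 0 < Int.gcd g1 z := Int.gcd_pos_of_ne_zero_right _ hz
    rw [hg]; exact_mod_cast this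
  have d1 : g ∣ g1 := Int.gcd_dvd_left _ _
  obtain ⟨x', hx'⟩ : g ∣ x := d1.trans (Int.gcd_dvd_left _ _)
  obtain ⟨y', hy'⟩ : g ∣ y := d1.trans (Int.gcd_dvd_right _ _)
  obtain ⟨z', hz'⟩ : g ∣ z := Int.gcd_dvd_right _ _
  refine ⟨g, x', y', z', Int.gcdA x y * Int.gcdA g1 z, Int.gcdB x y * Int.gcdA g1 z,
    Int.gcdB g1 z, hg0, hx', hy', hz', ?_⟩
  have e3 : g * (Int.gcdA x y * Int.gcdA g1 z * x' + Int.gcdB x y * Int.gcdA g1 z * y' +
      Int.gcdB g1 z * z') = g * 1 := by
    calc _ = ((g * x') * Int.gcdA x y + (g * y') * Int.gcdB x y) * Int.gcdA g1 z +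
          (g * z') * Int.gcdB g1 z := by ring
      _ = (x * Int.gcdA x y + y * Int.gcdB x y) * Int.gcdA g1 z + z * Int.gcdB g1 z := by
          rw [← hx', ← hy', ← hz']
      _ = g1 * Int.gcdA g1 z + z * Int.gcdB g1 z := by rw [← e1]
      _ = g * 1 := by rw [← e2, mul_one]
  exact mul_left_cancel₀ hg0.ne' e3

end D0

open D0 in
theorem dichotomy {F G : Dif} (h : Act F G) :
    (∃ α β : ℝ, Free F G α β) ∨ (∃ nF nG q : ℤ, Rat F G nF nG q) := by
  by_cases hα : Irrational (tn F h.FT)
  · exact Or.inl ⟨_, _, free_of_irr h h.FT (Commute.refl F) h.FG hα⟩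
  by_cases hβ : Irrational (tn G h.GT)
  · exact Or.inl ⟨_, _, free_of_irr h h.GT h.FG.symm (Commute.refl G) hβ⟩
  right
  obtain ⟨p, hp⟩ : ∃ p : ℚ, (p : ℝ) = tn F h.FT := by
    by_contra hcon; exact hα (fun ⟨p, hp⟩ => hcon ⟨p, hp⟩)
  obtain ⟨r, hr⟩ : ∃ r : ℚ, (r : ℝ) = tn G h.GT := by
    by_contra hcon; exact hβ (fun ⟨p, hp⟩ => hcon ⟨p, hp⟩)
  have hpd : (p.den : ℝ) ≠ 0 := by exact_mod_cast p.den_ne_zero
  have hrd : (r.den : ℝ) ≠ 0 := by exact_mod_cast r.den_ne_zero
  have hp' : (p : ℝ) = p.num / p.den := by exact_mod_cast (Rat.num_div_den p).symm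
  have hr' : (r : ℝ) = r.num / r.den := by exact_mod_cast (Rat.num_div_den r).symm
  obtain ⟨g, nF, nG, q, a, b, c, hg, e1, e2, e3, e4⟩ :=
    bezout3 (p.num * r.den) (r.num * p.den) (p.den * r.den)
      (by exact_mod_cast mul_ne_zero p.den_ne_zero r.den_ne_zero)
  have hgR : (0 : ℝ) < g := by exact_mod_cast hg
  have hq : 0 < q := by
    have h1 : (0 : ℤ) < p.den * r.den := by exact_mod_cast mul_pos p.den_pos r.den_pos
    rw [e3] at h1
    exact pos_of_mul_pos_right h1 hg.le
  have hqR : (0 : ℝ) < q := by exact_mod_cast hq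
  have e1' : (p.num : ℝ) * r.den = g * nF := by exact_mod_cast e1
  have e2' : (r.num : ℝ) * p.den = g * nG := by exact_mod_cast e2
  have e3' : (p.den : ℝ) * r.den = g * q := by exact_mod_cast e3
  have tF : q * tn F h.FT = nF := by
    have : (g : ℝ) * (q * tn F h.FT) = g * nF := by
      rw [← hp, ← mul_assoc, ← e3', ← e1', hp']; field_simp
    exact mul_left_cancel₀ hgR.ne' this
  have tG : q * tn G h.GT = nG := by
    have : (g : ℝ) * (q * tn G h.GT) = g * nG := by
      rw [← hr, ← mul_assoc, ← e3', ← e2', hr']; field_simp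
    exact mul_left_cancel₀ hgR.ne' this
  have hval : ∀ a b c : ℤ, q * tn (F ^ a * G ^ b * T ^ c) (el_comm h a b c) =
      ((a * nF + b * nG + c * q : ℤ) : ℝ) := by
    intro a b c
    rw [tn_el h]
    push_cast
    linear_combination (a : ℝ) * tF + (b : ℝ) * tG
  refine ⟨nF, nG, q, { toAct := h, q_pos := hq, pos := ?_, fix := ?_, one := ⟨a, b, c, e4⟩ }⟩
  · intro a b c habc x
    refine lt_of_tn_pos (el_comm h a b c) ?_ x
    have h1 := hval a b c
    have h2 : (0 : ℝ) < ((a * nF + b * nG + c * q : ℤ) : ℝ) := by exact_mod_cast habc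
    rw [← h1] at h2
    exact pos_of_mul_pos_right h2 hqR.le
  · intro a b c habc
    refine fix_of_tn_zero (el_comm h a b c) ?_
    have h1 := hval a b c
    rw [habc] at h1
    push_cast at h1
    rcases mul_eq_zero.mp h1 with h2 | h2
    · exact absurd h2 hqR.ne'
    · exact h2

end Pool.Agent.F88
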