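import Mathlib

/-!
# Structurally stable actions of the free abelian group of rank two on the circle: definitions

Everything happens on the line: circle diffeomorphisms are lifts commuting with `T : x ↦ x + 1`.
-/

set_option autoImplicit false

open Set Filter Topology
open scoped ContDiff

namespace Pool.Agent.F88

/-- The group of all smooth diffeomorphisms of the line (either orientation). -/
def AllDif : Subgroup (Equiv.Perm ℝ) where
  carrier := {f | ContDiff ℝ ∞ (fun x => f x) ∧ ContDiff ℝ ∞ (fun x => f⁻¹ x)}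
  mul_mem' := by
    rintro f g ⟨hf, hf'⟩ ⟨hg, hg'⟩
    refine ⟨hf.comp hg, ?_⟩
    have : (fun x => (f * g)⁻¹ x) = fun x => g⁻¹ (f⁻¹ x) := by
      funext x
      rw [mul_inv_rev]
      rfl
    rw [this]
    exact hg'.comp hf'
  one_mem' := ⟨contDiff_id, contDiff_id⟩
  inv_mem' := by
    rintro f ⟨hf, hf'⟩
    exact ⟨hf', by simpa using hf⟩

/-- The subgroup of increasing smooth diffeomorphisms of the line. -/
def DifS : Subgroup (Equiv.Perm ℝ) where
  carrier := {f | f ∈ AllDif ∧ StrictMono (fun x => f x)}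
  mul_mem' := by
    rintro f g ⟨hf, hf'⟩ ⟨hg, hg'⟩
    exact ⟨mul_mem hf hg, fun x y hxy => hf' (hg' hxy)⟩
  one_mem' := ⟨one_mem _, fun _ _ h => h⟩
  inv_mem' := by
    rintro f ⟨hf, hf'⟩
    refine ⟨inv_mem hf, fun x y hxy => ?_⟩
    by_contra hcon
    have h1 : f⁻¹ y ≤ f⁻¹ x := not_lt.mp hcon
    have h2 := hf'.monotone h1
    have e1 : f (f⁻¹ y) = y := f.apply_symm_apply y
    have e2 : f (f⁻¹ x) = x := f.apply_symm_apply x
    simp only [e1, e2] at h2
    exact absurd hxy (not_lt.mpr h2)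

/-- The group of increasing smooth diffeomorphisms of the line. -/
def Dif : Type := DifS

instance : Group Dif := inferInstanceAs (Group DifS)

/-- The underlying permutation of the line. -/
def Dif.toPerm (f : Dif) : Equiv.Perm ℝ := f.1

instance : CoeFun Dif (fun _ => ℝ → ℝ) := ⟨fun f => f.toPerm⟩

namespace Dif

@[ext] theorem ext {f g : Dif} (h : ∀ x, f x = g x) : f = g :=
  Subtype.ext (Equiv.ext h)

@[simp] theorem mul_apply (f g : Dif) (x : ℝ) : (f * g) x = f (g x) := rfl

@[simp] theorem one_apply (x : ℝ) : (1 : Dif) x = x := rfl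

@[simp] theorem inv_apply_self (f : Dif) (x : ℝ) : f⁻¹ (f x) = x :=
  f.toPerm.symm_apply_apply x

@[simp] theorem apply_inv_self (f : Dif) (x : ℝ) : f (f⁻¹ x) = x :=
  f.toPerm.apply_symm_apply x

@[simp] theorem inv_toPerm_apply (f : Dif) (x : ℝ) : (f.toPerm)⁻¹ x = f⁻¹ x := rfl

@[simp] theorem symm_toPerm_apply (f : Dif) (x : ℝ) : (f.toPerm).symm x = f⁻¹ x := rfl

theorem contDiff (f : Dif) : ContDiff ℝ ∞ (fun x => f x) := f.2.1.1

theorem strictMono (f : Dif) : StrictMono (fun x => f x) := f.2.2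

theorem continuous (f : Dif) : Continuous (fun x => f x) := f.contDiff.continuous

theorem differentiable (f : Dif) : Differentiable ℝ (fun x => f x) :=
  f.contDiff.differentiable (by simp)

theorem lt_iff (f : Dif) {x y : ℝ} : f x < f y ↔ x < y := f.strictMono.lt_iff_lt

theorem le_iff (f : Dif) {x y : ℝ} : f x ≤ f y ↔ x ≤ y := f.strictMono.le_iff_le

theorem injective (f : Dif) : Function.Injective (fun x => f x) := f.strictMono.injective

theorem surjective (f : Dif) : Function.Surjective (fun x => f x) := fun y => ⟨f⁻¹ y, by simp⟩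

theorem lt_inv_iff (f : Dif) {x y : ℝ} : x < f⁻¹ y ↔ f x < y := by
  rw [← f.lt_iff, apply_inv_self]

theorem inv_lt_iff (f : Dif) {x y : ℝ} : f⁻¹ x < y ↔ x < f y := by
  rw [← f.lt_iff, apply_inv_self]

theorem le_inv_iff (f : Dif) {x y : ℝ} : x ≤ f⁻¹ y ↔ f x ≤ y := by
  rw [← f.le_iff, apply_inv_self]

theorem inv_le_iff (f : Dif) {x y : ℝ} : f⁻¹ x ≤ y ↔ x ≤ f y := by
  rw [← f.le_iff, apply_inv_self]

theorem comm_apply {f g : Dif} (h : Commute f g) (x : ℝ) : f (g x) = g (f x) := by
  have := congrArg (fun k : Dif => k x) h.eq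
  simpa using this

theorem commute_of_apply {f g : Dif} (h : ∀ x, f (g x) = g (f x)) : Commute f g := by
  show f * g = g * f
  ext x
  simpa using h x

/-- the derivative of the inverse -/
theorem deriv_mul (f g : Dif) (x : ℝ) :
    deriv (fun y => (f * g) y) x = deriv (fun y => f y) (g x) * deriv (fun y => g y) x := by
  have h1 : HasDerivAt (fun y => f y) (deriv (fun y => f y) (g x)) (g x) :=
    (f.differentiable _).hasDerivAt
  have h2 : HasDerivAt (fun y => g y) (deriv (fun y => g y) x) x :=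
    (g.differentiable _).hasDerivAt
  exact (h1.comp x h2).deriv

theorem deriv_pos (f : Dif) (x : ℝ) : 0 < deriv (fun y => f y) x := by
  have h0 : 0 ≤ deriv (fun y => f y) x := f.strictMono.monotone.deriv_nonneg
  rcases h0.lt_or_eq with h | h
  · exact h
  · exfalso
    have h1 := deriv_mul f⁻¹ f x
    rw [← h, mul_zero, inv_mul_cancel] at h1
    have : deriv (fun y : ℝ => (1 : Dif) y) x = 1 := by
      have : (fun y : ℝ => (1 : Dif) y) = fun y => y := rfl
      rw [this]; simp
    rw [this] at h1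
    exact one_ne_zero h1

/-- A smooth map with positive derivative and the right limits is an element of `Dif`. -/
noncomputable def ofPos (f : ℝ → ℝ) (hf : ContDiff ℝ ∞ f) (hpos : ∀ x, 0 < deriv f x)
    (htop : Tendsto f atTop atTop) (hbot : Tendsto f atBot atBot) : Dif :=
  have hmono : StrictMono f := strictMono_of_deriv_pos hpos
  have hsurj : Function.Surjective f := hf.continuous.surjective htop hbot
  let e : ℝ ≃ ℝ := Equiv.ofBijective f ⟨hmono.injective, hsurj⟩
  let h : ℝ ≃ₜ ℝ := (StrictMono.orderIsoOfSurjective f hmono hsurj).toHomeomorph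
  ⟨e, by
    have hcoe : (h : ℝ → ℝ) = f := rfl
    have hs : ContDiff ℝ ∞ (h.symm : ℝ → ℝ) :=
      Homeomorph.contDiff_symm_deriv h (f' := deriv f) (fun x => (hpos x).ne')
        (fun x => by
          rw [hcoe]
          exact ((hf.differentiable (by simp)) x).hasDerivAt) (by rw [hcoe]; exact hf)
    have hinv : (fun x => e⁻¹ x) = (h.symm : ℝ → ℝ) := by
      funext x
      apply hmono.injective
      have h1 : f (e⁻¹ x) = x := e.apply_symm_apply x
      have h2 : f (h.symm x) = x := h.apply_symm_apply x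
      rw [h1, h2]
    exact ⟨⟨hf, by rw [hinv]; exact hs⟩, hmono⟩⟩

@[simp] theorem ofPos_apply (f : ℝ → ℝ) (hf : ContDiff ℝ ∞ f) (hpos : ∀ x, 0 < deriv f x)
    (htop : Tendsto f atTop atTop) (hbot : Tendsto f atBot atBot) (x : ℝ) :
    ofPos f hf hpos htop hbot x = f x := rfl

/-- Translation by `c`. -/
noncomputable def tr (c : ℝ) : Dif :=
  ⟨Equiv.addRight c, by
    have h1 : (fun x => (Equiv.addRight c : Equiv.Perm ℝ) x) = fun x : ℝ => x + c := by
      funext x; rfl
    have h2 : (fun x => (Equiv.addRight c : Equiv.Perm ℝ)⁻¹ x) = fun x : ℝ => x - c := by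
      funext x
      show (Equiv.addRight c).symm x = x - c
      simp [sub_eq_add_neg]
    refine ⟨⟨?_, ?_⟩, ?_⟩
    · rw [h1]; exact contDiff_id.add contDiff_const
    · rw [h2]; exact contDiff_id.sub contDiff_const
    · rw [h1]; intro x y hxy; simpa using hxy⟩

@[simp] theorem tr_apply (c x : ℝ) : tr c x = x + c := rfl

end Dif

/-- The unit translation. -/
noncomputable def T : Dif := Dif.tr 1

@[simp] theorem T_apply (x : ℝ) : T x = x + 1 := rfl

@[simp] theorem T_zpow_apply (n : ℤ) (x : ℝ) : (T ^ n) x = x + n := by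
  have hnat : ∀ (n : ℕ) (x : ℝ), (T ^ n) x = x + n := by
    intro n
    induction n with
    | zero => intro x; simp
    | succ n ih =>
      intro x
      rw [pow_succ, Dif.mul_apply, ih, T_apply]
      push_cast; ring
  cases n with
  | ofNat n => simpa using hnat n x
  | negSucc n =>
    rw [zpow_negSucc]
    apply (T ^ (n + 1)).injective
    show (T ^ (n + 1)) ((T ^ (n + 1))⁻¹ x) = (T ^ (n + 1)) _
    rw [Dif.apply_inv_self, hnat]
    push_cast
    ring

/-- `f` and `g` are close together with their first `r` derivatives on `[-R, R]`. -/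
def Near (r : ℕ) (δ R : ℝ) (f g : ℝ → ℝ) : Prop :=
  ∀ l ≤ r, ∀ x ∈ Icc (-R) R, |iteratedDeriv l f x - iteratedDeriv l g x| ≤ δ

/-- `H` conjugates the commuting triple `(F₁, G₁, T₁)` of diffeomorphisms of the line to the
triple `(F, G, T)` up to the ambiguities allowed for actions on the circle. -/
def ConjTo (F G F₁ G₁ T₁ : Dif) : Prop :=
  ∃ H : Equiv.Perm ℝ, H ∈ AllDif ∧ ∃ j₁ j₂ e : ℤ, (e = 1 ∨ e = -1) ∧
    (∀ x, H (F₁ x) = F (H x) + j₁) ∧ (∀ x, H (G₁ x) = G (H x) + j₂) ∧
    (∀ x, H (T₁ x) = H x + e)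

/-- Structural stability of the pair `(F, G)`, for commuting triples of diffeomorphisms of the
line close to `(F, G, T)` on a compact interval. -/
def Stable (F G : Dif) : Prop :=
  ∃ (r : ℕ) (R δ : ℝ), 0 < δ ∧ ∀ F₁ G₁ T₁ : Dif,
    Commute F₁ G₁ → Commute F₁ T₁ → Commute G₁ T₁ → (∀ x, x < T₁ x) →
    Near r δ R F₁ F → Near r δ R G₁ G → Near r δ R T₁ T → ConjTo F G F₁ G₁ T₁

/-- A faithful action of `ℤ²` on the circle, given by commuting lifts. -/
structure Act (F G : Dif) : Prop where
  FT : Commute F T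
  GT : Commute G T
  FG : Commute F G
  faithful : ∀ a b c : ℤ, F ^ a * G ^ b * T ^ c = 1 → a = 0 ∧ b = 0 ∧ c = 0

/-- The irrational case: the group generated by `F, G, T` acts freely, ordered by
`a α + b β + c`. -/
structure Free (F G : Dif) (α β : ℝ) : Prop extends Act F G where
  pos : ∀ a b c : ℤ, 0 < a * α + b * β + c → ∀ x, x < (F ^ a * G ^ b * T ^ c) x
  indep : ∀ a b c : ℤ, a * α + b * β + c = 0 → a = 0 ∧ b = 0 ∧ c = 0

/-- The rational case: `F`, `G` have rotation numbers `nF / q`, `nG / q`. -/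
structure Rat (F G : Dif) (nF nG q : ℤ) : Prop extends Act F G where
  q_pos : 0 < q
  pos : ∀ a b c : ℤ, 0 < a * nF + b * nG + c * q → ∀ x, x < (F ^ a * G ^ b * T ^ c) x
  fix : ∀ a b c : ℤ, a * nF + b * nG + c * q = 0 → ∃ x, (F ^ a * G ^ b * T ^ c) x = x
  one : ∃ a b c : ℤ, a * nF + b * nG + c * q = 1

end Pool.Agent.F88
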