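import Pool.Agent.Lib.MP_f88c17.Defs

/-!
# Further definitions: levels, towers, the rational case
-/

set_option autoImplicit false

open Set Filter Topology
open scoped ContDiff

namespace Pool.Agent.F88

/-! ## Distortion -/

/-- logarithm of the derivative -/
noncomputable def logD (g : Dif) (x : ℝ) : ℝ := Real.log (deriv g x)

/-- nonlinearity `g'' / g'` -/
noncomputable def psi (g : Dif) (x : ℝ) : ℝ := deriv (logD g) x

/-- Schwarzian derivative -/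
noncomputable def sch (g : Dif) (x : ℝ) : ℝ := deriv (psi g) x - (psi g x) ^ 2 / 2

/-! ## Irrational case -/

/-- `g` belongs to the group generated by `F, G, T` and has translation number `t`. -/
def HasTau (F G : Dif) (α β : ℝ) (g : Dif) (t : ℝ) : Prop :=
  ∃ a b c : ℤ, g = F ^ a * G ^ b * T ^ c ∧ t = a * α + b * β + c

/-- The four generators. -/
def gen (F G : Dif) : Fin 4 → Dif := ![F, F⁻¹, G, G⁻¹]

/-- Their rotation numbers. -/
def rot (α β : ℝ) : Fin 4 → ℝ := ![α, -α, β, -β]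

/-- Level data: `S` is a closest return of the generator number `k`; the segments
`g^j [x, S x)`, `j < N i`, of every generator `g` are disjoint modulo `1`; the segments
`g^j [x, S x)`, `j < q + N k`, of the generator number `k` cover. -/
structure LD (F G S : Dif) (k : Fin 4) (q : ℕ) (p : ℤ) (N : Fin 4 → ℕ) : Prop where
  q_pos : 1 ≤ q
  S_eq : S = gen F G k ^ q * T ^ (-p)
  q_le : q ≤ N k
  pos : ∀ x, x < S x
  disj : ∀ (i : Fin 4) (x : ℝ),
    ∑ j ∈ Finset.range (N i), (S ((gen F G i ^ j) x) - (gen F G i ^ j) x) ≤ 1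
  cov : ∀ x z : ℝ, ∃ j < q + N k, ∃ c : ℤ,
    (gen F G k ^ j * T ^ c) x ≤ z ∧ z < (gen F G k ^ j * T ^ c) (S x)

/-- The sequence of all levels. -/
structure Tower (F G : Dif) (α β : ℝ) where
  S : ℕ → Dif
  k : ℕ → Fin 4
  q : ℕ → ℕ
  p : ℕ → ℤ
  N : ℕ → Fin 4 → ℕ
  θ : ℕ → ℝ
  M : ℕ → ℝ
  μ : ℕ → ℝ
  ld : ∀ i, LD F G (S i) (k i) (q i) (p i) (N i)
  tau : ∀ i, HasTau F G α β (S i) (θ i)
  θ_pos : ∀ i, 0 < θ i
  θ_lt : ∀ i, θ (i + 1) < θ i
  half : ∀ i, 2 * θ (i + 5) < θ i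
  next_q : ∀ i, q (i + 1) = N i (k (i + 1))
  N_pos : ∀ i j, 1 ≤ N i j
  N01 : ∀ i, N i 0 = N i 1
  N23 : ∀ i, N i 2 = N i 3
  /-- the two first returns `F^(N 0) T^(-pF)`, `G^(N 2) T^(-pG)` at level `i`: one of them is
  `S (i+1)` up to inversion, the other one has a smaller translation number -/
  ret : ∀ i, ∃ pF pG e : ℤ, (e = 1 ∨ e = -1) ∧
    ((S (i + 1) = (F ^ (N i 0) * T ^ (-pF)) ^ e ∧ |(N i 2 : ℝ) * β - pG| < θ (i + 1)) ∨
     (S (i + 1) = (G ^ (N i 2) * T ^ (-pG)) ^ e ∧ |(N i 0 : ℝ) * α - pF| < θ (i + 1)))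
  le_M : ∀ i x, S i x - x ≤ M i
  μ_le : ∀ i x, μ i ≤ S i x - x
  M_att : ∀ i, ∃ x, S i x - x = M i
  μ_att : ∀ i, ∃ x, S i x - x = μ i

/-- `s` is so close to the identity near `w`, that it can be inserted there. -/
def Tiny (S s : Dif) (r J : ℕ) (a η w : ℝ) : Prop :=
  ∀ y ∈ Icc ((S ^ (-5 : ℤ)) w) ((S ^ (5 : ℤ)) w), a ≤ S y - y ∧
    ∀ j : ℤ, |j| ≤ J → S⁻¹ y ≤ (s ^ j) y ∧ (s ^ j) y ≤ S y ∧
      ∀ l ≤ r, |iteratedDeriv l (fun t => (s ^ j) t - t) y| ≤ η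

/-! ## Rational case -/

/-- `γ` is an element `F^a G^b T^c` with translation number zero. -/
def InL (F G : Dif) (nF nG q : ℤ) (γ : Dif) : Prop :=
  ∃ a b c : ℤ, γ = F ^ a * G ^ b * T ^ c ∧ a * nF + b * nG + c * q = 0

/-- `z` is a common fixed point of the elements of translation number zero. -/
def FixK (F G : Dif) (nF nG q : ℤ) (z : ℝ) : Prop :=
  ∀ γ, InL F G nF nG q γ → γ z = z

/-- `γ` and the identity have the same jet of infinite order at `z`. -/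
def FlatAt (γ : Dif) (z : ℝ) : Prop :=
  ∀ l : ℕ, iteratedDeriv l (fun x => γ x) z = iteratedDeriv l (fun x => x) z

/-- No common fixed point is flat for all elements of translation number zero. -/
def NonFlat (F G : Dif) (nF nG q : ℤ) : Prop :=
  ∀ z, FixK F G nF nG q z → ∃ γ, InL F G nF nG q γ ∧ ¬ FlatAt γ z

/-- There are elements of translation number zero, extremely close to the identity on segments
`[f^{-J₀} x₀, f^{J₀} x₀]` of one gap of the common fixed set. -/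
def TinyNear (F G : Dif) (nF nG q : ℤ) (r : ℕ) : Prop :=
  ∃ f, InL F G nF nG q f ∧ ∃ z₀ z₁, FixK F G nF nG q z₀ ∧ FixK F G nF nG q z₁ ∧ z₀ < z₁ ∧
    (∀ y ∈ Ioo z₀ z₁, y < f y) ∧
    ∀ (J₀ : ℕ) (ε : ℝ), 0 < ε → ∃ x₀ ∈ Ioo z₀ z₁, ∃ a, 0 < a ∧ a ≤ 1 ∧
      ∃ s, InL F G nF nG q s ∧ s ≠ 1 ∧
        ∀ y ∈ Icc ((f ^ (-(J₀ : ℤ))) x₀) ((f ^ (J₀ : ℤ)) x₀), a ≤ f y - y ∧
          ∀ j : ℤ, |j| ≤ J₀ → f⁻¹ y ≤ (s ^ j) y ∧ (s ^ j) y ≤ f y ∧
            ∀ l ≤ r, |iteratedDeriv l (fun t => (s ^ j) t - t) y| ≤ ε * a ^ r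

/-! ## Jet bounds -/

/-- Bound for the derivatives of order `≤ n` of `h` at `x`, on the length scale `1/κ`. -/
def JB (n : ℕ) (h : ℝ → ℝ) (x U κ : ℝ) : Prop :=
  ContDiffAt ℝ ∞ h x ∧ ∀ l ≤ n, |iteratedDeriv l h x| ≤ U * κ ^ l

end Pool.Agent.F88
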