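import Pool.Agent.Lib.MP_f88c17.Val

/-!
# Jets of conjugates of maps close to the identity; gaps of the common fixed set
-/

set_option autoImplicit false

open Set Filter Topology
open scoped ContDiff

namespace Pool.Agent.F88.BA

theorem bdd_iter {φ : ℝ → ℝ} (hφ : ContDiff ℝ ∞ φ) (n : ℕ) (A B : ℝ) :
    ∃ M : ℝ, 0 < M ∧ ∀ t ∈ Icc A B, ∀ l ≤ n, |iteratedDeriv l φ t| ≤ M := by
  have key : ∀ l : ℕ, ∃ M : ℝ, 0 ≤ M ∧ ∀ t ∈ Icc A B, |iteratedDeriv l φ t| ≤ M := by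
    intro l
    have hc : Continuous (iteratedDeriv l φ) :=
      hφ.continuous_iteratedDeriv l (by exact_mod_cast le_top)
    obtain ⟨M, hM⟩ := isCompact_Icc.exists_bound_of_continuousOn (s := Icc A B) hc.continuousOn
    refine ⟨max M 0, le_max_right _ _, fun t ht => ?_⟩
    have := hM t ht
    rw [Real.norm_eq_abs] at this
    exact this.trans (le_max_left _ _)
  choose M hM0 hM using key
  refine ⟨1 + ∑ l ∈ Finset.range (n + 1), M l, ?_, fun t ht l hl => ?_⟩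
  · have : 0 ≤ ∑ l ∈ Finset.range (n + 1), M l := Finset.sum_nonneg fun l _ => hM0 l
    linarith
  · have h1 : M l ≤ ∑ l ∈ Finset.range (n + 1), M l :=
      Finset.single_le_sum (fun i _ => hM0 i) (Finset.mem_range.mpr (by omega))
    have := hM l t ht
    linarith

theorem contDiff_deriv {φ : ℝ → ℝ} (hφ : ContDiff ℝ ∞ φ) : ContDiff ℝ ∞ (deriv φ) := by
  rw [contDiff_iff_contDiffAt]
  intro x
  exact contDiffAt_deriv hφ.contDiffAt

/-- `φ ∘ g - φ` is small if `g` is close to the identity. -/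
theorem jet_left (n : ℕ) : ∀ (φ : ℝ → ℝ), ContDiff ℝ ∞ φ → ∀ A B : ℝ, ∃ C, 0 < C ∧
    ∀ (g : Dif) (t η : ℝ), t ∈ Icc A B → 0 ≤ η → η ≤ 1 →
      (∀ l ≤ n, |iteratedDeriv l (fun y => g y - y) t| ≤ η) →
      JB n (fun y => φ (g y) - φ y) t (C * η) 1 := by
  induction n with
  | zero =>
    intro φ hφ A B
    obtain ⟨M, hM0, hM⟩ := bdd_iter hφ 1 (A - 1) (B + 1)
    refine ⟨M, hM0, fun g t η ht hη0 hη1 hg => ?_⟩
    rw [JB.zero_iff]
    refine ⟨((hφ.comp g.contDiff).sub hφ).contDiffAt, ?_⟩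
    have h1 := hg 0 le_rfl
    rw [iteratedDeriv_zero] at h1
    have h1' := abs_le.mp h1
    have := Convex.norm_image_sub_le_of_norm_deriv_le (f := φ) (C := M)
      (s := Icc (A - 1) (B + 1)) (x := t) (y := g t)
      (fun z _ => (hφ.differentiable (by simp)) z)
      (fun z hz => by
        have h2 := hM z hz 1 le_rfl
        rwa [iteratedDeriv_one] at h2) (convex_Icc _ _)
      ⟨by linarith [ht.1], by linarith [ht.2]⟩ ⟨by linarith [ht.1], by linarith [ht.2]⟩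
    rw [Real.norm_eq_abs, Real.norm_eq_abs] at this
    exact this.trans (mul_le_mul_of_nonneg_left h1 hM0.le)
  | succ n ih =>
    intro φ hφ A B
    obtain ⟨C₀, hC₀, h₀⟩ := ih φ hφ A B
    obtain ⟨C₁, hC₁, h₁⟩ := ih (deriv φ) (contDiff_deriv hφ) A B
    obtain ⟨M, hM0, hM⟩ := bdd_iter (contDiff_deriv hφ) n A B
    refine ⟨C₀ + 2 ^ n * C₁ * 2 + 2 ^ n * M, by positivity, fun g t η ht hη0 hη1 hg => ?_⟩
    have a0 := h₀ g t η ht hη0 hη1 (fun l hl => hg l (by omega))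
    have a1 := h₁ g t η ht hη0 hη1 (fun l hl => hg l (by omega))
    have hgd : ContDiff ℝ ∞ (fun y => g y - y) := g.contDiff.sub contDiff_id
    have hd : JB n (deriv fun y => g y - y) t η 1 := by
      refine ⟨contDiffAt_deriv hgd.contDiffAt, fun l hl => ?_⟩
      have := hg (l + 1) (by omega)
      rw [iteratedDeriv_succ'] at this
      simpa using this
    have h1 : JB n (fun y => 1 + deriv (fun y => g y - y) y) t 2 1 := by
      have := (JB.const (n := n) (x := t) (κ := 1) 1 zero_le_one).add hd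
      refine this.mono le_rfl ?_ zero_le_one
      rw [abs_one]; linarith
    have hφJ : JB n (deriv φ) t M 1 :=
      ⟨(contDiff_deriv hφ).contDiffAt, fun l hl => by
        rw [one_pow, mul_one]; exact hM t ht l hl⟩
    rw [JB.succ_iff]
    refine ⟨((hφ.comp g.contDiff).sub hφ).contDiffAt, ?_, ?_⟩
    · refine a0.val.trans ?_
      refine mul_le_mul_of_nonneg_right ?_ hη0
      have : 0 ≤ 2 ^ n * C₁ * 2 := by positivity
      have : 0 ≤ 2 ^ n * M := by positivity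
      linarith
    · have h3 := (a1.mul zero_le_one h1).add (hφJ.mul zero_le_one hd)
      refine (h3.mono le_rfl ?_ zero_le_one).congr ?_
      · have : 0 ≤ C₀ * η := by positivity
        nlinarith
      · refine Eventually.of_forall fun y => ?_
        have e1 : HasDerivAt φ (deriv φ (g y)) (g y) :=
          ((hφ.differentiable (by simp)) _).hasDerivAt
        have e2 : HasDerivAt φ (deriv φ y) y := ((hφ.differentiable (by simp)) _).hasDerivAt
        have e3 : HasDerivAt (fun y => g y) (deriv (fun y => g y) y) y :=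
          (g.differentiable _).hasDerivAt
        have e4 := ((e1.comp y e3).sub e2).deriv
        have e5 : deriv (fun y => g y - y) y = deriv (fun y => g y) y - 1 :=
          (e3.sub (hasDerivAt_id y)).deriv
        have e6 : deriv (fun y => φ (g y) - φ y) y =
            deriv φ (g y) * deriv (fun y => g y) y - deriv φ y := e4
        rw [e6]
        simp only [e5]
        ring

/-- Conjugation of maps close to the identity by a fixed diffeomorphism. -/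
theorem jet_conj (n : ℕ) (φ : Dif) (A B : ℝ) : ∃ C, 0 < C ∧
    ∀ (g : Dif) (t η : ℝ), t ∈ Icc A B → 0 ≤ η → η ≤ 1 →
      (∀ l ≤ n, |iteratedDeriv l (fun y => g y - y) t| ≤ η) →
      ∀ l ≤ n, |iteratedDeriv l (fun y => (φ * g * φ⁻¹) y - y) (φ t)| ≤ C * η := by
  obtain ⟨C₁, hC₁, h₁⟩ := jet_left n (fun y => φ y) φ.contDiff A B
  obtain ⟨M, hM0, hM⟩ := bdd_iter (φ⁻¹).contDiff n (φ A) (φ B)
  obtain ⟨C₂, hC₂, h₂⟩ := JB.comp n M
  refine ⟨C₂ * C₁, by positivity, fun g t η ht hη0 hη1 hg l hl => ?_⟩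
  have h3 := h₁ g t η ht hη0 hη1 hg
  have e : φ⁻¹ (φ t) = t := Dif.inv_apply_self φ t
  have h4 := h₂ (fun y => φ (g y) - φ y) (fun y => φ⁻¹ y) (φ t) (C₁ * η) 1 1 zero_le_one
    zero_le_one (by rw [e]; exact h3) (φ⁻¹).contDiff.contDiffAt
    (fun l _ hl2 => by
      rw [one_mul, one_pow, mul_one]
      exact hM (φ t) ⟨φ.le_iff.mpr ht.1, φ.le_iff.mpr ht.2⟩ l hl2)
  have h5 := h4.2 l hl
  have e2 : (fun y => (φ * g * φ⁻¹) y - y) = fun y => φ (g (φ⁻¹ y)) - φ (φ⁻¹ y) := by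
    funext y
    rw [Dif.apply_inv_self]
    rfl
  rw [e2]
  rw [one_pow, mul_one] at h5
  rw [mul_assoc]
  exact h5

/-- lower bound for displacements -/
theorem disp_low (φ : Dif) (A B : ℝ) : ∃ c, 0 < c ∧ ∀ x y, x ∈ Icc A B → y ∈ Icc A B → x ≤ y →
    c * (y - x) ≤ φ y - φ x := by
  rcases lt_or_ge B A with hBA | hAB
  · exact ⟨1, one_pos, fun x y hx _ _ => absurd (hx.1.trans hx.2) (not_le.mpr hBA)⟩
  · have hc : ContinuousOn (deriv fun y => φ y) (Icc A B) :=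
      ((contDiff_deriv φ.contDiff).continuous).continuousOn
    obtain ⟨x₀, hx₀, hmin⟩ := isCompact_Icc.exists_isMinOn (nonempty_Icc.mpr hAB) hc
    refine ⟨deriv (fun y => φ y) x₀, φ.deriv_pos x₀, fun x y hx hy hxy => ?_⟩
    rcases hxy.lt_or_eq with hlt | heq
    · obtain ⟨ξ, hξ, hξ'⟩ := exists_deriv_eq_slope (fun y => φ y) hlt
        φ.continuous.continuousOn φ.differentiable.differentiableOn
      have h1 : deriv (fun y => φ y) x₀ ≤ deriv (fun y => φ y) ξ :=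
        hmin ⟨hx.1.trans hξ.1.le, hξ.2.le.trans hy.2⟩
      rw [hξ', le_div_iff₀ (by linarith)] at h1
      exact h1
    · rw [heq]; simp

/-! ## Gaps -/

section gap

variable {F G : Dif} {nF nG q : ℤ} {f : Dif} {z₀ z₁ : ℝ}

theorem gap_maps (hz₀ : FixK F G nF nG q z₀) (hz₁ : FixK F G nF nG q z₁) {γ : Dif}
    (hγ : InL F G nF nG q γ) {y : ℝ} (hy : y ∈ Ioo z₀ z₁) : γ y ∈ Ioo z₀ z₁ := by
  have h0 := hz₀ γ hγ
  have h1 := hz₁ γ hγ
  constructor
  · calc z₀ = γ z₀ := h0.symm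
      _ < γ y := γ.lt_iff.mpr hy.1
  · calc γ y < γ z₁ := γ.lt_iff.mpr hy.2
      _ = z₁ := h1

theorem gap_maps' (hz₀ : FixK F G nF nG q z₀) (hz₁ : FixK F G nF nG q z₁) {γ : Dif}
    (hγ : InL F G nF nG q γ) {y : ℝ} (hy : y ∈ Icc z₀ z₁) : γ y ∈ Icc z₀ z₁ := by
  have h0 := hz₀ γ hγ
  have h1 := hz₁ γ hγ
  constructor
  · calc z₀ = γ z₀ := h0.symm
      _ ≤ γ y := γ.le_iff.mpr hy.1
  · calc γ y ≤ γ z₁ := γ.le_iff.mpr hy.2
      _ = z₁ := h1

theorem inL_zpow (h : Act F G) {γ : Dif} (hγ : InL F G nF nG q γ) (n : ℤ) :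
    InL F G nF nG q (γ ^ n) := by
  have := (inL_iff.mp hγ).zpow h n
  rw [mul_zero] at this
  exact this

theorem inL_mul (h : Act F G) {γ δ : Dif} (hγ : InL F G nF nG q γ) (hδ : InL F G nF nG q δ) :
    InL F G nF nG q (γ * δ) := by
  have := (inL_iff.mp hγ).mul h (inL_iff.mp hδ)
  rw [add_zero] at this
  exact this

theorem inL_inv (h : Act F G) {γ : Dif} (hγ : InL F G nF nG q γ) : InL F G nF nG q γ⁻¹ := by
  have := (inL_iff.mp hγ).inv h
  rw [neg_zero] at this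
  exact this

/-- powers of `f` increase on the gap -/
theorem gap_mono (h : Act F G) (hf : InL F G nF nG q f) (hz₀ : FixK F G nF nG q z₀)
    (hz₁ : FixK F G nF nG q z₁) (hpos : ∀ y ∈ Ioo z₀ z₁, y < f y) {m m' : ℤ} (hm : m ≤ m')
    {y : ℝ} (hy : y ∈ Ioo z₀ z₁) : (f ^ m) y ≤ (f ^ m') y := by
  have hnat : ∀ n : ℕ, ∀ y ∈ Ioo z₀ z₁, y ≤ (f ^ n) y := by
    intro n
    induction n with
    | zero => intro y _; simp
    | succ n ih =>
      intro y hy
      rw [pow_succ', Dif.mul_apply]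
      have h1 : (f ^ n) y ∈ Ioo z₀ z₁ := by
        have := gap_maps hz₀ hz₁ (inL_zpow h hf (n : ℤ)) hy
        rwa [zpow_natCast] at this
      exact (ih y hy).trans (hpos _ h1).le
  obtain ⟨n, rfl⟩ : ∃ n : ℕ, m' = m + n := ⟨(m' - m).toNat, by omega⟩
  have h1 := hnat n _ (gap_maps hz₀ hz₁ (inL_zpow h hf m) hy)
  rw [← Dif.mul_apply, ← zpow_natCast, ← zpow_add] at h1
  rwa [add_comm] at h1

/-- an orbit of `f` in the gap converges to the right end -/
theorem gap_reach (h : Act F G) (hf : InL F G nF nG q f) (hz₀ : FixK F G nF nG q z₀)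
    (hz₁ : FixK F G nF nG q z₁) (hpos : ∀ y ∈ Ioo z₀ z₁, y < f y) {y w : ℝ}
    (hy : y ∈ Ioo z₀ z₁) (hw : w < z₁) : ∃ n : ℕ, w < (f ^ n) y := by
  by_contra hcon
  push Not at hcon
  have hmono : Monotone (fun n : ℕ => (f ^ n) y) := by
    intro m m' hm
    have := gap_mono h hf hz₀ hz₁ hpos (m := (m : ℤ)) (m' := (m' : ℤ)) (by exact_mod_cast hm) hy
    simpa using this
  have hbdd : BddAbove (range fun n : ℕ => (f ^ n) y) := ⟨w, by
    rintro _ ⟨n, rfl⟩; exact hcon n⟩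
  obtain ⟨L, hL⟩ : ∃ L, Tendsto (fun n : ℕ => (f ^ n) y) atTop (𝓝 L) :=
    ⟨_, tendsto_atTop_ciSup hmono hbdd⟩
  have h1 : Tendsto (fun n : ℕ => (f ^ (n + 1)) y) atTop (𝓝 L) := hL.comp (tendsto_add_atTop_nat 1)
  have h2 : Tendsto (fun n : ℕ => f ((f ^ n) y)) atTop (𝓝 (f L)) :=
    (f.continuous.tendsto L).comp hL
  have h3 : (fun n : ℕ => (f ^ (n + 1)) y) = fun n : ℕ => f ((f ^ n) y) := by
    funext n
    rw [pow_succ', Dif.mul_apply]
  rw [h3] at h1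
  have h4 : f L = L := tendsto_nhds_unique h2 h1
  have h5 : L ≤ w := le_of_tendsto' hL hcon
  have h6 : y ≤ L := by
    have := hmono.ge_of_tendsto hL 0
    simpa using this
  have h7 := hpos L ⟨lt_of_lt_of_le hy.1 h6, lt_of_le_of_lt h5 hw⟩
  rw [h4] at h7
  exact lt_irrefl _ h7

/-- sign of displacements in a gap -/
theorem gap_sign (hfix : ∀ γ, InL F G nF nG q γ → γ ≠ 1 → ∀ y ∈ Ioo z₀ z₁, γ y ≠ y)
    {γ : Dif} (hγ : InL F G nF nG q γ) {y : ℝ} (hy : y ∈ Ioo z₀ z₁) (hlt : y < γ y) :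
    ∀ x ∈ Ioo z₀ z₁, x < γ x := by
  intro x hx
  have h1 : γ ≠ 1 := by
    rintro rfl
    simp at hlt
  by_contra hcon
  push Not at hcon
  have hc : ContinuousOn (fun t => γ t - t) (Ioo z₀ z₁) :=
    (γ.continuous.sub continuous_id).continuousOn
  have h2 : (0 : ℝ) ∈ (fun t => γ t - t) '' Ioo z₀ z₁ := by
    apply isPreconnected_Ioo.intermediate_value hx hy hc
    exact ⟨by simpa using hcon, by simpa using hlt.le⟩
  obtain ⟨t, ht, ht0⟩ := h2
  exact hfix γ hγ h1 t ht (by simpa [sub_eq_zero] using ht0)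

/-- all elements are dominated by powers of `f` on the gap -/
theorem gap_dom (h : Act F G) (hf : InL F G nF nG q f) (hz₀ : FixK F G nF nG q z₀)
    (hz₁ : FixK F G nF nG q z₁) (hz : z₀ < z₁) (hpos : ∀ y ∈ Ioo z₀ z₁, y < f y)
    (hfix : ∀ γ, InL F G nF nG q γ → γ ≠ 1 → ∀ y ∈ Ioo z₀ z₁, γ y ≠ y) {γ : Dif}
    (hγ : InL F G nF nG q γ) : ∃ m : ℕ, ∀ m' : ℤ, (m : ℤ) ≤ m' → ∀ y ∈ Ioo z₀ z₁,
      (f ^ (-m')) y ≤ γ y ∧ γ y ≤ (f ^ m') y := by
  have key : ∀ γ, InL F G nF nG q γ → ∃ m : ℕ, ∀ m' : ℤ, (m : ℤ) ≤ m' → ∀ y ∈ Ioo z₀ z₁,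
      γ y ≤ (f ^ m') y := by
    intro γ hγ
    have hmid : (z₀ + z₁) / 2 ∈ Ioo z₀ z₁ := ⟨by linarith, by linarith⟩
    obtain ⟨n, hn⟩ := gap_reach h hf hz₀ hz₁ hpos hmid (gap_maps hz₀ hz₁ hγ hmid).2
    have h1 : InL F G nF nG q (γ⁻¹ * f ^ (n : ℤ)) :=
      inL_mul h (inL_inv h hγ) (inL_zpow h hf _)
    have h2 : (z₀ + z₁) / 2 < (γ⁻¹ * f ^ (n : ℤ)) ((z₀ + z₁) / 2) := by
      rw [Dif.mul_apply, Dif.lt_inv_iff, zpow_natCast]
      exact hn
    refine ⟨n, fun m' hm' y hy => ?_⟩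
    have h3 := gap_sign hfix h1 hmid h2 y hy
    rw [Dif.mul_apply, Dif.lt_inv_iff] at h3
    exact h3.le.trans (gap_mono h hf hz₀ hz₁ hpos hm' hy)
  obtain ⟨m₁, h₁⟩ := key γ hγ
  obtain ⟨m₂, h₂⟩ := key γ⁻¹ (inL_inv h hγ)
  refine ⟨max m₁ m₂, fun m' hm' y hy => ⟨?_, h₁ m' (by push_cast at hm'; omega) y hy⟩⟩
  have h3 := h₂ m' (by push_cast at hm'; omega) ((f ^ (-m')) y)
    (gap_maps hz₀ hz₁ (inL_zpow h hf _) hy)
  rw [Dif.inv_le_iff, zpow_neg, Dif.apply_inv_self, ← zpow_neg] at h3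
  -- `f^(-m') y ≤ γ (f^m' (f^-m' y))`
  have h4 : (f ^ (-m')) y ≤ γ y := h3
  exact h4

end gap

end Pool.Agent.F88.BA
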