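import Pool.Agent.Lib.MP_f88c17.GEO1b

/-!
# Task LEV: the tower of closest returns
-/

set_option autoImplicit false

open Set Filter Topology
open scoped ContDiff

namespace Pool.Agent.F88

namespace LEV

/-! ### Total length of segments with disjoint translates -/

theorem sum_le_one (N : ℕ) (a b : ℕ → ℝ) (hab : ∀ j, a j ≤ b j)
    (h : ∀ j < N, ∀ j' < N, ∀ c : ℤ, (j ≠ j' ∨ c ≠ 0) →
      Disjoint (Ico (a j) (b j)) (Ico (a j' + c) (b j' + c))) :
    ∑ j ∈ Finset.range N, (b j - a j) ≤ 1 := by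
  classical
  by_contra hcon
  push Not at hcon
  set A : Set ℝ := ⋃ j ∈ Finset.range N, Ico (a j) (b j) with hA
  have hmeas : MeasurableSet A :=
    Finset.measurableSet_biUnion _ fun j _ => measurableSet_Ico
  have hvol : MeasureTheory.volume A = ENNReal.ofReal (∑ j ∈ Finset.range N, (b j - a j)) := by
    rw [hA, MeasureTheory.measure_biUnion_finset]
    · rw [ENNReal.ofReal_sum_of_nonneg (fun j _ => sub_nonneg.mpr (hab j))]
      apply Finset.sum_congr rfl
      intro j _
      rw [Real.volume_Ico]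
    · intro j hj j' hj' hne
      have h1 := h j (by simpa using hj) j' (by simpa using hj') 0 (Or.inl hne)
      simpa using h1
    · intro j _
      exact measurableSet_Ico
  have hfund := isAddFundamentalDomain_Ioc (T := (1 : ℝ)) one_pos 0
  have hlt : MeasureTheory.volume (Ioc (0 : ℝ) (0 + 1)) < MeasureTheory.volume A := by
    rw [hvol, Real.volume_Ioc]
    apply (ENNReal.ofReal_lt_ofReal_iff (by linarith)).mpr
    simpa using hcon
  obtain ⟨x, y, hxy, hnd⟩ := MeasureTheory.exists_pair_mem_lattice_not_disjoint_vadd hfund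
    hmeas.nullMeasurableSet hlt
  obtain ⟨t, ht1, ht2⟩ := Set.not_disjoint_iff.mp hnd
  obtain ⟨m, hm⟩ := AddSubgroup.mem_zmultiples_iff.mp x.2
  obtain ⟨n, hn⟩ := AddSubgroup.mem_zmultiples_iff.mp y.2
  have hmn : m ≠ n := by
    rintro rfl
    exact hxy (Subtype.ext (hm.symm.trans hn))
  rw [Set.mem_vadd_set] at ht1 ht2
  obtain ⟨u, hu, hut⟩ := ht1
  obtain ⟨v, hv, hvt⟩ := ht2
  have e1 : (m : ℝ) + u = t := by
    rw [← hut]
    show (m : ℝ) + u = (x : ℝ) + u
    rw [← hm]; simp
  have e2 : (n : ℝ) + v = t := by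
    rw [← hvt]
    show (n : ℝ) + v = (y : ℝ) + v
    rw [← hn]; simp
  rw [hA, Set.mem_iUnion₂] at hu hv
  obtain ⟨j, hj, hju⟩ := hu
  obtain ⟨j', hj', hjv⟩ := hv
  have h1 := h j (by simpa using hj) j' (by simpa using hj') (n - m) (Or.inr (by omega))
  refine Set.disjoint_left.mp h1 hju ?_
  have e3 : u = v + ((n - m : ℤ) : ℝ) := by push_cast; linarith
  rw [e3]
  exact ⟨by linarith [hjv.1], by linarith [hjv.2]⟩

/-! ### The first return times -/

/-- the first `j ≥ 1` such that `j e` is at distance `< θ` from the integers -/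
noncomputable def NN (e θ : ℝ) : ℕ := sInf {j : ℕ | 1 ≤ j ∧ ∃ p : ℤ, |(j : ℝ) * e - p| < θ}

theorem NN_nonempty (e : ℝ) {θ : ℝ} (hθ : 0 < θ) :
    {j : ℕ | 1 ≤ j ∧ ∃ p : ℤ, |(j : ℝ) * e - p| < θ}.Nonempty := by
  obtain ⟨n, hn⟩ := exists_nat_gt (1 / θ)
  have hn0 : 0 < (n : ℝ) := (by positivity : 0 < 1 / θ).trans hn
  have hn0' : 0 < n := by exact_mod_cast hn0
  obtain ⟨k, hk0, -, hk⟩ := Real.exists_nat_abs_mul_sub_round_le e hn0'
  refine ⟨k, hk0, round ((k : ℝ) * e), lt_of_le_of_lt hk ?_⟩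
  rw [div_lt_iff₀ (by linarith)]
  rw [div_lt_iff₀ hθ] at hn
  nlinarith

theorem NN_spec (e : ℝ) {θ : ℝ} (hθ : 0 < θ) :
    1 ≤ NN e θ ∧ ∃ p : ℤ, |(NN e θ : ℝ) * e - p| < θ := Nat.sInf_mem (NN_nonempty e hθ)

theorem le_of_lt_NN {e θ : ℝ} {j : ℕ} (hj : 1 ≤ j) (hjN : j < NN e θ) (p : ℤ) :
    θ ≤ |(j : ℝ) * e - p| := by
  by_contra hcon
  push Not at hcon
  exact Nat.notMem_of_lt_sInf hjN ⟨hj, p, hcon⟩

theorem NN_le {e θ : ℝ} {j : ℕ} (hj : 1 ≤ j) {p : ℤ} (h : |(j : ℝ) * e - p| < θ) :
    NN e θ ≤ j := Nat.sInf_le ⟨hj, p, h⟩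

theorem NN_neg (e θ : ℝ) : NN (-e) θ = NN e θ := by
  unfold NN
  congr 1
  ext j
  constructor
  · rintro ⟨hj, p, hp⟩
    refine ⟨hj, -p, ?_⟩
    rw [← abs_neg]
    convert! hp using 2
    push_cast; ring
  · rintro ⟨hj, p, hp⟩
    refine ⟨hj, -p, ?_⟩
    rw [← abs_neg]
    convert! hp using 2
    push_cast; ring

theorem NN_anti {e θ θ' : ℝ} (hθ' : 0 < θ') (h : θ' ≤ θ) : NN e θ ≤ NN e θ' := by
  obtain ⟨h1, p, hp⟩ := NN_spec e hθ'
  exact NN_le h1 (hp.trans_le h)

/-! ### The group and its translation numbers -/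

section grp

variable {F G : Dif} {α β : ℝ}

theorem zpow_form_comm (h : Act F G) (a b c a' b' c' : ℤ) :
    (F ^ a * G ^ b * T ^ c) * (F ^ a' * G ^ b' * T ^ c')
      = F ^ (a + a') * G ^ (b + b') * T ^ (c + c') := by
  have h1 : Commute (T ^ c) (F ^ a') := (h.FT.symm.zpow_left c).zpow_right a'
  have h2 : Commute (T ^ c) (G ^ b') := (h.GT.symm.zpow_left c).zpow_right b'
  have h3 : Commute (G ^ b) (F ^ a') := (h.FG.symm.zpow_left b).zpow_right a'
  calc (F ^ a * G ^ b * T ^ c) * (F ^ a' * G ^ b' * T ^ c')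
      = F ^ a * G ^ b * (T ^ c * F ^ a') * G ^ b' * T ^ c' := by group
    _ = F ^ a * (G ^ b * F ^ a') * (T ^ c * G ^ b') * T ^ c' := by rw [h1.eq]; group
    _ = F ^ a * (F ^ a' * G ^ b) * (G ^ b' * T ^ c) * T ^ c' := by rw [h2.eq, h3.eq]
    _ = F ^ (a + a') * G ^ (b + b') * T ^ (c + c') := by
      rw [zpow_add, zpow_add, zpow_add]; group

theorem tau_one : HasTau F G α β 1 0 := ⟨0, 0, 0, by simp, by simp⟩

theorem tau_mul (h : Act F G) {g g' : Dif} {t t' : ℝ} (hg : HasTau F G α β g t)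
    (hg' : HasTau F G α β g' t') : HasTau F G α β (g * g') (t + t') := by
  obtain ⟨a, b, c, rfl, rfl⟩ := hg
  obtain ⟨a', b', c', rfl, rfl⟩ := hg'
  exact ⟨a + a', b + b', c + c', zpow_form_comm h _ _ _ _ _ _, by push_cast; ring⟩

theorem tau_inv (h : Act F G) {g : Dif} {t : ℝ} (hg : HasTau F G α β g t) :
    HasTau F G α β g⁻¹ (-t) := by
  obtain ⟨a, b, c, rfl, rfl⟩ := hg
  refine ⟨-a, -b, -c, ?_, by push_cast; ring⟩
  rw [inv_eq_iff_mul_eq_one, zpow_form_comm h]
  simp

theorem tau_pow (h : Act F G) {g : Dif} {t : ℝ} (hg : HasTau F G α β g t) (n : ℕ) :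
    HasTau F G α β (g ^ n) (n * t) := by
  induction n with
  | zero => simpa using tau_one
  | succ n ih =>
    rw [pow_succ]
    have := tau_mul h ih hg
    convert! this using 1
    push_cast; ring

theorem tau_T : HasTau F G α β T 1 := ⟨0, 0, 1, by simp, by simp⟩

theorem tau_zpow (h : Act F G) {g : Dif} {t : ℝ} (hg : HasTau F G α β g t) (n : ℤ) :
    HasTau F G α β (g ^ n) (n * t) := by
  cases n with
  | ofNat n => simpa using tau_pow h hg n
  | negSucc n =>
    rw [zpow_negSucc]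
    have := tau_inv h (tau_pow h hg (n + 1))
    convert! this using 1
    push_cast; ring

theorem tau_gen (h : Act F G) (k : Fin 4) : HasTau F G α β (gen F G k) (rot α β k) := by
  have hF : HasTau F G α β F α := ⟨1, 0, 0, by simp, by simp⟩
  have hG : HasTau F G α β G β := ⟨0, 1, 0, by simp, by simp⟩
  fin_cases k
  · exact hF
  · exact tau_inv h hF
  · exact hG
  · exact tau_inv h hG

theorem tau_comm (h : Act F G) {g g' : Dif} {t t' : ℝ} (hg : HasTau F G α β g t)
    (hg' : HasTau F G α β g' t') : Commute g g' := by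
  obtain ⟨a, b, c, rfl, rfl⟩ := hg
  obtain ⟨a', b', c', rfl, rfl⟩ := hg'
  show _ * _ = _ * _
  rw [zpow_form_comm h, zpow_form_comm h, add_comm a, add_comm b, add_comm c]

theorem tau_lt (h : Free F G α β) {g g' : Dif} {t t' : ℝ} (hg : HasTau F G α β g t)
    (hg' : HasTau F G α β g' t') (htt : t < t') (x : ℝ) : g x < g' x := by
  have h1 := tau_mul h.toAct (tau_inv h.toAct hg) hg'
  obtain ⟨a, b, c, he, ht⟩ := h1
  have h2 := h.pos a b c (by linarith) x
  rw [← he] at h2
  have h3 : g x < g ((g⁻¹ * g') x) := g.strictMono h2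
  simpa using h3

theorem lt_of_apply_lt (h : Free F G α β) {g g' : Dif} {t t' : ℝ} (hg : HasTau F G α β g t)
    (hg' : HasTau F G α β g' t') {x : ℝ} (hx : g x < g' x) : t < t' := by
  by_contra hcon
  push Not at hcon
  rcases hcon.lt_or_eq with h1 | h1
  · exact absurd hx (not_lt.mpr (tau_lt h hg' hg h1 x).le)
  · obtain ⟨a, b, c, rfl, rfl⟩ := hg
    obtain ⟨a', b', c', rfl, h2⟩ := hg'
    have h3 := h.indep (a - a') (b - b') (c - c') (by push_cast; linarith)
    have e1 : a = a' := by omega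
    have e2 : b = b' := by omega
    have e3 : c = c' := by omega
    rw [e1, e2, e3] at hx
    exact lt_irrefl _ hx

/-- the rotation numbers of the generators are irrational -/
theorem rot_ne (h : Free F G α β) (k : Fin 4) (n p : ℤ) (hn : n ≠ 0) :
    (n : ℝ) * rot α β k - p ≠ 0 := by
  intro h0
  have key : ∀ a b c : ℤ, (a : ℝ) * α + b * β + c = 0 → a = 0 ∧ b = 0 := fun a b c h1 =>
    ⟨(h.indep a b c h1).1, (h.indep a b c h1).2.1⟩
  fin_cases k
  · have e : rot α β 0 = α := rfl
    have := key n 0 (-p) (by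
      have h1 : (n : ℝ) * α - p = 0 := h0
      push_cast; linarith)
    exact hn this.1
  · have := key n 0 p (by
      have h1 : (n : ℝ) * (-α) - p = 0 := h0
      push_cast; linarith)
    exact hn this.1
  · have := key 0 n (-p) (by
      have h1 : (n : ℝ) * β - p = 0 := h0
      push_cast; linarith)
    exact hn this.2
  · have := key 0 n p (by
      have h1 : (n : ℝ) * (-β) - p = 0 := h0
      push_cast; linarith)
    exact hn this.2

end grp

section level

variable {F G : Dif} {α β : ℝ}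

theorem gT_apply (h : Act F G) (k : Fin 4) (j : ℕ) (c : ℤ) (x : ℝ) :
    (gen F G k ^ j * T ^ c) x = (gen F G k ^ j) x + c := by
  have h1 : Commute (gen F G k ^ j) (T ^ c) :=
    tau_comm (α := 0) (β := 0) h (tau_pow h (tau_gen h k) j) (tau_zpow h tau_T c)
  rw [h1.eq]
  show (T ^ c) ((gen F G k ^ j) x) = _
  rw [T_zpow_apply]

theorem ld_of_next (h : Free F G α β) {θp θ : ℝ} {k : Fin 4} {q : ℕ} {p : ℤ} (hθ : 0 < θ)
    (hlt : θ < θp) (hhalf : θp ≤ 1 / 2) (hq : q = NN (rot α β k) θp)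
    (hθe : θ = q * rot α β k - p) :
    LD F G (gen F G k ^ q * T ^ (-p)) k q p (fun j => NN (rot α β j) θ) := by
  have hA := h.toAct
  have tg : ∀ i, HasTau F G α β (gen F G i) (rot α β i) := fun i => tau_gen hA i
  have tgT : ∀ (i : Fin 4) (j : ℕ) (c : ℤ),
      HasTau F G α β (gen F G i ^ j * T ^ c) (j * rot α β i + c) := by
    intro i j c
    have := tau_mul hA (tau_pow hA (tg i) j) (tau_zpow hA tau_T c)
    simpa using this
  set S : Dif := gen F G k ^ q * T ^ (-p) with hS
  have tS : HasTau F G α β S θ := by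
    have := tgT k q (-p)
    convert! this using 1
    rw [hθe]; push_cast; ring
  have hpos : ∀ x, x < S x := fun x => tau_lt h tau_one tS hθ x
  have hq1 : 1 ≤ q := by rw [hq]; exact (NN_spec _ (hθ.trans hlt)).1
  have hqle : q ≤ NN (rot α β k) θ := by rw [hq]; exact NN_anti hθ hlt.le
  have hθ2 : θ < 1 / 2 := hlt.trans_le hhalf
  refine ⟨hq1, rfl, hqle, hpos, ?_, ?_⟩
  · -- disjointness
    intro i x
    apply sum_le_one (NN (rot α β i) θ) (fun j => (gen F G i ^ j) x)
      (fun j => S ((gen F G i ^ j) x)) (fun j => (hpos _).le)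
    intro j hj j' hj' c hne
    rw [Set.disjoint_left]
    rintro t ⟨ht1, ht2⟩ ⟨ht3, ht4⟩
    have h1 : (gen F G i ^ j) x < (T ^ c * (S * gen F G i ^ j')) x := by
      have e : (T ^ c * (S * gen F G i ^ j')) x = S ((gen F G i ^ j') x) + c := by
        show (T ^ c) (S ((gen F G i ^ j') x)) = _
        rw [T_zpow_apply]
      rw [e]; exact lt_of_le_of_lt ht1 ht4
    have h2 : (T ^ c * gen F G i ^ j') x < (S * gen F G i ^ j) x := by
      have e : (T ^ c * gen F G i ^ j') x = (gen F G i ^ j') x + c := by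
        show (T ^ c) ((gen F G i ^ j') x) = _
        rw [T_zpow_apply]
      rw [e]; exact lt_of_le_of_lt ht3 ht2
    have k1 := lt_of_apply_lt h (tau_pow hA (tg i) j)
      (tau_mul hA (tau_zpow hA tau_T c) (tau_mul hA tS (tau_pow hA (tg i) j'))) h1
    have k2 := lt_of_apply_lt h (tau_mul hA (tau_zpow hA tau_T c) (tau_pow hA (tg i) j'))
      (tau_mul hA tS (tau_pow hA (tg i) j)) h2
    rw [mul_one] at k1 k2
    rcases lt_trichotomy j j' with hjj | hjj | hjj
    · have h3 := le_of_lt_NN (e := rot α β i) (θ := θ) (j := j' - j) (by omega) (by omega) (-c)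
      have e : (((j' - j : ℕ) : ℝ)) = (j' : ℝ) - j := by
        rw [Nat.cast_sub hjj.le]
      rw [e] at h3
      have h4 : |((j' : ℝ) - j) * rot α β i - ((-c : ℤ) : ℝ)| < θ := by
        rw [abs_lt]; push_cast
        constructor <;> nlinarith
      linarith
    · subst hjj
      have hc : c ≠ 0 := by
        rcases hne with h | h
        · exact absurd rfl h
        · exact h
      have h3 : (-θ : ℝ) < c := by linarith
      have h4 : (c : ℝ) < θ := by linarith
      have h5 : (-1 : ℝ) < c := by linarith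
      have h6 : (c : ℝ) < 1 := by linarith
      have h7 : (-1 : ℤ) < c := by exact_mod_cast h5
      have h8 : c < (1 : ℤ) := by exact_mod_cast h6
      omega
    · have h3 := le_of_lt_NN (e := rot α β i) (θ := θ) (j := j - j') (by omega) (by omega) c
      have e : (((j - j' : ℕ) : ℝ)) = (j : ℝ) - j' := by
        rw [Nat.cast_sub hjj.le]
      rw [e] at h3
      have h4 : |((j : ℝ) - j') * rot α β i - (c : ℝ)| < θ := by
        rw [abs_lt]
        constructor <;> nlinarith
      linarith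
  · -- covering
    intro x z
    set Q := NN (rot α β k) θ with hQ
    obtain ⟨hQ1, pp, hpp⟩ := NN_spec (rot α β k) hθ
    rw [← hQ] at hQ1 hpp
    have hqQ : q < Q := by
      rcases hqle.lt_or_eq with h1 | h1
      · exact h1
      · exfalso
        rw [← h1] at hpp
        have h2 := abs_lt.mp hpp
        have h3 : (0 : ℝ) < pp - p := by linarith [h2.2]
        have h4 : ((pp : ℝ) - p) < 1 := by linarith [h2.1]
        have h5 : (0 : ℤ) < pp - p := by exact_mod_cast h3
        have h6 : pp - p < (1 : ℤ) := by exact_mod_cast h4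
        omega
    have hu : (Q : ℝ) * rot α β k - pp < 0 := by
      by_contra hcon
      push Not at hcon
      have hne := rot_ne h k Q pp (by omega)
      have h1 : 0 < (Q : ℝ) * rot α β k - pp := lt_of_le_of_ne hcon (by
        intro h0; exact hne (by push_cast; exact h0.symm))
      have h2 := le_of_lt_NN (e := rot α β k) (θ := θ) (j := Q - q) (by omega) (by omega)
        (pp - p)
      have e : (((Q - q : ℕ) : ℝ)) = (Q : ℝ) - q := by
        rw [Nat.cast_sub hqQ.le]
      rw [e] at h2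
      have h3 := abs_lt.mp hpp
      have h4 : |((Q : ℝ) - q) * rot α β k - ((pp - p : ℤ) : ℝ)| < θ := by
        have e2 : ((Q : ℝ) - q) * rot α β k - ((pp - p : ℤ) : ℝ)
            = ((Q : ℝ) * rot α β k - pp) - θ := by rw [hθe]; push_cast; ring
        rw [e2, abs_lt]
        constructor <;> linarith [h3.2]
      linarith
    -- the largest element of the orbit
    set cc : ℕ → ℤ := fun j => ⌊z - (gen F G k ^ j) x⌋ with hcc
    set v : ℕ → ℝ := fun j => (gen F G k ^ j) x + cc j with hv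
    have hvz : ∀ j, v j ≤ z := fun j => by
      have := Int.floor_le (z - (gen F G k ^ j) x)
      simp only [hv, hcc]; linarith
    obtain ⟨j, hj, hmax⟩ := Finset.exists_max_image (Finset.range (q + Q)) v
      ⟨0, by rw [Finset.mem_range]; omega⟩
    rw [Finset.mem_range] at hj
    have hall : ∀ j' < q + Q, ∀ c : ℤ, (gen F G k ^ j') x + c ≤ z →
        (gen F G k ^ j') x + c ≤ v j := by
      intro j' hj' c hc
      refine le_trans ?_ (hmax j' (by simpa using hj'))
      have : c ≤ ⌊z - (gen F G k ^ j') x⌋ := Int.le_floor.mpr (by linarith)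
      have : (c : ℝ) ≤ ⌊z - (gen F G k ^ j') x⌋ := by exact_mod_cast this
      simp only [hv, hcc]; linarith
    have hyv : (gen F G k ^ j * T ^ (cc j)) x = v j := gT_apply hA k j (cc j) x
    refine ⟨j, hj, cc j, by rw [hyv]; exact hvz j, ?_⟩
    have hcS : (gen F G k ^ j * T ^ (cc j)) (S x) = S ((gen F G k ^ j * T ^ (cc j)) x) :=
      Dif.comm_apply (tau_comm hA (tgT k j (cc j)) tS) x
    rw [hcS]
    by_contra hcon
    push Not at hcon
    by_cases hjQ : j < Q
    · -- S y is in the orbit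
      have e1 : S ((gen F G k ^ j * T ^ (cc j)) x)
          = (gen F G k ^ (j + q)) x + ((cc j - p : ℤ) : ℝ) := by
        rw [← gT_apply hA k (j + q) (cc j - p) x]
        have : S * (gen F G k ^ j * T ^ (cc j)) = gen F G k ^ (j + q) * T ^ (cc j - p) := by
          have c1 : Commute (T ^ (-p)) (gen F G k ^ j) :=
            tau_comm hA (tau_zpow hA tau_T (-p)) (tau_pow hA (tg k) j)
          calc S * (gen F G k ^ j * T ^ (cc j))
              = gen F G k ^ q * (T ^ (-p) * gen F G k ^ j) * T ^ (cc j) := by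
                rw [hS]; group
            _ = gen F G k ^ q * (gen F G k ^ j * T ^ (-p)) * T ^ (cc j) := by rw [c1.eq]
            _ = gen F G k ^ (j + q) * T ^ (cc j - p) := by
                rw [pow_add, zpow_sub, (Commute.pow_pow (Commute.refl (gen F G k)) j q).eq]
                group
        rw [← this]; rfl
      rw [e1] at hcon
      have h1 := hall (j + q) (by omega) (cc j - p) hcon
      rw [← e1, ← hyv] at h1
      exact absurd (hpos _) (not_lt.mpr h1)
    · push Not at hjQ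
      have hj' : j - Q < q + Q := by omega
      have e1 : (gen F G k ^ (j - Q) * T ^ (cc j + pp)) x
          = (gen F G k ^ (j - Q)) x + ((cc j + pp : ℤ) : ℝ) := gT_apply hA k _ _ x
      have ecast : (((j - Q : ℕ) : ℝ)) = (j : ℝ) - Q := by
        rw [Nat.cast_sub hjQ]
      have hl1 : (gen F G k ^ j * T ^ (cc j)) x < (gen F G k ^ (j - Q) * T ^ (cc j + pp)) x := by
        apply tau_lt h (tgT k j (cc j)) (tgT k (j - Q) (cc j + pp))
        rw [ecast]; push_cast
        nlinarith
      have hl2 : (gen F G k ^ (j - Q) * T ^ (cc j + pp)) x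
          < (S * (gen F G k ^ j * T ^ (cc j))) x := by
        apply tau_lt h (tgT k (j - Q) (cc j + pp)) (tau_mul hA tS (tgT k j (cc j)))
        rw [ecast]; push_cast
        have h3 := abs_lt.mp hpp
        nlinarith [h3.1]
      have h1 : (gen F G k ^ (j - Q)) x + ((cc j + pp : ℤ) : ℝ) ≤ z := by
        rw [← e1]
        exact (hl2.le).trans hcon
      have h2 := hall (j - Q) hj' (cc j + pp) h1
      rw [← e1, ← hyv] at h2
      exact absurd hl1 (not_lt.mpr h2)

/-- the information about the next level -/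
structure Next (F G : Dif) (α β θp θ : ℝ) (k : Fin 4) (q : ℕ) (p : ℤ) : Prop where
  pos : 0 < θ
  lt : θ < θp
  hq : q = NN (rot α β k) θp
  hθ : θ = q * rot α β k - p
  ret : ∃ pF pG e : ℤ, (e = 1 ∨ e = -1) ∧
    ((gen F G k ^ q * T ^ (-p) = (F ^ (NN α θp) * T ^ (-pF)) ^ e ∧
        |(NN β θp : ℝ) * β - pG| < θ) ∨
     (gen F G k ^ q * T ^ (-p) = (G ^ (NN β θp) * T ^ (-pG)) ^ e ∧
        |(NN α θp : ℝ) * α - pF| < θ))

theorem inv_form {X : Dif} (hX : Commute X T) (n : ℕ) (p : ℤ) :
    (X⁻¹) ^ n * T ^ (-(-p)) = (X ^ n * T ^ (-p)) ^ (-1 : ℤ) := by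
  have h1 : Commute (X ^ n) (T ^ (-p)) := (hX.pow_left n).zpow_right (-p)
  rw [zpow_neg_one, h1.eq, mul_inv_rev, inv_pow, neg_neg, zpow_neg, inv_inv]

theorem exists_next (h : Free F G α β) {θp : ℝ} (hθ : 0 < θp) :
    ∃ (θ : ℝ) (k : Fin 4) (q : ℕ) (p : ℤ), Next F G α β θp θ k q p := by
  obtain ⟨hF1, pF, hpF⟩ := NN_spec α hθ
  obtain ⟨hG1, pG, hpG⟩ := NN_spec β hθ
  set nF := NN α θp with hnF
  set nG := NN β θp with hnG
  set X := (nF : ℝ) * α - pF with hX
  set Y := (nG : ℝ) * β - pG with hY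
  have hX0 : X ≠ 0 := by
    intro h0
    have := h.indep nF 0 (-pF) (by push_cast; rw [hX] at h0; linarith)
    omega
  have hY0 : Y ≠ 0 := by
    intro h0
    have := h.indep 0 nG (-pG) (by push_cast; rw [hY] at h0; linarith)
    omega
  have hXY : |X| ≠ |Y| := by
    intro h0
    rcases abs_eq_abs.mp h0 with h1 | h1
    · have := h.indep nF (-nG) (-pF + pG) (by push_cast; rw [hX, hY] at h1; linarith)
      omega
    · have := h.indep nF nG (-pF - pG) (by push_cast; rw [hX, hY] at h1; linarith)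
      omega
  rcases lt_or_gt_of_ne hXY with hlt | hlt
  · -- Y is larger: type G
    rcases lt_or_gt_of_ne hY0 with hs | hs
    · refine ⟨|Y|, 3, nG, -pG, ⟨abs_pos.mpr hY0, hpG, ?_, ?_, ?_⟩⟩
      · show nG = NN (-β) θp
        rw [NN_neg]
      · rw [abs_of_neg hs]
        show -Y = nG * (-β) - ((-pG : ℤ) : ℝ)
        rw [hY]; push_cast; ring
      · refine ⟨pF, pG, -1, Or.inr rfl, Or.inr ⟨?_, hlt⟩⟩
        exact inv_form h.GT nG pG
    · refine ⟨|Y|, 2, nG, pG, ⟨abs_pos.mpr hY0, hpG, rfl, ?_, ?_⟩⟩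
      · rw [abs_of_pos hs]
        show Y = nG * β - pG
        rw [hY]
      · refine ⟨pF, pG, 1, Or.inl rfl, Or.inr ⟨?_, hlt⟩⟩
        rw [zpow_one]; rfl
  · rcases lt_or_gt_of_ne hX0 with hs | hs
    · refine ⟨|X|, 1, nF, -pF, ⟨abs_pos.mpr hX0, hpF, ?_, ?_, ?_⟩⟩
      · show nF = NN (-α) θp
        rw [NN_neg]
      · rw [abs_of_neg hs]
        show -X = nF * (-α) - ((-pF : ℤ) : ℝ)
        rw [hX]; push_cast; ring
      · refine ⟨pF, pG, -1, Or.inr rfl, Or.inl ⟨?_, hlt⟩⟩
        exact inv_form h.FT nF pF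
    · refine ⟨|X|, 0, nF, pF, ⟨abs_pos.mpr hX0, hpF, rfl, ?_, ?_⟩⟩
      · rw [abs_of_pos hs]
        show X = nF * α - pF
        rw [hX]
      · refine ⟨pF, pG, 1, Or.inl rfl, Or.inl ⟨?_, hlt⟩⟩
        rw [zpow_one]; rfl

end level

end LEV

open LEV in
theorem exists_tower {F G : Dif} {α β : ℝ} (h : Free F G α β) : Nonempty (Tower F G α β) := by
  have hA := h.toAct
  choose f k q p hf using fun t : {θ : ℝ // 0 < θ} => exists_next h t.2
  let nx : {θ : ℝ // 0 < θ} → {θ : ℝ // 0 < θ} := fun t => ⟨f t, (hf t).pos⟩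
  let t : ℕ → {θ : ℝ // 0 < θ} := fun n => nx^[n] ⟨1 / 2, by norm_num⟩
  have ht0 : (t 0 : ℝ) = 1 / 2 := rfl
  have hts : ∀ n, t (n + 1) = nx (t n) := fun n => Function.iterate_succ_apply' nx n _
  have htf : ∀ n, (t (n + 1) : ℝ) = f (t n) := fun n => by rw [hts]
  have hlt : ∀ n, (t (n + 1) : ℝ) < t n := fun n => by rw [htf]; exact (hf (t n)).lt
  have hanti : StrictAnti fun n => (t n : ℝ) := strictAnti_nat_of_succ_lt hlt
  have hhalf : ∀ n, (t n : ℝ) ≤ 1 / 2 := fun n => by
    rw [← ht0]; exact hanti.antitone (Nat.zero_le n)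
  have hNext : ∀ n, Next F G α β (t n) (t (n + 1)) (k (t n)) (q (t n)) (p (t n)) := fun n => by
    rw [htf]; exact hf (t n)
  have hld : ∀ n, LD F G (gen F G (k (t n)) ^ q (t n) * T ^ (-p (t n))) (k (t n)) (q (t n))
      (p (t n)) (fun j => NN (rot α β j) (t (n + 1))) := fun n =>
    ld_of_next h (hNext n).pos (hNext n).lt (hhalf n) (hNext n).hq (hNext n).hθ
  have htau : ∀ n, HasTau F G α β (gen F G (k (t n)) ^ q (t n) * T ^ (-p (t n)))
      (t (n + 1)) := by
    intro n
    have := tau_mul hA (tau_pow hA (tau_gen (α := α) (β := β) hA (k (t n))) (q (t n)))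
      (tau_zpow hA tau_T (-p (t n)))
    convert! this using 1
    rw [(hNext n).hθ]; push_cast; ring
  have hST : ∀ n, Commute (gen F G (k (t n)) ^ q (t n) * T ^ (-p (t n))) T := fun n =>
    tau_comm hA (htau n) tau_T
  have hper : ∀ n x, (gen F G (k (t n)) ^ q (t n) * T ^ (-p (t n))) (x + 1) - (x + 1)
      = (gen F G (k (t n)) ^ q (t n) * T ^ (-p (t n))) x - x := fun n x => by
    rw [GEO1b.apply_add_one (hST n)]; ring
  choose xM hM using fun n => GEO1b.per_max
    (f := fun x => (gen F G (k (t n)) ^ q (t n) * T ^ (-p (t n))) x - x)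
    ((gen F G (k (t n)) ^ q (t n) * T ^ (-p (t n))).continuous.sub continuous_id) (hper n)
  choose xμ hμ using fun n => GEO1b.per_min
    (f := fun x => (gen F G (k (t n)) ^ q (t n) * T ^ (-p (t n))) x - x)
    ((gen F G (k (t n)) ^ q (t n) * T ^ (-p (t n))).continuous.sub continuous_id) (hper n)
  refine ⟨{
    S := fun i => gen F G (k (t i)) ^ q (t i) * T ^ (-p (t i))
    k := fun i => k (t i)
    q := fun i => q (t i)
    p := fun i => p (t i)
    N := fun i j => NN (rot α β j) (t (i + 1))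
    θ := fun i => t (i + 1)
    M := fun i => (gen F G (k (t i)) ^ q (t i) * T ^ (-p (t i))) (xM i) - xM i
    μ := fun i => (gen F G (k (t i)) ^ q (t i) * T ^ (-p (t i))) (xμ i) - xμ i
    ld := hld
    tau := htau
    θ_pos := fun i => (t (i + 1)).2
    θ_lt := fun i => hlt (i + 1)
    half := ?_
    next_q := fun i => (hNext (i + 1)).hq
    N_pos := fun i j => (NN_spec (rot α β j) (t (i + 1)).2).1
    N01 := fun i => ?_
    N23 := fun i => ?_
    ret := fun i => ?_
    le_M := fun i x => hM i x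
    μ_le := fun i x => hμ i x
    M_att := fun i => ⟨xM i, rfl⟩
    μ_att := fun i => ⟨xμ i, rfl⟩ }⟩
  · -- two of five consecutive levels have the same generator
    intro i
    obtain ⟨a, b, hab, hk⟩ := Fintype.exists_ne_map_eq_of_card_lt
      (fun l : Fin 5 => k (t (i + 1 + l))) (by simp)
    wlog hlt' : a < b generalizing a b
    · exact this b a hab.symm hk.symm (lt_of_le_of_ne (not_lt.mp hlt') hab.symm)
    have hablt : (a : ℕ) < b := hlt'
    have hk' : k (t (i + 1 + a)) = k (t (i + 1 + b)) := hk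
    set a' := i + 1 + (a : ℕ) with ha'
    set b' := i + 1 + (b : ℕ) with hb'
    have hb5 : (b : ℕ) ≤ 4 := by omega
    have na := hNext a'
    have nb := hNext b'
    rw [← hk'] at nb
    set K := k (t a')
    -- q a' < q b'
    have hqa := na.hq
    have hqb := nb.hq
    have hθa := na.hθ
    have hθb := nb.hθ
    have hle1 : (t b' : ℝ) ≤ t (a' + 1) := hanti.antitone (by omega)
    have hlt1 : (t (b' + 1) : ℝ) < t (a' + 1) := hanti (by omega)
    have hqle : NN (rot α β K) (t (a' + 1)) ≤ q (t b') := by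
      rw [hqb]; exact NN_anti (t b').2 hle1
    have hq1 : q (t a') < NN (rot α β K) (t (a' + 1)) := by
      obtain ⟨hQ1, pp, hpp⟩ := NN_spec (rot α β K) (t (a' + 1)).2
      have hle : q (t a') ≤ NN (rot α β K) (t (a' + 1)) := by
        rw [hqa]; exact NN_anti (t (a' + 1)).2 (hlt a').le
      rcases hle.lt_or_eq with h1 | h1
      · exact h1
      · exfalso
        rw [← h1] at hpp
        have h2 := abs_lt.mp hpp
        have h3 : (0 : ℝ) < pp - p (t a') := by linarith [h2.2]
        have h2' := hhalf (a' + 1)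
        have hltx := hlt a'
        have hhx := hhalf a'
        have h4 : ((pp : ℝ) - p (t a')) < 1 := by linarith [h2.1]
        have h5 : (0 : ℤ) < pp - p (t a') := by exact_mod_cast h3
        have h6 : pp - p (t a') < (1 : ℤ) := by exact_mod_cast h4
        omega
    have hqq : q (t a') < q (t b') := lt_of_lt_of_le hq1 hqle
    have hqa1 : 1 ≤ q (t a') := (hld a').q_pos
    have h3 := le_of_lt_NN (e := rot α β K) (θ := (t b' : ℝ)) (j := q (t b') - q (t a'))
      (by omega) (by rw [← hqb]; omega) (p (t b') - p (t a'))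
    have e : (((q (t b') - q (t a') : ℕ) : ℝ)) = (q (t b') : ℝ) - q (t a') := by
      rw [Nat.cast_sub hqq.le]
    rw [e] at h3
    have e2 : ((q (t b') : ℝ) - q (t a')) * rot α β K - ((p (t b') - p (t a') : ℤ) : ℝ)
        = (t (b' + 1) : ℝ) - t (a' + 1) := by
      rw [hθa, hθb]; push_cast; ring
    rw [e2, abs_of_neg (by linarith)] at h3
    have h4 : (t (b' + 1) : ℝ) < t b' := hlt b'
    have h5 : (t (a' + 1) : ℝ) < t (i + 1) := hanti (by omega)
    have h6 : (t (i + 5 + 1) : ℝ) ≤ t (b' + 1) := hanti.antitone (by omega)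
    show 2 * (t (i + 5 + 1) : ℝ) < t (i + 1)
    linarith
  · show NN α _ = NN (-α) _
    rw [NN_neg]
  · show NN β _ = NN (-β) _
    rw [NN_neg]
  · exact (hNext (i + 1)).ret

end Pool.Agent.F88
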