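import Pool.Agent.Lib.MP_f88c17.Windows

/-!
# Task LLA, part (A): iterated differences along the orbit
-/

set_option autoImplicit false

open Set Filter Topology
open scoped ContDiff

namespace Pool.Agent.F88.LL

/-- iterated differences along `S` -/
noncomputable def dd (S : Dif) : ℕ → (ℝ → ℝ) → (ℝ → ℝ)
  | 0, h => h
  | j + 1, h => fun x => dd S j h (S x) - dd S j h x

theorem dd_zero (S : Dif) (h : ℝ → ℝ) : dd S 0 h = h := rfl

theorem dd_succ (S : Dif) (j : ℕ) (h : ℝ → ℝ) :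
    dd S (j + 1) h = fun x => dd S j h (S x) - dd S j h x := rfl

theorem JB.phi {S : Dif} {x₀ a ρ ν C : ℝ} {n : ℕ} {K : ℤ} (hW : Win S x₀ a ρ ν C n K) {z : ℝ}
    (hz : z ∈ Wd S x₀ K) : JB n (fun y => S y - y) z (C * a) ρ :=
  ⟨(S.contDiff.sub contDiff_id).contDiffAt, fun l hl => hW.der z hz l hl⟩

theorem deriv_S_eq (S : Dif) : deriv (fun y => S y) = fun y => deriv (fun t => S t - t) y + 1 := by
  funext y
  have h1 : HasDerivAt (fun t => S t - t) (deriv (fun t => S t) y - 1) y :=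
    (S.differentiable y).hasDerivAt.sub (hasDerivAt_id y)
  rw [h1.deriv]; ring

/-- the derivatives of `S` on a window -/
theorem S_bounds {S : Dif} {x₀ a ρ ν C : ℝ} {n : ℕ} {K : ℤ} (hW : Win S x₀ a ρ ν C n K) {z : ℝ}
    (hz : z ∈ Wd S x₀ K) {l : ℕ} (h1 : 1 ≤ l) (hl : l ≤ n) :
    ρ * |iteratedDeriv l (fun y => S y) z| ≤ (1 + C) * ρ ^ l := by
  have hφ := JB.phi hW hz
  have hρ := hW.ρ_pos
  have hC := hW.C_ge
  have hν := hW.ν_le
  have hd := hφ.2 l hl
  have e0 : (fun y => S y) = fun y => (S y - y) + y := by funext y; ring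
  have e1 : iteratedDeriv l (fun y => S y) z =
      iteratedDeriv l (fun y => S y - y) z + iteratedDeriv l (fun y => y) z := by
    conv_lhs => rw [e0]
    exact iteratedDeriv_fun_add ((S.contDiff.sub contDiff_id).contDiffAt.of_le (by
      exact_mod_cast le_top)) (contDiff_id.contDiffAt.of_le (by exact_mod_cast le_top))
  have e2 : |iteratedDeriv l (fun y : ℝ => y) z| ≤ if l = 1 then 1 else 0 := by
    obtain ⟨m, rfl⟩ : ∃ m, l = m + 1 := ⟨l - 1, by omega⟩
    rw [iteratedDeriv_succ']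
    have e3 : deriv (fun y : ℝ => y) = fun _ => 1 := by funext y; simp
    rw [e3]
    rcases Nat.eq_zero_or_pos m with rfl | hm
    · simp
    · rw [iteratedDeriv_const]
      simp [hm.ne']
  rw [e1]
  have e4 := abs_add_le (iteratedDeriv l (fun y => S y - y) z) (iteratedDeriv l (fun y => y) z)
  have e5 : ρ * (C * a * ρ ^ l) ≤ C * ρ ^ l := by
    have : ρ * (C * a * ρ ^ l) = (ρ * a) * (C * ρ ^ l) := by ring
    rw [this, hW.ρa]
    have : 0 ≤ C * ρ ^ l := by positivity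
    nlinarith
  have e6 : ρ * |iteratedDeriv l (fun y : ℝ => y) z| ≤ ρ ^ l := by
    split_ifs at e2 with h
    · subst h
      rw [pow_one]
      nlinarith
    · have : |iteratedDeriv l (fun y : ℝ => y) z| = 0 := le_antisymm e2 (abs_nonneg _)
      rw [this, mul_zero]; positivity
  calc ρ * |iteratedDeriv l (fun y => S y - y) z + iteratedDeriv l (fun y => y) z|
      ≤ ρ * (|iteratedDeriv l (fun y => S y - y) z| + |iteratedDeriv l (fun y => y) z|) :=
        mul_le_mul_of_nonneg_left e4 hρ.le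
    _ ≤ ρ * (C * a * ρ ^ l) + ρ * |iteratedDeriv l (fun y => y) z| := by
        rw [mul_add]
        have := mul_le_mul_of_nonneg_left hd hρ.le
        linarith
    _ ≤ (1 + C) * ρ ^ l := by linarith

theorem base_step {S : Dif} {x₀ a ρ ν C : ℝ} {n : ℕ} {K i : ℤ} (hW : Win S x₀ a ρ ν C n K)
    (hi : i + 1 ≤ K) {h : ℝ → ℝ} {U : ℝ}
    (hJ : ∀ z ∈ Wd S x₀ (i + 1), JB 1 h z U ρ) {z : ℝ} (hz : z ∈ Wd S x₀ i) :
    |h (S z) - h z| ≤ 2 * U * ν := by
  have hz1 : z ∈ Wd S x₀ (i + 1) := Wd_mono hW.lt (by omega) hz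
  have hSz : S z ∈ Wd S x₀ (i + 1) := by
    have := Wd_zpow hW.lt (j := 1) hz (k := i + 1) (by simp)
    simpa using this
  have hsub : Icc z (S z) ⊆ Wd S x₀ (i + 1) := fun y hy => mem_between hz1 hSz hy
  have hlo := hW.lo z (Wd_mono hW.lt hi hz1)
  have hhi := hW.hi z (Wd_mono hW.lt hi hz1)
  have ha := hW.a_pos
  have hle : z ≤ S z := by linarith
  have hU : 0 ≤ U := (hJ z hz1).nonneg
  have hdiff : ∀ y ∈ Icc z (S z), DifferentiableAt ℝ h y := fun y hy =>
    (hJ y (hsub hy)).1.differentiableAt (by simp)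
  have h1 : ‖h (S z) - h z‖ ≤ (U * ρ) * ‖S z - z‖ := by
    refine Convex.norm_image_sub_le_of_norm_hasDerivWithin_le (f := h) (f' := deriv h)
      (s := Icc z (S z)) (fun y hy => (hdiff y hy).hasDerivAt.hasDerivWithinAt)
      (fun y hy => ?_) (convex_Icc _ _) ⟨le_rfl, hle⟩ ⟨hle, le_rfl⟩
    have := (hJ y (hsub hy)).2 1 le_rfl
    rwa [iteratedDeriv_one, pow_one] at this
  rw [Real.norm_eq_abs, Real.norm_eq_abs, abs_of_nonneg (by linarith : 0 ≤ S z - z)] at h1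
  have h2 : (U * ρ) * (S z - z) ≤ (U * ρ) * (2 * a) :=
    mul_le_mul_of_nonneg_left hhi (mul_nonneg hU hW.ρ_pos.le)
  calc |h (S z) - h z| ≤ (U * ρ) * (2 * a) := h1.trans h2
    _ = 2 * U * (ρ * a) := by ring
    _ = 2 * U * ν := by rw [hW.ρa]

theorem step (l : ℕ) (C : ℝ) : ∃ C' : ℝ, 1 ≤ C' ∧
    ∀ (S : Dif) (x₀ a ρ ν : ℝ) (n : ℕ) (K i : ℤ), Win S x₀ a ρ ν C n K → i + 1 ≤ K →
      l ≤ n → ∀ (h : ℝ → ℝ) (U : ℝ),
      (∀ z ∈ Wd S x₀ (i + 1), JB (l + 1) h z U ρ) →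
      ∀ z ∈ Wd S x₀ i, JB l (fun x => h (S x) - h x) z (C' * U * ν) ρ := by
  induction l with
  | zero =>
    refine ⟨2, by norm_num, fun S x₀ a ρ ν n K i hW hi _ h U hJ z hz => ?_⟩
    have hz1 : z ∈ Wd S x₀ (i + 1) := Wd_mono hW.lt (by omega) hz
    have hSz : S z ∈ Wd S x₀ (i + 1) := by
      have := Wd_zpow hW.lt (j := 1) hz (k := i + 1) (by simp)
      simpa using this
    rw [JB.zero_iff]
    exact ⟨((hJ _ hSz).1.comp z S.contDiff.contDiffAt).sub (hJ z hz1).1,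
      base_step hW hi hJ hz⟩
  | succ l ih =>
    obtain ⟨C₁, hC₁, ih⟩ := ih
    obtain ⟨C₂, hC₂, hcomp⟩ := JB.comp l (1 + C)
    refine ⟨2 + (C₁ + |2 ^ l * C₂ * C|), by
      have := abs_nonneg (2 ^ l * C₂ * C)
      linarith, fun S x₀ a ρ ν n K i hW hi hl h U hJ z hz => ?_⟩
    have hz1 : z ∈ Wd S x₀ (i + 1) := Wd_mono hW.lt (by omega) hz
    have hSz : S z ∈ Wd S x₀ (i + 1) := by
      have := Wd_zpow hW.lt (j := 1) hz (k := i + 1) (by simp)
      simpa using this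
    have hzK : z ∈ Wd S x₀ K := Wd_mono hW.lt hi hz1
    have hU : 0 ≤ U := (hJ z hz1).nonneg
    have hν := hW.ν_pos
    have hρ := hW.ρ_pos
    have hC := hW.C_ge
    have hc1 : ContDiffAt ℝ ∞ (fun x => h (S x)) z :=
      (hJ _ hSz).1.comp z S.contDiff.contDiffAt
    rw [JB.succ_iff]
    refine ⟨hc1.sub (hJ z hz1).1, ?_, ?_⟩
    · refine (base_step hW hi (fun y hy => (hJ y hy).mono (by omega) le_rfl hρ.le) hz).trans ?_
      have : 0 ≤ (C₁ + |2 ^ l * C₂ * C|) * U * ν := by positivity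
      nlinarith
    · -- the derivative
      have hJ' : ∀ y ∈ Wd S x₀ (i + 1), JB (l + 1) (deriv h) y (U * ρ) ρ := fun y hy =>
        (JB.succ_iff.1 (hJ y hy)).2.2
      have b1 : JB l (fun x => deriv h (S x) - deriv h x) z (C₁ * (U * ρ) * ν) ρ :=
        ih S x₀ a ρ ν n K i hW hi (by omega) (deriv h) (U * ρ) hJ' z hz
      have b2 : JB l (fun x => deriv h (S x)) z (C₂ * (U * ρ)) ρ := by
        refine hcomp (deriv h) (fun x => S x) z (U * ρ) ρ ρ hρ.le hρ.le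
          ((hJ' _ hSz).mono (by omega) le_rfl hρ.le) S.contDiff.contDiffAt
          (fun m hm1 hm2 => S_bounds hW hzK hm1 (by omega))
      have b3 : JB l (deriv (fun t => S t - t)) z (C * a * ρ) ρ := by
        have : JB (l + 1) (fun y => S y - y) z (C * a) ρ :=
          (JB.phi hW hzK).mono hl le_rfl hρ.le
        exact (JB.succ_iff.1 this).2.2
      have b4 := b1.add (b2.mul hρ.le b3)
      have hev : (fun x => (deriv h (S x) - deriv h x) +
          deriv h (S x) * deriv (fun t => S t - t) x) =ᶠ[𝓝 z]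
          deriv (fun x => h (S x) - h x) := by
        have e1 : ∀ᶠ y in 𝓝 z, DifferentiableAt ℝ h y := contDiffAt_ev (hJ z hz1).1
        have e2 : ∀ᶠ y in 𝓝 z, DifferentiableAt ℝ h (S y) :=
          S.continuous.continuousAt.eventually (contDiffAt_ev (hJ _ hSz).1)
        filter_upwards [e1, e2] with y hy1 hy2
        have e3 : HasDerivAt (fun x => h (S x)) (deriv h (S y) * deriv (fun t => S t) y) y :=
          hy2.hasDerivAt.comp y (S.differentiable y).hasDerivAt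
        have e4 := (e3.sub hy1.hasDerivAt).deriv
        have e5 : deriv (fun x => h (S x) - h x) y
            = deriv h (S y) * deriv (fun t => S t) y - deriv h y := e4
        rw [e5, deriv_S_eq]
        ring
      refine (b4.congr hev).mono le_rfl ?_ hρ.le
      have e6 : 2 ^ l * (C₂ * (U * ρ)) * (C * a * ρ) = (2 ^ l * C₂ * C) * (U * ρ * (ρ * a)) := by
        ring
      rw [e6, hW.ρa]
      have e7 : (2 ^ l * C₂ * C) * (U * ρ * ν) ≤ |2 ^ l * C₂ * C| * (U * ρ * ν) :=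
        mul_le_mul_of_nonneg_right (le_abs_self _) (by positivity)
      have e8 : 0 ≤ U * ρ * ν := by positivity
      nlinarith

theorem dd_JB_aux (n k : ℕ) (C : ℝ) : ∀ j : ℕ, j ≤ k → ∃ C₂ : ℝ, 1 ≤ C₂ ∧
    ∀ (S : Dif) (x₀ a ρ ν : ℝ) (K : ℤ), Win S x₀ a ρ ν C (n + k + 2) K →
      ∀ z ∈ Wd S x₀ (K - j), JB (n + 2 + (k - j)) (dd S (j + 1) (fun y => y)) z
        (C₂ * a * ν ^ j) ρ := by
  intro j
  induction j with
  | zero =>
    intro _
    refine ⟨max 1 C, le_max_left _ _, fun S x₀ a ρ ν K hW z hz => ?_⟩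
    have h1 : JB (n + k + 2) (fun y => S y - y) z (C * a) ρ :=
      JB.phi hW (by simpa using hz)
    refine h1.mono (by omega) ?_ hW.ρ_pos.le
    rw [pow_zero, mul_one]
    exact mul_le_mul_of_nonneg_right (le_max_right _ _) hW.a_pos.le
  | succ j ih =>
    intro hj
    obtain ⟨C₂, hC₂, ih⟩ := ih (by omega)
    obtain ⟨C₁, hC₁, hstep⟩ := step (n + 2 + (k - (j + 1))) C
    refine ⟨C₁ * C₂, by nlinarith, fun S x₀ a ρ ν K hW z hz => ?_⟩
    have h1 := hstep S x₀ a ρ ν (n + k + 2) K (K - (j + 1 : ℕ)) hW (by push_cast; omega)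
      (by omega) (dd S (j + 1) (fun y => y)) (C₂ * a * ν ^ j) (fun y hy => by
        have h2 := ih S x₀ a ρ ν K hW y (by
          have : K - (j + 1 : ℕ) + 1 = K - j := by push_cast; ring
          rwa [this] at hy)
        refine h2.mono (by omega) le_rfl hW.ρ_pos.le) z hz
    refine JB.mono h1 le_rfl (le_of_eq ?_) hW.ρ_pos.le
    rw [pow_succ]; ring

/-- iterated differences of the identity are small with all derivatives -/
theorem dd_JB (n k : ℕ) (C : ℝ) : ∃ C₂ : ℝ, 1 ≤ C₂ ∧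
    ∀ (S : Dif) (x₀ a ρ ν : ℝ) (K : ℤ), Win S x₀ a ρ ν C (n + k + 2) K →
      ∀ j, 1 ≤ j → j ≤ k + 1 → ∀ z ∈ Wd S x₀ (K - j + 1),
        JB (n + 1) (dd S j (fun y => y)) z (C₂ * a * ν ^ (j - 1)) ρ := by
  have h1 : ∀ j : ℕ, ∃ C₂ : ℝ, 1 ≤ C₂ ∧ (j ≤ k →
    ∀ (S : Dif) (x₀ a ρ ν : ℝ) (K : ℤ), Win S x₀ a ρ ν C (n + k + 2) K →
      ∀ z ∈ Wd S x₀ (K - j), JB (n + 2 + (k - j)) (dd S (j + 1) (fun y => y)) z
        (C₂ * a * ν ^ j) ρ) := by
    intro j
    by_cases hj : j ≤ k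
    · obtain ⟨C₂, hC₂, h⟩ := dd_JB_aux n k C j hj
      exact ⟨C₂, hC₂, fun _ => h⟩
    · exact ⟨1, le_rfl, fun h => absurd h hj⟩
  choose Cf hCf1 hCf using h1
  refine ⟨1 + ∑ j ∈ Finset.range (k + 1), Cf j, ?_, ?_⟩
  · have : 0 ≤ ∑ j ∈ Finset.range (k + 1), Cf j :=
      Finset.sum_nonneg (fun j _ => by linarith [hCf1 j])
    linarith
  · intro S x₀ a ρ ν K hW j hj1 hj2 z hz
    obtain ⟨i, rfl⟩ : ∃ i, j = i + 1 := ⟨j - 1, by omega⟩
    have h2 := hCf i (by omega) S x₀ a ρ ν K hW z (by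
      have : K - (i + 1 : ℕ) + 1 = K - i := by push_cast; ring
      rwa [this] at hz)
    refine h2.mono (by omega) ?_ hW.ρ_pos.le
    have h3 : Cf i ≤ ∑ j ∈ Finset.range (k + 1), Cf j :=
      Finset.single_le_sum (f := Cf) (fun j _ => by linarith [hCf1 j])
        (Finset.mem_range.2 (by omega))
    have ha := hW.a_pos
    have hν := hW.ν_pos
    have h4 : 0 ≤ a * ν ^ i := by positivity
    rw [Nat.add_sub_cancel]
    rw [mul_assoc, mul_assoc]
    exact mul_le_mul_of_nonneg_right (by linarith) h4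

end Pool.Agent.F88.LL
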