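import Pool.Agent.Lib.MP_f88c17.LLAa

/-!
# Local lemma, part (A'): the approximately invariant vector field by Newton interpolation
-/

set_option autoImplicit false

open Set Filter Topology
open scoped ContDiff

namespace Pool.Agent.F88.LL

namespace NW

open Polynomial

theorem newton (S : Dif) (h : ℝ → ℝ) (k : ℕ) : ∀ i ≤ k, ∀ z,
    ∑ j ∈ Finset.range (k + 1), (i.choose j : ℝ) * dd S j h z = h ((S ^ i) z) := by
  intro i
  induction i with
  | zero =>
    intro _ z
    rw [Finset.sum_eq_single 0]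
    · simp [dd]
    · intro j _ hj
      rw [Nat.choose_eq_zero_of_lt (by omega)]
      simp
    · simp
  | succ i ih =>
    intro hi z
    have h1 := ih (by omega) (S z)
    have h2 := ih (by omega) z
    have e : (S ^ (i + 1)) z = (S ^ i) (S z) := by rw [pow_succ]; rfl
    rw [e, ← h1]
    have e2 : ∀ j, dd S j h (S z) = dd S (j + 1) h z + dd S j h z := by
      intro j
      simp [dd]
    simp only [e2, mul_add]
    rw [Finset.sum_add_distrib]
    rw [Finset.sum_range_succ' (fun j => ((i + 1).choose j : ℝ) * dd S j h z),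
      Finset.sum_range_succ' (fun j => (i.choose j : ℝ) * dd S j h z),
      Finset.sum_range_succ (fun j => (i.choose j : ℝ) * dd S (j + 1) h z)]
    rw [Nat.choose_eq_zero_of_lt (by omega : i < k)]
    simp only [Nat.choose_succ_succ, Nat.choose_zero_right, Nat.cast_add, add_mul,
      Finset.sum_add_distrib]
    push_cast
    ring

/-- Newton basis polynomials -/
noncomputable def en (j : ℕ) : ℝ[X] := C ((j.factorial : ℝ)⁻¹) * descPochhammer ℝ j

theorem en_eval (i j : ℕ) : (en j).eval (i : ℝ) = i.choose j := by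
  rw [en, eval_mul, eval_C, descPochhammer_eval_eq_descFactorial,
    Nat.descFactorial_eq_factorial_mul_choose]
  have : (j.factorial : ℝ) ≠ 0 := by exact_mod_cast j.factorial_ne_zero
  push_cast
  field_simp

theorem en_natDegree (j : ℕ) : (en j).natDegree ≤ j := by
  refine (natDegree_C_mul_le _ _).trans ?_
  rw [descPochhammer_natDegree]

theorem en_zero : en 0 = 1 := by simp [en]

theorem en_one : en 1 = X := by simp [en]

/-- Newton interpolation polynomial with coefficients `c` -/
noncomputable def NP (k : ℕ) (c : ℕ → ℝ) : ℝ[X] := ∑ j ∈ Finset.range (k + 1), C (c j) * en j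

theorem NP_eval (k : ℕ) (c : ℕ → ℝ) (t : ℝ) :
    (NP k c).eval t = ∑ j ∈ Finset.range (k + 1), c j * (en j).eval t := by
  simp [NP, eval_finsetSum]

theorem NP_natDegree (k : ℕ) (c : ℕ → ℝ) : (NP k c).natDegree ≤ k := by
  refine natDegree_sum_le_of_forall_le _ _ (fun j hj => ?_)
  refine (natDegree_C_mul_le _ _).trans ((en_natDegree j).trans ?_)
  have := Finset.mem_range.mp hj
  omega

theorem contDiff_eval (p : ℝ[X]) : ContDiff ℝ ∞ (fun t => p.eval t) := by
  have h := p.contDiff_aeval (𝕜 := ℝ) (n := ∞)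
  simpa using h

theorem iter_eval (p : ℝ[X]) (m : ℕ) :
    iteratedDeriv m (fun t => p.eval t) = fun t => (derivative^[m] p).eval t := by
  induction m with
  | zero => simp
  | succ m ih =>
    rw [iteratedDeriv_succ, ih]
    funext t
    rw [Polynomial.deriv, Function.iterate_succ_apply']

theorem iter_NP (k : ℕ) (c : ℕ → ℝ) (m : ℕ) (t : ℝ) :
    iteratedDeriv m (fun t => (NP k c).eval t) t =
      ∑ j ∈ Finset.range (k + 1), c j * (derivative^[m] (en j)).eval t := by
  rw [iter_eval]
  simp only [NP]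
  rw [iterate_derivative_sum, eval_finsetSum]
  refine Finset.sum_congr rfl (fun j _ => ?_)
  rw [iterate_derivative_C_mul, eval_mul, eval_C]

/-- bounds for the Newton basis -/
theorem en_bound (k : ℕ) : ∃ E : ℝ, 1 ≤ E ∧ ∀ j ≤ k, ∀ m ≤ k + 1, ∀ t ∈ Icc (0 : ℝ) k,
    |(derivative^[m] (en j)).eval t| ≤ E := by
  have h1 : ∀ j m : ℕ, ∃ E : ℝ, ∀ t ∈ Icc (0 : ℝ) k, |(derivative^[m] (en j)).eval t| ≤ E := by
    intro j m
    obtain ⟨E, hE⟩ := (isCompact_Icc (a := (0 : ℝ)) (b := k)).exists_bound_of_continuousOn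
      (f := fun t => (derivative^[m] (en j)).eval t) (Polynomial.continuous _).continuousOn
    exact ⟨E, hE⟩
  choose E hE using h1
  refine ⟨1 + ∑ j ∈ Finset.range (k + 1), ∑ m ∈ Finset.range (k + 2), |E j m|, ?_, ?_⟩
  · have : 0 ≤ ∑ j ∈ Finset.range (k + 1), ∑ m ∈ Finset.range (k + 2), |E j m| :=
      Finset.sum_nonneg (fun _ _ => Finset.sum_nonneg (fun _ _ => abs_nonneg _))
    linarith
  · intro j hj m hm t ht
    have h2 : |E j m| ≤ ∑ m ∈ Finset.range (k + 2), |E j m| :=
      Finset.single_le_sum (f := fun m => |E j m|) (fun _ _ => abs_nonneg _)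
        (Finset.mem_range.mpr (by omega))
    have h3 : ∑ m ∈ Finset.range (k + 2), |E j m| ≤
        ∑ j ∈ Finset.range (k + 1), ∑ m ∈ Finset.range (k + 2), |E j m| :=
      Finset.single_le_sum (f := fun j => ∑ m ∈ Finset.range (k + 2), |E j m|)
        (fun _ _ => Finset.sum_nonneg (fun _ _ => abs_nonneg _)) (Finset.mem_range.mpr (by omega))
    linarith [hE j m t ht, le_abs_self (E j m)]

theorem en_iter_zero {j m : ℕ} (h : j < m) : derivative^[m] (en j) = 0 :=
  iterate_derivative_eq_zero (lt_of_le_of_lt (en_natDegree j) h)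

/-- derivatives of the interpolation of the orbit -/
theorem NP_der {k : ℕ} {c : ℕ → ℝ} {E D ν : ℝ} (hE0 : 1 ≤ E)
    (hE : ∀ j ≤ k, ∀ m ≤ k + 1, ∀ t ∈ Icc (0 : ℝ) k, |(derivative^[m] (en j)).eval t| ≤ E)
    (hD : 0 ≤ D) (hν : 0 < ν) (hν1 : ν ≤ 1)
    (hc : ∀ j, 1 ≤ j → j ≤ k → |c j| ≤ D * ν ^ (j - 1)) {m : ℕ} (hm1 : 1 ≤ m) (hm2 : m ≤ k + 1)
    {t : ℝ} (ht : t ∈ Icc (0 : ℝ) k) :
    |iteratedDeriv m (fun t => (NP k c).eval t) t| ≤ ((k : ℝ) + 1) * E * D * ν ^ (m - 1) := by
  rw [iter_NP]
  calc |∑ j ∈ Finset.range (k + 1), c j * (derivative^[m] (en j)).eval t|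
      ≤ ∑ j ∈ Finset.range (k + 1), |c j * (derivative^[m] (en j)).eval t| :=
        Finset.abs_sum_le_sum_abs _ _
    _ ≤ ∑ j ∈ Finset.range (k + 1), E * D * ν ^ (m - 1) := by
      refine Finset.sum_le_sum (fun j hj => ?_)
      have hj' := Finset.mem_range.mp hj
      rcases Nat.lt_or_ge j m with hjm | hjm
      · rw [en_iter_zero hjm]
        simp only [eval_zero, mul_zero, abs_zero]
        positivity
      · rw [abs_mul]
        have h1 := hc j (by omega) (by omega)
        have h2 := hE j (by omega) m hm2 t ht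
        have h3 : ν ^ (j - 1) ≤ ν ^ (m - 1) := pow_le_pow_of_le_one hν.le hν1 (by omega)
        calc |c j| * |(derivative^[m] (en j)).eval t| ≤ (D * ν ^ (j - 1)) * E := by
              gcongr
          _ ≤ (D * ν ^ (m - 1)) * E := by gcongr
          _ = E * D * ν ^ (m - 1) := by ring
    _ = _ := by
      rw [Finset.sum_const, Finset.card_range, nsmul_eq_mul]
      push_cast; ring

/-- the first derivative is close to the first coefficient -/
theorem NP_der_one {k : ℕ} (hk : 1 ≤ k) {c : ℕ → ℝ} {E D ν : ℝ} (hE0 : 1 ≤ E)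
    (hE : ∀ j ≤ k, ∀ m ≤ k + 1, ∀ t ∈ Icc (0 : ℝ) k, |(derivative^[m] (en j)).eval t| ≤ E)
    (hD : 0 ≤ D) (hν : 0 < ν) (hν1 : ν ≤ 1)
    (hc : ∀ j, 1 ≤ j → j ≤ k → |c j| ≤ D * ν ^ (j - 1))
    {t : ℝ} (ht : t ∈ Icc (0 : ℝ) k) :
    |∑ j ∈ Finset.range (k + 1), c j * (derivative (en j)).eval t - c 1| ≤
      ((k : ℝ) + 1) * E * D * ν := by
  have h1 : ∑ j ∈ Finset.range (k + 1), c j * (derivative (en j)).eval t - c 1 =
      ∑ j ∈ Finset.range (k + 1), (if j = 1 then 0 else c j * (derivative (en j)).eval t) := by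
    have h2 : ∑ j ∈ Finset.range (k + 1), c j * (derivative (en j)).eval t =
        ∑ j ∈ Finset.range (k + 1), ((if j = 1 then 0 else c j * (derivative (en j)).eval t) +
          (if j = 1 then c 1 else 0)) := by
      refine Finset.sum_congr rfl (fun j _ => ?_)
      by_cases hj : j = 1
      · subst hj
        simp [en_one]
      · simp [hj]
    rw [h2, Finset.sum_add_distrib, Finset.sum_ite_eq' (Finset.range (k + 1)) 1 (fun _ => c 1)]
    rw [if_pos (Finset.mem_range.mpr (by omega))]
    ring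
  rw [h1]
  calc _ ≤ ∑ j ∈ Finset.range (k + 1), |if j = 1 then 0 else c j * (derivative (en j)).eval t| :=
        Finset.abs_sum_le_sum_abs _ _
    _ ≤ ∑ j ∈ Finset.range (k + 1), E * D * ν := by
      refine Finset.sum_le_sum (fun j hj => ?_)
      have hj' := Finset.mem_range.mp hj
      by_cases hj1 : j = 1
      · rw [if_pos hj1, abs_zero]; positivity
      · rw [if_neg hj1]
        rcases Nat.eq_zero_or_pos j with hj0 | hj0
        · subst hj0
          rw [en_zero]
          simp only [derivative_one, eval_zero, mul_zero, abs_zero]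
          positivity
        · rw [abs_mul]
          have h1 := hc j (by omega) (by omega)
          have h2 := hE j (by omega) 1 (by omega) t ht
          rw [Function.iterate_one] at h2
          have h3 : ν ^ (j - 1) ≤ ν ^ 1 := pow_le_pow_of_le_one hν.le hν1 (by omega)
          rw [pow_one] at h3
          calc |c j| * |(derivative (en j)).eval t| ≤ (D * ν ^ (j - 1)) * E := by gcongr
            _ ≤ (D * ν) * E := by gcongr
            _ = E * D * ν := by ring
    _ = _ := by
      rw [Finset.sum_const, Finset.card_range, nsmul_eq_mul]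
      push_cast; ring

end NW

open NW

theorem dd_contDiff (S : Dif) (j : ℕ) : ContDiff ℝ ∞ (dd S j (fun y => y)) := by
  induction j with
  | zero => exact contDiff_id
  | succ j ih => exact (ih.comp S.contDiff).sub ih

theorem exists_field (k n : ℕ) (hk : 1 ≤ k) (C : ℝ) :
    ∃ C' ν₁ : ℝ, 1 ≤ C' ∧ 0 < ν₁ ∧
    ∀ (S : Dif) (x₀ a ρ ν : ℝ) (K : ℤ), (k : ℤ) + 3 ≤ K → Win S x₀ a ρ ν C (n + k + 2) K →
    ν ≤ ν₁ →
    ∃ X : ℝ → ℝ,
      (∀ z ∈ Wd S x₀ (K - k - 2), ContDiffAt ℝ ∞ X z ∧ a / 4 ≤ X z ∧ X z ≤ 3 * a ∧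
        ∀ l ≤ n, |iteratedDeriv l X z| ≤ C' * a * ρ ^ l) ∧
      ∀ g : Dif, Commute g S →
        (∀ z ∈ Wd S x₀ K, ∀ l, 1 ≤ l → l ≤ k + 2 → |iteratedDeriv l g z| ≤ C * ρ ^ (l - 1)) →
        ∀ z ∈ Wd S x₀ (K - k - 2), |X (g z) - deriv g z * X z| ≤ C' * a * ν ^ k := by
  obtain ⟨C₂, hC₂, h₂⟩ := dd_JB n k C
  obtain ⟨E, hE1, hE⟩ := en_bound k
  obtain ⟨Cr, hCr, hr⟩ := rolle_iter k
  obtain ⟨Cc, hCc, hc⟩ := JB.comp k (((k : ℝ) + 1) * E * C₂)
  have hE0 : 0 < E := by linarith
  have hC₂0 : 0 < C₂ := by linarith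
  refine ⟨((k : ℝ) + 1) * E * C₂ + Cr * (2 ^ k * (Cc * |C|) * (((k : ℝ) + 1) * E * C₂)),
    1 / (4 * (((k : ℝ) + 1) * E * C₂)), ?_, by positivity, ?_⟩
  · have h1 : 1 ≤ ((k : ℝ) + 1) * E * C₂ := by
      have h2 : (1 : ℝ) ≤ (k : ℝ) + 1 := by linarith [Nat.cast_nonneg (α := ℝ) k]
      have h3 : 1 ≤ ((k : ℝ) + 1) * E := by nlinarith
      nlinarith
    have h4 : 0 ≤ Cr * (2 ^ k * (Cc * |C|) * (((k : ℝ) + 1) * E * C₂)) := by positivity
    linarith
  intro S x₀ a ρ ν K hK hW hν
  have ha := hW.a_pos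
  have hρ := hW.ρ_pos
  have hν0 := hW.ν_pos
  have hν1 := hW.ν_le
  have hνs : ((k : ℝ) + 1) * E * C₂ * ν ≤ 1 / 4 := by
    rw [le_div_iff₀ (by positivity)] at hν
    linarith
  have hdd : ∀ z ∈ Wd S x₀ (K - k - 2), ∀ j, 1 ≤ j → j ≤ k →
      JB (n + 1) (dd S j (fun y => y)) z (C₂ * a * ν ^ (j - 1)) ρ := by
    intro z hz j hj1 hj2
    exact h₂ S x₀ a ρ ν K hW j hj1 (by omega) z (Wd_mono hW.lt (by omega) hz)
  have hcoef : ∀ z ∈ Wd S x₀ (K - k - 2), ∀ j, 1 ≤ j → j ≤ k →
      |dd S j (fun y => y) z| ≤ C₂ * a * ν ^ (j - 1) := fun z hz j hj1 hj2 =>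
    (hdd z hz j hj1 hj2).val
  have h0mem : (0 : ℝ) ∈ Icc (0 : ℝ) k := ⟨le_rfl, by positivity⟩
  set X : ℝ → ℝ := fun z => ∑ j ∈ Finset.range (k + 1),
    dd S j (fun y => y) z * (Polynomial.derivative (en j)).eval 0 with hX
  refine ⟨X, ?_, ?_⟩
  · intro z hz
    have hφ1 := hW.lo z (Wd_mono hW.lt (by omega) hz)
    have hφ2 := hW.hi z (Wd_mono hW.lt (by omega) hz)
    have h1 := NP_der_one hk (c := fun j => dd S j (fun y => y) z) hE1 hE
      (D := C₂ * a) (by positivity) hν0 hν1 (hcoef z hz) h0mem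
    have h2 : ((k : ℝ) + 1) * E * (C₂ * a) * ν ≤ a / 4 := by
      calc ((k : ℝ) + 1) * E * (C₂ * a) * ν = (((k : ℝ) + 1) * E * C₂ * ν) * a := by ring
        _ ≤ 1 / 4 * a := by gcongr
        _ = a / 4 := by ring
    have h3 := abs_le.mp (h1.trans h2)
    have e1 : dd S 1 (fun y => y) z = S z - z := rfl
    simp only [e1] at h3
    refine ⟨?_, by simp only [hX]; linarith [h3.1], by simp only [hX]; linarith [h3.2], ?_⟩
    · exact (ContDiff.sum (fun j _ => (dd_contDiff S j).mul contDiff_const)).contDiffAt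
    · intro l hl
      have hJ : JB (n + 1) X z (∑ j ∈ Finset.range (k + 1), E * (C₂ * a)) ρ := by
        refine JB.sum _ hρ.le (fun j hj => ?_)
        have hj' := Finset.mem_range.mp hj
        rcases Nat.eq_zero_or_pos j with hj0 | hj0
        · subst hj0
          rw [en_zero]
          simp only [Polynomial.derivative_one, Polynomial.eval_zero, mul_zero]
          have := JB.const (n := n + 1) (x := z) (κ := ρ) 0 hρ.le
          exact this.mono le_rfl (by rw [abs_zero]; positivity) hρ.le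
        · have h4 := (hdd z hz j hj0 (by omega)).const_mul ((Polynomial.derivative (en j)).eval 0)
          have e2 : (fun y => dd S j (fun y => y) y * (Polynomial.derivative (en j)).eval 0) =
              fun y => (Polynomial.derivative (en j)).eval 0 * dd S j (fun y => y) y := by
            funext y; ring
          rw [e2]
          refine h4.mono le_rfl ?_ hρ.le
          have h5 := hE j (by omega) 1 (by omega) 0 h0mem
          rw [Function.iterate_one] at h5
          have h6 : ν ^ (j - 1) ≤ 1 := pow_le_one₀ hν0.le hν1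
          calc |(Polynomial.derivative (en j)).eval 0| * (C₂ * a * ν ^ (j - 1))
              ≤ E * (C₂ * a * 1) := by gcongr
            _ = E * (C₂ * a) := by ring
      refine (hJ.2 l (by omega)).trans ?_
      rw [Finset.sum_const, Finset.card_range, nsmul_eq_mul]
      have h7 : 0 ≤ Cr * (2 ^ k * (Cc * |C|) * (((k : ℝ) + 1) * E * C₂)) := by positivity
      push_cast
      calc ((k : ℝ) + 1) * (E * (C₂ * a)) * ρ ^ l = (((k : ℝ) + 1) * E * C₂) * a * ρ ^ l := by ring
        _ ≤ _ := by
          gcongr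
          linarith
  · intro g hg hgd z hz
    set Z : ℝ → ℝ := fun t => (NP k (fun j => dd S j (fun y => y) z)).eval t with hZ
    have hZc : ContDiff ℝ ∞ Z := contDiff_eval _
    have hZi : ∀ i : ℕ, i ≤ k → Z i = (S ^ i) z := by
      intro i hi
      simp only [hZ]
      rw [NP_eval]
      simp only [en_eval]
      rw [← newton S (fun y => y) k i hi z]
      exact Finset.sum_congr rfl (fun j _ => mul_comm _ _)
    have hZ0 : Z 0 = z := by
      have := hZi 0 (Nat.zero_le _)
      simpa using this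
    have hZder : ∀ t, deriv Z t = ∑ j ∈ Finset.range (k + 1),
        dd S j (fun y => y) z * (Polynomial.derivative (en j)).eval t := by
      intro t
      have := iter_NP k (fun j => dd S j (fun y => y) z) 1 t
      rw [iteratedDeriv_one] at this
      simp only [Function.iterate_one] at this
      exact this
    have hφ1 := hW.lo z (Wd_mono hW.lt (by omega) hz)
    have hZpos : ∀ t ∈ Icc (0 : ℝ) k, 0 ≤ deriv Z t := by
      intro t ht
      rw [hZder t]
      have h1 := NP_der_one hk (c := fun j => dd S j (fun y => y) z) hE1 hE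
        (D := C₂ * a) (by positivity) hν0 hν1 (hcoef z hz) ht
      have h2 : ((k : ℝ) + 1) * E * (C₂ * a) * ν ≤ a / 4 := by
        calc ((k : ℝ) + 1) * E * (C₂ * a) * ν = (((k : ℝ) + 1) * E * C₂ * ν) * a := by ring
          _ ≤ 1 / 4 * a := by gcongr
          _ = a / 4 := by ring
      have h3 := abs_le.mp (h1.trans h2)
      have e1 : dd S 1 (fun y => y) z = S z - z := rfl
      simp only [e1] at h3
      linarith [h3.1]
    have hZmono : MonotoneOn Z (Icc (0 : ℝ) k) := by
      refine monotoneOn_of_deriv_nonneg (convex_Icc _ _) hZc.continuous.continuousOn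
        (hZc.differentiable (by simp)).differentiableOn (fun t ht => ?_)
      rw [interior_Icc] at ht
      exact hZpos t ⟨ht.1.le, ht.2.le⟩
    have hZwin : ∀ t ∈ Icc (0 : ℝ) k, Z t ∈ Wd S x₀ K := by
      intro t ht
      have h1 : z ≤ Z t := by
        have := hZmono h0mem ht ht.1
        rwa [hZ0] at this
      have h2 : Z t ≤ (S ^ k) z := by
        have := hZmono ht ⟨by positivity, le_rfl⟩ ht.2
        rwa [hZi k le_rfl] at this
      have h3 : z ∈ Wd S x₀ K := Wd_mono hW.lt (by omega) hz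
      have h4 : (S ^ (k : ℤ)) z ∈ Wd S x₀ K := Wd_zpow hW.lt hz (by
        rw [abs_of_nonneg (by positivity)]; omega)
      rw [zpow_natCast] at h4
      exact ⟨h3.1.trans h1, h2.trans h4.2⟩
    set h : ℝ → ℝ := fun t => g (Z t) - (NP k (fun j => dd S j (fun y => y) (g z))).eval t
      with hh
    have hgZ : ContDiff ℝ ∞ (fun t => g (Z t)) := g.contDiff.comp hZc
    have hPc : ContDiff ℝ ∞ (fun t => (NP k (fun j => dd S j (fun y => y) (g z))).eval t) :=
      contDiff_eval _
    have hhc : ContDiff ℝ ∞ h := hgZ.sub hPc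
    have hhi : ∀ i : ℕ, i ≤ k → h i = 0 := by
      intro i hi
      simp only [hh]
      rw [hZi i hi, NP_eval]
      simp only [en_eval]
      have h1 := newton S (fun y => y) k i hi (g z)
      have h2 : ∑ j ∈ Finset.range (k + 1), dd S j (fun y => y) (g z) * (i.choose j : ℝ) =
          (S ^ i) (g z) := by
        rw [← h1]
        exact Finset.sum_congr rfl (fun j _ => mul_comm _ _)
      rw [h2, Dif.comm_apply (hg.pow_right i)]
      ring
    have hder : deriv (fun t => g (Z t)) = fun t => deriv g (Z t) * deriv Z t := by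
      funext t
      exact (((g.differentiable (Z t)).hasDerivAt).comp t
        ((hZc.differentiable (by simp) t).hasDerivAt)).deriv
    have hB : ∀ t ∈ Icc (0 : ℝ) k, |iteratedDeriv (k + 1) h t| ≤
        2 ^ k * (Cc * |C|) * (((k : ℝ) + 1) * E * C₂ * a) * ν ^ k := by
      intro t ht
      have e1 : iteratedDeriv (k + 1) h t = iteratedDeriv (k + 1) (fun t => g (Z t)) t := by
        have h1 : iteratedDeriv (k + 1) h t = iteratedDeriv (k + 1) (fun t => g (Z t)) t -
            iteratedDeriv (k + 1)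
              (fun t => (NP k (fun j => dd S j (fun y => y) (g z))).eval t) t :=
          iteratedDeriv_fun_sub (hgZ.contDiffAt.of_le (by exact_mod_cast le_top))
            (hPc.contDiffAt.of_le (by exact_mod_cast le_top))
        rw [h1, iter_eval, Polynomial.iterate_derivative_eq_zero
          (lt_of_le_of_lt (NP_natDegree k _) (Nat.lt_succ_self k))]
        simp
      rw [e1, iteratedDeriv_succ', hder]
      have hZb : ∀ m, 1 ≤ m → m ≤ k + 1 → |iteratedDeriv m Z t| ≤
          ((k : ℝ) + 1) * E * (C₂ * a) * ν ^ (m - 1) := fun m hm1 hm2 =>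
        NP_der (c := fun j => dd S j (fun y => y) z) hE1 hE
          (D := C₂ * a) (by positivity) hν0 hν1 (hcoef z hz) hm1 hm2 ht
      have hJg : JB k (fun y => deriv g y) (Z t) |C| ρ := by
        refine ⟨(contDiffAt_deriv g.contDiff.contDiffAt), fun m hm => ?_⟩
        have h1 := hgd (Z t) (hZwin t ht) (m + 1) (by omega) (by omega)
        rw [iteratedDeriv_succ'] at h1
        refine h1.trans ?_
        rw [Nat.add_sub_cancel]
        gcongr
        exact le_abs_self C
      have hJ1 : JB k (fun t => deriv g (Z t)) t (Cc * |C|) ν := by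
        refine hc (fun y => deriv g y) Z t |C| ρ ν hρ.le hν0.le hJg hZc.contDiffAt ?_
        intro m hm1 hm2
        calc ρ * |iteratedDeriv m Z t| ≤ ρ * (((k : ℝ) + 1) * E * (C₂ * a) * ν ^ (m - 1)) := by
              gcongr
              exact hZb m hm1 (by omega)
          _ = ((k : ℝ) + 1) * E * C₂ * (ν ^ (m - 1) * (ρ * a)) := by ring
          _ = ((k : ℝ) + 1) * E * C₂ * ν ^ m := by
            rw [hW.ρa, ← pow_succ, Nat.sub_add_cancel hm1]
      have hJ2 : JB k (fun t => deriv Z t) t (((k : ℝ) + 1) * E * C₂ * a) ν := by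
        refine ⟨contDiffAt_deriv hZc.contDiffAt, fun m hm => ?_⟩
        have h1 := hZb (m + 1) (by omega) (by omega)
        rw [iteratedDeriv_succ'] at h1
        refine h1.trans (le_of_eq ?_)
        rw [Nat.add_sub_cancel]
        ring
      exact (hJ1.mul hν0.le hJ2).2 k le_rfl
    have h1 := hr h _ (fun t _ => hhc.contDiffAt) hhi hB 0 h0mem 1 hk
    rw [iteratedDeriv_one] at h1
    have e3 : deriv h 0 = deriv g z * X z - X (g z) := by
      have h2 : deriv h 0 = deriv (fun t => g (Z t)) 0 -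
          deriv (fun t => (NP k (fun j => dd S j (fun y => y) (g z))).eval t) 0 :=
        deriv_fun_sub (hgZ.differentiable (by simp) 0) (hPc.differentiable (by simp) 0)
      have h3 := iter_NP k (fun j => dd S j (fun y => y) (g z)) 1 0
      rw [iteratedDeriv_one] at h3
      rw [h2, h3, hder]
      simp only [hZ0, hZder, Function.iterate_one, hX]
    rw [e3, abs_sub_comm] at h1
    refine h1.trans ?_
    calc Cr * (2 ^ k * (Cc * |C|) * (((k : ℝ) + 1) * E * C₂ * a) * ν ^ k)
        = (Cr * (2 ^ k * (Cc * |C|) * (((k : ℝ) + 1) * E * C₂))) * a * ν ^ k := by ring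
      _ ≤ _ := by
        gcongr
        have : 0 < ((k : ℝ) + 1) * E * C₂ := by positivity
        linarith

end Pool.Agent.F88.LL
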