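import Pool.Agent.Lib.MP_f88c17.LLWords

/-!
# Local lemma: regularity of long words
-/

set_option autoImplicit false

open Set Filter Topology
open scoped ContDiff

namespace Pool.Agent.F88.LL

theorem contDiffAt_deriv_dif (g : Dif) (x : ℝ) : ContDiffAt ℝ ∞ (deriv g) x :=
  contDiffAt_deriv g.contDiff.contDiffAt

theorem log_deriv_mul (f g : Dif) (x : ℝ) :
    Real.log (deriv (f * g : Dif) x) = Real.log (deriv f (g x)) + Real.log (deriv g x) := by
  rw [Dif.deriv_mul, Real.log_mul (f.deriv_pos _).ne' (g.deriv_pos _).ne']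

/-- the defect of invariance of the vector field `X` under `g` -/
noncomputable def dfc (X : ℝ → ℝ) (a : ℝ) (g : Dif) (z : ℝ) : ℝ :=
  Real.log (deriv g z) + Real.log (X z / a) - Real.log (X (g z) / a)

theorem dfc_mul (X : ℝ → ℝ) (a : ℝ) (f g : Dif) (z : ℝ) :
    dfc X a (f * g) z = dfc X a f (g z) + dfc X a g z := by
  unfold dfc
  rw [log_deriv_mul, Dif.mul_apply]
  ring

/-- one of the four letters -/
def IsLetter (S u g : Dif) : Prop := g = S ∨ g = S⁻¹ ∨ g = u ∨ g = u⁻¹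

/-- context for the study of words -/
structure Ctx (S u : Dif) (X : ℝ → ℝ) (x₀ a ρ ν θ η C₁ ε : ℝ) (r : ℕ) (K : ℤ) : Prop where
  comm : Commute S u
  lt : x₀ < S x₀
  η_pos : 0 < η
  η_lt : η < θ
  a_pos : 0 < a
  ρ_pos : 0 < ρ
  ν_pos : 0 < ν
  ν_le : ν ≤ 1
  ρa : ρ * a = ν
  C_ge : 1 ≤ C₁
  ε_nonneg : 0 ≤ ε
  K_ge : 0 ≤ K
  lo : ∀ z ∈ Wd S x₀ K, a / 2 ≤ S z - z
  hi : ∀ z ∈ Wd S x₀ K, S z - z ≤ 2 * a
  pos : ∀ a' b' : ℤ, 0 < (a' : ℝ) * θ + (b' : ℝ) * η → ∀ z ∈ Wd S x₀ K, z < el S u a' b' z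
  X_smooth : ∀ z ∈ Wd S x₀ K, ContDiffAt ℝ ∞ X z
  X_lo : ∀ z ∈ Wd S x₀ K, a / 4 ≤ X z
  X_hi : ∀ z ∈ Wd S x₀ K, X z ≤ 3 * a
  X_der : ∀ z ∈ Wd S x₀ K, ∀ l ≤ r + 1, |iteratedDeriv l X z| ≤ C₁ * a * ρ ^ l
  err : ∀ g, IsLetter S u g → ∀ z ∈ Wd S x₀ (K - 1), JB r (dfc X a g) z ε ρ

section

variable {S u : Dif} {X : ℝ → ℝ} {x₀ a ρ ν θ η C₁ ε : ℝ} {r : ℕ} {K : ℤ}

theorem Ctx.θ_pos (c : Ctx S u X x₀ a ρ ν θ η C₁ ε r K) : 0 < θ := c.η_pos.trans c.η_lt

/-- comparison of elements -/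
theorem Ctx.lt_el (c : Ctx S u X x₀ a ρ ν θ η C₁ ε r K) {a₁ b₁ a₂ b₂ : ℤ}
    (h : (a₁ : ℝ) * θ + (b₁ : ℝ) * η < (a₂ : ℝ) * θ + (b₂ : ℝ) * η) {z : ℝ}
    (hz : z ∈ Wd S x₀ K) : el S u a₁ b₁ z < el S u a₂ b₂ z := by
  have h1 := c.pos (a₂ - a₁) (b₂ - b₁) (by push_cast; linarith) z hz
  have h2 := (el S u a₁ b₁).strictMono h1
  simp only [el_mul_apply c.comm] at h2
  rwa [show a₁ + (a₂ - a₁) = a₂ by ring, show b₁ + (b₂ - b₁) = b₂ by ring] at h2

/-- positions of words -/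
theorem Ctx.el_mem (c : Ctx S u X x₀ a ρ ν θ η C₁ ε r K) {a' b' : ℤ} {j i : ℤ} {z : ℝ}
    (hb : |(a' : ℝ) * θ + (b' : ℝ) * η| < j * θ) (hz : z ∈ Wd S x₀ i) (hi : i ≤ K) :
    el S u a' b' z ∈ Wd S x₀ (i + j) := by
  have hzK : z ∈ Wd S x₀ K := Wd_mono c.lt hi hz
  rw [abs_lt] at hb
  have h1 : el S u a' b' z < el S u j 0 z := c.lt_el (by push_cast; linarith) hzK
  have h2 : el S u (-j) 0 z < el S u a' b' z := c.lt_el (by push_cast; linarith) hzK
  rw [el_zero_right] at h1 h2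
  have h3 := (S ^ j).strictMono.monotone hz.2
  have h4 := (S ^ (-j)).strictMono.monotone hz.1
  simp only [← Dif.mul_apply, ← zpow_add] at h3 h4
  constructor
  · rw [neg_add_rev]
    exact h4.trans h2.le
  · rw [add_comm i j]
    exact h1.le.trans h3

theorem Ctx.el_mem4 (c : Ctx S u X x₀ a ρ ν θ η C₁ ε r K) {a' b' : ℤ} {i : ℤ} {z : ℝ}
    (hb : |(a' : ℝ) * θ + (b' : ℝ) * η| ≤ 3 * θ) (hz : z ∈ Wd S x₀ i) (hi : i ≤ K) :
    el S u a' b' z ∈ Wd S x₀ (i + 4) := by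
  refine c.el_mem (j := 4) ?_ hz hi
  have := c.θ_pos
  push_cast
  linarith

theorem Ctx.letter_mem (c : Ctx S u X x₀ a ρ ν θ η C₁ ε r K) {g : Dif} (hg : IsLetter S u g)
    {i : ℤ} {z : ℝ} (hz : z ∈ Wd S x₀ i) (hi : i ≤ K) : g z ∈ Wd S x₀ (i + 2) := by
  have hθ := c.θ_pos
  have hη := c.η_pos
  have hηθ := c.η_lt
  rcases hg with rfl | rfl | rfl | rfl
  · have := c.el_mem (a' := 1) (b' := 0) (j := 2) (i := i) (z := z) (by
      push_cast; rw [abs_lt]; constructor <;> linarith) hz hi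
    simpa [el] using this
  · have := c.el_mem (a' := -1) (b' := 0) (j := 2) (i := i) (z := z) (by
      push_cast; rw [abs_lt]; constructor <;> linarith) hz hi
    simpa [el] using this
  · have := c.el_mem (a' := 0) (b' := 1) (j := 2) (i := i) (z := z) (by
      push_cast; rw [abs_lt]; constructor <;> linarith) hz hi
    simpa [el] using this
  · have := c.el_mem (a' := 0) (b' := -1) (j := 2) (i := i) (z := z) (by
      push_cast; rw [abs_lt]; constructor <;> linarith) hz hi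
    simpa [el] using this

/-- bounds for the normalised logarithm of the vector field -/
theorem logX_bound (r : ℕ) (C₁ : ℝ) : ∃ C, 1 ≤ C ∧ ∀ (S u : Dif) (X : ℝ → ℝ)
    (x₀ a ρ ν θ η ε : ℝ) (K : ℤ), Ctx S u X x₀ a ρ ν θ η C₁ ε r K → ∀ z ∈ Wd S x₀ K,
    JB (r + 1) (fun y => Real.log (X y / a)) z C ρ := by
  obtain ⟨C, hC, hlog⟩ := JB.log (r + 1) (4 * C₁)
  refine ⟨max (max C 1) (Real.log 4 + 1), le_max_of_le_left (le_max_right _ _), ?_⟩
  intro S u X x₀ a ρ ν θ η ε K c z hz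
  have ha := c.a_pos
  have hX := c.X_lo z hz
  have hX' := c.X_hi z hz
  have hJ : JB (r + 1) (fun y => X y / a) z C₁ ρ := by
    have h0 : JB (r + 1) X z (C₁ * a) ρ := ⟨c.X_smooth z hz, fun l hl => by
      exact c.X_der z hz l hl⟩
    have h1 := h0.const_mul a⁻¹
    rw [abs_of_pos (inv_pos.mpr ha)] at h1
    have h2 : a⁻¹ * (C₁ * a) = C₁ := by field_simp
    rw [h2] at h1
    refine h1.congr (Filter.Eventually.of_forall fun y => ?_)
    simp only [div_eq_inv_mul]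
  have hpos : 0 < X z / a := div_pos (by linarith) ha
  have hlo : 1 / 4 ≤ X z / a := by rw [le_div_iff₀ ha]; linarith
  have hhi : X z / a ≤ 3 := by rw [div_le_iff₀ ha]; linarith
  have hC1 := c.C_ge
  obtain ⟨hs, hd⟩ := hlog (fun y => X y / a) z C₁ ρ c.ρ_pos.le (by linarith) hJ hpos
    (by nlinarith)
  refine ⟨hs, fun l hl => ?_⟩
  rcases Nat.eq_zero_or_pos l with rfl | hl0
  · rw [iteratedDeriv_zero, pow_zero, mul_one]
    refine le_max_of_le_right ?_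
    have h1 : Real.log (X z / a) ≤ Real.log 4 := Real.log_le_log hpos (by linarith)
    have h2 : -Real.log 4 ≤ Real.log (X z / a) := by
      rw [← Real.log_inv]
      exact Real.log_le_log (by norm_num) (by rw [inv_eq_one_div]; exact hlo)
    rw [abs_le]
    constructor <;> linarith
  · refine (hd l hl0 hl).trans ?_
    refine mul_le_mul_of_nonneg_right ?_ (pow_nonneg c.ρ_pos.le _)
    exact (le_max_left C 1).trans (le_max_left _ _)

/-- from bounds for `log γ'` to bounds for the derivatives of `γ` -/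
theorem der_of_log (l : ℕ) (A : ℝ) : ∃ C, 1 ≤ C ∧ ∀ (g : Dif) (z ρ : ℝ), 0 < ρ →
    JB l (fun y => Real.log (deriv g y)) z A ρ →
    ∀ i, 1 ≤ i → i ≤ l + 1 → ρ * |iteratedDeriv i g z| ≤ C * ρ ^ i := by
  obtain ⟨C, hC, hexp⟩ := JB.exp l A
  refine ⟨max (C * Real.exp A) 1, le_max_right _ _, ?_⟩
  intro g z ρ hρ hJ i hi1 hi2
  have h1 := hexp (fun y => Real.log (deriv g y)) z ρ hρ.le hJ.1 (fun l' _ h2 => hJ.2 l' h2)
  obtain ⟨j, rfl⟩ : ∃ j, i = j + 1 := ⟨i - 1, by omega⟩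
  have h2 : (fun y => Real.exp (Real.log (deriv g y))) = deriv g := by
    funext y
    exact Real.exp_log (g.deriv_pos y)
  rw [h2] at h1
  have h3 := h1.2 j (by omega)
  rw [iteratedDeriv_succ', pow_succ']
  have h4 : Real.exp (Real.log (deriv g z)) ≤ Real.exp A :=
    Real.exp_le_exp.mpr ((le_abs_self _).trans hJ.val)
  calc ρ * |iteratedDeriv j (deriv g) z| ≤ ρ * (C * Real.exp (Real.log (deriv g z)) * ρ ^ j) :=
        mul_le_mul_of_nonneg_left h3 hρ.le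
    _ ≤ ρ * (C * Real.exp A * ρ ^ j) := by
        refine mul_le_mul_of_nonneg_left (mul_le_mul_of_nonneg_right ?_ (by positivity)) hρ.le
        exact mul_le_mul_of_nonneg_left h4 hC.le
    _ = (C * Real.exp A) * (ρ * ρ ^ j) := by ring
    _ ≤ max (C * Real.exp A) 1 * (ρ * ρ ^ j) :=
        mul_le_mul_of_nonneg_right (le_max_left _ _) (by positivity)

/-- the defect of a word is smooth where the vector field is -/
theorem Ctx.dfc_smooth (c : Ctx S u X x₀ a ρ ν θ η C₁ ε r K) {g : Dif} {z : ℝ}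
    (hz : z ∈ Wd S x₀ K) (hgz : g z ∈ Wd S x₀ K) : ContDiffAt ℝ ∞ (dfc X a g) z := by
  have ha := c.a_pos
  have h1 : ContDiffAt ℝ ∞ (fun y => Real.log (deriv g y)) z :=
    (contDiffAt_deriv_dif g z).log (g.deriv_pos z).ne'
  have hX : ∀ w ∈ Wd S x₀ K, ContDiffAt ℝ ∞ (fun y => Real.log (X y / a)) w := by
    intro w hw
    have := c.X_lo w hw
    exact ((c.X_smooth w hw).div_const a).log (div_pos (by linarith) ha).ne'
  exact (h1.add (hX z hz)).sub ((hX _ hgz).comp z g.contDiff.contDiffAt)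

/-- Main induction. -/
theorem words_reg (r : ℕ) (C₁ : ℝ) : ∀ l ≤ r, ∃ C, 1 ≤ C ∧ ∀ (S u : Dif) (X : ℝ → ℝ)
    (x₀ a ρ ν θ η ε : ℝ) (K : ℤ), Ctx S u X x₀ a ρ ν θ η C₁ ε r K →
    ∀ (L : ℕ) (a' b' : ℤ), Reach θ η L a' b' → L * ε ≤ 1 → ∀ z ∈ Wd S x₀ (K - 6),
      JB l (fun y => Real.log (deriv (el S u a' b') y)) z C ρ ∧
      JB l (dfc X a (el S u a' b')) z (L * (C * ε)) ρ := by
  obtain ⟨CX, hCX, hX⟩ := logX_bound r C₁
  -- from the defect to `log γ'`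
  have fin : ∀ l ≤ r, ∀ A : ℝ, 1 ≤ A → ∃ C, 1 ≤ C ∧ ∀ (S u : Dif) (X : ℝ → ℝ)
      (x₀ a ρ ν θ η ε : ℝ) (K : ℤ), Ctx S u X x₀ a ρ ν θ η C₁ ε r K →
      ∀ (a' b' : ℤ) (z : ℝ), z ∈ Wd S x₀ (K - 6) → |(a' : ℝ) * θ + (b' : ℝ) * η| ≤ 3 * θ →
      (∀ i, 1 ≤ i → i ≤ l → ρ * |iteratedDeriv i (el S u a' b') z| ≤ A * ρ ^ i) →
      JB l (dfc X a (el S u a' b')) z A ρ →
      JB l (fun y => Real.log (deriv (el S u a' b') y)) z C ρ := by
    intro l hl A hA
    obtain ⟨Cc, hCc, hcomp⟩ := JB.comp l A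
    refine ⟨A + CX + Cc * CX, by nlinarith [mul_pos hCc (lt_of_lt_of_le one_pos hCX)], ?_⟩
    intro S u X x₀ a ρ ν θ η ε K c a' b' z hz hb hder hd
    have hzK : z ∈ Wd S x₀ K := Wd_mono c.lt (by omega) hz
    have hγz : el S u a' b' z ∈ Wd S x₀ K :=
      Wd_mono c.lt (by omega) (c.el_mem4 hb hz (by omega))
    have h1 := (hX S u X x₀ a ρ ν θ η ε K c z hzK).mono (n' := l) (by omega) le_rfl c.ρ_pos.le
    have h2 := (hX S u X x₀ a ρ ν θ η ε K c _ hγz).mono (n' := l) (by omega) le_rfl c.ρ_pos.le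
    have h3 := hcomp (fun y => Real.log (X y / a)) (el S u a' b') z CX ρ ρ c.ρ_pos.le c.ρ_pos.le
      h2 (el S u a' b').contDiff.contDiffAt hder
    have h4 := (hd.sub h1).add h3
    refine h4.congr (Filter.Eventually.of_forall fun y => ?_)
    unfold dfc
    ring
  -- the defect of words
  have wd : ∀ l ≤ r, ∀ A : ℝ, 1 ≤ A → ∃ C, 1 ≤ C ∧ ∀ (S u : Dif) (X : ℝ → ℝ)
      (x₀ a ρ ν θ η ε : ℝ) (K : ℤ), Ctx S u X x₀ a ρ ν θ η C₁ ε r K →
      (∀ (L : ℕ) (a' b' : ℤ), Reach θ η L a' b' → L * ε ≤ 1 → ∀ z ∈ Wd S x₀ (K - 6),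
        ∀ i, 1 ≤ i → i ≤ l → ρ * |iteratedDeriv i (el S u a' b') z| ≤ A * ρ ^ i) →
      ∀ (L : ℕ) (a' b' : ℤ), Reach θ η L a' b' → L * ε ≤ 1 → ∀ z ∈ Wd S x₀ (K - 6),
        JB l (dfc X a (el S u a' b')) z (L * (C * ε)) ρ := by
    intro l hl A hA
    obtain ⟨Cc, hCc, hcomp⟩ := JB.comp l A
    refine ⟨max Cc 1, le_max_right _ _, ?_⟩
    intro S u X x₀ a ρ ν θ η ε K c hder L a' b' hR
    have hε := c.ε_nonneg
    induction hR with
    | zero =>
      intro _ z hz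
      have h0 : el S u 0 0 = 1 := by simp [el]
      have h1 : dfc X a (el S u 0 0) = fun _ => 0 := by
        funext y
        rw [h0]
        unfold dfc
        have : deriv (fun y : ℝ => (1 : Dif) y) y = 1 := by
          have h2 : (fun y : ℝ => (1 : Dif) y) = fun y => y := rfl
          rw [h2]; simp
        rw [this]
        simp
      rw [h1]
      have := JB.const (n := l) (x := z) (κ := ρ) 0 c.ρ_pos.le
      simpa using this
    | @step L a' b' c' d' hR hcd hb ih =>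
      intro hLε z hz
      have hLε' : (L : ℝ) * ε ≤ 1 := by
        push_cast at hLε
        nlinarith
      have ih' := ih hLε' z hz
      -- the letter
      obtain ⟨g, hg, hgel⟩ : ∃ g, IsLetter S u g ∧ el S u c' d' = g := by
        rcases hcd with ⟨rfl, rfl⟩ | ⟨rfl, rfl⟩ | ⟨rfl, rfl⟩ | ⟨rfl, rfl⟩
        · exact ⟨S, Or.inl rfl, by simp [el]⟩
        · exact ⟨S⁻¹, Or.inr (Or.inl rfl), by simp [el]⟩
        · exact ⟨u, Or.inr (Or.inr (Or.inl rfl)), by simp [el]⟩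
        · exact ⟨u⁻¹, Or.inr (Or.inr (Or.inr rfl)), by simp [el]⟩
      have hmul : el S u (c' + a') (d' + b') = g * el S u a' b' := by
        rw [← hgel, el_mul c.comm]
      have hpos : el S u a' b' z ∈ Wd S x₀ (K - 1) := by
        have := c.el_mem4 (hR.bound c.θ_pos) hz (by omega)
        exact Wd_mono c.lt (by omega) this
      have h1 := (c.err g hg _ hpos).mono (n' := l) hl le_rfl c.ρ_pos.le
      have h2 := hcomp (dfc X a g) (el S u a' b') z ε ρ ρ c.ρ_pos.le c.ρ_pos.le h1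
        (el S u a' b').contDiff.contDiffAt (hder L a' b' hR hLε' z hz)
      have h3 := h2.add ih'
      have h4 : JB l (dfc X a (el S u (c' + a') (d' + b'))) z
          (Cc * ε + L * (max Cc 1 * ε)) ρ := by
        refine h3.congr (Filter.Eventually.of_forall fun y => ?_)
        show dfc X a g (el S u a' b' y) + dfc X a (el S u a' b') y = _
        rw [hmul, dfc_mul]
      refine h4.mono le_rfl ?_ c.ρ_pos.le
      have h5 : Cc * ε ≤ max Cc 1 * ε := mul_le_mul_of_nonneg_right (le_max_left _ _) hε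
      push_cast
      nlinarith
  intro l
  induction l with
  | zero =>
    intro hl
    obtain ⟨C, hC, h1⟩ := wd 0 hl 1 le_rfl
    obtain ⟨C', hC', h2⟩ := fin 0 hl C hC
    refine ⟨max C C', le_max_of_le_left hC, ?_⟩
    intro S u X x₀ a ρ ν θ η ε K c L a' b' hR hLε z hz
    have hε := c.ε_nonneg
    have h3 := h1 S u X x₀ a ρ ν θ η ε K c (fun L a' b' _ _ z _ i hi1 hi2 => by omega)
      L a' b' hR hLε z hz
    have h4 := h2 S u X x₀ a ρ ν θ η ε K c a' b' z hz (hR.bound c.θ_pos)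
      (fun i hi1 hi2 => by omega) (h3.mono le_rfl (by nlinarith) c.ρ_pos.le)
    refine ⟨h4.mono le_rfl (le_max_right _ _) c.ρ_pos.le, h3.mono le_rfl ?_ c.ρ_pos.le⟩
    have : C * ε ≤ max C C' * ε := mul_le_mul_of_nonneg_right (le_max_left _ _) hε
    exact mul_le_mul_of_nonneg_left this (Nat.cast_nonneg _)
  | succ l ih =>
    intro hl
    obtain ⟨A₀, hA₀, ih⟩ := ih (by omega)
    obtain ⟨A, hA, hder⟩ := der_of_log l A₀
    obtain ⟨C, hC, h1⟩ := wd (l + 1) hl A hA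
    obtain ⟨C', hC', h2⟩ := fin (l + 1) hl (max A C) (le_max_of_le_left hA)
    refine ⟨max C C', le_max_of_le_left hC, ?_⟩
    intro S u X x₀ a ρ ν θ η ε K c L a' b' hR hLε z hz
    have hε := c.ε_nonneg
    have hd : ∀ (L : ℕ) (a' b' : ℤ), Reach θ η L a' b' → L * ε ≤ 1 → ∀ z ∈ Wd S x₀ (K - 6),
        ∀ i, 1 ≤ i → i ≤ l + 1 → ρ * |iteratedDeriv i (el S u a' b') z| ≤ A * ρ ^ i := by
      intro L a' b' hR hLε z hz i hi1 hi2
      exact hder _ z ρ c.ρ_pos (ih S u X x₀ a ρ ν θ η ε K c L a' b' hR hLε z hz).1 i hi1 hi2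
    have h3 := h1 S u X x₀ a ρ ν θ η ε K c hd L a' b' hR hLε z hz
    have h4 := h2 S u X x₀ a ρ ν θ η ε K c a' b' z hz (hR.bound c.θ_pos)
      (fun i hi1 hi2 => (hd L a' b' hR hLε z hz i hi1 hi2).trans
        (mul_le_mul_of_nonneg_right (le_max_left _ _) (pow_nonneg c.ρ_pos.le _)))
      (h3.mono le_rfl (by
        have : (L : ℝ) * (C * ε) ≤ C := by nlinarith
        exact this.trans (le_max_right _ _)) c.ρ_pos.le)
    refine ⟨h4.mono le_rfl (le_max_right _ _) c.ρ_pos.le, h3.mono le_rfl ?_ c.ρ_pos.le⟩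
    have : C * ε ≤ max C C' * ε := mul_le_mul_of_nonneg_right (le_max_left _ _) hε
    exact mul_le_mul_of_nonneg_left this (Nat.cast_nonneg _)

end

end Pool.Agent.F88.LL
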