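import Pool.Agent.Lib.MP_f88c17.LLCtx

/-!
# Local lemma: letters, displacement
-/

set_option autoImplicit false

open Set Filter Topology
open scoped ContDiff

namespace Pool.Agent.F88.LL

theorem rpow_small {η Y : ℝ} {l r : ℕ} (hη : 0 < η) (hY : 0 < Y) (hY1 : Y ≤ 1)
    (h : η ≤ Y ^ (2 ^ r)) (hl : l ≤ r) : η ^ ((1 : ℝ) / 2 ^ l) ≤ Y := by
  have h3 : η ^ ((1 : ℝ) / 2 ^ l) ≤ (Y ^ (2 ^ r)) ^ ((1 : ℝ) / 2 ^ l) :=
    Real.rpow_le_rpow hη.le h (by positivity)
  have h4 : (Y ^ (2 ^ r) : ℝ) ^ ((1 : ℝ) / 2 ^ l) = Y ^ (((2 : ℝ) ^ r) * (1 / 2 ^ l)) := by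
    rw [← Real.rpow_natCast, ← Real.rpow_mul hY.le]
    push_cast
    rfl
  have h5 : (1 : ℝ) ≤ (2 : ℝ) ^ r * (1 / 2 ^ l) := by
    rw [mul_one_div, le_div_iff₀ (by positivity), one_mul]
    exact pow_le_pow_right₀ (by norm_num) hl
  rw [h4] at h3
  calc _ ≤ Y ^ (((2 : ℝ) ^ r) * (1 / 2 ^ l)) := h3
    _ ≤ Y ^ (1 : ℝ) := Real.rpow_le_rpow_of_exponent_ge hY hY1 h5
    _ = Y := Real.rpow_one _

/-- length of windows -/
theorem wd_length {S : Dif} {x₀ a : ℝ} {K j : ℤ} (hlt : x₀ < S x₀)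
    (lo : ∀ z ∈ Wd S x₀ K, a / 2 ≤ S z - z) (hK : 0 ≤ K) (hj : 1 ≤ j) :
    a / 2 ≤ (S ^ j) x₀ - (S ^ (-j)) x₀ := by
  have hx : x₀ ∈ Wd S x₀ K := by
    constructor
    · have := zpow_le hlt (i := -K) (j := 0) (by omega); simpa using this
    · have := zpow_le hlt (i := 0) (j := K) (by omega); simpa using this
  have h1 := lo x₀ hx
  have h2 := zpow_le hlt (i := 1) (j := j) hj
  have h3 := zpow_le hlt (i := -j) (j := 0) (by omega)
  simp only [zpow_one, zpow_zero, Dif.one_apply] at h2 h3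
  linarith

/-- the defect of a letter: value and crude bounds -/
theorem letter_crude (k r : ℕ) (C C' : ℝ) (hC : 1 ≤ C) (hC' : 1 ≤ C') : ∃ C₃, 1 ≤ C₃ ∧
    ∀ (S : Dif) (X : ℝ → ℝ) (x₀ a ρ ν : ℝ) (K : ℤ) (g : Dif),
    0 < a → 0 < ρ → 0 < ν → ρ * a = ν → 8 * C' * ν ^ k ≤ 1 →
    (∀ z ∈ Wd S x₀ (K + 2), ContDiffAt ℝ ∞ X z ∧ a / 4 ≤ X z ∧ X z ≤ 3 * a ∧
        ∀ l ≤ r + 1, |iteratedDeriv l X z| ≤ C' * a * ρ ^ l) →
    (∀ z ∈ Wd S x₀ K, z ∈ Wd S x₀ (K + 2) ∧ g z ∈ Wd S x₀ (K + 2)) →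
    (∀ z ∈ Wd S x₀ K, ∀ l, 1 ≤ l → l ≤ r + 2 → |iteratedDeriv l g z| ≤ C * ρ ^ (l - 1)) →
    (∀ z ∈ Wd S x₀ K, |X (g z) - deriv g z * X z| ≤ C' * a * ν ^ k) →
    ∀ z ∈ Wd S x₀ K, ContDiffAt ℝ ∞ (dfc X a g) z ∧ |dfc X a g z| ≤ 8 * C' * ν ^ k ∧
      ∀ l, 1 ≤ l → l ≤ r + 1 → |iteratedDeriv l (dfc X a g) z| ≤ C₃ * ρ ^ l := by
  obtain ⟨Cg, hCg, hlogg⟩ := JB.log (r + 1) (24 * C)
  obtain ⟨Cx, hCx, hlogX⟩ := JB.log (r + 1) (4 * C')
  obtain ⟨Cc, hCc, hcomp⟩ := JB.comp (r + 1) C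
  set CX : ℝ := Cx + Real.log 4 with hCX
  have hlog4 : 0 < Real.log 4 := Real.log_pos (by norm_num)
  refine ⟨Cg + CX + Cc * CX + 1, by nlinarith [mul_pos hCc (add_pos hCx hlog4)], ?_⟩
  intro S X x₀ a ρ ν K g ha hρ hν hρa hsmall hX hmem hg herr z hz
  obtain ⟨hz2, hgz2⟩ := hmem z hz
  have hν' : 0 ≤ ν ^ k := by positivity
  -- normalised field
  have hJX : ∀ w ∈ Wd S x₀ (K + 2), JB (r + 1) (fun y => Real.log (X y / a)) w CX ρ := by
    intro w hw
    obtain ⟨hs, hlo, hhi, hd⟩ := hX w hw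
    have hJ : JB (r + 1) (fun y => X y / a) w C' ρ := by
      have h0 : JB (r + 1) X w (C' * a) ρ := ⟨hs, fun l hl => hd l hl⟩
      have h1 := h0.const_mul a⁻¹
      rw [abs_of_pos (inv_pos.mpr ha)] at h1
      have h2 : a⁻¹ * (C' * a) = C' := by field_simp
      rw [h2] at h1
      refine h1.congr (Filter.Eventually.of_forall fun y => ?_)
      simp only [div_eq_inv_mul]
    have hpos : 0 < X w / a := div_pos (by linarith) ha
    have hlo' : 1 / 4 ≤ X w / a := by rw [le_div_iff₀ ha]; linarith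
    have hhi' : X w / a ≤ 3 := by rw [div_le_iff₀ ha]; linarith
    obtain ⟨hs', hd'⟩ := hlogX (fun y => X y / a) w C' ρ hρ.le (by linarith) hJ hpos
      (by nlinarith)
    refine ⟨hs', fun l hl => ?_⟩
    rcases Nat.eq_zero_or_pos l with rfl | hl0
    · rw [iteratedDeriv_zero, pow_zero, mul_one]
      have h1 : Real.log (X w / a) ≤ Real.log 4 := Real.log_le_log hpos (by linarith)
      have h2 : -Real.log 4 ≤ Real.log (X w / a) := by
        rw [← Real.log_inv]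
        exact Real.log_le_log (by norm_num) (by rw [inv_eq_one_div]; exact hlo')
      rw [abs_le]
      constructor <;> linarith
    · refine (hd' l hl0 hl).trans ?_
      refine mul_le_mul_of_nonneg_right ?_ (pow_nonneg hρ.le _)
      linarith
  obtain ⟨-, hXlo, hXhi, -⟩ := hX z hz2
  obtain ⟨-, hXlo', hXhi', -⟩ := hX _ hgz2
  have he := herr z hz
  have hXpos : 0 < X z := by linarith
  have hXpos' : 0 < X (g z) := by linarith
  have hgpos := g.deriv_pos z
  -- lower bound for the derivative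
  have hglo : 1 / 24 ≤ deriv g z := by
    have h1 := (abs_le.mp he).2
    have h2 : C' * a * ν ^ k ≤ a / 8 := by nlinarith
    by_contra hcon
    have h3 := not_le.mp hcon
    have h4 : deriv g z * X z < 1 / 24 * X z := mul_lt_mul_of_pos_right h3 hXpos
    linarith
  have hJg : JB (r + 1) (deriv g) z C ρ := by
    refine ⟨contDiffAt_deriv_dif g z, fun l hl => ?_⟩
    have := hg z hz (l + 1) (by omega) (by omega)
    rw [iteratedDeriv_succ'] at this
    simpa using this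
  obtain ⟨hgs, hgd⟩ := hlogg (deriv g) z C ρ hρ.le (by linarith) hJg hgpos (by nlinarith)
  have hJX1 := hJX z hz2
  have hJX2 := hcomp (fun y => Real.log (X y / a)) g z CX ρ ρ hρ.le hρ.le (hJX _ hgz2)
    g.contDiff.contDiffAt (fun l h1 h2 => by
      have h3 := hg z hz l h1 (by omega)
      obtain ⟨j, rfl⟩ : ∃ j, l = j + 1 := ⟨l - 1, by omega⟩
      rw [Nat.add_sub_cancel] at h3
      calc ρ * |iteratedDeriv (j + 1) g z| ≤ ρ * (C * ρ ^ j) :=
            mul_le_mul_of_nonneg_left h3 hρ.le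
        _ = C * ρ ^ (j + 1) := by rw [pow_succ']; ring)
  have hXdiff := hJX1.sub hJX2
  have hsum : dfc X a g = fun y => Real.log (deriv g y) +
      (Real.log (X y / a) - Real.log (X (g y) / a)) := by
    funext y; unfold dfc; ring
  refine ⟨?_, ?_, ?_⟩
  · rw [hsum]; exact hgs.add hXdiff.1
  · -- the value
    have h1 : dfc X a g z = Real.log (deriv g z * X z / X (g z)) := by
      unfold dfc
      rw [Real.log_div (by positivity) hXpos'.ne', Real.log_mul hgpos.ne' hXpos.ne',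
        Real.log_div hXpos.ne' ha.ne', Real.log_div hXpos'.ne' ha.ne']
      ring
    set δ : ℝ := (deriv g z * X z - X (g z)) / X (g z) with hδ
    have h2 : deriv g z * X z / X (g z) = 1 + δ := by
      rw [hδ]; field_simp; ring
    have h3 : |δ| ≤ 4 * C' * ν ^ k := by
      rw [hδ, abs_div, abs_of_pos hXpos', div_le_iff₀ hXpos', abs_sub_comm]
      refine he.trans ?_
      have h4 : 0 ≤ C' * ν ^ k := by positivity
      nlinarith
    have h5 : |δ| ≤ 1 / 2 := by linarith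
    rw [h1, h2]
    have h6 := abs_le.mp h5
    have h7 : Real.log (1 + δ) ≤ δ := by
      have := Real.log_le_sub_one_of_pos (show 0 < 1 + δ by linarith)
      linarith
    have h8 : -(2 * |δ|) ≤ Real.log (1 + δ) := by
      have h9 : 1 - (1 + δ)⁻¹ ≤ Real.log (1 + δ) :=
        Real.one_sub_inv_le_log_of_pos (by linarith)
      have h10 : -(2 * |δ|) ≤ 1 - (1 + δ)⁻¹ := by
        have hpos : 0 < 1 + δ := by linarith
        have h11 : 1 - (1 + δ)⁻¹ = δ / (1 + δ) := by field_simp; ring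
        rw [h11, le_div_iff₀ hpos]
        rcases abs_cases δ with ⟨h12, h13⟩ | ⟨h12, h13⟩ <;> rw [h12] <;> nlinarith
      linarith
    rw [abs_le]
    constructor
    · linarith
    · have := le_abs_self δ
      linarith [abs_nonneg δ]
  · intro l hl1 hl2
    rw [hsum]
    have h1 := hgd l hl1 hl2
    have h2 := hXdiff.2 l hl2
    have h3 : iteratedDeriv l (fun y => Real.log (deriv g y) +
        (Real.log (X y / a) - Real.log (X (g y) / a))) z =
        iteratedDeriv l (fun y => Real.log (deriv g y)) z +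
        iteratedDeriv l (fun y => Real.log (X y / a) - Real.log (X (g y) / a)) z := by
      have h4 : ContDiffAt ℝ l (fun y => Real.log (deriv g y)) z :=
        hgs.of_le (by exact_mod_cast le_top)
      have h5 : ContDiffAt ℝ l (fun y => Real.log (X y / a) - Real.log (X (g y) / a)) z :=
        hXdiff.1.of_le (by exact_mod_cast le_top)
      exact iteratedDeriv_fun_add h4 h5
    rw [h3]
    refine (abs_add_le _ _).trans ?_
    have h6 : 0 ≤ ρ ^ l := by positivity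
    nlinarith

/-! ## Distances -/

/-- exact mean value -/
theorem mv_exact (f : Dif) (x y : ℝ) : ∃ ξ ∈ uIcc x y, f y - f x = deriv f ξ * (y - x) := by
  rcases lt_trichotomy x y with h | h | h
  · obtain ⟨ξ, hξ, h1⟩ := exists_deriv_eq_slope (fun z => f z) h f.continuous.continuousOn
      f.differentiable.differentiableOn
    refine ⟨ξ, ?_, ?_⟩
    · rw [uIcc_of_le h.le]; exact Ioo_subset_Icc_self hξ
    · rw [h1]; field_simp [sub_ne_zero.mpr h.ne']
  · exact ⟨x, left_mem_uIcc, by rw [h]; simp⟩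
  · obtain ⟨ξ, hξ, h1⟩ := exists_deriv_eq_slope (fun z => f z) h f.continuous.continuousOn
      f.differentiable.differentiableOn
    refine ⟨ξ, ?_, ?_⟩
    · rw [uIcc_of_ge h.le]; exact Ioo_subset_Icc_self hξ
    · have h2 : x - y ≠ 0 := sub_ne_zero.mpr h.ne'
      have h3 : deriv f ξ * (x - y) = f x - f y := by
        rw [h1]; field_simp
      linarith

section

variable {S u : Dif} {X : ℝ → ℝ} {x₀ a ρ ν θ η C₁ ε : ℝ} {r : ℕ} {K : ℤ}

theorem Ctx.el_between (c : Ctx S u X x₀ a ρ ν θ η C₁ ε r K) {a' b' : ℤ} {j : ℤ} {z : ℝ}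
    (hb : |(a' : ℝ) * θ + (b' : ℝ) * η| < j * θ) (hz : z ∈ Wd S x₀ K) :
    (S ^ (-j)) z < el S u a' b' z ∧ el S u a' b' z < (S ^ j) z := by
  rw [abs_lt] at hb
  have h1 : el S u a' b' z < el S u j 0 z := c.lt_el (by push_cast; linarith) hz
  have h2 : el S u (-j) 0 z < el S u a' b' z := c.lt_el (by push_cast; linarith) hz
  rw [el_zero_right] at h1 h2
  exact ⟨h2, h1⟩

theorem Ctx.pow_dist (c : Ctx S u X x₀ a ρ ν θ η C₁ ε r K) (n : ℕ) {w : ℝ}
    (hw : ∀ j : ℕ, j < n → (S ^ j) w ∈ Wd S x₀ K) : (S ^ n) w - w ≤ 2 * n * a := by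
  induction n with
  | zero => simp
  | succ n ih =>
    have h1 := ih (fun j hj => hw j (by omega))
    have h2 := c.hi _ (hw n (by omega))
    rw [pow_succ', Dif.mul_apply]
    push_cast
    linarith

/-- displacement of words -/
theorem Ctx.dist_le (c : Ctx S u X x₀ a ρ ν θ η C₁ ε r K) {a' b' : ℤ} (j : ℕ) {i : ℤ} {z : ℝ}
    (hb : |(a' : ℝ) * θ + (b' : ℝ) * η| < j * θ) (hz : z ∈ Wd S x₀ i) (hi : i + j ≤ K) :
    |el S u a' b' z - z| ≤ 2 * j * a := by
  have hz' : z ∈ Wd S x₀ K := Wd_mono c.lt (by omega) hz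
  obtain ⟨h1, h2⟩ := c.el_between (j := j) (by simpa using hb) hz'
  have h3 := c.pow_dist j (w := z) (fun l hl => by
    have := Wd_zpow c.lt (j := (l : ℤ)) (k := K) hz (by
      rw [abs_of_nonneg (by positivity)]; omega)
    rwa [zpow_natCast] at this)
  have h4 := c.pow_dist j (w := (S ^ (-(j : ℤ))) z) (fun l hl => by
    rw [← zpow_natCast, ← Dif.mul_apply, ← zpow_add]
    refine Wd_zpow c.lt hz ?_
    rw [abs_of_nonpos (by omega)]; omega)
  have h5 : (S ^ j) ((S ^ (-(j : ℤ))) z) = z := by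
    rw [← zpow_natCast, ← Dif.mul_apply, ← zpow_add]; simp
  rw [h5] at h4
  rw [zpow_natCast] at h2
  rw [abs_le]
  constructor <;> linarith

/-- Words have derivative close to one. -/
theorem word_deriv (r : ℕ) (C₁ : ℝ) : ∃ C, 1 ≤ C ∧ ∀ (S u : Dif) (X : ℝ → ℝ)
    (x₀ a ρ ν θ η ε : ℝ) (K : ℤ), Ctx S u X x₀ a ρ ν θ η C₁ ε r K →
    ∀ (L : ℕ) (a' b' : ℤ), Reach θ η L a' b' → L * ε ≤ ν → ∀ z ∈ Wd S x₀ (K - 6),
      |Real.log (deriv (el S u a' b') z)| ≤ C * ν ∧
      JB r (fun y => Real.log (deriv (el S u a' b') y)) z C ρ := by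
  obtain ⟨Cw, hCw, hw⟩ := words_reg r C₁ r le_rfl
  obtain ⟨CX, hCX, hX⟩ := logX_bound r C₁
  refine ⟨Cw + 8 * CX, by linarith, ?_⟩
  intro S u X x₀ a ρ ν θ η ε K c L a' b' hR hL z hz
  have hν := c.ν_pos
  have hν1 := c.ν_le
  have hθ := c.θ_pos
  obtain ⟨h1, h2⟩ := hw S u X x₀ a ρ ν θ η ε K c L a' b' hR (hL.trans hν1) z hz
  refine ⟨?_, h1.mono le_rfl (by linarith) c.ρ_pos.le⟩
  have hb : |(a' : ℝ) * θ + (b' : ℝ) * η| < (4 : ℕ) * θ := by
    have := hR.bound hθ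
    push_cast
    linarith
  have hdist := c.dist_le 4 hb hz (by push_cast; omega)
  have hzK : z ∈ Wd S x₀ K := Wd_mono c.lt (by omega) hz
  have hγz : el S u a' b' z ∈ Wd S x₀ K :=
    Wd_mono c.lt (by omega) (c.el_mem4 (hR.bound hθ) hz (by omega))
  have hval : |dfc X a (el S u a' b') z| ≤ Cw * ν := by
    refine h2.val.trans ?_
    calc (L : ℝ) * (Cw * ε) = Cw * (L * ε) := by ring
      _ ≤ Cw * ν := mul_le_mul_of_nonneg_left hL (by linarith)
  have hmv : |Real.log (X (el S u a' b' z) / a) - Real.log (X z / a)| ≤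
      CX * ρ * |el S u a' b' z - z| := by
    have hseg : ∀ y ∈ Wd S x₀ K, DifferentiableAt ℝ (fun y => Real.log (X y / a)) y := by
      intro y hy
      exact (hX S u X x₀ a ρ ν θ η ε K c y hy).1.differentiableAt (by simp)
    have := Convex.norm_image_sub_le_of_norm_deriv_le (f := fun y => Real.log (X y / a))
      (C := CX * ρ) (s := Wd S x₀ K) (x := z) (y := el S u a' b' z)
      (fun y hy => hseg y hy)
      (fun y hy => by
        have h3 := (hX S u X x₀ a ρ ν θ η ε K c y hy).2 1 (by omega)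
        rw [iteratedDeriv_one, pow_one] at h3
        rw [Real.norm_eq_abs]; exact h3) (convex_Icc _ _) hzK hγz
    simpa [Real.norm_eq_abs] using this
  have hρ := c.ρ_pos
  have hlog : Real.log (deriv (el S u a' b') z) = dfc X a (el S u a' b') z +
      (Real.log (X (el S u a' b' z) / a) - Real.log (X z / a)) := by
    unfold dfc; ring
  rw [hlog]
  refine (abs_add_le _ _).trans ?_
  have h5 : CX * ρ * |el S u a' b' z - z| ≤ CX * ρ * (2 * (4 : ℕ) * a) :=
    mul_le_mul_of_nonneg_left hdist (by positivity)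
  have h6 : CX * ρ * (2 * ((4 : ℕ) : ℝ) * a) = 8 * CX * ν := by
    rw [← c.ρa]; push_cast; ring
  linarith

end

/-- displacement from the displacement of a power -/
theorem disp (s : Dif) (z : ℝ) (q : ℕ) (D : ℝ)
    (h : ∀ j : ℕ, j < q → ∀ y ∈ uIcc z (s z), 1 / 2 ≤ deriv (s ^ j : Dif) y)
    (hq : |(s ^ q) z - z| ≤ D) : (q : ℝ) / 2 * |s z - z| ≤ D := by
  have key : ∀ j : ℕ, j ≤ q → ∃ c : ℝ, (j : ℝ) / 2 ≤ c ∧ (s ^ j) z - z = c * (s z - z) := by
    intro j
    induction j with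
    | zero => intro _; exact ⟨0, by simp, by simp⟩
    | succ j ih =>
      intro hj
      obtain ⟨c, hc, h1⟩ := ih (by omega)
      obtain ⟨ξ, hξ, h2⟩ := mv_exact (s ^ j) z (s z)
      refine ⟨deriv (s ^ j : Dif) ξ + c, ?_, ?_⟩
      · have := h j (by omega) ξ hξ
        push_cast
        linarith
      · rw [pow_succ, Dif.mul_apply, add_mul, ← h2, ← h1]
        ring
  obtain ⟨c, hc, h1⟩ := key q le_rfl
  have hc0 : 0 ≤ c := (by positivity : (0:ℝ) ≤ (q : ℝ) / 2).trans hc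
  rw [h1, abs_mul, abs_of_nonneg hc0] at hq
  exact (mul_le_mul_of_nonneg_right hc (abs_nonneg _)).trans hq

end Pool.Agent.F88.LL
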