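import Pool.Agent.Lib.MP_f88c17.Windows

/-!
# Local lemma: words with bounded running sums
-/

set_option autoImplicit false

open Set Filter Topology
open scoped ContDiff

namespace Pool.Agent.F88.LL

/-! ## The elements `S^a u^b` -/

/-- the element `S^a u^b` -/
def el (S u : Dif) (a b : ℤ) : Dif := S ^ a * u ^ b

theorem el_mul {S u : Dif} (h : Commute S u) (a b c d : ℤ) :
    el S u a b * el S u c d = el S u (a + c) (b + d) := by
  unfold el
  have h1 : u ^ b * S ^ c = S ^ c * u ^ b := ((h.zpow_zpow c b).eq).symm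
  calc S ^ a * u ^ b * (S ^ c * u ^ d) = S ^ a * (u ^ b * S ^ c) * u ^ d := by
        simp only [mul_assoc]
    _ = S ^ a * (S ^ c * u ^ b) * u ^ d := by rw [h1]
    _ = S ^ a * S ^ c * (u ^ b * u ^ d) := by simp only [mul_assoc]
    _ = S ^ (a + c) * u ^ (b + d) := by rw [← zpow_add, ← zpow_add]

theorem el_mul_apply {S u : Dif} (h : Commute S u) (a b c d : ℤ) (z : ℝ) :
    el S u a b (el S u c d z) = el S u (a + c) (b + d) z := by
  rw [← Dif.mul_apply, el_mul h]

theorem el_zero_right (S u : Dif) (a : ℤ) : el S u a 0 = S ^ a := by simp [el]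

theorem el_pow {S u : Dif} (h : Commute S u) (a b : ℤ) (n : ℕ) :
    (el S u a b) ^ n = el S u (n * a) (n * b) := by
  induction n with
  | zero => simp [el]
  | succ n ih =>
    rw [pow_succ, ih, el_mul h]
    push_cast
    ring_nf

/-- Words of length `L` with running sums at most `3 θ`. -/
inductive Reach (θ η : ℝ) : ℕ → ℤ → ℤ → Prop
  | zero : Reach θ η 0 0 0
  | step {L : ℕ} {a b : ℤ} (c d : ℤ) (h : Reach θ η L a b)
      (hcd : (c = 1 ∧ d = 0) ∨ (c = -1 ∧ d = 0) ∨ (c = 0 ∧ d = 1) ∨ (c = 0 ∧ d = -1))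
      (hb : |((c + a : ℤ) : ℝ) * θ + ((d + b : ℤ) : ℝ) * η| ≤ 3 * θ) :
      Reach θ η (L + 1) (c + a) (d + b)

theorem Reach.bound {θ η : ℝ} (hθ : 0 < θ) {L : ℕ} {a b : ℤ} (h : Reach θ η L a b) :
    |(a : ℝ) * θ + (b : ℝ) * η| ≤ 3 * θ := by
  cases h with
  | zero => simp; positivity
  | step c d h hcd hb => exact hb

theorem Reach.neg {θ η : ℝ} {L : ℕ} {a b : ℤ} (h : Reach θ η L a b) :
    Reach θ η L (-a) (-b) := by
  induction h with
  | zero => simpa using Reach.zero
  | @step L a b c d h hcd hb ih =>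
    have h1 : -(c + a) = -c + -a := by ring
    have h2 : -(d + b) = -d + -b := by ring
    rw [h1, h2]
    refine Reach.step (-c) (-d) ih ?_ ?_
    · omega
    · have h3 : ((-c + -a : ℤ) : ℝ) * θ + ((-d + -b : ℤ) : ℝ) * η =
          -(((c + a : ℤ) : ℝ) * θ + ((d + b : ℤ) : ℝ) * η) := by push_cast; ring
      rw [h3, abs_neg]
      exact hb

/-- the diagonal words -/
theorem reach_nat {θ η : ℝ} (hη : 0 < η) (hηθ : η < θ) (b : ℕ) :
    ∃ (L : ℕ) (a : ℤ), L ≤ 2 * b ∧ Reach θ η L a b ∧ 0 ≤ (a : ℝ) * θ + (b : ℝ) * η ∧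
      (a : ℝ) * θ + (b : ℝ) * η < θ := by
  have hθ : 0 < θ := hη.trans hηθ
  induction b with
  | zero => exact ⟨0, 0, le_rfl, Reach.zero, by simp, by simpa using hθ⟩
  | succ b ih =>
    obtain ⟨L, a, hL, hR, h0, h1⟩ := ih
    have hst : Reach θ η (L + 1) (0 + a) (1 + b) := by
      refine Reach.step 0 1 hR (by omega) ?_
      rw [abs_le]
      push_cast
      constructor
      · have : (0 + (a : ℝ)) * θ + (1 + (b : ℝ)) * η = (a : ℝ) * θ + (b : ℝ) * η + η := by ring
        rw [this]; linarith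
      · have : (0 + (a : ℝ)) * θ + (1 + (b : ℝ)) * η = (a : ℝ) * θ + (b : ℝ) * η + η := by ring
        rw [this]; linarith
    have e0 : (0 + a : ℤ) = a := by ring
    have e1 : (1 + (b : ℤ) : ℤ) = ((b + 1 : ℕ) : ℤ) := by push_cast; ring
    rw [e0, e1] at hst
    by_cases hlt : (a : ℝ) * θ + ((b + 1 : ℕ) : ℝ) * η < θ
    · refine ⟨L + 1, a, by omega, hst, ?_, hlt⟩
      push_cast; nlinarith
    · have hst2 : Reach θ η (L + 1 + 1) (-1 + a) (0 + ((b + 1 : ℕ) : ℤ)) := by
        refine Reach.step (-1) 0 hst (by omega) ?_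
        push_cast at hlt ⊢
        rw [abs_le]
        constructor <;> nlinarith
      have e2 : (0 + ((b + 1 : ℕ) : ℤ) : ℤ) = ((b + 1 : ℕ) : ℤ) := by ring
      rw [e2] at hst2
      refine ⟨L + 1 + 1, -1 + a, by omega, hst2, ?_, ?_⟩
      · push_cast at hlt ⊢; nlinarith
      · push_cast at hlt ⊢; nlinarith

/-- moving along `S` -/
theorem reach_S {θ η : ℝ} (hθ : 0 < θ) {L : ℕ} {a b : ℤ} (h : Reach θ η L a b) (n : ℕ) (a' : ℤ)
    (hn : |a' - a| = n) (h1 : |(a : ℝ) * θ + (b : ℝ) * η| ≤ 2 * θ)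
    (h2 : |(a' : ℝ) * θ + (b : ℝ) * η| ≤ 2 * θ) : Reach θ η (L + n) a' b := by
  induction n generalizing a L with
  | zero =>
    have : a' = a := by
      have := abs_eq_zero.mp (hn.trans (by simp))
      omega
    rw [this]; simpa using h
  | succ n ih =>
    rw [abs_le] at h1 h2
    rcases lt_trichotomy a a' with hlt | heq | hgt
    · have hc : (1 + a : ℤ) ≤ a' := by omega
      have hc' : ((1 + a : ℤ) : ℝ) ≤ a' := by exact_mod_cast hc
      have h3 : |((1 + a : ℤ) : ℝ) * θ + (b : ℝ) * η| ≤ 2 * θ := by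
        rw [abs_le]
        push_cast at hc' ⊢
        constructor <;> nlinarith
      have hst : Reach θ η (L + 1) (1 + a) (0 + b) := by
        refine Reach.step 1 0 h (by omega) ?_
        rw [zero_add]
        linarith
      rw [zero_add] at hst
      have := ih hst (by
        rw [abs_of_nonneg (by omega)] at hn ⊢
        push_cast at hn; omega) h3
      rw [show L + (n + 1) = L + 1 + n by ring]
      exact this
    · rw [heq, sub_self, abs_zero] at hn
      exfalso; push_cast at hn; omega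
    · have hc : a' ≤ (-1 + a : ℤ) := by omega
      have hc' : (a' : ℝ) ≤ ((-1 + a : ℤ) : ℝ) := by exact_mod_cast hc
      have h3 : |((-1 + a : ℤ) : ℝ) * θ + (b : ℝ) * η| ≤ 2 * θ := by
        rw [abs_le]
        push_cast at hc' ⊢
        constructor <;> nlinarith
      have hst : Reach θ η (L + 1) (-1 + a) (0 + b) := by
        refine Reach.step (-1) 0 h (by omega) ?_
        rw [zero_add]
        linarith
      rw [zero_add] at hst
      have := ih hst (by
        rw [abs_of_nonpos (by omega)] at hn ⊢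
        push_cast at hn; omega) h3
      rw [show L + (n + 1) = L + 1 + n by ring]
      exact this

theorem reach_all {θ η : ℝ} (hη : 0 < η) (hηθ : η < θ) (a b : ℤ)
    (h : |(a : ℝ) * θ + (b : ℝ) * η| ≤ 2 * θ) :
    ∃ L : ℕ, (L : ℤ) ≤ 2 * |b| + 3 ∧ Reach θ η L a b := by
  have hθ : 0 < θ := hη.trans hηθ
  have key : ∀ (b : ℕ) (a : ℤ), |(a : ℝ) * θ + (b : ℝ) * η| ≤ 2 * θ →
      ∃ L : ℕ, L ≤ 2 * b + 3 ∧ Reach θ η L a b := by
    intro b a hab
    obtain ⟨L, a₀, hL, hR, h0, h1⟩ := reach_nat hη hηθ b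
    have hab' := abs_le.mp hab
    have h2 : (a : ℝ) - a₀ < 3 := by
      by_contra hcon
      have := not_lt.mp hcon
      nlinarith
    have h3 : -4 < (a : ℝ) - a₀ := by
      by_contra hcon
      have := not_lt.mp hcon
      nlinarith
    have h2' : a - a₀ < 3 := by exact_mod_cast h2
    have h3' : -4 < a - a₀ := by exact_mod_cast h3
    refine ⟨L + (a - a₀).natAbs, by omega, reach_S hθ hR _ a (by rw [Int.natCast_natAbs]) ?_ hab⟩
    simp only [Int.cast_natCast]
    rw [abs_of_nonneg h0]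
    linarith
  rcases le_total 0 b with hb | hb
  · obtain ⟨n, rfl⟩ := Int.eq_ofNat_of_zero_le hb
    obtain ⟨L, hL, hR⟩ := key n a (by simpa using h)
    refine ⟨L, ?_, hR⟩
    rw [abs_of_nonneg hb]
    push_cast at hL ⊢
    exact_mod_cast hL
  · obtain ⟨n, hn⟩ := Int.eq_ofNat_of_zero_le (neg_nonneg.mpr hb)
    obtain ⟨L, hL, hR⟩ := key n (-a) (by
      have : ((-a : ℤ) : ℝ) * θ + (n : ℝ) * η = -((a : ℝ) * θ + (b : ℝ) * η) := by
        have hn' : (n : ℝ) = -(b : ℝ) := by
          have := congrArg (fun x : ℤ => (x : ℝ)) hn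
          push_cast at this
          linarith
        rw [hn']; push_cast; ring
      rw [this, abs_neg]; exact h)
    refine ⟨L, ?_, ?_⟩
    · rw [abs_of_nonpos hb, hn]
      exact_mod_cast hL
    · have := hR.neg
      rw [neg_neg, ← hn, neg_neg] at this
      exact this

end Pool.Agent.F88.LL
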