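import Pool.Agent.Lib.MP_f88c17.S
import Pool.Agent.Lib.MP_f88c17.D0
import Pool.Agent.Lib.MP_f88c17.AssemblyA
import Pool.Agent.Lib.MP_f88c17.LEV
import Pool.Agent.Lib.MP_f88c17.CaseP
import Pool.Agent.Lib.MP_f88c17.CaseD
import Pool.Agent.Lib.MP_f88c17.LL
import Pool.Agent.Lib.MP_f88c17.BF
import Pool.Agent.Lib.MP_f88c17.BH
import Pool.Agent.Lib.MP_f88c17.BPaux
import Pool.Agent.Lib.MP_f88c17.BA

/-!
# MP_f88c17_an: no faithful action of `ℤ²` on the circle is structurally stable. Assembly
-/

set_option autoImplicit false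

open Set Filter Topology
open scoped ContDiff

namespace Pool.Agent.F88

/-- The irrational case. -/
theorem not_stable_of_free {F G : Dif} {α β : ℝ} (h : Free F G α β) : ¬ Stable F G := by
  obtain ⟨t⟩ := exists_tower h
  exact AA.not_stable_of_free_aux h t
    (fun C₁ hP r ε hε => caseP_of (fun r m B => local_lemma r m B) h t C₁ hP r ε hε)
    (fun r => caseD h t r)

/-- The rational case. -/
theorem not_stable_of_rat {F G : Dif} {nF nG q : ℤ} (h : Rat F G nF nG q) : ¬ Stable F G := by
  by_cases hnf : NonFlat F G nF nG q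
  · refine nonflat_case h hnf (fun r => ?_)
    obtain ⟨z, hz⟩ := exists_fixK h
    by_cases hpar : ∀ f, InL F G nF nG q f → deriv f z = 1
    · exact BP.tinyNear_of_par_aux (fun r m B => local_lemma r m B) h hnf
        (fun γ hγ h1 x hx => nf_fix h hnf hγ h1 hx) hz hpar r
    · push Not at hpar
      obtain ⟨f, hf, hf1⟩ := hpar
      exact tinyNear_of_hyp h hnf hz hf hf1 r
  · unfold NonFlat at hnf
    push Not at hnf
    obtain ⟨z, hz, hz'⟩ := hnf
    exact flat_case h z hz hz'

/-- No faithful action of `ℤ²` is stable. -/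
theorem not_stable {F G : Dif} (h : Act F G) : ¬ Stable F G := by
  rcases dichotomy h with ⟨α, β, hfree⟩ | ⟨nF, nG, q, hrat⟩
  · exact not_stable_of_free hfree
  · exact not_stable_of_rat hrat

end Pool.Agent.F88
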