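import Pool.Agent.Lib.MP_f88c17.Defs2

/-!
# Toolkit: jet bounds, Landau's inequality, iterated Rolle theorem
-/

set_option autoImplicit false

open Set Filter Topology
open scoped ContDiff

namespace Pool.Agent.F88

theorem contDiffAt_deriv {h : ℝ → ℝ} {x : ℝ} (hh : ContDiffAt ℝ ∞ h x) :
    ContDiffAt ℝ ∞ (deriv h) x := by
  have h1 : ContDiffAt ℝ ∞ (fderiv ℝ h) x := hh.fderiv_right (m := ∞) (by simp)
  exact h1.clm_apply contDiffAt_const

theorem contDiffAt_iteratedDeriv {h : ℝ → ℝ} {x : ℝ} (hh : ContDiffAt ℝ ∞ h x) (n : ℕ) :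
    ContDiffAt ℝ ∞ (iteratedDeriv n h) x := by
  induction n with
  | zero => simpa using hh
  | succ n ih =>
    rw [iteratedDeriv_succ]
    exact contDiffAt_deriv ih

theorem contDiffAt_ev {h : ℝ → ℝ} {x : ℝ} (hh : ContDiffAt ℝ ∞ h x) :
    ∀ᶠ y in 𝓝 x, DifferentiableAt ℝ h y := by
  have h1 : ContDiffAt ℝ 1 h x := hh.of_le (by norm_cast)
  filter_upwards [h1.eventually (by simp)] with y hy
  exact hy.differentiableAt (by simp)

theorem JB.mono {n n' : ℕ} {h : ℝ → ℝ} {x U U' κ : ℝ} (hJ : JB n h x U κ) (hn : n' ≤ n)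
    (hU : U ≤ U') (hκ : 0 ≤ κ) : JB n' h x U' κ :=
  ⟨hJ.1, fun l hl => (hJ.2 l (hl.trans hn)).trans
    (mul_le_mul_of_nonneg_right hU (pow_nonneg hκ _))⟩

theorem JB.mono_scale {n : ℕ} {h : ℝ → ℝ} {x U κ κ' : ℝ} (hJ : JB n h x U κ)
    (hU : 0 ≤ U) (hκ : 0 ≤ κ) (hκ' : κ ≤ κ') : JB n h x U κ' :=
  ⟨hJ.1, fun l hl => (hJ.2 l hl).trans
    (mul_le_mul_of_nonneg_left (pow_le_pow_left₀ hκ hκ' _) hU)⟩

theorem JB.congr {n : ℕ} {h h' : ℝ → ℝ} {x U κ : ℝ} (hJ : JB n h x U κ) (he : h =ᶠ[𝓝 x] h') :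
    JB n h' x U κ :=
  ⟨hJ.1.congr_of_eventuallyEq he.symm, fun l hl => by
    rw [← he.iteratedDeriv_eq l]; exact hJ.2 l hl⟩

theorem JB.nonneg {n : ℕ} {h : ℝ → ℝ} {x U κ : ℝ} (hJ : JB n h x U κ) : 0 ≤ U := by
  have := hJ.2 0 (Nat.zero_le _)
  rw [pow_zero, mul_one] at this
  exact (abs_nonneg _).trans this

theorem JB.val {n : ℕ} {h : ℝ → ℝ} {x U κ : ℝ} (hJ : JB n h x U κ) : |h x| ≤ U := by
  have := hJ.2 0 (Nat.zero_le _)
  rwa [pow_zero, mul_one, iteratedDeriv_zero] at this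

theorem JB.succ_iff {n : ℕ} {h : ℝ → ℝ} {x U κ : ℝ} :
    JB (n + 1) h x U κ ↔ ContDiffAt ℝ ∞ h x ∧ |h x| ≤ U ∧ JB n (deriv h) x (U * κ) κ := by
  constructor
  · intro hJ
    refine ⟨hJ.1, hJ.val, contDiffAt_deriv hJ.1, fun l hl => ?_⟩
    have := hJ.2 (l + 1) (by omega)
    rw [iteratedDeriv_succ'] at this
    rw [mul_assoc, ← pow_succ']
    exact this
  · rintro ⟨h1, h2, h3⟩
    refine ⟨h1, fun l hl => ?_⟩
    cases l with
    | zero => simpa using h2
    | succ l =>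
      have := h3.2 l (by omega)
      rw [iteratedDeriv_succ']
      rwa [mul_assoc, ← pow_succ'] at this

theorem JB.zero_iff {h : ℝ → ℝ} {x U κ : ℝ} :
    JB 0 h x U κ ↔ ContDiffAt ℝ ∞ h x ∧ |h x| ≤ U := by
  constructor
  · intro hJ
    exact ⟨hJ.1, hJ.val⟩
  · rintro ⟨h1, h2⟩
    refine ⟨h1, fun l hl => ?_⟩
    obtain rfl : l = 0 := by omega
    simpa using h2

theorem JB.add {n : ℕ} {h g : ℝ → ℝ} {x U V κ : ℝ} (hJ : JB n h x U κ) (gJ : JB n g x V κ) :
    JB n (fun y => h y + g y) x (U + V) κ := by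
  induction n generalizing h g U V with
  | zero =>
    rw [JB.zero_iff] at *
    exact ⟨hJ.1.add gJ.1, (abs_add_le _ _).trans (add_le_add hJ.2 gJ.2)⟩
  | succ n ih =>
    rw [JB.succ_iff] at *
    refine ⟨hJ.1.add gJ.1, (abs_add_le _ _).trans (add_le_add hJ.2.1 gJ.2.1), ?_⟩
    have h1 := ih hJ.2.2 gJ.2.2
    rw [← add_mul] at h1
    refine h1.congr ?_
    filter_upwards [contDiffAt_ev hJ.1, contDiffAt_ev gJ.1] with y hy hy'
    exact (deriv_fun_add hy hy').symm

theorem JB.const_mul {n : ℕ} {h : ℝ → ℝ} {x U κ : ℝ} (c : ℝ) (hJ : JB n h x U κ) :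
    JB n (fun y => c * h y) x (|c| * U) κ := by
  refine ⟨contDiffAt_const.mul hJ.1, fun l hl => ?_⟩
  have h1 : iteratedDeriv l (fun y => c * h y) x = c * iteratedDeriv l h x :=
    iteratedDeriv_const_mul_field c h
  rw [h1, abs_mul, mul_assoc]
  exact mul_le_mul_of_nonneg_left (hJ.2 l hl) (abs_nonneg _)

theorem JB.neg {n : ℕ} {h : ℝ → ℝ} {x U κ : ℝ} (hJ : JB n h x U κ) :
    JB n (fun y => - h y) x U κ := by
  have h1 := hJ.const_mul (-1)
  simpa using h1

theorem JB.sub {n : ℕ} {h g : ℝ → ℝ} {x U V κ : ℝ} (hJ : JB n h x U κ) (gJ : JB n g x V κ) :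
    JB n (fun y => h y - g y) x (U + V) κ := by
  have := hJ.add gJ.neg
  simpa [sub_eq_add_neg] using this

theorem JB.const {n : ℕ} {x κ : ℝ} (c : ℝ) (hκ : 0 ≤ κ) : JB n (fun _ => c) x |c| κ := by
  refine ⟨contDiffAt_const, fun l _ => ?_⟩
  cases l with
  | zero => simp
  | succ l =>
    rw [iteratedDeriv_const]
    simp
    positivity

theorem JB.sum {ι : Type*} (s : Finset ι) {n : ℕ} {h : ι → ℝ → ℝ} {U : ι → ℝ} {x κ : ℝ}
    (hκ : 0 ≤ κ) (hJ : ∀ i ∈ s, JB n (h i) x (U i) κ) :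
    JB n (fun y => ∑ i ∈ s, h i y) x (∑ i ∈ s, U i) κ := by
  classical
  induction s using Finset.induction_on with
  | empty =>
    simpa using JB.const (n := n) (x := x) (κ := κ) 0 hκ
  | insert a s ha ih =>
    have h1 := (hJ a (Finset.mem_insert_self a s)).add
      (ih (fun i hi => hJ i (Finset.mem_insert_of_mem hi)))
    simpa [Finset.sum_insert ha] using h1

theorem JB.mul {n : ℕ} {h g : ℝ → ℝ} {x U V κ : ℝ} (hκ : 0 ≤ κ) (hJ : JB n h x U κ)
    (gJ : JB n g x V κ) : JB n (fun y => h y * g y) x (2 ^ n * U * V) κ := by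
  have hU := hJ.nonneg
  have hV := gJ.nonneg
  induction n generalizing h g U V with
  | zero =>
    rw [JB.zero_iff] at *
    refine ⟨hJ.1.mul gJ.1, ?_⟩
    rw [abs_mul, pow_zero, one_mul]
    exact mul_le_mul hJ.2 gJ.2 (abs_nonneg _) hU
  | succ n ih =>
    have hJ' := hJ.mono (Nat.le_succ n) le_rfl hκ
    have gJ' := gJ.mono (Nat.le_succ n) le_rfl hκ
    rw [JB.succ_iff] at hJ gJ ⊢
    refine ⟨hJ.1.mul gJ.1, ?_, ?_⟩
    · rw [abs_mul]
      have h1 : |h x| * |g x| ≤ U * V := mul_le_mul hJ.2.1 gJ.2.1 (abs_nonneg _) hU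
      have h2 : (1 : ℝ) ≤ 2 ^ (n + 1) := one_le_pow₀ (by norm_num)
      have h3 : 0 ≤ U * V := mul_nonneg hU hV
      nlinarith
    · have h1 := ih hJ.2.2 gJ' (mul_nonneg hU hκ) hV
      have h2 := ih hJ' gJ.2.2 hU (mul_nonneg hV hκ)
      have h3 := h1.add h2
      have h4 : 2 ^ n * (U * κ) * V + 2 ^ n * U * (V * κ) = 2 ^ (n + 1) * U * V * κ := by ring
      rw [h4] at h3
      refine h3.congr ?_
      filter_upwards [contDiffAt_ev hJ.1, contDiffAt_ev gJ.1] with y hy hy'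
      exact (deriv_fun_mul hy hy').symm

/-- composition: `h` has scale `κ₂` at `f x`, and `κ₂ |D^l f| ≤ A κ^l`. -/
theorem JB.comp (n : ℕ) (A : ℝ) : ∃ C, 0 < C ∧ ∀ (h f : ℝ → ℝ) (x U κ₂ κ : ℝ), 0 ≤ κ₂ → 0 ≤ κ →
    JB n h (f x) U κ₂ → ContDiffAt ℝ ∞ f x →
    (∀ l, 1 ≤ l → l ≤ n → κ₂ * |iteratedDeriv l f x| ≤ A * κ ^ l) →
    JB n (fun y => h (f y)) x (C * U) κ := by
  induction n with
  | zero =>
    refine ⟨1, one_pos, fun h f x U κ₂ κ _ _ hJ hf _ => ?_⟩
    rw [one_mul]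
    rw [JB.zero_iff] at *
    exact ⟨hJ.1.comp x hf, hJ.2⟩
  | succ n ih =>
    obtain ⟨C, hC, ih⟩ := ih
    refine ⟨1 + 2 ^ n * C * |A|, by positivity, fun h f x U κ₂ κ hκ₂ hκ hJ hf hl => ?_⟩
    have hU := hJ.nonneg
    rw [JB.succ_iff] at hJ ⊢
    refine ⟨hJ.1.comp x hf, ?_, ?_⟩
    · have : 0 ≤ 2 ^ n * C * |A| * U := by positivity
      have := hJ.2.1
      nlinarith
    · have h1 := ih (deriv h) f x (U * κ₂) κ₂ κ hκ₂ hκ hJ.2.2 hf
        (fun l hl1 hl2 => hl l hl1 (by omega))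
      rcases hκ₂.lt_or_eq with hpos | hzero
      · have h2 : JB n (deriv f) x (|A| * κ / κ₂) κ := by
          refine ⟨contDiffAt_deriv hf, fun l hl2 => ?_⟩
          have h3 := hl (l + 1) (by omega) (by omega)
          rw [iteratedDeriv_succ'] at h3
          rw [div_mul_eq_mul_div, le_div_iff₀ hpos]
          calc |iteratedDeriv l (deriv f) x| * κ₂ = κ₂ * |iteratedDeriv l (deriv f) x| := by ring
            _ ≤ A * κ ^ (l + 1) := h3
            _ ≤ |A| * κ ^ (l + 1) :=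
              mul_le_mul_of_nonneg_right (le_abs_self A) (pow_nonneg hκ _)
            _ = |A| * κ * κ ^ l := by rw [pow_succ']; ring
        have h3 := h1.mul hκ h2
        have h4 : 2 ^ n * (C * (U * κ₂)) * (|A| * κ / κ₂) = (2 ^ n * C * |A|) * U * κ := by
          field_simp
        rw [h4] at h3
        refine (h3.mono le_rfl ?_ hκ).congr ?_
        · have : 0 ≤ U * κ := mul_nonneg hU hκ
          nlinarith
        · have he : ∀ᶠ y in 𝓝 x, DifferentiableAt ℝ h (f y) :=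
            hf.continuousAt.eventually (contDiffAt_ev hJ.1)
          filter_upwards [contDiffAt_ev hf, he] with y hy hy'
          have := (hy'.hasDerivAt.comp y hy.hasDerivAt).deriv
          exact this.symm
      · -- `κ₂ = 0`
        rw [← hzero] at hJ h1
        have h0 : JB n (deriv f) x (∑ l ∈ Finset.range (n + 1), |iteratedDeriv l (deriv f) x|) 1 :=
          ⟨contDiffAt_deriv hf, fun l hl => by
            rw [one_pow, mul_one]
            exact Finset.single_le_sum (f := fun l => |iteratedDeriv l (deriv f) x|)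
              (fun i _ => abs_nonneg _) (Finset.mem_range.mpr (by omega))⟩
        have h1' : JB n (fun y => deriv h (f y)) x 0 1 := by
          refine ⟨h1.1, fun l hl => ?_⟩
          have := h1.2 l hl
          simpa using this
        have h3 := h1'.mul zero_le_one h0
        have h4 : JB n (deriv fun y => h (f y)) x 0 1 := by
          refine (h3.mono le_rfl (by simp) zero_le_one).congr ?_
          have he : ∀ᶠ y in 𝓝 x, DifferentiableAt ℝ h (f y) :=
            hf.continuousAt.eventually (contDiffAt_ev hJ.1)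
          filter_upwards [contDiffAt_ev hf, he] with y hy hy'
          have := (hy'.hasDerivAt.comp y hy.hasDerivAt).deriv
          exact this.symm
        refine ⟨h4.1, fun l hl => ?_⟩
        have h5 := h4.2 l hl
        rw [zero_mul] at h5
        refine h5.trans ?_
        positivity

/-- inverse of a function comparable to the bound -/
theorem JB.inv (n : ℕ) (A : ℝ) : ∃ C, 0 < C ∧ ∀ (h : ℝ → ℝ) (x U κ : ℝ), 0 ≤ κ → 0 < U →
    JB n h x U κ → U ≤ A * |h x| → JB n (fun y => (h y)⁻¹) x (C / U) κ := by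
  induction n with
  | zero =>
    refine ⟨1 + |A|, by positivity, fun h x U κ _ hU hJ hA => ?_⟩
    have h0 : 0 < |h x| := by
      rcases (abs_nonneg (h x)).lt_or_eq with h1 | h1
      · exact h1
      · rw [← h1, mul_zero] at hA; linarith
    rw [JB.zero_iff] at *
    refine ⟨hJ.1.inv (abs_pos.mp h0), ?_⟩
    rw [abs_inv, le_div_iff₀ hU, inv_mul_le_iff₀ h0]
    have : A * |h x| ≤ |A| * |h x| := mul_le_mul_of_nonneg_right (le_abs_self A) h0.le
    nlinarith
  | succ n ih =>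
    obtain ⟨C, hC, ih⟩ := ih
    refine ⟨1 + |A| + 4 ^ n * C ^ 2, by positivity, fun h x U κ hκ hU hJ hA => ?_⟩
    have h0 : 0 < |h x| := by
      rcases (abs_nonneg (h x)).lt_or_eq with h1 | h1
      · exact h1
      · rw [← h1, mul_zero] at hA; linarith
    have h1 := ih h x U κ hκ hU (hJ.mono (Nat.le_succ n) le_rfl hκ) hA
    rw [JB.succ_iff] at hJ ⊢
    refine ⟨hJ.1.inv (abs_pos.mp h0), ?_, ?_⟩
    · rw [abs_inv, le_div_iff₀ hU, inv_mul_le_iff₀ h0]
      have h2 : A * |h x| ≤ |A| * |h x| := mul_le_mul_of_nonneg_right (le_abs_self A) h0.le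
      have h3 : 0 ≤ 4 ^ n * C ^ 2 := by positivity
      nlinarith
    · have h2 := (hJ.2.2.mul hκ h1).mul hκ h1
      have h3 : 2 ^ n * (2 ^ n * (U * κ) * (C / U)) * (C / U) = 4 ^ n * C ^ 2 / U * κ := by
        have : (4 : ℝ) ^ n = 2 ^ n * 2 ^ n := by rw [← mul_pow]; norm_num
        rw [this]
        field_simp
      rw [h3] at h2
      refine (h2.neg.mono le_rfl ?_ hκ).congr ?_
      · refine mul_le_mul_of_nonneg_right ?_ hκ
        rw [div_le_div_iff_of_pos_right hU]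
        have : 0 ≤ |A| := abs_nonneg _
        linarith
      · have hne : ∀ᶠ y in 𝓝 x, h y ≠ 0 :=
          hJ.1.continuousAt.eventually_ne (abs_pos.mp h0)
        filter_upwards [contDiffAt_ev hJ.1, hne] with y hy hy'
        have := (hy.hasDerivAt.fun_inv hy').deriv
        rw [this]
        field_simp

/-- logarithm: only derivatives of order at least one are bounded -/
theorem JB.log (n : ℕ) (A : ℝ) : ∃ C, 0 < C ∧ ∀ (h : ℝ → ℝ) (x U κ : ℝ), 0 ≤ κ → 0 < U →
    JB n h x U κ → 0 < h x → U ≤ A * h x →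
    ContDiffAt ℝ ∞ (fun y => Real.log (h y)) x ∧
      ∀ l, 1 ≤ l → l ≤ n → |iteratedDeriv l (fun y => Real.log (h y)) x| ≤ C * κ ^ l := by
  obtain ⟨C, hC, hinv⟩ := JB.inv n A
  refine ⟨2 ^ n * C, by positivity, fun h x U κ hκ hU hJ hpos hA => ?_⟩
  have hJ1 := hJ.1
  refine ⟨hJ1.log hpos.ne', fun l hl1 hl2 => ?_⟩
  obtain ⟨m, rfl⟩ : ∃ m, l = m + 1 := ⟨l - 1, by omega⟩
  obtain ⟨n', rfl⟩ : ∃ n', n = n' + 1 := ⟨n - 1, by omega⟩
  have h1 := hinv h x U κ hκ hU hJ (by rwa [abs_of_pos hpos])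
  have h2 := (JB.succ_iff.mp hJ).2.2
  have h3 := h2.mul hκ (h1.mono (Nat.le_succ n') le_rfl hκ)
  have he : (fun y => deriv h y * (h y)⁻¹) =ᶠ[𝓝 x] deriv (fun y => Real.log (h y)) := by
    have hne : ∀ᶠ y in 𝓝 x, h y ≠ 0 := hJ1.continuousAt.eventually_ne hpos.ne'
    filter_upwards [contDiffAt_ev hJ1, hne] with y hy hy'
    rw [(hy.hasDerivAt.log hy').deriv, div_eq_mul_inv]
  have h4 := (h3.congr he).2 m (by omega)
  rw [iteratedDeriv_succ']
  refine h4.trans (le_of_eq_of_le ?_ (mul_le_mul_of_nonneg_right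
    (?_ : 2 ^ n' * C ≤ 2 ^ (n' + 1) * C) (pow_nonneg hκ (m + 1))))
  · rw [pow_succ']
    field_simp
  · refine mul_le_mul_of_nonneg_right ?_ hC.le
    exact pow_le_pow_right₀ (by norm_num) (Nat.le_succ _)

/-- exponential -/
theorem JB.exp (n : ℕ) (A : ℝ) : ∃ C, 0 < C ∧ ∀ (h : ℝ → ℝ) (x κ : ℝ), 0 ≤ κ →
    ContDiffAt ℝ ∞ h x → (∀ l, 1 ≤ l → l ≤ n → |iteratedDeriv l h x| ≤ A * κ ^ l) →
    JB n (fun y => Real.exp (h y)) x (C * Real.exp (h x)) κ := by
  induction n with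
  | zero =>
    refine ⟨1, one_pos, fun h x κ _ hh _ => ?_⟩
    rw [JB.zero_iff]
    refine ⟨hh.exp, ?_⟩
    rw [abs_of_pos (Real.exp_pos _), one_mul]
  | succ n ih =>
    obtain ⟨C, hC, ih⟩ := ih
    refine ⟨1 + 2 ^ n * |A| * C, by positivity, fun h x κ hκ hh hl => ?_⟩
    have h1 := ih h x κ hκ hh (fun l h1 h2 => hl l h1 (by omega))
    have h2 : JB n (deriv h) x (|A| * κ) κ := by
      refine ⟨contDiffAt_deriv hh, fun l hl2 => ?_⟩
      have h3 := hl (l + 1) (by omega) (by omega)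
      rw [iteratedDeriv_succ'] at h3
      refine h3.trans ?_
      rw [mul_assoc, ← pow_succ']
      exact mul_le_mul_of_nonneg_right (le_abs_self A) (pow_nonneg hκ _)
    rw [JB.succ_iff]
    refine ⟨hh.exp, ?_, ?_⟩
    · rw [abs_of_pos (Real.exp_pos _)]
      have : 0 ≤ 2 ^ n * |A| * C * Real.exp (h x) := by positivity
      nlinarith [Real.exp_pos (h x)]
    · have h3 := h1.mul hκ h2
      refine (h3.mono le_rfl ?_ hκ).congr ?_
      · have : 2 ^ n * (C * Real.exp (h x)) * (|A| * κ) =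
            (2 ^ n * |A| * C) * Real.exp (h x) * κ := by ring
        rw [this]
        refine mul_le_mul_of_nonneg_right ?_ hκ
        refine mul_le_mul_of_nonneg_right ?_ (Real.exp_pos _).le
        linarith
      · filter_upwards [contDiffAt_ev hh] with y hy
        rw [hy.hasDerivAt.exp.deriv]

/-- Landau's inequality, one step. -/
theorem landau_one {f : ℝ → ℝ} {p q a b s : ℝ} (hs : 0 < s) (hsq : 2 * s ≤ q - p) (hb : 0 ≤ b)
    (hf : ∀ x ∈ Icc p q, ContDiffAt ℝ ∞ f x) (ha : ∀ x ∈ Icc p q, |f x| ≤ a)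
    (hbb : ∀ x ∈ Icc p q, |deriv (deriv f) x| ≤ b) {x : ℝ} (hx : x ∈ Icc p q) :
    |deriv f x| ≤ 2 * a / s + b * s := by
  have key : ∀ u v : ℝ, u ∈ Icc p q → v ∈ Icc p q → u < v → v - u = s → ∀ y ∈ Icc u v,
      |deriv f y| ≤ 2 * a / s + b * s := by
    intro u v hu hv huv hvs y hy
    have hsub : Icc u v ⊆ Icc p q := Icc_subset_Icc hu.1 hv.2
    obtain ⟨ξ, hξ, hξ'⟩ := exists_deriv_eq_slope f huv
      (fun z hz => (hf z (hsub hz)).continuousAt.continuousWithinAt)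
      (fun z hz => ((hf z (hsub (Ioo_subset_Icc_self hz))).differentiableAt
        (by simp)).differentiableWithinAt)
    have h1 : |deriv f ξ| ≤ 2 * a / s := by
      rw [hξ', hvs, abs_div, abs_of_pos hs]
      refine div_le_div_of_nonneg_right ?_ hs.le
      calc |f v - f u| ≤ |f v| + |f u| := abs_sub _ _
        _ ≤ a + a := add_le_add (ha v hv) (ha u hu)
        _ = 2 * a := by ring
    have h2 : |deriv f y - deriv f ξ| ≤ b * |y - ξ| := by
      have := Convex.norm_image_sub_le_of_norm_deriv_le (f := deriv f) (C := b) (s := Icc u v)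
        (x := ξ) (y := y)
        (fun z hz => (contDiffAt_deriv (hf z (hsub hz))).differentiableAt (by simp))
        (fun z hz => by rw [Real.norm_eq_abs]; exact hbb z (hsub hz)) (convex_Icc u v)
        (Ioo_subset_Icc_self hξ) hy
      simpa [Real.norm_eq_abs] using this
    have h3 : |y - ξ| ≤ s := by
      rw [abs_le]
      have := hξ.1; have := hξ.2; have := hy.1; have := hy.2
      constructor <;> linarith
    calc |deriv f y| = |deriv f ξ + (deriv f y - deriv f ξ)| := by ring_nf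
      _ ≤ |deriv f ξ| + |deriv f y - deriv f ξ| := abs_add_le _ _
      _ ≤ 2 * a / s + b * s := add_le_add h1 (h2.trans (mul_le_mul_of_nonneg_left h3 hb))
  rcases le_total (x + s) q with h | h
  · exact key x (x + s) hx ⟨by linarith [hx.1], h⟩ (by linarith) (by ring) x
      ⟨le_rfl, by linarith⟩
  · exact key (x - s) x ⟨by linarith, by linarith [hx.2]⟩ hx (by linarith) (by ring) x
      ⟨by linarith, le_rfl⟩

/-- Landau's inequality, iterated: a small function with bounded derivatives has small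
derivatives. `I = [p, q]`, unit of length `1/ρ`, `ρ (q - p) ≥ lam`. -/
theorem landau_iter (n : ℕ) (C : ℝ) : ∃ C', 0 < C' ∧ ∀ (h : ℝ → ℝ) (p q ρ lam η : ℝ),
    0 < ρ → 0 < lam → lam ≤ ρ * (q - p) → 0 < η → η ≤ (lam / C') ^ (2 ^ (n + 1)) → η ≤ 1 →
    (∀ x ∈ Icc p q, ContDiffAt ℝ ∞ h x) →
    (∀ x ∈ Icc p q, |h x| ≤ η) →
    (∀ x ∈ Icc p q, ∀ l, 1 ≤ l → l ≤ n + 1 → |iteratedDeriv l h x| ≤ C * ρ ^ l) →
    ∀ x ∈ Icc p q, ∀ l ≤ n, |iteratedDeriv l h x| ≤ C' * η ^ ((1 : ℝ) / 2 ^ l) * ρ ^ l := by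
  set C₀ : ℝ := |C| with hC₀
  have hC₀' : 0 ≤ C₀ := abs_nonneg _
  refine ⟨(2 + C₀) ^ n + 2, by positivity, ?_⟩
  intro h p q ρ lam η hρ hlam hlq hη hη1 hη2 hh hval hder
  set C' : ℝ := (2 + C₀) ^ n + 2 with hC'
  have hC'2 : 2 ≤ C' := by
    have : 0 ≤ (2 + C₀) ^ n := by positivity
    linarith
  -- smallness of the steps
  have hstep : ∀ l, l + 1 ≤ n → η ^ ((1 : ℝ) / 2 ^ (l + 1)) ≤ lam / 2 := by
    intro l hl
    have h2 : lam / C' ≤ lam / 2 := div_le_div_of_nonneg_left hlam.le (by norm_num) hC'2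
    rcases le_total 1 (lam / C') with h1 | h1
    · have h3 : η ^ ((1 : ℝ) / 2 ^ (l + 1)) ≤ 1 := Real.rpow_le_one hη.le hη2 (by positivity)
      linarith
    · have hpos : 0 < lam / C' := by positivity
      have h3 : η ^ ((1 : ℝ) / 2 ^ (l + 1)) ≤
          ((lam / C') ^ (2 ^ (n + 1))) ^ ((1 : ℝ) / 2 ^ (l + 1)) :=
        Real.rpow_le_rpow hη.le hη1 (by positivity)
      have h4 : ((lam / C') ^ (2 ^ (n + 1)) : ℝ) ^ ((1 : ℝ) / 2 ^ (l + 1)) =
          (lam / C') ^ (((2 : ℝ) ^ (n + 1)) * (1 / 2 ^ (l + 1))) := by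
        rw [← Real.rpow_natCast, ← Real.rpow_mul hpos.le]
        push_cast
        rfl
      have h5 : (1 : ℝ) ≤ (2 : ℝ) ^ (n + 1) * (1 / 2 ^ (l + 1)) := by
        rw [mul_one_div, le_div_iff₀ (by positivity), one_mul]
        exact pow_le_pow_right₀ (by norm_num) (by omega)
      have h6 : (lam / C') ^ (((2 : ℝ) ^ (n + 1)) * (1 / 2 ^ (l + 1))) ≤ lam / C' := by
        calc (lam / C') ^ (((2 : ℝ) ^ (n + 1)) * (1 / 2 ^ (l + 1)))
            ≤ (lam / C') ^ (1 : ℝ) := Real.rpow_le_rpow_of_exponent_ge hpos h1 h5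
          _ = lam / C' := Real.rpow_one _
      rw [h4] at h3
      linarith
  have main : ∀ l, l ≤ n → ∀ x ∈ Icc p q,
      |iteratedDeriv l h x| ≤ (2 + C₀) ^ l * η ^ ((1 : ℝ) / 2 ^ l) * ρ ^ l := by
    intro l
    induction l with
    | zero =>
      intro _ x hx
      simpa using hval x hx
    | succ l ih =>
      intro hl x hx
      have ih' := ih (by omega)
      set e : ℝ := η ^ ((1 : ℝ) / 2 ^ (l + 1)) with he
      have hepos : 0 < e := Real.rpow_pos_of_pos hη _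
      have hee : η ^ ((1 : ℝ) / 2 ^ l) = e * e := by
        rw [he, ← Real.rpow_add hη]
        congr 1
        rw [pow_succ]
        field_simp
        norm_num
      have hs : 0 < e / ρ := by positivity
      have h2s : 2 * (e / ρ) ≤ q - p := by
        have h1 := hstep l hl
        rw [← he] at h1
        have h2 : 2 * e ≤ ρ * (q - p) := by linarith
        rw [← mul_div_assoc, div_le_iff₀ hρ]
        linarith
      have hland := landau_one (f := iteratedDeriv l h) (p := p) (q := q)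
        (a := (2 + C₀) ^ l * (e * e) * ρ ^ l) (b := C₀ * ρ ^ (l + 2)) (s := e / ρ) hs h2s
        (by positivity) (fun y hy => contDiffAt_iteratedDeriv (hh y hy) l)
        (fun y hy => by rw [← hee]; exact ih' y hy)
        (fun y hy => by
          have h1 := hder y hy (l + 2) (by omega) (by omega)
          have h2 : deriv (deriv (iteratedDeriv l h)) = iteratedDeriv (l + 2) h := by
            rw [iteratedDeriv_succ, iteratedDeriv_succ]
          rw [h2]
          refine h1.trans (mul_le_mul_of_nonneg_right (le_abs_self C) (by positivity))) hx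
      rw [iteratedDeriv_succ]
      refine hland.trans ?_
      have h3 : 2 * ((2 + C₀) ^ l * (e * e) * ρ ^ l) / (e / ρ) =
          2 * (2 + C₀) ^ l * e * ρ ^ (l + 1) := by
        rw [pow_succ]; field_simp
      have h4 : C₀ * ρ ^ (l + 2) * (e / ρ) = C₀ * e * ρ ^ (l + 1) := by
        rw [pow_succ ρ (l + 1)]; field_simp
      rw [h3, h4]
      have h5 : (1 : ℝ) ≤ (2 + C₀) ^ l := one_le_pow₀ (by linarith)
      have h6 : 0 ≤ e * ρ ^ (l + 1) := by positivity
      have h7 : C₀ ≤ C₀ * (2 + C₀) ^ l := le_mul_of_one_le_right hC₀' h5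
      calc 2 * (2 + C₀) ^ l * e * ρ ^ (l + 1) + C₀ * e * ρ ^ (l + 1)
          = (2 * (2 + C₀) ^ l + C₀) * (e * ρ ^ (l + 1)) := by ring
        _ ≤ (2 * (2 + C₀) ^ l + C₀ * (2 + C₀) ^ l) * (e * ρ ^ (l + 1)) :=
            mul_le_mul_of_nonneg_right (by linarith) h6
        _ = (2 + C₀) ^ (l + 1) * e * ρ ^ (l + 1) := by ring
  intro x hx l hl
  refine (main l hl x hx).trans ?_
  have h1 : (2 + C₀) ^ l ≤ C' := by
    have : (2 + C₀) ^ l ≤ (2 + C₀) ^ n := pow_le_pow_right₀ (by linarith) hl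
    linarith
  have h2 : 0 ≤ η ^ ((1 : ℝ) / 2 ^ l) := Real.rpow_nonneg hη.le _
  exact mul_le_mul_of_nonneg_right (mul_le_mul_of_nonneg_right h1 h2) (by positivity)

/-- Rolle, iterated: if `h` vanishes at `0, 1, …, k`, then `h'` is controlled by `h^(k+1)`. -/
theorem rolle_iter (k : ℕ) : ∃ C, 0 < C ∧ ∀ (h : ℝ → ℝ) (B : ℝ),
    (∀ x ∈ Icc (0 : ℝ) k, ContDiffAt ℝ ∞ h x) → (∀ i : ℕ, i ≤ k → h i = 0) →
    (∀ x ∈ Icc (0 : ℝ) k, |iteratedDeriv (k + 1) h x| ≤ B) →
    ∀ x ∈ Icc (0 : ℝ) k, ∀ l ≤ k, |iteratedDeriv l h x| ≤ C * B := by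
  refine ⟨((k : ℝ) + 1) ^ (k + 1), by positivity, ?_⟩
  intro h B hh hz hB
  have hB0 : 0 ≤ B := (abs_nonneg _).trans (hB 0 ⟨le_rfl, by positivity⟩)
  -- zeros
  have zeros : ∀ m, m ≤ k → ∃ t : ℕ → ℝ, (∀ i, i < k - m → t i < t (i + 1)) ∧
      ∀ i, i ≤ k - m → t i ∈ Icc (0 : ℝ) k ∧ iteratedDeriv m h (t i) = 0 := by
    intro m
    induction m with
    | zero =>
      intro _
      refine ⟨fun i => i, fun i _ => by push_cast; linarith, fun i hi => ⟨⟨by positivity, ?_⟩, ?_⟩⟩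
      · show (i : ℝ) ≤ (k : ℝ)
        exact_mod_cast (by omega : i ≤ k)
      · simpa using hz i (by omega)
    | succ m ih =>
      intro hm
      obtain ⟨t, ht1, ht2⟩ := ih (by omega)
      have hex : ∀ i, i < k - m → ∃ s ∈ Ioo (t i) (t (i + 1)),
          deriv (iteratedDeriv m h) s = 0 := by
        intro i hi
        have hsub : Icc (t i) (t (i + 1)) ⊆ Icc (0 : ℝ) k :=
          Icc_subset_Icc (ht2 i (by omega)).1.1 (ht2 (i + 1) (by omega)).1.2
        refine exists_deriv_eq_zero (ht1 i hi) (fun z hz' => ?_) ?_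
        · exact (contDiffAt_iteratedDeriv (hh z (hsub hz')) m).continuousAt.continuousWithinAt
        · rw [(ht2 i (by omega)).2, (ht2 (i + 1) (by omega)).2]
      choose! s hs1 hs2 using hex
      refine ⟨s, fun i hi => ?_, fun i hi => ⟨?_, ?_⟩⟩
      · exact (hs1 i (by omega)).2.trans (hs1 (i + 1) (by omega)).1
      · have h1 := hs1 i (by omega)
        exact ⟨(ht2 i (by omega)).1.1.trans h1.1.le, h1.2.le.trans (ht2 (i + 1) (by omega)).1.2⟩
      · rw [iteratedDeriv_succ]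
        exact hs2 i (by omega)
  have main : ∀ j, j ≤ k + 1 → ∀ x ∈ Icc (0 : ℝ) k,
      |iteratedDeriv (k + 1 - j) h x| ≤ ((k : ℝ) + 1) ^ j * B := by
    intro j
    induction j with
    | zero =>
      intro _ x hx
      simpa using hB x hx
    | succ j ih =>
      intro hj x hx
      obtain ⟨t, -, ht⟩ := zeros (k + 1 - (j + 1)) (by omega)
      obtain ⟨ht1, ht2⟩ := ht 0 (by omega)
      have ih' := ih (by omega)
      have hk : k + 1 - j = (k + 1 - (j + 1)) + 1 := by omega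
      have h1 : |iteratedDeriv (k + 1 - (j + 1)) h x -
          iteratedDeriv (k + 1 - (j + 1)) h (t 0)| ≤ ((k : ℝ) + 1) ^ j * B * |x - t 0| := by
        have := Convex.norm_image_sub_le_of_norm_deriv_le
          (f := iteratedDeriv (k + 1 - (j + 1)) h) (C := ((k : ℝ) + 1) ^ j * B)
          (s := Icc (0 : ℝ) k) (x := t 0) (y := x)
          (fun z hz' => (contDiffAt_iteratedDeriv (hh z hz') _).differentiableAt (by simp))
          (fun z hz' => by
            rw [Real.norm_eq_abs, ← iteratedDeriv_succ, ← hk]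
            exact ih' z hz') (convex_Icc _ _) ht1 hx
        simpa [Real.norm_eq_abs] using this
      rw [ht2, sub_zero] at h1
      have h2 : |x - t 0| ≤ (k : ℝ) + 1 := by
        rw [abs_le]
        have := hx.1; have := hx.2; have := ht1.1; have := ht1.2
        constructor <;> linarith
      calc _ ≤ ((k : ℝ) + 1) ^ j * B * |x - t 0| := h1
        _ ≤ ((k : ℝ) + 1) ^ j * B * ((k : ℝ) + 1) := mul_le_mul_of_nonneg_left h2 (by positivity)
        _ = ((k : ℝ) + 1) ^ (j + 1) * B := by ring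
  intro x hx l hl
  have h1 := main (k + 1 - l) (by omega) x hx
  rw [show k + 1 - (k + 1 - l) = l by omega] at h1
  refine h1.trans (mul_le_mul_of_nonneg_right ?_ hB0)
  exact pow_le_pow_right₀ (by linarith [(Nat.cast_nonneg k : (0:ℝ) ≤ k)]) (by omega)

end Pool.Agent.F88
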