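import Pool.Agent.Lib.MP_f88c17.NC
import Pool.Agent.Lib.MP_f88c17.Toolkit

/-!
# Task BA, first part: algebra, orbits, conjugation estimate, counting
-/

set_option autoImplicit false

open Set Filter Topology
open scoped ContDiff

namespace Pool.Agent.F88

namespace BA

/-! ### The abelian group generated by `F, G, T` -/

/-- `γ` is an element `F^a G^b T^c` with value `v = a nF + b nG + c q`. -/
def InV (F G : Dif) (nF nG q v : ℤ) (γ : Dif) : Prop :=
  ∃ a b c : ℤ, γ = F ^ a * G ^ b * T ^ c ∧ a * nF + b * nG + c * q = v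

section alg

variable {F G : Dif} {nF nG q : ℤ}

theorem el_zpow (h : Act F G) (a b c n : ℤ) :
    (F ^ a * G ^ b * T ^ c) ^ n = F ^ (a * n) * G ^ (b * n) * T ^ (c * n) := by
  have h1 : Commute (F ^ a) (T ^ c) := h.FT.zpow_zpow a c
  have h2 : Commute (G ^ b) (T ^ c) := h.GT.zpow_zpow b c
  have h3 : Commute (F ^ a) (G ^ b) := h.FG.zpow_zpow a b
  rw [(h1.mul_left h2).mul_zpow, h3.mul_zpow, zpow_mul, zpow_mul, zpow_mul]

theorem InV.mul (h : Act F G) {v w : ℤ} {γ δ : Dif} (hγ : InV F G nF nG q v γ)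
    (hδ : InV F G nF nG q w δ) : InV F G nF nG q (v + w) (γ * δ) := by
  obtain ⟨a, b, c, rfl, rfl⟩ := hγ
  obtain ⟨a', b', c', rfl, rfl⟩ := hδ
  exact ⟨a + a', b + b', c + c', NC.el_mul h a b c a' b' c', by ring⟩

theorem InV.zpow (h : Act F G) {v : ℤ} {γ : Dif} (hγ : InV F G nF nG q v γ) (n : ℤ) :
    InV F G nF nG q (v * n) (γ ^ n) := by
  obtain ⟨a, b, c, rfl, rfl⟩ := hγ
  exact ⟨a * n, b * n, c * n, el_zpow h a b c n, by ring⟩

theorem InV.inv (h : Act F G) {v : ℤ} {γ : Dif} (hγ : InV F G nF nG q v γ) :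
    InV F G nF nG q (-v) γ⁻¹ := by
  have := hγ.zpow h (-1)
  simpa using this

theorem inV_F : InV F G nF nG q nF F := ⟨1, 0, 0, by simp, by simp⟩

theorem inV_G : InV F G nF nG q nG G := ⟨0, 1, 0, by simp, by simp⟩

theorem inV_T : InV F G nF nG q q T := ⟨0, 0, 1, by simp, by simp⟩

theorem inL_iff {γ : Dif} : InL F G nF nG q γ ↔ InV F G nF nG q 0 γ := Iff.rfl

theorem InV.comm (h : Act F G) {v w : ℤ} {γ δ : Dif} (hγ : InV F G nF nG q v γ)
    (hδ : InV F G nF nG q w δ) : Commute γ δ := by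
  obtain ⟨a, b, c, rfl, -⟩ := hγ
  obtain ⟨a', b', c', rfl, -⟩ := hδ
  show _ = _
  rw [NC.el_mul h, NC.el_mul h, add_comm a, add_comm b, add_comm c]

theorem InV.pos (h : Rat F G nF nG q) {v : ℤ} (hv : 0 < v) {γ : Dif}
    (hγ : InV F G nF nG q v γ) (x : ℝ) : x < γ x := by
  obtain ⟨a, b, c, rfl, rfl⟩ := hγ
  exact h.pos a b c hv x

theorem InV.neg (h : Rat F G nF nG q) {v : ℤ} (hv : v < 0) {γ : Dif}
    (hγ : InV F G nF nG q v γ) (x : ℝ) : γ x < x := by
  have h1 := (hγ.inv h.toAct).pos h (by linarith) x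
  exact γ.lt_inv_iff.mp h1

theorem InV.fix (h : Rat F G nF nG q) {γ : Dif} (hγ : InV F G nF nG q 0 γ) : ∃ x, γ x = x := by
  obtain ⟨a, b, c, rfl, h0⟩ := hγ
  exact h.fix a b c h0

theorem InV.zero_of_fix (h : Rat F G nF nG q) {v : ℤ} {γ : Dif} (hγ : InV F G nF nG q v γ)
    {x : ℝ} (hx : γ x = x) : v = 0 := by
  rcases lt_trichotomy v 0 with h1 | h1 | h1
  · exact absurd (hγ.neg h h1 x) (by rw [hx]; exact lt_irrefl _)
  · exact h1
  · exact absurd (hγ.pos h h1 x) (by rw [hx]; exact lt_irrefl _)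

/-- a power is trivial only if the element is -/
theorem InV.torsion (h : Act F G) {v : ℤ} {γ : Dif} (hγ : InV F G nF nG q v γ) {n : ℤ}
    (hn : n ≠ 0) (h1 : γ ^ n = 1) : γ = 1 := by
  obtain ⟨a, b, c, rfl, -⟩ := hγ
  rw [el_zpow h] at h1
  obtain ⟨ha, hb, hc⟩ := h.faithful _ _ _ h1
  have ha' := (mul_eq_zero.mp ha).resolve_right hn
  have hb' := (mul_eq_zero.mp hb).resolve_right hn
  have hc' := (mul_eq_zero.mp hc).resolve_right hn
  rw [ha', hb', hc']; simp

/-- elements of value zero move points by less than one -/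
theorem InV.abs_le_one (h : Rat F G nF nG q) {γ : Dif} (hγ : InV F G nF nG q 0 γ) (x : ℝ) :
    |γ x - x| ≤ 1 := by
  obtain ⟨y, hy⟩ := hγ.fix h
  have hc : Commute γ T := hγ.comm h.toAct inV_T
  have hper : ∀ n : ℤ, γ (y + n) = y + n := by
    intro n
    have := Dif.comm_apply (hc.zpow_right n) y
    rw [T_zpow_apply, T_zpow_apply, hy] at this
    exact this
  set n := ⌊x - y⌋ with hn
  have h1 : y + n ≤ x := by
    have := Int.floor_le (x - y)
    rw [← hn] at this; linarith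
  have h2 : x ≤ y + (n + 1 : ℤ) := by
    have := (Int.lt_floor_add_one (x - y)).le
    rw [← hn] at this; push_cast; linarith
  have h3 := γ.le_iff.2 h1
  have h4 := γ.le_iff.2 h2
  rw [hper] at h3 h4
  push_cast at h2 h4
  rw [abs_le]
  constructor <;> linarith

end alg

/-! ### Orbits -/

theorem pow_mono {g : Dif} {x : ℝ} (hx : x ≤ g x) {m n : ℕ} (hmn : m ≤ n) :
    (g ^ m) x ≤ (g ^ n) x := by
  induction n, hmn using Nat.le_induction with
  | base => exact le_rfl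
  | succ n _ ih =>
    refine ih.trans ?_
    rw [pow_succ, Dif.mul_apply]
    exact (g ^ n).le_iff.2 hx

/-- an increasing orbit passes every point below the next fixed point -/
theorem exists_pow_gt {g : Dif} {x w : ℝ} (hg : ∀ y, x ≤ y → y ≤ w → y < g y) :
    ∃ m : ℕ, w < (g ^ m) x := by
  by_contra hcon
  push Not at hcon
  have hxw : x ≤ w := by simpa using hcon 0
  have hge : ∀ m : ℕ, x ≤ (g ^ m) x := by
    intro m
    have := pow_mono (hg x le_rfl hxw).le (Nat.zero_le m)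
    simpa using this
  have hmono : Monotone (fun m : ℕ => (g ^ m) x) :=
    fun m n hmn => pow_mono (hg x le_rfl hxw).le hmn
  have hbdd : BddAbove (range (fun m : ℕ => (g ^ m) x)) :=
    ⟨w, by rintro _ ⟨m, rfl⟩; exact hcon m⟩
  have hlim := tendsto_atTop_ciSup hmono hbdd
  set L := ⨆ m : ℕ, (g ^ m) x with hL
  have hLw : L ≤ w := le_of_tendsto' hlim hcon
  have hxL : x ≤ L := ge_of_tendsto' hlim hge
  have h1 : Tendsto (fun m : ℕ => (g ^ (m + 1)) x) atTop (𝓝 L) :=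
    hlim.comp (tendsto_add_atTop_nat 1)
  have h2 : Tendsto (fun m : ℕ => g ((g ^ m) x)) atTop (𝓝 (g L)) :=
    (g.continuous.tendsto L).comp hlim
  have h3 : (fun m : ℕ => (g ^ (m + 1)) x) = fun m : ℕ => g ((g ^ m) x) := by
    funext m
    rw [pow_succ', Dif.mul_apply]
  rw [h3] at h1
  have h4 := tendsto_nhds_unique h1 h2
  exact absurd (hg L hxL hLw) (by rw [← h4]; exact lt_irrefl _)

theorem exists_pow_gt' {g : Dif} (hg : ∀ y, y < g y) (x w : ℝ) : ∃ m : ℕ, w < (g ^ m) x :=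
  exists_pow_gt (fun y _ _ => hg y)

theorem exists_pow_lt' {g : Dif} (hg : ∀ y, y < g y) (x w : ℝ) :
    ∃ m : ℕ, (g ^ (-(m : ℤ))) x < w := by
  obtain ⟨m, hm⟩ := exists_pow_gt' hg w x
  refine ⟨m, ?_⟩
  rw [zpow_neg, zpow_natCast]
  exact (g ^ m).inv_lt_iff.2 hm

theorem zpow_strictMono {g : Dif} (hg : ∀ y, y < g y) (x : ℝ) :
    StrictMono (fun n : ℤ => (g ^ n) x) := by
  refine strictMono_int_of_lt_succ (fun n => ?_)
  rw [zpow_add_one, Dif.mul_apply]
  exact (g ^ n).lt_iff.2 (hg x)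

/-! ### The gap -/

section gap

variable {F G : Dif} {nF nG q : ℤ} {f : Dif} {z₀ z₁ : ℝ}

theorem maps_gap {γ : Dif} (hγ : InL F G nF nG q γ) (hz₀ : FixK F G nF nG q z₀)
    (hz₁ : FixK F G nF nG q z₁) {x : ℝ} (hx : x ∈ Ioo z₀ z₁) : γ x ∈ Ioo z₀ z₁ := by
  have h1 := γ.lt_iff.2 hx.1
  have h2 := γ.lt_iff.2 hx.2
  rw [hz₀ γ hγ] at h1
  rw [hz₁ γ hγ] at h2
  exact ⟨h1, h2⟩

/-- an element of value zero moving one point of the gap to the right moves all of them -/
theorem right_on_gap (hfix : ∀ {γ : Dif}, InL F G nF nG q γ → γ ≠ 1 → ∀ {z : ℝ}, γ z = z →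
    FixK F G nF nG q z) (hf : InL F G nF nG q f) (hfp : ∀ y ∈ Ioo z₀ z₁, y < f y)
    {γ : Dif} (hγ : InL F G nF nG q γ) {x : ℝ} (hx : x ∈ Ioo z₀ z₁) (hx1 : x < γ x) :
    ∀ y ∈ Ioo z₀ z₁, y < γ y := by
  intro y hy
  have hne : ∀ w ∈ Ioo z₀ z₁, γ w ≠ w := by
    intro w hw he
    have h1 : γ ≠ 1 := by
      rintro rfl
      exact absurd hx1 (by simp)
    have := hfix hγ h1 he f hf
    exact absurd (hfp w hw) (by rw [this]; exact lt_irrefl _)
  by_contra hcon
  have hle : γ y ≤ y := not_lt.1 hcon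
  have hcont : ContinuousOn (fun w => γ w - w) (uIcc x y) :=
    (γ.continuous.sub continuous_id).continuousOn
  have hmem : (0 : ℝ) ∈ uIcc ((fun w => γ w - w) x) ((fun w => γ w - w) y) := by
    rw [mem_uIcc]
    right
    constructor
    · show γ y - y ≤ 0
      linarith
    · show 0 ≤ γ x - x
      linarith
  obtain ⟨w, hw, hw0⟩ := intermediate_value_uIcc hcont hmem
  have hw0' : γ w - w = 0 := hw0
  have hwI : w ∈ Ioo z₀ z₁ := by
    have : uIcc x y ⊆ Ioo z₀ z₁ := by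
      have : OrdConnected (Ioo z₀ z₁) := ordConnected_Ioo
      exact this.uIcc_subset hx hy
    exact this hw
  exact hne w hwI (by linarith)

theorem fpow_pos (hfp : ∀ y ∈ Ioo z₀ z₁, y < f y) {y : ℝ} (hy : y ∈ Ioo z₀ z₁) {m : ℕ}
    (hm : 1 ≤ m) : f y ≤ (f ^ m) y := by
  have := pow_mono (hfp y hy).le hm
  simpa using this

/-- comparison with powers of `f` -/
theorem exists_comp (h : Act F G) (hfix : ∀ {γ : Dif}, InL F G nF nG q γ → γ ≠ 1 → ∀ {z : ℝ}, γ z = z →
    FixK F G nF nG q z) (hf : InL F G nF nG q f) (hfp : ∀ y ∈ Ioo z₀ z₁, y < f y)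
    (hz₀ : FixK F G nF nG q z₀) (hz₁ : FixK F G nF nG q z₁) (hlt : z₀ < z₁)
    {γ : Dif} (hγ : InL F G nF nG q γ) :
    ∃ m₀ : ℕ, ∀ m : ℕ, m₀ ≤ m → ∀ y ∈ Ioo z₀ z₁, γ y ≤ (f ^ m) y := by
  set x := (z₀ + z₁) / 2 with hx
  have hxI : x ∈ Ioo z₀ z₁ := ⟨by rw [hx]; linarith, by rw [hx]; linarith⟩
  have hγx := maps_gap hγ hz₀ hz₁ hxI
  obtain ⟨m₀, hm₀⟩ : ∃ m : ℕ, γ x < (f ^ m) x := by
    rcases lt_or_ge (γ x) x with h1 | h1
    · exact ⟨0, by simpa using h1⟩
    · exact exists_pow_gt (fun y hy1 hy2 =>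
        hfp y ⟨hxI.1.trans_le hy1, hy2.trans_lt hγx.2⟩)
  refine ⟨m₀, fun m hm y hy => ?_⟩
  have hδ : InL F G nF nG q (γ⁻¹ * f ^ m₀) := by
    have h1 : InV F G nF nG q (-0) γ⁻¹ := InV.inv h hγ
    have h2 : InV F G nF nG q (0 * (m₀ : ℤ)) (f ^ (m₀ : ℤ)) := InV.zpow h hf m₀
    have := h1.mul h h2
    rw [zpow_natCast] at this
    simpa [inL_iff] using this
  have h1 : x < (γ⁻¹ * f ^ m₀) x := by
    rw [Dif.mul_apply, Dif.lt_inv_iff]
    exact hm₀
  have h2 := right_on_gap (@hfix) hf hfp hδ hxI h1 y hy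
  rw [Dif.mul_apply, Dif.lt_inv_iff] at h2
  exact h2.le.trans (pow_mono (hfp y hy).le hm)

end gap

/-! ### Conjugation of a map close to the identity -/

theorem iteratedDeriv_bound {g : ℝ → ℝ} (hg : ContDiff ℝ ∞ g) (n : ℕ) (p q : ℝ) :
    ∃ A : ℝ, 0 < A ∧ ∀ l ≤ n, ∀ x ∈ Icc p q, |iteratedDeriv l g x| ≤ A := by
  have h1 : ∀ l : ℕ, ∃ A : ℝ, ∀ x ∈ Icc p q, |iteratedDeriv l g x| ≤ A := by
    intro l
    have hc : Continuous (iteratedDeriv l g) := by
      refine hg.continuous_iteratedDeriv l ?_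
      exact_mod_cast le_top
    obtain ⟨A, hA⟩ := (isCompact_Icc (a := p) (b := q)).exists_bound_of_continuousOn
      hc.continuousOn
    exact ⟨A, hA⟩
  choose A hA using h1
  refine ⟨1 + ∑ l ∈ Finset.range (n + 1), |A l|, ?_, fun l hl x hx => ?_⟩
  · have : 0 ≤ ∑ l ∈ Finset.range (n + 1), |A l| := Finset.sum_nonneg (fun _ _ => abs_nonneg _)
    linarith
  · have h2 : |A l| ≤ ∑ l ∈ Finset.range (n + 1), |A l| :=
      Finset.single_le_sum (f := fun l => |A l|) (fun _ _ => abs_nonneg _)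
        (Finset.mem_range.2 (by omega))
    have h3 := hA l x hx
    have h4 := le_abs_self (A l)
    linarith

theorem deriv_smooth {g : ℝ → ℝ} (hg : ContDiff ℝ ∞ g) : ContDiff ℝ ∞ (deriv g) :=
  (contDiff_infty_iff_deriv.1 hg).2

theorem comp_sub_JB (n : ℕ) : ∀ (g : ℝ → ℝ), ContDiff ℝ ∞ g → ∀ p q : ℝ, ∃ C : ℝ, 0 < C ∧
    ∀ (h : ℝ → ℝ) (y η : ℝ), ContDiff ℝ ∞ h → y ∈ Icc p q → h y ∈ Icc p q → 0 ≤ η → η ≤ 1 →
      JB n (fun t => h t - t) y η 1 → JB n (fun t => g (h t) - g t) y (C * η) 1 := by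
  induction n with
  | zero =>
    intro g hg p q
    obtain ⟨A, hA0, hA⟩ := iteratedDeriv_bound hg 1 p q
    refine ⟨A, hA0, fun h y η hh hy hhy hη hη1 hJ => ?_⟩
    refine ⟨((hg.comp hh).sub hg).contDiffAt, fun l hl => ?_⟩
    obtain rfl : l = 0 := by omega
    rw [pow_zero, mul_one, iteratedDeriv_zero]
    have h1 : ‖g (h y) - g y‖ ≤ A * ‖h y - y‖ := by
      refine Convex.norm_image_sub_le_of_norm_hasDerivWithin_le (f := g) (f' := deriv g)
        (s := Icc p q) (fun x _ => ((hg.differentiable (by simp) x).hasDerivAt).hasDerivWithinAt)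
        (fun x hx => ?_) (convex_Icc p q) hy hhy
      have := hA 1 le_rfl x hx
      rwa [iteratedDeriv_one] at this
    have h2 := hJ.val
    rw [Real.norm_eq_abs, Real.norm_eq_abs] at h1
    exact h1.trans (mul_le_mul_of_nonneg_left h2 hA0.le)
  | succ n ih =>
    intro g hg p q
    obtain ⟨C₁, hC₁, h₁⟩ := ih (deriv g) (deriv_smooth hg) p q
    obtain ⟨C₀, hC₀, h₀⟩ := ih g hg p q
    obtain ⟨A, hA0, hA⟩ := iteratedDeriv_bound (deriv_smooth hg) n p q
    refine ⟨C₀ + (2 ^ n * C₁ * 2 + 2 ^ n * A), by positivity,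
      fun h y η hh hy hhy hη hη1 hJ => ?_⟩
    have hJn : JB n (fun t => h t - t) y η 1 := hJ.mono (Nat.le_succ n) le_rfl zero_le_one
    have hval := (h₀ h y η hh hy hhy hη hη1 hJn).val
    rw [JB.succ_iff] at hJ ⊢
    have hd : deriv (fun t => h t - t) = fun t => deriv h t - 1 := by
      funext t
      have h1 : HasDerivAt (fun t => h t - t) (deriv h t - 1) t :=
        (hh.differentiable (by simp) t).hasDerivAt.sub (hasDerivAt_id t)
      exact h1.deriv
    have hJ' : JB n (fun t => deriv h t - 1) y η 1 := by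
      have := hJ.2.2
      rw [hd, mul_one] at this
      exact this
    refine ⟨((hg.comp hh).sub hg).contDiffAt, ?_, ?_⟩
    · refine hval.trans ?_
      exact mul_le_mul_of_nonneg_right (by
        have : 0 ≤ 2 ^ n * C₁ * 2 + 2 ^ n * A := by positivity
        linarith) hη
    · have hd2 : deriv (fun t => g (h t) - g t) = fun t =>
          (deriv g (h t) - deriv g t) * deriv h t + deriv g t * (deriv h t - 1) := by
        funext t
        have e1 : HasDerivAt (fun t => g (h t)) (deriv g (h t) * deriv h t) t :=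
          (hg.differentiable (by simp) (h t)).hasDerivAt.comp t
            (hh.differentiable (by simp) t).hasDerivAt
        have e2 : HasDerivAt (fun t => g (h t) - g t)
            (deriv g (h t) * deriv h t - deriv g t) t :=
          e1.sub (hg.differentiable (by simp) t).hasDerivAt
        rw [e2.deriv]
        ring
      rw [hd2]
      have b1 : JB n (fun t => deriv g (h t) - deriv g t) y (C₁ * η) 1 :=
        h₁ h y η hh hy hhy hη hη1 hJn
      have b2 : JB n (deriv h) y 2 1 := by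
        have c1 : JB n (fun _ : ℝ => (1 : ℝ)) y |1| 1 := JB.const 1 zero_le_one
        have c2 := hJ'.add c1
        have c3 : (fun t => deriv h t - 1 + 1) = deriv h := by funext t; ring
        rw [c3] at c2
        refine c2.mono le_rfl ?_ zero_le_one
        rw [abs_one]; linarith
      have b3 : JB n (deriv g) y A 1 :=
        ⟨(deriv_smooth hg).contDiffAt, fun l hl => by
          rw [one_pow, mul_one]; exact hA l hl y hy⟩
      have b4 := (b1.mul zero_le_one b2).add (b3.mul zero_le_one hJ')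
      refine b4.mono le_rfl ?_ zero_le_one
      have : 0 ≤ C₀ * η := by positivity
      nlinarith

/-- conjugating a map close to the identity by a fixed diffeomorphism -/
theorem conj_est (n : ℕ) (g : Dif) (p q : ℝ) : ∃ C : ℝ, 0 < C ∧
    ∀ (h : Dif) (y η : ℝ), y ∈ Icc p q → h y ∈ Icc p q → 0 ≤ η → η ≤ 1 →
      (∀ l ≤ n, |iteratedDeriv l (fun t => h t - t) y| ≤ η) →
      ∀ l ≤ n, |iteratedDeriv l (fun t => (g * h * g⁻¹) t - t) (g y)| ≤ C * η := by
  obtain ⟨C₁, hC₁, h₁⟩ := comp_sub_JB n (fun t => g t) g.contDiff p q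
  obtain ⟨A, hA0, hA⟩ := iteratedDeriv_bound (g⁻¹).contDiff n (g p) (g q)
  obtain ⟨C₂, hC₂, h₂⟩ := JB.comp n A
  refine ⟨C₂ * C₁, by positivity, fun h y η hy hhy hη hη1 hJ => ?_⟩
  have hJ' : JB n (fun t => h t - t) y η 1 :=
    ⟨(h.contDiff.sub contDiff_id).contDiffAt, fun l hl => by
      rw [one_pow, mul_one]; exact hJ l hl⟩
  have b1 := h₁ (fun t => h t) y η h.contDiff hy hhy hη hη1 hJ'
  have b2 := h₂ (fun t => g (h t) - g t) (fun t => g⁻¹ t) (g y) (C₁ * η) 1 1 zero_le_one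
    zero_le_one (by
      have : g⁻¹ (g y) = y := g.inv_apply_self y
      rw [this]; exact b1) (g⁻¹).contDiff.contDiffAt
    (fun l _ hl => by
      rw [one_mul, one_pow, mul_one]
      exact hA l hl _ ⟨g.le_iff.2 hy.1, g.le_iff.2 hy.2⟩)
  intro l hl
  have b3 := b2.2 l hl
  have e1 : (fun t => (g * h * g⁻¹) t - t) = fun t => g (h (g⁻¹ t)) - g (g⁻¹ t) := by
    funext t
    rw [Dif.mul_apply, Dif.mul_apply, Dif.apply_inv_self]
  rw [e1]
  rw [one_pow, mul_one] at b3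
  rw [mul_assoc]
  exact b3

/-! ### Counting -/

theorem count_lemma {P : ℤ → Prop} [DecidablePred P] (hP : ∀ m n, m ≤ n → P n → P m)
    {A N v : ℤ} (hA1 : P (-A)) (hA2 : ¬ P A) (hN : A + |v| ≤ N) :
    (((Finset.Icc (-N) N).filter (fun n => P (n - v))).card : ℤ) =
      ((Finset.Icc (-N) N).filter (fun n => P n)).card + v := by
  obtain ⟨t, ht, hmin⟩ := Int.exists_least_of_bdd (P := fun n => ¬ P n)
    ⟨-A, fun z hz => by
      by_contra hcon
      exact hz (hP _ _ (not_le.1 hcon).le hA1)⟩ ⟨A, hA2⟩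
  have hiff : ∀ n, P n ↔ n < t := by
    intro n
    constructor
    · intro hn
      by_contra hcon
      exact ht (hP _ _ (not_lt.1 hcon) hn)
    · intro hn
      by_contra hcon
      exact absurd (hmin n hcon) (not_le.2 hn)
  have htA : t ≤ A := hmin A hA2
  have htA' : -A < t := (hiff _).1 hA1
  have habs := abs_le.1 (le_refl |v|)
  have e1 : (Finset.Icc (-N) N).filter (fun n => P n) = Finset.Ico (-N) t := by
    ext n
    simp only [Finset.mem_filter, Finset.mem_Icc, Finset.mem_Ico, hiff]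
    constructor
    · rintro ⟨⟨h1, h2⟩, h3⟩
      exact ⟨h1, h3⟩
    · rintro ⟨h1, h3⟩
      exact ⟨⟨h1, by linarith [habs.1, habs.2]⟩, h3⟩
  have e2 : (Finset.Icc (-N) N).filter (fun n => P (n - v)) = Finset.Ico (-N) (t + v) := by
    ext n
    simp only [Finset.mem_filter, Finset.mem_Icc, Finset.mem_Ico, hiff]
    constructor
    · rintro ⟨⟨h1, h2⟩, h3⟩
      exact ⟨h1, by linarith⟩
    · rintro ⟨h1, h3⟩
      exact ⟨⟨h1, by linarith [habs.1, habs.2]⟩, by linarith⟩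
  rw [e1, e2, Int.card_Ico, Int.card_Ico]
  rw [Int.toNat_of_nonneg (by linarith [habs.1, habs.2]),
    Int.toNat_of_nonneg (by linarith [habs.1, habs.2])]
  ring

end BA

end Pool.Agent.F88
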