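import Pool.Agent.Lib.MP_f88c17.NonflatA

/-!
# Task BA, second part: inserting an element of value zero
-/

set_option autoImplicit false

open Set Filter Topology
open scoped ContDiff

namespace Pool.Agent.F88

namespace BA

/-! ### Insertion -/

/-- the statement of task TW -/
def TwistStmt : Prop := ∀ (r : ℕ) (_ : 1 ≤ r) (E : Fin 3 → Dif) (R ε : ℝ) (_ : 0 < ε),
  ∃ R' δ : ℝ, 0 < δ ∧ R ≤ R' ∧
    ∀ (S s : Dif) (Z : Finset ℝ) (a : ℝ) (J : ℕ) (c : Fin 3 → ℤ),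
      (∀ i, Commute S (E i)) → (∀ i, Commute s (E i)) → Commute S s → (∀ z ∈ Z, z < S z) →
      0 < a → a ≤ 1 → (∀ i, (Z.card : ℤ) + |c i| ≤ J) →
      (∀ j : ℤ, |j| ≤ J → ∀ x, |(s ^ j) x - x| ≤ 1) →
      (∀ z ∈ Z, Tiny S s r J a (δ * a ^ r / (Z.card + 1)) z ∧
        (∀ i, Tiny S s r J a (δ * a ^ r / (Z.card + 1)) (E i z)) ∧
        (∀ i, Tiny S s r J a (δ * a ^ r / (Z.card + 1)) ((E i)⁻¹ z)) ∧
        (∀ i i', Tiny S s r J a (δ * a ^ r / (Z.card + 1)) (E i' ((E i)⁻¹ z)))) →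
      (∀ i, ∀ x ∈ Icc (-R') R',
        (∀ z ∈ Z, (x < (S ^ (-3 : ℤ)) z ∨ (S ^ (3 : ℤ)) z < x) ∧
          ∀ i', (x < (S ^ (-3 : ℤ)) ((E i')⁻¹ z) ∨ (S ^ (3 : ℤ)) ((E i')⁻¹ z) < x)) →
        ((Z.filter (fun z => z < E i x)).card : ℤ) = (Z.filter (fun z => z < x)).card + c i) →
      ∃ ψ : Dif, ∀ i, Near r ε R (ψ * (E i * s ^ (-(c i))) * ψ⁻¹ : Dif) (E i)

theorem fz_mono {f : Dif} {z₀ z₁ : ℝ} (hfp : ∀ y ∈ Ioo z₀ z₁, y < f y)
    {y : ℝ} (hy : ∀ m : ℤ, (f ^ m) y ∈ Ioo z₀ z₁) {m n : ℤ} (hmn : m ≤ n) :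
    (f ^ m) y ≤ (f ^ n) y := by
  have h1 : ∀ k : ℤ, (f ^ k) y ≤ (f ^ (k + 1)) y := by
    intro k
    rw [add_comm, zpow_one_add, Dif.mul_apply]
    exact (hfp _ (hy k)).le
  exact monotone_int_of_le_succ (f := fun k : ℤ => (f ^ k) y) h1 hmn

section insertion

variable {F G : Dif} {nF nG q : ℤ}

theorem insertion (htw : TwistStmt) (h : Rat F G nF nG q)
    (hfix : ∀ {γ : Dif}, InL F G nF nG q γ → γ ≠ 1 → ∀ {z : ℝ}, γ z = z →
      FixK F G nF nG q z) {σ : Dif} (hσ : InV F G nF nG q 1 σ) (r : ℕ) (hr : 1 ≤ r) (R ε : ℝ) (hε : 0 < ε)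
    (ht : TinyNear F G nF nG q r) :
    ∃ s, InL F G nF nG q s ∧ s ≠ 1 ∧ ∀ t : Dif, (t = s ∨ t = s ^ (2 : ℤ)) →
      ∃ ψ : Dif, ∀ i : Fin 3, Near r ε R
        (ψ * ((![F, G, T] : Fin 3 → Dif) i * t ^ (-((![nF, nG, q] : Fin 3 → ℤ) i))) * ψ⁻¹ : Dif)
        ((![F, G, T] : Fin 3 → Dif) i) := by
  have hA := h.toAct
  set E : Fin 3 → Dif := ![F, G, T] with hEdef
  set v : Fin 3 → ℤ := ![nF, nG, q] with hvdef
  have hE : ∀ i, InV F G nF nG q (v i) (E i) := by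
    intro i
    fin_cases i
    · exact inV_F
    · exact inV_G
    · exact inV_T
  obtain ⟨R', δ, hδ, hRR', htw⟩ := htw r hr E R ε hε
  obtain ⟨f, hf, z₀, z₁, hz₀, hz₁, hlt, hfp, hmain⟩ := ht
  set V₀ : ℕ := nF.natAbs + nG.natAbs + q.natAbs with hV₀
  have hv : ∀ i, |v i| ≤ (V₀ : ℤ) := by
    intro i
    have e1 : |nF| = (nF.natAbs : ℤ) := Int.abs_eq_natAbs _
    have e2 : |nG| = (nG.natAbs : ℤ) := Int.abs_eq_natAbs _
    have e3 : |q| = (q.natAbs : ℤ) := Int.abs_eq_natAbs _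
    fin_cases i
    · show |nF| ≤ (V₀ : ℤ)
      rw [e1, hV₀]; push_cast; omega
    · show |nG| ≤ (V₀ : ℤ)
      rw [e2, hV₀]; push_cast; omega
    · show |q| ≤ (V₀ : ℤ)
      rw [e3, hV₀]; push_cast; omega
  -- extended families
  set E' : Option (Fin 3) → Dif := fun o => o.elim 1 E with hE'def
  set v' : Option (Fin 3) → ℤ := fun o => o.elim 0 v with hv'def
  have hE' : ∀ o, InV F G nF nG q (v' o) (E' o) := by
    intro o
    cases o with
    | none => exact ⟨0, 0, 0, by simp [hE'def], by simp [hv'def]⟩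
    | some i => exact hE i
  have hv' : ∀ o, |v' o| ≤ (V₀ : ℤ) := by
    intro o
    cases o with
    | none => simp [hv'def]
    | some i => exact hv i
  set ν : Option (Fin 3) → Dif := fun o => σ ^ (-(v' o)) * E' o with hνdef
  have hν : ∀ o, InL F G nF nG q (ν o) := by
    intro o
    have h1 := (hσ.zpow hA (-(v' o))).mul hA (hE' o)
    have h2 : 1 * -(v' o) + v' o = 0 := by ring
    rw [h2] at h1
    exact h1
  have hEν : ∀ o, E' o = σ ^ (v' o) * ν o := by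
    intro o
    rw [hνdef]
    simp only
    rw [← mul_assoc, ← zpow_add]
    simp
  have hγ : ∀ o o', InL F G nF nG q (ν o * (ν o')⁻¹) := by
    intro o o'
    have h1 := InV.mul hA (hν o) (InV.inv hA (hν o'))
    have h2 : (0 : ℤ) + -0 = 0 := by ring
    rw [h2] at h1
    exact h1
  have hE'none : E' none = 1 := rfl
  have hE'some : ∀ i, E' (some i) = E i := fun i => rfl
  have hv'none : v' none = 0 := rfl
  have hv'some : ∀ i, v' (some i) = v i := fun i => rfl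
  clear_value ν E' v'
  -- the exponent m₀
  have hcomp : ∃ m₀ : ℕ, 1 ≤ m₀ ∧ ∀ o o', ∀ y ∈ Ioo z₀ z₁, (ν o * (ν o')⁻¹) y ≤ (f ^ m₀) y := by
    have h1 : ∀ o o', ∃ m₀ : ℕ, ∀ m : ℕ, m₀ ≤ m → ∀ y ∈ Ioo z₀ z₁,
        (ν o * (ν o')⁻¹) y ≤ (f ^ m) y := fun o o' =>
      exists_comp hA (@hfix) hf hfp hz₀ hz₁ hlt (hγ o o')
    choose m hm using h1
    refine ⟨1 + ∑ o, ∑ o', m o o', by omega, fun o o' => hm o o' _ ?_⟩
    have h2 : m o o' ≤ ∑ o', m o o' :=
      Finset.single_le_sum (f := fun o' => m o o') (fun _ _ => Nat.zero_le _)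
        (Finset.mem_univ o')
    have h3 : ∑ o', m o o' ≤ ∑ o, ∑ o', m o o' :=
      Finset.single_le_sum (f := fun o => ∑ o', m o o') (fun _ _ => Nat.zero_le _)
        (Finset.mem_univ o)
    omega
  obtain ⟨m₀, hm₀1, hm₀⟩ := hcomp
  set S : Dif := f ^ m₀ with hS
  have hSL : InL F G nF nG q S := by
    have := InV.zpow hA hf (m₀ : ℤ)
    rw [zpow_natCast] at this
    rw [inL_iff]
    simpa using this
  -- far away points
  have hσpos : ∀ y, y < σ y := fun y => hσ.pos h one_pos y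
  have hσmono : ∀ y, StrictMono (fun n : ℤ => (σ ^ n) y) := zpow_strictMono hσpos
  obtain ⟨na, hna⟩ := exists_pow_gt' hσpos z₀ (R' + 1)
  obtain ⟨nb, hnb⟩ := exists_pow_lt' hσpos z₁ (-R' - 1)
  set D : ℕ := na + nb with hD
  have hfarR : ∀ n : ℤ, (D : ℤ) ≤ n → ∀ y ∈ Ioo z₀ z₁, R' < (σ ^ n) y := by
    intro n hn y hy
    have h1 : (σ ^ (na : ℤ)) z₀ ≤ (σ ^ n) z₀ := (hσmono z₀).monotone (by omega)
    have h2 := (σ ^ n).lt_iff.2 hy.1
    rw [zpow_natCast] at h1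
    linarith
  have hfarL : ∀ n : ℤ, n ≤ -(D : ℤ) → ∀ y ∈ Ioo z₀ z₁, (σ ^ n) y < -R' := by
    intro n hn y hy
    have h1 : (σ ^ n) z₁ ≤ (σ ^ (-(nb : ℤ))) z₁ := (hσmono z₁).monotone (by omega)
    have h2 := (σ ^ n).lt_iff.2 hy.2
    linarith
  set n₁ : ℕ := D + V₀ with hn₁
  set N' : ℕ := n₁ + 2 * V₀ with hN'
  set K : ℕ := 2 * n₁ + 1 with hK
  set J : ℕ := K + V₀ with hJ
  set J₀ : ℕ := 2 * J + 6 * m₀ with hJ₀
  -- constants
  have hAc : ∀ n : ℤ, ∃ A : ℝ, 0 < A ∧ ∀ u ∈ Icc ((σ ^ n) z₀) ((σ ^ n) z₁),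
      |deriv (fun t => (σ ^ (-n)) t) u| ≤ A := by
    intro n
    obtain ⟨A, hA0, hA1⟩ := iteratedDeriv_bound (σ ^ (-n)).contDiff 1 ((σ ^ n) z₀) ((σ ^ n) z₁)
    refine ⟨A, hA0, fun u hu => ?_⟩
    have := hA1 1 le_rfl u hu
    rwa [iteratedDeriv_one] at this
  choose Af hAf0 hAf using hAc
  have hCc : ∀ n : ℤ, ∃ C : ℝ, 0 < C ∧
    ∀ (h : Dif) (y η : ℝ), y ∈ Icc z₀ z₁ → h y ∈ Icc z₀ z₁ → 0 ≤ η → η ≤ 1 →
      (∀ l ≤ r, |iteratedDeriv l (fun t => h t - t) y| ≤ η) →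
      ∀ l ≤ r, |iteratedDeriv l (fun t => (σ ^ n * h * (σ ^ n)⁻¹) t - t) ((σ ^ n) y)| ≤ C * η :=
    fun n => conj_est r (σ ^ n) z₀ z₁
  choose Cf hCf0 hCf using hCc
  set At : ℝ := 1 + ∑ n ∈ Finset.Icc (-(N' : ℤ)) N', Af n with hAt
  set Ct : ℝ := 1 + ∑ n ∈ Finset.Icc (-(N' : ℤ)) N', Cf n with hCt
  have hAt1 : 1 ≤ At := by
    have : 0 ≤ ∑ n ∈ Finset.Icc (-(N' : ℤ)) N', Af n :=
      Finset.sum_nonneg (fun n _ => (hAf0 n).le)
    linarith
  have hCt1 : 1 ≤ Ct := by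
    have : 0 ≤ ∑ n ∈ Finset.Icc (-(N' : ℤ)) N', Cf n :=
      Finset.sum_nonneg (fun n _ => (hCf0 n).le)
    linarith
  have hAfle : ∀ n : ℤ, |n| ≤ N' → Af n ≤ At := by
    intro n hn
    have h1 : Af n ≤ ∑ n ∈ Finset.Icc (-(N' : ℤ)) N', Af n :=
      Finset.single_le_sum (f := fun n => Af n) (fun n _ => (hAf0 n).le)
        (Finset.mem_Icc.2 (abs_le.1 hn))
    linarith
  have hCfle : ∀ n : ℤ, |n| ≤ N' → Cf n ≤ Ct := by
    intro n hn
    have h1 : Cf n ≤ ∑ n ∈ Finset.Icc (-(N' : ℤ)) N', Cf n :=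
      Finset.single_le_sum (f := fun n => Cf n) (fun n _ => (hCf0 n).le)
        (Finset.mem_Icc.2 (abs_le.1 hn))
    linarith
  set ε' : ℝ := min 1 (δ / (At ^ r * (K + 1) * Ct)) with hε'
  have hAt0 : 0 < At := by linarith
  have hCt0 : 0 < Ct := by linarith
  have hε'0 : 0 < ε' := lt_min one_pos (by positivity)
  have hε'1 : ε' ≤ 1 := min_le_left _ _
  have hε'2 : Ct * ε' ≤ δ / (At ^ r * (K + 1)) := by
    calc Ct * ε' ≤ Ct * (δ / (At ^ r * (K + 1) * Ct)) :=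
          mul_le_mul_of_nonneg_left (min_le_right _ _) hCt0.le
      _ = δ / (At ^ r * (K + 1)) := by
          field_simp
  obtain ⟨x₀, hx₀, a, ha0, ha1, s, hs, hs1, hsm⟩ := hmain J₀ ε' hε'0
  refine ⟨s, hs, hs1, fun t htt => ?_⟩
  -- powers of `t`
  have htL : InL F G nF nG q t := by
    rcases htt with rfl | rfl
    · exact hs
    · have := InV.zpow hA hs 2
      rw [inL_iff]
      simpa using this
  have htj : ∀ j : ℤ, |j| ≤ J → ∀ y ∈ Icc ((f ^ (-(J₀ : ℤ))) x₀) ((f ^ (J₀ : ℤ)) x₀),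
      f⁻¹ y ≤ (t ^ j) y ∧ (t ^ j) y ≤ f y ∧
        ∀ l ≤ r, |iteratedDeriv l (fun u => (t ^ j) u - u) y| ≤ ε' * a ^ r := by
    intro j hj y hy
    have hj' := abs_le.1 hj
    rcases htt with rfl | rfl
    · exact (hsm y hy).2 j (by rw [abs_le]; omega)
    · rw [← zpow_mul]
      exact (hsm y hy).2 (2 * j) (by rw [abs_le]; omega)
  -- points of the gap
  have hfx : ∀ m : ℤ, (f ^ m) x₀ ∈ Ioo z₀ z₁ := by
    intro m
    have h1 : InL F G nF nG q (f ^ m) := by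
      have := InV.zpow hA hf m
      rw [inL_iff]; simpa using this
    exact maps_gap h1 hz₀ hz₁ hx₀
  have hSz : ∀ k : ℤ, S ^ k = f ^ ((m₀ : ℤ) * k) := by
    intro k
    rw [hS, ← zpow_natCast, ← zpow_mul]
  have hcL : ∀ {γ δ' : Dif} {u w : ℤ}, InV F G nF nG q u γ → InV F G nF nG q w δ' →
      ∀ x, γ (δ' x) = δ' (γ x) := fun h1 h2 x => Dif.comm_apply (h1.comm hA h2) x
  have hSV : ∀ k : ℤ, InV F G nF nG q 0 (S ^ k) := by
    intro k
    have := InV.zpow hA hSL k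
    simpa using this
  have hσV : ∀ k : ℤ, InV F G nF nG q (1 * k) (σ ^ k) := fun k => hσ.zpow hA k
  -- comparison of `γ x₀`
  have hγx : ∀ o o', (S ^ (-1 : ℤ)) x₀ ≤ (ν o * (ν o')⁻¹) x₀ ∧
      (ν o * (ν o')⁻¹) x₀ ≤ (S ^ (1 : ℤ)) x₀ := by
    intro o o'
    constructor
    · have h1 := hm₀ o' o x₀ hx₀
      rw [zpow_neg_one, Dif.inv_le_iff, hcL hSL (hγ o o')]
      have h2 : ν o' * (ν o)⁻¹ = (ν o * (ν o')⁻¹)⁻¹ := by simp [mul_inv_rev]
      rw [h2, Dif.inv_le_iff] at h1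
      exact h1
    · rw [zpow_one]
      exact hm₀ o o' x₀ hx₀
  -- tininess
  have hcardpos : (0 : ℝ) < (K : ℝ) + 1 := by positivity
  have htiny : ∀ n : ℤ, |n| ≤ N' → ∀ o o',
      Tiny S t r J (a / At) (δ * (a / At) ^ r / ((K : ℝ) + 1)) ((σ ^ n) ((ν o * (ν o')⁻¹) x₀)) := by
    intro n hn o o' y hy
    set γ := ν o * (ν o')⁻¹ with hγdef
    have hγL : InV F G nF nG q 0 γ := hγ o o'
    rw [hcL (hSV _) (hσV n), hcL (hSV _) (hσV n)] at hy
    set y' := (σ ^ n)⁻¹ y with hy'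
    have hyy : y = (σ ^ n) y' := ((σ ^ n).apply_inv_self y).symm
    have hy1 : (S ^ (-5 : ℤ)) (γ x₀) ≤ y' := (Dif.le_inv_iff _).2 hy.1
    have hy2 : y' ≤ (S ^ (5 : ℤ)) (γ x₀) := (Dif.inv_le_iff _).2 hy.2
    obtain ⟨hg1, hg2⟩ := hγx o o'
    have hy3 : (S ^ (-6 : ℤ)) x₀ ≤ y' := by
      have : (S ^ (-6 : ℤ)) x₀ = (S ^ (-5 : ℤ)) ((S ^ (-1 : ℤ)) x₀) := by
        rw [← Dif.mul_apply, ← zpow_add]; norm_num
      rw [this]
      exact ((S ^ (-5 : ℤ)).le_iff.2 hg1).trans hy1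
    have hy4 : y' ≤ (S ^ (6 : ℤ)) x₀ := by
      have : (S ^ (6 : ℤ)) x₀ = (S ^ (5 : ℤ)) ((S ^ (1 : ℤ)) x₀) := by
        rw [← Dif.mul_apply, ← zpow_add]; norm_num
      rw [this]
      exact hy2.trans ((S ^ (5 : ℤ)).le_iff.2 hg2)
    have hyI : y' ∈ Icc ((f ^ (-(J₀ : ℤ))) x₀) ((f ^ (J₀ : ℤ)) x₀) := by
      rw [hSz] at hy3 hy4
      constructor
      · refine (fz_mono hfp hfx ?_).trans hy3
        rw [hJ₀]; push_cast; nlinarith
      · refine hy4.trans (fz_mono hfp hfx ?_)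
        rw [hJ₀]; push_cast; nlinarith
    have hyg : y' ∈ Ioo z₀ z₁ := ⟨(hfx _).1.trans_le hyI.1, hyI.2.trans_lt (hfx _).2⟩
    have hSy : f y' ≤ S y' := fpow_pos hfp hyg hm₀1
    have hafy : a ≤ f y' - y' := (hsm y' hyI).1
    refine ⟨?_, fun j hj => ?_⟩
    · -- size of `S y - y`
      have h1 : S y - y = (σ ^ n) (S y') - (σ ^ n) y' := by
        rw [hyy, hcL hSL (hσV n)]
      have hSg : S y' ∈ Ioo z₀ z₁ := maps_gap hSL hz₀ hz₁ hyg
      have h2 : ‖(σ ^ (-n)) (S y) - (σ ^ (-n)) y‖ ≤ Af n * ‖S y - y‖ := by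
        refine Convex.norm_image_sub_le_of_norm_hasDerivWithin_le
          (f := fun t => (σ ^ (-n)) t) (f' := deriv (fun t => (σ ^ (-n)) t))
          (s := Icc ((σ ^ n) z₀) ((σ ^ n) z₁))
          (fun x _ => ((σ ^ (-n)).differentiable x).hasDerivAt.hasDerivWithinAt)
          (fun x hx => hAf n x hx) (convex_Icc _ _) ?_ ?_
        · rw [hyy]
          exact ⟨(σ ^ n).le_iff.2 hyg.1.le, (σ ^ n).le_iff.2 hyg.2.le⟩
        · rw [hyy, hcL hSL (hσV n)]
          exact ⟨(σ ^ n).le_iff.2 hSg.1.le, (σ ^ n).le_iff.2 hSg.2.le⟩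
      have h3 : (σ ^ (-n)) y = y' := by rw [zpow_neg]
      have h4 : (σ ^ (-n)) (S y) = S y' := by
        rw [← hcL hSL (hσV (-n)), h3]
      rw [h3, h4, Real.norm_eq_abs, Real.norm_eq_abs] at h2
      have h5 : 0 ≤ S y - y := by
        rw [h1, sub_nonneg]
        exact (σ ^ n).le_iff.2 ((hfp y' hyg).le.trans hSy)
      rw [abs_of_nonneg h5, abs_of_nonneg (by linarith [hfp y' hyg])] at h2
      rw [div_le_iff₀ hAt0]
      have h6 := hAfle n hn
      have h7 : Af n * (S y - y) ≤ At * (S y - y) := mul_le_mul_of_nonneg_right h6 h5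
      linarith
    · obtain ⟨hb1, hb2, hb3⟩ := htj j hj y' hyI
      have htV : InV F G nF nG q (0 * j) (t ^ j) := InV.zpow hA htL j
      have hSi : InV F G nF nG q 0 S⁻¹ := by
        have := InV.inv hA hSL
        simpa using this
      refine ⟨?_, ?_, fun l hl => ?_⟩
      · rw [hyy, hcL hSi (hσV n), hcL htV (hσV n)]
        refine (σ ^ n).le_iff.2 (le_trans ?_ hb1)
        -- `S⁻¹ y' ≤ f⁻¹ y'`
        rw [Dif.inv_le_iff]
        have hfi : InL F G nF nG q f⁻¹ := by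
          have := InV.inv hA hf
          rw [inL_iff]; simpa using this
        have hmem := maps_gap hfi hz₀ hz₁ hyg
        have := fpow_pos hfp hmem hm₀1
        rwa [Dif.apply_inv_self] at this
      · rw [hyy, hcL hSL (hσV n), hcL htV (hσV n)]
        exact (σ ^ n).le_iff.2 (hb2.trans hSy)
      · have hconj : t ^ j = σ ^ n * t ^ j * (σ ^ n)⁻¹ := by
          rw [← (htV.comm hA (hσV n)).eq, mul_assoc, mul_inv_cancel, mul_one]
        have htg : (t ^ j) y' ∈ Ioo z₀ z₁ := by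
          have : InL F G nF nG q (t ^ j) := by rw [inL_iff]; simpa using htV
          exact maps_gap this hz₀ hz₁ hyg
        have ha_r : a ^ r ≤ 1 := pow_le_one₀ ha0.le ha1
        have har0 : 0 < a ^ r := by positivity
        have hb4 := hCf n (t ^ j) y' (ε' * a ^ r) ⟨hyg.1.le, hyg.2.le⟩ ⟨htg.1.le, htg.2.le⟩
          (by positivity) (by nlinarith) hb3 l hl
        rw [hconj, hyy]
        refine hb4.trans ?_
        calc Cf n * (ε' * a ^ r) ≤ Ct * (ε' * a ^ r) :=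
              mul_le_mul_of_nonneg_right (hCfle n hn) (by positivity)
          _ = (Ct * ε') * a ^ r := by ring
          _ ≤ (δ / (At ^ r * (K + 1))) * a ^ r := mul_le_mul_of_nonneg_right hε'2 har0.le
          _ = δ * (a / At) ^ r / ((K : ℝ) + 1) := by
              rw [div_pow]; field_simp
  -- the centres
  have hinj : Function.Injective (fun n : ℤ => (σ ^ n) x₀) := (hσmono x₀).injective
  set Z : Finset ℝ := (Finset.Icc (-(n₁ : ℤ)) n₁).image (fun n : ℤ => (σ ^ n) x₀) with hZ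
  have hcard : Z.card = K := by
    rw [hZ, Finset.card_image_of_injective _ hinj, Int.card_Icc]
    omega
  have hcen : ∀ n : ℤ, ∀ o o', (E' o * (E' o')⁻¹) ((σ ^ n) x₀) =
      (σ ^ (n + v' o - v' o')) ((ν o * (ν o')⁻¹) x₀) := by
    intro n o o'
    have h1 : E' o * (E' o')⁻¹ * σ ^ n = σ ^ (n + v' o - v' o') * (ν o * (ν o')⁻¹) := by
      have c1 : Commute (ν o) (σ ^ (-(v' o'))) := InV.comm hA (hν o) (hσV _)
      have c2 : Commute (ν o * (ν o')⁻¹) (σ ^ n) := InV.comm hA (hγ o o') (hσV n)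
      have c3 : Commute (ν o') (σ ^ (v' o')) := InV.comm hA (hν o') (hσV _)
      rw [hEν o, hEν o', mul_inv_rev, ← zpow_neg]
      have c4 : (ν o')⁻¹ * σ ^ (-(v' o')) = σ ^ (-(v' o')) * (ν o')⁻¹ :=
        ((InV.comm hA (hν o') (hσV (-(v' o')))).inv_left).eq
      calc σ ^ v' o * ν o * ((ν o')⁻¹ * σ ^ (-(v' o'))) * σ ^ n
          = σ ^ v' o * ν o * (σ ^ (-(v' o')) * (ν o')⁻¹) * σ ^ n := by rw [c4]
        _ = σ ^ v' o * (ν o * σ ^ (-(v' o'))) * (ν o')⁻¹ * σ ^ n := by simp only [mul_assoc]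
        _ = σ ^ v' o * (σ ^ (-(v' o')) * ν o) * (ν o')⁻¹ * σ ^ n := by rw [c1.eq]
        _ = σ ^ v' o * σ ^ (-(v' o')) * ((ν o * (ν o')⁻¹) * σ ^ n) := by simp only [mul_assoc]
        _ = σ ^ v' o * σ ^ (-(v' o')) * (σ ^ n * (ν o * (ν o')⁻¹)) := by rw [c2.eq]
        _ = (σ ^ v' o * σ ^ (-(v' o')) * σ ^ n) * (ν o * (ν o')⁻¹) := by simp only [mul_assoc]
        _ = _ := by rw [← zpow_add, ← zpow_add]; congr 2; ring
    have h2 := congrArg (fun k : Dif => k x₀) h1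
    simpa using h2
  have htinyE : ∀ z ∈ Z, ∀ o o', Tiny S t r J (a / At)
      (δ * (a / At) ^ r / ((Z.card : ℝ) + 1)) ((E' o * (E' o')⁻¹) z) := by
    intro z hz o o'
    rw [hZ, Finset.mem_image] at hz
    obtain ⟨n, hn, rfl⟩ := hz
    rw [Finset.mem_Icc] at hn
    rw [hcen n o o', hcard]
    refine htiny _ ?_ o o'
    have a1 := abs_le.1 (hv' o)
    have a2 := abs_le.1 (hv' o')
    rw [abs_le]
    omega
  obtain ⟨ψ, hψ⟩ := htw S t Z (a / At) J v
    (fun i => InV.comm hA hSL (hE i)) (fun i => InV.comm hA htL (hE i))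
    (InV.comm hA hSL htL)
    (fun z hz => by
      rw [hZ, Finset.mem_image] at hz
      obtain ⟨n, -, rfl⟩ := hz
      show (σ ^ n) x₀ < S ((σ ^ n) x₀)
      rw [hcL hSL (hσV n)]
      exact (σ ^ n).lt_iff.2 ((hfp x₀ hx₀).trans_le (fpow_pos hfp hx₀ hm₀1)))
    (by positivity)
    ((div_le_one hAt0).2 (ha1.trans hAt1))
    (fun i => by
      rw [hcard]
      have := hv i
      omega)
    (fun j _ x => by
      have : InV F G nF nG q 0 (t ^ j) := by
        have := InV.zpow hA htL j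
        simpa using this
      exact this.abs_le_one h x)
    (fun z hz => by
      refine ⟨?_, fun i => ?_, fun i => ?_, fun i i' => ?_⟩
      · have := htinyE z hz none none
        rw [hE'none] at this
        simpa using this
      · have := htinyE z hz (some i) none
        rw [hE'none, hE'some] at this
        simpa using this
      · have := htinyE z hz none (some i)
        rw [hE'none, hE'some, one_mul] at this
        exact this
      · have := htinyE z hz (some i') (some i)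
        rw [hE'some, hE'some, Dif.mul_apply] at this
        exact this)
    (by
      intro i x hx hdeep
      have key : ∀ n : ℤ, ((σ ^ n) x₀ < E i x ↔ (σ ^ (n - v i)) x₀ < x) := by
        intro n
        have h1 : (σ ^ n) x₀ < E i x ↔ (E i)⁻¹ ((σ ^ n) x₀) < x := by
          rw [Dif.inv_lt_iff]
        have h2 : (E i)⁻¹ ((σ ^ n) x₀) =
            (σ ^ (n - v i)) ((ν none * (ν (some i))⁻¹) x₀) := by
          have := hcen n none (some i)
          rw [hE'none, hE'some, one_mul] at this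
          rw [this]
          have : n + v' none - v' (some i) = n - v i := by
            rw [hv'none, hv'some]; ring
          rw [this]
        rw [h1, h2]
        set k := n - v i with hk
        set γ := ν none * (ν (some i))⁻¹ with hγdef
        have hγg : γ x₀ ∈ Ioo z₀ z₁ := maps_gap (hγ none (some i)) hz₀ hz₁ hx₀
        rcases lt_or_ge (n₁ : ℤ) k with hk1 | hk1
        · have h3 := hfarR k (by omega) x₀ hx₀
          have h4 := hfarR k (by omega) (γ x₀) hγg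
          constructor <;> intro h5 <;> linarith [hx.2]
        rcases lt_or_ge k (-(n₁ : ℤ)) with hk2 | hk2
        · have h3 := hfarL k (by omega) x₀ hx₀
          have h4 := hfarL k (by omega) (γ x₀) hγg
          constructor <;> intro h5 <;> linarith [hx.1]
        · have hzZ : (σ ^ k) x₀ ∈ Z := by
            rw [hZ]
            exact Finset.mem_image_of_mem _ (Finset.mem_Icc.2 ⟨hk2, hk1⟩)
          obtain ⟨hg1, hg2⟩ := hγx none (some i)
          have hd := (hdeep _ hzZ).1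
          rw [hcL (hSV _) (hσV k), hcL (hSV _) (hσV k)] at hd
          have b1 : (σ ^ k) ((S ^ (-1 : ℤ)) x₀) ≤ (σ ^ k) (γ x₀) := (σ ^ k).le_iff.2 hg1
          have b2 : (σ ^ k) (γ x₀) ≤ (σ ^ k) ((S ^ (1 : ℤ)) x₀) := (σ ^ k).le_iff.2 hg2
          have b3 : (σ ^ k) ((S ^ (-3 : ℤ)) x₀) ≤ (σ ^ k) ((S ^ (-1 : ℤ)) x₀) := by
            rw [hSz, hSz]
            exact (σ ^ k).le_iff.2 (fz_mono hfp hfx (by nlinarith))
          have b4 : (σ ^ k) ((S ^ (1 : ℤ)) x₀) ≤ (σ ^ k) ((S ^ (3 : ℤ)) x₀) := by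
            rw [hSz, hSz]
            exact (σ ^ k).le_iff.2 (fz_mono hfp hfx (by nlinarith))
          have b5 : (σ ^ k) ((S ^ (-3 : ℤ)) x₀) ≤ (σ ^ k) x₀ := by
            rw [hSz]
            have := fz_mono hfp hfx (m := (m₀ : ℤ) * -3) (n := 0) (by nlinarith)
            rw [zpow_zero, Dif.one_apply] at this
            exact (σ ^ k).le_iff.2 this
          have b6 : (σ ^ k) x₀ ≤ (σ ^ k) ((S ^ (3 : ℤ)) x₀) := by
            rw [hSz]
            have := fz_mono hfp hfx (m := 0) (n := (m₀ : ℤ) * 3) (by nlinarith)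
            rw [zpow_zero, Dif.one_apply] at this
            exact (σ ^ k).le_iff.2 this
          rcases hd with hd | hd
          · constructor <;> intro h5 <;> linarith
          · constructor <;> intro h5 <;> linarith
      have e1 : (Z.filter (fun z => z < E i x)).card =
          ((Finset.Icc (-(n₁ : ℤ)) n₁).filter (fun n => (σ ^ (n - v i)) x₀ < x)).card := by
        rw [hZ, Finset.filter_image, Finset.card_image_of_injective _ hinj]
        congr 1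
        ext n
        simp only [Finset.mem_filter, key]
      have e2 : (Z.filter (fun z => z < x)).card =
          ((Finset.Icc (-(n₁ : ℤ)) n₁).filter (fun n => (σ ^ n) x₀ < x)).card := by
        rw [hZ, Finset.filter_image, Finset.card_image_of_injective _ hinj]
      rw [e1, e2]
      refine count_lemma (P := fun n : ℤ => (σ ^ n) x₀ < x) (fun m n hmn hn =>
        ((hσmono x₀).monotone hmn).trans_lt hn) (A := (D : ℤ)) ?_ ?_ ?_
      · exact (hfarL _ le_rfl x₀ hx₀).trans_le hx.1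
      · exact not_lt.2 (hx.2.trans (hfarR _ le_rfl x₀ hx₀).le)
      · have := hv i
        rw [hn₁]; push_cast; omega)
  exact ⟨ψ, hψ⟩

end insertion

end BA

end Pool.Agent.F88
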