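import Pool.Agent.Lib.MP_f88c17.NonflatB
import Pool.Agent.Lib.MP_f88c17.TW
import Pool.Agent.Lib.MP_f88c17.BS

/-!
# Task BA: the non-flat rational case
-/

set_option autoImplicit false

open Set Filter Topology
open scoped ContDiff

namespace Pool.Agent.F88

namespace BA

section final

variable {F G : Dif} {nF nG q : ℤ}

theorem key (h : Act F G) {t ψ : Dif} (ht : InL F G nF nG q t) {H : Equiv.Perm ℝ}
    {j₁ j₂ e : ℤ} (h1 : ∀ x, H ((ψ * (F * t ^ (-nF)) * ψ⁻¹) x) = F (H x) + j₁)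
    (h2 : ∀ x, H ((ψ * (G * t ^ (-nG)) * ψ⁻¹) x) = G (H x) + j₂)
    (h3 : ∀ x, H ((ψ * (T * t ^ (-q)) * ψ⁻¹) x) = H x + e) (a b c : ℤ) (x : ℝ) :
    H (ψ ((F ^ a * G ^ b * T ^ c * t ^ (-(a * nF + b * nG + c * q))) x)) =
      (F ^ a * G ^ b * T ^ (a * j₁ + b * j₂ + c * e)) (H (ψ x)) := by
  obtain ⟨a₀, b₀, c₀, rfl, ht0⟩ := ht
  set P : ℝ → ℝ := fun x => H (ψ x) with hP
  have k1 : ∀ x, P ((F ^ (1 - a₀ * nF) * G ^ (-b₀ * nF) * T ^ (-c₀ * nF)) x) =
      (F ^ (1 : ℤ) * G ^ (0 : ℤ) * T ^ j₁) (P x) := by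
    intro x
    have e1 : F ^ (1 - a₀ * nF) * G ^ (-b₀ * nF) * T ^ (-c₀ * nF) =
        F * (F ^ a₀ * G ^ b₀ * T ^ c₀) ^ (-nF) := by
      have : F = F ^ (1 : ℤ) * G ^ (0 : ℤ) * T ^ (0 : ℤ) := by simp
      rw [el_zpow h]
      conv_rhs => rw [show F * (F ^ (a₀ * -nF) * G ^ (b₀ * -nF) * T ^ (c₀ * -nF)) =
        (F ^ (1 : ℤ) * G ^ (0 : ℤ) * T ^ (0 : ℤ)) *
          (F ^ (a₀ * -nF) * G ^ (b₀ * -nF) * T ^ (c₀ * -nF)) by simp]
      rw [NC.el_mul h]
      congr 1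
      · congr 1
        · congr 1; ring
        · congr 1; ring
      · congr 1; ring
    have e2 := h1 (ψ x)
    rw [Dif.mul_apply, Dif.mul_apply, Dif.inv_apply_self] at e2
    rw [e1]
    show H (ψ _) = _
    rw [e2]
    have : (F ^ (1 : ℤ) * G ^ (0 : ℤ) * T ^ j₁) = T ^ j₁ * F := by
      rw [zpow_one, zpow_zero, mul_one]
      exact (h.FT.zpow_right j₁).eq
    rw [this, Dif.mul_apply, T_zpow_apply]
  have k2 : ∀ x, P ((F ^ (-a₀ * nG) * G ^ (1 - b₀ * nG) * T ^ (-c₀ * nG)) x) =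
      (F ^ (0 : ℤ) * G ^ (1 : ℤ) * T ^ j₂) (P x) := by
    intro x
    have e1 : F ^ (-a₀ * nG) * G ^ (1 - b₀ * nG) * T ^ (-c₀ * nG) =
        G * (F ^ a₀ * G ^ b₀ * T ^ c₀) ^ (-nG) := by
      rw [el_zpow h]
      conv_rhs => rw [show G * (F ^ (a₀ * -nG) * G ^ (b₀ * -nG) * T ^ (c₀ * -nG)) =
        (F ^ (0 : ℤ) * G ^ (1 : ℤ) * T ^ (0 : ℤ)) *
          (F ^ (a₀ * -nG) * G ^ (b₀ * -nG) * T ^ (c₀ * -nG)) by simp]
      rw [NC.el_mul h]
      congr 1
      · congr 1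
        · congr 1; ring
        · congr 1; ring
      · congr 1; ring
    have e2 := h2 (ψ x)
    rw [Dif.mul_apply, Dif.mul_apply, Dif.inv_apply_self] at e2
    rw [e1]
    show H (ψ _) = _
    rw [e2]
    have : (F ^ (0 : ℤ) * G ^ (1 : ℤ) * T ^ j₂) = T ^ j₂ * G := by
      rw [zpow_one, zpow_zero, one_mul]
      exact (h.GT.zpow_right j₂).eq
    rw [this, Dif.mul_apply, T_zpow_apply]
  have k3 : ∀ x, P ((F ^ (-a₀ * q) * G ^ (-b₀ * q) * T ^ (1 - c₀ * q)) x) =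
      (F ^ (0 : ℤ) * G ^ (0 : ℤ) * T ^ e) (P x) := by
    intro x
    have e1 : F ^ (-a₀ * q) * G ^ (-b₀ * q) * T ^ (1 - c₀ * q) =
        T * (F ^ a₀ * G ^ b₀ * T ^ c₀) ^ (-q) := by
      rw [el_zpow h]
      conv_rhs => rw [show T * (F ^ (a₀ * -q) * G ^ (b₀ * -q) * T ^ (c₀ * -q)) =
        (F ^ (0 : ℤ) * G ^ (0 : ℤ) * T ^ (1 : ℤ)) *
          (F ^ (a₀ * -q) * G ^ (b₀ * -q) * T ^ (c₀ * -q)) by simp]
      rw [NC.el_mul h]
      congr 1
      · congr 1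
        · congr 1; ring
        · congr 1; ring
      · congr 1; ring
    have e2 := h3 (ψ x)
    rw [Dif.mul_apply, Dif.mul_apply, Dif.inv_apply_self] at e2
    rw [e1]
    show H (ψ _) = _
    rw [e2]
    simp [hP]
  have k4 := NC.semi_zpow k1 a
  have k5 := NC.semi_zpow k2 b
  have k6 := NC.semi_zpow k3 c
  have e1 : F ^ a * G ^ b * T ^ c * (F ^ a₀ * G ^ b₀ * T ^ c₀) ^ (-(a * nF + b * nG + c * q)) =
      (F ^ (1 - a₀ * nF) * G ^ (-b₀ * nF) * T ^ (-c₀ * nF)) ^ a *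
      ((F ^ (-a₀ * nG) * G ^ (1 - b₀ * nG) * T ^ (-c₀ * nG)) ^ b *
      (F ^ (-a₀ * q) * G ^ (-b₀ * q) * T ^ (1 - c₀ * q)) ^ c) := by
    rw [el_zpow h, el_zpow h, el_zpow h, el_zpow h, NC.el_mul h, NC.el_mul h, NC.el_mul h]
    congr 1
    · congr 1
      · congr 1; ring
      · congr 1; ring
    · congr 1; ring
  have e2 : F ^ a * G ^ b * T ^ (a * j₁ + b * j₂ + c * e) =
      (F ^ (1 : ℤ) * G ^ (0 : ℤ) * T ^ j₁) ^ a *
      ((F ^ (0 : ℤ) * G ^ (1 : ℤ) * T ^ j₂) ^ b *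
      (F ^ (0 : ℤ) * G ^ (0 : ℤ) * T ^ e) ^ c) := by
    rw [el_zpow h, el_zpow h, el_zpow h, NC.el_mul h, NC.el_mul h]
    congr 1
    · congr 1
      · congr 1; ring
      · congr 1; ring
    · congr 1; ring
  rw [e1, e2]
  show P _ = _
  rw [Dif.mul_apply, Dif.mul_apply, Dif.mul_apply, Dif.mul_apply, k4, k5, k6]

theorem conj_data (h : Rat F G nF nG q) {t ψ : Dif} (ht : InL F G nF nG q t)
    (hC : ConjTo F G (ψ * (F * t ^ (-nF)) * ψ⁻¹) (ψ * (G * t ^ (-nG)) * ψ⁻¹)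
      (ψ * (T * t ^ (-q)) * ψ⁻¹)) {a b c : ℤ} (hone : a * nF + b * nG + c * q = 1) :
    ∃ P : Equiv.Perm ℝ, P ∈ AllDif ∧
      (∀ γ, InL F G nF nG q γ → ∀ x, P (γ x) = γ (P x)) ∧
      ((StrictMono (fun x => P x) ∧
          ∀ x, P ((F ^ a * G ^ b * T ^ c) x) = (F ^ a * G ^ b * T ^ c) (t (P x))) ∨
        (StrictAnti (fun x => P x) ∧ ∃ d : ℤ, q * d = q * c - 2 ∧
          ∀ x, P ((F ^ a * G ^ b * T ^ c) x) = (F ^ a * G ^ b * T ^ d) (t (P x)))) := by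
  have hA := h.toAct
  obtain ⟨H, hH, j₁, j₂, e, he, h1, h2, h3⟩ := hC
  have hkey := key hA ht h1 h2 h3
  have hq := h.q_pos
  have hψ : ψ.toPerm ∈ AllDif := ψ.2.1
  set P : Equiv.Perm ℝ := H * ψ.toPerm with hPdef
  have hPx : ∀ x, P x = H (ψ x) := fun x => rfl
  have hPmem : P ∈ AllDif := mul_mem hH hψ
  -- elements of value zero
  have hrel : ∀ a' b' c' : ℤ, a' * nF + b' * nG + c' * q = 0 →
      a' * j₁ + b' * j₂ + c' * e = c' := by
    intro a' b' c' h0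
    obtain ⟨x, hx⟩ := h.fix a' b' c' h0
    have k := hkey a' b' c' x
    rw [h0, neg_zero, zpow_zero, mul_one, hx] at k
    have hv : InV F G nF nG q (a' * nF + b' * nG + (a' * j₁ + b' * j₂ + c' * e) * q)
        (F ^ a' * G ^ b' * T ^ (a' * j₁ + b' * j₂ + c' * e)) := ⟨_, _, _, rfl, rfl⟩
    have h0' := hv.zero_of_fix h k.symm
    have h0'' : (a' * j₁ + b' * j₂ + c' * e - c') * q = 0 := by linarith
    rcases mul_eq_zero.mp h0'' with h5 | h5
    · linarith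
    · omega
  have hL : ∀ γ, InL F G nF nG q γ → ∀ x, P (γ x) = γ (P x) := by
    rintro γ ⟨a', b', c', rfl, h0⟩ x
    have k := hkey a' b' c' x
    rw [h0, neg_zero, zpow_zero, mul_one, hrel a' b' c' h0] at k
    exact k
  -- value one
  set d : ℤ := a * j₁ + b * j₂ + c * e with hd
  have hqd : q * d = q * c - 1 + e := by
    have k := hrel (q * a) (q * b) (q * c - 1) (by linear_combination q * hone)
    rw [hd]
    linear_combination k
  have hσ : ∀ x, P ((F ^ a * G ^ b * T ^ c) x) = (F ^ a * G ^ b * T ^ d) (t (P x)) := by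
    intro x
    have k := hkey a b c (t x)
    rw [hone, Dif.mul_apply] at k
    have e1 : (t ^ (-(1 : ℤ))) (t x) = x := by
      rw [zpow_neg_one]; exact t.inv_apply_self x
    rw [e1] at k
    rw [hPx, k, ← hL t ht x]
    rfl
  -- monotonicity
  have hcont : Continuous (fun x => P x) := hPmem.1.continuous
  have hinj : Function.Injective (fun x => P x) := P.injective
  have hTpos : (0 : ℝ) < (T * t ^ (-q)) 0 := by
    have h5 : InV F G nF nG q (q + 0 * (-q)) (T * t ^ (-q)) :=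
      InV.mul hA inV_T (InV.zpow hA ht (-q))
    have h6 := h5.pos h (by simpa using hq) 0
    exact h6
  have hTe : P ((T * t ^ (-q)) 0) = P 0 + e := by
    have k := h3 (ψ 0)
    rw [Dif.mul_apply, Dif.mul_apply, Dif.inv_apply_self] at k
    exact k
  refine ⟨P, hPmem, hL, ?_⟩
  rcases he with rfl | rfl
  · left
    refine ⟨?_, ?_⟩
    · rcases hcont.strictMono_of_inj hinj with h7 | h7
      · exact h7
      · exfalso
        have := h7 hTpos
        simp only [hTe] at this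
        push_cast at this
        linarith
    · have hdc : d = c := by
        have : q * (d - c) = 0 := by linear_combination hqd
        rcases mul_eq_zero.mp this with h5 | h5
        · omega
        · linarith
      rw [hdc] at hσ
      exact hσ
  · right
    refine ⟨?_, d, by linarith, hσ⟩
    rcases hcont.strictMono_of_inj hinj with h7 | h7
    · exfalso
      have := h7 hTpos
      simp only [hTe] at this
      push_cast at this
      linarith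
    · exact h7

theorem perm_apply_inv (P : Equiv.Perm ℝ) (x : ℝ) : P (P⁻¹ x) = x := P.apply_symm_apply x

theorem nonflat_case_of (htw : TwistStmt) (h : Rat F G nF nG q)
    (hfix : ∀ {γ : Dif}, InL F G nF nG q γ → γ ≠ 1 → ∀ {z : ℝ}, γ z = z →
      FixK F G nF nG q z)
    (hno : ∀ {σ s B : Dif}, (∃ a b c : ℤ, σ = F ^ a * G ^ b * T ^ c ∧ a * nF + b * nG + c * q = 1) →
      InL F G nF nG q s → s ≠ 1 → (∀ γ, InL F G nF nG q γ → Commute B γ) →
      B * σ * B⁻¹ ≠ σ * s)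
    (ht : ∀ r, TinyNear F G nF nG q r) : ¬ Stable F G := by
  rintro ⟨r, R, ε, hε, hst⟩
  have hA := h.toAct
  obtain ⟨a, b, c, hone⟩ := h.one
  set σ := F ^ a * G ^ b * T ^ c with hσdef
  have hσ : InV F G nF nG q 1 σ := ⟨a, b, c, rfl, hone⟩
  have hσ' : ∃ a b c : ℤ, σ = F ^ a * G ^ b * T ^ c ∧ a * nF + b * nG + c * q = 1 := hσ
  obtain ⟨s, hs, hs1, hins⟩ := insertion htw h (@hfix) hσ (r + 1) (by omega) R ε hε
    (ht (r + 1))
  have hconj : ∀ t : Dif, InL F G nF nG q t → (t = s ∨ t = s ^ (2 : ℤ)) →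
      ∃ P : Equiv.Perm ℝ, P ∈ AllDif ∧
      (∀ γ, InL F G nF nG q γ → ∀ x, P (γ x) = γ (P x)) ∧
      ((StrictMono (fun x => P x) ∧ ∀ x, P (σ x) = σ (t (P x))) ∨
        (StrictAnti (fun x => P x) ∧ ∃ d : ℤ, q * d = q * c - 2 ∧
          ∀ x, P (σ x) = (F ^ a * G ^ b * T ^ d) (t (P x)))) := by
    intro t htL htt
    obtain ⟨ψ, hψ⟩ := hins t htt
    have n1 : Near r ε R (ψ * (F * t ^ (-nF)) * ψ⁻¹ : Dif) F :=
      fun l hl => hψ 0 l (by omega)
    have n2 : Near r ε R (ψ * (G * t ^ (-nG)) * ψ⁻¹ : Dif) G :=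
      fun l hl => hψ 1 l (by omega)
    have n3' : Near r ε R (ψ * (T * t ^ (-q)) * ψ⁻¹ : Dif) T :=
      fun l hl => hψ 2 l (by omega)
    have hcc : ∀ {A B : Dif}, Commute A B → Commute (ψ * A * ψ⁻¹) (ψ * B * ψ⁻¹) := by
      intro A B hAB
      have := hAB.map (MulAut.conj ψ)
      simpa using this
    have cF : InV F G nF nG q (nF + 0 * (-nF)) (F * t ^ (-nF)) :=
      InV.mul hA inV_F (InV.zpow hA htL (-nF))
    have cG : InV F G nF nG q (nG + 0 * (-nG)) (G * t ^ (-nG)) :=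
      InV.mul hA inV_G (InV.zpow hA htL (-nG))
    have cT : InV F G nF nG q (q + 0 * (-q)) (T * t ^ (-q)) :=
      InV.mul hA inV_T (InV.zpow hA htL (-q))
    have hC := hst _ _ _ (hcc (cF.comm hA cG)) (hcc (cF.comm hA cT)) (hcc (cG.comm hA cT))
      (fun x => by
        have h6 := cT.pos h (by simpa using h.q_pos) (ψ⁻¹ x)
        have h7 := ψ.lt_iff.2 h6
        rw [Dif.apply_inv_self] at h7
        exact h7) n1 n2 n3'
    exact conj_data h htL hC hone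
  have hs2 : InL F G nF nG q (s ^ (2 : ℤ)) := by
    have := InV.zpow hA hs 2
    have e0 : (0 : ℤ) * 2 = 0 := by ring
    rw [e0] at this
    exact this
  obtain ⟨P₁, hP₁, hL₁, hor₁⟩ := hconj s hs (Or.inl rfl)
  obtain ⟨P₂, hP₂, hL₂, hor₂⟩ := hconj (s ^ (2 : ℤ)) hs2 (Or.inr rfl)
  have hmono : ∀ (P : Equiv.Perm ℝ) (t : Dif), P ∈ AllDif → InL F G nF nG q t → t ≠ 1 →
      (∀ γ, InL F G nF nG q γ → ∀ x, P (γ x) = γ (P x)) →
      StrictMono (fun x => P x) → (∀ x, P (σ x) = σ (t (P x))) → False := by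
    intro P t hP htL ht1 hL hm hσP
    let B : Dif := (⟨P, ⟨hP, hm⟩⟩ : DifS)
    have hBx : ∀ x, B x = P x := fun x => rfl
    refine hno (B := B) hσ' htL ht1 (fun γ hγ => Dif.commute_of_apply (fun x => ?_)) ?_
    · rw [hBx, hBx, hL γ hγ]
    · rw [mul_inv_eq_iff_eq_mul]
      ext x
      show P (σ x) = σ (t (P x))
      exact hσP x
  rcases hor₁ with ⟨hm, h5⟩ | ⟨ha₁, d₁, hd₁, h5⟩
  · exact hmono P₁ s hP₁ hs hs1 hL₁ hm h5
  rcases hor₂ with ⟨hm, h6⟩ | ⟨ha₂, d₂, hd₂, h6⟩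
  · refine hmono P₂ (s ^ (2 : ℤ)) hP₂ hs2 ?_ hL₂ hm h6
    intro h7
    exact hs1 (InV.torsion hA hs two_ne_zero h7)
  · have hdd : d₁ = d₂ := by
      have : q * (d₁ - d₂) = 0 := by linear_combination hd₁ - hd₂
      rcases mul_eq_zero.mp this with h8 | h8
      · exact absurd h.q_pos (by rw [h8]; exact lt_irrefl _)
      · omega
    subst hdd
    set σ' := F ^ a * G ^ b * T ^ d₁ with hσ'def
    have hsi : InL F G nF nG q s⁻¹ := by
      have := InV.inv hA hs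
      have e0 : (-0 : ℤ) = 0 := by ring
      rw [e0] at this
      exact this
    refine hmono (P₂⁻¹ * P₁) s⁻¹ (mul_mem (inv_mem hP₂) hP₁) hsi
      (by simpa using hs1) ?_ ?_ ?_
    · intro γ hγ x
      rw [Equiv.Perm.mul_apply, Equiv.Perm.mul_apply, Equiv.Perm.inv_eq_iff_eq, hL₂ γ hγ,
        perm_apply_inv, hL₁ γ hγ]
    · intro x y hxy
      have h8 := ha₁ hxy
      simp only at h8
      show P₂⁻¹ (P₁ x) < P₂⁻¹ (P₁ y)
      by_contra hcon
      have h9 := ha₂.antitone (not_lt.1 hcon)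
      simp only [perm_apply_inv] at h9
      linarith
    · intro x
      rw [Equiv.Perm.mul_apply, Equiv.Perm.mul_apply, Equiv.Perm.inv_eq_iff_eq, h5, h6,
        hL₂ s⁻¹ hsi, perm_apply_inv]
      congr 1
      have : (s ^ (2 : ℤ)) (s⁻¹ (P₁ x)) = (s ^ (2 : ℤ) * s⁻¹) (P₁ x) := rfl
      rw [this]
      congr 2
      group

end final

end BA

theorem nonflat_case {F G : Dif} {nF nG q : ℤ} (h : Rat F G nF nG q)
    (hnf : NonFlat F G nF nG q)
    (ht : ∀ r, TinyNear F G nF nG q r) : ¬ Stable F G :=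
  BA.nonflat_case_of (fun r hr E R ε hε => twist r hr E R ε hε) h
    (fun hγ h1 _ hz => nf_fix h hnf hγ h1 hz)
    (fun hσ hs hs1 hB => no_twist h hnf hσ hs hs1 hB) ht

end Pool.Agent.F88
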