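import Pool.Agent.Lib.MP_f88c17.Closeness

/-!
# Task S: from the frozen hypothesis to `Stable` (helper91)
-/

set_option autoImplicit false

open Set Filter Topology
open scoped ContDiff

namespace Pool.Agent.F88

namespace S

/-! ### General facts about increasing diffeomorphisms of the line -/

theorem zpow_add_one_apply (f : Dif) (c : ℤ) (x : ℝ) : (f ^ (c + 1)) x = f ((f ^ c) x) := by
  rw [add_comm, zpow_add, zpow_one]
  rfl

theorem zpow_add_one_apply' (f : Dif) (c : ℤ) (x : ℝ) : (f ^ (c + 1)) x = (f ^ c) (f x) := by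
  rw [zpow_add, zpow_one]
  rfl

theorem strictMono_zpow {f : Dif} (hf : ∀ x, x < f x) (x : ℝ) :
    StrictMono (fun c : ℤ => (f ^ c) x) := by
  apply strictMono_int_of_lt_succ
  intro c
  show (f ^ c) x < (f ^ (c + 1)) x
  rw [zpow_add_one_apply]
  exact hf _

/-- a diffeomorphism without fixed points has unbounded orbits -/
theorem exists_zpow_gt {f : Dif} (hf : ∀ x, x < f x) (x y : ℝ) : ∃ n : ℕ, y < (f ^ (n : ℤ)) x := by
  by_contra hcon
  push Not at hcon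
  have hm : Monotone (fun n : ℕ => (f ^ (n : ℤ)) x) := by
    intro a b hab
    exact (strictMono_zpow hf x).monotone (by exact_mod_cast hab)
  have hb : BddAbove (range (fun n : ℕ => (f ^ (n : ℤ)) x)) := by
    refine ⟨y, ?_⟩
    rintro _ ⟨n, rfl⟩
    exact hcon n
  have hl := tendsto_atTop_ciSup hm hb
  set L := ⨆ n : ℕ, (f ^ (n : ℤ)) x
  have h1 : Tendsto (fun n : ℕ => f ((f ^ (n : ℤ)) x)) atTop (𝓝 (f L)) :=
    (f.continuous.tendsto L).comp hl
  have h2 : Tendsto (fun n : ℕ => (f ^ ((n + 1 : ℕ) : ℤ)) x) atTop (𝓝 L) :=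
    hl.comp (tendsto_add_atTop_nat 1)
  have h3 : (fun n : ℕ => (f ^ ((n + 1 : ℕ) : ℤ)) x) = fun n : ℕ => f ((f ^ (n : ℤ)) x) := by
    funext n
    push_cast
    exact zpow_add_one_apply f n x
  rw [h3] at h2
  have := tendsto_nhds_unique h1 h2
  exact absurd this (hf L).ne'

theorem inv_lt_self {f : Dif} (hf : ∀ x, x < f x) (x : ℝ) : f⁻¹ x < x := by
  rw [f.inv_lt_iff]
  exact hf x

theorem exists_zpow_lt {f : Dif} (hf : ∀ x, x < f x) (x y : ℝ) : ∃ c : ℤ, (f ^ c) x < y := by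
  obtain ⟨n, hn⟩ := exists_zpow_gt hf y x
  refine ⟨-n, ?_⟩
  rw [zpow_neg, Dif.inv_lt_iff]
  exact hn

/-- the fundamental domain containing `x` -/
theorem exists_index {f : Dif} (hf : ∀ x, x < f x) (x₀ x : ℝ) :
    ∃ c : ℤ, (f ^ c) x₀ ≤ x ∧ x < (f ^ (c + 1)) x₀ := by
  obtain ⟨n, hn⟩ := exists_zpow_gt hf x₀ x
  obtain ⟨m, hm⟩ := exists_zpow_lt hf x₀ x
  obtain ⟨c, hc, hc'⟩ := Int.exists_greatest_of_bdd (P := fun c : ℤ => (f ^ c) x₀ ≤ x)
    ⟨n, fun z hz => by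
      by_contra hcon
      push Not at hcon
      have := (strictMono_zpow hf x₀) hcon
      simp only at this
      linarith⟩ ⟨m, hm.le⟩
  refine ⟨c, hc, ?_⟩
  by_contra hcon
  push Not at hcon
  have := hc' (c + 1) hcon
  omega

theorem index_unique {f : Dif} (hf : ∀ x, x < f x) {x₀ x : ℝ} {c c' : ℤ}
    (h1 : (f ^ c) x₀ ≤ x) (h2 : x < (f ^ (c + 1)) x₀) (h1' : (f ^ c') x₀ ≤ x)
    (h2' : x < (f ^ (c' + 1)) x₀) : c = c' := by
  have hm := strictMono_zpow hf x₀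
  have a1 : c < c' + 1 := by
    rw [← hm.lt_iff_lt]; exact lt_of_le_of_lt h1 h2'
  have a2 : c' < c + 1 := by
    rw [← hm.lt_iff_lt]; exact lt_of_le_of_lt h1' h2
  omega

theorem tendsto_atTop (f : Dif) : Tendsto (fun x => f x) atTop atTop := by
  apply tendsto_atTop_atTop_of_monotone f.strictMono.monotone
  intro b
  exact ⟨f⁻¹ b, by simp⟩

theorem tendsto_atBot (f : Dif) : Tendsto (fun x => f x) atBot atBot := by
  apply tendsto_atBot_atBot_of_monotone f.strictMono.monotone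
  intro b
  exact ⟨f⁻¹ b, by simp⟩

/-- A function locally equal to elements of `Dif` everywhere, and unbounded in both directions. -/
theorem exists_dif_of_local (ψ : ℝ → ℝ) (hloc : ∀ x, ∃ h : Dif, ψ =ᶠ[𝓝 x] fun y => h y)
    (htop : ∀ b, ∃ a, b ≤ ψ a) (hbot : ∀ b, ∃ a, ψ a ≤ b) : ∃ f : Dif, ∀ x, f x = ψ x := by
  have hsm : ContDiff ℝ ∞ ψ := by
    rw [contDiff_iff_contDiffAt]
    intro x
    obtain ⟨h, hh⟩ := hloc x
    exact h.contDiff.contDiffAt.congr_of_eventuallyEq hh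
  have hpos : ∀ x, 0 < deriv ψ x := by
    intro x
    obtain ⟨h, hh⟩ := hloc x
    rw [hh.deriv_eq]
    exact h.deriv_pos x
  have hmono : StrictMono ψ := strictMono_of_deriv_pos hpos
  exact ⟨Dif.ofPos ψ hsm hpos (tendsto_atTop_atTop_of_monotone hmono.monotone htop)
    (tendsto_atBot_atBot_of_monotone hmono.monotone hbot), fun x => rfl⟩

/-- Extension from a fundamental domain. -/
theorem extension (T₁ ψ₁ : Dif) (hT : ∀ x, x < T₁ x) (d : ℝ) (hd : 0 < d)
    (h : ∀ x, |x| < d → ψ₁ (T₁ x) = ψ₁ x + 1) :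
    ∃ ψ : Dif, (∀ x, ψ (T₁ x) = ψ x + 1) ∧ ∀ (c : ℤ) (x : ℝ), (T₁ ^ c) 0 ≤ x →
      x < (T₁ ^ (c + 1)) 0 → (fun y => ψ y) =ᶠ[𝓝 x] fun y => (T ^ c * ψ₁ * T₁ ^ (-c)) y := by
  classical
  choose N hN1 hN2 using fun x => exists_index hT 0 x
  let ψ : ℝ → ℝ := fun x => (T ^ (N x) * ψ₁ * T₁ ^ (-(N x))) x
  have key : ∀ (c : ℤ) (y : ℝ), |(T₁ ^ (-c)) y| < d →
      (T ^ (c - 1) * ψ₁ * T₁ ^ (-(c - 1))) y = (T ^ c * ψ₁ * T₁ ^ (-c)) y := by
    intro c y hy
    have e1 : (T₁ ^ (-(c - 1))) y = T₁ ((T₁ ^ (-c)) y) := by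
      rw [← zpow_add_one_apply]; congr 1; ring_nf
    simp only [Dif.mul_apply, T_zpow_apply, e1, h _ hy]
    push_cast; ring
  have hloc : ∀ (c : ℤ) (x : ℝ), (T₁ ^ c) 0 ≤ x → x < (T₁ ^ (c + 1)) 0 →
      ψ =ᶠ[𝓝 x] fun y => (T ^ c * ψ₁ * T₁ ^ (-c)) y := by
    intro c x h1 h2
    have hev1 : ∀ᶠ y in 𝓝 x, y < (T₁ ^ (c + 1)) 0 := gt_mem_nhds h2
    rcases h1.lt_or_eq with h1 | h1
    · filter_upwards [hev1, lt_mem_nhds h1] with y hy1 hy2
      have : N y = c := index_unique hT (hN1 y) (hN2 y) hy2.le hy1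
      show (T ^ (N y) * ψ₁ * T₁ ^ (-(N y))) y = _
      rw [this]
    · have hc : Continuous (fun y => (T₁ ^ (-c)) y) := (T₁ ^ (-c)).continuous
      have hz : (T₁ ^ (-c)) x = 0 := by
        rw [← h1, zpow_neg, Dif.inv_apply_self]
      have hev2 : ∀ᶠ y in 𝓝 x, |(T₁ ^ (-c)) y| < d := by
        have : Tendsto (fun y => |(T₁ ^ (-c)) y|) (𝓝 x) (𝓝 |(T₁ ^ (-c)) x|) :=
          (hc.tendsto x).abs
        rw [hz, abs_zero] at this
        exact this.eventually (gt_mem_nhds hd)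
      have hev3 : ∀ᶠ y in 𝓝 x, (T₁ ^ (c - 1)) 0 < y := by
        apply lt_mem_nhds
        rw [← h1]
        exact strictMono_zpow hT 0 (by omega)
      filter_upwards [hev1, hev2, hev3] with y hy1 hy2 hy3
      by_cases hxy : x ≤ y
      · have : N y = c := index_unique hT (hN1 y) (hN2 y) (h1 ▸ hxy) hy1
        show (T ^ (N y) * ψ₁ * T₁ ^ (-(N y))) y = _
        rw [this]
      · push Not at hxy
        have : N y = c - 1 := index_unique hT (hN1 y) (hN2 y) hy3.le (by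
          rw [sub_add_cancel, h1]; exact hxy)
        show (T ^ (N y) * ψ₁ * T₁ ^ (-(N y))) y = _
        rw [this]
        exact key c y hy2
  have hval : ∀ c : ℤ, ψ ((T₁ ^ c) 0) = ψ₁ 0 + c := by
    intro c
    have : N ((T₁ ^ c) 0) = c := index_unique hT (hN1 _) (hN2 _) le_rfl
      (strictMono_zpow hT 0 (by omega))
    show (T ^ (N ((T₁ ^ c) 0)) * ψ₁ * T₁ ^ (-(N ((T₁ ^ c) 0)))) ((T₁ ^ c) 0) = _
    rw [this]
    simp [zpow_neg]
  obtain ⟨f, hf⟩ := exists_dif_of_local ψ (fun x => ⟨_, hloc (N x) x (hN1 x) (hN2 x)⟩)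
    (fun b => ⟨(T₁ ^ ⌈b - ψ₁ 0⌉) 0, by
      rw [hval]; have := Int.le_ceil (b - ψ₁ 0); linarith⟩)
    (fun b => ⟨(T₁ ^ ⌊b - ψ₁ 0⌋) 0, by
      rw [hval]; have := Int.floor_le (b - ψ₁ 0); linarith⟩)
  have hfψ : (fun y => f y) = ψ := funext hf
  refine ⟨f, ?_, ?_⟩
  · intro x
    rw [hf, hf]
    have : N (T₁ x) = N x + 1 := by
      refine index_unique hT (hN1 _) (hN2 _) ?_ ?_
      · rw [zpow_add_one_apply, T₁.le_iff]; exact hN1 x
      · rw [zpow_add_one_apply, T₁.lt_iff]; exact hN2 x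
    show (T ^ (N (T₁ x)) * ψ₁ * T₁ ^ (-(N (T₁ x)))) (T₁ x) = _
    rw [this]
    have e1 : (T₁ ^ (-(N x + 1))) (T₁ x) = (T₁ ^ (-(N x))) x := by
      rw [← zpow_add_one_apply']; congr 1; ring_nf
    show _ = (T ^ (N x) * ψ₁ * T₁ ^ (-(N x))) x + 1
    simp only [Dif.mul_apply, T_zpow_apply, e1]
    push_cast; ring
  · intro c x h1 h2
    rw [hfψ]
    exact hloc c x h1 h2

/-! ### The first conjugacy -/

theorem CC_zpow {ι : Type*} {p : Filter ι} {r : ℕ} {Tn : ι → Dif} {R : ℝ}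
    (hT : ∀ x ∈ Ioo (-R) R, CC r p (fun i => Tn i) T x) (c : ℕ) :
    ∀ x : ℝ, |x| + c + 1 < R → CC r p (fun i => (Tn i ^ (c : ℤ) : Dif)) (T ^ (c : ℤ) : Dif) x ∧
      CC r p (fun i => (Tn i ^ (-(c : ℤ)) : Dif)) (T ^ (-(c : ℤ)) : Dif) x := by
  induction c with
  | zero =>
    intro x _
    simp only [Nat.cast_zero, zpow_zero, neg_zero]
    exact ⟨Dif.CC_const 1 x, Dif.CC_const 1 x⟩
  | succ c ih =>
    intro x hx
    push_cast at hx ⊢
    have hc : (0 : ℝ) ≤ c := Nat.cast_nonneg c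
    obtain ⟨i1, i2⟩ := ih x (by linarith)
    have hx1 := abs_lt.1 (show |x| < R - c - 2 by linarith)
    constructor
    · have e : ∀ f : Dif, f ^ ((c : ℤ) + 1) = f * f ^ (c : ℤ) := by
        intro f; rw [add_comm, zpow_add, zpow_one]
      simp only [e]
      apply Dif.CC_mul _ i1
      apply hT
      rw [T_zpow_apply]
      push_cast
      constructor <;> linarith [hx1.1, hx1.2]
    · have e : ∀ f : Dif, f ^ (-((c : ℤ) + 1)) = f⁻¹ * f ^ (-(c : ℤ)) := by
        intro f; rw [neg_add, add_comm, zpow_add, zpow_neg_one]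
      simp only [e]
      refine Dif.CC_mul ?_ i2
      apply Dif.CC_inv isOpen_Ioo hT
      have e2 : T⁻¹ ((T ^ (-(c : ℤ))) x) = x - c - 1 := by
        rw [← Dif.mul_apply, ← zpow_neg_one, ← zpow_add, T_zpow_apply]
        push_cast; ring
      rw [e2]
      constructor <;> linarith [hx1.1, hx1.2]

/-- the cutoff -/
noncomputable def chi (x : ℝ) : ℝ := Real.smoothTransition (2 * x - 1 / 2)

theorem chi_contDiff : ContDiff ℝ ∞ chi :=
  Real.smoothTransition.contDiff.comp ((contDiff_const.mul contDiff_id).sub contDiff_const)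

theorem chi_zero {x : ℝ} (hx : x ≤ 1 / 4) : chi x = 0 :=
  Real.smoothTransition.zero_of_nonpos (by linarith)

theorem chi_one {x : ℝ} (hx : 3 / 4 ≤ x) : chi x = 1 :=
  Real.smoothTransition.one_of_one_le (by linarith)

/-- the map which is the identity near `0` and `T₁⁻¹ x + 1` near `1`. -/
noncomputable def pre (T₁ : Dif) (x : ℝ) : ℝ := x + chi x * (T₁⁻¹ x + (1 - x))

theorem pre_contDiff (T₁ : Dif) : ContDiff ℝ ∞ (pre T₁) :=
  contDiff_id.add (chi_contDiff.mul ((T₁⁻¹).contDiff.add (contDiff_const.sub contDiff_id)))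

theorem pre_of_le {T₁ : Dif} {x : ℝ} (hx : x ≤ 1 / 4) : pre T₁ x = x := by
  simp [pre, chi_zero hx]

theorem pre_of_ge {T₁ : Dif} {x : ℝ} (hx : 3 / 4 ≤ x) : pre T₁ x = T₁⁻¹ x + 1 := by
  simp only [pre, chi_one hx]; ring

theorem exists_pre (T₁ : Dif) (h : ∀ y ∈ Icc (1 / 4 : ℝ) (3 / 4), 0 < deriv (pre T₁) y) :
    ∃ ψ : Dif, (fun x => ψ x) = pre T₁ := by
  have hpos : ∀ x, 0 < deriv (pre T₁) x := by
    intro x
    rcases lt_or_ge x (1 / 4) with hx | hx
    · have : pre T₁ =ᶠ[𝓝 x] fun y => y := by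
        filter_upwards [gt_mem_nhds hx] with y hy using pre_of_le hy.le
      rw [this.deriv_eq]; simp
    · rcases le_or_gt x (3 / 4) with hx' | hx'
      · exact h x ⟨hx, hx'⟩
      · have : pre T₁ =ᶠ[𝓝 x] fun y => T₁⁻¹ y + 1 := by
          filter_upwards [lt_mem_nhds hx'] with y hy using pre_of_ge hy.le
        rw [this.deriv_eq, deriv_add_const]
        exact (T₁⁻¹).deriv_pos x
  refine ⟨Dif.ofPos (pre T₁) (pre_contDiff T₁) hpos ?_ ?_, rfl⟩
  · have h1 : Tendsto (fun x => T₁⁻¹ x + 1) atTop atTop :=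
      tendsto_atTop_add_const_right _ _ (tendsto_atTop T₁⁻¹)
    refine h1.congr' ?_
    filter_upwards [eventually_ge_atTop (3 / 4 : ℝ)] with x hx using (pre_of_ge hx).symm
  · refine tendsto_id.congr' ?_
    filter_upwards [eventually_le_atBot (1 / 4 : ℝ)] with x hx using (pre_of_le hx).symm

theorem CC_pre {ι : Type*} {p : Filter ι} {r : ℕ} {Tn : ι → Dif} {R : ℝ}
    (hT : ∀ x ∈ Ioo (-R) R, CC r p (fun i => Tn i) T x) {x : ℝ} (hx : |x| + 1 < R) :
    CC r p (fun i => pre (Tn i)) (fun y => y) x := by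
  have h1 : CC r p (fun i => ((Tn i)⁻¹ : Dif)) (T⁻¹ : Dif) x := by
    apply Dif.CC_inv isOpen_Ioo hT
    have : T⁻¹ x = x - 1 := by
      rw [← zpow_neg_one, T_zpow_apply]; push_cast; ring
    rw [this]
    have := abs_lt.1 (show |x| < R - 1 by linarith)
    constructor <;> linarith [this.1, this.2]
  have s1 : ContDiff ℝ ∞ (fun y : ℝ => 1 - y) := contDiff_const.sub contDiff_id
  have h2 : CC r p (fun i y => (Tn i)⁻¹ y + (1 - y)) (fun y => T⁻¹ y + (1 - y)) x :=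
    CC.add (fun i => ((Tn i)⁻¹).contDiff) (fun _ => s1) (T⁻¹).contDiff s1 h1 (CC.const_fun s1)
  have h3 : CC r p (fun i y => chi y * ((Tn i)⁻¹ y + (1 - y)))
      (fun y => chi y * (T⁻¹ y + (1 - y))) x :=
    CC.mul (fun _ => chi_contDiff) (fun i => ((Tn i)⁻¹).contDiff.add s1) chi_contDiff
      ((T⁻¹).contDiff.add s1) (CC.const_fun chi_contDiff) h2
  have h4 : CC r p (fun i y => y + chi y * ((Tn i)⁻¹ y + (1 - y)))
      (fun y => y + chi y * (T⁻¹ y + (1 - y))) x :=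
    CC.add (fun _ => contDiff_id) (fun i => chi_contDiff.mul (((Tn i)⁻¹).contDiff.add s1))
      contDiff_id (chi_contDiff.mul ((T⁻¹).contDiff.add s1)) (CC.const_fun contDiff_id) h3
  refine h4.congr_right (Eventually.of_forall (fun y => ?_))
  have : T⁻¹ y = y - 1 := by
    rw [← zpow_neg_one, T_zpow_apply]; push_cast; ring
  show y + chi y * (T⁻¹ y + (1 - y)) = y
  rw [this]; ring

/-- The conjugacies `ψ n` of `Tn n` to `T`, for large `n`. -/
theorem exists_conj {r : ℕ} {Tn : ℕ → Dif} {R : ℝ} (hR : 4 < R) (hr : 1 ≤ r)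
    (hT : ∀ x ∈ Ioo (-R) R, CC r atTop (fun i => Tn i) T x) (hTn : ∀ n x, x < Tn n x) :
    ∃ ψ : ℕ → Dif, (∀ᶠ n in atTop, ∀ x, ψ n (Tn n x) = ψ n x + 1) ∧
      ∀ x, |x| + 4 < R → |x| + |x| + 4 < R → CC r atTop (fun n => ψ n) (fun y => y) x := by
  classical
  -- the good indices
  have hgood : ∀ᶠ n in atTop, ∀ y ∈ Icc (1 / 4 : ℝ) (3 / 4), 0 < deriv (pre (Tn n)) y := by
    have h1 := CC.near (r := r) (p := atTop) (f := fun n => pre (Tn n)) (g := fun y : ℝ => y)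
      contDiff_id (isCompact_Icc (a := (1 / 4 : ℝ)) (b := 3 / 4)) (fun x hx => CC_pre hT (by
        rw [abs_of_nonneg (by linarith [hx.1])]; linarith [hx.2])) (ε := 1 / 2) (by norm_num)
    filter_upwards [h1] with n hn y hy
    have h2 := hn y hy 1 hr
    rw [iteratedDeriv_one, iteratedDeriv_one] at h2
    have h3 : deriv (fun y : ℝ => y) y = 1 := by simp
    rw [h3] at h2
    have := (abs_lt.1 h2).1
    linarith
  have hT34 : ∀ᶠ n in atTop, ∀ x ∈ Icc (-(1 / 8) : ℝ) (1 / 8), 3 / 4 ≤ Tn n x := by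
    have h1 := CC.near (r := r) (p := atTop) (f := fun n => fun y => Tn n y)
      (g := fun y => T y) T.contDiff (isCompact_Icc (a := (-(1 / 8) : ℝ)) (b := 1 / 8))
      (fun x hx => hT x (by constructor <;> linarith [hx.1, hx.2])) (ε := 1 / 8) (by norm_num)
    filter_upwards [h1] with n hn x hx
    have h2 := hn x hx 0 (Nat.zero_le _)
    simp only [iteratedDeriv_zero, T_apply] at h2
    have := (abs_lt.1 h2).1
    linarith [hx.1]
  let good : ℕ → Prop := fun n => (∀ y ∈ Icc (1 / 4 : ℝ) (3 / 4), 0 < deriv (pre (Tn n)) y) ∧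
    ∀ x ∈ Icc (-(1 / 8) : ℝ) (1 / 8), 3 / 4 ≤ Tn n x
  have hgood' : ∀ᶠ n in atTop, good n := hgood.and hT34
  have hex : ∀ n, ∃ P : Dif × Dif, good n → ((fun x => P.1 x) = pre (Tn n) ∧
      (∀ x, P.2 (Tn n x) = P.2 x + 1) ∧ ∀ (c : ℤ) (x : ℝ), (Tn n ^ c) 0 ≤ x →
      x < (Tn n ^ (c + 1)) 0 →
        (fun y => P.2 y) =ᶠ[𝓝 x] fun y => (T ^ c * P.1 * Tn n ^ (-c)) y) := by
    intro n
    by_cases hn : good n
    · obtain ⟨ψ₁, hψ₁⟩ := exists_pre (Tn n) hn.1
      obtain ⟨ψ, h1, h2⟩ := extension (Tn n) ψ₁ (hTn n) (1 / 8) (by norm_num) (by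
        intro x hx
        have hx' := abs_lt.1 hx
        have e1 : ψ₁ (Tn n x) = pre (Tn n) (Tn n x) := congrFun hψ₁ _
        have e2 : ψ₁ x = pre (Tn n) x := congrFun hψ₁ _
        rw [e1, e2, pre_of_ge (hn.2 x ⟨by linarith, by linarith⟩),
          pre_of_le (show x ≤ 1 / 4 by linarith)]
        simp)
      exact ⟨(ψ₁, ψ), fun _ => ⟨hψ₁, h1, h2⟩⟩
    · exact ⟨(1, 1), fun h => absurd h hn⟩
  choose P hP using hex
  refine ⟨fun n => (P n).2, ?_, ?_⟩
  · filter_upwards [hgood'] with n hn using (hP n hn).2.1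
  · intro x hx4 hx
    have cpsi : ∀ y, |y| + 1 < R → CC r atTop (fun n => (P n).1) (fun y => (1 : Dif) y) y := by
      intro y hy
      have h1 : CC r atTop (fun n => pre (Tn n)) (fun y => y) y := CC_pre hT hy
      refine CC.congr_left (f := fun n => pre (Tn n)) h1 ?_
      have h2 : ∀ᶠ q : ℕ × ℝ in atTop ×ˢ 𝓝 y, good q.1 := hgood'.prod_inl _
      filter_upwards [h2] with q hq
      rw [← (hP q.1 hq).1]
    set m : ℤ := ⌊x⌋ with hm
    have hm1 : (m : ℝ) ≤ x := Int.floor_le x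
    have hm2 : x < m + 1 := Int.lt_floor_add_one x
    -- the powers
    have hpow : ∀ c : ℤ, |(c : ℝ)| ≤ |x| + 2 → ∀ y : ℝ, |y| ≤ |x| →
        CC r atTop (fun n => (Tn n ^ c : Dif)) (T ^ c : Dif) y := by
      intro c hc y hy
      rcases Int.eq_nat_or_neg c with ⟨n, hn | hn⟩
      · subst hn
        refine (CC_zpow hT n y ?_).1
        have : |((n : ℤ) : ℝ)| = n := by simp
        rw [this] at hc
        linarith
      · subst hn
        refine (CC_zpow hT n y ?_).2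
        have : |((-(n : ℤ) : ℤ) : ℝ)| = n := by simp
        rw [this] at hc
        linarith
    have habsm : ∀ c : ℤ, m - 1 ≤ c → c ≤ m + 2 → |(c : ℝ)| ≤ |x| + 2 := by
      intro c h1 h2
      have h1' : (m : ℝ) - 1 ≤ c := by exact_mod_cast h1
      have h2' : (c : ℝ) ≤ m + 2 := by exact_mod_cast h2
      rw [abs_le]
      constructor
      · have := neg_abs_le x; linarith
      · have := le_abs_self x; linarith
    have hlim : ∀ c : ℤ, m - 1 ≤ c → c ≤ m + 2 →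
        Tendsto (fun n => (Tn n ^ c) 0) atTop (𝓝 (c : ℝ)) := by
      intro c h1 h2
      have h3 := (hpow c (habsm c h1 h2) 0 (by simp)).tendsto
      have h4 : Tendsto (fun n : ℕ => ((n, 0) : ℕ × ℝ)) atTop (atTop ×ˢ 𝓝 0) :=
        tendsto_id.prodMk tendsto_const_nhds
      have h5 : Tendsto (fun n => (Tn n ^ c) 0) atTop (𝓝 ((T ^ c) 0)) := h3.comp h4
      rw [T_zpow_apply, zero_add] at h5
      exact h5
    have hev : ∀ᶠ q : ℕ × ℝ in atTop ×ˢ 𝓝 x,
        (Tn q.1 ^ (m - 1)) 0 < q.2 ∧ q.2 < (Tn q.1 ^ (m + 2)) 0 := by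
      have l1 := hlim (m - 1) le_rfl (by omega)
      have l2 := hlim (m + 2) (by omega) le_rfl
      push_cast at l1 l2
      have a1 : ∀ᶠ n in atTop, (Tn n ^ (m - 1)) 0 < m - 1 / 2 :=
        l1.eventually (gt_mem_nhds (by linarith))
      have a2 : ∀ᶠ n in atTop, (m : ℝ) + 3 / 2 < (Tn n ^ (m + 2)) 0 :=
        l2.eventually (lt_mem_nhds (by linarith))
      have b1 : ∀ᶠ y in 𝓝 x, (m : ℝ) - 1 / 2 < y := lt_mem_nhds (by linarith)
      have b2 : ∀ᶠ y in 𝓝 x, y < (m : ℝ) + 3 / 2 := gt_mem_nhds (by linarith)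
      filter_upwards [(a1.and a2).prod_mk (b1.and b2)] with q hq
      exact ⟨hq.1.1.trans hq.2.1, hq.2.2.trans hq.1.2⟩
    refine CC.of_finite (κ := ℤ)
      (h := fun c n y => (T ^ c * (P n).1 * Tn n ^ (-c)) y) (Finset.Icc (m - 1) (m + 1)) ?_ ?_
    · intro c hc
      rw [Finset.mem_Icc] at hc
      have hc1 : (m : ℝ) - 1 ≤ c := by exact_mod_cast hc.1
      have hc2 : (c : ℝ) ≤ m + 1 := by exact_mod_cast hc.2
      have h1 : CC r atTop (fun n => (Tn n ^ (-c) : Dif)) (T ^ (-c) : Dif) x := by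
        apply hpow _ _ x le_rfl
        have := habsm c hc.1 (by omega)
        push_cast
        rwa [abs_neg]
      have h2 : CC r atTop (fun n => (P n).1) (fun y => (1 : Dif) y) ((T ^ (-c) : Dif) x) := by
        apply cpsi
        rw [T_zpow_apply]
        push_cast
        have : |x + -(c : ℝ)| ≤ 2 := by
          rw [abs_le]; constructor <;> linarith
        linarith
      have h3 := Dif.CC_mul (f := fun n => (P n).1) (f' := fun n => Tn n ^ (-c)) h2 h1
      have h4 := Dif.CC_mul (f := fun _ => T ^ c) (f' := fun n => (P n).1 * Tn n ^ (-c))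
        (g := T ^ c) (g' := 1 * T ^ (-c)) (Dif.CC_const _ _) h3
      have h5 : (T ^ c * (1 * T ^ (-c)) : Dif) = 1 := by
        rw [one_mul, ← zpow_add, add_neg_cancel, zpow_zero]
      rw [h5] at h4
      simp only [mul_assoc]
      exact h4
    · filter_upwards [hev, hgood'.prod_inl (𝓝 x)] with q hq hg
      obtain ⟨c, hc1, hc2⟩ := exists_index (hTn q.1) 0 q.2
      refine ⟨c, ?_, (hP q.1 hg).2.2 c q.2 hc1 hc2⟩
      have hmono := strictMono_zpow (hTn q.1) 0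
      have i1 : m - 1 < c + 1 := by
        rw [← hmono.lt_iff_lt]; exact hq.1.trans hc2
      have i2 : c < m + 2 := by
        rw [← hmono.lt_iff_lt]; exact lt_of_le_of_lt hc1 hq.2
      rw [Finset.mem_Icc]
      omega

/-! ### The additive constant of commutation vanishes -/

/-- as a circle map of degree one -/
def lift (f : Dif) (h : ∀ x, f (x + 1) = f x + 1) : CircleDeg1Lift :=
  ⟨⟨fun x => f x, f.strictMono.monotone⟩, h⟩

theorem const_eq_zero {f g : Dif} (hf : ∀ x, f (x + 1) = f x + 1)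
    (hg : ∀ x, g (x + 1) = g x + 1) {k : ℤ} (h : ∀ x, f (g x) = g (f x) + k) : k = 0 := by
  let t : CircleDeg1Lift := (CircleDeg1Lift.translate (Multiplicative.ofAdd (k : ℝ)) : _)
  have ht : ∀ x, t x = k + x := fun x => rfl
  have h1 : Function.Semiconj (lift f hf) (lift g hg) (t * lift g hg : CircleDeg1Lift) := by
    intro x
    show f (g x) = k + g (f x)
    rw [h x, add_comm]
  have h2 := CircleDeg1Lift.translationNumber_eq_of_semiconj h1
  have h3 : Commute t (lift g hg) := by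
    rw [CircleDeg1Lift.commute_iff_commute]
    intro x
    rw [ht, ht, CircleDeg1Lift.map_int_add]
  rw [CircleDeg1Lift.translationNumber_mul_of_commute h3,
    CircleDeg1Lift.translationNumber_translate] at h2
  have : (k : ℝ) = 0 := by linarith
  exact_mod_cast this

/-! ### Periodicity -/

theorem iteratedDeriv_periodic {f g : ℝ → ℝ} (hf : ContDiff ℝ ∞ f) (hg : ContDiff ℝ ∞ g)
    (h1 : ∀ x, f (x + 1) = f x + 1) (h2 : ∀ x, g (x + 1) = g x + 1) (k : ℕ) (x : ℝ) (m : ℤ) :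
    iteratedDeriv k f (x + m) - iteratedDeriv k g (x + m)
      = iteratedDeriv k f x - iteratedDeriv k g x := by
  have hper : Function.Periodic (fun y => f y - g y) 1 := by
    intro y
    show f (y + 1) - g (y + 1) = f y - g y
    rw [h1, h2]; ring
  have hper' : (fun y => f (y + m) - g (y + m)) = fun y => f y - g y := by
    funext y
    have := hper.int_mul m y
    simpa using this
  have e : ∀ y, iteratedDeriv k f y - iteratedDeriv k g y
      = iteratedDeriv k (fun y => f y - g y) y := by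
    intro y
    exact (iteratedDeriv_fun_sub (hf.contDiffAt.of_le (by exact_mod_cast le_top))
      (hg.contDiffAt.of_le (by exact_mod_cast le_top))).symm
  rw [e, e]
  have := congrFun (iteratedDeriv_comp_add_const k (fun y => f y - g y) (m : ℝ)) x
  rw [hper'] at this
  exact this.symm

/-! ### Building elements of `AllDif` -/

theorem exists_dif_of_deg {H : ℝ → ℝ} (hH : ContDiff ℝ ∞ H) (h1 : ∀ x, H (x + 1) = H x + 1)
    (hd : ∀ x, 0 < deriv H x) : ∃ f : Dif, ∀ x, f x = H x := by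
  have hmono : StrictMono H := strictMono_of_deriv_pos hd
  have hint : ∀ n : ℤ, H n = H 0 + n := by
    intro n
    have hper : Function.Periodic (fun y => H y - y) 1 := by
      intro y
      show H (y + 1) - (y + 1) = H y - y
      rw [h1]; ring
    have := hper.int_mul n 0
    simp only [mul_one, zero_add, sub_zero] at this
    linarith
  exact ⟨Dif.ofPos H hH hd
    (tendsto_atTop_atTop_of_monotone hmono.monotone (fun b => ⟨(⌈b - H 0⌉ : ℤ), by
      rw [hint]; have := Int.le_ceil (b - H 0); linarith⟩))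
    (tendsto_atBot_atBot_of_monotone hmono.monotone (fun b => ⟨(⌊b - H 0⌋ : ℤ), by
      rw [hint]; have := Int.floor_le (b - H 0); linarith⟩)), fun x => rfl⟩

theorem neg_mem_allDif : (Equiv.neg ℝ : Equiv.Perm ℝ) ∈ AllDif := by
  constructor
  · exact contDiff_neg
  · exact contDiff_neg

theorem exists_allDif {H : ℝ → ℝ} (hH : ContDiff ℝ ∞ H)
    (h1 : (∀ x, H (x + 1) = H x + 1) ∨ (∀ x, H (x + 1) = H x - 1))
    (hd : ∀ x, deriv H x ≠ 0) : ∃ K : Equiv.Perm ℝ, K ∈ AllDif ∧ ∀ x, K x = H x := by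
  have hc : Continuous (deriv H) := (contDiff_infty_iff_deriv.1 hH).2.continuous
  have key : ∀ H : ℝ → ℝ, ContDiff ℝ ∞ H → (∀ x, H (x + 1) = H x + 1) →
      (∀ x, deriv H x ≠ 0) → Continuous (deriv H) → ∃ f : Dif, ∀ x, f x = H x := by
    intro H hH h1 hd hc
    apply exists_dif_of_deg hH h1
    intro x
    by_contra hcon
    push Not at hcon
    obtain ⟨c, -, hc1⟩ := exists_deriv_eq_slope H (show (0 : ℝ) < 1 by norm_num)
      hH.continuous.continuousOn (hH.differentiable (by simp)).differentiableOn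
    have h2 : deriv H c = 1 := by
      rw [hc1]
      have := h1 0
      rw [zero_add] at this
      rw [this]; ring
    obtain ⟨y, hy⟩ := mem_range_of_exists_le_of_exists_ge hc ⟨x, hcon⟩ ⟨c, by rw [h2]; norm_num⟩
    exact hd y hy
  rcases h1 with h1 | h1
  · obtain ⟨f, hf⟩ := key H hH h1 hd hc
    exact ⟨f.toPerm, f.2.1, hf⟩
  · have hn : deriv (fun x => - H x) = fun x => - deriv H x := by
      funext x; exact deriv.fun_neg
    obtain ⟨f, hf⟩ := key (fun x => - H x) hH.neg (fun x => by rw [h1]; ring)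
      (fun x => by rw [hn]; simpa using hd x) (by rw [hn]; exact hc.neg)
    refine ⟨Equiv.neg ℝ * f.toPerm, mul_mem neg_mem_allDif f.2.1, fun x => ?_⟩
    show - f x = H x
    rw [hf]; ring

/-! ### The main argument -/

theorem stable_of_frozen {F G : Dif} (hFT : Commute F T) (hGT : Commute G T)
    {r : ℕ} {ε : ℝ} (hε : 0 < ε)
    (hstab : ∀ F' G' : ℝ → ℝ,
        ContDiff ℝ ((⊤ : ℕ∞) : WithTop ℕ∞) F' → (∀ x : ℝ, F' (x + 1) = F' x + 1) →
        (∀ x : ℝ, 0 < deriv F' x) →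
        ContDiff ℝ ((⊤ : ℕ∞) : WithTop ℕ∞) G' → (∀ x : ℝ, G' (x + 1) = G' x + 1) →
        (∀ x : ℝ, 0 < deriv G' x) →
        (∃ k : ℤ, ∀ x : ℝ, F' (G' x) = G' (F' x) + (k : ℝ)) →
        (∀ i : ℕ, i ≤ r → ∀ x : ℝ,
          |iteratedDeriv i F' x - iteratedDeriv i F x| < ε ∧
          |iteratedDeriv i G' x - iteratedDeriv i G x| < ε) →
        ∃ H : ℝ → ℝ, ContDiff ℝ ((⊤ : ℕ∞) : WithTop ℕ∞) H ∧
          ((∀ x : ℝ, H (x + 1) = H x + 1) ∨ (∀ x : ℝ, H (x + 1) = H x - 1)) ∧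
          (∀ x : ℝ, deriv H x ≠ 0) ∧
          (∃ j : ℤ, ∀ x : ℝ, H (F' x) = F (H x) + (j : ℝ)) ∧
          (∃ j : ℤ, ∀ x : ℝ, H (G' x) = G (H x) + (j : ℝ))) : Stable F G := by
  set R : ℝ := 2 * (|F 0| + |G 0|) + 20 with hR
  have hF0 := abs_nonneg (F 0)
  have hG0 := abs_nonneg (G 0)
  refine ⟨r + 1, R, ?_⟩
  by_contra hcon
  push Not at hcon
  have hδ : ∀ n : ℕ, (0 : ℝ) < 1 / (n + 1) := fun n => by positivity
  choose Fn Gn Tn cFG cFT cGT hTn nF nG nT hconj using fun n : ℕ => hcon (1 / (n + 1)) (hδ n)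
  have hlim : ∀ η > (0 : ℝ), ∀ᶠ n : ℕ in atTop, (1 : ℝ) / (n + 1) ≤ η := by
    intro η hη
    have := tendsto_one_div_add_atTop_nhds_zero_nat (𝕜 := ℝ)
    filter_upwards [this.eventually (gt_mem_nhds hη)] with n hn using hn.le
  have hcc : ∀ (f : ℕ → Dif) (g : Dif), (∀ n : ℕ, Near (r + 1) (1 / (n + 1)) R (f n) g) →
      ∀ x ∈ Ioo (-R) R, CC (r + 1) atTop (fun n => f n) g x := by
    intro f g hfg x hx
    refine CC.of_near g.contDiff isOpen_Ioo (fun η hη => ?_) hx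
    filter_upwards [hlim η hη] with n hn k hk y hy
    exact (hfg n k hk y ⟨hy.1.le, hy.2.le⟩).trans hn
  have ccF := hcc Fn F nF
  have ccG := hcc Gn G nG
  have ccT := hcc Tn T nT
  obtain ⟨ψ, hψ1, hψ2⟩ := exists_conj (r := r + 1) (Tn := Tn) (R := R) (by linarith) (by omega)
    ccT hTn
  -- closeness of the conjugated maps
  have hper : ∀ f : Dif, Commute f T → ∀ x, f (x + 1) = f x + 1 := by
    intro f hf x
    have := Dif.comm_apply hf x
    simpa using this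
  have close : ∀ (f : ℕ → Dif) (g : Dif), (∀ n, Commute (f n) (Tn n)) → Commute g T →
      |g 0| ≤ |F 0| + |G 0| →
      (∀ x ∈ Ioo (-R) R, CC (r + 1) atTop (fun n => f n) g x) →
      ∀ᶠ n in atTop, Commute (ψ n * f n * (ψ n)⁻¹) T ∧ ∀ k ≤ r, ∀ x,
        |iteratedDeriv k (ψ n * f n * (ψ n)⁻¹ : Dif) x - iteratedDeriv k g x| < ε := by
    intro f g hfT hgT hg0 hcc
    have hg1 := hper g hgT
    have c1 : ∀ x ∈ Icc (0 : ℝ) 1,
        CC (r + 1) atTop (fun n => (ψ n * f n * (ψ n)⁻¹ : Dif)) g x := by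
      intro x hx
      have i1 : CC (r + 1) atTop (fun n => ((ψ n)⁻¹ : Dif)) ((1 : Dif)⁻¹ : Dif) x := by
        refine Dif.CC_inv (g := 1) (U := Ioo (-2) 2) isOpen_Ioo ?_ ?_
        · intro y hy
          have : |y| < 2 := abs_lt.2 hy
          exact hψ2 y (by linarith) (by linarith)
        · rw [inv_one, Dif.one_apply]
          constructor <;> linarith [hx.1, hx.2]
      rw [inv_one] at i1
      have i2 : CC (r + 1) atTop (fun n => f n) g ((1 : Dif) x) := by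
        apply hcc
        rw [Dif.one_apply]
        constructor <;> linarith [hx.1, hx.2]
      have i3 := Dif.CC_mul i2 i1
      rw [mul_one] at i3
      have hgx : |g x| ≤ |F 0| + |G 0| + 1 := by
        have a1 : g 0 ≤ g x := g.le_iff.2 hx.1
        have a2 : g x ≤ g (0 + 1) := g.le_iff.2 (by linarith [hx.2])
        rw [hg1] at a2
        have := abs_le.1 hg0
        rw [abs_le]
        constructor <;> linarith [this.1, this.2]
      have i4 : CC (r + 1) atTop (fun n => ψ n) (1 : Dif) (g x) :=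
        hψ2 (g x) (by linarith) (by linarith)
      have i5 := Dif.CC_mul i4 i3
      rw [one_mul] at i5
      simpa only [mul_assoc] using i5
    have c2 := CC.near g.contDiff (isCompact_Icc (a := (0 : ℝ)) (b := 1)) c1 hε
    filter_upwards [c2, hψ1] with n hn hψn
    have hcT : ψ n * Tn n = T * ψ n := by
      ext x; exact hψn x
    have hcT' : (ψ n)⁻¹ * T = Tn n * (ψ n)⁻¹ := by
      rw [inv_mul_eq_iff_eq_mul, ← mul_assoc, hcT, mul_assoc, mul_inv_cancel, mul_one]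
    have hcomm : Commute (ψ n * f n * (ψ n)⁻¹) T := by
      show ψ n * f n * (ψ n)⁻¹ * T = T * (ψ n * f n * (ψ n)⁻¹)
      rw [mul_assoc, hcT', ← mul_assoc, mul_assoc (ψ n), (hfT n).eq, ← mul_assoc, hcT]
      simp only [mul_assoc]
    refine ⟨hcomm, fun k hk x => ?_⟩
    have h3 := iteratedDeriv_periodic (ψ n * f n * (ψ n)⁻¹).contDiff g.contDiff
      (hper _ hcomm) hg1 k (Int.fract x) ⌊x⌋
    rw [Int.fract_add_floor] at h3
    rw [h3]
    exact hn _ ⟨Int.fract_nonneg x, (Int.fract_lt_one x).le⟩ k (by omega)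
  have cF := close Fn F cFT hFT (by linarith) ccF
  have cG := close Gn G cGT hGT (by linarith) ccG
  obtain ⟨n, ⟨hcF, hnF⟩, ⟨hcG, hnG⟩, hψn⟩ := (cF.and (cG.and hψ1)).exists
  set F' : Dif := ψ n * Fn n * (ψ n)⁻¹ with hF'
  set G' : Dif := ψ n * Gn n * (ψ n)⁻¹ with hG'
  obtain ⟨H, hH, hH1, hHd, ⟨j₁, hj₁⟩, ⟨j₂, hj₂⟩⟩ := hstab F' G' F'.contDiff (hper _ hcF)
    F'.deriv_pos G'.contDiff (hper _ hcG) G'.deriv_pos ⟨0, fun x => by
      have : F' * G' = G' * F' := by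
        rw [hF', hG']
        have := (cFG n).eq
        calc ψ n * Fn n * (ψ n)⁻¹ * (ψ n * Gn n * (ψ n)⁻¹) = ψ n * (Fn n * Gn n) * (ψ n)⁻¹ := by
              group
          _ = ψ n * (Gn n * Fn n) * (ψ n)⁻¹ := by rw [this]
          _ = _ := by group
      have := congrArg (fun k : Dif => k x) this
      simpa using this⟩
    (fun i hi x => ⟨hnF i hi x, hnG i hi x⟩)
  obtain ⟨K, hK, hKH⟩ := exists_allDif hH hH1 hHd
  apply hconj n
  have hval : ∀ (f : Dif) (x : ℝ), ψ n (f x) = (ψ n * f * (ψ n)⁻¹) (ψ n x) := by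
    intro f x; simp
  refine ⟨K * (ψ n).toPerm, mul_mem hK (ψ n).2.1, j₁, j₂, ?_⟩
  have hmul : ∀ x, (K * (ψ n).toPerm) x = H (ψ n x) := fun x => hKH _
  rcases hH1 with hH1 | hH1
  · refine ⟨1, Or.inl rfl, fun x => ?_, fun x => ?_, fun x => ?_⟩
    · rw [hmul, hmul, hval, ← hF']; exact hj₁ _
    · rw [hmul, hmul, hval, ← hG']; exact hj₂ _
    · rw [hmul, hmul, hψn, hH1]; push_cast; ring
  · refine ⟨-1, Or.inr rfl, fun x => ?_, fun x => ?_, fun x => ?_⟩
    · rw [hmul, hmul, hval, ← hF']; exact hj₁ _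
    · rw [hmul, hmul, hval, ← hG']; exact hj₂ _
    · rw [hmul, hmul, hψn, hH1]; push_cast; ring

end S

theorem setup {F G : ℝ → ℝ}
    (hF : ContDiff ℝ ((⊤ : ℕ∞) : WithTop ℕ∞) F) (hF1 : ∀ x : ℝ, F (x + 1) = F x + 1)
    (hF' : ∀ x : ℝ, 0 < deriv F x)
    (hG : ContDiff ℝ ((⊤ : ℕ∞) : WithTop ℕ∞) G) (hG1 : ∀ x : ℝ, G (x + 1) = G x + 1)
    (hG' : ∀ x : ℝ, 0 < deriv G x)
    (hFG : ∃ k : ℤ, ∀ x : ℝ, F (G x) = G (F x) + (k : ℝ))
    (hfaith : ∀ a b c d : ℕ,
        (∃ j : ℤ, ∀ x : ℝ, F^[a] (G^[b] x) = F^[c] (G^[d] x) + (j : ℝ)) → a = c ∧ b = d)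
    (hstab : ∃ r : ℕ, ∃ ε > (0 : ℝ), ∀ F' G' : ℝ → ℝ,
        ContDiff ℝ ((⊤ : ℕ∞) : WithTop ℕ∞) F' → (∀ x : ℝ, F' (x + 1) = F' x + 1) →
        (∀ x : ℝ, 0 < deriv F' x) →
        ContDiff ℝ ((⊤ : ℕ∞) : WithTop ℕ∞) G' → (∀ x : ℝ, G' (x + 1) = G' x + 1) →
        (∀ x : ℝ, 0 < deriv G' x) →
        (∃ k : ℤ, ∀ x : ℝ, F' (G' x) = G' (F' x) + (k : ℝ)) →
        (∀ i : ℕ, i ≤ r → ∀ x : ℝ,
          |iteratedDeriv i F' x - iteratedDeriv i F x| < ε ∧
          |iteratedDeriv i G' x - iteratedDeriv i G x| < ε) →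
        ∃ H : ℝ → ℝ, ContDiff ℝ ((⊤ : ℕ∞) : WithTop ℕ∞) H ∧
          ((∀ x : ℝ, H (x + 1) = H x + 1) ∨ (∀ x : ℝ, H (x + 1) = H x - 1)) ∧
          (∀ x : ℝ, deriv H x ≠ 0) ∧
          (∃ j : ℤ, ∀ x : ℝ, H (F' x) = F (H x) + (j : ℝ)) ∧
          (∃ j : ℤ, ∀ x : ℝ, H (G' x) = G (H x) + (j : ℝ))) :
    ∃ F₀ G₀ : Dif, (∀ x, F₀ x = F x) ∧ (∀ x, G₀ x = G x) ∧ Act F₀ G₀ ∧ Stable F₀ G₀ := by
  obtain ⟨F₀, hF₀⟩ := S.exists_dif_of_deg hF hF1 hF'
  obtain ⟨G₀, hG₀⟩ := S.exists_dif_of_deg hG hG1 hG'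
  obtain rfl : (fun x => F₀ x) = F := funext hF₀
  obtain rfl : (fun x => G₀ x) = G := funext hG₀
  obtain ⟨k, hk⟩ := hFG
  have hk0 : k = 0 := S.const_eq_zero (f := F₀) (g := G₀) hF1 hG1 hk
  have cFT : Commute F₀ T := Dif.commute_of_apply (fun x => hF1 x)
  have cGT : Commute G₀ T := Dif.commute_of_apply (fun x => hG1 x)
  have cFG : Commute F₀ G₀ := Dif.commute_of_apply (fun x => by
    have := hk x
    rw [hk0] at this
    simpa using this)
  have hpow : ∀ (f : Dif) (n : ℕ) (x : ℝ), (fun x => f x)^[n] x = (f ^ n) x := by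
    intro f n
    induction n with
    | zero => intro x; simp
    | succ n ih =>
      intro x
      rw [Function.iterate_succ_apply, ih, pow_succ, Dif.mul_apply]
  refine ⟨F₀, G₀, fun _ => rfl, fun _ => rfl, ⟨cFT, cGT, cFG, ?_⟩, ?_⟩
  · intro a b c habc
    have h1 : F₀ ^ a.toNat * G₀ ^ b.toNat = F₀ ^ (-a).toNat * G₀ ^ (-b).toNat * T ^ (-c) := by
      have ea : (F₀ ^ a : Dif) = (F₀ ^ (-a).toNat)⁻¹ * F₀ ^ a.toNat := by
        have h : a = -(((-a).toNat : ℕ) : ℤ) + ((a.toNat : ℕ) : ℤ) := by omega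
        conv_lhs => rw [h, zpow_add, zpow_neg, zpow_natCast, zpow_natCast]
      have eb : (G₀ ^ b : Dif) = G₀ ^ b.toNat * (G₀ ^ (-b).toNat)⁻¹ := by
        have h : b = ((b.toNat : ℕ) : ℤ) + -(((-b).toNat : ℕ) : ℤ) := by omega
        conv_lhs => rw [h, zpow_add, zpow_neg, zpow_natCast, zpow_natCast]
      have h2 : F₀ ^ a.toNat * (G₀ ^ b.toNat * (G₀ ^ (-b).toNat)⁻¹) * T ^ c
          = F₀ ^ (-a).toNat := by
        rw [ea, eb] at habc
        have : (F₀ ^ (-a).toNat)⁻¹ * (F₀ ^ a.toNat * (G₀ ^ b.toNat * (G₀ ^ (-b).toNat)⁻¹) * T ^ c)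
            = 1 := by
          rw [← habc]; group
        rw [inv_mul_eq_one] at this
        exact this.symm
      have hcomm : Commute ((G₀ ^ (-b).toNat)⁻¹) (T ^ c) :=
        ((cGT.pow_left _).zpow_right c).inv_left
      rw [← h2]
      have : F₀ ^ a.toNat * (G₀ ^ b.toNat * (G₀ ^ (-b).toNat)⁻¹) * T ^ c * G₀ ^ (-b).toNat *
          T ^ (-c) = F₀ ^ a.toNat * G₀ ^ b.toNat * ((G₀ ^ (-b).toNat)⁻¹ * T ^ c) *
          G₀ ^ (-b).toNat * T ^ (-c) := by group
      rw [this, hcomm.eq]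
      group
    obtain ⟨e1, e2⟩ := hfaith a.toNat b.toNat (-a).toNat (-b).toNat ⟨-c, fun x => by
      rw [hpow, hpow, hpow, hpow]
      have := congrArg (fun k : Dif => k x) h1
      simp only [Dif.mul_apply] at this
      rw [this]
      have hT := Dif.comm_apply (f := F₀ ^ (-a).toNat * G₀ ^ (-b).toNat) (g := T ^ (-c))
        (((cFT.pow_left _).mul_left (cGT.pow_left _)).zpow_right _) x
      simp only [Dif.mul_apply] at hT
      rw [hT, T_zpow_apply]⟩
    have ha : a = 0 := by omega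
    have hb : b = 0 := by omega
    subst ha hb
    refine ⟨rfl, rfl, ?_⟩
    have := congrArg (fun k : Dif => k 0) habc
    simp only [zpow_zero, one_mul, T_zpow_apply, Dif.one_apply, zero_add] at this
    exact_mod_cast this
  · obtain ⟨r, ε, hε, hst⟩ := hstab
    exact S.stable_of_frozen cFT cGT hε hst

end Pool.Agent.F88
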