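import Pool.Agent.Lib.MP_f88c17.Toolkit

/-!
# The rational case: elements and their values
-/

set_option autoImplicit false

open Set Filter Topology
open scoped ContDiff

namespace Pool.Agent.F88.BA

variable {F G : Dif} {nF nG q : ℤ}

/-- `γ` is an element `F^a G^b T^c` of value `v`. -/
def Val (F G : Dif) (nF nG q : ℤ) (γ : Dif) (v : ℤ) : Prop :=
  ∃ a b c : ℤ, γ = F ^ a * G ^ b * T ^ c ∧ a * nF + b * nG + c * q = v

theorem inL_iff {γ : Dif} : InL F G nF nG q γ ↔ Val F G nF nG q γ 0 := Iff.rfl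

theorem val_F : Val F G nF nG q F nF := ⟨1, 0, 0, by simp, by ring⟩

theorem val_G : Val F G nF nG q G nG := ⟨0, 1, 0, by simp, by ring⟩

theorem val_T : Val F G nF nG q T q := ⟨0, 0, 1, by simp, by ring⟩

theorem val_one : Val F G nF nG q 1 0 := ⟨0, 0, 0, by simp, by ring⟩

/-- words -/
theorem word_commute (h : Act F G) (a b c a' b' c' : ℤ) :
    Commute (F ^ a * G ^ b * T ^ c) (F ^ a' * G ^ b' * T ^ c') := by
  have hFG := h.FG
  have hFT := h.FT
  have hGT := h.GT
  have hGF := hFG.symm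
  have hTF := hFT.symm
  have hTG := hGT.symm
  have e1 : Commute F (F ^ a' * G ^ b' * T ^ c') :=
    (((Commute.refl F).zpow_right a').mul_right (hFG.zpow_right b')).mul_right (hFT.zpow_right c')
  have e2 : Commute G (F ^ a' * G ^ b' * T ^ c') :=
    ((hGF.zpow_right a').mul_right ((Commute.refl G).zpow_right b')).mul_right (hGT.zpow_right c')
  have e3 : Commute T (F ^ a' * G ^ b' * T ^ c') :=
    ((hTF.zpow_right a').mul_right (hTG.zpow_right b')).mul_right
      ((Commute.refl T).zpow_right c')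
  exact ((e1.zpow_left a).mul_left (e2.zpow_left b)).mul_left (e3.zpow_left c)

theorem word_mul (h : Act F G) (a b c a' b' c' : ℤ) :
    (F ^ a * G ^ b * T ^ c) * (F ^ a' * G ^ b' * T ^ c') =
      F ^ (a + a') * G ^ (b + b') * T ^ (c + c') := by
  have h1 : Commute (G ^ b * T ^ c) (F ^ a') :=
    (((h.FG.symm).zpow_left b).mul_left ((h.FT.symm).zpow_left c)).zpow_right a'
  have h2 : Commute (T ^ c) (G ^ b') := (h.GT.symm).zpow_zpow c b'
  calc (F ^ a * G ^ b * T ^ c) * (F ^ a' * G ^ b' * T ^ c')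
      = F ^ a * ((G ^ b * T ^ c) * F ^ a') * (G ^ b' * T ^ c') := by group
    _ = F ^ a * (F ^ a' * (G ^ b * T ^ c)) * (G ^ b' * T ^ c') := by rw [h1.eq]
    _ = (F ^ a * F ^ a') * G ^ b * (T ^ c * G ^ b') * T ^ c' := by group
    _ = (F ^ a * F ^ a') * G ^ b * (G ^ b' * T ^ c) * T ^ c' := by rw [h2.eq]
    _ = (F ^ a * F ^ a') * (G ^ b * G ^ b') * (T ^ c * T ^ c') := by group
    _ = _ := by rw [← zpow_add, ← zpow_add, ← zpow_add]

theorem Val.mul (h : Act F G) {γ γ' : Dif} {v v' : ℤ} (h1 : Val F G nF nG q γ v)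
    (h2 : Val F G nF nG q γ' v') : Val F G nF nG q (γ * γ') (v + v') := by
  obtain ⟨a, b, c, rfl, rfl⟩ := h1
  obtain ⟨a', b', c', rfl, rfl⟩ := h2
  exact ⟨a + a', b + b', c + c', word_mul h _ _ _ _ _ _, by ring⟩

theorem Val.inv (h : Act F G) {γ : Dif} {v : ℤ} (h1 : Val F G nF nG q γ v) :
    Val F G nF nG q γ⁻¹ (-v) := by
  obtain ⟨a, b, c, rfl, rfl⟩ := h1
  refine ⟨-a, -b, -c, ?_, by ring⟩
  rw [inv_eq_iff_mul_eq_one, word_mul h]
  simp

theorem Val.pow (h : Act F G) {γ : Dif} {v : ℤ} (h1 : Val F G nF nG q γ v) (n : ℕ) :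
    Val F G nF nG q (γ ^ n) (n * v) := by
  induction n with
  | zero => simpa using val_one
  | succ n ih =>
    rw [pow_succ]
    have := ih.mul h h1
    convert this using 1
    push_cast; ring

theorem Val.zpow (h : Act F G) {γ : Dif} {v : ℤ} (h1 : Val F G nF nG q γ v) (n : ℤ) :
    Val F G nF nG q (γ ^ n) (n * v) := by
  cases n with
  | ofNat n => simpa using h1.pow h n
  | negSucc n =>
    rw [zpow_negSucc]
    have := (h1.pow h (n + 1)).inv h
    convert this using 1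
    rw [Int.negSucc_eq]
    push_cast; ring

theorem Val.comm (h : Act F G) {γ γ' : Dif} {v v' : ℤ} (h1 : Val F G nF nG q γ v)
    (h2 : Val F G nF nG q γ' v') : Commute γ γ' := by
  obtain ⟨a, b, c, rfl, rfl⟩ := h1
  obtain ⟨a', b', c', rfl, rfl⟩ := h2
  exact word_commute h _ _ _ _ _ _

theorem Val.lt (h : Rat F G nF nG q) {γ : Dif} {v : ℤ} (h1 : Val F G nF nG q γ v) (hv : 0 < v)
    (x : ℝ) : x < γ x := by
  obtain ⟨a, b, c, rfl, rfl⟩ := h1
  exact h.pos a b c hv x

theorem Val.fix (h : Rat F G nF nG q) {γ : Dif} (h1 : Val F G nF nG q γ 0) :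
    ∃ x, γ x = x := by
  obtain ⟨a, b, c, rfl, h2⟩ := h1
  exact h.fix a b c h2

theorem Val.unique (h : Rat F G nF nG q) {γ : Dif} {v w : ℤ} (h1 : Val F G nF nG q γ v)
    (h2 : Val F G nF nG q γ w) : v = w := by
  by_contra hne
  have key : ∀ {v w : ℤ}, Val F G nF nG q γ v → Val F G nF nG q γ w → v < w → False := by
    intro v w h1 h2 hlt
    have h3 := h2.mul h.toAct (h1.inv h.toAct)
    rw [mul_inv_cancel] at h3
    exact lt_irrefl (0 : ℝ) (h3.lt h (by omega) 0)
  rcases lt_or_gt_of_ne hne with hlt | hlt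
  · exact key h1 h2 hlt
  · exact key h2 h1 hlt

/-- images of common fixed points -/
theorem fixK_map (h : Rat F G nF nG q) {z : ℝ} (hz : FixK F G nF nG q z) {γ : Dif} {v : ℤ}
    (h1 : Val F G nF nG q γ v) : FixK F G nF nG q (γ z) := by
  intro δ hδ
  have := Dif.comm_apply ((inL_iff.mp hδ).comm h.toAct h1) z
  rw [this, hz δ hδ]

/-- an element of value one -/
theorem exists_sigma (h : Rat F G nF nG q) : ∃ σ, Val F G nF nG q σ 1 := by
  obtain ⟨a, b, c, habc⟩ := h.one
  exact ⟨_, a, b, c, rfl, habc⟩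

/-- decomposition `E = σ^v λ` -/
theorem exists_lam (h : Rat F G nF nG q) {σ E : Dif} {v : ℤ} (hσ : Val F G nF nG q σ 1)
    (hE : Val F G nF nG q E v) : InL F G nF nG q (σ ^ (-v) * E) := by
  have := (hσ.zpow h.toAct (-v)).mul h.toAct hE
  rw [inL_iff]
  convert this using 1
  ring

theorem sigma_q (h : Rat F G nF nG q) {σ : Dif} (hσ : Val F G nF nG q σ 1) {z : ℝ}
    (hz : FixK F G nF nG q z) : (σ ^ q) z = z + 1 := by
  have h1 : InL F G nF nG q (T * σ ^ (-q)) := by
    have := val_T (F := F) (G := G) (nF := nF) (nG := nG) (q := q) |>.mul h.toAct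
      (hσ.zpow h.toAct (-q))
    rw [inL_iff]
    convert this using 1
    ring
  have h2 := fixK_map h hz (hσ.zpow h.toAct q) _ h1
  rw [Dif.mul_apply, zpow_neg, Dif.inv_apply_self, T_apply] at h2
  exact h2.symm

theorem sigma_qk (h : Rat F G nF nG q) {σ : Dif} (hσ : Val F G nF nG q σ 1) {z : ℝ}
    (hz : FixK F G nF nG q z) (k : ℤ) : (σ ^ (q * k)) z = z + k := by
  have hnat : ∀ n : ℕ, ∀ z, FixK F G nF nG q z → (σ ^ (q * (n : ℤ))) z = z + n := by
    intro n
    induction n with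
    | zero => intro z _; simp
    | succ n ih =>
      intro z hz
      have e : q * ((n + 1 : ℕ) : ℤ) = q * n + q := by push_cast; ring
      rw [e, zpow_add, Dif.mul_apply, sigma_q h hσ hz]
      have hz1 : FixK F G nF nG q (z + 1) := by
        have := fixK_map h hz (val_T (F := F) (G := G) (nF := nF) (nG := nG) (q := q))
        rwa [T_apply] at this
      rw [ih _ hz1]
      push_cast; ring
  cases k with
  | ofNat n => simpa using hnat n z hz
  | negSucc n =>
    have e : q * Int.negSucc n = -(q * ((n + 1 : ℕ) : ℤ)) := by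
      rw [Int.negSucc_eq]; push_cast; ring
    have hz' : FixK F G nF nG q ((σ ^ (q * Int.negSucc n)) z) :=
      fixK_map h hz (hσ.zpow h.toAct _)
    have h1 := hnat (n + 1) _ hz'
    rw [e, zpow_neg, Dif.apply_inv_self] at h1
    rw [e, zpow_neg, Int.cast_negSucc]
    push_cast at h1 ⊢
    linarith

theorem sigma_lt (h : Rat F G nF nG q) {σ : Dif} (hσ : Val F G nF nG q σ 1) {k l : ℤ}
    (hkl : k < l) (x : ℝ) : (σ ^ k) x < (σ ^ l) x := by
  have h1 : Val F G nF nG q (σ ^ (l - k)) (l - k) := by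
    have := hσ.zpow h.toAct (l - k)
    rwa [mul_one] at this
  have h2 := h1.lt h (by omega) ((σ ^ k) x)
  rw [← Dif.mul_apply, ← zpow_add] at h2
  have e : l - k + k = l := by ring
  rwa [e] at h2

theorem sigma_le (h : Rat F G nF nG q) {σ : Dif} (hσ : Val F G nF nG q σ 1) {k l : ℤ}
    (hkl : k ≤ l) (x : ℝ) : (σ ^ k) x ≤ (σ ^ l) x := by
  rcases hkl.lt_or_eq with h1 | h1
  · exact (sigma_lt h hσ h1 x).le
  · rw [h1]

/-- elements of value zero move points by at most one -/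
theorem inL_disp (h : Rat F G nF nG q) {σ : Dif} (hσ : Val F G nF nG q σ 1) {z : ℝ}
    (hz : FixK F G nF nG q z) {s : Dif} (hs : InL F G nF nG q s) (x : ℝ) : |s x - x| ≤ 1 := by
  -- `z + k ≤ x ≤ z + k + 1`
  obtain ⟨k, hk1, hk2⟩ : ∃ k : ℤ, z + k ≤ x ∧ x ≤ z + k + 1 :=
    ⟨⌊x - z⌋, by linarith [Int.floor_le (x - z)], by linarith [(Int.lt_floor_add_one (x - z)).le]⟩
  have hf : ∀ k : ℤ, s (z + k) = z + k := by
    intro k
    have h1 := fixK_map h hz (hσ.zpow h.toAct (q * k)) s hs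
    rwa [sigma_qk h hσ hz] at h1
  have h1 : z + k ≤ s x := by
    rw [← hf k]; exact s.le_iff.mpr hk1
  have h2 : s x ≤ z + k + 1 := by
    have h3 := hf (k + 1)
    push_cast at h3
    have h4 : s x ≤ s (z + k + 1) := s.le_iff.mpr hk2
    rw [add_assoc] at h4
    rw [h3] at h4
    linarith
  rw [abs_le]
  constructor <;> linarith

end Pool.Agent.F88.BA
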