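import Pool.Agent.Lib.MP_f88c17.Toolkit

/-!
# Local lemma: windows
-/

set_option autoImplicit false

open Set Filter Topology
open scoped ContDiff

namespace Pool.Agent.F88.LL

/-! ## Windows -/

/-- the window of size `j` around `x₀` -/
def Wd (S : Dif) (x₀ : ℝ) (j : ℤ) : Set ℝ := Icc ((S ^ (-j)) x₀) ((S ^ j) x₀)

theorem zpow_lt {S : Dif} {x₀ : ℝ} (h : x₀ < S x₀) {i j : ℤ} (hij : i < j) :
    (S ^ i) x₀ < (S ^ j) x₀ := by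
  have h1 : ∀ n : ℕ, x₀ < (S ^ (n + 1)) x₀ := by
    intro n
    induction n with
    | zero => simpa using h
    | succ n ih =>
      rw [pow_succ', Dif.mul_apply]
      exact h.trans (S.strictMono ih)
  obtain ⟨n, hn⟩ : ∃ n : ℕ, j = i + (n + 1 : ℕ) := ⟨(j - i - 1).toNat, by
    have : 0 ≤ j - i - 1 := by omega
    push_cast
    rw [Int.toNat_of_nonneg this]; ring⟩
  rw [hn, zpow_add, Dif.mul_apply]
  apply (S ^ i).strictMono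
  have := h1 n
  rw [zpow_natCast]
  exact this

theorem zpow_le {S : Dif} {x₀ : ℝ} (h : x₀ < S x₀) {i j : ℤ} (hij : i ≤ j) :
    (S ^ i) x₀ ≤ (S ^ j) x₀ := by
  rcases hij.lt_or_eq with h1 | h1
  · exact (zpow_lt h h1).le
  · rw [h1]

theorem Wd_mono {S : Dif} {x₀ : ℝ} (h : x₀ < S x₀) {i j : ℤ} (hij : i ≤ j) :
    Wd S x₀ i ⊆ Wd S x₀ j :=
  Icc_subset_Icc (zpow_le h (by omega)) (zpow_le h hij)

theorem Wd_zpow {S : Dif} {x₀ z : ℝ} (h : x₀ < S x₀) {i j k : ℤ} (hz : z ∈ Wd S x₀ i)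
    (hk : i + |j| ≤ k) : (S ^ j) z ∈ Wd S x₀ k := by
  have h1 := (S ^ j).strictMono.monotone hz.1
  have h2 := (S ^ j).strictMono.monotone hz.2
  simp only [← Dif.mul_apply, ← zpow_add] at h1 h2
  have h3 := abs_le.mp (le_refl |j|)
  exact ⟨(zpow_le h (by omega)).trans h1, h2.trans (zpow_le h (by omega))⟩

theorem mem_between {S : Dif} {x₀ z y : ℝ} {i : ℤ} (hz : z ∈ Wd S x₀ i)
    (hSz : S z ∈ Wd S x₀ i) (hy : y ∈ Icc z (S z)) : y ∈ Wd S x₀ i :=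
  ⟨hz.1.trans hy.1, hy.2.trans hSz.2⟩

/-- window data for `S` -/
structure Win (S : Dif) (x₀ a ρ ν C : ℝ) (n : ℕ) (K : ℤ) : Prop where
  lt : x₀ < S x₀
  a_pos : 0 < a
  ρ_pos : 0 < ρ
  ν_pos : 0 < ν
  ν_le : ν ≤ 1
  ρa : ρ * a = ν
  C_ge : 1 ≤ C
  lo : ∀ z ∈ Wd S x₀ K, a / 2 ≤ S z - z
  hi : ∀ z ∈ Wd S x₀ K, S z - z ≤ 2 * a
  der : ∀ z ∈ Wd S x₀ K, ∀ l ≤ n, |iteratedDeriv l (fun y => S y - y) z| ≤ C * a * ρ ^ l

end Pool.Agent.F88.LL
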